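import Pool.Agent.RAF.Basic

/-!
# RAF.WDefs: definitions for the last part (no proofs needed except `cM_pos`, `cM_ge`, `cM_le`, `cM_succ`)

PROOF. `cM_ge`: `a = M - 1` satisfies all the conditions: `2^i (a+1) - 1 = 2^i M - 1` is coprime to `M`. `cM_le`: the cardinality is at most `M`. `cM_succ`: the set for `k + 1` is contained in that for `k`.
-/

namespace RAF

open Filter

variable {M : ℕ} {t K : ℝ} {g : ℕ → ℝ}

open Classical in
/-- What we know almost surely. -/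
structure GoodR (M : ℕ) (t : ℝ) (g : ℕ → ℝ) (ω : ℕ → ℝ × ℝ) : Prop where
  mem : ∀ i, ω i ∈ Set.Icc (0 : ℝ) 1 ×ˢ Set.Icc (0 : ℝ) 1
  var : ∀ ε : ℝ, 0 < ε → ε < 1 → ∀ N : ℕ, 1 ≤ N → ∀ᶠ m : ℕ in atTop, ∀ b J : ℕ,
    ((J : ℝ) + 1 ≤ (1 - ε) * (Real.log (RLC.win N m) / Real.log (Real.log (RLC.win N m)))) →
    |∑ n ∈ (Finset.Ioc (RLC.win N m) (RLC.win N (m + 1))).filter (fun n => n ∈ Inn t b),
      (wt M t g n J ω - RLC.th n * RR M J n)| ≤
      ((M : ℝ) / (Nat.totient M : ℝ)) ^ J * ((RLC.win N m : ℝ) / Real.log (RLC.win N m))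
  bdry : ∀ᶠ b : ℕ in atTop, ∀ J : ℕ, ((J : ℝ) ≤ 2 * (Real.log (2 ^ b) / Real.log (Real.log (2 ^ b)))) →
    ∑ n ∈ (Finset.Ico (2 ^ b) (2 ^ (b + 1))).filter (fun n => n ∉ Inn t b), wt M t g n J ω ≤
      (2 : ℝ) ^ ((1 - (1 - t) / 8) * (b : ℝ))

/-- The asymptotic formula in the windows. -/
def WinAs (M : ℕ) (t : ℝ) (g : ℕ → ℝ) (ω : ℕ → ℝ × ℝ) : Prop :=
  ∀ ε : ℝ, 0 < ε → ε < 1 → ∀ N : ℕ, 1 ≤ N → ∀ e : ℝ, 0 < e → ∀ᶠ m : ℕ in atTop, ∀ k : ℕ, 1 ≤ k →
    (k : ℝ) ≤ (1 - ε) * (Real.log (RLC.win N m) / Real.log (Real.log (RLC.win N m))) →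
    |(cnt M t g ω k (Finset.Ioc (RLC.win N m) (RLC.win N (m + 1))) : ℝ) * FX k (RLC.win N m) -
      cM M k * ((RLC.win N (m + 1) : ℝ) - RLC.win N m)| ≤
      e * cM M k * ((RLC.win N (m + 1) : ℝ) - RLC.win N m)

private theorem WDefs_coprime (hM : 0 < M) (i : ℕ) : Nat.Coprime (2 ^ i * (M - 1 + 1) - 1) M := by
  have h1 : M - 1 + 1 = M := Nat.sub_add_cancel hM
  rw [h1]
  have hpos : 0 < 2 ^ i * M := by positivity
  have h2 : Nat.Coprime (2 ^ i * M - 1) (2 ^ i * M) := by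
    have h3 : 2 ^ i * M = (2 ^ i * M - 1) + 1 := by omega
    have h4 : Nat.Coprime (2 ^ i * M - 1) ((2 ^ i * M - 1) + 1) := by simp
    rw [← h3] at h4
    exact h4
  exact Nat.Coprime.coprime_dvd_right (Dvd.intro_left _ rfl) h2

private theorem WDefs_ratio_nonneg (M k : ℕ) : 0 ≤ ((M : ℝ) / (Nat.totient M : ℝ)) ^ k := by
  positivity

private theorem WDefs_card_pos (hM : 0 < M) (k : ℕ) :
    1 ≤ ((Finset.range M).filter fun a => ∀ i < k, Nat.Coprime (2 ^ i * (a + 1) - 1) M).card := by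
  apply Finset.card_pos.mpr
  refine ⟨M - 1, ?_⟩
  rw [Finset.mem_filter]
  refine ⟨?_, fun i _ => WDefs_coprime hM i⟩
  rw [Finset.mem_range]
  omega

theorem cM_ge (hM : 0 < M) (k : ℕ) : 1 / (M : ℝ) * ((M : ℝ) / (Nat.totient M : ℝ)) ^ k ≤ cM M k := by
  unfold cM
  apply mul_le_mul_of_nonneg_right _ (WDefs_ratio_nonneg M k)
  have hM' : (0 : ℝ) < M := by exact_mod_cast hM
  apply div_le_div_of_nonneg_right _ hM'.le
  exact_mod_cast WDefs_card_pos hM k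

theorem cM_le (hM : 0 < M) (k : ℕ) : cM M k ≤ ((M : ℝ) / (Nat.totient M : ℝ)) ^ k := by
  unfold cM
  have hM' : (0 : ℝ) < M := by exact_mod_cast hM
  have h1 : ((((Finset.range M).filter fun a => ∀ i < k, Nat.Coprime (2 ^ i * (a + 1) - 1) M).card : ℕ) : ℝ) / M ≤ 1 := by
    rw [div_le_one hM']
    have h2 : ((Finset.range M).filter fun a => ∀ i < k, Nat.Coprime (2 ^ i * (a + 1) - 1) M).card ≤ M := by
      calc _ ≤ (Finset.range M).card := Finset.card_filter_le _ _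
        _ = M := Finset.card_range M
    exact_mod_cast h2
  calc _ ≤ 1 * ((M : ℝ) / (Nat.totient M : ℝ)) ^ k :=
        mul_le_mul_of_nonneg_right h1 (WDefs_ratio_nonneg M k)
    _ = _ := one_mul _

theorem cM_pos (hM : 0 < M) (k : ℕ) : 0 < cM M k := by
  refine lt_of_lt_of_le ?_ (cM_ge hM k)
  have hM' : (0 : ℝ) < M := by exact_mod_cast hM
  have ht : (0 : ℝ) < (Nat.totient M : ℝ) := by exact_mod_cast Nat.totient_pos.mpr hM
  positivity

theorem cM_succ (hM : 0 < M) (k : ℕ) : cM M (k + 1) ≤ (M : ℝ) / (Nat.totient M : ℝ) * cM M k := by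
  unfold cM
  have hM' : (0 : ℝ) < M := by exact_mod_cast hM
  have h1 : ((Finset.range M).filter fun a => ∀ i < k + 1, Nat.Coprime (2 ^ i * (a + 1) - 1) M).card ≤
      ((Finset.range M).filter fun a => ∀ i < k, Nat.Coprime (2 ^ i * (a + 1) - 1) M).card := by
    apply Finset.card_le_card
    intro a ha
    rw [Finset.mem_filter] at ha ⊢
    exact ⟨ha.1, fun i hi => ha.2 i (Nat.lt_succ_of_lt hi)⟩
  have h2 : ((((Finset.range M).filter fun a => ∀ i < k + 1, Nat.Coprime (2 ^ i * (a + 1) - 1) M).card : ℕ) : ℝ) / M ≤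
      ((((Finset.range M).filter fun a => ∀ i < k, Nat.Coprime (2 ^ i * (a + 1) - 1) M).card : ℕ) : ℝ) / M := by
    apply div_le_div_of_nonneg_right _ hM'.le
    exact_mod_cast h1
  calc _ ≤ ((((Finset.range M).filter fun a => ∀ i < k, Nat.Coprime (2 ^ i * (a + 1) - 1) M).card : ℕ) : ℝ) / M *
        ((M : ℝ) / (Nat.totient M : ℝ)) ^ (k + 1) :=
        mul_le_mul_of_nonneg_right h2 (WDefs_ratio_nonneg M (k + 1))
    _ = _ := by rw [pow_succ]; ring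

end RAF
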