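import Pool.Agent.RAF.Vari
import Pool.Agent.RAF.WDefs
import Pool.Agent.RLC.WinC

/-!
# RAF.AeV: Borel-Cantelli for the windows

PROOF. As `Pool/Agent/RLC/AeW.lean` (copy; private lemmas there). It is enough to treat `ε = 1/(q+2)`, `q : ℕ`, and one `N`. Let `Y = RLC.win N m` (large), `b0 = log₂ Y`. For large `m` the window `Ioc Y (win N (m+1)) ⊆ Ioc Y (2Y)` meets `Inn t b` only for `b = b0` and
`b = b0 + 1`; for the other `b` the sum is empty. For `b ∈ {b0, b0+1}`: `Y < 2^(b+1)`, so `log(2^b) ≥ log Y - log 2`, and `J + 1 ≤ (1-ε) log Y/log log Y` implies `J + 1 ≤ (1-ε/2) L/log L`, `L = log(2^b)`, for large `m`. `variance` with `ε/2`, `A = 8` and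
Markov's inequality: the probability that the bound in `GoodR.var` fails is at most `2^b b^(-8) log Y/Y ≤ 2 b^(-8) · 2 b ≤ 4 b^(-7)` (`2^b ≤ 2Y`). There are at most `b` values of `J` and two values of `b`, and `b ≥ c m`, `c > 0`, so the probabilities are
summable over `m`: `measure_limsup_atTop_eq_zero` (or `ae_eventually_notMem`). `ae_mem` is in `Res.lean`.
-/

namespace RAF

open MeasureTheory Filter

variable {M : ℕ} {t K : ℝ} {g : ℕ → ℝ}

private theorem AeV_lam {N : ℕ} (hN : 1 ≤ N) : 1 < 1 + 1 / (N : ℝ) := by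
  have : (0 : ℝ) < N := by exact_mod_cast hN
  have : 0 < 1 / (N : ℝ) := by positivity
  linarith

private theorem AeV_tendsto {N : ℕ} (hN : 1 ≤ N) : Tendsto (fun m => RLC.win N m) atTop atTop := by
  have h1 : Tendsto (fun m : ℕ => (1 + 1 / (N : ℝ)) ^ m) atTop atTop :=
    tendsto_pow_atTop_atTop_of_one_lt (AeV_lam hN)
  exact tendsto_nat_floor_atTop.comp h1

private theorem AeV_double {N : ℕ} (hN : 1 ≤ N) : ∀ᶠ m : ℕ in atTop, RLC.win N (m + 1) ≤ 2 * RLC.win N m := by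
  rcases Nat.lt_or_ge N 2 with h | h
  · obtain rfl : N = 1 := by omega
    refine Eventually.of_forall fun m => ?_
    have h1 : ∀ k : ℕ, RLC.win 1 k = 2 ^ k := by
      intro k
      unfold RLC.win
      have : (1 + 1 / ((1 : ℕ) : ℝ)) ^ k = ((2 ^ k : ℕ) : ℝ) := by
        push_cast
        norm_num
      rw [this, Nat.floor_natCast]
    rw [h1, h1, pow_succ]
    omega
  · filter_upwards [(AeV_tendsto hN).eventually_ge_atTop 3] with m hm
    have h0 : (2 : ℝ) ≤ N := by exact_mod_cast h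
    have h1 : 1 + 1 / (N : ℝ) ≤ 3 / 2 := by
      have : 1 / (N : ℝ) ≤ 1 / 2 := one_div_le_one_div_of_le (by norm_num) h0
      linarith
    have h2 : (1 + 1 / (N : ℝ)) ^ m < (RLC.win N m : ℝ) + 1 := Nat.lt_floor_add_one _
    have h3 : (3 : ℝ) ≤ (RLC.win N m : ℝ) := by exact_mod_cast hm
    have h4 : ((RLC.win N (m + 1) : ℕ) : ℝ) ≤ (1 + 1 / (N : ℝ)) ^ (m + 1) := by
      apply Nat.floor_le
      positivity
    have h5 : (0 : ℝ) < (1 + 1 / (N : ℝ)) ^ m := by positivity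
    have h6 : ((RLC.win N (m + 1) : ℕ) : ℝ) ≤ ((2 * RLC.win N m : ℕ) : ℝ) := by
      push_cast
      rw [pow_succ] at h4
      nlinarith
    exact_mod_cast h6

private theorem AeV_log {N : ℕ} (hN : 1 ≤ N) : ∃ c : ℝ, 0 < c ∧ ∀ᶠ m : ℕ in atTop,
    c * (m : ℝ) ≤ Real.log (RLC.win N m) := by
  have hl := AeV_lam hN
  have hlog : 0 < Real.log (1 + 1 / (N : ℝ)) := Real.log_pos hl
  refine ⟨Real.log (1 + 1 / (N : ℝ)) / 2, by positivity, ?_⟩
  have h1 : Tendsto (fun m : ℕ => (1 + 1 / (N : ℝ)) ^ m) atTop atTop :=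
    tendsto_pow_atTop_atTop_of_one_lt hl
  have h2 : Tendsto (fun m : ℕ => Real.log (1 + 1 / (N : ℝ)) / 2 * (m : ℝ)) atTop atTop :=
    Tendsto.const_mul_atTop (by positivity) tendsto_natCast_atTop_atTop
  filter_upwards [h1.eventually_ge_atTop 2, h2.eventually_ge_atTop (Real.log 2)] with m hm1 hm2
  have h3 : (1 + 1 / (N : ℝ)) ^ m < (RLC.win N m : ℝ) + 1 := Nat.lt_floor_add_one _
  have h4 : (1 + 1 / (N : ℝ)) ^ m / 2 ≤ (RLC.win N m : ℝ) := by linarith
  have h5 : Real.log ((1 + 1 / (N : ℝ)) ^ m / 2) ≤ Real.log (RLC.win N m) :=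
    Real.log_le_log (by positivity) h4
  rw [Real.log_div (by positivity) (by norm_num), Real.log_pow] at h5
  linarith

private theorem AeV_markov {f : (ℕ → ℝ × ℝ) → ℝ} (hf : Measurable f) {a b : ℝ} (ha : 0 < a)
    (h : ∫⁻ ω, ENNReal.ofReal |f ω| ∂Pm ≤ ENNReal.ofReal (a * b)) :
    Pm {ω | a < |f ω|} ≤ ENNReal.ofReal b := by
  have h1 := mul_meas_ge_le_lintegral (μ := Pm) hf.abs.ennreal_ofReal (ENNReal.ofReal a)
  have h2 : {ω | a < |f ω|} ⊆ {ω | ENNReal.ofReal a ≤ ENNReal.ofReal |f ω|} := by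
    intro ω hω
    have hω' : a < |f ω| := hω
    exact ENNReal.ofReal_le_ofReal hω'.le
  have h3 : ENNReal.ofReal a * Pm {ω | a < |f ω|} ≤ ENNReal.ofReal a * ENNReal.ofReal b := by
    refine (mul_le_mul_right (measure_mono h2) _).trans ((h1.trans h).trans ?_)
    rw [← ENNReal.ofReal_mul ha.le]
  exact (ENNReal.mul_le_mul_iff_right (ENNReal.ofReal_pos.2 ha).ne' ENNReal.ofReal_ne_top).1 h3

/-- The condition on `J` in the block `b ≥ log₂ Y`. -/
private theorem AeV_cond {ε L : ℝ} (hε : 0 < ε) (hε1 : ε < 1) (hL : 4 ≤ L) (hLε : 2 / ε ≤ L) {b J : ℕ}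
    (hb : L ≤ ((b : ℝ) + 1) * Real.log 2) (hJ : (J : ℝ) + 1 ≤ (1 - ε) * (L / Real.log L)) :
    (J : ℝ) + 1 ≤ (1 - ε / 2) * (Real.log (2 ^ b) / Real.log (Real.log (2 ^ b))) := by
  have h2 := Real.log_two_lt_d9
  have hb2 : Real.log ((2 : ℝ) ^ b) = (b : ℝ) * Real.log 2 := by rw [Real.log_pow]
  rw [hb2]
  have h3 : L - 1 ≤ (b : ℝ) * Real.log 2 := by nlinarith
  have he := Real.exp_one_lt_d9
  have hll : 1 ≤ Real.log (L - 1) := by
    rw [Real.le_log_iff_exp_le (by linarith)]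
    linarith
  have h4 : Real.log (L - 1) ≤ Real.log L := Real.log_le_log (by linarith) (by linarith)
  have h5 : Real.log ((b : ℝ) * Real.log 2) / ((b : ℝ) * Real.log 2) ≤ Real.log (L - 1) / (L - 1) :=
    Real.log_div_self_antitoneOn (show Real.exp 1 ≤ L - 1 by linarith)
      (show Real.exp 1 ≤ (b : ℝ) * Real.log 2 by linarith) h3
  have hll' : 1 ≤ Real.log ((b : ℝ) * Real.log 2) := hll.trans (Real.log_le_log (by linarith) h3)
  have h6 : (L - 1) / Real.log (L - 1) ≤ ((b : ℝ) * Real.log 2) / Real.log ((b : ℝ) * Real.log 2) := by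
    rw [div_le_div_iff₀ (by linarith) (by linarith)] at h5 ⊢
    linarith
  have h7 : (L - 1) / Real.log L ≤ (L - 1) / Real.log (L - 1) :=
    div_le_div_of_nonneg_left (by linarith) (by linarith) h4
  have h8 : (1 - ε) * (L / Real.log L) ≤ (1 - ε / 2) * ((L - 1) / Real.log L) := by
    rw [← mul_div_assoc, ← mul_div_assoc]
    apply div_le_div_of_nonneg_right _ (by linarith)
    rw [div_le_iff₀ hε] at hLε
    nlinarith
  have h9 : (1 - ε / 2) * ((L - 1) / Real.log L) ≤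
      (1 - ε / 2) * (((b : ℝ) * Real.log 2) / Real.log ((b : ℝ) * Real.log 2)) :=
    mul_le_mul_of_nonneg_left (h7.trans h6) (by linarith)
  linarith

open Classical in
/-- The window is bad. -/
private def AeV_bad (M : ℕ) (t : ℝ) (g : ℕ → ℝ) (ε : ℝ) (Y Y' : ℕ) : Set (ℕ → ℝ × ℝ) :=
  {ω | ∃ b J : ℕ, ((J : ℝ) + 1 ≤ (1 - ε) * (Real.log Y / Real.log (Real.log Y))) ∧
    ((M : ℝ) / (Nat.totient M : ℝ)) ^ J * ((Y : ℝ) / Real.log Y) <
      |∑ n ∈ (Finset.Ioc Y Y').filter (fun n => n ∈ Inn t b), (wt M t g n J ω - RLC.th n * RR M J n)|}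

open Classical in
private theorem AeV_prob (h : Adm M t K g) {ε : ℝ} (hε : 0 < ε) (hε1 : ε < 1) : ∃ Y0 : ℝ, ∀ Y Y' : ℕ,
    Y0 ≤ Real.log Y → Y' ≤ 2 * Y →
    Pm (AeV_bad M t g ε Y Y') ≤ ENNReal.ofReal (1024 / (Real.log Y) ^ 6) := by
  obtain ⟨m1, hvar⟩ := variance (A := 8) h (show 0 < ε / 2 by positivity) (by linarith) (by norm_num)
  refine ⟨max (max 4 (2 / ε)) ((m1 : ℝ) + 1), fun Y Y' hY0 hY' => ?_⟩
  have hL4 : 4 ≤ Real.log Y := ((le_max_left _ _).trans (le_max_left _ _)).trans hY0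
  have hLε : 2 / ε ≤ Real.log Y := ((le_max_right _ _).trans (le_max_left _ _)).trans hY0
  have hLm : (m1 : ℝ) + 1 ≤ Real.log Y := (le_max_right _ _).trans hY0
  clear hY0
  have hYpos : 0 < Y := by
    rcases Nat.eq_zero_or_pos Y with h0 | h0
    · rw [h0] at hL4
      norm_num at hL4
    · exact h0
  have hYR : (0 : ℝ) < Y := by exact_mod_cast hYpos
  set L := Real.log (Y : ℝ) with hL
  have hL0 : 0 < L := by linarith
  have hr := ratio_one_le h.hM
  set r := (M : ℝ) / (Nat.totient M : ℝ) with hrdef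
  have hr0 : 0 < r := by linarith
  have hl2 := Real.log_two_lt_d9
  have hl2' := Real.log_two_gt_d9
  have hll : 1 ≤ Real.log L := by
    rw [Real.le_log_iff_exp_le hL0]
    have := Real.exp_one_lt_d9
    linarith
  set b0 := Nat.log 2 Y with hb0
  have hYlt : Y < 2 ^ (b0 + 1) := Nat.lt_pow_succ_log_self (by norm_num) Y
  have hYge : 2 ^ b0 ≤ Y := Nat.pow_log_le_self 2 hYpos.ne'
  have hLb : L ≤ ((b0 : ℝ) + 1) * Real.log 2 := by
    have h1 : Real.log (Y : ℝ) ≤ Real.log ((2 : ℝ) ^ (b0 + 1)) := by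
      apply Real.log_le_log hYR
      exact_mod_cast hYlt.le
    rw [Real.log_pow] at h1
    push_cast at h1
    exact h1
  -- the blocks which meet the window
  have hblock : ∀ b : ℕ, b ≠ b0 → b ≠ b0 + 1 → (Finset.Ioc Y Y').filter (fun n => n ∈ Inn t b) = ∅ := by
    intro b hb1 hb2
    rw [Finset.filter_eq_empty_iff]
    intro n hn hnb
    rw [Finset.mem_Ioc] at hn
    have h1 := (Inn_pos hnb).2
    have h2 : b0 ≤ Nat.log 2 n := Nat.log_mono_right hn.1.le
    have h3 : Nat.log 2 n < b0 + 1 + 1 := by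
      apply Nat.log_lt_of_lt_pow (by omega)
      rw [pow_succ]
      omega
    omega
  have hj : ∀ j : ℕ, ((j : ℝ) + 1 ≤ (1 - ε) * (L / Real.log L)) → j < ⌊L⌋₊ := by
    intro j hj
    have e1 : L / Real.log L ≤ L := div_le_self hL0.le hll
    have e2 : 0 ≤ L / Real.log L := div_nonneg hL0.le (by linarith)
    have e3 : (j : ℝ) + 1 ≤ L := by nlinarith
    have e4 : ((j + 1 : ℕ) : ℝ) ≤ L := by exact_mod_cast e3
    have := Nat.le_floor e4
    omega
  set F : ℕ → ℕ → Set (ℕ → ℝ × ℝ) := fun b j => {ω | r ^ j * ((Y : ℝ) / L) <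
    |∑ n ∈ (Finset.Ioc Y Y').filter (fun n => n ∈ Inn t b), (wt M t g n j ω - RLC.th n * RR M j n)|} with hF
  have hone : ∀ b : ℕ, b = b0 ∨ b = b0 + 1 → ∀ j : ℕ, ((j : ℝ) + 1 ≤ (1 - ε) * (L / Real.log L)) →
      Pm (F b j) ≤ ENNReal.ofReal (512 / L ^ 7) := by
    intro b hb j hj1
    have hbb : (b0 : ℝ) ≤ b := by
      have : b0 ≤ b := by omega
      exact_mod_cast this
    have hLb' : L ≤ ((b : ℝ) + 1) * Real.log 2 :=
      hLb.trans (mul_le_mul_of_nonneg_right (by linarith) (by linarith))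
    have hbL : L / 2 ≤ (b : ℝ) := by nlinarith
    have hbm : m1 ≤ b := by
      have h1 : (m1 : ℝ) ≤ (b : ℝ) := by nlinarith
      exact_mod_cast h1
    have hb0' : (0 : ℝ) < b := by linarith
    have h2b : (2 : ℝ) ^ b ≤ 2 * Y := by
      have h1 : 2 ^ b ≤ 2 * Y := by
        calc 2 ^ b ≤ 2 ^ (b0 + 1) := Nat.pow_le_pow_right (by norm_num) (by omega)
          _ = 2 ^ b0 * 2 := pow_succ _ _
          _ ≤ 2 * Y := by omega
      exact_mod_cast h1
    have h1 := hvar b hbm ((Finset.Ioc Y Y').filter (fun n => n ∈ Inn t b))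
      (fun n hn => (Finset.mem_filter.1 hn).2) j (AeV_cond hε hε1 hL4 hLε hLb' hj1)
    have hmeas : Measurable fun ω => ∑ n ∈ (Finset.Ioc Y Y').filter (fun n => n ∈ Inn t b),
        (wt M t g n j ω - RLC.th n * RR M j n) :=
      Finset.measurable_fun_sum _ fun n _ => (wt_meas M t g n j).sub_const _
    have ha : 0 < r ^ j * ((Y : ℝ) / L) := by positivity
    refine AeV_markov hmeas ha (h1.trans (ENNReal.ofReal_le_ofReal ?_))
    have h8 : (b : ℝ) ^ (-8 : ℝ) ≤ 256 / L ^ 8 := by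
      have e1 : (b : ℝ) ^ (-8 : ℝ) = 1 / (b : ℝ) ^ 8 := by
        rw [Real.rpow_neg hb0'.le, one_div]
        norm_cast
      rw [e1]
      have e2 : 1 / (b : ℝ) ^ 8 ≤ 1 / (L / 2) ^ 8 :=
        one_div_le_one_div_of_le (by positivity) (pow_le_pow_left₀ (by positivity) hbL 8)
      refine e2.trans (le_of_eq ?_)
      rw [div_pow]
      field_simp
      norm_num
    calc r ^ j * 2 ^ b * (b : ℝ) ^ (-8 : ℝ) ≤ r ^ j * (2 * Y) * (256 / L ^ 8) := by
          gcongr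
      _ = r ^ j * ((Y : ℝ) / L) * (512 / L ^ 7) := by
          field_simp
          norm_num
  have hsub : AeV_bad M t g ε Y Y' ⊆ ⋃ j ∈ (Finset.range ⌊L⌋₊).filter
      (fun j : ℕ => (j : ℝ) + 1 ≤ (1 - ε) * (L / Real.log L)), (F b0 j ∪ F (b0 + 1) j) := by
    rintro ω ⟨b, j, hj1, hj2⟩
    simp only [Set.mem_iUnion]
    refine ⟨j, Finset.mem_filter.2 ⟨Finset.mem_range.2 (hj j hj1), hj1⟩, ?_⟩
    by_cases hb1 : b = b0
    · left
      rw [← hb1]
      exact hj2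
    · by_cases hb2 : b = b0 + 1
      · right
        rw [← hb2]
        exact hj2
      · exfalso
        rw [hblock b hb1 hb2, Finset.sum_empty, abs_zero] at hj2
        have : 0 < r ^ j * ((Y : ℝ) / L) := by positivity
        linarith
  calc Pm (AeV_bad M t g ε Y Y') ≤ _ := measure_mono hsub
    _ ≤ _ := measure_biUnion_finset_le _ _
    _ ≤ ∑ _j ∈ (Finset.range ⌊L⌋₊).filter (fun j : ℕ => (j : ℝ) + 1 ≤ (1 - ε) * (L / Real.log L)),
        ENNReal.ofReal (1024 / L ^ 7) := by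
        apply Finset.sum_le_sum
        intro j hj1
        have hj2 := (Finset.mem_filter.1 hj1).2
        refine (measure_union_le _ _).trans ((add_le_add (hone b0 (Or.inl rfl) j hj2)
          (hone (b0 + 1) (Or.inr rfl) j hj2)).trans (le_of_eq ?_))
        rw [← ENNReal.ofReal_add (by positivity) (by positivity)]
        congr 1
        ring
    _ ≤ (⌊L⌋₊ : ENNReal) * ENNReal.ofReal (1024 / L ^ 7) := by
        rw [Finset.sum_const, nsmul_eq_mul]
        gcongr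
        refine (Finset.card_filter_le _ _).trans ?_
        rw [Finset.card_range]
    _ ≤ ENNReal.ofReal L * ENNReal.ofReal (1024 / L ^ 7) := by
        gcongr
        rw [← ENNReal.ofReal_natCast]
        exact ENNReal.ofReal_le_ofReal (Nat.floor_le hL0.le)
    _ = ENNReal.ofReal (1024 / L ^ 6) := by
        rw [← ENNReal.ofReal_mul hL0.le]
        congr 1
        field_simp

open Classical in
private theorem AeV_one (h : Adm M t K g) {ε : ℝ} (hε : 0 < ε) (hε1 : ε < 1) (N : ℕ) (hN : 1 ≤ N) :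
    ∀ᵐ ω ∂Pm, ∀ᶠ m : ℕ in atTop, ∀ b J : ℕ,
    ((J : ℝ) + 1 ≤ (1 - ε) * (Real.log (RLC.win N m) / Real.log (Real.log (RLC.win N m)))) →
    |∑ n ∈ (Finset.Ioc (RLC.win N m) (RLC.win N (m + 1))).filter (fun n => n ∈ Inn t b),
      (wt M t g n J ω - RLC.th n * RR M J n)| ≤
      ((M : ℝ) / (Nat.totient M : ℝ)) ^ J * ((RLC.win N m : ℝ) / Real.log (RLC.win N m)) := by
  obtain ⟨Y0, hY0⟩ := AeV_prob h hε hε1
  obtain ⟨c, hc, hlog⟩ := AeV_log hN
  have hwin := AeV_tendsto hN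
  have hLY : ∀ᶠ m : ℕ in atTop, Y0 ≤ Real.log (RLC.win N m) :=
    ((Real.tendsto_log_atTop.comp (tendsto_natCast_atTop_atTop (R := ℝ))).comp hwin).eventually_ge_atTop Y0
  obtain ⟨m0, hm0⟩ := eventually_atTop.1 (hLY.and ((AeV_double hN).and (hlog.and (eventually_ge_atTop 1))))
  set s : ℕ → Set (ℕ → ℝ × ℝ) := fun m => AeV_bad M t g ε (RLC.win N m) (RLC.win N (m + 1)) with hs
  have hmeas : ∀ m, m0 ≤ m → Pm (s m) ≤ ENNReal.ofReal (1024 / (c * (m : ℝ)) ^ 6) := by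
    intro m hm
    obtain ⟨h1, h3, h4, h6⟩ := hm0 m hm
    have hm1 : (1 : ℝ) ≤ (m : ℝ) := by exact_mod_cast h6
    have hcm : 0 < c * (m : ℝ) := by positivity
    refine (hY0 _ _ h1 h3).trans (ENNReal.ofReal_le_ofReal ?_)
    apply div_le_div_of_nonneg_left (by norm_num) (by positivity)
    exact pow_le_pow_left₀ hcm.le h4 6
  have hsum : ∑' m, Pm (s (m + m0)) ≠ ⊤ := by
    have hsm : Summable fun m : ℕ => 1024 / (c * ((m + m0 : ℕ) : ℝ)) ^ 6 := by
      have h1 : Summable fun m : ℕ => 1 / (m : ℝ) ^ 6 := Real.summable_one_div_nat_pow.2 (by norm_num)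
      have h2 := ((summable_nat_add_iff m0).2 h1).mul_left (1024 / c ^ 6)
      refine h2.congr fun m => ?_
      rw [mul_pow]
      field_simp
    have h3 : ∑' m, ENNReal.ofReal (1024 / (c * ((m + m0 : ℕ) : ℝ)) ^ 6) ≠ ⊤ := hsm.tsum_ofReal_ne_top
    exact ne_top_of_le_ne_top h3 (ENNReal.tsum_le_tsum fun m => hmeas (m + m0) (by omega))
  filter_upwards [ae_eventually_notMem hsum] with x hx
  obtain ⟨m1, hm1⟩ := eventually_atTop.1 hx
  refine eventually_atTop.2 ⟨m1 + m0, fun m hm b J hJ => ?_⟩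
  have h1 := hm1 (m - m0) (by omega)
  rw [Nat.sub_add_cancel (by omega : m0 ≤ m)] at h1
  by_contra h2
  exact h1 ⟨b, J, hJ, not_le.1 h2⟩

open Classical in
theorem ae_var (h : Adm M t K g) : ∀ᵐ ω ∂Pm, ∀ ε : ℝ, 0 < ε → ε < 1 → ∀ N : ℕ, 1 ≤ N → ∀ᶠ m : ℕ in atTop, ∀ b J : ℕ,
    ((J : ℝ) + 1 ≤ (1 - ε) * (Real.log (RLC.win N m) / Real.log (Real.log (RLC.win N m)))) →
    |∑ n ∈ (Finset.Ioc (RLC.win N m) (RLC.win N (m + 1))).filter (fun n => n ∈ Inn t b),
      (wt M t g n J ω - RLC.th n * RR M J n)| ≤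
      ((M : ℝ) / (Nat.totient M : ℝ)) ^ J * ((RLC.win N m : ℝ) / Real.log (RLC.win N m)) := by
  have hq : ∀ q : ℕ, ∀ N : ℕ, ∀ᵐ ω ∂Pm, 1 ≤ N → ∀ᶠ m : ℕ in atTop, ∀ b J : ℕ,
      ((J : ℝ) + 1 ≤ (1 - 1 / ((q : ℝ) + 2)) *
        (Real.log (RLC.win N m) / Real.log (Real.log (RLC.win N m)))) →
      |∑ n ∈ (Finset.Ioc (RLC.win N m) (RLC.win N (m + 1))).filter (fun n => n ∈ Inn t b),
        (wt M t g n J ω - RLC.th n * RR M J n)| ≤
        ((M : ℝ) / (Nat.totient M : ℝ)) ^ J * ((RLC.win N m : ℝ) / Real.log (RLC.win N m)) := by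
    intro q N
    by_cases hN : 1 ≤ N
    · have hq0 : (0 : ℝ) ≤ q := Nat.cast_nonneg q
      have h1 : (0 : ℝ) < 1 / ((q : ℝ) + 2) := by positivity
      have h2 : 1 / ((q : ℝ) + 2) < 1 := by
        rw [div_lt_one (by linarith)]
        linarith
      filter_upwards [AeV_one h h1 h2 N hN] with ω hω _
      exact hω
    · exact Eventually.of_forall fun ω hN' => absurd hN' hN
  filter_upwards [ae_all_iff.2 fun q => ae_all_iff.2 (hq q)] with ω h2 ε hε hε1 N hN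
  obtain ⟨q, hqε⟩ := exists_nat_ge (1 / ε)
  have hq0 : (0 : ℝ) ≤ q := Nat.cast_nonneg q
  have h3 : 1 / ((q : ℝ) + 2) ≤ ε := by
    rw [div_le_iff₀ (by linarith)]
    rw [div_le_iff₀ hε] at hqε
    nlinarith
  have hL3 : ∀ᶠ m : ℕ in atTop, (3 : ℝ) ≤ Real.log (RLC.win N m) :=
    ((Real.tendsto_log_atTop.comp (tendsto_natCast_atTop_atTop (R := ℝ))).comp
      (AeV_tendsto hN)).eventually_ge_atTop 3
  filter_upwards [h2 q N hN, hL3] with m hm hm3 b J hJ
  refine hm b J (hJ.trans ?_)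
  have hll : 0 ≤ Real.log (Real.log (RLC.win N m)) := Real.log_nonneg (by linarith)
  have h5 : 0 ≤ Real.log (RLC.win N m) / Real.log (Real.log (RLC.win N m)) :=
    div_nonneg (by linarith) hll
  exact mul_le_mul_of_nonneg_right (by linarith) h5

end RAF
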