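import Pool.Agent.RAF.SqX

/-!
# RAF.AsX: the factor with `Λ` on small sets of frequencies

PROOF. `κ'` from `DX_sq M 41`, `κ = 3κ'/80`. `U = L/20`. As in `Pool/Agent/ASC/SupC.lean` (private there, copy):
`As χ U c τ = (1/√(4π)) ∫_{w>U} exp(-(w-c)²/8) gc χ Λ ((w+c)/2) τ dw`. With `v = (w+c)/2 ≥ (U + L/40)/2 = 3L/80`. As `D1_formula` in
`Pool/Agent/RLC/LVG.lean` (copy): `gc χ Λ v τ - [χ=1] √(2π) exp(-τ²/2) exp(-iτv) = √(2/(3π)) ∫ exp(-2ξ²/3) exp(-iξv) DX χ v (τ-ξ) dξ`. By Cauchy-Schwarz twice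
`∫_E ‖As χ U c‖² ≤ C ∫_w exp(-(w-c)²/8) (∫_ξ exp(-2ξ²/3) ∫_{E-ξ} ‖DX χ v‖² dξ + ∫_E 7 exp(-τ²)) dw`; the last term is tiny because
`|τ| ≥ L` on `E`. For `w ≤ 7L` and `|ξ| ≤ L`: `v ≤ 4L`, `E - ξ ⊆ {|τ| ≤ exp L + L} ⊆ {|τ| ≤ exp(41 v)}` (`41 · 3/80 > 3/2`), and
`volume (E-ξ) = volume E ≤ exp(κL) ≤ exp(κ' v)`: `DX_sq` gives `∫_{E-ξ} ‖DX χ v‖² ≤ v^(-A') ≤ (3L/80)^(-A')` (`v ≥ 3L/80 ≥ L0'`). For `w > 7L` or `|ξ| > L`
use `‖DX χ v τ‖ ≤ C (1+|v|)^6` (`ASC.P_triv`, `‖mainT‖ ≤ 6`), `volume E ≤ exp(κL)` and the Gaussian weights (`w - c ≥ 6L`,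
resp. `exp(-2L²/3)`). (One may work with `lintegral`s: only upper bounds are needed. Joint measurability: continuity in all the
variables, as in the files mentioned.)
-/

namespace RAF

open MeasureTheory ArithmeticFunction ASI ASC


private theorem AsX_gint (q c : ℝ) (hq : 0 < q) :
    Integrable (fun w : ℝ => Real.exp (-(q * (w - c) ^ 2))) := by
  have h := (integrable_exp_neg_mul_sq hq).comp_sub_right c
  refine h.congr (Filter.Eventually.of_forall fun w => ?_)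
  simp only [neg_mul]

private theorem AsX_gval (q c : ℝ) :
    ∫ w : ℝ, Real.exp (-(q * (w - c) ^ 2)) = Real.sqrt (Real.pi / q) := by
  rw [integral_sub_right_eq_self (fun x : ℝ => Real.exp (-(q * x ^ 2))) c]
  have h := integral_gaussian q
  simp only [neg_mul] at h
  exact h

private theorem AsX_gint' (q c : ℝ) (hq : 0 < q) :
    Integrable (fun w : ℝ => Real.exp (-(q * (c - w) ^ 2))) := by
  refine (AsX_gint q c hq).congr (Filter.Eventually.of_forall fun w => ?_)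
  show Real.exp (-(q * (w - c) ^ 2)) = Real.exp (-(q * (c - w) ^ 2))
  rw [sub_sq_comm]

private theorem AsX_gval' (q c : ℝ) :
    ∫ w : ℝ, Real.exp (-(q * (c - w) ^ 2)) = Real.sqrt (Real.pi / q) := by
  rw [← AsX_gval q c]
  congr 1
  ext w
  rw [sub_sq_comm]

private def AsX_H (a : ℕ → ℝ) : Prop :=
  ∀ n : ℕ, |a n| ≤ (n.divisors.card : ℝ) ^ 2 * (1 + Real.log n) ^ 2

private theorem AsX_H_of {a : ℕ → ℝ} (h0 : a 0 = 0)
    (h : ∀ n : ℕ, 1 ≤ n → |a n| ≤ (1 + Real.log n) ^ 2) : AsX_H a := by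
  intro n
  rcases Nat.eq_zero_or_pos n with hn | hn
  · subst hn
    simp [h0]
  · have h1 : (1 : ℝ) ≤ (n.divisors.card : ℝ) := by
      exact_mod_cast Finset.card_pos.2 ⟨1, Nat.one_mem_divisors.2 hn.ne'⟩
    have h2 := h n hn
    have h3 : (1 : ℝ) ≤ (n.divisors.card : ℝ) ^ 2 := one_le_pow₀ h1
    nlinarith [sq_nonneg (1 + Real.log n)]

private theorem AsX_H_vM : AsX_H (fun n => vonMangoldt n) := by
  refine AsX_H_of (by simp) (fun n hn => ?_)
  rw [abs_of_nonneg vonMangoldt_nonneg]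
  have h1 : 0 ≤ Real.log n := Real.log_natCast_nonneg n
  exact vonMangoldt_le_log.trans (by nlinarith)

private theorem AsX_sum : ∃ C : ℝ, 1 ≤ C ∧ ∀ a : ℕ → ℝ, AsX_H a → ∀ β c : ℝ, 1 / 16 ≤ β →
    Summable (fun n : ℕ => |a n| * (n : ℝ)⁻¹ * Real.exp (-(β * (Real.log n - c) ^ 2))) ∧
    ∑' n : ℕ, |a n| * (n : ℝ)⁻¹ * Real.exp (-(β * (Real.log n - c) ^ 2)) ≤ C * (1 + |c|) ^ 6 := by
  obtain ⟨C, hC, hdg⟩ := div_gauss
  refine ⟨C, hC, fun a ha β c hβ => ?_⟩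
  obtain ⟨h1, h2, -⟩ := hdg c
  have h3 : ∀ n : ℕ, |a n| * (n : ℝ)⁻¹ * Real.exp (-(β * (Real.log n - c) ^ 2)) ≤
      (n.divisors.card : ℝ) ^ 2 * (1 + Real.log n) ^ 2 / n *
        Real.exp (-(Real.log n - c) ^ 2 / 16) := by
    intro n
    rw [div_eq_mul_inv]
    refine mul_le_mul (mul_le_mul_of_nonneg_right (ha n) (by positivity)) ?_
      (Real.exp_pos _).le (by positivity)
    refine Real.exp_le_exp.2 ?_
    nlinarith [sq_nonneg (Real.log n - c)]
  have h4 : ∀ n : ℕ, 0 ≤ |a n| * (n : ℝ)⁻¹ * Real.exp (-(β * (Real.log n - c) ^ 2)) :=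
    fun n => by positivity
  have h5 := Summable.of_nonneg_of_le h4 h3 h1
  exact ⟨h5, (h5.tsum_le_tsum h3 h1).trans h2⟩

private theorem AsX_gs_bound :
    ∃ C : ℝ, 1 ≤ C ∧ ∀ (M : ℕ) (χ : DirichletCharacter ℂ M) (a : ℕ → ℝ), AsX_H a → ∀ m τ : ℝ,
    ‖VKC.gc χ a m τ‖ ≤ C * (1 + |m|) ^ 6 := by
  obtain ⟨C, hC, h⟩ := AsX_sum
  refine ⟨C, hC, fun M χ a ha m τ => ?_⟩
  obtain ⟨h1, h2⟩ := h a ha (1 / 2) m (by norm_num)
  unfold VKC.gc
  have h3 : ∀ n : ℕ, ‖((a n : ℂ) * χ n) * (n : ℂ) ^ (-(1 + τ * Complex.I)) *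
      Real.exp (-(Real.log n - m) ^ 2 / 2)‖
      ≤ |a n| * (n : ℝ)⁻¹ * Real.exp (-(1 / 2 * (Real.log n - m) ^ 2)) := by
    intro n
    have h4 := nc_norm χ n τ
    unfold nc at h4
    rw [mul_assoc (a n : ℂ), norm_mul, norm_mul, Complex.norm_real, Complex.norm_real, Real.norm_eq_abs,
      Real.norm_eq_abs, abs_of_pos (Real.exp_pos _)]
    have h5 : Real.exp (-(Real.log n - m) ^ 2 / 2) = Real.exp (-(1 / 2 * (Real.log n - m) ^ 2)) := by
      congr 1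
      ring
    rw [h5]
    exact mul_le_mul_of_nonneg_right (mul_le_mul_of_nonneg_left h4 (abs_nonneg _))
      (Real.exp_pos _).le
  have h4 : Summable (fun n : ℕ => ‖((a n : ℂ) * χ n) * (n : ℂ) ^ (-(1 + τ * Complex.I)) *
      Real.exp (-(Real.log n - m) ^ 2 / 2)‖) :=
    Summable.of_nonneg_of_le (fun n => norm_nonneg _) h3 h1
  exact (norm_tsum_le_tsum_norm h4).trans ((h4.tsum_le_tsum h3 h1).trans h2)

private theorem AsX_exch {M : ℕ} (χ : DirichletCharacter ℂ M) {a : ℕ → ℝ} (ha : AsX_H a) {α β : ℝ} (hα : 0 < α) (hβ : 1 / 16 ≤ β)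
    (hab : α + β = 1 / 2) (U c τ : ℝ) :
    ∑' n : ℕ, ((a n * ∫ w in Set.Ioi U, Real.exp (-(α * (Real.log n - w) ^ 2)) : ℝ) : ℂ) *
      nc χ n τ * ((Real.exp (-(β * (Real.log n - c) ^ 2)) : ℝ) : ℂ) =
    ∫ w in Set.Ioi U, ((Real.exp (-(2 * α * β * (w - c) ^ 2)) : ℝ) : ℂ) *
      VKC.gc χ a (2 * α * w + 2 * β * c) τ := by
  obtain ⟨C, hC, h⟩ := AsX_sum
  obtain ⟨h1, -⟩ := h a ha β c hβ
  set F : ℕ → ℝ → ℂ := fun n w =>
    ((a n : ℂ) * nc χ n τ * ((Real.exp (-(β * (Real.log n - c) ^ 2)) : ℝ) : ℂ)) *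
    ((Real.exp (-(α * (Real.log n - w) ^ 2)) : ℝ) : ℂ) with hF
  have hint : ∀ n : ℕ, Integrable (fun w : ℝ => Real.exp (-(α * (Real.log n - w) ^ 2))) :=
    fun n => AsX_gint' α (Real.log n) hα
  have hFint : ∀ n, Integrable (F n) (volume.restrict (Set.Ioi U)) := by
    intro n
    have h2 : Integrable (fun w : ℝ => ((Real.exp (-(α * (Real.log n - w) ^ 2)) : ℝ) : ℂ)) :=
      (hint n).ofReal
    exact (h2.const_mul _).restrict
  have hFnorm : ∀ n w, ‖F n w‖ ≤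
      (|a n| * (n : ℝ)⁻¹ * Real.exp (-(β * (Real.log n - c) ^ 2))) *
        Real.exp (-(α * (Real.log n - w) ^ 2)) := by
    intro n w
    simp only [hF]
    rw [norm_mul, norm_mul, norm_mul, Complex.norm_real, Complex.norm_real,
      Complex.norm_real, Real.norm_eq_abs, Real.norm_eq_abs, Real.norm_eq_abs,
      abs_of_pos (Real.exp_pos _), abs_of_pos (Real.exp_pos _)]
    exact mul_le_mul_of_nonneg_right (mul_le_mul_of_nonneg_right
      (mul_le_mul_of_nonneg_left (nc_norm χ n τ) (abs_nonneg _)) (Real.exp_pos _).le)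
      (Real.exp_pos _).le
  have hsum : Summable (fun n => ∫ w in Set.Ioi U, ‖F n w‖) := by
    refine Summable.of_nonneg_of_le (fun n => integral_nonneg fun w => norm_nonneg _)
      (fun n => ?_) (h1.mul_right (Real.sqrt (Real.pi / α)))
    refine (setIntegral_mono (hFint n).norm ((hint n).const_mul _).integrableOn
      (fun w => hFnorm n w)).trans ?_
    rw [integral_const_mul]
    refine mul_le_mul_of_nonneg_left ?_ (by positivity)
    rw [← AsX_gval' α (Real.log n)]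
    exact setIntegral_le_integral (hint n)
      (Filter.Eventually.of_forall fun w => (Real.exp_pos _).le)
  have h2 := (hasSum_integral_of_summable_integral_norm hFint hsum).tsum_eq
  have h3 : ∀ n, ∫ w in Set.Ioi U, F n w =
      ((a n * ∫ w in Set.Ioi U, Real.exp (-(α * (Real.log n - w) ^ 2)) : ℝ) : ℂ) * nc χ n τ *
      ((Real.exp (-(β * (Real.log n - c) ^ 2)) : ℝ) : ℂ) := by
    intro n
    simp only [hF]
    rw [integral_const_mul, integral_complex_ofReal, Complex.ofReal_mul]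
    ring
  have h4 : ∀ w, ∑' n, F n w = ((Real.exp (-(2 * α * β * (w - c) ^ 2)) : ℝ) : ℂ) *
      VKC.gc χ a (2 * α * w + 2 * β * c) τ := by
    intro w
    unfold VKC.gc
    rw [← tsum_mul_left]
    refine tsum_congr fun n => ?_
    simp only [hF, nc]
    have h5 : Real.exp (-(β * (Real.log n - c) ^ 2)) * Real.exp (-(α * (Real.log n - w) ^ 2)) =
        Real.exp (-(2 * α * β * (w - c) ^ 2)) *
          Real.exp (-(Real.log n - (2 * α * w + 2 * β * c)) ^ 2 / 2) := by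
      rw [← Real.exp_add, ← Real.exp_add]
      congr 1
      have h7 : α = 1 / 2 - β := by linarith
      subst h7
      ring
    have h6 := congrArg (fun x : ℝ => (x : ℂ)) h5
    simp only [Complex.ofReal_mul] at h6
    linear_combination ((a n : ℂ) * χ n * (n : ℂ) ^ (-(1 + τ * Complex.I))) * h6
  rw [← tsum_congr h3, h2]
  simp only [h4]

private theorem AsX_rep {M : ℕ} (χ : DirichletCharacter ℂ M) (U c τ : ℝ) :
    ASC.As χ U c τ = ((1 / Real.sqrt (4 * Real.pi) : ℝ) : ℂ) *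
      ∫ w in Set.Ioi U, ((Real.exp (-(2 * (1 / 4) * (1 / 4) * (w - c) ^ 2)) : ℝ) : ℂ) *
        VKC.gc χ (fun n => vonMangoldt n) (2 * (1 / 4) * w + 2 * (1 / 4) * c) τ := by
  rw [← AsX_exch χ AsX_H_vM (by norm_num) (by norm_num) (by norm_num) U c τ,
    ← tsum_mul_left]
  unfold ASC.As hL
  refine tsum_congr fun n => ?_
  have e1 : ∀ x w : ℝ, -(x - w) ^ 2 / 4 = -(1 / 4 * (x - w) ^ 2) := by
    intro x w
    ring
  simp only [e1]
  rw [Complex.ofReal_mul, Complex.ofReal_mul, Complex.ofReal_mul]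
  ring

private theorem AsX_rep_bd {M : ℕ} (χ : DirichletCharacter ℂ M) (U c τ : ℝ) :
    ‖ASC.As χ U c τ‖ₑ ≤ ∫⁻ w in Set.Ioi U, ENNReal.ofReal (Real.exp (-(1 / 8 * (w - c) ^ 2))) *
      ‖VKC.gc χ (fun n => vonMangoldt n) ((w + c) / 2) τ‖ₑ := by
  rw [AsX_rep, enorm_mul]
  have h1 : ‖((1 / Real.sqrt (4 * Real.pi) : ℝ) : ℂ)‖ₑ ≤ 1 := by
    rw [← ofReal_norm, Complex.norm_real, Real.norm_of_nonneg (by positivity)]
    refine ENNReal.ofReal_le_one.2 ?_
    have hpi := Real.pi_gt_three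
    rw [div_le_one (Real.sqrt_pos.2 (by linarith))]
    exact Real.one_le_sqrt.2 (by linarith)
  refine (mul_le_mul' h1 (enorm_integral_le_lintegral_enorm _)).trans ?_
  rw [one_mul]
  refine lintegral_mono fun w => ?_
  rw [enorm_mul]
  refine mul_le_mul' (le_of_eq ?_) (le_of_eq ?_)
  · rw [← ofReal_norm, Complex.norm_real, Real.norm_of_nonneg (Real.exp_pos _).le]
    congr 2
    ring
  · congr 2
    ring

private theorem AsX_ne (τ : ℝ) : -(1 + (τ : ℂ) * Complex.I) ≠ 0 := by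
  intro h0
  have := congrArg Complex.re h0
  simp at this

private theorem AsX_nc_cont {M : ℕ} (χ : DirichletCharacter ℂ M) (n : ℕ) :
    Continuous (fun τ : ℝ => nc χ n τ) := by
  unfold nc
  refine continuous_const.mul ?_
  rw [continuous_iff_continuousAt]
  intro τ
  refine ContinuousAt.const_cpow ?_ (Or.inr (AsX_ne τ))
  fun_prop

private noncomputable def AsX_a (n : ℕ) : ℝ :=
  (n.divisors.card : ℝ) ^ 2 * (1 + Real.log n) ^ 2 / n

private theorem AsX_a_nonneg (n : ℕ) : 0 ≤ AsX_a n := by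
  unfold AsX_a
  positivity

private theorem AsX_lam_le (n : ℕ) : vonMangoldt n * (n : ℝ)⁻¹ ≤ AsX_a n := by
  unfold AsX_a
  rcases Nat.eq_zero_or_pos n with h | h
  · subst h
    simp
  · have h1 : (1 : ℝ) ≤ n := by exact_mod_cast h
    have h2 : 0 ≤ Real.log n := Real.log_nonneg h1
    have h3 : vonMangoldt n ≤ Real.log n := vonMangoldt_le_log
    have h4 : (1 : ℝ) ≤ n.divisors.card := by
      have : 0 < n.divisors.card := Finset.card_pos.mpr ⟨1, Nat.one_mem_divisors.mpr h.ne'⟩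
      exact_mod_cast this
    have h5 : Real.log n ≤ (n.divisors.card : ℝ) ^ 2 * (1 + Real.log n) ^ 2 := by
      have h6 : (1 : ℝ) ≤ (n.divisors.card : ℝ) ^ 2 := one_le_pow₀ h4
      nlinarith [sq_nonneg (Real.log n)]
    rw [← div_eq_mul_inv]
    exact div_le_div_of_nonneg_right (h3.trans h5) (by positivity)

private theorem AsX_term {M : ℕ} (χ : DirichletCharacter ℂ M) (n : ℕ) (τ : ℝ) :
    ‖(vonMangoldt n : ℂ) * nc χ n τ‖ ≤ AsX_a n := by
  rw [norm_mul, Complex.norm_real, Real.norm_of_nonneg vonMangoldt_nonneg]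
  exact (mul_le_mul_of_nonneg_left (nc_norm χ n τ) vonMangoldt_nonneg).trans (AsX_lam_le n)

private theorem AsX_dsum2 : ∃ C : ℝ, 1 ≤ C ∧ ∀ y : ℝ,
    Summable (fun n : ℕ => AsX_a n * Real.exp (-(Real.log n - y) ^ 2 / 16)) ∧
    ∑' n : ℕ, AsX_a n * Real.exp (-(Real.log n - y) ^ 2 / 16) ≤ C * (1 + |y|) ^ 6 := by
  obtain ⟨C, hC, h⟩ := ASI.div_gauss
  exact ⟨C, hC, fun y => ⟨(h y).1, (h y).2.1⟩⟩

private theorem AsX_dsum (y : ℝ) :
    Summable (fun n : ℕ => AsX_a n * Real.exp (-(Real.log n - y) ^ 2 / 16)) := by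
  obtain ⟨C, hC, h⟩ := AsX_dsum2
  exact (h y).1

private theorem AsX_exp_mono {x c c' : ℝ} (hc : 0 < c) (hcc : c ≤ c') :
    Real.exp (-x ^ 2 / c) ≤ Real.exp (-x ^ 2 / c') := by
  apply Real.exp_le_exp.mpr
  rw [neg_div, neg_div, neg_le_neg_iff]
  exact div_le_div_of_nonneg_left (sq_nonneg x) hc hcc

/-- the terms of `gc` -/
private noncomputable def AsX_g {M : ℕ} (χ : DirichletCharacter ℂ M) (w : ℝ) (n : ℕ) (τ : ℝ) : ℂ :=
  (vonMangoldt n : ℂ) * nc χ n τ * Real.exp (-(Real.log n - w) ^ 2 / 2)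

private theorem AsX_g_le {M : ℕ} (χ : DirichletCharacter ℂ M) (w : ℝ) (n : ℕ) (τ : ℝ) :
    ‖AsX_g χ w n τ‖ ≤ AsX_a n * Real.exp (-(Real.log n - w) ^ 2 / 16) := by
  unfold AsX_g
  rw [norm_mul, Complex.norm_real, Real.norm_of_nonneg (Real.exp_pos _).le]
  exact mul_le_mul (AsX_term χ n τ) (AsX_exp_mono (by norm_num) (by norm_num))
    (Real.exp_pos _).le (AsX_a_nonneg n)

private theorem AsX_gs {M : ℕ} (χ : DirichletCharacter ℂ M) (w τ : ℝ) :
    VKC.gc χ (fun n => vonMangoldt n) w τ = ∑' n : ℕ, AsX_g χ w n τ := by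
  unfold VKC.gc AsX_g nc
  refine tsum_congr fun n => ?_
  ring

private theorem AsX_gs_meas {M : ℕ} (χ : DirichletCharacter ℂ M) :
    Measurable (fun p : ℝ × ℝ => VKC.gc χ (fun n => vonMangoldt n) p.1 p.2) := by
  simp only [AsX_gs]
  refine measurable_of_tendsto_metrizable
    (f := fun (N : ℕ) (p : ℝ × ℝ) => ∑ n ∈ Finset.range N, AsX_g χ p.1 n p.2) (fun N => ?_) ?_
  · refine Finset.measurable_fun_sum _ fun n _ => ?_
    unfold AsX_g
    have h1 : Measurable (fun p : ℝ × ℝ => nc χ n p.2) :=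
      ((AsX_nc_cont χ n).comp continuous_snd).measurable
    have h2 : Measurable (fun p : ℝ × ℝ => ((Real.exp (-(Real.log n - p.1) ^ 2 / 2) : ℝ) : ℂ)) := by
      apply Continuous.measurable
      fun_prop
    exact (measurable_const.mul h1).mul h2
  · rw [tendsto_pi_nhds]
    intro p
    refine Summable.tendsto_sum_tsum_nat ?_
    exact Summable.of_norm_bounded (AsX_dsum p.1) fun n => AsX_g_le χ p.1 n p.2

private theorem AsX_mainT_norm (L τ : ℝ) : ‖ASI.mainT L τ‖ ≤ 6 := by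
  unfold ASI.mainT
  rw [norm_mul, norm_mul, Complex.norm_real, Complex.norm_real,
    Real.norm_of_nonneg (Real.sqrt_nonneg _), Real.norm_of_nonneg (Real.exp_pos _).le]
  have h1 : ‖Complex.exp (-(τ * L * Complex.I))‖ = 1 := by
    rw [Complex.norm_exp]
    simp
  rw [h1, mul_one]
  have h2 : Real.sqrt (8 * Real.pi) ≤ 6 := by
    rw [show (6 : ℝ) = Real.sqrt (6 ^ 2) by rw [Real.sqrt_sq (by norm_num)]]
    apply Real.sqrt_le_sqrt
    have := Real.pi_lt_four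
    linarith
  have h3 : Real.exp (-2 * τ ^ 2) ≤ 1 := Real.exp_le_one_iff.2 (by nlinarith [sq_nonneg τ])
  calc Real.sqrt (8 * Real.pi) * Real.exp (-2 * τ ^ 2) ≤ 6 * 1 :=
        mul_le_mul h2 h3 (Real.exp_pos _).le (by norm_num)
    _ = 6 := by norm_num

private theorem AsX_mainT_cont (L : ℝ) : Continuous (ASI.mainT L) := by
  unfold ASI.mainT
  fun_prop

private theorem AsX_DX_cont {M : ℕ} (χ : DirichletCharacter ℂ M) (w : ℝ) : Continuous (DX χ w) := by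
  unfold DX
  refine (ASC.P_cont χ w).sub ?_
  by_cases h : χ = 1
  · simp only [if_pos h]
    exact AsX_mainT_cont w
  · simp only [if_neg h]
    exact continuous_const

private theorem AsX_P_bd : ∃ C : ℝ, 1 ≤ C ∧ ∀ (M : ℕ) (χ : DirichletCharacter ℂ M) (L τ : ℝ),
    ‖ASC.P χ L τ‖ ≤ C * (1 + |L|) ^ 6 := by
  obtain ⟨C, hC, h⟩ := AsX_dsum2
  refine ⟨C, hC, fun M χ L τ => ?_⟩
  obtain ⟨h1, h2⟩ := h L
  refine le_trans ?_ h2
  unfold ASC.P
  refine tsum_of_norm_bounded h1.hasSum fun n => ?_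
  rw [norm_mul, Complex.norm_real, Real.norm_of_nonneg
    (show 0 ≤ ps L (Real.log n) from (Real.exp_pos _).le)]
  exact mul_le_mul (AsX_term χ n τ) (AsX_exp_mono (by norm_num) (by norm_num))
    (Real.exp_pos _).le (AsX_a_nonneg n)

private theorem AsX_DX_bd :
    ∃ C : ℝ, 1 ≤ C ∧ ∀ (M : ℕ) (χ : DirichletCharacter ℂ M) (w τ : ℝ),
      ‖DX χ w τ‖ ≤ C * (1 + |w|) ^ 6 := by
  obtain ⟨C, hC, h⟩ := AsX_P_bd
  refine ⟨C + 6, by linarith, fun M χ w τ => ?_⟩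
  have h1 : (1 : ℝ) ≤ (1 + |w|) ^ 6 := one_le_pow₀ (by linarith [abs_nonneg w])
  have h3 := h M χ w τ
  by_cases hχ : χ = 1
  · unfold DX
    rw [if_pos hχ]
    calc _ ≤ ‖ASC.P χ w τ‖ + ‖ASI.mainT w τ‖ := norm_sub_le _ _
      _ ≤ C * (1 + |w|) ^ 6 + 6 * (1 + |w|) ^ 6 := by
          refine add_le_add h3 ((AsX_mainT_norm w τ).trans ?_)
          nlinarith
      _ = (C + 6) * (1 + |w|) ^ 6 := by ring
  · unfold DX
    rw [if_neg hχ, sub_zero]
    nlinarith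

/-- the kernel of the transfer -/
private noncomputable def AsX_k (ξ : ℝ) : ℝ := Real.exp (-(2 / 3) * ξ ^ 2)

private theorem AsX_k_int : Integrable AsX_k := integrable_exp_neg_mul_sq (by norm_num)

/-- the Fourier transform of the kernel -/
private theorem AsX_fourier (u : ℝ) :
    ∫ ξ : ℝ, ((AsX_k ξ : ℝ) : ℂ) * Complex.exp (ξ * u * Complex.I) =
      ((Real.sqrt (3 * Real.pi / 2) * Real.exp (-(3 / 8) * u ^ 2) : ℝ) : ℂ) := by
  have h := fourierIntegral_gaussian (b := ((2 / 3 : ℝ) : ℂ)) (by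
    rw [Complex.ofReal_re]; norm_num) (u : ℂ)
  have e1 : (fun ξ : ℝ => ((AsX_k ξ : ℝ) : ℂ) * Complex.exp (ξ * u * Complex.I)) =
      fun x : ℝ => Complex.exp (Complex.I * u * x) * Complex.exp (-((2 / 3 : ℝ) : ℂ) * x ^ 2) := by
    funext x
    unfold AsX_k
    rw [mul_comm, Complex.ofReal_exp]
    congr 1
    · congr 1
      ring
    · congr 1
      push_cast
      ring
  rw [e1, h]
  have e2 : ((Real.pi : ℂ) / ((2 / 3 : ℝ) : ℂ)) ^ (1 / 2 : ℂ) =
      ((Real.sqrt (3 * Real.pi / 2) : ℝ) : ℂ) := by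
    rw [← Complex.ofReal_div, Real.sqrt_eq_rpow, Complex.ofReal_cpow (by positivity)]
    congr 1
    · congr 1
      field_simp
    · push_cast
      ring
  rw [e2, Complex.ofReal_mul, Complex.ofReal_exp]
  congr 2
  push_cast
  ring

/-- the summand of the formula -/
private noncomputable def AsX_F {M : ℕ} (χ : DirichletCharacter ℂ M) (w τ : ℝ) (n : ℕ) (ξ : ℝ) : ℂ :=
  ((AsX_k ξ : ℝ) : ℂ) * Complex.exp (-(ξ * w * Complex.I)) *
    ((vonMangoldt n : ℂ) * nc χ n (τ - ξ) * (ASI.ps w (Real.log n) : ℝ))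

private theorem AsX_F_norm {M : ℕ} (χ : DirichletCharacter ℂ M) (w τ : ℝ) (n : ℕ) (ξ : ℝ) :
    ‖AsX_F χ w τ n ξ‖ ≤ AsX_k ξ * (AsX_a n * Real.exp (-(Real.log n - w) ^ 2 / 16)) := by
  unfold AsX_F
  have h1 : ‖Complex.exp (-(ξ * w * Complex.I))‖ = 1 := by
    rw [Complex.norm_exp]
    simp
  rw [norm_mul, norm_mul, h1, mul_one, norm_mul, Complex.norm_real,
    Real.norm_of_nonneg (show 0 ≤ AsX_k ξ from (Real.exp_pos _).le), Complex.norm_real,
    Real.norm_of_nonneg (show 0 ≤ ASI.ps w (Real.log n) from (Real.exp_pos _).le)]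
  refine mul_le_mul_of_nonneg_left ?_ (Real.exp_pos _).le
  exact mul_le_mul (AsX_term χ n _) (AsX_exp_mono (by norm_num) (by norm_num))
    (Real.exp_pos _).le (AsX_a_nonneg n)

private theorem AsX_F_cont {M : ℕ} (χ : DirichletCharacter ℂ M) (w τ : ℝ) (n : ℕ) :
    Continuous (AsX_F χ w τ n) := by
  unfold AsX_F AsX_k
  have h1 : Continuous (fun ξ : ℝ => nc χ n (τ - ξ)) :=
    (AsX_nc_cont χ n).comp (continuous_const.sub continuous_id)
  fun_prop

private theorem AsX_F_int {M : ℕ} (χ : DirichletCharacter ℂ M) (w τ : ℝ) (n : ℕ) :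
    Integrable (AsX_F χ w τ n) := by
  refine Integrable.mono' (g := fun ξ => AsX_k ξ *
    (AsX_a n * Real.exp (-(Real.log n - w) ^ 2 / 16)))
    (AsX_k_int.mul_const _) (AsX_F_cont χ w τ n).aestronglyMeasurable ?_
  exact Filter.Eventually.of_forall fun ξ => AsX_F_norm χ w τ n ξ

private theorem AsX_F_eq {M : ℕ} (χ : DirichletCharacter ℂ M) (w τ : ℝ) (n : ℕ) (ξ : ℝ) :
    AsX_F χ w τ n ξ = ((vonMangoldt n : ℂ) * nc χ n τ *
      (ASI.ps w (Real.log n) : ℝ)) *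
      (((AsX_k ξ : ℝ) : ℂ) * Complex.exp (ξ * ((Real.log n - w : ℝ) : ℂ) * Complex.I)) := by
  unfold AsX_F
  rcases Nat.eq_zero_or_pos n with h | h
  · subst h
    simp
  · have hn : (n : ℂ) ≠ 0 := by exact_mod_cast h.ne'
    have h1 : nc χ n (τ - ξ) = nc χ n τ * Complex.exp (ξ * (Real.log n : ℝ) * Complex.I) := by
      unfold nc
      rw [Complex.cpow_def_of_ne_zero hn, Complex.cpow_def_of_ne_zero hn, mul_assoc,
        ← Complex.exp_add]
      congr 2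
      rw [Complex.natCast_log]
      push_cast
      ring
    have h2 : Complex.exp (ξ * ((Real.log n - w : ℝ) : ℂ) * Complex.I) =
        Complex.exp (-(ξ * w * Complex.I)) * Complex.exp (ξ * (Real.log n : ℝ) * Complex.I) := by
      rw [← Complex.exp_add]
      congr 1
      push_cast
      ring
    rw [h1, h2]
    ring

private theorem AsX_F_integral {M : ℕ} (χ : DirichletCharacter ℂ M) (w τ : ℝ) (n : ℕ) :
    ∫ ξ : ℝ, AsX_F χ w τ n ξ = (Real.sqrt (3 * Real.pi / 2) : ℝ) * AsX_g χ w n τ := by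
  simp only [AsX_F_eq]
  rw [integral_const_mul, AsX_fourier]
  unfold AsX_g ASI.ps
  have h1 : Real.exp (-(Real.log n - w) ^ 2 / 2) =
      Real.exp (-(Real.log n - w) ^ 2 / 8) * Real.exp (-(3 / 8) * (Real.log n - w) ^ 2) := by
    rw [← Real.exp_add]
    congr 1
    ring
  rw [h1]
  push_cast
  ring

private theorem AsX_sumF {M : ℕ} (χ : DirichletCharacter ℂ M) (w τ : ℝ) :
    (Real.sqrt (3 * Real.pi / 2) : ℝ) * VKC.gc χ (fun n => vonMangoldt n) w τ =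
      ∫ ξ : ℝ, ((AsX_k ξ : ℝ) : ℂ) * Complex.exp (-(ξ * w * Complex.I)) * ASC.P χ w (τ - ξ) := by
  have hs : Summable fun n : ℕ => ∫ ξ : ℝ, ‖AsX_F χ w τ n ξ‖ := by
    refine Summable.of_nonneg_of_le (fun n => integral_nonneg fun ξ => norm_nonneg _)
      (fun n => integral_mono (AsX_F_int χ w τ n).norm (AsX_k_int.mul_const _)
        (fun ξ => AsX_F_norm χ w τ n ξ)) ?_
    simp only [integral_mul_const]
    exact (AsX_dsum w).mul_left _
  have h1 := integral_tsum_of_summable_integral_norm (AsX_F_int χ w τ) hs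
  rw [AsX_gs, ← tsum_mul_left]
  simp only [AsX_F_integral] at h1
  rw [h1]
  congr 1
  funext ξ
  unfold AsX_F ASC.P
  rw [tsum_mul_left]

private theorem AsX_main_int (w τ : ℝ) :
    ∫ ξ : ℝ, ((AsX_k ξ : ℝ) : ℂ) * Complex.exp (-(ξ * w * Complex.I)) * ASI.mainT w (τ - ξ) =
      (Real.sqrt (3 * Real.pi / 2) : ℝ) *
      (Real.sqrt (2 * Real.pi) * Real.exp (-τ ^ 2 / 2) * Complex.exp (-(τ * w * Complex.I))) := by
  have e1 : ∀ ξ : ℝ, ((AsX_k ξ : ℝ) : ℂ) * Complex.exp (-(ξ * w * Complex.I)) *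
      ASI.mainT w (τ - ξ) = ((Real.exp (-(8 / 3) * (ξ - 3 / 4 * τ) ^ 2) : ℝ) : ℂ) *
      (Real.sqrt (8 * Real.pi) * Real.exp (-τ ^ 2 / 2) * Complex.exp (-(τ * w * Complex.I))) := by
    intro ξ
    unfold ASI.mainT AsX_k
    have h1 : Complex.exp (-(((τ - ξ : ℝ) : ℂ) * w * Complex.I)) =
        Complex.exp (-(τ * w * Complex.I)) * Complex.exp (ξ * w * Complex.I) := by
      rw [← Complex.exp_add]
      congr 1
      push_cast
      ring
    have h2 : Complex.exp (-(ξ * w * Complex.I)) * Complex.exp (ξ * w * Complex.I) = 1 := by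
      rw [← Complex.exp_add, neg_add_cancel, Complex.exp_zero]
    have h3 : Real.exp (-(2 / 3) * ξ ^ 2) * Real.exp (-2 * (τ - ξ) ^ 2) =
        Real.exp (-(8 / 3) * (ξ - 3 / 4 * τ) ^ 2) * Real.exp (-τ ^ 2 / 2) := by
      rw [← Real.exp_add, ← Real.exp_add]
      congr 1
      ring
    have h4 : ((Real.exp (-(2 / 3) * ξ ^ 2) : ℝ) : ℂ) * ((Real.exp (-2 * (τ - ξ) ^ 2) : ℝ) : ℂ) =
        ((Real.exp (-(8 / 3) * (ξ - 3 / 4 * τ) ^ 2) : ℝ) : ℂ) *
        ((Real.exp (-τ ^ 2 / 2) : ℝ) : ℂ) := by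
      rw [← Complex.ofReal_mul, h3, Complex.ofReal_mul]
    rw [h1]
    linear_combination (Real.sqrt (8 * Real.pi) : ℂ) * Complex.exp (-(τ * w * Complex.I)) *
        (Complex.exp (-(ξ * w * Complex.I)) * Complex.exp (ξ * w * Complex.I)) * h4 +
      (Real.sqrt (8 * Real.pi) : ℂ) * Complex.exp (-(τ * w * Complex.I)) *
        ((Real.exp (-(8 / 3) * (ξ - 3 / 4 * τ) ^ 2) : ℝ) : ℂ) *
        ((Real.exp (-τ ^ 2 / 2) : ℝ) : ℂ) * h2
  simp only [e1]
  rw [integral_mul_const]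
  have e2 : ∫ ξ : ℝ, ((Real.exp (-(8 / 3) * (ξ - 3 / 4 * τ) ^ 2) : ℝ) : ℂ) =
      ((Real.sqrt (3 * Real.pi / 8) : ℝ) : ℂ) := by
    have h0 : ∫ ξ : ℝ, ((Real.exp (-(8 / 3) * (ξ - 3 / 4 * τ) ^ 2) : ℝ) : ℂ) =
        ((∫ ξ : ℝ, Real.exp (-(8 / 3) * (ξ - 3 / 4 * τ) ^ 2) : ℝ) : ℂ) := integral_complex_ofReal
    rw [h0]
    congr 1
    have h := integral_sub_right_eq_self (μ := (volume : Measure ℝ))
      (fun ξ : ℝ => Real.exp (-(8 / 3) * ξ ^ 2)) (3 / 4 * τ)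
    rw [h, integral_gaussian]
    congr 1
    field_simp
  rw [e2]
  have e3 : Real.sqrt (3 * Real.pi / 8) * Real.sqrt (8 * Real.pi) =
      Real.sqrt (3 * Real.pi / 2) * Real.sqrt (2 * Real.pi) := by
    rw [← Real.sqrt_mul (by positivity), ← Real.sqrt_mul (by positivity)]
    congr 1
    ring
  have e4 : ((Real.sqrt (3 * Real.pi / 8) : ℝ) : ℂ) * ((Real.sqrt (8 * Real.pi) : ℝ) : ℂ) =
      ((Real.sqrt (3 * Real.pi / 2) : ℝ) : ℂ) * ((Real.sqrt (2 * Real.pi) : ℝ) : ℂ) := by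
    rw [← Complex.ofReal_mul, e3, Complex.ofReal_mul]
  linear_combination ((Real.exp (-τ ^ 2 / 2) : ℝ) : ℂ) * Complex.exp (-(τ * w * Complex.I)) * e4

private theorem AsX_intP (w τ : ℝ) {G : ℝ → ℂ} (hG : Continuous G) {M : ℝ}
    (hM : ∀ x, ‖G x‖ ≤ M) :
    Integrable (fun ξ : ℝ => ((AsX_k ξ : ℝ) : ℂ) * Complex.exp (-(ξ * w * Complex.I)) *
      G (τ - ξ)) := by
  refine Integrable.mono' (g := fun ξ => AsX_k ξ * M) (AsX_k_int.mul_const _) ?_ ?_
  · have h1 : Continuous (fun ξ : ℝ => G (τ - ξ)) := hG.comp (continuous_const.sub continuous_id)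
    have h2 : Continuous AsX_k := by
      unfold AsX_k
      fun_prop
    have h3 : Continuous (fun ξ : ℝ => ((AsX_k ξ : ℝ) : ℂ) * Complex.exp (-(ξ * w * Complex.I)) *
        G (τ - ξ)) := by fun_prop
    exact h3.aestronglyMeasurable
  · refine Filter.Eventually.of_forall fun ξ => ?_
    rw [norm_mul, norm_mul, Complex.norm_real,
      Real.norm_of_nonneg (show 0 ≤ AsX_k ξ from (Real.exp_pos _).le)]
    have h1 : ‖Complex.exp (-(ξ * w * Complex.I))‖ = 1 := by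
      rw [Complex.norm_exp]
      simp
    rw [h1, mul_one]
    exact mul_le_mul_of_nonneg_left (hM _) (Real.exp_pos _).le

/-- the main term of `gc` -/
private noncomputable def AsX_m (w τ : ℝ) : ℂ :=
  Real.sqrt (2 * Real.pi) * Real.exp (-τ ^ 2 / 2) * Complex.exp (-(τ * w * Complex.I))

private theorem AsX_m_norm (w τ : ℝ) : ‖AsX_m w τ‖ ≤ 3 * Real.exp (-τ ^ 2 / 2) := by
  unfold AsX_m
  rw [norm_mul, norm_mul, Complex.norm_real, Complex.norm_real,
    Real.norm_of_nonneg (Real.sqrt_nonneg _), Real.norm_of_nonneg (Real.exp_pos _).le]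
  have h1 : ‖Complex.exp (-(τ * w * Complex.I))‖ = 1 := by
    rw [Complex.norm_exp]
    simp
  rw [h1, mul_one]
  refine mul_le_mul_of_nonneg_right ?_ (Real.exp_pos _).le
  rw [show (3 : ℝ) = Real.sqrt (3 ^ 2) by rw [Real.sqrt_sq (by norm_num)]]
  apply Real.sqrt_le_sqrt
  have := Real.pi_lt_four
  linarith

private theorem AsX_identity {M : ℕ} (χ : DirichletCharacter ℂ M) (w τ : ℝ) :
    ∃ m : ℂ, ‖m‖ ≤ 3 * Real.exp (-τ ^ 2 / 2) ∧
    (Real.sqrt (3 * Real.pi / 2) : ℝ) * (VKC.gc χ (fun n => vonMangoldt n) w τ - m) =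
      ∫ ξ : ℝ, ((AsX_k ξ : ℝ) : ℂ) * Complex.exp (-(ξ * w * Complex.I)) * DX χ w (τ - ξ) := by
  by_cases hχ : χ = 1
  · refine ⟨AsX_m w τ, AsX_m_norm w τ, ?_⟩
    obtain ⟨C, hC, hP⟩ := ASC.P_triv χ
    have h1 := AsX_intP w τ (ASC.P_cont χ w) (hP w)
    have h2 := AsX_intP w τ (AsX_mainT_cont w) (AsX_mainT_norm w)
    have h3 : (fun ξ : ℝ => ((AsX_k ξ : ℝ) : ℂ) * Complex.exp (-(ξ * w * Complex.I)) *
        DX χ w (τ - ξ)) = fun ξ : ℝ => ((AsX_k ξ : ℝ) : ℂ) * Complex.exp (-(ξ * w * Complex.I)) *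
        ASC.P χ w (τ - ξ) - ((AsX_k ξ : ℝ) : ℂ) * Complex.exp (-(ξ * w * Complex.I)) *
        ASI.mainT w (τ - ξ) := by
      funext ξ
      unfold DX
      rw [if_pos hχ]
      ring
    rw [h3, integral_sub h1 h2, ← AsX_sumF, AsX_main_int]
    unfold AsX_m
    ring
  · refine ⟨0, by rw [norm_zero]; positivity, ?_⟩
    rw [sub_zero, AsX_sumF]
    congr 1
    funext ξ
    unfold DX
    rw [if_neg hχ, sub_zero]

private theorem AsX_gc_bd {M : ℕ} (χ : DirichletCharacter ℂ M) (w τ : ℝ) :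
    ‖VKC.gc χ (fun n => vonMangoldt n) w τ‖ₑ ≤
      (∫⁻ ξ : ℝ, ENNReal.ofReal (AsX_k ξ) * ‖DX χ w (τ - ξ)‖ₑ) +
        ENNReal.ofReal (3 * Real.exp (-τ ^ 2 / 2)) := by
  obtain ⟨m, hm, h⟩ := AsX_identity χ w τ
  set G := VKC.gc χ (fun n => vonMangoldt n) w τ with hG
  have h1 : ‖G‖ₑ ≤ ‖G - m‖ₑ + ‖m‖ₑ := by
    calc ‖G‖ₑ = ‖(G - m) + m‖ₑ := by rw [sub_add_cancel]
      _ ≤ _ := enorm_add_le _ _
  refine h1.trans (add_le_add ?_ ?_)
  · have h3 : (1 : ENNReal) ≤ ‖((Real.sqrt (3 * Real.pi / 2) : ℝ) : ℂ)‖ₑ := by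
      rw [← ofReal_norm, Complex.norm_real, Real.norm_of_nonneg (Real.sqrt_nonneg _)]
      rw [ENNReal.one_le_ofReal, Real.one_le_sqrt]
      have := Real.pi_gt_three
      linarith
    calc ‖G - m‖ₑ = 1 * ‖G - m‖ₑ := (one_mul _).symm
      _ ≤ ‖((Real.sqrt (3 * Real.pi / 2) : ℝ) : ℂ)‖ₑ * ‖G - m‖ₑ := mul_le_mul_left h3 _
      _ = ‖∫ ξ : ℝ, ((AsX_k ξ : ℝ) : ℂ) * Complex.exp (-(ξ * w * Complex.I)) * DX χ w (τ - ξ)‖ₑ := by
          rw [← enorm_mul, h]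
      _ ≤ ∫⁻ ξ : ℝ, ‖((AsX_k ξ : ℝ) : ℂ) * Complex.exp (-(ξ * w * Complex.I)) * DX χ w (τ - ξ)‖ₑ :=
          enorm_integral_le_lintegral_enorm _
      _ = _ := by
          refine lintegral_congr fun ξ => ?_
          have h5 : ‖Complex.exp (-(ξ * w * Complex.I))‖ = 1 := by
            rw [Complex.norm_exp]
            simp
          rw [enorm_mul, enorm_mul, ← ofReal_norm ((AsX_k ξ : ℝ) : ℂ),
            ← ofReal_norm (Complex.exp (-(ξ * w * Complex.I))), h5, ENNReal.ofReal_one,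
            mul_one, Complex.norm_real,
            Real.norm_of_nonneg (show 0 ≤ AsX_k ξ from (Real.exp_pos _).le)]
  · rw [← ofReal_norm]
    exact ENNReal.ofReal_le_ofReal hm

/-- Cauchy-Schwarz -/
private theorem AsX_CS {α : Type*} [MeasurableSpace α] (μ : Measure α) {f g : α → ENNReal}
    (hf : Measurable f) (hg : Measurable g) :
    (∫⁻ x, f x * g x ∂μ) ^ 2 ≤ (∫⁻ x, f x ∂μ) * ∫⁻ x, f x * g x ^ 2 ∂μ := by
  have hpq : (2 : ℝ).HolderConjugate 2 := by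
    rw [Real.holderConjugate_iff]
    norm_num
  have h0 : ∀ x : ENNReal, x ^ (1 / 2 : ℝ) * x ^ (1 / 2 : ℝ) = x := by
    intro x
    rw [← ENNReal.rpow_add_of_nonneg _ _ (by norm_num) (by norm_num)]
    norm_num
  have h := ENNReal.lintegral_mul_le_Lp_mul_Lq μ hpq (f := fun x => f x ^ (1 / 2 : ℝ))
    (g := fun x => f x ^ (1 / 2 : ℝ) * g x) (hf.pow_const _).aemeasurable
    ((hf.pow_const _).mul hg).aemeasurable
  have e1 : ∫⁻ x, ((fun x => f x ^ (1 / 2 : ℝ)) * (fun x => f x ^ (1 / 2 : ℝ) * g x)) x ∂μ =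
      ∫⁻ x, f x * g x ∂μ := by
    refine lintegral_congr fun x => ?_
    simp only [Pi.mul_apply]
    rw [← mul_assoc, h0]
  have e2 : ∫⁻ x, (f x ^ (1 / 2 : ℝ)) ^ (2 : ℝ) ∂μ = ∫⁻ x, f x ∂μ := by
    refine lintegral_congr fun x => ?_
    rw [← ENNReal.rpow_mul]
    norm_num
  have e3 : ∫⁻ x, (f x ^ (1 / 2 : ℝ) * g x) ^ (2 : ℝ) ∂μ = ∫⁻ x, f x * g x ^ 2 ∂μ := by
    refine lintegral_congr fun x => ?_
    rw [ENNReal.mul_rpow_of_nonneg _ _ (by norm_num), ← ENNReal.rpow_mul]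
    norm_num
  rw [e1, e2, e3] at h
  calc (∫⁻ x, f x * g x ∂μ) ^ 2 ≤
        ((∫⁻ x, f x ∂μ) ^ (1 / 2 : ℝ) * (∫⁻ x, f x * g x ^ 2 ∂μ) ^ (1 / 2 : ℝ)) ^ 2 :=
        pow_le_pow_left₀ zero_le h 2
    _ = _ := by
        rw [mul_pow, sq, sq, h0, h0]

private theorem AsX_add_sq (a b : ENNReal) : (a + b) ^ 2 ≤ 4 * (a ^ 2 + b ^ 2) := by
  have h1 : a + b ≤ 2 * max a b := by
    rw [two_mul]
    exact add_le_add (le_max_left _ _) (le_max_right _ _)
  have h2 : (max a b) ^ 2 ≤ a ^ 2 + b ^ 2 := by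
    rcases le_total a b with h | h
    · rw [max_eq_right h]
      exact le_add_self
    · rw [max_eq_left h]
      exact le_self_add
  calc (a + b) ^ 2 ≤ (2 * max a b) ^ 2 := pow_le_pow_left₀ zero_le h1 2
    _ = 4 * (max a b) ^ 2 := by
        rw [mul_pow]
        norm_num
    _ ≤ _ := mul_le_mul_right h2 _

private theorem AsX_shift (E : Set ℝ) (hE : MeasurableSet E) (ξ : ℝ) {F : ℝ → ENNReal}
    (hF : Measurable F) :
    ∫⁻ τ in E, F (τ - ξ) = ∫⁻ τ in (fun τ => τ + ξ) ⁻¹' E, F τ := by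
  have h1 : MeasurableSet ((fun τ : ℝ => τ + ξ) ⁻¹' E) := (measurable_add_const ξ) hE
  have h := (measurePreserving_sub_right (volume : Measure ℝ) ξ).setLIntegral_comp_preimage h1 hF
  rw [← h]
  congr 2
  ext τ
  simp

/-- the Gaussian integrals -/
private theorem AsX_gl {q c B : ℝ} (hq : 0 < q) (hB : Real.pi / q ≤ B ^ 2) (hB0 : 0 ≤ B) :
    ∫⁻ w : ℝ, ENNReal.ofReal (Real.exp (-(q * (w - c) ^ 2))) ≤ ENNReal.ofReal B := by
  rw [← ofReal_integral_eq_lintegral_ofReal (AsX_gint q c hq)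
    (Filter.Eventually.of_forall fun w => (Real.exp_pos _).le), AsX_gval]
  refine ENNReal.ofReal_le_ofReal ?_
  rw [Real.sqrt_le_iff]
  exact ⟨hB0, hB⟩

private theorem AsX_gl0 {q B : ℝ} (hq : 0 < q) (hB : Real.pi / q ≤ B ^ 2) (hB0 : 0 ≤ B) :
    ∫⁻ w : ℝ, ENNReal.ofReal (Real.exp (-q * w ^ 2)) ≤ ENNReal.ofReal B := by
  have h := AsX_gl (c := 0) hq hB hB0
  simpa only [sub_zero, neg_mul] using h

private theorem AsX_enorm_sq (z : ℂ) : ‖z‖ₑ ^ 2 = ENNReal.ofReal (‖z‖ ^ 2) := by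
  rw [ENNReal.ofReal_pow (norm_nonneg z), ofReal_norm]

private theorem AsX_one_add_pow {x : ℝ} (hx : 0 ≤ x) : ((1 + x) ^ 6) ^ 2 ≤ Real.exp (12 * x) := by
  have h1 : 1 + x ≤ Real.exp x := by
    have := Real.add_one_le_exp x
    linarith
  calc ((1 + x) ^ 6) ^ 2 = (1 + x) ^ 12 := by ring
    _ ≤ (Real.exp x) ^ 12 := pow_le_pow_left₀ (by linarith) h1 12
    _ = _ := by
        rw [← Real.exp_nat_mul]
        norm_num

/-- the mean square of one Gaussian sum -/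
private theorem AsX_phi {M : ℕ} (χ : DirichletCharacter ℂ M) {C B0 L v : ℝ} (hC : 1 ≤ C)
    (hDX : ∀ w τ : ℝ, ‖DX χ w τ‖ ≤ C * (1 + |w|) ^ 6) (hL : 2 ≤ L) (hv0 : 0 ≤ v)
    (hv4 : v ≤ 4 * L) {E : Set ℝ} (hE : MeasurableSet E) (hE2 : ∀ τ ∈ E, L ≤ |τ|)
    (hvol : volume E ≤ ENNReal.ofReal (Real.exp L)) (hB0 : 0 ≤ B0)
    (hsmall : ∀ ξ : ℝ, |ξ| ≤ L → ∫⁻ τ in E, ‖DX χ v (τ - ξ)‖ₑ ^ 2 ≤ ENNReal.ofReal B0) :
    ∫⁻ τ in E, ‖VKC.gc χ (fun n => vonMangoldt n) v τ‖ₑ ^ 2 ≤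
      ENNReal.ofReal (36 * B0 + (48 * (C ^ 2 * Real.exp 1875) + 36 * Real.exp 1) *
        Real.exp (-L)) := by
  have hkm : Measurable (fun ξ : ℝ => ENNReal.ofReal (AsX_k ξ)) := by
    have : Continuous AsX_k := by
      unfold AsX_k
      fun_prop
    exact this.measurable.ennreal_ofReal
  have hDc := AsX_DX_cont χ v
  have hk3 : ∫⁻ ξ : ℝ, ENNReal.ofReal (AsX_k ξ) ≤ ENNReal.ofReal 3 := by
    unfold AsX_k
    refine AsX_gl0 (by norm_num) ?_ (by norm_num)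
    have := Real.pi_lt_four
    rw [div_le_iff₀ (by norm_num)]
    linarith
  have hI : ∀ τ : ℝ, (∫⁻ ξ : ℝ, ENNReal.ofReal (AsX_k ξ) * ‖DX χ v (τ - ξ)‖ₑ) ^ 2 ≤
      ENNReal.ofReal 3 * ∫⁻ ξ : ℝ, ENNReal.ofReal (AsX_k ξ) * ‖DX χ v (τ - ξ)‖ₑ ^ 2 := by
    intro τ
    have h1 : Measurable (fun ξ : ℝ => ‖DX χ v (τ - ξ)‖ₑ) :=
      (hDc.comp (continuous_const.sub continuous_id)).measurable.enorm
    exact (AsX_CS volume hkm h1).trans (mul_le_mul_left hk3 _)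
  have h1 : ∀ τ ∈ E, ‖VKC.gc χ (fun n => vonMangoldt n) v τ‖ₑ ^ 2 ≤
      4 * (ENNReal.ofReal 3 * (∫⁻ ξ : ℝ, ENNReal.ofReal (AsX_k ξ) * ‖DX χ v (τ - ξ)‖ₑ ^ 2) +
        ENNReal.ofReal (9 * Real.exp (-L ^ 2))) := by
    intro τ hτ
    refine (pow_le_pow_left₀ zero_le (AsX_gc_bd χ v τ) 2).trans ((AsX_add_sq _ _).trans ?_)
    refine mul_le_mul_right (add_le_add (hI τ) ?_) _
    rw [← ENNReal.ofReal_pow (by positivity)]
    refine ENNReal.ofReal_le_ofReal ?_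
    rw [mul_pow, ← Real.exp_nat_mul]
    have h2 : L ^ 2 ≤ τ ^ 2 := by
      rw [← sq_abs τ]
      exact pow_le_pow_left₀ (by linarith) (hE2 τ hτ) 2
    have h3 : Real.exp (((2 : ℕ) : ℝ) * (-τ ^ 2 / 2)) ≤ Real.exp (-L ^ 2) := by
      refine Real.exp_le_exp.2 ?_
      push_cast
      linarith
    linarith
  have hprod : Measurable (Function.uncurry (fun τ ξ : ℝ =>
      ENNReal.ofReal (AsX_k ξ) * ‖DX χ v (τ - ξ)‖ₑ ^ 2)) := by
    have h2 : Measurable (fun p : ℝ × ℝ => ‖DX χ v (p.1 - p.2)‖ₑ) :=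
      (hDc.comp (continuous_fst.sub continuous_snd)).measurable.enorm
    exact (hkm.comp measurable_snd).mul (h2.pow_const 2)
  have h2 : ∫⁻ τ in E, ∫⁻ ξ : ℝ, ENNReal.ofReal (AsX_k ξ) * ‖DX χ v (τ - ξ)‖ₑ ^ 2 ≤
      ENNReal.ofReal (3 * B0 + 4 * (C ^ 2 * Real.exp 1875 * Real.exp (-L))) := by
    rw [lintegral_lintegral_swap hprod.aemeasurable]
    have h3 : ∀ ξ : ℝ, ∫⁻ τ in E, ENNReal.ofReal (AsX_k ξ) * ‖DX χ v (τ - ξ)‖ₑ ^ 2 ≤
        ENNReal.ofReal (AsX_k ξ) * ENNReal.ofReal B0 +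
        ENNReal.ofReal (Real.exp (-(1 / 3) * ξ ^ 2)) *
          ENNReal.ofReal (C ^ 2 * Real.exp 1875 * Real.exp (-L)) := by
      intro ξ
      rw [lintegral_const_mul' _ _ ENNReal.ofReal_ne_top]
      rcases le_or_gt |ξ| L with hξ | hξ
      · exact (mul_le_mul_right (hsmall ξ hξ) _).trans le_self_add
      · refine le_trans ?_ le_add_self
        have h4 : ∫⁻ τ in E, ‖DX χ v (τ - ξ)‖ₑ ^ 2 ≤
            ENNReal.ofReal ((C * (1 + |v|) ^ 6) ^ 2) * ENNReal.ofReal (Real.exp L) := by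
          calc ∫⁻ τ in E, ‖DX χ v (τ - ξ)‖ₑ ^ 2 ≤
              ∫⁻ τ in E, ENNReal.ofReal ((C * (1 + |v|) ^ 6) ^ 2) := by
                refine lintegral_mono fun τ => ?_
                rw [AsX_enorm_sq]
                exact ENNReal.ofReal_le_ofReal
                  (pow_le_pow_left₀ (norm_nonneg _) (hDX v (τ - ξ)) 2)
            _ = ENNReal.ofReal ((C * (1 + |v|) ^ 6) ^ 2) * volume E := setLIntegral_const _ _
            _ ≤ _ := mul_le_mul_right hvol _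
        refine (mul_le_mul_right h4 _).trans ?_
        rw [← ENNReal.ofReal_mul (by positivity), ← ENNReal.ofReal_mul (Real.exp_pos _).le,
          ← ENNReal.ofReal_mul (show 0 ≤ AsX_k ξ from (Real.exp_pos _).le)]
        refine ENNReal.ofReal_le_ofReal ?_
        rw [abs_of_nonneg hv0, mul_pow]
        have h5 := AsX_one_add_pow hv0
        have h6 : AsX_k ξ ≤ Real.exp (-(1 / 3) * ξ ^ 2) * Real.exp (-(1 / 3) * L ^ 2) := by
          unfold AsX_k
          rw [← Real.exp_add]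
          refine Real.exp_le_exp.2 ?_
          have : L ^ 2 ≤ ξ ^ 2 := by
            rw [← sq_abs ξ]
            exact pow_le_pow_left₀ (by linarith) hξ.le 2
          linarith
        calc AsX_k ξ * (C ^ 2 * ((1 + v) ^ 6) ^ 2 * Real.exp L) ≤
            (Real.exp (-(1 / 3) * ξ ^ 2) * Real.exp (-(1 / 3) * L ^ 2)) *
              (C ^ 2 * Real.exp (12 * v) * Real.exp L) := by
              refine mul_le_mul h6 ?_ (by positivity) (by positivity)
              refine mul_le_mul_of_nonneg_right ?_ (Real.exp_pos _).le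
              exact mul_le_mul_of_nonneg_left h5 (by positivity)
          _ = Real.exp (-(1 / 3) * ξ ^ 2) * (C ^ 2 * (Real.exp (-(1 / 3) * L ^ 2) *
              Real.exp (12 * v) * Real.exp L)) := by ring
          _ ≤ Real.exp (-(1 / 3) * ξ ^ 2) * (C ^ 2 * (Real.exp 1875 * Real.exp (-L))) := by
              refine mul_le_mul_of_nonneg_left ?_ (Real.exp_pos _).le
              refine mul_le_mul_of_nonneg_left ?_ (by positivity)
              rw [← Real.exp_add, ← Real.exp_add, ← Real.exp_add]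
              refine Real.exp_le_exp.2 ?_
              nlinarith [sq_nonneg (L - 75)]
          _ = _ := by ring
    refine (lintegral_mono h3).trans ?_
    rw [lintegral_add_left (hkm.mul_const _), lintegral_mul_const' _ _ ENNReal.ofReal_ne_top,
      lintegral_mul_const' _ _ ENNReal.ofReal_ne_top]
    have h4 : ∫⁻ ξ : ℝ, ENNReal.ofReal (Real.exp (-(1 / 3) * ξ ^ 2)) ≤ ENNReal.ofReal 4 := by
      refine AsX_gl0 (by norm_num) ?_ (by norm_num)
      have := Real.pi_lt_four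
      rw [div_le_iff₀ (by norm_num)]
      linarith
    calc _ ≤ ENNReal.ofReal 3 * ENNReal.ofReal B0 + ENNReal.ofReal 4 *
          ENNReal.ofReal (C ^ 2 * Real.exp 1875 * Real.exp (-L)) :=
          add_le_add (mul_le_mul_left hk3 _) (mul_le_mul_left h4 _)
      _ = _ := by
          rw [← ENNReal.ofReal_mul (by norm_num), ← ENNReal.ofReal_mul (by norm_num),
            ← ENNReal.ofReal_add (by positivity) (by positivity)]
  have h3 : ∫⁻ τ in E, ENNReal.ofReal (9 * Real.exp (-L ^ 2)) ≤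
      ENNReal.ofReal (9 * (Real.exp 1 * Real.exp (-L))) := by
    rw [setLIntegral_const]
    refine (mul_le_mul_right hvol _).trans ?_
    rw [← ENNReal.ofReal_mul (by positivity)]
    refine ENNReal.ofReal_le_ofReal ?_
    rw [mul_assoc, ← Real.exp_add, ← Real.exp_add]
    refine mul_le_mul_of_nonneg_left (Real.exp_le_exp.2 ?_) (by norm_num)
    nlinarith [sq_nonneg (L - 1)]
  calc ∫⁻ τ in E, ‖VKC.gc χ (fun n => vonMangoldt n) v τ‖ₑ ^ 2 ≤
      ∫⁻ τ in E, 4 * (ENNReal.ofReal 3 * (∫⁻ ξ : ℝ, ENNReal.ofReal (AsX_k ξ) *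
        ‖DX χ v (τ - ξ)‖ₑ ^ 2) + ENNReal.ofReal (9 * Real.exp (-L ^ 2))) :=
        setLIntegral_mono' hE h1
    _ = 4 * (ENNReal.ofReal 3 * (∫⁻ τ in E, ∫⁻ ξ : ℝ, ENNReal.ofReal (AsX_k ξ) *
        ‖DX χ v (τ - ξ)‖ₑ ^ 2) + ∫⁻ τ in E, ENNReal.ofReal (9 * Real.exp (-L ^ 2))) := by
        rw [lintegral_const_mul' _ _ (by norm_num), lintegral_add_right _ measurable_const,
          lintegral_const_mul' _ _ ENNReal.ofReal_ne_top]
    _ ≤ 4 * (ENNReal.ofReal 3 * ENNReal.ofReal (3 * B0 + 4 * (C ^ 2 * Real.exp 1875 *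
        Real.exp (-L))) + ENNReal.ofReal (9 * (Real.exp 1 * Real.exp (-L)))) :=
        mul_le_mul_right (add_le_add (mul_le_mul_right h2 _) h3) _
    _ = _ := by
        rw [show (4 : ENNReal) = ENNReal.ofReal 4 by norm_num, ← ENNReal.ofReal_mul (by norm_num),
          ← ENNReal.ofReal_add (by positivity) (by positivity), ← ENNReal.ofReal_mul (by norm_num)]
        congr 1
        ring

private theorem AsX_fin (A D b : ℝ) (hD : 0 ≤ D) (hb : 0 < b) :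
    ∃ L0 : ℝ, 1 ≤ L0 ∧ ∀ L : ℝ, L0 ≤ L →
      D * ((L / b) ^ (-(|A| + 1)) + Real.exp (-L)) ≤ L ^ (-A) := by
  have h1 : Filter.Tendsto (fun L : ℝ => D * b ^ (|A| + 1) * L⁻¹) Filter.atTop
      (nhds (D * b ^ (|A| + 1) * 0)) := tendsto_inv_atTop_zero.const_mul _
  have h2 : Filter.Tendsto (fun L : ℝ => D * (L ^ |A| * Real.exp (-1 * L))) Filter.atTop
      (nhds (D * 0)) :=
    (tendsto_rpow_mul_exp_neg_mul_atTop_nhds_zero |A| 1 one_pos).const_mul D
  rw [mul_zero] at h1 h2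
  have h3 := (h1.eventually (gt_mem_nhds (show (0 : ℝ) < 1 / 2 by norm_num))).and
    (h2.eventually (gt_mem_nhds (show (0 : ℝ) < 1 / 2 by norm_num)))
  obtain ⟨L1, hL1⟩ := Filter.eventually_atTop.1 h3
  refine ⟨max L1 1, le_max_right _ _, fun L hL => ?_⟩
  obtain ⟨h4, h5⟩ := hL1 L ((le_max_left _ _).trans hL)
  have hL1' : 1 ≤ L := (le_max_right _ _).trans hL
  have hL0 : 0 < L := by linarith
  have h6 : L ^ (-|A|) ≤ L ^ (-A) :=
    Real.rpow_le_rpow_of_exponent_le hL1' (by linarith [le_abs_self A])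
  have h7 : (L / b) ^ (-(|A| + 1)) = b ^ (|A| + 1) * L⁻¹ * L ^ (-|A|) := by
    rw [Real.div_rpow hL0.le hb.le, Real.rpow_neg hb.le, div_inv_eq_mul,
      show -(|A| + 1) = -1 + -|A| by ring, Real.rpow_add hL0, Real.rpow_neg_one]
    ring
  have h8 : Real.exp (-L) ≤ (L ^ |A| * Real.exp (-1 * L)) * L ^ (-|A|) := by
    have h9 : L ^ |A| * L ^ (-|A|) = 1 := by
      rw [← Real.rpow_add hL0]
      simp
    calc Real.exp (-L) = (L ^ |A| * L ^ (-|A|)) * Real.exp (-1 * L) := by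
          rw [h9, one_mul, neg_one_mul]
      _ ≤ _ := le_of_eq (by ring)
  have h10 : 0 < L ^ (-|A|) := Real.rpow_pos_of_pos hL0 _
  calc D * ((L / b) ^ (-(|A| + 1)) + Real.exp (-L))
      ≤ D * (b ^ (|A| + 1) * L⁻¹ * L ^ (-|A|) +
          (L ^ |A| * Real.exp (-1 * L)) * L ^ (-|A|)) := by
        rw [h7]
        exact mul_le_mul_of_nonneg_left (by linarith) hD
    _ = (D * b ^ (|A| + 1) * L⁻¹ + D * (L ^ |A| * Real.exp (-1 * L))) * L ^ (-|A|) := by ring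
    _ ≤ 1 * L ^ (-|A|) := mul_le_mul_of_nonneg_right (by linarith) h10.le
    _ = L ^ (-|A|) := one_mul _
    _ ≤ _ := h6

/-- translates of a set -/
private theorem AsX_small {M : ℕ} (χ : DirichletCharacter ℂ M) {L v κ B : ℝ} (hL : 2 ≤ L)
    (hv : 3 * L / 80 ≤ v) (hκ : κ * (3 * L / 80) ≤ κ * v) {E : Set ℝ} (hE : MeasurableSet E)
    (hE2 : ∀ τ ∈ E, |τ| ≤ Real.exp L)
    (hvol : volume E ≤ ENNReal.ofReal (Real.exp (3 * κ / 80 * L)))
    (h : ∀ E : Set ℝ, MeasurableSet E → E ⊆ Set.Icc (-Real.exp (41 * v)) (Real.exp (41 * v)) →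
      volume E ≤ ENNReal.ofReal (Real.exp (κ * v)) → ∫ τ in E, ‖DX χ v τ‖ ^ 2 ≤ B) (ξ : ℝ)
    (hξ : |ξ| ≤ L) : ∫⁻ τ in E, ‖DX χ v (τ - ξ)‖ₑ ^ 2 ≤ ENNReal.ofReal B := by
  have hDc := AsX_DX_cont χ v
  have hF : Measurable (fun τ : ℝ => ‖DX χ v τ‖ₑ ^ 2) := hDc.measurable.enorm.pow_const 2
  rw [AsX_shift E hE ξ hF]
  set E' : Set ℝ := (fun τ => τ + ξ) ⁻¹' E with hE'
  have h1 : MeasurableSet E' := (measurable_add_const ξ) hE
  have h2 : E' ⊆ Set.Icc (-Real.exp (41 * v)) (Real.exp (41 * v)) := by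
    intro τ hτ
    rw [Set.mem_Icc, ← abs_le]
    have h3 : |τ + ξ| ≤ Real.exp L := hE2 _ hτ
    have h4 : |τ| ≤ |τ + ξ| + |ξ| := by
      calc |τ| = |(τ + ξ) - ξ| := by congr 1; ring
        _ ≤ _ := abs_sub _ _
    have h5 : L ≤ Real.exp L := by
      have := Real.add_one_le_exp L
      linarith
    have h6 : Real.exp L * 2 ≤ Real.exp (41 * v) := by
      have h7 : (2 : ℝ) ≤ Real.exp 1 := by
        have := Real.add_one_le_exp (1 : ℝ)
        linarith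
      calc Real.exp L * 2 ≤ Real.exp L * Real.exp 1 :=
            mul_le_mul_of_nonneg_left h7 (Real.exp_pos _).le
        _ = Real.exp (L + 1) := (Real.exp_add _ _).symm
        _ ≤ _ := Real.exp_le_exp.2 (by linarith)
    linarith
  have h3 : volume E' ≤ ENNReal.ofReal (Real.exp (κ * v)) := by
    rw [hE', measure_preimage_add_right]
    refine hvol.trans (ENNReal.ofReal_le_ofReal (Real.exp_le_exp.2 ?_))
    linarith
  have h4 := h E' h1 h2 h3
  have h5 : IntegrableOn (fun τ => ‖DX χ v τ‖ ^ 2) E' :=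
    ((hDc.norm.pow 2).integrableOn_Icc).mono_set h2
  simp only [AsX_enorm_sq]
  rw [← ofReal_integral_eq_lintegral_ofReal h5 (Filter.Eventually.of_forall fun τ => by positivity)]
  exact ENNReal.ofReal_le_ofReal h4

theorem As_sqX (M : ℕ) [NeZero M] : ∃ κ : ℝ, 0 < κ ∧ κ ≤ 1 / 10 ∧ ∀ A : ℝ, ∃ L0 : ℝ, 1 ≤ L0 ∧
    ∀ (χ : DirichletCharacter ℂ M) (L c : ℝ), L0 ≤ L → L / 40 ≤ c → c ≤ L → ∀ E : Set ℝ, MeasurableSet E →
    E ⊆ {τ : ℝ | L ≤ |τ| ∧ |τ| ≤ Real.exp L} → volume E ≤ ENNReal.ofReal (Real.exp (κ * L)) →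
    ∫ τ in E, ‖ASC.As χ (L / 20) c τ‖ ^ 2 ≤ L ^ (-A) := by
  obtain ⟨κ, hκ0, hκ1, hsq⟩ := DX_sq M 41
  refine ⟨3 * κ / 80, by positivity, by linarith, fun A => ?_⟩
  obtain ⟨L1, hL1, hsq⟩ := hsq (|A| + 1)
  obtain ⟨C, hC, hDX⟩ := AsX_DX_bd
  obtain ⟨C', hC', hgc⟩ := AsX_gs_bound
  set D1 : ℝ := 48 * (C ^ 2 * Real.exp 1875) + 36 * Real.exp 1 with hD1
  set D2 : ℝ := C' ^ 2 * Real.exp 930 with hD2
  have hD1p : 0 ≤ D1 := by positivity
  have hD2p : 0 ≤ D2 := by positivity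
  obtain ⟨L2, hL2, hfin⟩ := AsX_fin A (36 * 36 + 36 * D1 + 48 * D2) (80 / 3) (by positivity)
    (by norm_num)
  refine ⟨max (max 2 (80 / 3 * L1)) L2, le_trans (by norm_num)
    ((le_max_left _ _).trans (le_max_left _ _)), fun χ L c hLL hc1 hc2 E hE hEs hvol => ?_⟩
  have hL2' : 2 ≤ L := (le_max_left _ _).trans ((le_max_left _ _).trans hLL)
  have hL1' : 80 / 3 * L1 ≤ L := (le_max_right _ _).trans ((le_max_left _ _).trans hLL)
  have hLf : L2 ≤ L := (le_max_right _ _).trans hLL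
  have hvol1 : volume E ≤ ENNReal.ofReal (Real.exp L) := by
    refine hvol.trans (ENNReal.ofReal_le_ofReal (Real.exp_le_exp.2 ?_))
    nlinarith
  set B0 : ℝ := (L / (80 / 3)) ^ (-(|A| + 1)) with hB0
  have hB0p : 0 ≤ B0 := Real.rpow_nonneg (by positivity) _
  set B1 : ℝ := 36 * B0 + D1 * Real.exp (-L) with hB1
  have hB1p : 0 ≤ B1 := by positivity
  have hgm := AsX_gs_meas χ
  have hgm1 : ∀ τ : ℝ, Measurable (fun w : ℝ =>
      ‖VKC.gc χ (fun n => vonMangoldt n) ((w + c) / 2) τ‖ₑ) := by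
    intro τ
    have h1 : Measurable (fun w : ℝ => ((w + c) / 2, τ)) := by fun_prop
    exact (hgm.comp h1).enorm
  have hkm : Measurable (fun w : ℝ => ENNReal.ofReal (Real.exp (-(1 / 8 * (w - c) ^ 2)))) := by
    have : Continuous (fun w : ℝ => Real.exp (-(1 / 8 * (w - c) ^ 2))) := by fun_prop
    exact this.measurable.ennreal_ofReal
  have hg6 : ∫⁻ w : ℝ, ENNReal.ofReal (Real.exp (-(1 / 8 * (w - c) ^ 2))) ≤ ENNReal.ofReal 6 := by
    refine AsX_gl (by norm_num) ?_ (by norm_num)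
    have := Real.pi_lt_four
    rw [div_le_iff₀ (by norm_num)]
    linarith
  have hpt : ∀ τ : ℝ, ‖ASC.As χ (L / 20) c τ‖ₑ ^ 2 ≤ ENNReal.ofReal 6 *
      ∫⁻ w in Set.Ioi (L / 20), ENNReal.ofReal (Real.exp (-(1 / 8 * (w - c) ^ 2))) *
        ‖VKC.gc χ (fun n => vonMangoldt n) ((w + c) / 2) τ‖ₑ ^ 2 := by
    intro τ
    refine (pow_le_pow_left₀ zero_le (AsX_rep_bd χ (L / 20) c τ) 2).trans ?_
    refine (AsX_CS _ hkm (hgm1 τ)).trans (mul_le_mul_left ?_ _)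
    exact (setLIntegral_le_lintegral _ _).trans hg6
  have hprod : Measurable (Function.uncurry (fun τ w : ℝ =>
      ENNReal.ofReal (Real.exp (-(1 / 8 * (w - c) ^ 2))) *
        ‖VKC.gc χ (fun n => vonMangoldt n) ((w + c) / 2) τ‖ₑ ^ 2)) := by
    have h1 : Measurable (fun p : ℝ × ℝ => ((p.2 + c) / 2, p.1)) := by fun_prop
    exact (hkm.comp measurable_snd).mul ((hgm.comp h1).enorm.pow_const 2)
  have hw : ∀ w ∈ Set.Ioi (L / 20), ∫⁻ τ in E,
      ENNReal.ofReal (Real.exp (-(1 / 8 * (w - c) ^ 2))) *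
        ‖VKC.gc χ (fun n => vonMangoldt n) ((w + c) / 2) τ‖ₑ ^ 2 ≤
      ENNReal.ofReal (Real.exp (-(1 / 8 * (w - c) ^ 2))) * ENNReal.ofReal B1 +
        ENNReal.ofReal (Real.exp (-(1 / 16 * (w - c) ^ 2))) *
          ENNReal.ofReal (D2 * Real.exp (-L)) := by
    intro w hw
    rw [Set.mem_Ioi] at hw
    rw [lintegral_const_mul' _ _ ENNReal.ofReal_ne_top]
    rcases le_or_gt w (7 * L) with h7 | h7
    · refine le_trans (mul_le_mul_right ?_ _) le_self_add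
      have hv : 3 * L / 80 ≤ (w + c) / 2 := by linarith
      refine AsX_phi χ hC (hDX M χ) hL2' (by linarith) (by linarith) hE (fun τ hτ => (hEs hτ).1)
        hvol1 hB0p (fun ξ hξ => ?_)
      refine AsX_small χ hL2' hv (mul_le_mul_of_nonneg_left hv hκ0.le) hE
        (fun τ hτ => (hEs hτ).2) hvol (fun F hF hF2 hF3 => ?_) ξ hξ
      refine (hsq χ ((w + c) / 2) (by linarith) F hF hF2 hF3).trans ?_
      rw [hB0]
      refine Real.rpow_le_rpow_of_nonpos (by positivity) (by linarith) ?_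
      linarith [abs_nonneg A]
    · refine le_trans ?_ le_add_self
      have hv0 : 0 ≤ (w + c) / 2 := by linarith
      have hvw : (w + c) / 2 ≤ w := by linarith
      have h4 : ∫⁻ τ in E, ‖VKC.gc χ (fun n => vonMangoldt n) ((w + c) / 2) τ‖ₑ ^ 2 ≤
          ENNReal.ofReal ((C' * (1 + |(w + c) / 2|) ^ 6) ^ 2) * ENNReal.ofReal (Real.exp L) := by
        calc _ ≤ ∫⁻ τ in E, ENNReal.ofReal ((C' * (1 + |(w + c) / 2|) ^ 6) ^ 2) := by
              refine lintegral_mono fun τ => ?_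
              rw [AsX_enorm_sq]
              exact ENNReal.ofReal_le_ofReal
                (pow_le_pow_left₀ (norm_nonneg _) (hgc M χ _ AsX_H_vM ((w + c) / 2) τ) 2)
          _ = ENNReal.ofReal ((C' * (1 + |(w + c) / 2|) ^ 6) ^ 2) * volume E :=
              setLIntegral_const _ _
          _ ≤ _ := mul_le_mul_right hvol1 _
      refine (mul_le_mul_right h4 _).trans ?_
      rw [← ENNReal.ofReal_mul (by positivity), ← ENNReal.ofReal_mul (Real.exp_pos _).le,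
        ← ENNReal.ofReal_mul (Real.exp_pos _).le]
      refine ENNReal.ofReal_le_ofReal ?_
      rw [abs_of_nonneg hv0, mul_pow]
      have h5 : ((1 + (w + c) / 2) ^ 6) ^ 2 ≤ Real.exp (12 * w) :=
        (AsX_one_add_pow hv0).trans (Real.exp_le_exp.2 (by linarith))
      have h6 : Real.exp (-(1 / 8 * (w - c) ^ 2)) * Real.exp (12 * w) * Real.exp L ≤
          Real.exp (-(1 / 16 * (w - c) ^ 2)) * Real.exp 930 * Real.exp (-L) := by
        rw [← Real.exp_add, ← Real.exp_add, ← Real.exp_add, ← Real.exp_add]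
        refine Real.exp_le_exp.2 ?_
        have h8 : 6 * L ≤ w - c := by linarith
        have h9 : w ≤ 7 / 6 * (w - c) := by linarith
        nlinarith [sq_nonneg ((w - c) - 344 / 3)]
      calc Real.exp (-(1 / 8 * (w - c) ^ 2)) * (C' ^ 2 * ((1 + (w + c) / 2) ^ 6) ^ 2 *
            Real.exp L) ≤ Real.exp (-(1 / 8 * (w - c) ^ 2)) * (C' ^ 2 * Real.exp (12 * w) *
            Real.exp L) := by
            refine mul_le_mul_of_nonneg_left ?_ (Real.exp_pos _).le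
            refine mul_le_mul_of_nonneg_right ?_ (Real.exp_pos _).le
            exact mul_le_mul_of_nonneg_left h5 (by positivity)
        _ = C' ^ 2 * (Real.exp (-(1 / 8 * (w - c) ^ 2)) * Real.exp (12 * w) * Real.exp L) := by
            ring
        _ ≤ C' ^ 2 * (Real.exp (-(1 / 16 * (w - c) ^ 2)) * Real.exp 930 * Real.exp (-L)) :=
            mul_le_mul_of_nonneg_left h6 (by positivity)
        _ = _ := by
            rw [hD2]
            ring
  have hmain : ∫⁻ τ in E, ‖ASC.As χ (L / 20) c τ‖ₑ ^ 2 ≤ ENNReal.ofReal (L ^ (-A)) := by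
    calc ∫⁻ τ in E, ‖ASC.As χ (L / 20) c τ‖ₑ ^ 2 ≤ ∫⁻ τ in E, ENNReal.ofReal 6 *
        ∫⁻ w in Set.Ioi (L / 20), ENNReal.ofReal (Real.exp (-(1 / 8 * (w - c) ^ 2))) *
        ‖VKC.gc χ (fun n => vonMangoldt n) ((w + c) / 2) τ‖ₑ ^ 2 := lintegral_mono hpt
      _ = ENNReal.ofReal 6 * ∫⁻ w in Set.Ioi (L / 20), ∫⁻ τ in E,
        ENNReal.ofReal (Real.exp (-(1 / 8 * (w - c) ^ 2))) *
        ‖VKC.gc χ (fun n => vonMangoldt n) ((w + c) / 2) τ‖ₑ ^ 2 := by
          rw [lintegral_const_mul' _ _ ENNReal.ofReal_ne_top,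
            lintegral_lintegral_swap hprod.aemeasurable]
      _ ≤ ENNReal.ofReal 6 * ∫⁻ w in Set.Ioi (L / 20),
          (ENNReal.ofReal (Real.exp (-(1 / 8 * (w - c) ^ 2))) * ENNReal.ofReal B1 +
        ENNReal.ofReal (Real.exp (-(1 / 16 * (w - c) ^ 2))) *
          ENNReal.ofReal (D2 * Real.exp (-L))) :=
          mul_le_mul_right (setLIntegral_mono' measurableSet_Ioi hw) _
      _ ≤ ENNReal.ofReal 6 * ∫⁻ w : ℝ,
          (ENNReal.ofReal (Real.exp (-(1 / 8 * (w - c) ^ 2))) * ENNReal.ofReal B1 +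
        ENNReal.ofReal (Real.exp (-(1 / 16 * (w - c) ^ 2))) *
          ENNReal.ofReal (D2 * Real.exp (-L))) :=
          mul_le_mul_right (setLIntegral_le_lintegral _ _) _
      _ ≤ ENNReal.ofReal 6 * (ENNReal.ofReal 6 * ENNReal.ofReal B1 +
          ENNReal.ofReal 8 * ENNReal.ofReal (D2 * Real.exp (-L))) := by
          refine mul_le_mul_right ?_ _
          rw [lintegral_add_left (hkm.mul_const _), lintegral_mul_const' _ _ ENNReal.ofReal_ne_top,
            lintegral_mul_const' _ _ ENNReal.ofReal_ne_top]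
          refine add_le_add (mul_le_mul_left hg6 _) (mul_le_mul_left ?_ _)
          refine AsX_gl (by norm_num) ?_ (by norm_num)
          have := Real.pi_lt_four
          rw [div_le_iff₀ (by norm_num)]
          linarith
      _ = ENNReal.ofReal (6 * (6 * B1 + 8 * (D2 * Real.exp (-L)))) := by
          rw [← ENNReal.ofReal_mul (by norm_num), ← ENNReal.ofReal_mul (by norm_num),
            ← ENNReal.ofReal_add (by positivity) (by positivity),
            ← ENNReal.ofReal_mul (by norm_num)]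
      _ ≤ _ := by
          refine ENNReal.ofReal_le_ofReal (le_trans ?_ (hfin L hLf))
          rw [hB1]
          have h1 : 0 ≤ Real.exp (-L) := (Real.exp_pos _).le
          have h2 : 0 ≤ (36 * D1 + 48 * D2) * B0 := by positivity
          nlinarith
  have h1 : ‖∫ τ in E, ‖ASC.As χ (L / 20) c τ‖ ^ 2‖ₑ ≤ ENNReal.ofReal (L ^ (-A)) := by
    refine (enorm_integral_le_lintegral_enorm _).trans (le_trans (le_of_eq ?_) hmain)
    refine lintegral_congr fun τ => ?_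
    rw [enorm_pow, enorm_norm]
  rw [← ofReal_norm, ENNReal.ofReal_le_ofReal_iff (Real.rpow_nonneg (by linarith) _)] at h1
  exact (Real.le_norm_self _).trans h1

end RAF
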