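import Pool.Agent.RAF.Defs
import Pool.Agent.MRZ.SelMaj

/-!
# RAF.BT: the upper bound for the number of primes in short intervals

PROOF. `Pool.MRZ.sel_maj` with `D = ⌊h^(1/10)⌋₊` (large). The primes `n ∈ (x, x+h]` with `n > D`: their number is at most
`∑_{x<n≤x+h} ∑_{d ∣ n, d ≤ D²} l d = ∑_{d≤D²} l d (h/d + O(1)) ≤ C h/log D + D² D^4 ≤ C' h/log h` (`D² · D^4 = D^6 ≤ h^(6/10)`; the inner sum is nonnegative for all `n ≥ 1`). The primes `n ≤ D`: at most `D ≤ h^(1/10)`. And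
`th n ≤ log(x + h) ≤ C_t log h` (`x ≤ h^(1/t)`). (`RLC.th_le_log`, `RLC.th_nonneg`.)
-/

namespace RAF

/-- multiples of `d` in `(x, x+h]` -/
private theorem BT_card (x h d : ℕ) (hd : 0 < d) :
    |(((Finset.Ioc x (x + h)).filter (d ∣ ·)).card : ℝ) - h / d| ≤ 1 := by
  have h1 : ((Finset.Ioc x (x + h)).filter (d ∣ ·)).card = (x + h) / d - x / d := by
    have := Nat.Ioc_filter_dvd_card_eq_div (x + h) d
    have h2 := Nat.Ioc_filter_dvd_card_eq_div x d
    have h3 : (Finset.Ioc 0 (x + h)).filter (d ∣ ·)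
        = (Finset.Ioc 0 x).filter (d ∣ ·) ∪ (Finset.Ioc x (x + h)).filter (d ∣ ·) := by
      rw [← Finset.filter_union, Finset.Ioc_union_Ioc_eq_Ioc (Nat.zero_le _) (Nat.le_add_right _ _)]
    have h4 : Disjoint ((Finset.Ioc 0 x).filter (d ∣ ·)) ((Finset.Ioc x (x + h)).filter (d ∣ ·)) := by
      apply Finset.disjoint_filter_filter
      rw [Finset.disjoint_left]
      intro a ha hb
      rw [Finset.mem_Ioc] at ha hb
      omega
    rw [h3, Finset.card_union_of_disjoint h4, h2] at this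
    omega
  have hd' : (0 : ℝ) < d := by exact_mod_cast hd
  have e1 : (((x + h) / d : ℕ) : ℝ) ≤ ((x + h : ℕ) : ℝ) / d := Nat.cast_div_le
  have e2 : ((x / d : ℕ) : ℝ) ≤ (x : ℝ) / d := Nat.cast_div_le
  have e3 : ((x + h : ℕ) : ℝ) / d < (((x + h) / d : ℕ) : ℝ) + 1 := by
    rw [div_lt_iff₀ hd']
    have := Nat.lt_div_mul_add (a := x + h) hd
    have h5 : x + h < ((x + h) / d + 1) * d := by
      rw [add_mul, one_mul]; exact this
    exact_mod_cast h5
  have e4 : (x : ℝ) / d < ((x / d : ℕ) : ℝ) + 1 := by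
    rw [div_lt_iff₀ hd']
    have := Nat.lt_div_mul_add (a := x) hd
    have h5 : x < (x / d + 1) * d := by
      rw [add_mul, one_mul]; exact this
    exact_mod_cast h5
  have h6 : x / d ≤ (x + h) / d := Nat.div_le_div_right (Nat.le_add_right _ _)
  rw [h1, Nat.cast_sub h6]
  push_cast at e1 e3
  rw [add_div] at e1 e3
  push_cast
  rw [abs_le]
  constructor <;> linarith

/-- the sum of the majorant over a short interval -/
private theorem BT_sum (l : ℕ → ℝ) (D x h : ℕ) (hl : ∀ d, |l d| ≤ (d : ℝ) ^ 2) :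
    ∑ n ∈ Finset.Ioc x (x + h), ∑ d ∈ (Finset.Icc 1 (D ^ 2)).filter (· ∣ n), l d
      ≤ h * |∑ d ∈ Finset.Icc 1 (D ^ 2), l d / d| + (D : ℝ) ^ 6 := by
  have h1 : ∑ n ∈ Finset.Ioc x (x + h), ∑ d ∈ (Finset.Icc 1 (D ^ 2)).filter (· ∣ n), l d
      = ∑ d ∈ Finset.Icc 1 (D ^ 2), l d * (((Finset.Ioc x (x + h)).filter (d ∣ ·)).card : ℝ) := by
    simp_rw [Finset.sum_filter]
    rw [Finset.sum_comm]
    apply Finset.sum_congr rfl
    intro d _
    rw [← Finset.sum_filter, Finset.sum_const, nsmul_eq_mul, mul_comm]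
  rw [h1]
  have h2 : ∀ d ∈ Finset.Icc 1 (D ^ 2), l d * (((Finset.Ioc x (x + h)).filter (d ∣ ·)).card : ℝ)
      ≤ h * (l d / d) + ((D : ℝ) ^ 2) ^ 2 := by
    intro d hd
    rw [Finset.mem_Icc] at hd
    have hc := BT_card x h d hd.1
    have hdD : (d : ℝ) ≤ (D : ℝ) ^ 2 := by exact_mod_cast hd.2
    have hd0 : (0 : ℝ) ≤ d := Nat.cast_nonneg d
    have h3 : l d * ((((Finset.Ioc x (x + h)).filter (d ∣ ·)).card : ℝ) - h / d) ≤ ((D : ℝ) ^ 2) ^ 2 := by
      calc l d * ((((Finset.Ioc x (x + h)).filter (d ∣ ·)).card : ℝ) - h / d)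
          ≤ |l d * ((((Finset.Ioc x (x + h)).filter (d ∣ ·)).card : ℝ) - h / d)| := le_abs_self _
        _ = |l d| * |(((Finset.Ioc x (x + h)).filter (d ∣ ·)).card : ℝ) - h / d| := abs_mul _ _
        _ ≤ (d : ℝ) ^ 2 * 1 := mul_le_mul (hl d) hc (abs_nonneg _) (by positivity)
        _ ≤ ((D : ℝ) ^ 2) ^ 2 := by rw [mul_one]; gcongr
    have h4 : l d * (((Finset.Ioc x (x + h)).filter (d ∣ ·)).card : ℝ)
        = h * (l d / d) + l d * ((((Finset.Ioc x (x + h)).filter (d ∣ ·)).card : ℝ) - h / d) := by ring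
    rw [h4]
    linarith
  refine (Finset.sum_le_sum h2).trans ?_
  rw [Finset.sum_add_distrib, ← Finset.mul_sum, Finset.sum_const, nsmul_eq_mul, Nat.card_Icc]
  have h5 : (h : ℝ) * ∑ d ∈ Finset.Icc 1 (D ^ 2), l d / d ≤ h * |∑ d ∈ Finset.Icc 1 (D ^ 2), l d / d| :=
    mul_le_mul_of_nonneg_left (le_abs_self _) (Nat.cast_nonneg h)
  have h6 : (((D ^ 2 + 1 - 1 : ℕ)) : ℝ) * ((D : ℝ) ^ 2) ^ 2 = (D : ℝ) ^ 6 := by
    rw [Nat.add_sub_cancel]; push_cast; ring
  rw [h6]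
  linarith

theorem bt {t : ℝ} (ht : 0 < t) : ∃ C : ℝ, 1 ≤ C ∧ ∃ x0 : ℕ, ∀ x h : ℕ, x0 ≤ h → (x : ℝ) ^ t ≤ h →
    ∑ n ∈ Finset.Ioc x (x + h), RLC.th n ≤ C * h := by
  obtain ⟨C0, hC0, hsel⟩ := Pool.MRZ.sel_maj
  have hit : 0 < 1 / t := by positivity
  refine ⟨(2 + 1 / t) * (20 * C0 + 40), ?_, 2 ^ 20, ?_⟩
  · nlinarith [mul_pos hit hC0]
  intro x h hh hxt
  have hh1 : (2 : ℝ) ^ 20 ≤ h := by exact_mod_cast hh
  have hpos : (0 : ℝ) < h := lt_of_lt_of_le (by positivity) hh1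
  have hh2 : (2 : ℝ) ≤ h := le_trans (by norm_num) hh1
  set y : ℝ := (h : ℝ) ^ (1 / 20 : ℝ) with hy
  have hy20 : y ^ 20 = h := by
    rw [hy, ← Real.rpow_natCast, ← Real.rpow_mul hpos.le]
    norm_num
  have hy2 : 2 ≤ y := by
    have hy0 : 0 ≤ y := Real.rpow_nonneg hpos.le _
    by_contra hcon
    push Not at hcon
    have : y ^ 20 < 2 ^ 20 := pow_lt_pow_left₀ hcon hy0 (by norm_num)
    linarith
  have hy0 : 0 < y := by linarith
  set D : ℕ := ⌊y ^ 2⌋₊ with hD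
  have hDle : (D : ℝ) ≤ y ^ 2 := Nat.floor_le (by positivity)
  have hDlt : y ^ 2 < D + 1 := Nat.lt_floor_add_one _
  have hyD : y ≤ D := by nlinarith
  have hD2 : 2 ≤ D := by
    have : (2 : ℝ) ≤ D := hy2.trans hyD
    exact_mod_cast this
  obtain ⟨l, hl1, hl2, hl3, hl4⟩ := hsel D hD2
  have hlogh : Real.log h = 20 * Real.log y := by
    rw [← hy20, Real.log_pow]; norm_num
  have hlogy : 0 < Real.log y := Real.log_pos (by linarith)
  have hlogD : Real.log y ≤ Real.log D := Real.log_le_log hy0 hyD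
  have hlogh0 : 0 < Real.log h := by rw [hlogh]; positivity
  -- the size of `x`
  have hx : (x : ℝ) ≤ (h : ℝ) ^ (1 / t) := by
    have h1 : ((x : ℝ) ^ t) ^ (1 / t) ≤ (h : ℝ) ^ (1 / t) :=
      Real.rpow_le_rpow (Real.rpow_nonneg (Nat.cast_nonneg x) _) hxt hit.le
    rwa [← Real.rpow_mul (Nat.cast_nonneg x), mul_one_div_cancel ht.ne', Real.rpow_one] at h1
  have hxh : Real.log ((x : ℝ) + h) ≤ (2 + 1 / t) * Real.log h := by
    have h1 : (1 : ℝ) ≤ (h : ℝ) ^ (1 / t) := Real.one_le_rpow (by linarith) hit.le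
    have h2 : (x : ℝ) + h ≤ (h : ℝ) ^ (2 + 1 / t) := by
      rw [Real.rpow_add hpos, Real.rpow_two]
      nlinarith [mul_nonneg (sub_nonneg.mpr h1) (sub_nonneg.mpr hh2), mul_pos hpos hpos]
    calc Real.log ((x : ℝ) + h) ≤ Real.log ((h : ℝ) ^ (2 + 1 / t)) :=
          Real.log_le_log (by positivity) h2
      _ = (2 + 1 / t) * Real.log h := Real.log_rpow hpos _
  have hlx0 : 0 ≤ Real.log ((x : ℝ) + h) := Real.log_nonneg (by
    have : (0 : ℝ) ≤ x := Nat.cast_nonneg x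
    linarith)
  -- pointwise
  have hpt : ∀ n ∈ Finset.Ioc x (x + h), RLC.th n ≤ Real.log ((x : ℝ) + h) *
      ((∑ d ∈ (Finset.Icc 1 (D ^ 2)).filter (· ∣ n), l d) + if n ∈ Finset.Icc 1 D then 1 else 0) := by
    intro n hn
    rw [Finset.mem_Ioc] at hn
    have hn1 : 1 ≤ n := by omega
    have hf := hl2 n hn1
    have hnle : (n : ℝ) ≤ x + h := by exact_mod_cast hn.2
    have hnl : Real.log n ≤ Real.log ((x : ℝ) + h) :=
      Real.log_le_log (by exact_mod_cast hn1) hnle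
    have hi : (0 : ℝ) ≤ if n ∈ Finset.Icc 1 D then (1 : ℝ) else 0 := by split_ifs <;> norm_num
    by_cases hp : n.Prime
    · have hth : RLC.th n = Real.log n := by unfold RLC.th; rw [if_pos hp]
      rw [hth]
      have hone : 1 ≤ (∑ d ∈ (Finset.Icc 1 (D ^ 2)).filter (· ∣ n), l d) +
          if n ∈ Finset.Icc 1 D then (1 : ℝ) else 0 := by
        by_cases hnD : n ≤ D
        · rw [if_pos (Finset.mem_Icc.mpr ⟨hn1, hnD⟩)]
          linarith
        · have := hl3 n hp (by omega)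
          linarith
      calc Real.log n ≤ Real.log ((x : ℝ) + h) * 1 := by rw [mul_one]; exact hnl
        _ ≤ _ := mul_le_mul_of_nonneg_left hone hlx0
    · have hth : RLC.th n = 0 := by unfold RLC.th; rw [if_neg hp]
      rw [hth]
      exact mul_nonneg hlx0 (add_nonneg hf hi)
  have hcard : ∑ n ∈ Finset.Ioc x (x + h), (if n ∈ Finset.Icc 1 D then (1 : ℝ) else 0) ≤ D := by
    rw [← Finset.sum_filter, Finset.sum_const, nsmul_eq_mul, mul_one]
    have : ((Finset.Ioc x (x + h)).filter (· ∈ Finset.Icc 1 D)).card ≤ (Finset.Icc 1 D).card := by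
      apply Finset.card_le_card
      intro n hn
      exact (Finset.mem_filter.mp hn).2
    rw [Nat.card_Icc, Nat.add_sub_cancel] at this
    exact_mod_cast this
  have hsum := BT_sum l D x h hl1
  have hmain : (h : ℝ) * |∑ d ∈ Finset.Icc 1 (D ^ 2), l d / d| ≤ h * (C0 / Real.log y) := by
    apply mul_le_mul_of_nonneg_left _ hpos.le
    exact hl4.trans (div_le_div_of_nonneg_left hC0.le hlogy hlogD)
  have hD6 : (D : ℝ) ^ 6 ≤ y ^ 12 := by
    calc (D : ℝ) ^ 6 ≤ (y ^ 2) ^ 6 := by gcongr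
      _ = y ^ 12 := by ring
  have hlogyy : Real.log y ≤ y := (Real.log_le_sub_one_of_pos hy0).trans (by linarith)
  have htot : ∑ n ∈ Finset.Ioc x (x + h), RLC.th n
      ≤ Real.log ((x : ℝ) + h) * (h * (C0 / Real.log y) + y ^ 12 + y ^ 2) := by
    refine (Finset.sum_le_sum hpt).trans ?_
    rw [← Finset.mul_sum, Finset.sum_add_distrib]
    apply mul_le_mul_of_nonneg_left _ hlx0
    linarith
  refine htot.trans ?_
  have hinner : 0 ≤ h * (C0 / Real.log y) + y ^ 12 + y ^ 2 := by positivity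
  calc Real.log ((x : ℝ) + h) * (h * (C0 / Real.log y) + y ^ 12 + y ^ 2)
      ≤ ((2 + 1 / t) * Real.log h) * (h * (C0 / Real.log y) + y ^ 12 + y ^ 2) :=
        mul_le_mul_of_nonneg_right hxh hinner
    _ = (2 + 1 / t) * (20 * C0 * h + 20 * (Real.log y * (y ^ 12 + y ^ 2))) := by
        rw [hlogh]
        field_simp
        ring
    _ ≤ (2 + 1 / t) * (20 * C0 * h + 20 * (2 * h)) := by
        have h1 : Real.log y * (y ^ 12 + y ^ 2) ≤ 2 * h := by
          have h2 : y ^ 2 ≤ y ^ 12 := pow_le_pow_right₀ (by linarith) (by norm_num)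
          calc Real.log y * (y ^ 12 + y ^ 2) ≤ y * (y ^ 12 + y ^ 12) := by
                apply mul_le_mul hlogyy (by linarith) (by positivity) hy0.le
            _ = 2 * y ^ 13 := by ring
            _ ≤ 2 * y ^ 20 := by
                have : y ^ 13 ≤ y ^ 20 := pow_le_pow_right₀ (by linarith) (by norm_num)
                linarith
            _ = 2 * h := by rw [hy20]
        have h3 : 0 < 2 + 1 / t := by positivity
        gcongr
    _ = (2 + 1 / t) * (20 * C0 + 40) * h := by ring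

end RAF
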