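import Pool.Agent.RAF.Geo
import Pool.Agent.RAF.Mom1
import Pool.Agent.RAF.Dens

/-!
# RAF.BadL: the chains which meet the exceptional set

PROOF. `wt n j - wb n j = wt n j · 1[∃ i ≤ j, ch n i ∈ B] ≤ ∑_{i≤j} wt n j · 1[ch n i ∈ B]`, and for almost all `ω` (`ae_mem`) `log₂ (ch n i) = m + i` (`geo`, `n ∈ Inn t m`), so that `B` may be replaced by
`B_i = B ∩ [2^(m+i), 2^(m+i+1))`. For `i ≤ j`: `tail` (`S = B_i`, `l = j - i`) and then `dens` with `F z = ofReal (th z) · 1[z ∈ B_i]` (the sum over `n ∈ I` is a part of the `∑'`; `wt n i = (∏_{l<i} th (ch n l)) th (ch n i)`):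
`∑_{n∈I} E wt n j · 1[ch n i ∈ B_i] ≤ C^(j-i) C^i ∑_{z∈B_i} th z ≤ C^j (m+i+1) 2^((1-κ)(m+i))`. Sum over `i ≤ j`: `≤ (j+1)(m+j+1) C^j 2^j 2^((1-κ)m) ≤ 2^((1-κ/2)m)` for large `m`, since
`j ≤ 2 L/log L`, `L = log(2^m)`, so `(2C)^j = exp(o(m))`.
-/

namespace RAF

open MeasureTheory

variable {M : ℕ} {t K : ℝ} {g : ℕ → ℝ}

/-- The part of `B` in the block `b`. -/
private def BadL_blk (B : Set ℕ) (b : ℕ) : Set ℕ := {z | z ∈ B ∧ 0 < z ∧ Nat.log 2 z = b}

/-- Numbers: the factors are small. -/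
private lemma BadL_ev (C κ : ℝ) (hC : 1 ≤ C) (hκ : 0 < κ) (hκ1 : κ ≤ 1) : ∃ m1 : ℕ, ∀ m : ℕ, m1 ≤ m → ∀ j : ℕ,
    ((j : ℝ) ≤ 2 * (Real.log (2 ^ m) / Real.log (Real.log (2 ^ m)))) →
    ((j : ℝ) + 1) * (C ^ j * (2 ^ j * ((m : ℝ) + j + 1))) ≤ (2 : ℝ) ^ (κ / 2 * (m : ℝ)) := by
  set D : ℝ := 2 * C with hD
  have hD2 : 2 ≤ D := by linarith
  have hD0 : 0 < D := by linarith
  have hlog2 : 0 < Real.log 2 := Real.log_pos (by norm_num)
  have hlogD : Real.log 2 ≤ Real.log D := Real.log_le_log (by norm_num) hD2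
  have hlogD0 : 0 < Real.log D := lt_of_lt_of_le hlog2 hlogD
  set η : ℝ := κ * Real.log 2 / (4 * Real.log D) with hη
  have hη0 : 0 < η := by positivity
  have hη1 : η ≤ 1 := by
    rw [hη, div_le_one (by positivity)]
    nlinarith
  set r : ℝ := (2 : ℝ) ^ (κ / 4) with hr
  have hr1 : 1 < r := Real.one_lt_rpow (by norm_num) (by positivity)
  have h1 : ∀ᶠ m : ℕ in Filter.atTop, (m : ℝ) ^ 2 / r ^ m < 1 / 6 :=
    (tendsto_pow_const_div_const_pow_of_one_lt 2 hr1).eventually (gt_mem_nhds (by norm_num))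
  have h2 : ∀ᶠ m : ℕ in Filter.atTop, 2 / η ≤ Real.log (Real.log (2 ^ m)) := by
    have h3 : Filter.Tendsto (fun m : ℕ => Real.log ((2 : ℝ) ^ m)) Filter.atTop Filter.atTop :=
      Real.tendsto_log_atTop.comp (tendsto_pow_atTop_atTop_of_one_lt (by norm_num))
    exact (Real.tendsto_log_atTop.comp h3).eventually_ge_atTop _
  obtain ⟨m1, hm1⟩ := Filter.eventually_atTop.mp (h1.and (h2.and (Filter.eventually_ge_atTop 1)))
  refine ⟨m1, fun m hm j hj => ?_⟩
  obtain ⟨ha, hb, hc⟩ := hm1 m hm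
  have hm0 : (1 : ℝ) ≤ m := by exact_mod_cast hc
  have hL : Real.log ((2 : ℝ) ^ m) = m * Real.log 2 := by rw [Real.log_pow]
  have hlog21 : Real.log 2 ≤ 1 := by
    have := Real.log_two_lt_d9
    linarith
  have hjm : (j : ℝ) ≤ η * m := by
    have h3 : Real.log (2 ^ m) / Real.log (Real.log (2 ^ m)) ≤ Real.log (2 ^ m) / (2 / η) :=
      div_le_div_of_nonneg_left (by rw [hL]; positivity) (by positivity) hb
    have h4 : Real.log ((2 : ℝ) ^ m) / (2 / η) = η * (m * Real.log 2) / 2 := by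
      rw [hL]
      field_simp
    have h5 : η * (m * Real.log 2) ≤ η * m := by
      refine mul_le_mul_of_nonneg_left ?_ hη0.le
      nlinarith
    linarith
  have hjm1 : (j : ℝ) ≤ m := by nlinarith
  have hDj : D ^ j ≤ r ^ m := by
    have h3 : D ^ j = D ^ (j : ℝ) := (Real.rpow_natCast _ _).symm
    have h4 : D ^ (j : ℝ) ≤ D ^ (η * m) := Real.rpow_le_rpow_of_exponent_le (by linarith) hjm
    have h5 : D ^ (η * m) = r ^ m := by
      rw [hr, ← Real.rpow_natCast, ← Real.rpow_mul (by norm_num), Real.rpow_def_of_pos hD0,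
        Real.rpow_def_of_pos (by norm_num : (0 : ℝ) < 2)]
      congr 1
      rw [hη]
      field_simp
    rw [h3, ← h5]
    exact h4
  have hrm : 0 < r ^ m := pow_pos (by linarith) _
  have hsq : (m : ℝ) ^ 2 ≤ r ^ m / 6 := by
    rw [div_lt_iff₀ hrm] at ha
    linarith
  have hpoly : ((j : ℝ) + 1) * ((m : ℝ) + j + 1) ≤ r ^ m := by
    have h3 : ((j : ℝ) + 1) * ((m : ℝ) + j + 1) ≤ (2 * m) * (3 * m) := by
      apply mul_le_mul
      · linarith
      · linarith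
      · positivity
      · positivity
    nlinarith
  have hfin : r ^ m * r ^ m = (2 : ℝ) ^ (κ / 2 * (m : ℝ)) := by
    rw [hr, ← Real.rpow_natCast, ← Real.rpow_mul (by norm_num), ← Real.rpow_add (by norm_num)]
    congr 1
    ring
  calc ((j : ℝ) + 1) * (C ^ j * (2 ^ j * ((m : ℝ) + j + 1)))
      = (((j : ℝ) + 1) * ((m : ℝ) + j + 1)) * D ^ j := by
        rw [hD, mul_pow]
        ring
    _ ≤ r ^ m * r ^ m := mul_le_mul hpoly hDj (by positivity) hrm.le
    _ = (2 : ℝ) ^ (κ / 2 * (m : ℝ)) := hfin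

open Classical in
/-- The pointwise inequality. -/
private lemma BadL_pt (n j m : ℕ) (hn : 0 < n) (B : Set ℕ) (ω : ℕ → ℝ × ℝ)
    (hlog : ∀ i, Nat.log 2 (ch M t g ω n i) = m + i) :
    ENNReal.ofReal (wt M t g n j ω - wb M t g B n j ω) ≤
      ∑ i ∈ Finset.range (j + 1), (if ch M t g ω n i ∈ BadL_blk B (m + i) then
        ENNReal.ofReal (wt M t g n j ω) else 0) := by
  by_cases hB : ∃ i ∈ Finset.range (j + 1), ch M t g ω n i ∈ B
  · obtain ⟨i, hi, hiB⟩ := hB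
    have h1 : ch M t g ω n i ∈ BadL_blk B (m + i) := ⟨hiB, ch_pos M t g ω hn i, hlog i⟩
    have h2 : ENNReal.ofReal (wt M t g n j ω - wb M t g B n j ω) ≤ ENNReal.ofReal (wt M t g n j ω) :=
      ENNReal.ofReal_le_ofReal (by linarith [wb_nonneg M t g B n j ω])
    refine h2.trans ?_
    have h3 := Finset.single_le_sum (f := fun i => (if ch M t g ω n i ∈ BadL_blk B (m + i) then
        ENNReal.ofReal (wt M t g n j ω) else 0)) (fun _ _ => bot_le) hi
    refine le_trans (le_of_eq ?_) h3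
    rw [if_pos h1]
  · push Not at hB
    have h1 : wb M t g B n j ω = wt M t g n j ω := by
      unfold wb wt
      exact Finset.prod_congr rfl fun i hi => if_neg (hB i hi)
    rw [h1, sub_self, ENNReal.ofReal_zero]
    exact bot_le

open Classical in
/-- The sum over the exceptional set. -/
private lemma BadL_F (B : Set ℕ) (b k : ℕ) (N : ℝ)
    (hN : (((Finset.Ico (2 ^ b) (2 ^ (b + 1))).filter fun z => z ∈ B).card : ℝ) ≤ N) :
    ∑' z : ℕ, (if 0 < z ∧ k ≤ Nat.log 2 z then (if z ∈ BadL_blk B b then ENNReal.ofReal (RLC.th z) else 0) else 0) ≤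
      ENNReal.ofReal (N * ((b : ℝ) + 1)) := by
  rw [tsum_eq_sum (s := (Finset.Ico (2 ^ b) (2 ^ (b + 1))).filter fun z => z ∈ B)]
  · have h1 : ∀ z ∈ (Finset.Ico (2 ^ b) (2 ^ (b + 1))).filter (fun z => z ∈ B),
        (if 0 < z ∧ k ≤ Nat.log 2 z then (if z ∈ BadL_blk B b then ENNReal.ofReal (RLC.th z) else 0) else 0) ≤
          ENNReal.ofReal ((b : ℝ) + 1) := by
      intro z hz
      rw [Finset.mem_filter, Finset.mem_Ico] at hz
      have h2 : RLC.th z ≤ (b : ℝ) + 1 := by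
        have h3 := RLC.th_le_log z
        have hz0 : (0 : ℝ) < z := by
          have : 0 < z := lt_of_lt_of_le (pow_pos (by norm_num) _) hz.1.1
          exact_mod_cast this
        have h4 : Real.log z ≤ Real.log ((2 : ℝ) ^ (b + 1)) := by
          apply Real.log_le_log hz0
          exact_mod_cast hz.1.2.le
        rw [Real.log_pow] at h4
        have h5 : Real.log 2 ≤ 1 := by
          have := Real.log_two_lt_d9
          linarith
        have h6 : ((b + 1 : ℕ) : ℝ) * Real.log 2 ≤ ((b + 1 : ℕ) : ℝ) * 1 :=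
          mul_le_mul_of_nonneg_left h5 (Nat.cast_nonneg _)
        push_cast at h6 h4
        linarith
      split_ifs
      · exact ENNReal.ofReal_le_ofReal h2
      · exact bot_le
      · exact bot_le
    refine (Finset.sum_le_sum h1).trans ?_
    rw [Finset.sum_const, nsmul_eq_mul, ← ENNReal.ofReal_natCast, ← ENNReal.ofReal_mul (Nat.cast_nonneg _)]
    apply ENNReal.ofReal_le_ofReal
    exact mul_le_mul_of_nonneg_right hN (by positivity)
  · intro z hz
    by_cases hzb : z ∈ BadL_blk B b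
    · exfalso
      apply hz
      obtain ⟨hzB, hz0, hzl⟩ := hzb
      rw [Finset.mem_filter, Finset.mem_Ico]
      refine ⟨⟨?_, ?_⟩, hzB⟩
      · rw [← hzl]
        exact Nat.pow_log_le_self 2 hz0.ne'
      · rw [← hzl]
        exact Nat.lt_pow_succ_log_self (by norm_num) z
    · rw [if_neg hzb]
      simp

open Classical in
theorem bad_loss (h : Adm M t K g) {κ : ℝ} (hκ : 0 < κ) (hκ1 : κ ≤ 1) : ∃ m1 : ℕ, ∀ (B : Set ℕ) (m0 : ℕ),
    (∀ m : ℕ, m0 ≤ m →
      (((Finset.Ico (2 ^ m) (2 ^ (m + 1))).filter fun z => z ∈ B).card : ℝ) ≤ (2 : ℝ) ^ ((1 - κ) * (m : ℝ))) →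
    ∀ m : ℕ, m0 ≤ m → m1 ≤ m → ∀ I ⊆ Inn t m, ∀ j : ℕ,
    ((j : ℝ) ≤ 2 * (Real.log (2 ^ m) / Real.log (Real.log (2 ^ m)))) →
    ∑ n ∈ I, ∫⁻ ω, ENNReal.ofReal (wt M t g n j ω - wb M t g B n j ω) ∂Pm ≤
      ENNReal.ofReal ((2 : ℝ) ^ ((1 - κ / 2) * (m : ℝ))) := by
  obtain ⟨mg, hgeo⟩ := geo h
  obtain ⟨C1, hC1, htail⟩ := tail h
  obtain ⟨C2, hC2, hdens⟩ := dens h
  set C : ℝ := max C1 C2 with hC
  have hC1' : C1 ≤ C := le_max_left _ _
  have hC2' : C2 ≤ C := le_max_right _ _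
  have hC0 : 1 ≤ C := hC1.trans hC1'
  obtain ⟨me, hev⟩ := BadL_ev C κ hC0 hκ hκ1
  refine ⟨max mg me, fun B m0 hcard m hm0 hm1 I hI j hj => ?_⟩
  have hmg : mg ≤ m := (le_max_left _ _).trans hm1
  have hme : me ≤ m := (le_max_right _ _).trans hm1
  -- the terms
  have hmeas : ∀ n i : ℕ, Measurable fun ω : ℕ → ℝ × ℝ =>
      (if ch M t g ω n i ∈ BadL_blk B (m + i) then ENNReal.ofReal (wt M t g n j ω) else 0) := fun n i =>
    Measurable.ite ((ch_meas M t g n i) (MeasurableSet.of_discrete)) (wt_meas M t g n j).ennreal_ofReal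
      measurable_const
  have hstep1 : ∀ n ∈ I, ∫⁻ ω, ENNReal.ofReal (wt M t g n j ω - wb M t g B n j ω) ∂Pm ≤
      ∑ i ∈ Finset.range (j + 1), ∫⁻ ω, (if ch M t g ω n i ∈ BadL_blk B (m + i) then
        ENNReal.ofReal (wt M t g n j ω) else 0) ∂Pm := by
    intro n hn
    rw [← lintegral_finsetSum _ (fun i _ => hmeas n i)]
    refine lintegral_mono_ae ?_
    filter_upwards [ae_mem] with ω hω
    exact BadL_pt n j m (Inn_pos (hI hn)).1 B ω fun i => ((hgeo m hmg ω hω n (hI hn)).1 i).1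
  have hstep2 : ∀ i ∈ Finset.range (j + 1), ∑ n ∈ I, ∫⁻ ω, (if ch M t g ω n i ∈ BadL_blk B (m + i) then
        ENNReal.ofReal (wt M t g n j ω) else 0) ∂Pm ≤
      ENNReal.ofReal (C ^ j * (2 ^ j * ((m : ℝ) + j + 1)) * (2 : ℝ) ^ ((1 - κ) * (m : ℝ))) := by
    intro i hi
    have hij : i ≤ j := by
      rw [Finset.mem_range] at hi
      omega
    have h1 : ∀ n ∈ I, ∫⁻ ω, (if ch M t g ω n i ∈ BadL_blk B (m + i) then
        ENNReal.ofReal (wt M t g n j ω) else 0) ∂Pm ≤ ENNReal.ofReal (C1 ^ (j - i)) *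
        (if 0 < n ∧ m ≤ Nat.log 2 n then ∫⁻ ω, ENNReal.ofReal (∏ l ∈ Finset.range i, RLC.th (ch M t g ω n l)) *
          (fun z => (if z ∈ BadL_blk B (m + i) then ENNReal.ofReal (RLC.th z) else 0)) (ch M t g ω n i) ∂Pm else 0) := by
      intro n hn
      obtain ⟨hn0, hnl⟩ := Inn_pos (hI hn)
      have h2 := htail (BadL_blk B (m + i)) n hn0 i (j - i)
      rw [Nat.add_sub_cancel' hij] at h2
      refine h2.trans (le_of_eq ?_)
      congr 1
      rw [if_pos ⟨hn0, hnl.ge⟩]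
      refine lintegral_congr fun ω => ?_
      by_cases hz : ch M t g ω n i ∈ BadL_blk B (m + i)
      · simp only [if_pos hz]
        rw [← ENNReal.ofReal_mul (Finset.prod_nonneg fun l _ => RLC.th_nonneg _)]
        unfold wt
        rw [Finset.prod_range_succ]
      · simp only [if_neg hz, mul_zero]
    refine (Finset.sum_le_sum h1).trans ?_
    rw [← Finset.mul_sum]
    have h3 : ∑ n ∈ I, (if 0 < n ∧ m ≤ Nat.log 2 n then
        ∫⁻ ω, ENNReal.ofReal (∏ l ∈ Finset.range i, RLC.th (ch M t g ω n l)) *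
          (fun z => (if z ∈ BadL_blk B (m + i) then ENNReal.ofReal (RLC.th z) else 0)) (ch M t g ω n i) ∂Pm else 0) ≤
        ENNReal.ofReal (C2 ^ i) * ENNReal.ofReal ((2 : ℝ) ^ ((1 - κ) * ((m + i : ℕ) : ℝ)) * (((m + i : ℕ) : ℝ) + 1)) := by
      refine (ENNReal.sum_le_tsum I).trans ?_
      refine (hdens (fun z => (if z ∈ BadL_blk B (m + i) then ENNReal.ofReal (RLC.th z) else 0)) m i).trans ?_
      exact mul_le_mul_right (BadL_F B (m + i) (m + i) _ (hcard (m + i) (by omega))) _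
    refine (mul_le_mul_right h3 _).trans ?_
    rw [← ENNReal.ofReal_mul (by positivity), ← ENNReal.ofReal_mul (by positivity)]
    apply ENNReal.ofReal_le_ofReal
    have h4 : C1 ^ (j - i) * C2 ^ i ≤ C ^ j := by
      have h5 : C1 ^ (j - i) ≤ C ^ (j - i) := pow_le_pow_left₀ (by linarith) hC1' _
      have h6 : C2 ^ i ≤ C ^ i := pow_le_pow_left₀ (by linarith) hC2' _
      calc C1 ^ (j - i) * C2 ^ i ≤ C ^ (j - i) * C ^ i := mul_le_mul h5 h6 (by positivity) (by positivity)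
        _ = C ^ j := by rw [← pow_add, Nat.sub_add_cancel hij]
    have hij' : (i : ℝ) ≤ j := by exact_mod_cast hij
    have h7 : (2 : ℝ) ^ ((1 - κ) * ((m + i : ℕ) : ℝ)) ≤ 2 ^ j * (2 : ℝ) ^ ((1 - κ) * (m : ℝ)) := by
      rw [← Real.rpow_natCast 2 j, ← Real.rpow_add (by norm_num)]
      apply Real.rpow_le_rpow_of_exponent_le (by norm_num)
      push_cast
      have h8 : (1 - κ) * (i : ℝ) ≤ i := by
        have : 0 ≤ κ * (i : ℝ) := by positivity
        linarith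
      linarith
    have h9 : (((m + i : ℕ) : ℝ) + 1) ≤ (m : ℝ) + j + 1 := by
      push_cast
      linarith
    calc C1 ^ (j - i) * (C2 ^ i * ((2 : ℝ) ^ ((1 - κ) * ((m + i : ℕ) : ℝ)) * (((m + i : ℕ) : ℝ) + 1)))
        = (C1 ^ (j - i) * C2 ^ i) * ((2 : ℝ) ^ ((1 - κ) * ((m + i : ℕ) : ℝ)) * (((m + i : ℕ) : ℝ) + 1)) := by ring
      _ ≤ C ^ j * ((2 ^ j * (2 : ℝ) ^ ((1 - κ) * (m : ℝ))) * ((m : ℝ) + j + 1)) := by
          refine mul_le_mul h4 ?_ (by positivity) (by positivity)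
          exact mul_le_mul h7 h9 (by positivity) (by positivity)
      _ = C ^ j * (2 ^ j * ((m : ℝ) + j + 1)) * (2 : ℝ) ^ ((1 - κ) * (m : ℝ)) := by ring
  refine (Finset.sum_le_sum hstep1).trans ?_
  rw [Finset.sum_comm]
  refine (Finset.sum_le_sum hstep2).trans ?_
  rw [Finset.sum_const, Finset.card_range, nsmul_eq_mul, ← ENNReal.ofReal_natCast,
    ← ENNReal.ofReal_mul (Nat.cast_nonneg _)]
  apply ENNReal.ofReal_le_ofReal
  have h20 := hev m hme j hj
  have h21 : (0 : ℝ) < (2 : ℝ) ^ ((1 - κ) * (m : ℝ)) := Real.rpow_pos_of_pos (by norm_num) _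
  push_cast
  calc ((j : ℝ) + 1) * (C ^ j * (2 ^ j * ((m : ℝ) + j + 1)) * (2 : ℝ) ^ ((1 - κ) * (m : ℝ)))
      = (((j : ℝ) + 1) * (C ^ j * (2 ^ j * ((m : ℝ) + j + 1)))) * (2 : ℝ) ^ ((1 - κ) * (m : ℝ)) := by ring
    _ ≤ (2 : ℝ) ^ (κ / 2 * (m : ℝ)) * (2 : ℝ) ^ ((1 - κ) * (m : ℝ)) :=
        mul_le_mul_of_nonneg_right h20 h21.le
    _ = (2 : ℝ) ^ ((1 - κ / 2) * (m : ℝ)) := by
        rw [← Real.rpow_add (by norm_num)]
        congr 1
        ring

end RAF
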