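import Pool.Agent.RAF.ShortS
import Pool.Agent.ASC.Sharp
import Pool.Agent.ASC.SharpI

/-!
# RAF.Cells: the exceptional cells are power-rare

PROOF. Let `A' : ℕ`, `A' ≥ |A| + 2`, `ε = (t1 - 1/2)/2`, `κ1` from `short_split hM hε`, `κ = κ1/4`. Let `m` be large. Every cell `[rh, (r+1)h)` in the statement is the sharp window of
`y = rh - 1`: `csum M b h r = ASC.SB M b (rh - 1) h` (`r ≥ 1`; `⌊rh-1⌋₊ < p ≤ ⌊rh-1+h⌋₊` iff `rh ≤ p < (r+1)h`), and
`2^(m-1) ≤ y ≤ 2^(m+4)`. For one of the five numbers `X = 2^(m-1+i)`, `i ≤ 4`: `X ≤ y ≤ 3X`. Fix `X`, `L = log X` (between `m/2` and `m + 3`), `δ = h/X/L^(A'+1+3)`; as in the proof of `ASC.sharp`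
(`Pool/Agent/ASC/Sharp.lean`; `ASC.cmp_prime M b h1 (A'+1)` for each of the finitely many `b % M`, `ASC.cmp_int`, `ASC.EE_eq`, the weight is `≤ 2X`):
`|SB M b y h - h/φ(M)| ≤ 2h/L^(A'+1) + 2X |EE M b δ L y h|`, `EE = (1/δ) ∫_{[log y, log(y+h)]} G`, `G = FB - MM/φ(M)`. (`h ≤ 2^(t2 m) ≤ X/L^(A'+4)` and `X^th ≤ h` with `th = (t1 + 1/2)/2` for large `m`, also `exp(-(1/2-ε')L) ≤ δ` with a suitable `ε'`.) If the cell is bad for
`b`, then `2X|EE| > h m^(-A)/2`, and by `short_split` (exponent `|A| + 2`, class `b`): `|∫_{[log y, log(y+h)]} S| > δ h m^(-A)/(8X)`, as the length of the interval is at most `h/X`. By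
Cauchy-Schwarz `∫_{[log y, log(y+h)]} S² ≥ δ² (h/X) m^(-2A)/64`. For different `r` these intervals overlap at most in end points (`y_r + h = y_(r+1)`), so
`#(bad for b, X) · δ² (h/X) m^(-2A)/64 ≤ ∫ S² ≤ δ² exp(-κ1 L)`, `#(bad) · h ≤ 64 X m^(2|A|) exp(-κ1 L)`. Sum over the five `X` and the classes `b % M` (`BadC` and `csum` depend on `b` modulo `M`
only): `≤ 5 M · 64 · 2^(m+3) m^(2|A|) exp(-κ1 (m-1) log 2) ≤ 2^((1-κ)m)` for large `m`.
-/

namespace RAF

open MeasureTheory ArithmeticFunction ASI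

private theorem Cells_pow {c : ℝ} (hc : 0 < c) (k : ℕ) :
    ∃ L0 : ℝ, 1 ≤ L0 ∧ ∀ L : ℝ, L0 ≤ L → L ^ k ≤ Real.exp (c * L) := by
  have h := (isLittleO_pow_exp_pos_mul_atTop k hc).def (show (0 : ℝ) < 1 by norm_num)
  obtain ⟨L0, hL0⟩ := Filter.eventually_atTop.1 h
  refine ⟨max L0 1, le_max_right _ _, fun L hL => ?_⟩
  have h1 := hL0 L ((le_max_left _ _).trans hL)
  have h2 : 0 ≤ L := zero_le_one.trans ((le_max_right _ _).trans hL)
  rw [Real.norm_of_nonneg (by positivity), Real.norm_of_nonneg (Real.exp_pos _).le, one_mul] at h1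
  exact h1

private theorem Cells_weight {X y : ℝ} (hX : 1 ≤ X) (hy : X ≤ y) (hy' : y ≤ 3 * X) :
    2 ≤ Real.sqrt (2 * Real.pi) * ps (Real.log X) (Real.log y) := by
  have h1 : (5 / 2 : ℝ) ≤ Real.sqrt (2 * Real.pi) := by
    apply Real.le_sqrt_of_sq_le
    have := Real.pi_gt_d2
    norm_num at this ⊢
    linarith
  have hX0 : 0 < X := by linarith
  have h2 : 0 ≤ Real.log y - Real.log X := by
    have := Real.log_le_log hX0 hy
    linarith
  have h3 : Real.log y - Real.log X ≤ 1137 / 1000 := by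
    have h4 : Real.log y ≤ Real.log (3 * X) := Real.log_le_log (by linarith) hy'
    rw [Real.log_mul (by norm_num) hX0.ne'] at h4
    have h5 : Real.log 3 ≤ 1137 / 1000 := by
      have h6 : Real.log 3 = 2 * Real.log 2 + Real.log (3 / 4) := by
        rw [Real.log_div (by norm_num) (by norm_num), show (4 : ℝ) = 2 ^ 2 by norm_num, Real.log_pow]
        push_cast
        ring
      have h7 := Real.log_two_lt_d9
      have h8 := Real.log_le_sub_one_of_pos (show (0 : ℝ) < 3 / 4 by norm_num)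
      rw [h6]
      norm_num at h7 h8 ⊢
      linarith
    linarith
  have h9 : (4 / 5 : ℝ) ≤ ps (Real.log X) (Real.log y) := by
    unfold ps
    have h10 := Real.add_one_le_exp (-(Real.log y - Real.log X) ^ 2 / 8)
    have h11 : (Real.log y - Real.log X) ^ 2 ≤ (1137 / 1000) ^ 2 := pow_le_pow_left₀ h2 h3 2
    norm_num at h11
    linarith
  calc (2 : ℝ) = 5 / 2 * (4 / 5) := by norm_num
    _ ≤ _ := mul_le_mul h1 h9 (by norm_num) (Real.sqrt_nonneg _)

/-- The pointwise estimate, for one residue class. -/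
private theorem Cells_abs {M : ℕ} (hM : 0 < M) (b : ℕ) {th : ℝ} (h1 : 1 / 2 < th) (B : ℕ) :
    ∃ X0 : ℝ, 3 ≤ X0 ∧ ∀ X h y : ℝ, X0 ≤ X → X ^ th ≤ h → h ≤ X / Real.log X ^ (B + 3) → X ≤ y → y ≤ 3 * X →
      |ASC.SB M b y h - h / (Nat.totient M : ℝ)| ≤ 2 * (h / Real.log X ^ (B + 1)) +
        2 * X * |ASC.EE M b (h / X / Real.log X ^ (B + 1 + 3)) (Real.log X) y h| := by
  obtain ⟨X1, hX1, hP⟩ := ASC.cmp_prime M b h1 (B + 1)
  obtain ⟨X2, hX2, hI⟩ := ASC.cmp_int h1 (B + 1)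
  refine ⟨max X1 X2, hX1.trans (le_max_left _ _), ?_⟩
  intro X h y hX hh hh' hy1 hy2
  have hXX1 : X1 ≤ X := (le_max_left _ _).trans hX
  have hXX2 : X2 ≤ X := (le_max_right _ _).trans hX
  have hX3 : 3 ≤ X := hX1.trans hXX1
  have hX0 : 0 < X := by linarith
  obtain ⟨L, hL⟩ : ∃ L, L = Real.log X := ⟨_, rfl⟩
  have hLpos : 0 < L := by rw [hL]; exact Real.log_pos (by linarith)
  have hh0 : 0 < h := (Real.rpow_pos_of_pos hX0 _).trans_le hh
  have hy0 : 0 < y := hX0.trans_le hy1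
  have hφ : 1 ≤ (Nat.totient M : ℝ) := by exact_mod_cast Nat.totient_pos.2 hM
  have hφ0 : 0 < (Nat.totient M : ℝ) := by linarith
  have hp := hP X h y hXX1 hh hh' hy1 hy2
  have hi := hI X h y hXX2 hh hh' hy1 hy2
  rw [← hL]
  rw [← hL] at hh' hp hi
  obtain ⟨δ, hδ⟩ : ∃ δ, δ = h / X / L ^ (B + 1 + 3) := ⟨_, rfl⟩
  have hδ0 : 0 < δ := by rw [hδ]; positivity
  rw [← hδ] at hp hi ⊢
  have he := ASC.EE_eq (M := M) b L hδ0 hy0 hh0.le
  obtain ⟨I, hIdef⟩ : ∃ I, I = ∫ x : ℝ, ASC.rho L y x * ASC.KK δ y h x * Real.exp x := ⟨_, rfl⟩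
  rw [← hIdef] at hi he
  have hw := Cells_weight (by linarith : 1 ≤ X) hy1 hy2
  rw [← hL] at hw
  have hw2 : |y / (Real.sqrt (2 * Real.pi) * ps L (Real.log y)) * ASC.EE M b δ L y h| ≤
      2 * X * |ASC.EE M b δ L y h| := by
    rw [abs_mul]
    refine mul_le_mul_of_nonneg_right ?_ (abs_nonneg _)
    rw [abs_of_nonneg (by positivity)]
    rw [div_le_iff₀ (by linarith)]
    nlinarith [hy2]
  have hi2 : |(I - h) / (Nat.totient M : ℝ)| ≤ h / L ^ (B + 1) := by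
    rw [abs_div, abs_of_pos hφ0]
    exact (div_le_self (abs_nonneg _) hφ).trans hi
  have hdec : ASC.SB M b y h - h / (Nat.totient M : ℝ) =
      -(ASC.SK M b δ L y h - ASC.SB M b y h) + (ASC.SK M b δ L y h - I / (Nat.totient M : ℝ)) +
        (I - h) / (Nat.totient M : ℝ) := by
    ring
  rw [hdec]
  refine (abs_add_three _ _ _).trans ?_
  rw [abs_neg, ← he]
  linarith

/-- Cauchy-Schwarz on an interval. -/
private theorem Cells_cs {S : ℝ → ℝ} {a c : ℝ} (hac : a < c) (hS : IntegrableOn S (Set.Ioc a c))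
    (hS2 : IntegrableOn (fun u => S u ^ 2) (Set.Ioc a c)) :
    (∫ u in Set.Ioc a c, S u) ^ 2 ≤ (c - a) * ∫ u in Set.Ioc a c, S u ^ 2 := by
  obtain ⟨k, hk⟩ : ∃ k, k = (∫ u in Set.Ioc a c, S u) / (c - a) := ⟨_, rfl⟩
  have hl : 0 < c - a := by linarith
  have h1 : 0 ≤ ∫ u in Set.Ioc a c, (S u - k) ^ 2 := integral_nonneg fun u => sq_nonneg _
  have h2 : ∫ u in Set.Ioc a c, (S u - k) ^ 2 =
      (∫ u in Set.Ioc a c, S u ^ 2) - 2 * k * (∫ u in Set.Ioc a c, S u) + k ^ 2 * (c - a) := by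
    have e : ∀ u, (S u - k) ^ 2 = S u ^ 2 - 2 * k * S u + k ^ 2 := fun u => by ring
    simp only [e]
    have hc : IntegrableOn (fun _ : ℝ => k ^ 2) (Set.Ioc a c) := integrableOn_const (by simp)
    have i1 : Integrable (fun u => 2 * k * S u) (volume.restrict (Set.Ioc a c)) := hS.const_mul _
    have i2 : Integrable (fun u => S u ^ 2 - 2 * k * S u) (volume.restrict (Set.Ioc a c)) := hS2.sub i1
    rw [integral_add i2 hc, integral_sub hS2 i1,
      integral_const_mul, setIntegral_const, Real.volume_real_Ioc_of_le hac.le]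
    simp only [smul_eq_mul]
    ring
  rw [h2] at h1
  have h3 : (∫ u in Set.Ioc a c, S u) = k * (c - a) := by
    rw [hk]
    field_simp
  rw [h3] at h1 ⊢
  have h4 : k ^ 2 * (c - a) ≤ ∫ u in Set.Ioc a c, S u ^ 2 := by nlinarith
  calc (k * (c - a)) ^ 2 = (c - a) * (k ^ 2 * (c - a)) := by ring
    _ ≤ _ := mul_le_mul_of_nonneg_left h4 hl.le

/-- Counting disjoint intervals. -/
private theorem Cells_count {S : ℝ → ℝ} (hS2 : Integrable (fun u => S u ^ 2)) {a : ℕ → ℝ} (R : Finset ℕ)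
    (ha : ∀ r ∈ R, ∀ s ∈ R, r < s → a (r + 1) ≤ a s) {c : ℝ}
    (hc : ∀ r ∈ R, c ≤ ∫ u in Set.Ioc (a r) (a (r + 1)), S u ^ 2) :
    (R.card : ℝ) * c ≤ ∫ u, S u ^ 2 := by
  have h1 : (R.card : ℝ) * c ≤ ∑ r ∈ R, ∫ u in Set.Ioc (a r) (a (r + 1)), S u ^ 2 := by
    rw [← nsmul_eq_mul]
    exact Finset.card_nsmul_le_sum _ _ _ hc
  refine h1.trans ?_
  have hd : Set.Pairwise (↑R : Set ℕ) (Function.onFun Disjoint fun r => Set.Ioc (a r) (a (r + 1))) := by
    intro r hr s hs hrs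
    rcases lt_or_gt_of_ne hrs with h | h
    · refine Set.disjoint_left.2 fun u hu hu' => ?_
      have := ha r hr s hs h
      exact absurd (hu.2.trans this) (not_le.2 hu'.1)
    · refine Set.disjoint_left.2 fun u hu hu' => ?_
      have := ha s hs r hr h
      exact absurd (hu'.2.trans this) (not_le.2 hu.1)
  rw [← integral_biUnion_finset R (fun r _ => measurableSet_Ioc) hd fun r _ => hS2.integrableOn]
  exact setIntegral_le_integral hS2 (Filter.Eventually.of_forall fun u => sq_nonneg _)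

private theorem Cells_SB {M b h r : ℕ} (hh : 0 < h) (hr : 0 < r) :
    csum M b h r = ASC.SB M b ((r : ℝ) * h - 1) h := by
  have hrh : 1 ≤ r * h := Nat.mul_pos hr hh
  have e1 : ((r : ℝ) * h - 1) = ((r * h - 1 : ℕ) : ℝ) := by
    rw [Nat.cast_sub hrh]
    push_cast
    ring
  have e2 : ((r * h - 1 : ℕ) : ℝ) + h = (((r + 1) * h - 1 : ℕ) : ℝ) := by
    have : (r + 1) * h - 1 = (r * h - 1) + h := by
      rw [add_mul, one_mul]
      omega
    rw [this]
    push_cast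
    ring
  unfold csum ASC.SB
  rw [e1, e2, Nat.floor_natCast, Nat.floor_natCast]
  have e3 : Finset.Ioc (r * h - 1) ((r + 1) * h - 1) = Finset.Ico (r * h) ((r + 1) * h) := by
    ext n
    rw [Finset.mem_Ioc, Finset.mem_Ico]
    have : 1 ≤ (r + 1) * h := Nat.mul_pos (Nat.succ_pos r) hh
    omega
  rw [e3]
  unfold RLC.th
  rw [← Finset.sum_filter, Finset.filter_filter]
  refine Finset.sum_congr ?_ fun _ _ => rfl
  ext n
  simp only [Finset.mem_filter]
  tauto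

private theorem Cells_mod (M b h r : ℕ) : csum M (b % M) h r = csum M b h r := by
  unfold csum
  refine Finset.sum_congr ?_ fun _ _ => rfl
  ext n
  rw [Finset.mem_filter, Finset.mem_filter, Nat.ModEq, Nat.ModEq, Nat.mod_mod]

/-- The number of the bad cells for one class and one `X`. -/
private theorem Cells_one {M : ℕ} (hM : 0 < M) {th : ℝ} (h1 : 1 / 2 < th) :
    ∃ κ : ℝ, 0 < κ ∧ ∀ B : ℕ, ∃ X0 : ℝ, 3 ≤ X0 ∧ ∀ b < M, b.Coprime M → ∀ X : ℝ, X0 ≤ X → ∀ h : ℕ,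
      X ^ th ≤ h → (h : ℝ) ≤ X / Real.log X ^ (B + 3) → ∀ R : Finset ℕ,
      (∀ r ∈ R, X ≤ (r : ℝ) * h - 1 ∧ (r : ℝ) * h - 1 ≤ 3 * X ∧
        (h : ℝ) / Real.log X ^ B < |csum M b h r - (h : ℝ) / (Nat.totient M : ℝ)|) →
      (R.card : ℝ) * h ≤ 64 * X * Real.log X ^ (2 * B) * Real.exp (-κ * Real.log X) := by
  obtain ⟨ε, hε⟩ : ∃ ε, ε = (th - 1 / 2) / 2 := ⟨_, rfl⟩
  have hε0 : 0 < ε := by rw [hε]; linarith
  obtain ⟨κ, hκ, hsplit⟩ := short_split hM hε0
  refine ⟨κ, hκ, fun B => ?_⟩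
  obtain ⟨L0, hL0, hS⟩ := hsplit ((B : ℝ) + 1)
  obtain ⟨L1, hL1, hpow⟩ := Cells_pow hε0 (B + 4)
  choose! X1 hX1 hA using fun b : ℕ => Cells_abs hM b h1 B
  obtain ⟨X2, hX2⟩ : ∃ X2, X2 = ∑ b ∈ Finset.range M, X1 b := ⟨_, rfl⟩
  have hX12 : ∀ b < M, X1 b ≤ X2 := by
    intro b hb
    rw [hX2]
    exact Finset.single_le_sum (f := X1) (fun i _ => by linarith [hX1 i]) (Finset.mem_range.2 hb)
  refine ⟨max (max X2 3) (Real.exp (max (max L0 L1) 8)), ?_, ?_⟩
  · exact (le_max_right _ _).trans (le_max_left _ _)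
  intro b hbM hb X hX h hh hh' R hR
  have hXX1 : X1 b ≤ X := (hX12 b hbM).trans (((le_max_left _ _).trans (le_max_left _ _)).trans hX)
  have hX3 : 3 ≤ X := ((le_max_right _ _).trans (le_max_left _ _)).trans hX
  have hXe : Real.exp (max (max L0 L1) 8) ≤ X := (le_max_right _ _).trans hX
  have hX0 : 0 < X := by linarith
  obtain ⟨L, hL⟩ : ∃ L, L = Real.log X := ⟨_, rfl⟩
  have hLm : max (max L0 L1) 8 ≤ L := by
    rw [hL, Real.le_log_iff_exp_le hX0]
    exact hXe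
  have hL8 : 8 ≤ L := (le_max_right _ _).trans hLm
  have hLL0 : L0 ≤ L := ((le_max_left _ _).trans (le_max_left _ _)).trans hLm
  have hLL1 : L1 ≤ L := ((le_max_right _ _).trans (le_max_left _ _)).trans hLm
  have hLpos : 0 < L := by linarith
  have hXexp : X = Real.exp L := by rw [hL, Real.exp_log hX0]
  have hh0 : 0 < (h : ℝ) := (Real.rpow_pos_of_pos hX0 _).trans_le hh
  have hhN : 0 < h := by exact_mod_cast hh0
  obtain ⟨δ, hδ⟩ : ∃ δ, δ = (h : ℝ) / X / L ^ (B + 1 + 3) := ⟨_, rfl⟩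
  have hδ0 : 0 < δ := by rw [hδ]; positivity
  have hAb := hA b
  rw [← hL]
  rw [← hL] at hh' hR
  have hLA : ∀ k : ℕ, 1 ≤ L ^ k := fun k => one_le_pow₀ (by linarith)
  have hhX : (h : ℝ) ≤ X := hh'.trans (div_le_self hX0.le (hLA _))
  have hδ1 : δ ≤ 1 := by
    rw [hδ]
    refine (div_le_self (by positivity) (hLA _)).trans ?_
    rw [div_le_one hX0]
    exact hhX
  have hδe : Real.exp (-(1 / 2 - ε) * L) ≤ δ := by
    have h2 := hpow L hLL1
    rw [hδ, le_div_iff₀ (by positivity), le_div_iff₀ hX0]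
    refine le_trans ?_ hh
    have h3 : X ^ th = Real.exp (L * th) := by
      rw [hXexp, ← Real.exp_mul]
    rw [h3]
    have h4 : Real.exp (-(1 / 2 - ε) * L) * L ^ (B + 1 + 3) * X ≤
        Real.exp (-(1 / 2 - ε) * L) * Real.exp (ε * L) * Real.exp L := by
      rw [← hXexp]
      gcongr
    refine h4.trans (le_of_eq ?_)
    rw [← Real.exp_add, ← Real.exp_add]
    congr 1
    rw [hε]
    ring
  obtain ⟨S, hSm, hS2, hSd, hSi⟩ := hS b hb L δ hLL0 hδe hδ1
  have hLB : L ^ (-((B : ℝ) + 1)) = (L ^ (B + 1))⁻¹ := by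
    rw [Real.rpow_neg hLpos.le]
    congr 1
    rw [← Real.rpow_natCast L (B + 1)]
    congr 1
    push_cast
    ring
  rw [hLB] at hSd
  obtain ⟨G, hGe⟩ : ∃ G : ℝ → ℝ, G = fun u : ℝ => ASC.FB M b δ L u - MM δ L u / (Nat.totient M : ℝ) := ⟨_, rfl⟩
  have hG : Continuous G := by
    rw [hGe]
    exact (ASC.FB_cont hδ0 M b L).sub ((FF_cont hδ0 L).2.div_const _)
  have hSd' : ∀ u, |G u - S u| ≤ δ * (L ^ (B + 1))⁻¹ := by
    intro u
    rw [hGe]
    exact hSd u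
  obtain ⟨a, ha⟩ : ∃ a : ℕ → ℝ, a = fun r : ℕ => Real.log ((r : ℝ) * h - 1) := ⟨_, rfl⟩
  have hy1 : ∀ r ∈ R, 1 < (r : ℝ) * h - 1 := fun r hr => by linarith [(hR r hr).1]
  have hsucc : ∀ r : ℕ, (((r + 1 : ℕ) : ℝ) * h - 1) = ((r : ℝ) * h - 1) + h := by
    intro r
    push_cast
    ring
  have hcnt : (R.card : ℝ) * (δ ^ 2 * h / (64 * X * L ^ (2 * B))) ≤ ∫ u, S u ^ 2 := by
    refine Cells_count hS2 (a := a) R ?_ ?_
    · intro r hr s hs hrs
      rw [ha]
      dsimp only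
      have h2 := hy1 r hr
      have h3 : (((r + 1 : ℕ) : ℝ) * h - 1) ≤ (s : ℝ) * h - 1 := by
        have h4 : ((r + 1 : ℕ) : ℝ) ≤ s := by exact_mod_cast hrs
        nlinarith
      refine Real.log_le_log ?_ h3
      rw [hsucc]
      linarith
    · intro r hr
      obtain ⟨hr1, hr2, hr3⟩ := hR r hr
      have hy := hy1 r hr
      have hr0 : 0 < r := by
        rcases Nat.eq_zero_or_pos r with h0 | h0
        · rw [h0] at hy
          norm_num at hy
        · exact h0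
      have habs := hAb X h ((r : ℝ) * h - 1) hXX1 hh (by rw [← hL]; exact hh') hr1 hr2
      rw [← Cells_SB hhN hr0, ← hL, ← hδ] at habs
      obtain ⟨y, hyd⟩ : ∃ y : ℝ, y = (r : ℝ) * h - 1 := ⟨_, rfl⟩
      have har : a r = Real.log y := by rw [ha, hyd]
      have har1 : a (r + 1) = Real.log (y + h) := by
        rw [ha, hyd]
        dsimp only
        rw [hsucc]
      rw [← hyd] at hr1 hr2 habs hy
      have hy0 : 0 < y := by linarith
      rw [har, har1]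
      have hlt : Real.log y < Real.log (y + h) := Real.log_lt_log hy0 (by linarith)
      have hlen : Real.log (y + h) - Real.log y ≤ h / X := by
        rw [← Real.log_div (by positivity) hy0.ne']
        refine (Real.log_le_sub_one_of_pos (by positivity)).trans ?_
        rw [add_div, div_self hy0.ne', add_sub_cancel_left]
        exact div_le_div_of_nonneg_left hh0.le hX0 hr1
      have hEE : ASC.EE M b δ L y h = 1 / δ * ∫ u in Set.Ioc (Real.log y) (Real.log (y + h)), G u := by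
        rw [← integral_Icc_eq_integral_Ioc, hGe]
        rfl
      have hSon2 : IntegrableOn (fun u => S u ^ 2) (Set.Ioc (Real.log y) (Real.log (y + h))) := hS2.integrableOn
      have hSon : IntegrableOn S (Set.Ioc (Real.log y) (Real.log (y + h))) := by
        have hmem : MemLp S 2 (volume.restrict (Set.Ioc (Real.log y) (Real.log (y + h)))) :=
          (memLp_two_iff_integrable_sq hSm.aestronglyMeasurable).2 hSon2
        exact hmem.integrable one_le_two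
      have hGon : IntegrableOn G (Set.Ioc (Real.log y) (Real.log (y + h))) :=
        (hG.integrableOn_Icc).mono_set Set.Ioc_subset_Icc_self
      have hdiff : |(∫ u in Set.Ioc (Real.log y) (Real.log (y + h)), G u) -
          ∫ u in Set.Ioc (Real.log y) (Real.log (y + h)), S u| ≤ δ * (L ^ (B + 1))⁻¹ * (h / X) := by
        rw [← integral_sub hGon hSon, ← Real.norm_eq_abs]
        have h5 := norm_setIntegral_le_of_norm_le_const (μ := volume)
          (s := Set.Ioc (Real.log y) (Real.log (y + h))) (f := fun u => G u - S u)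
          (C := δ * (L ^ (B + 1))⁻¹) (by simp) (fun u _ => by rw [Real.norm_eq_abs]; exact hSd' u)
        rw [Real.volume_real_Ioc_of_le hlt.le] at h5
        refine h5.trans ?_
        exact mul_le_mul_of_nonneg_left hlen (by positivity)
      -- lower bound for the integral of `G`
      have hb1 : (h : ℝ) / L ^ B < 2 * (h / L ^ (B + 1)) + 2 * X * |ASC.EE M b δ L y h| := hr3.trans_le habs
      have hb2 : 2 * ((h : ℝ) / L ^ (B + 1)) ≤ h / L ^ B / 4 := by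
        have : 2 * ((h : ℝ) / L ^ (B + 1)) = h / L ^ B * (2 / L) := by
          rw [pow_succ]
          field_simp
        rw [this, div_eq_mul_inv (h / L ^ B : ℝ) 4]
        refine mul_le_mul_of_nonneg_left ?_ (by positivity)
        rw [div_le_iff₀ hLpos]
        linarith
      have hb3 : (h : ℝ) / L ^ B / (4 * X) < |ASC.EE M b δ L y h| := by
        rw [div_lt_iff₀ (by positivity)]
        have : (0 : ℝ) < h / L ^ B := by positivity
        nlinarith
      have hb4 : δ * ((h : ℝ) / L ^ B / (4 * X)) <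
          |∫ u in Set.Ioc (Real.log y) (Real.log (y + h)), G u| := by
        rw [hEE, abs_mul, abs_of_pos (by positivity : (0 : ℝ) < 1 / δ), one_div, inv_mul_eq_div,
          lt_div_iff₀ hδ0] at hb3
        linarith
      have hb5 : δ * (L ^ (B + 1))⁻¹ * (h / X) ≤ δ * ((h : ℝ) / L ^ B / (8 * X)) := by
        have : δ * (L ^ (B + 1))⁻¹ * (h / X) = δ * ((h : ℝ) / L ^ B / X * (1 / L)) := by
          rw [pow_succ]
          field_simp
        rw [this]
        refine mul_le_mul_of_nonneg_left ?_ hδ0.le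
        have h6 : (h : ℝ) / L ^ B / (8 * X) = h / L ^ B / X * (1 / 8) := by
          field_simp
        rw [h6]
        refine mul_le_mul_of_nonneg_left ?_ (by positivity)
        exact one_div_le_one_div_of_le (by norm_num) hL8
      have hb6 : δ * ((h : ℝ) / L ^ B / (8 * X)) <
          |∫ u in Set.Ioc (Real.log y) (Real.log (y + h)), S u| := by
        have h7 := abs_sub_abs_le_abs_sub (∫ u in Set.Ioc (Real.log y) (Real.log (y + h)), G u)
          (∫ u in Set.Ioc (Real.log y) (Real.log (y + h)), S u)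
        have h8 : δ * ((h : ℝ) / L ^ B / (4 * X)) = 2 * (δ * ((h : ℝ) / L ^ B / (8 * X))) := by
          field_simp
          norm_num
        linarith
      have hb7 : (δ * ((h : ℝ) / L ^ B / (8 * X))) ^ 2 ≤
          (∫ u in Set.Ioc (Real.log y) (Real.log (y + h)), S u) ^ 2 := by
        rw [← sq_abs (∫ u in Set.Ioc (Real.log y) (Real.log (y + h)), S u)]
        exact pow_le_pow_left₀ (by positivity) hb6.le 2
      have hb8 := hb7.trans (Cells_cs hlt hSon hSon2)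
      have hb9 : 0 ≤ ∫ u in Set.Ioc (Real.log y) (Real.log (y + h)), S u ^ 2 :=
        integral_nonneg fun u => sq_nonneg _
      have hb10 := hb8.trans (mul_le_mul_of_nonneg_right hlen hb9)
      have hb11 : (δ * ((h : ℝ) / L ^ B / (8 * X))) ^ 2 = h / X * (δ ^ 2 * h / (64 * X * L ^ (2 * B))) := by
        rw [pow_mul']
        field_simp
        norm_num
      rw [hb11] at hb10
      exact le_of_mul_le_mul_left hb10 (by positivity)
  have hcnt2 := hcnt.trans hSi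
  have hfin : (R.card : ℝ) * h * (δ ^ 2 / (64 * X * L ^ (2 * B))) ≤
      64 * X * L ^ (2 * B) * Real.exp (-κ * L) * (δ ^ 2 / (64 * X * L ^ (2 * B))) := by
    have e1 : (R.card : ℝ) * h * (δ ^ 2 / (64 * X * L ^ (2 * B))) =
        (R.card : ℝ) * (δ ^ 2 * h / (64 * X * L ^ (2 * B))) := by
      ring
    have e2 : 64 * X * L ^ (2 * B) * Real.exp (-κ * L) * (δ ^ 2 / (64 * X * L ^ (2 * B))) =
        δ ^ 2 * Real.exp (-κ * L) := by
      field_simp
    rw [e1, e2]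
    exact hcnt2
  exact le_of_mul_le_mul_right hfin (by positivity)

/-- Powers of `m` are negligible. -/
private theorem Cells_big {c : ℝ} (hc : 0 < c) (K : ℝ) (hK : 0 ≤ K) (k : ℕ) :
    ∀ᶠ m : ℕ in Filter.atTop, K * ((m : ℝ) + 3) ^ k ≤ (2 : ℝ) ^ (c * (m : ℝ)) := by
  have hr : (1 : ℝ) < (2 : ℝ) ^ c := Real.one_lt_rpow (by norm_num) hc
  have h := tendsto_pow_const_div_const_pow_of_one_lt (k + 1) hr
  have h2 : ∀ᶠ m : ℕ in Filter.atTop, (m : ℝ) ^ (k + 1) / ((2 : ℝ) ^ c) ^ m < 1 :=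
    h.eventually_lt_const one_pos
  filter_upwards [h2, Filter.eventually_ge_atTop 3, Filter.eventually_ge_atTop ⌈K * 2 ^ k⌉₊] with m h3 h4 h5
  have h6 : (3 : ℝ) ≤ m := by exact_mod_cast h4
  have h7 : K * 2 ^ k ≤ m := (Nat.le_ceil _).trans (by exact_mod_cast h5)
  have hp : (0 : ℝ) < ((2 : ℝ) ^ c) ^ m := by positivity
  rw [div_lt_one hp] at h3
  have h8 : ((2 : ℝ) ^ c) ^ m = (2 : ℝ) ^ (c * (m : ℝ)) := by
    rw [← Real.rpow_natCast, ← Real.rpow_mul (by norm_num)]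
  rw [← h8]
  refine le_trans ?_ h3.le
  calc K * ((m : ℝ) + 3) ^ k ≤ K * (2 * (m : ℝ)) ^ k := by
        gcongr
        linarith
    _ = (K * 2 ^ k) * (m : ℝ) ^ k := by rw [mul_pow]; ring
    _ ≤ (m : ℝ) * (m : ℝ) ^ k := by gcongr
    _ = (m : ℝ) ^ (k + 1) := by ring

open Classical in
theorem cells {M : ℕ} (hM : 0 < M) {t1 t2 : ℝ} (h1 : 1 / 2 < t1) (h2 : t2 < 1) :
    ∃ κ : ℝ, 0 < κ ∧ ∀ A : ℝ, ∃ m0 : ℕ, ∀ m : ℕ, m0 ≤ m → ∀ h : ℕ,
    (2 : ℝ) ^ (t1 * (m : ℝ)) ≤ h → (h : ℝ) ≤ (2 : ℝ) ^ (t2 * (m : ℝ)) →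
    (((Finset.Icc (2 ^ m / h) (2 ^ (m + 4) / h)).filter fun r => BadC M A h m r).card : ℝ) * h ≤
      (2 : ℝ) ^ ((1 - κ) * (m : ℝ)) := by
  obtain ⟨th, hth⟩ : ∃ th, th = (t1 + 1 / 2) / 2 := ⟨_, rfl⟩
  have hth1 : 1 / 2 < th := by rw [hth]; linarith
  have hth2 : th < t1 := by rw [hth]; linarith
  obtain ⟨κ, hκ, hone⟩ := Cells_one hM hth1
  refine ⟨κ / 2, by positivity, fun A => ?_⟩
  obtain ⟨B, hB⟩ : ∃ B : ℕ, B = ⌈|A|⌉₊ + 1 := ⟨_, rfl⟩
  have hBA : |A| + 1 ≤ (B : ℝ) := by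
    rw [hB]
    push_cast
    linarith [Nat.le_ceil |A|]
  obtain ⟨X0, hX0, hB1⟩ := hone B
  have hev1 : ∀ᶠ m : ℕ in Filter.atTop, 2 * X0 ≤ (2 : ℝ) ^ m :=
    (tendsto_pow_atTop_atTop_of_one_lt (by norm_num : (1 : ℝ) < 2)).eventually_ge_atTop _
  have hev2 := Cells_big (c := 1 - t2) (by linarith) 2 (by norm_num) (B + 3)
  have hev3 := Cells_big (c := κ / 2) (by positivity) (5 * M * 64 * 8 * (2 : ℝ) ^ κ) (by positivity) (2 * B)
  have hev4 : ∀ᶠ m : ℕ in Filter.atTop, 3 * th / (t1 - th) ≤ (m : ℝ) :=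
    tendsto_natCast_atTop_atTop.eventually_ge_atTop _
  have hev5 : ∀ᶠ m : ℕ in Filter.atTop, 2 ^ B ≤ m := Filter.eventually_ge_atTop _
  obtain ⟨m0, hm0⟩ := Filter.eventually_atTop.1
    (hev1.and (hev2.and (hev3.and (hev4.and (hev5.and (Filter.eventually_ge_atTop 4))))))
  refine ⟨m0, fun m hm h hh1 hh2 => ?_⟩
  obtain ⟨g1, g2, g3, g4, g5, g6⟩ := hm0 m hm
  have hh0 : 0 < (h : ℝ) := (Real.rpow_pos_of_pos (by norm_num) _).trans_le hh1
  have hhN : 0 < h := by exact_mod_cast hh0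
  have hm4 : (4 : ℝ) ≤ m := by exact_mod_cast g6
  have hm0' : (0 : ℝ) < m := by linarith
  obtain ⟨Z, hZ⟩ : ∃ Z : ℝ, Z = 2 ^ (m - 1) := ⟨_, rfl⟩
  have hZm : (2 : ℝ) ^ m = 2 * Z := by
    rw [hZ, ← pow_succ']
    congr 1
    omega
  have hZ0 : 0 < Z := by rw [hZ]; positivity
  have hZX : X0 ≤ Z := by linarith
  have hZlog : Real.log Z = ((m : ℝ) - 1) * Real.log 2 := by
    rw [hZ, Real.log_pow, Nat.cast_sub (by omega)]
    push_cast
    ring
  have hl2 := Real.log_two_gt_d9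
  have hl2' := Real.log_two_lt_d9
  have hl20 : 0 < Real.log 2 := Real.log_pos (by norm_num)
  have hXlog : ∀ i : ℕ, Real.log (Z * 2 ^ i) = ((m : ℝ) - 1 + i) * Real.log 2 := by
    intro i
    rw [Real.log_mul hZ0.ne' (by positivity), hZlog, Real.log_pow]
    ring
  have hXlo : ∀ i : ℕ, (m : ℝ) / 2 ≤ Real.log (Z * 2 ^ i) := by
    intro i
    rw [hXlog]
    have h3 : (0 : ℝ) ≤ i := Nat.cast_nonneg i
    have h4 : ((m : ℝ) - 1) * (2 / 3) ≤ ((m : ℝ) - 1 + i) * Real.log 2 :=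
      mul_le_mul (by linarith) (by linarith) (by norm_num) (by linarith)
    linarith
  have hXhi : ∀ i < 5, Real.log (Z * 2 ^ i) ≤ (m : ℝ) + 3 := by
    intro i hi
    rw [hXlog]
    have h3 : (i : ℝ) ≤ 4 := by exact_mod_cast Nat.lt_succ_iff.1 hi
    have h4 : ((m : ℝ) - 1 + i) * Real.log 2 ≤ ((m : ℝ) + 3) * 1 :=
      mul_le_mul (by linarith) (by linarith) hl20.le (by linarith)
    linarith
  have hXle : ∀ i < 5, Z * 2 ^ i ≤ 8 * 2 ^ m := by
    intro i hi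
    rw [hZm]
    have h3 : (2 : ℝ) ^ i ≤ 2 ^ 4 := pow_le_pow_right₀ (by norm_num) (Nat.lt_succ_iff.1 hi)
    nlinarith
  have hZle : ∀ i : ℕ, Z ≤ Z * 2 ^ i := by
    intro i
    exact le_mul_of_one_le_right hZ0.le (one_le_pow₀ (by norm_num))
  have hXth : ∀ i < 5, (Z * 2 ^ i) ^ th ≤ (h : ℝ) := by
    intro i hi
    refine le_trans ?_ hh1
    have h3 : (i : ℝ) ≤ 4 := by exact_mod_cast Nat.lt_succ_iff.1 hi
    have hXp : 0 < Z * 2 ^ i := by positivity
    rw [Real.rpow_def_of_pos hXp, Real.rpow_def_of_pos (by norm_num : (0 : ℝ) < 2), hXlog]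
    refine Real.exp_le_exp.2 ?_
    have h4 : ((m : ℝ) - 1 + i) * th ≤ t1 * m := by
      rw [div_le_iff₀ (by linarith)] at g4
      have h5 : ((m : ℝ) - 1 + i) * th ≤ ((m : ℝ) + 3) * th :=
        mul_le_mul_of_nonneg_right (by linarith) (by linarith)
      linarith
    calc ((m : ℝ) - 1 + i) * Real.log 2 * th = Real.log 2 * (((m : ℝ) - 1 + i) * th) := by ring
      _ ≤ Real.log 2 * (t1 * m) := mul_le_mul_of_nonneg_left h4 hl20.le
  have hXdiv : ∀ i < 5, (h : ℝ) ≤ Z * 2 ^ i / Real.log (Z * 2 ^ i) ^ (B + 3) := by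
    intro i hi
    have h3 : 0 < Real.log (Z * 2 ^ i) := by linarith [hXlo i]
    rw [le_div_iff₀ (by positivity)]
    have h4 : Real.log (Z * 2 ^ i) ^ (B + 3) ≤ ((m : ℝ) + 3) ^ (B + 3) := pow_le_pow_left₀ h3.le (hXhi i hi) _
    have h5 : (2 : ℝ) ^ (t2 * (m : ℝ)) * (2 * ((m : ℝ) + 3) ^ (B + 3)) ≤
        (2 : ℝ) ^ (t2 * (m : ℝ)) * (2 : ℝ) ^ ((1 - t2) * (m : ℝ)) :=
      mul_le_mul_of_nonneg_left g2 (by positivity)
    rw [← Real.rpow_add (by norm_num), show t2 * (m : ℝ) + (1 - t2) * (m : ℝ) = m by ring, Real.rpow_natCast,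
      hZm] at h5
    have h6 : (h : ℝ) * Real.log (Z * 2 ^ i) ^ (B + 3) ≤ (2 : ℝ) ^ (t2 * (m : ℝ)) * ((m : ℝ) + 3) ^ (B + 3) :=
      mul_le_mul hh2 h4 (by positivity) (by positivity)
    linarith [hZle i]
  have hhZ : (h : ℝ) ≤ Z := by
    have h3 := hXdiv 0 (by norm_num)
    rw [pow_zero, mul_one] at h3
    refine h3.trans (div_le_self hZ0.le (one_le_pow₀ ?_))
    have h4 := hXlo 0
    rw [pow_zero, mul_one] at h4
    linarith
  have hthr : ∀ i : ℕ, (h : ℝ) / Real.log (Z * 2 ^ i) ^ B ≤ (h : ℝ) * (m : ℝ) ^ (-A) := by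
    intro i
    have h3 : (m : ℝ) ^ A ≤ (m : ℝ) ^ ((B : ℝ) - 1) :=
      Real.rpow_le_rpow_of_exponent_le (by linarith) (by linarith [le_abs_self A])
    rw [Real.rpow_sub_one hm0'.ne', Real.rpow_natCast] at h3
    have h4 : (m : ℝ) ^ B / m ≤ (m : ℝ) ^ B / 2 ^ B := by
      refine div_le_div_of_nonneg_left (by positivity) (by positivity) ?_
      exact_mod_cast g5
    have h5 : ((m : ℝ) / 2) ^ B ≤ Real.log (Z * 2 ^ i) ^ B := pow_le_pow_left₀ (by positivity) (hXlo i) B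
    rw [div_pow] at h5
    rw [Real.rpow_neg hm0'.le, ← div_eq_mul_inv]
    exact div_le_div_of_nonneg_left hh0.le (Real.rpow_pos_of_pos hm0' _) (h3.trans (h4.trans h5))
  obtain ⟨W, hW⟩ : ∃ W : ℝ, W = 64 * (8 * 2 ^ m) * ((m : ℝ) + 3) ^ (2 * B) *
      ((2 : ℝ) ^ κ * (2 : ℝ) ^ (-κ * (m : ℝ))) := ⟨_, rfl⟩
  have hexp : ∀ i : ℕ, Real.exp (-κ * Real.log (Z * 2 ^ i)) ≤ (2 : ℝ) ^ κ * (2 : ℝ) ^ (-κ * (m : ℝ)) := by
    intro i
    rw [← Real.rpow_add (by norm_num), Real.rpow_def_of_pos (by norm_num : (0 : ℝ) < 2), hXlog]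
    refine Real.exp_le_exp.2 ?_
    have h3 : (0 : ℝ) ≤ κ * i * Real.log 2 := by positivity
    nlinarith
  obtain ⟨P, hP⟩ : ∃ P : ℕ × ℕ → ℕ → Prop, P = fun (p : ℕ × ℕ) (r : ℕ) => Z * 2 ^ p.2 ≤ (r : ℝ) * h - 1 ∧
      (r : ℝ) * h - 1 ≤ 3 * (Z * 2 ^ p.2) ∧
      (h : ℝ) / Real.log (Z * 2 ^ p.2) ^ B < |csum M p.1 h r - (h : ℝ) / (Nat.totient M : ℝ)| := ⟨_, rfl⟩
  obtain ⟨J, hJ⟩ : ∃ J : Finset (ℕ × ℕ), J = ((Finset.range M).filter fun b => b.Coprime M) ×ˢ Finset.range 5 :=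
    ⟨_, rfl⟩
  have hJcard : (J.card : ℝ) ≤ 5 * M := by
    rw [hJ, Finset.card_product, Finset.card_range]
    have h3 := Finset.card_filter_le (Finset.range M) (fun b => b.Coprime M)
    rw [Finset.card_range] at h3
    have h4 : ((((Finset.range M).filter fun b => b.Coprime M).card * 5 : ℕ) : ℝ) ≤ ((M * 5 : ℕ) : ℝ) := by
      exact_mod_cast Nat.mul_le_mul_right 5 h3
    refine h4.trans (le_of_eq ?_)
    push_cast
    ring
  have hsub : ((Finset.Icc (2 ^ m / h) (2 ^ (m + 4) / h)).filter fun r => BadC M A h m r) ⊆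
      J.biUnion fun p => (Finset.Icc (2 ^ m / h) (2 ^ (m + 4) / h)).filter fun r => P p r := by
    intro r hr
    rw [Finset.mem_filter] at hr
    obtain ⟨hr1, b, hb, hbad⟩ := hr
    rw [Finset.mem_Icc] at hr1
    have hlo : 2 ^ m < (r + 1) * h := (Nat.div_lt_iff_lt_mul hhN).1 (Nat.lt_succ_iff.2 hr1.1)
    have hhi : r * h ≤ 2 ^ (m + 4) := (Nat.le_div_iff_mul_le hhN).1 hr1.2
    have hlo' : (2 : ℝ) ^ m + 1 ≤ ((r : ℝ) + 1) * h := by exact_mod_cast hlo
    have hhi' : (r : ℝ) * h ≤ 2 ^ (m + 4) := by exact_mod_cast hhi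
    rw [hZm] at hlo'
    rw [pow_add, hZm] at hhi'
    have hyl : Z ≤ (r : ℝ) * h - 1 := by linarith
    have hyh : (r : ℝ) * h - 1 ≤ 32 * Z := by linarith
    have hi : ∃ i < 5, Z * 2 ^ i ≤ (r : ℝ) * h - 1 ∧ (r : ℝ) * h - 1 ≤ 3 * (Z * 2 ^ i) := by
      rcases le_total ((r : ℝ) * h - 1) (2 * Z) with g | g
      · exact ⟨0, by norm_num, by linarith, by linarith⟩
      rcases le_total ((r : ℝ) * h - 1) (4 * Z) with g' | g'
      · exact ⟨1, by norm_num, by linarith, by linarith⟩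
      rcases le_total ((r : ℝ) * h - 1) (8 * Z) with g'' | g''
      · exact ⟨2, by norm_num, by linarith, by linarith⟩
      rcases le_total ((r : ℝ) * h - 1) (16 * Z) with g''' | g'''
      · exact ⟨3, by norm_num, by linarith, by linarith⟩
      · exact ⟨4, by norm_num, by linarith, by linarith⟩
    obtain ⟨i, hi5, hi1, hi2⟩ := hi
    rw [Finset.mem_biUnion]
    refine ⟨(b % M, i), ?_, ?_⟩
    · rw [hJ, Finset.mem_product, Finset.mem_filter, Finset.mem_range, Finset.mem_range]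
      refine ⟨⟨Nat.mod_lt _ hM, ?_⟩, hi5⟩
      dsimp only
      show Nat.gcd (b % M) M = 1
      rw [← Nat.gcd_rec, Nat.gcd_comm]
      exact hb
    · rw [Finset.mem_filter, Finset.mem_Icc, hP]
      refine ⟨hr1, hi1, hi2, ?_⟩
      dsimp only
      rw [Cells_mod]
      exact (hthr i).trans_lt hbad
  have hcard := (Finset.card_le_card hsub).trans Finset.card_biUnion_le
  have hcard' : (((Finset.Icc (2 ^ m / h) (2 ^ (m + 4) / h)).filter fun r => BadC M A h m r).card : ℝ) ≤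
      ∑ p ∈ J, (((Finset.Icc (2 ^ m / h) (2 ^ (m + 4) / h)).filter fun r => P p r).card : ℝ) := by
    exact_mod_cast hcard
  have hterm : ∀ p ∈ J, (((Finset.Icc (2 ^ m / h) (2 ^ (m + 4) / h)).filter fun r => P p r).card : ℝ) * h ≤ W := by
    intro p hp
    rw [hJ, Finset.mem_product, Finset.mem_filter, Finset.mem_range, Finset.mem_range] at hp
    obtain ⟨⟨hp1, hp2⟩, hp3⟩ := hp
    have h3 := hB1 p.1 hp1 hp2 (Z * 2 ^ p.2) (hZX.trans (hZle _)) h (hXth _ hp3) (hXdiv _ hp3)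
      ((Finset.Icc (2 ^ m / h) (2 ^ (m + 4) / h)).filter fun r => P p r) (by
        intro r hr
        rw [Finset.mem_filter, hP] at hr
        exact hr.2)
    refine h3.trans ?_
    rw [hW]
    have h4 := hXle _ hp3
    have h5 := hXhi _ hp3
    have h6 := hexp p.2
    have h7 : 0 < Real.log (Z * 2 ^ p.2) := by linarith [hXlo p.2]
    gcongr
  have hsum : (((Finset.Icc (2 ^ m / h) (2 ^ (m + 4) / h)).filter fun r => BadC M A h m r).card : ℝ) * h ≤
      5 * M * W := by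
    have hW0 : 0 ≤ W := by rw [hW]; positivity
    calc _ ≤ (∑ p ∈ J, (((Finset.Icc (2 ^ m / h) (2 ^ (m + 4) / h)).filter fun r => P p r).card : ℝ)) * h :=
          mul_le_mul_of_nonneg_right hcard' hh0.le
      _ = ∑ p ∈ J, (((Finset.Icc (2 ^ m / h) (2 ^ (m + 4) / h)).filter fun r => P p r).card : ℝ) * h := by
          rw [Finset.sum_mul]
      _ ≤ ∑ _p ∈ J, W := Finset.sum_le_sum hterm
      _ = J.card * W := by rw [Finset.sum_const, nsmul_eq_mul]
      _ ≤ 5 * M * W := mul_le_mul_of_nonneg_right hJcard hW0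
  refine hsum.trans ?_
  have e1 : 5 * M * W = (5 * M * 64 * 8 * (2 : ℝ) ^ κ) * ((m : ℝ) + 3) ^ (2 * B) *
      ((2 : ℝ) ^ (-κ * (m : ℝ)) * 2 ^ m) := by
    rw [hW]
    ring
  rw [e1]
  have e2 : (2 : ℝ) ^ ((1 - κ / 2) * (m : ℝ)) = (2 : ℝ) ^ (κ / 2 * (m : ℝ)) *
      ((2 : ℝ) ^ (-κ * (m : ℝ)) * 2 ^ m) := by
    rw [← Real.rpow_natCast 2 m, ← Real.rpow_add (by norm_num), ← Real.rpow_add (by norm_num)]
    congr 1
    ring
  rw [e2]
  exact mul_le_mul_of_nonneg_right g3 (by positivity)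

end RAF
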