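import Pool.Agent.RAF.Defs
import Pool.Agent.RLC.StepM

/-!
# RAF.Basic: elementary facts about the map and the chains

PROOF. `arg_le`: with `m = log₂ q`: `q < 2^(m+1)`, `q^t ≤ 2^(t(m+1)) ≤ 2 · 2^(tm)`, `1 ≤ 2^(tm)`, so `arg ≤ 2 · 2^(tm) + 2^(tm) + K (2 · 2^(tm) + 1)`. `TT_le`: `M ⌊a/M⌋ ≤ a` and `1 ≤ 2^(tm)`.
`TT_log`: `2 q + 1 ≥ 2 · 2^m`. `TT_mono`: `arg` is nondecreasing in `q` within a block (`u ≥ 0`, `g` monotone). Measurability: `Nat.floor` is measurable. `ch_*`: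
`Function.iterate_succ_apply`, `Function.iterate_succ_apply'`, induction. A chain which starts in `q` uses only the parameters with indices `≥ log₂ q`, and a chain uses different indices
in different steps (`TT_log`); this gives the facts about `Function.update`.
`ch_mod`: `2 (2^i (n+1) - 1) + 1 = 2^(i+1) (n+1) - 1`. `rho_mod`, `RR_mod`: `Nat.Coprime` to `M` depends on the class modulo `M` only
(`Nat.ModEq.gcd_eq`); `2^i (q+1) - 1` modulo `M` depends on `q` modulo `M` (add `1`).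
-/

namespace RAF

open MeasureTheory

variable {M : ℕ} {t K : ℝ} {g : ℕ → ℝ}

theorem arg_nonneg (h : Adm M t K g) (q : ℕ) {y : ℝ × ℝ} (hy : y ∈ Set.Icc (0 : ℝ) 1 ×ˢ Set.Icc (0 : ℝ) 1) :
    0 ≤ arg t g q y := by
  obtain ⟨h1, h2⟩ := Set.mem_prod.1 hy
  have h3 := h.nonneg q
  have h4 := h1.1
  have h5 := h2.1
  unfold arg
  positivity

theorem arg_le (h : Adm M t K g) {q : ℕ} (hq : 0 < q) {y : ℝ × ℝ} (hy : y ∈ Set.Icc (0 : ℝ) 1 ×ˢ Set.Icc (0 : ℝ) 1) :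
    arg t g q y ≤ (3 + 3 * K) * (2 : ℝ) ^ (t * (Nat.log 2 q : ℝ)) := by
  obtain ⟨h1, h2⟩ := Set.mem_prod.1 hy
  have ht := h.ht
  have ht1 := h.ht1
  have hK := h.hK
  have hlt : (q : ℝ) ≤ 2 ^ (((Nat.log 2 q : ℕ) : ℝ) + 1) := by
    have h3 : q < 2 ^ (Nat.log 2 q + 1) := Nat.lt_pow_succ_log_self (by norm_num) q
    have h4 : (q : ℝ) ≤ (2 : ℝ) ^ (Nat.log 2 q + 1) := by exact_mod_cast h3.le
    calc (q : ℝ) ≤ (2 : ℝ) ^ (Nat.log 2 q + 1) := h4
      _ = 2 ^ (((Nat.log 2 q : ℕ) : ℝ) + 1) := by rw [← Real.rpow_natCast]; push_cast; rfl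
  set m : ℝ := ((Nat.log 2 q : ℕ) : ℝ) with hm
  have hm0 : 0 ≤ m := Nat.cast_nonneg _
  have hq0 : (0 : ℝ) ≤ q := Nat.cast_nonneg _
  have hA1 : (1 : ℝ) ≤ 2 ^ (t * m) := Real.one_le_rpow (by norm_num) (by positivity)
  have e1 : (2 : ℝ) ^ ((t - 1) * m) * y.1 * q ≤ 2 * 2 ^ (t * m) := by
    calc (2 : ℝ) ^ ((t - 1) * m) * y.1 * q ≤ (2 : ℝ) ^ ((t - 1) * m) * 1 * 2 ^ (m + 1) := by
          gcongr
          exact h1.2
      _ = 2 * 2 ^ (t * m) := by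
          rw [mul_one, ← Real.rpow_add (by norm_num)]
          have : (t - 1) * m + (m + 1) = 1 + t * m := by ring
          rw [this, Real.rpow_add (by norm_num), Real.rpow_one]
  have e2 : (2 : ℝ) ^ (t * m) * y.2 ≤ 2 ^ (t * m) := by
    calc (2 : ℝ) ^ (t * m) * y.2 ≤ (2 : ℝ) ^ (t * m) * 1 := by
          gcongr
          exact h2.2
      _ = _ := mul_one _
  have e3 : (q : ℝ) ^ t ≤ 2 * 2 ^ (t * m) := by
    calc (q : ℝ) ^ t ≤ (2 ^ (m + 1) : ℝ) ^ t := Real.rpow_le_rpow hq0 hlt (by linarith)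
      _ = 2 ^ ((m + 1) * t) := (Real.rpow_mul (by norm_num) _ _).symm
      _ = 2 ^ t * 2 ^ (t * m) := by
          rw [← Real.rpow_add (by norm_num)]
          congr 1
          ring
      _ ≤ 2 ^ (1 : ℝ) * 2 ^ (t * m) := by
          gcongr
          norm_num
      _ = _ := by rw [Real.rpow_one]
  have e4 : g q ≤ K * (2 * 2 ^ (t * m) + 1) := (h.le q).trans (by gcongr)
  have e5 : K * (2 * 2 ^ (t * m) + 1) ≤ 3 * K * 2 ^ (t * m) := by
    have : K * (2 * 2 ^ (t * m) + 1) ≤ K * (2 * 2 ^ (t * m) + 2 ^ (t * m)) := by gcongr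
    linarith
  unfold arg
  linarith

theorem TT_ge (M : ℕ) (t : ℝ) (g : ℕ → ℝ) (q : ℕ) (y : ℝ × ℝ) : 2 * q + 1 ≤ TT M t g q y := by
  unfold TT
  exact Nat.le_add_right _ _

theorem TT_mod (M : ℕ) (t : ℝ) (g : ℕ → ℝ) (q : ℕ) (y : ℝ × ℝ) : TT M t g q y ≡ 2 * q + 1 [MOD M] := by
  unfold TT Nat.ModEq
  exact Nat.add_mul_mod_self_left _ _ _

theorem TT_le (h : Adm M t K g) {q : ℕ} (hq : 0 < q) {y : ℝ × ℝ} (hy : y ∈ Set.Icc (0 : ℝ) 1 ×ˢ Set.Icc (0 : ℝ) 1) :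
    (TT M t g q y : ℝ) ≤ 2 * q + (4 + 3 * K) * (2 : ℝ) ^ (t * (Nat.log 2 q : ℝ)) := by
  have h1 := arg_le h hq hy
  have h0 := arg_nonneg h q hy
  have hM : (0 : ℝ) < M := by exact_mod_cast h.hM
  have ht := h.ht
  have hA1 : (1 : ℝ) ≤ 2 ^ (t * (Nat.log 2 q : ℝ)) := Real.one_le_rpow (by norm_num) (by positivity)
  have h2 : (⌊arg t g q y / M⌋₊ : ℝ) ≤ arg t g q y / M := Nat.floor_le (by positivity)
  have h3 : (M : ℝ) * (⌊arg t g q y / M⌋₊ : ℝ) ≤ arg t g q y := by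
    calc (M : ℝ) * (⌊arg t g q y / M⌋₊ : ℝ) ≤ M * (arg t g q y / M) := by gcongr
      _ = _ := by field_simp
  unfold TT
  push_cast
  linarith

theorem TT_log (M : ℕ) (t : ℝ) (g : ℕ → ℝ) {q : ℕ} (hq : 0 < q) (y : ℝ × ℝ) :
    Nat.log 2 q < Nat.log 2 (TT M t g q y) := by
  have h1 : 2 ^ Nat.log 2 q ≤ q := Nat.pow_log_le_self 2 hq.ne'
  have h2 := TT_ge M t g q y
  have h3 : 2 ^ (Nat.log 2 q + 1) ≤ TT M t g q y := by
    rw [pow_succ]
    omega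
  exact Nat.lt_of_succ_le (Nat.le_log_of_pow_le (by norm_num) h3)

theorem TT_mono (h : Adm M t K g) {q q' : ℕ} (hqq : q ≤ q') (hl : Nat.log 2 q = Nat.log 2 q') {y : ℝ × ℝ}
    (hy : y ∈ Set.Icc (0 : ℝ) 1 ×ˢ Set.Icc (0 : ℝ) 1) :
    TT M t g q y + 2 * (q' - q) ≤ TT M t g q' y := by
  have h1 : arg t g q y ≤ arg t g q' y := by
    obtain ⟨h1, h2⟩ := Set.mem_prod.1 hy
    have h4 := h1.1
    unfold arg
    rw [hl]
    have h5 : (q : ℝ) ≤ q' := by exact_mod_cast hqq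
    have h6 : g q ≤ g q' := h.mono hqq
    gcongr
  have h2 : ⌊arg t g q y / M⌋₊ ≤ ⌊arg t g q' y / M⌋₊ :=
    Nat.floor_le_floor (div_le_div_of_nonneg_right h1 (Nat.cast_nonneg _))
  have h3 : M * ⌊arg t g q y / M⌋₊ ≤ M * ⌊arg t g q' y / M⌋₊ := Nat.mul_le_mul_left M h2
  unfold TT
  omega

theorem TT_meas (M : ℕ) (t : ℝ) (g : ℕ → ℝ) (q : ℕ) : Measurable (TT M t g q) := by
  have h1 : Measurable fun y : ℝ × ℝ => arg t g q y / M := by
    unfold arg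
    fun_prop
  have h2 : Measurable fun y : ℝ × ℝ => ⌊arg t g q y / M⌋₊ := Nat.measurable_floor.comp h1
  exact (Measurable.of_discrete (f := fun k : ℕ => 2 * q + 1 + M * k)).comp h2

theorem ch_zero (M : ℕ) (t : ℝ) (g : ℕ → ℝ) (ω : ℕ → ℝ × ℝ) (n : ℕ) : ch M t g ω n 0 = n := rfl

theorem ch_succ (M : ℕ) (t : ℝ) (g : ℕ → ℝ) (ω : ℕ → ℝ × ℝ) (n i : ℕ) :
    ch M t g ω n (i + 1) = T M t g ω (ch M t g ω n i) := by
  exact Function.iterate_succ_apply' _ _ _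

theorem ch_succ' (M : ℕ) (t : ℝ) (g : ℕ → ℝ) (ω : ℕ → ℝ × ℝ) (n i : ℕ) :
    ch M t g ω n (i + 1) = ch M t g ω (T M t g ω n) i := by
  exact Function.iterate_succ_apply _ _ _

theorem ch_pos (M : ℕ) (t : ℝ) (g : ℕ → ℝ) (ω : ℕ → ℝ × ℝ) {n : ℕ} (hn : 0 < n) (i : ℕ) : 0 < ch M t g ω n i := by
  induction i with
  | zero => exact hn
  | succ i ih =>
    rw [ch_succ]
    have := TT_ge M t g (ch M t g ω n i) (ω (Nat.log 2 (ch M t g ω n i)))
    unfold T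
    omega

theorem ch_log_le (M : ℕ) (t : ℝ) (g : ℕ → ℝ) (ω : ℕ → ℝ × ℝ) {n : ℕ} (hn : 0 < n) (i : ℕ) :
    Nat.log 2 n + i ≤ Nat.log 2 (ch M t g ω n i) := by
  induction i with
  | zero => exact le_rfl
  | succ i ih =>
    rw [ch_succ]
    have := TT_log M t g (ch_pos M t g ω hn i) (ω (Nat.log 2 (ch M t g ω n i)))
    unfold T
    omega

theorem ch_ge (M : ℕ) (t : ℝ) (g : ℕ → ℝ) (ω : ℕ → ℝ × ℝ) (n i : ℕ) : 2 ^ i * n ≤ ch M t g ω n i := by
  induction i with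
  | zero => simp [ch_zero]
  | succ i ih =>
    rw [ch_succ]
    have := TT_ge M t g (ch M t g ω n i) (ω (Nat.log 2 (ch M t g ω n i)))
    unfold T
    rw [pow_succ]
    nlinarith

theorem ch_mod (M : ℕ) (t : ℝ) (g : ℕ → ℝ) (ω : ℕ → ℝ × ℝ) (n i : ℕ) :
    ch M t g ω n i ≡ 2 ^ i * (n + 1) - 1 [MOD M] := by
  induction i with
  | zero => simp [ch_zero, Nat.ModEq]
  | succ i ih =>
    rw [ch_succ]
    unfold T
    refine (TT_mod M t g _ _).trans ?_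
    have h1 : 2 * ch M t g ω n i + 1 ≡ 2 * (2 ^ i * (n + 1) - 1) + 1 [MOD M] :=
      (ih.mul_left 2).add_right 1
    have h2 : 2 * (2 ^ i * (n + 1) - 1) + 1 = 2 ^ (i + 1) * (n + 1) - 1 := by
      have h3 : 1 ≤ 2 ^ i * (n + 1) := Nat.one_le_iff_ne_zero.2 (by positivity)
      have h4 : 2 ^ (i + 1) * (n + 1) = 2 * (2 ^ i * (n + 1)) := by ring
      omega
    rwa [h2] at h1

theorem ch_meas (M : ℕ) (t : ℝ) (g : ℕ → ℝ) (n i : ℕ) : Measurable fun ω => ch M t g ω n i := by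
  induction i with
  | zero =>
    simp only [ch_zero]
    exact measurable_const
  | succ i ih =>
    have h1 : Measurable fun p : ℕ × (ℕ → ℝ × ℝ) => T M t g p.2 p.1 := by
      refine measurable_from_prod_countable_right fun q => ?_
      exact (TT_meas M t g q).comp (measurable_pi_apply (Nat.log 2 q))
    have h2 := h1.comp (ih.prodMk measurable_id)
    have h3 : (fun ω : ℕ → ℝ × ℝ => ch M t g ω n (i + 1)) =
        (fun p : ℕ × (ℕ → ℝ × ℝ) => T M t g p.2 p.1) ∘ fun ω => (ch M t g ω n i, id ω) := by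
      funext ω
      simp only [ch_succ, Function.comp_apply, id_eq]
    rw [h3]
    exact h2

theorem ch_update_lt (M : ℕ) (t : ℝ) (g : ℕ → ℝ) (ω : ℕ → ℝ × ℝ) {q m : ℕ} (hm : m < Nat.log 2 q) (y : ℝ × ℝ) (i : ℕ) :
    ch M t g (Function.update ω m y) q i = ch M t g ω q i := by
  have hq : 0 < q := by
    rcases Nat.eq_zero_or_pos q with h0 | h0
    · subst h0
      simp at hm
    · exact h0
  induction i with
  | zero => rfl
  | succ i ih =>
    rw [ch_succ, ch_succ, ih]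
    unfold T
    have h1 := ch_log_le M t g ω hq i
    rw [Function.update_of_ne (by omega)]

theorem ch_update_first (M : ℕ) (t : ℝ) (g : ℕ → ℝ) (ω : ℕ → ℝ × ℝ) {n : ℕ} (hn : 0 < n) (y : ℝ × ℝ) (i : ℕ) :
    ch M t g (Function.update ω (Nat.log 2 n) y) n (i + 1) = ch M t g ω (TT M t g n y) i := by
  rw [ch_succ']
  have h1 : T M t g (Function.update ω (Nat.log 2 n) y) n = TT M t g n y := by
    unfold T
    rw [Function.update_self]
  rw [h1]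
  exact ch_update_lt M t g ω (TT_log M t g hn y) y i

theorem ch_update_le (M : ℕ) (t : ℝ) (g : ℕ → ℝ) (ω : ℕ → ℝ × ℝ) {n j b : ℕ} (hn : 0 < n)
    (hb : Nat.log 2 (ch M t g ω n j) = b) (y : ℝ × ℝ) {i : ℕ} (hi : i ≤ j) :
    ch M t g (Function.update ω b y) n i = ch M t g ω n i := by
  have hs : StrictMono fun i => Nat.log 2 (ch M t g ω n i) := by
    refine strictMono_nat_of_lt_succ fun i => ?_
    rw [ch_succ]
    exact TT_log M t g (ch_pos M t g ω hn i) _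
  induction i with
  | zero => rfl
  | succ i ih =>
    rw [ch_succ, ch_succ, ih (by omega)]
    unfold T
    have h1 : Nat.log 2 (ch M t g ω n i) < Nat.log 2 (ch M t g ω n j) := hs (by omega)
    rw [Function.update_of_ne (by omega)]

theorem ch_update_last (M : ℕ) (t : ℝ) (g : ℕ → ℝ) (ω : ℕ → ℝ × ℝ) {n j b : ℕ} (hn : 0 < n)
    (hb : Nat.log 2 (ch M t g ω n j) = b) (y : ℝ × ℝ) :
    ch M t g (Function.update ω b y) n (j + 1) = TT M t g (ch M t g ω n j) y := by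
  rw [ch_succ, ch_update_le M t g ω hn hb y le_rfl]
  unfold T
  rw [hb, Function.update_self]

theorem wt_nonneg (M : ℕ) (t : ℝ) (g : ℕ → ℝ) (n j : ℕ) (ω : ℕ → ℝ × ℝ) : 0 ≤ wt M t g n j ω := by
  exact Finset.prod_nonneg fun i _ => RLC.th_nonneg _

theorem wb_nonneg (M : ℕ) (t : ℝ) (g : ℕ → ℝ) (B : Set ℕ) (n j : ℕ) (ω : ℕ → ℝ × ℝ) : 0 ≤ wb M t g B n j ω := by
  classical
  unfold wb
  refine Finset.prod_nonneg fun i _ => ?_
  split_ifs
  · exact le_rfl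
  · exact RLC.th_nonneg _

theorem wb_le_wt (M : ℕ) (t : ℝ) (g : ℕ → ℝ) (B : Set ℕ) (n j : ℕ) (ω : ℕ → ℝ × ℝ) :
    wb M t g B n j ω ≤ wt M t g n j ω := by
  classical
  unfold wb wt
  refine Finset.prod_le_prod (fun i _ => ?_) fun i _ => ?_
  · split_ifs
    · exact le_rfl
    · exact RLC.th_nonneg _
  · split_ifs
    · exact RLC.th_nonneg _
    · exact le_rfl

theorem wt_meas (M : ℕ) (t : ℝ) (g : ℕ → ℝ) (n j : ℕ) : Measurable (wt M t g n j) := by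
  unfold wt
  refine Finset.measurable_prod _ fun i _ => ?_
  exact (Measurable.of_discrete (f := RLC.th)).comp (ch_meas M t g n i)

theorem wb_meas (M : ℕ) (t : ℝ) (g : ℕ → ℝ) (B : Set ℕ) (n j : ℕ) : Measurable (wb M t g B n j) := by
  classical
  unfold wb
  refine Finset.measurable_prod _ fun i _ => ?_
  exact (Measurable.of_discrete (f := fun q : ℕ => if q ∈ B then (0 : ℝ) else RLC.th q)).comp (ch_meas M t g n i)

theorem wt_zero (M : ℕ) (t : ℝ) (g : ℕ → ℝ) (n : ℕ) (ω : ℕ → ℝ × ℝ) : wt M t g n 0 ω = RLC.th n := by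
  simp [wt, ch_zero]

theorem wt_succ (M : ℕ) (t : ℝ) (g : ℕ → ℝ) (n j : ℕ) (ω : ℕ → ℝ × ℝ) :
    wt M t g n (j + 1) ω = wt M t g n j ω * RLC.th (ch M t g ω n (j + 1)) := by
  unfold wt
  rw [Finset.prod_range_succ]

theorem wt_succ' (M : ℕ) (t : ℝ) (g : ℕ → ℝ) (n j : ℕ) (ω : ℕ → ℝ × ℝ) :
    wt M t g n (j + 1) ω = RLC.th n * wt M t g (T M t g ω n) j ω := by
  unfold wt
  rw [Finset.prod_range_succ']
  simp only [ch_succ', ch_zero]
  rw [mul_comm]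

open Classical in
theorem wb_succ (M : ℕ) (t : ℝ) (g : ℕ → ℝ) (B : Set ℕ) (n j : ℕ) (ω : ℕ → ℝ × ℝ) :
    wb M t g B n (j + 1) ω = wb M t g B n j ω *
      (if ch M t g ω n (j + 1) ∈ B then 0 else RLC.th (ch M t g ω n (j + 1))) := by
  unfold wb
  rw [Finset.prod_range_succ]

theorem wt_update_lt (M : ℕ) (t : ℝ) (g : ℕ → ℝ) (ω : ℕ → ℝ × ℝ) {q m : ℕ} (hm : m < Nat.log 2 q) (y : ℝ × ℝ) (j : ℕ) :
    wt M t g q j (Function.update ω m y) = wt M t g q j ω := by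
  unfold wt
  exact Finset.prod_congr rfl fun i _ => by rw [ch_update_lt M t g ω hm y i]

theorem wt_update (M : ℕ) (t : ℝ) (g : ℕ → ℝ) (ω : ℕ → ℝ × ℝ) {n j b : ℕ} (hn : 0 < n)
    (hb : Nat.log 2 (ch M t g ω n j) = b) (y : ℝ × ℝ) :
    wt M t g n j (Function.update ω b y) = wt M t g n j ω := by
  unfold wt
  refine Finset.prod_congr rfl fun i hi => ?_
  rw [ch_update_le M t g ω hn hb y (Nat.lt_succ_iff.1 (Finset.mem_range.1 hi))]

theorem wb_update (M : ℕ) (t : ℝ) (g : ℕ → ℝ) (B : Set ℕ) (ω : ℕ → ℝ × ℝ) {n j b : ℕ} (hn : 0 < n)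
    (hb : Nat.log 2 (ch M t g ω n j) = b) (y : ℝ × ℝ) :
    wb M t g B n j (Function.update ω b y) = wb M t g B n j ω := by
  unfold wb
  refine Finset.prod_congr rfl fun i hi => ?_
  rw [ch_update_le M t g ω hn hb y (Nat.lt_succ_iff.1 (Finset.mem_range.1 hi))]

theorem ratio_one_le (hM : 0 < M) : 1 ≤ (M : ℝ) / (Nat.totient M : ℝ) := by
  have h1 : 0 < Nat.totient M := Nat.totient_pos.2 hM
  have h2 : Nat.totient M ≤ M := Nat.totient_le M
  rw [one_le_div (by exact_mod_cast h1)]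
  exact_mod_cast h2

theorem rho_nonneg (M q : ℕ) : 0 ≤ rho M q := by
  unfold rho
  split_ifs
  · positivity
  · exact le_rfl

theorem rho_le (M q : ℕ) : rho M q ≤ (M : ℝ) / (Nat.totient M : ℝ) := by
  unfold rho
  split_ifs
  · exact le_rfl
  · positivity

theorem rho_mod {q q' : ℕ} (h : q ≡ q' [MOD M]) : rho M q = rho M q' := by
  have h1 : 2 * q + 1 ≡ 2 * q' + 1 [MOD M] := (h.mul_left 2).add_right 1
  have h2 : Nat.Coprime (2 * q + 1) M ↔ Nat.Coprime (2 * q' + 1) M := by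
    unfold Nat.Coprime
    rw [h1.gcd_eq]
  unfold rho
  simp only [h2]

theorem RR_zero (M q : ℕ) : RR M 0 q = 1 := by
  simp [RR]

theorem RR_nonneg (M J q : ℕ) : 0 ≤ RR M J q := by
  exact Finset.prod_nonneg fun i _ => rho_nonneg _ _

theorem RR_le (hM : 0 < M) (J q : ℕ) : RR M J q ≤ ((M : ℝ) / (Nat.totient M : ℝ)) ^ J := by
  unfold RR
  have h1 : ∏ i ∈ Finset.range J, rho M (2 ^ i * (q + 1) - 1) ≤
      ∏ _i ∈ Finset.range J, (M : ℝ) / (Nat.totient M : ℝ) :=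
    Finset.prod_le_prod (fun i _ => rho_nonneg _ _) fun i _ => rho_le _ _
  rwa [Finset.prod_const, Finset.card_range] at h1

theorem RR_mod {q q' : ℕ} (h : q ≡ q' [MOD M]) (J : ℕ) : RR M J q = RR M J q' := by
  unfold RR
  refine Finset.prod_congr rfl fun i _ => rho_mod ?_
  have h1 : 2 ^ i * (q + 1) ≡ 2 ^ i * (q' + 1) [MOD M] := (h.add_right 1).mul_left _
  have h3 : 1 ≤ 2 ^ i * (q + 1) := Nat.one_le_iff_ne_zero.2 (by positivity)
  have h4 : 1 ≤ 2 ^ i * (q' + 1) := Nat.one_le_iff_ne_zero.2 (by positivity)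
  refine Nat.ModEq.add_right_cancel' 1 ?_
  rwa [Nat.sub_add_cancel h3, Nat.sub_add_cancel h4]

theorem RR_succ (M J q : ℕ) : RR M (J + 1) q = rho M q * RR M J (2 * q + 1) := by
  unfold RR
  rw [Finset.prod_range_succ', mul_comm]
  have h1 : 2 ^ 0 * (q + 1) - 1 = q := by simp
  rw [h1]
  congr 1
  refine Finset.prod_congr rfl fun i _ => ?_
  have h2 : 2 ^ (i + 1) * (q + 1) = 2 ^ i * (2 * q + 1 + 1) := by ring
  rw [h2]

end RAF
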