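import Pool.Agent.RAF.Mom1

/-!
# RAF.Bdry: the starting points near the end of a block

PROOF. `C` from `mom_one`. The numbers in the block which are not in `Inn t b` satisfy `2^(b+1) (1 - 2^(-((1-t)/2)b)) < n < 2^(b+1)`; there are at most `2 · 2^((1-(1-t)/2)b) + 1` of them. `L = log(2^b)`, `J ≤ 2L/log L`: the expectation of the sum is
at most `(2 · 2^((1-(1-t)/2)b) + 1)(b+1) C^J ≤ 2^((1-(1-t)/4)b)` for large `b` (`C^J = 2^(o(b))`). By Markov the probability that it exceeds `2^((1-(1-t)/8)b)` is `≤ 2^(-((1-t)/8)b)`, there are at most `3b` values of `J`: summable. Borel-Cantelli.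
-/

namespace RAF

open MeasureTheory Filter

variable {M : ℕ} {t K : ℝ} {g : ℕ → ℝ}

private theorem Bdry_real {C c : ℝ} (hC : 1 ≤ C) (hc : 0 < c) : ∀ᶠ b : ℕ in atTop,
    3 * ((b : ℝ) + 1) * (((⌊2 * (Real.log (2 ^ b) / Real.log (Real.log (2 ^ b)))⌋₊ : ℝ) + 1) *
      C ^ ⌊2 * (Real.log (2 ^ b) / Real.log (Real.log (2 ^ b)))⌋₊) ≤ (2 : ℝ) ^ (c / 2 * (b : ℝ)) := by
  have hl2 : 0 < Real.log 2 := Real.log_pos (by norm_num)
  have hlt : Tendsto (fun b : ℕ => Real.log ((2 : ℝ) ^ b)) atTop atTop := by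
    simp_rw [Real.log_pow]
    exact tendsto_natCast_atTop_atTop.atTop_mul_const hl2
  have e1 : ∀ᶠ L : ℝ in atTop, 1 + 8 * Real.log C / c ≤ Real.log L :=
    Real.tendsto_log_atTop.eventually_ge_atTop _
  have e2 : ∀ᶠ L : ℝ in atTop, 27 * L ^ 2 ≤ Real.exp (c / 4 * L) := by
    have h2 := Real.tendsto_exp_div_pow_atTop 2
    have h3 : Tendsto (fun L : ℝ => c / 4 * L) atTop atTop := tendsto_id.const_mul_atTop (by positivity)
    have h4 := h2.comp h3
    filter_upwards [h4.eventually_ge_atTop (27 / (c / 4) ^ 2), eventually_gt_atTop 0] with L hL hL0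
    simp only [Function.comp] at hL
    rw [le_div_iff₀ (by positivity)] at hL
    have h5 : 27 / (c / 4) ^ 2 * (c / 4 * L) ^ 2 = 27 * L ^ 2 := by
      field_simp
    linarith
  filter_upwards [hlt.eventually e1, hlt.eventually e2, hlt.eventually_ge_atTop 1] with b h1 h2 h3
  set L := Real.log ((2 : ℝ) ^ b) with hL
  have hLb : L = b * Real.log 2 := by rw [hL, Real.log_pow]
  set j := ⌊2 * (L / Real.log L)⌋₊ with hj
  have hlC : 0 ≤ Real.log C := Real.log_nonneg hC
  have hq : 0 ≤ 8 * Real.log C / c := by positivity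
  have hlL : 1 ≤ Real.log L := by linarith
  have hL0 : 0 < L := by linarith
  have hjle : (j : ℝ) ≤ 2 * (L / Real.log L) := Nat.floor_le (by positivity)
  have hjL : (j : ℝ) ≤ 2 * L := by
    refine hjle.trans ?_
    have : L / Real.log L ≤ L := div_le_self hL0.le hlL
    linarith
  have hb : (b : ℝ) ≤ 2 * L := by
    have := Real.log_two_gt_d9
    have hb0 : (0 : ℝ) ≤ b := Nat.cast_nonneg b
    nlinarith
  have hC0 : 0 < C := by linarith
  have hCj : C ^ j ≤ Real.exp (c / 4 * L) := by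
    have h4 : C ^ j = Real.exp (j * Real.log C) := by
      rw [Real.exp_nat_mul, Real.exp_log hC0]
    rw [h4]
    apply Real.exp_le_exp.2
    have h5 : Real.log C ≤ c / 8 * Real.log L := by
      have h6 : 8 * Real.log C / c ≤ Real.log L := by linarith
      rw [div_le_iff₀ hc] at h6
      linarith
    calc (j : ℝ) * Real.log C ≤ 2 * (L / Real.log L) * (c / 8 * Real.log L) :=
          mul_le_mul hjle h5 hlC (by positivity)
      _ = c / 4 * L := by
        have : Real.log L ≠ 0 := by linarith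
        field_simp
        ring
  have hpoly : 3 * ((b : ℝ) + 1) * ((j : ℝ) + 1) ≤ Real.exp (c / 4 * L) := by
    refine le_trans ?_ h2
    have hj0 : (0 : ℝ) ≤ j := Nat.cast_nonneg j
    have hb0 : (0 : ℝ) ≤ b := Nat.cast_nonneg b
    calc 3 * ((b : ℝ) + 1) * ((j : ℝ) + 1) ≤ 3 * (3 * L) * (3 * L) := by
          apply mul_le_mul _ (by linarith) (by positivity) (by positivity)
          linarith
      _ = 27 * L ^ 2 := by ring
  calc 3 * ((b : ℝ) + 1) * (((j : ℝ) + 1) * C ^ j) = 3 * ((b : ℝ) + 1) * ((j : ℝ) + 1) * C ^ j := by ring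
    _ ≤ Real.exp (c / 4 * L) * Real.exp (c / 4 * L) :=
        mul_le_mul hpoly hCj (by positivity) (Real.exp_pos _).le
    _ = (2 : ℝ) ^ (c / 2 * (b : ℝ)) := by
        rw [← Real.exp_add, Real.rpow_def_of_pos (by norm_num), hLb]
        congr 1
        ring

private theorem Bdry_card (t : ℝ) (b : ℕ) (S : Finset ℕ)
    (hS : ∀ n ∈ S, n ∈ Finset.Ico (2 ^ b) (2 ^ (b + 1)) ∧ n ∉ Inn t b) :
    (S.card : ℝ) ≤ 2 * (2 : ℝ) ^ ((1 - (1 - t) / 2) * (b : ℝ)) := by
  set D : ℝ := 2 ^ (b + 1) * (2 : ℝ) ^ (-((1 - t) / 2) * (b : ℝ)) with hD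
  have hDe : D = 2 * (2 : ℝ) ^ ((1 - (1 - t) / 2) * (b : ℝ)) := by
    rw [hD, show (1 - (1 - t) / 2) * (b : ℝ) = (b : ℝ) + -((1 - t) / 2) * (b : ℝ) by ring,
      Real.rpow_add (by norm_num), Real.rpow_natCast]
    ring
  have hD0 : 0 ≤ D := by positivity
  set N0 : ℕ := ⌈(2 : ℝ) ^ (b + 1) - D⌉₊ with hN0
  have hsub : S ⊆ Finset.Ico N0 (2 ^ (b + 1)) := by
    intro n hn
    obtain ⟨h1, h2⟩ := hS n hn
    rw [Inn, Finset.mem_filter, not_and] at h2
    have h3 := h2 h1
    rw [Finset.mem_Ico] at h1 ⊢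
    refine ⟨?_, h1.2⟩
    rw [hN0, Nat.ceil_le]
    push Not at h3
    rw [mul_sub, mul_one, ← hD] at h3
    exact h3.le
  rw [← hDe]
  refine le_trans (Nat.cast_le.2 (Finset.card_le_card hsub)) ?_
  rw [Nat.card_Ico]
  rcases le_total N0 (2 ^ (b + 1)) with h | h
  · rw [Nat.cast_sub h]
    have := Nat.le_ceil ((2 : ℝ) ^ (b + 1) - D)
    push_cast
    linarith
  · rw [Nat.sub_eq_zero_of_le h, Nat.cast_zero]
    exact hD0

open Classical in
theorem ae_bdry (h : Adm M t K g) : ∀ᵐ ω ∂Pm, ∀ᶠ b : ℕ in atTop, ∀ J : ℕ,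
    ((J : ℝ) ≤ 2 * (Real.log (2 ^ b) / Real.log (Real.log (2 ^ b)))) →
    ∑ n ∈ (Finset.Ico (2 ^ b) (2 ^ (b + 1))).filter (fun n => n ∉ Inn t b), wt M t g n J ω ≤
      (2 : ℝ) ^ ((1 - (1 - t) / 8) * (b : ℝ)) := by
  obtain ⟨C, hC, hmom⟩ := mom_one h
  set c : ℝ := (1 - t) / 2 with hc
  have hc0 : 0 < c := by have := h.ht1; rw [hc]; linarith
  obtain ⟨b0, hb0⟩ := eventually_atTop.1 ((Bdry_real hC hc0).and (eventually_ge_atTop 1))
  set S : ℕ → Finset ℕ := fun b => (Finset.Ico (2 ^ b) (2 ^ (b + 1))).filter (fun n => n ∉ Inn t b) with hS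
  set j : ℕ → ℕ := fun b => ⌊2 * (Real.log (2 ^ b) / Real.log (Real.log (2 ^ b)))⌋₊ with hj
  set F : ℕ → (ℕ → ℝ × ℝ) → ENNReal := fun b ω => ∑ J ∈ Finset.range (j b + 1), ∑ n ∈ S b,
    ENNReal.ofReal (wt M t g n J ω) with hF
  have hFm : ∀ b, Measurable (F b) := fun b =>
    Finset.measurable_sum _ fun J _ => Finset.measurable_sum _ fun n _ => (wt_meas M t g n J).ennreal_ofReal
  set s : ℕ → Set (ℕ → ℝ × ℝ) := fun b =>
    {ω | ENNReal.ofReal ((2 : ℝ) ^ ((1 - c / 4) * (b : ℝ))) ≤ F b ω} with hs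
  have hbound : ∀ b, b0 ≤ b → Pm (s b) ≤ ENNReal.ofReal (((2 : ℝ) ^ (-(c / 4))) ^ b) := by
    intro b hb
    obtain ⟨hr, hb1⟩ := hb0 b hb
    have hpos : 0 < (2 : ℝ) ^ ((1 - c / 4) * (b : ℝ)) := by positivity
    have h1 := meas_ge_le_lintegral_div (μ := Pm) (hFm b).aemeasurable
      (ε := ENNReal.ofReal ((2 : ℝ) ^ ((1 - c / 4) * (b : ℝ))))
      (by rw [Ne, ENNReal.ofReal_eq_zero, not_le]; exact hpos) ENNReal.ofReal_ne_top
    refine h1.trans ?_
    have h2 : ∫⁻ ω, F b ω ∂Pm ≤ ENNReal.ofReal ((2 : ℝ) ^ ((1 - c / 2) * (b : ℝ))) := by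
      rw [hF]
      simp only
      rw [lintegral_finsetSum _ (fun J _ => Finset.measurable_sum _ fun n _ =>
        (wt_meas M t g n J).ennreal_ofReal)]
      have h3 : ∀ J ∈ Finset.range (j b + 1), ∫⁻ ω, ∑ n ∈ S b, ENNReal.ofReal (wt M t g n J ω) ∂Pm ≤
          ENNReal.ofReal (2 * (2 : ℝ) ^ ((1 - c) * (b : ℝ)) * (((b : ℝ) + 1) * C ^ j b)) := by
        intro J hJ
        rw [lintegral_finsetSum _ (fun n _ => (wt_meas M t g n J).ennreal_ofReal)]
        have h4 : ∀ n ∈ S b, ∫⁻ ω, ENNReal.ofReal (wt M t g n J ω) ∂Pm ≤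
            ENNReal.ofReal (((b : ℝ) + 1) * C ^ j b) := by
          intro n hn
          rw [hS, Finset.mem_filter, Finset.mem_Ico] at hn
          have hn0 : 0 < n := lt_of_lt_of_le (by positivity) hn.1.1
          refine (hmom n hn0 J).trans (ENNReal.ofReal_le_ofReal ?_)
          have hth : RLC.th n ≤ (b : ℝ) + 1 := by
            have hlog : Real.log n ≤ (b : ℝ) + 1 := by
              have h5 : (n : ℝ) ≤ 2 ^ (b + 1) := by exact_mod_cast hn.1.2.le
              have h6 := Real.log_le_log (by exact_mod_cast hn0) h5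
              rw [Real.log_pow] at h6
              have h7 := Real.log_two_lt_d9
              push_cast at h6
              have h8 : (0 : ℝ) ≤ b := Nat.cast_nonneg b
              nlinarith
            unfold RLC.th
            split_ifs
            · exact hlog
            · positivity
          have hJ' : J ≤ j b := by
            have := Finset.mem_range.1 hJ
            omega
          exact mul_le_mul hth (pow_le_pow_right₀ hC hJ') (by positivity) (by positivity)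
        refine (Finset.sum_le_sum h4).trans ?_
        rw [Finset.sum_const, nsmul_eq_mul, ← ENNReal.ofReal_natCast, ← ENNReal.ofReal_mul (Nat.cast_nonneg _)]
        apply ENNReal.ofReal_le_ofReal
        apply mul_le_mul_of_nonneg_right _ (by positivity)
        apply Bdry_card t b (S b)
        intro n hn
        rw [hS, Finset.mem_filter] at hn
        exact hn
      refine (Finset.sum_le_sum h3).trans ?_
      rw [Finset.sum_const, nsmul_eq_mul, Finset.card_range, ← ENNReal.ofReal_natCast,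
        ← ENNReal.ofReal_mul (Nat.cast_nonneg _)]
      apply ENNReal.ofReal_le_ofReal
      push_cast
      have h5 : (2 : ℝ) ^ ((1 - c / 2) * (b : ℝ)) = (2 : ℝ) ^ ((1 - c) * (b : ℝ)) * (2 : ℝ) ^ (c / 2 * (b : ℝ)) := by
        rw [← Real.rpow_add (by norm_num)]
        congr 1
        ring
      rw [h5]
      have h6 : 0 < (2 : ℝ) ^ ((1 - c) * (b : ℝ)) := by positivity
      calc ((j b : ℝ) + 1) * (2 * (2 : ℝ) ^ ((1 - c) * (b : ℝ)) * (((b : ℝ) + 1) * C ^ j b))
          = (2 : ℝ) ^ ((1 - c) * (b : ℝ)) * (2 * ((b : ℝ) + 1) * (((j b : ℝ) + 1) * C ^ j b)) := by ring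
        _ ≤ (2 : ℝ) ^ ((1 - c) * (b : ℝ)) * (3 * ((b : ℝ) + 1) * (((j b : ℝ) + 1) * C ^ j b)) := by
            apply mul_le_mul_of_nonneg_left _ h6.le
            apply mul_le_mul_of_nonneg_right _ (by positivity)
            have : (0 : ℝ) ≤ b := Nat.cast_nonneg b
            linarith
        _ ≤ _ := mul_le_mul_of_nonneg_left hr h6.le
    refine (ENNReal.div_le_div_right h2 _).trans ?_
    rw [← ENNReal.ofReal_div_of_pos hpos]
    apply ENNReal.ofReal_le_ofReal
    rw [← Real.rpow_sub (by norm_num), ← Real.rpow_natCast, ← Real.rpow_mul (by norm_num)]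
    apply le_of_eq
    congr 1
    ring
  have hr : (2 : ℝ) ^ (-(c / 4)) < 1 :=
    Real.rpow_lt_one_of_one_lt_of_neg (by norm_num) (by linarith)
  have hBC : ∀ᵐ ω ∂Pm, ∀ᶠ b : ℕ in atTop, ω ∉ s (b + b0) := by
    apply ae_eventually_notMem
    have h1 : Summable (fun b : ℕ => ((2 : ℝ) ^ (-(c / 4))) ^ (b + b0)) :=
      (summable_nat_add_iff b0).2 (summable_geometric_of_lt_one (by positivity) hr)
    refine ne_top_of_le_ne_top h1.tsum_ofReal_ne_top ?_
    exact ENNReal.tsum_le_tsum fun b => hbound _ (Nat.le_add_left _ _)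
  filter_upwards [hBC] with ω hω
  obtain ⟨B, hB⟩ := eventually_atTop.1 hω
  filter_upwards [eventually_ge_atTop (B + b0)] with b hb J hJ
  have hnot : ω ∉ s b := by
    have h1 := hB (b - b0) (by omega)
    rwa [Nat.sub_add_cancel (by omega)] at h1
  rw [hs, Set.mem_ofPred_eq, not_le] at hnot
  have hJj : J ∈ Finset.range (j b + 1) := by
    rw [Finset.mem_range, Nat.lt_succ_iff]
    exact Nat.le_floor hJ
  have h1 : ∑ n ∈ S b, ENNReal.ofReal (wt M t g n J ω) ≤ F b ω :=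
    Finset.single_le_sum (f := fun J => ∑ n ∈ S b, ENNReal.ofReal (wt M t g n J ω))
      (fun _ _ => zero_le) hJj
  have h2 := lt_of_le_of_lt h1 hnot
  rw [← ENNReal.ofReal_sum_of_nonneg (fun n _ => wt_nonneg M t g n J ω)] at h2
  have h3 := (ENNReal.ofReal_lt_ofReal_iff (by positivity)).1 h2
  have h4 : (1 - (1 - t) / 8) = 1 - c / 4 := by
    rw [hc]
    ring
  rw [h4]
  exact h3.le

end RAF
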