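import Pool.Agent.RLC.HM
import Pool.Agent.ASC.Final

/-!
# RAF: Cunningham chains of all lengths for maps close to `q ↦ 2q+1`.  Definitions

`1/2 < t < 1`, `M ≥ 1`, `g : ℕ → ℝ` nondecreasing, `0 ≤ g q ≤ K (q^t + 1)`; `ω m = (u, v)`, `m = 0, 1, ...`, are independent and uniform
in `[0,1]²`. For `2^m ≤ q < 2^(m+1)` let
`T q = 2q + 1 + M ⌊(2^((t-1)m) u q + 2^(tm) v + g q)/M⌋`, `(u, v) = ω m`. So `T q ≡ 2q+1 (mod M)` and `T q = 2q + O(q^t)`. THEOREM: almost surely,
for every `ε > 0` and all large `X`: uniformly for `1 ≤ k ≤ (1-ε) log X/log log X` the number of the primes `p ≤ X` which start a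
`T`-chain of exact length `k` is asymptotic to `cM M k · X/∏_{i<k} log(2^i X)`, and there is no such `p` for `k > (1+ε) log X/log log X`.

METHOD: second moments. A chain moves to a new block `[2^m, 2^(m+1))` in each step (`T q ≥ 2q+1`), so that each step has its own
pair of random numbers. `w_j(n) = ∏_{i≤j} θ(c i)` (`θ = log` on the primes, `0` elsewhere), `U_j = ∑_{n ∈ I} w_j(n) RR M (J-j) (c j)`, `I` an
interval in a block; `RR` is the main term of the remaining steps, it depends on `c j` modulo `M` only. `U_{j+1} - U_j = ∑ w_j(n) r_n (θ(T c_j) - rho M c_j)`.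
For `c < c'` in the same block `T c` and `T c'` are, for distant `c`, `c'`, almost independent, because the slope `2 + 2^((t-1)m) u` is random:
given `T c` the number `T c'` is uniformly distributed in an interval of length about `2^(tm)`, and almost all the
intervals of such a length contain the right number of primes (`t > 1/2`). The point is that the exceptional intervals
must be power-rarely exceptional (`cells`: at most `2^((1-κ)m)` of the numbers lie in exceptional cells), since chains of length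
`log X/log log X` are followed: the loss `C^j` of the sieve in each step is `X^(o(1))`. This is obtained by splitting the
Dirichlet polynomial of the primes into a part which is small in `L¹` and a part which is small in `L²` with a power saving.
-/

namespace RAF

open MeasureTheory

/-- The data of the theorem. -/
structure Adm (M : ℕ) (t K : ℝ) (g : ℕ → ℝ) : Prop where
  hM : 0 < M
  ht : 1 / 2 < t
  ht1 : t < 1
  hK : 1 ≤ K
  mono : Monotone g
  nonneg : ∀ q, 0 ≤ g q
  le : ∀ q : ℕ, g q ≤ K * ((q : ℝ) ^ t + 1)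

/-- The perturbation at `q`. -/
noncomputable def arg (t : ℝ) (g : ℕ → ℝ) (q : ℕ) (y : ℝ × ℝ) : ℝ :=
  (2 : ℝ) ^ ((t - 1) * (Nat.log 2 q : ℝ)) * y.1 * q + (2 : ℝ) ^ (t * (Nat.log 2 q : ℝ)) * y.2 + g q

/-- The image of `q` for given parameters. -/
noncomputable def TT (M : ℕ) (t : ℝ) (g : ℕ → ℝ) (q : ℕ) (y : ℝ × ℝ) : ℕ :=
  2 * q + 1 + M * ⌊arg t g q y / M⌋₊

/-- The map. -/
noncomputable def T (M : ℕ) (t : ℝ) (g : ℕ → ℝ) (ω : ℕ → ℝ × ℝ) (q : ℕ) : ℕ :=
  TT M t g q (ω (Nat.log 2 q))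

/-- The chain of `n`. -/
noncomputable def ch (M : ℕ) (t : ℝ) (g : ℕ → ℝ) (ω : ℕ → ℝ × ℝ) (n i : ℕ) : ℕ := (T M t g ω)^[i] n

/-- The uniform distribution on the unit square. -/
noncomputable def uu : Measure (ℝ × ℝ) := volume.restrict (Set.Icc 0 1 ×ˢ Set.Icc 0 1)

instance uu_prob : IsProbabilityMeasure uu := by
  constructor
  unfold uu
  rw [Measure.restrict_apply_univ, Measure.volume_eq_prod, Measure.prod_prod]
  simp

/-- The distribution of the parameters. -/
noncomputable def Pm : Measure (ℕ → ℝ × ℝ) := Measure.infinitePi fun _ => uu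

instance Pm_prob : IsProbabilityMeasure Pm := by
  unfold Pm
  infer_instance

/-- `∏_{i≤j} θ(c i)`. -/
noncomputable def wt (M : ℕ) (t : ℝ) (g : ℕ → ℝ) (n j : ℕ) (ω : ℕ → ℝ × ℝ) : ℝ :=
  ∏ i ∈ Finset.range (j + 1), RLC.th (ch M t g ω n i)

open Classical in
/-- The same for chains which avoid `B`. -/
noncomputable def wb (M : ℕ) (t : ℝ) (g : ℕ → ℝ) (B : Set ℕ) (n j : ℕ) (ω : ℕ → ℝ × ℝ) : ℝ :=
  ∏ i ∈ Finset.range (j + 1), (if ch M t g ω n i ∈ B then 0 else RLC.th (ch M t g ω n i))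

/-- The mean of `θ(T q)`. -/
noncomputable def rho (M q : ℕ) : ℝ := if Nat.Coprime (2 * q + 1) M then (M : ℝ) / (Nat.totient M : ℝ) else 0

/-- The main term of `J` steps. -/
noncomputable def RR (M J q : ℕ) : ℝ := ∏ i ∈ Finset.range J, rho M (2 ^ i * (q + 1) - 1)

/-- The interior of the block `[2^m, 2^(m+1))`. -/
noncomputable def Inn (t : ℝ) (m : ℕ) : Finset ℕ :=
  (Finset.Ico (2 ^ m) (2 ^ (m + 1))).filter fun n =>
    (n : ℝ) ≤ 2 ^ (m + 1) * (1 - (2 : ℝ) ^ (-((1 - t) / 2) * (m : ℝ)))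

/-- The constant. -/
noncomputable def cM (M k : ℕ) : ℝ :=
  (((Finset.range M).filter fun a => ∀ i < k, Nat.Coprime (2 ^ i * (a + 1) - 1) M).card : ℝ) / M *
    ((M : ℝ) / (Nat.totient M : ℝ)) ^ k

open Classical in
/-- The number of the `n ∈ S` for which the first `k` members of the chain are primes. -/
noncomputable def cnt (M : ℕ) (t : ℝ) (g : ℕ → ℝ) (ω : ℕ → ℝ × ℝ) (k : ℕ) (S : Finset ℕ) : ℕ :=
  (S.filter fun n => ∀ i < k, (ch M t g ω n i).Prime).card

/-- `∏_{i<k} log(2^i x)`. -/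
noncomputable def FX (k : ℕ) (x : ℝ) : ℝ := ∏ i ∈ Finset.range k, Real.log (2 ^ i * x)

/-- The primes `≡ b (mod M)` in the `r`-th cell of length `h`. -/
noncomputable def csum (M b h r : ℕ) : ℝ :=
  ∑ n ∈ (Finset.Ico (r * h) ((r + 1) * h)).filter (fun n => n ≡ b [MOD M]), RLC.th n

/-- The cell does not have the right number of primes in some class. -/
def BadC (M : ℕ) (A : ℝ) (h m r : ℕ) : Prop :=
  ∃ b : ℕ, b.Coprime M ∧ (h : ℝ) * (m : ℝ) ^ (-A) < |csum M b h r - (h : ℝ) / (Nat.totient M : ℝ)|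

/-- A Dirichlet polynomial with a Gaussian weight and complex coefficients. -/
noncomputable def gsx (e : ℕ → ℂ) (c τ : ℝ) : ℂ :=
  ∑' n : ℕ, e n * ASI.np n τ * (Real.exp (-(Real.log n - c) ^ 2 / 4) : ℝ)

open Classical in
/-- `∑ Λ(n) χ(n) n^(-1-iτ) exp(-(log n-L)²/8)` minus its main term. -/
noncomputable def DX {M : ℕ} (χ : DirichletCharacter ℂ M) (L τ : ℝ) : ℂ :=
  ASC.P χ L τ - (if χ = 1 then ASI.mainT L τ else 0)

/-- The same for a residue class. -/
noncomputable def DB (M b : ℕ) (L τ : ℝ) : ℂ :=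
  ASC.PB M b L τ - ASI.mainT L τ / (Nat.totient M : ℂ)

open Classical in
/-- The weight of a pair in the one step inequality. -/
noncomputable def bd (κ κ' : ℝ) (m c c' : ℕ) : ℝ :=
  if c = c' then (m : ℝ) ^ 2 else if |(c : ℝ) - c'| < (2 : ℝ) ^ ((1 - κ) * m) then (m : ℝ) ^ κ' else 0

end RAF
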