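import Pool.Agent.RAF.Defs
import Pool.Agent.Lib.PrimePairs
import Pool.Agent.EK.Mertens

/-!
# RAF.FDiv: `∑_{e ∣ n} 1/e` is small

PROOF. `F n = ∑_{e ∣ n} 1/e ≤ ∏_{p ∣ n} (1 - 1/p)⁻¹ ≤ exp(2 ∑_{p ∣ n} 1/p)` (induction over the prime factorisation, `F` is multiplicative: `Nat.Coprime.sum_divisors_mul`,
or `F n = σ(n)/n`, `ArithmeticFunction.isMultiplicative_sigma`; `1 + 1/p + 1/p² + ... = 1 + 1/(p-1) ≤ exp(2/p)`). Let `z = 2 + log n`. The primes `p > z` dividing `n`: there are at most `log n/log 2 ≤ 2z` of them, so they contribute at most `2` to `∑ 1/p`. The primes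
`p ≤ z`: `∑_{p≤z} 1/p ≤ 1 + ∑_{i≥1, 2^i ≤ z} ∑_{2^i<p≤2^(i+1)} 1/p ≤ 1 + ∑_{1≤i≤log₂ z} θ(2^(i+1))/(2^i i log 2) ≤ 1 + 4 ∑_{i ≤ log₂ z} 1/i ≤ C + 4 log(1 + log z)` (`Chebyshev.theta_le_log4_mul_x`). So
`F n ≤ C (1 + log z)^8 ≤ C' (1 + log n)^κ`, as `(1 + log(2+x))^8 = O((1+x)^κ)`.
-/

namespace RAF

private theorem fdiv_geom (p : ℕ) (hp : 2 ≤ p) (k : ℕ) :
    ∑ i ∈ Finset.range (k + 1), (1 / (p : ℝ)) ^ i ≤ Real.exp (2 * (1 / (p : ℝ))) := by
  have hp2 : (2 : ℝ) ≤ p := by exact_mod_cast hp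
  have hx0 : 0 < 1 / (p : ℝ) := by positivity
  have hx1 : 1 / (p : ℝ) ≤ 1 / 2 := one_div_le_one_div_of_le (by norm_num) hp2
  set x := 1 / (p : ℝ) with hx
  have h1 : ∑ i ∈ Finset.range (k + 1), x ^ i ≤ 1 / (1 - x) := by
    rw [le_div_iff₀ (by linarith)]
    have := geom_sum_mul_neg x (k + 1)
    rw [this]
    have : 0 ≤ x ^ (k + 1) := by positivity
    linarith
  have h2 : 1 / (1 - x) ≤ 1 + 2 * x := by
    rw [div_le_iff₀ (by linarith)]
    nlinarith
  have h3 := Real.add_one_le_exp (2 * x)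
  linarith

private theorem fdiv_eq (n : ℕ) (hn : 1 ≤ n) :
    Pool.Agent.Lib.PrimePairs.F n = ((∑ d ∈ n.divisors, d : ℕ) : ℝ) / n := by
  have hn0 : (n : ℝ) ≠ 0 := by exact_mod_cast (by omega : n ≠ 0)
  unfold Pool.Agent.Lib.PrimePairs.F
  rw [← Nat.sum_div_divisors n (fun e => (1 : ℝ) / e), Nat.cast_sum, Finset.sum_div]
  refine Finset.sum_congr rfl fun d hd => ?_
  have hdv := Nat.dvd_of_mem_divisors hd
  have hd0 : (d : ℝ) ≠ 0 := by
    have := Nat.pos_of_mem_divisors hd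
    exact_mod_cast this.ne'
  rw [Nat.cast_div hdv hd0]
  field_simp

private theorem fdiv_exp (n : ℕ) (hn : 1 ≤ n) :
    Pool.Agent.Lib.PrimePairs.F n ≤ Real.exp (2 * ∑ p ∈ n.primeFactors, 1 / (p : ℝ)) := by
  induction n using Nat.recOnPosPrimePosCoprime with
  | prime_pow p k hp hk =>
    unfold Pool.Agent.Lib.PrimePairs.F
    rw [Nat.primeFactors_prime_pow hk.ne' hp, Finset.sum_singleton, Nat.sum_divisors_prime_pow hp]
    refine le_trans (le_of_eq ?_) (fdiv_geom p hp.two_le k)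
    refine Finset.sum_congr rfl fun i _ => ?_
    push_cast
    rw [one_div_pow]
  | zero => omega
  | one => simp [Pool.Agent.Lib.PrimePairs.F]
  | coprime a b ha hb hab iha ihb =>
    have h1 := iha (by omega)
    have h2 := ihb (by omega)
    have h3 : Pool.Agent.Lib.PrimePairs.F (a * b) =
        Pool.Agent.Lib.PrimePairs.F a * Pool.Agent.Lib.PrimePairs.F b := by
      rw [fdiv_eq _ hn, fdiv_eq a (by omega), fdiv_eq b (by omega), hab.sum_divisors_mul]
      push_cast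
      rw [mul_div_mul_comm]
    rw [h3, hab.primeFactors_mul, Finset.sum_union hab.disjoint_primeFactors, mul_add, Real.exp_add]
    exact mul_le_mul h1 h2 (Pool.Agent.Lib.PrimePairs.F_nonneg b) (Real.exp_pos _).le

private theorem fdiv_card (n : ℕ) (hn : 1 ≤ n) :
    (n.primeFactors.card : ℝ) ≤ 2 * Real.log n := by
  have h1 : 2 ^ n.primeFactors.card ≤ n := by
    calc 2 ^ n.primeFactors.card = ∏ _p ∈ n.primeFactors, 2 := by simp
      _ ≤ ∏ p ∈ n.primeFactors, p :=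
        Finset.prod_le_prod' fun p hp => (Nat.prime_of_mem_primeFactors hp).two_le
      _ ≤ n := Nat.le_of_dvd (by omega) (Nat.prod_primeFactors_dvd n)
  have h2 : ((2 : ℝ) ^ n.primeFactors.card) ≤ n := by exact_mod_cast h1
  have h3 := Real.log_le_log (by positivity) h2
  rw [Real.log_pow] at h3
  have h4 : (1 : ℝ) / 2 ≤ Real.log 2 := by linarith [Real.log_two_gt_d9]
  have h5 : (0 : ℝ) ≤ n.primeFactors.card := Nat.cast_nonneg _
  nlinarith

theorem F_small {κ : ℝ} (hκ : 0 < κ) : ∃ C : ℝ, 1 ≤ C ∧ ∀ n : ℕ, 1 ≤ n →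
    Pool.Agent.Lib.PrimePairs.F n ≤ C * (1 + Real.log n) ^ κ := by
  obtain ⟨C₀, hC₀⟩ := EK.mertens_aux
  set ε : ℝ := κ / 2 with hε
  have hε0 : 0 < ε := by positivity
  have hl2 : (1 : ℝ) / 2 ≤ Real.log 2 := by linarith [Real.log_two_gt_d9]
  have hl20 : 0 < Real.log 2 := by linarith
  set D : ℝ := 1 + 2 / ε with hD
  have hD1 : 1 ≤ D := by
    have : 0 ≤ 2 / ε := by positivity
    linarith
  refine ⟨max 1 (Real.exp (2 * (C₀ + 2)) * D ^ 2 * 2 ^ κ), le_max_left _ _, fun n hn => ?_⟩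
  have hn0 : (1 : ℝ) ≤ n := by exact_mod_cast hn
  have hlog : 0 ≤ Real.log n := Real.log_nonneg hn0
  set z : ℝ := 2 + Real.log n with hz
  have hz2 : 2 ≤ z := by linarith
  set k : ℕ := Nat.log 2 ⌊z⌋₊ with hk
  have hfz : 2 ≤ ⌊z⌋₊ := Nat.le_floor (by exact_mod_cast hz2)
  have hk1 : (2 : ℝ) ^ k ≤ z := by
    have h1 : 2 ^ k ≤ ⌊z⌋₊ := Nat.pow_log_le_self 2 (by omega)
    have h2 : ((⌊z⌋₊ : ℕ) : ℝ) ≤ z := Nat.floor_le (by linarith)
    have h3 : ((2 : ℝ) ^ k) ≤ (⌊z⌋₊ : ℕ) := by exact_mod_cast h1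
    linarith
  have hk2 : z < (2 : ℝ) ^ (k + 1) := by
    have h1 : ⌊z⌋₊ < 2 ^ (k + 1) := Nat.lt_pow_succ_log_self (by norm_num) _
    have h2 : z < (⌊z⌋₊ : ℝ) + 1 := Nat.lt_floor_add_one z
    have h3 : ((⌊z⌋₊ : ℝ) + 1) ≤ (2 : ℝ) ^ (k + 1) := by exact_mod_cast h1
    linarith
  -- the sum over the primes
  have hsum : ∑ p ∈ n.primeFactors, 1 / (p : ℝ) ≤ C₀ + Real.log (k + 1) + 2 := by
    rw [← Finset.sum_filter_add_sum_filter_not n.primeFactors (fun p => p < 2 ^ (k + 1))]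
    have h1 : ∑ p ∈ n.primeFactors.filter (fun p => p < 2 ^ (k + 1)), 1 / (p : ℝ) ≤
        ∑ p ∈ (Finset.range (2 ^ (k + 1))).filter Nat.Prime, (1 / (p : ℝ)) := by
      refine Finset.sum_le_sum_of_subset_of_nonneg ?_ fun _ _ _ => by positivity
      intro p hp
      rw [Finset.mem_filter] at hp
      rw [Finset.mem_filter, Finset.mem_range]
      exact ⟨hp.2, Nat.prime_of_mem_primeFactors hp.1⟩
    have h2 := (abs_le.1 (hC₀ k)).2
    have h3 : ∑ p ∈ n.primeFactors.filter (fun p => ¬ p < 2 ^ (k + 1)), 1 / (p : ℝ) ≤ 2 := by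
      calc ∑ p ∈ n.primeFactors.filter (fun p => ¬ p < 2 ^ (k + 1)), 1 / (p : ℝ)
          ≤ ∑ p ∈ n.primeFactors.filter (fun p => ¬ p < 2 ^ (k + 1)), 1 / z := by
            refine Finset.sum_le_sum fun p hp => ?_
            rw [Finset.mem_filter, not_lt] at hp
            have h4 : ((2 : ℝ) ^ (k + 1)) ≤ p := by exact_mod_cast hp.2
            exact one_div_le_one_div_of_le (by linarith) (by linarith)
        _ = ((n.primeFactors.filter (fun p => ¬ p < 2 ^ (k + 1))).card : ℝ) * (1 / z) := by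
            rw [Finset.sum_const, nsmul_eq_mul]
        _ ≤ (2 * Real.log n) * (1 / z) := by
            refine mul_le_mul_of_nonneg_right (le_trans ?_ (fdiv_card n hn)) (by positivity)
            exact_mod_cast Finset.card_filter_le _ _
        _ ≤ 2 := by
            rw [mul_one_div, div_le_iff₀ (by linarith)]
            linarith
    linarith
  -- the size of `k`
  have hkz : (k : ℝ) + 1 ≤ D * z ^ ε := by
    have h1 := Real.log_le_log (by positivity) hk1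
    rw [Real.log_pow] at h1
    have h2 : Real.log z ≤ z ^ ε / ε := Real.log_le_rpow_div (by linarith) hε0
    have h3 : 1 ≤ z ^ ε := Real.one_le_rpow (by linarith) hε0.le
    have h4 : (k : ℝ) ≤ 2 * Real.log z := by
      have : (0 : ℝ) ≤ k := Nat.cast_nonneg _
      nlinarith
    calc (k : ℝ) + 1 ≤ 2 * (z ^ ε / ε) + z ^ ε := by linarith
      _ = D * z ^ ε := by rw [hD]; ring
  have hk0 : (0 : ℝ) < (k : ℝ) + 1 := by positivity
  have hzε : 0 < z ^ ε := Real.rpow_pos_of_pos (by linarith) _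
  calc Pool.Agent.Lib.PrimePairs.F n ≤ Real.exp (2 * ∑ p ∈ n.primeFactors, 1 / (p : ℝ)) :=
        fdiv_exp n hn
    _ ≤ Real.exp (2 * (C₀ + Real.log (k + 1) + 2)) := Real.exp_le_exp.2 (by linarith)
    _ = Real.exp (2 * (C₀ + 2)) * ((k : ℝ) + 1) ^ 2 := by
        rw [show 2 * (C₀ + Real.log (k + 1) + 2) = 2 * (C₀ + 2) + (Real.log (k + 1) + Real.log (k + 1))
          by ring, Real.exp_add, Real.exp_add, Real.exp_log hk0]
        ring
    _ ≤ Real.exp (2 * (C₀ + 2)) * (D * z ^ ε) ^ 2 := by gcongr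
    _ = Real.exp (2 * (C₀ + 2)) * D ^ 2 * z ^ κ := by
        rw [mul_pow, ← Real.rpow_natCast (z ^ ε) 2, ← Real.rpow_mul (by linarith)]
        have : ε * ((2 : ℕ) : ℝ) = κ := by rw [hε]; push_cast; ring
        rw [this]
        ring
    _ ≤ Real.exp (2 * (C₀ + 2)) * D ^ 2 * (2 * (1 + Real.log n)) ^ κ := by
        gcongr
        linarith
    _ = Real.exp (2 * (C₀ + 2)) * D ^ 2 * 2 ^ κ * (1 + Real.log n) ^ κ := by
        rw [Real.mul_rpow (by norm_num) (by linarith)]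
        ring
    _ ≤ max 1 (Real.exp (2 * (C₀ + 2)) * D ^ 2 * 2 ^ κ) * (1 + Real.log n) ^ κ := by
        refine mul_le_mul_of_nonneg_right (le_max_right _ _) ?_
        exact Real.rpow_nonneg (by linarith) _

end RAF
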