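import Pool.Agent.RAF.Basic

/-!
# RAF.Geo: chains which start in the interior of a block

PROOF. Let `C0 = 4 + 3K`, `C1 = C0/(2 - 2^t)` and let `m` be so large that `C1 ≤ 2^(((1-t)/2) m)`. Claim, by induction on `i`: `ch n i ≤ 2^i n + C1 (2^i - 2^(ti)) 2^(tm)` and `log₂ (ch n i) = m + i`.
Step: `TT_le` with `log₂ (ch n i) = m + i`: `ch n (i+1) ≤ 2 ch n i + C0 2^(t(m+i)) ≤ 2^(i+1) n + (2 C1 2^i - 2 C1 2^(ti) + C0 2^(ti)) 2^(tm)` and `-2 C1 + C0 = -2^t C1`. The logarithm: `ch_ge` gives `≥ 2^(m+i)`, and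
`ch n i ≤ 2^i (n + C1 2^(tm)) < 2^(m+i+1)`, because `n ≤ 2^(m+1) - 2^(m+1) 2^(-((1-t)/2)m)` and `2^(m+1) 2^(-((1-t)/2)m) = 2 · 2^(tm) 2^(((1-t)/2)m) > C1 2^(tm)`. Upper bound: `C1 2^(tm) ≤ 2^(((1-t)/2)m) 2^(tm) = 2^m 2^(-((1-t)/2)m) ≤ n 2^(..)`.
`ch_diff`: induction, `TT_mono` (both members are in the block `m + i`, same parameters).
-/

namespace RAF

variable {M : ℕ} {t K : ℝ} {g : ℕ → ℝ}

theorem Inn_pos {t : ℝ} {m n : ℕ} (hn : n ∈ Inn t m) : 0 < n ∧ Nat.log 2 n = m := by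
  unfold Inn at hn
  rw [Finset.mem_filter, Finset.mem_Ico] at hn
  obtain ⟨⟨h1, h2⟩, -⟩ := hn
  exact ⟨lt_of_lt_of_le (by positivity) h1, Nat.log_eq_of_pow_le_of_lt_pow h1 h2⟩

private theorem Geo_step (h : Adm M t K g) {ω : ℕ → ℝ × ℝ}
    (hω : ∀ i, ω i ∈ Set.Icc (0 : ℝ) 1 ×ˢ Set.Icc (0 : ℝ) 1) {n i m : ℕ} (hn : 0 < n)
    (hl : Nat.log 2 (ch M t g ω n i) = m + i) :
    (ch M t g ω n (i + 1) : ℝ) ≤ 2 * ch M t g ω n i +
      (4 + 3 * K) * ((2 : ℝ) ^ (t * (m : ℝ)) * (2 : ℝ) ^ (t * (i : ℝ))) := by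
  have h1 := TT_le h (ch_pos M t g ω hn i) (hω (Nat.log 2 (ch M t g ω n i)))
  have h2 : ch M t g ω n (i + 1) = TT M t g (ch M t g ω n i) (ω (Nat.log 2 (ch M t g ω n i))) :=
    ch_succ M t g ω n i
  rw [h2]
  refine h1.trans (le_of_eq ?_)
  rw [hl, ← Real.rpow_add (by norm_num)]
  congr 3
  push_cast
  ring

theorem geo (h : Adm M t K g) : ∃ m0 : ℕ, ∀ m : ℕ, m0 ≤ m → ∀ ω : ℕ → ℝ × ℝ,
    (∀ i, ω i ∈ Set.Icc (0 : ℝ) 1 ×ˢ Set.Icc (0 : ℝ) 1) → ∀ n ∈ Inn t m,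
    (∀ i : ℕ, Nat.log 2 (ch M t g ω n i) = m + i ∧
      (ch M t g ω n i : ℝ) ≤ 2 ^ i * n * (1 + (2 : ℝ) ^ (-((1 - t) / 2) * (m : ℝ)))) ∧
    (∀ n' ∈ Inn t m, n ≤ n' → ∀ i : ℕ, ch M t g ω n i + 2 ^ i * (n' - n) ≤ ch M t g ω n' i) := by
  have ht1 := h.ht1
  have h2t : (2 : ℝ) ^ t < 2 := by
    calc (2 : ℝ) ^ t < (2 : ℝ) ^ (1 : ℝ) := Real.rpow_lt_rpow_of_exponent_lt (by norm_num) ht1
      _ = 2 := Real.rpow_one 2
  set C1 : ℝ := (4 + 3 * K) / (2 - (2 : ℝ) ^ t) with hC1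
  have hC1e : C1 * (2 - (2 : ℝ) ^ t) = 4 + 3 * K := by
    rw [hC1]
    exact div_mul_cancel₀ _ (by linarith)
  have hC10 : 0 < C1 := by
    rw [hC1]
    have := h.hK
    exact div_pos (by linarith) (by linarith)
  have hbase : (1 : ℝ) < (2 : ℝ) ^ ((1 - t) / 2) := Real.one_lt_rpow (by norm_num) (by linarith)
  obtain ⟨m0, hm0⟩ := pow_unbounded_of_one_lt C1 hbase
  refine ⟨m0, ?_⟩
  intro m hm ω hω
  have hbig : C1 ≤ (2 : ℝ) ^ ((1 - t) / 2 * (m : ℝ)) := by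
    rw [Real.rpow_mul (by norm_num), Real.rpow_natCast]
    exact hm0.le.trans (pow_le_pow_right₀ hbase.le hm)
  have htm0 : (0 : ℝ) < (2 : ℝ) ^ (t * (m : ℝ)) := by positivity
  have heq : (2 : ℝ) ^ ((1 - t) / 2 * (m : ℝ)) * (2 : ℝ) ^ (t * (m : ℝ)) =
      2 ^ m * (2 : ℝ) ^ (-((1 - t) / 2) * (m : ℝ)) := by
    rw [← Real.rpow_natCast 2 m, ← Real.rpow_add (by norm_num), ← Real.rpow_add (by norm_num)]
    congr 1
    ring
  have hC1tm : C1 * (2 : ℝ) ^ (t * (m : ℝ)) ≤ 2 ^ m * (2 : ℝ) ^ (-((1 - t) / 2) * (m : ℝ)) := by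
    rw [← heq]
    exact mul_le_mul_of_nonneg_right hbig htm0.le
  -- the claim
  have key : ∀ n ∈ Inn t m, ∀ i : ℕ, Nat.log 2 (ch M t g ω n i) = m + i ∧
      (ch M t g ω n i : ℝ) ≤ 2 ^ i * n + C1 * (2 ^ i - (2 : ℝ) ^ (t * (i : ℝ))) * (2 : ℝ) ^ (t * (m : ℝ)) := by
    intro n hn
    have hnp := Inn_pos hn
    unfold Inn at hn
    rw [Finset.mem_filter, Finset.mem_Ico] at hn
    obtain ⟨⟨hn1, hn2⟩, hn3⟩ := hn
    have hlog : ∀ i : ℕ, (ch M t g ω n i : ℝ) ≤ 2 ^ i * n +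
        C1 * (2 ^ i - (2 : ℝ) ^ (t * (i : ℝ))) * (2 : ℝ) ^ (t * (m : ℝ)) →
        Nat.log 2 (ch M t g ω n i) = m + i := by
      intro i hi
      have h2m : (0 : ℝ) < 2 ^ m := by positivity
      have hx : (0 : ℝ) < (2 : ℝ) ^ (-((1 - t) / 2) * (m : ℝ)) := by positivity
      have h1 : (n : ℝ) + C1 * (2 : ℝ) ^ (t * (m : ℝ)) < 2 ^ (m + 1) := by
        have e : (2 : ℝ) ^ (m + 1) * (1 - (2 : ℝ) ^ (-((1 - t) / 2) * (m : ℝ))) =
          2 ^ (m + 1) - 2 * (2 ^ m * (2 : ℝ) ^ (-((1 - t) / 2) * (m : ℝ))) := by ring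
        rw [e] at hn3
        have := mul_pos h2m hx
        linarith
      have h2 : (ch M t g ω n i : ℝ) < 2 ^ (m + i + 1) := by
        have h2i : (0 : ℝ) < 2 ^ i := by positivity
        have hti : (0 : ℝ) < (2 : ℝ) ^ (t * (i : ℝ)) := by positivity
        calc (ch M t g ω n i : ℝ) ≤ 2 ^ i * n + C1 * (2 ^ i - (2 : ℝ) ^ (t * (i : ℝ))) * (2 : ℝ) ^ (t * (m : ℝ)) := hi
          _ ≤ 2 ^ i * n + C1 * 2 ^ i * (2 : ℝ) ^ (t * (m : ℝ)) := by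
              gcongr
              linarith
          _ = 2 ^ i * (n + C1 * (2 : ℝ) ^ (t * (m : ℝ))) := by ring
          _ < 2 ^ i * 2 ^ (m + 1) := by gcongr
          _ = 2 ^ (m + i + 1) := by ring
      have h3 : ch M t g ω n i < 2 ^ (m + i + 1) := by exact_mod_cast h2
      have h4 : 2 ^ (m + i) ≤ ch M t g ω n i := by
        calc 2 ^ (m + i) = 2 ^ i * 2 ^ m := by ring
          _ ≤ 2 ^ i * n := Nat.mul_le_mul_left _ hn1
          _ ≤ _ := ch_ge M t g ω n i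
      exact Nat.log_eq_of_pow_le_of_lt_pow h4 h3
    intro i
    induction i with
    | zero =>
      have h0 : (ch M t g ω n 0 : ℝ) ≤ 2 ^ 0 * n +
          C1 * (2 ^ 0 - (2 : ℝ) ^ (t * ((0 : ℕ) : ℝ))) * (2 : ℝ) ^ (t * (m : ℝ)) := by
        rw [ch_zero]
        simp
      exact ⟨hlog 0 h0, h0⟩
    | succ i ih =>
      obtain ⟨ih1, ih2⟩ := ih
      have hs := Geo_step h hω hnp.1 ih1
      have h1 : (ch M t g ω n (i + 1) : ℝ) ≤ 2 ^ (i + 1) * n +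
          C1 * (2 ^ (i + 1) - (2 : ℝ) ^ (t * ((i + 1 : ℕ) : ℝ))) * (2 : ℝ) ^ (t * (m : ℝ)) := by
        refine hs.trans ?_
        have e1 : (2 : ℝ) ^ (t * ((i + 1 : ℕ) : ℝ)) = (2 : ℝ) ^ (t * (i : ℝ)) * (2 : ℝ) ^ t := by
          rw [← Real.rpow_add (by norm_num)]
          congr 1
          push_cast
          ring
        rw [e1, ← hC1e]
        calc 2 * (ch M t g ω n i : ℝ) + C1 * (2 - (2 : ℝ) ^ t) * ((2 : ℝ) ^ (t * (m : ℝ)) * (2 : ℝ) ^ (t * (i : ℝ)))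
            ≤ 2 * (2 ^ i * n + C1 * (2 ^ i - (2 : ℝ) ^ (t * (i : ℝ))) * (2 : ℝ) ^ (t * (m : ℝ))) +
              C1 * (2 - (2 : ℝ) ^ t) * ((2 : ℝ) ^ (t * (m : ℝ)) * (2 : ℝ) ^ (t * (i : ℝ))) := by linarith
          _ = _ := by ring
      exact ⟨hlog (i + 1) h1, h1⟩
  intro n hn
  refine ⟨fun i => ⟨(key n hn i).1, ?_⟩, ?_⟩
  · have hnp := Inn_pos hn
    have hn' := hn
    unfold Inn at hn'
    rw [Finset.mem_filter, Finset.mem_Ico] at hn'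
    obtain ⟨⟨hn1, -⟩, -⟩ := hn'
    have hn1' : (2 : ℝ) ^ m ≤ n := by exact_mod_cast hn1
    have hti : (0 : ℝ) < (2 : ℝ) ^ (t * (i : ℝ)) := by positivity
    have hx : (0 : ℝ) < (2 : ℝ) ^ (-((1 - t) / 2) * (m : ℝ)) := by positivity
    calc (ch M t g ω n i : ℝ) ≤ 2 ^ i * n + C1 * (2 ^ i - (2 : ℝ) ^ (t * (i : ℝ))) * (2 : ℝ) ^ (t * (m : ℝ)) :=
          (key n hn i).2
      _ ≤ 2 ^ i * n + C1 * 2 ^ i * (2 : ℝ) ^ (t * (m : ℝ)) := by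
          gcongr
          linarith
      _ = 2 ^ i * n + 2 ^ i * (C1 * (2 : ℝ) ^ (t * (m : ℝ))) := by ring
      _ ≤ 2 ^ i * n + 2 ^ i * (2 ^ m * (2 : ℝ) ^ (-((1 - t) / 2) * (m : ℝ))) := by gcongr
      _ ≤ 2 ^ i * n + 2 ^ i * (n * (2 : ℝ) ^ (-((1 - t) / 2) * (m : ℝ))) := by gcongr
      _ = _ := by ring
  · intro n' hn' hnn i
    induction i with
    | zero =>
      rw [ch_zero, ch_zero]
      omega
    | succ i ih =>
      have l1 := (key n hn i).1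
      have l2 := (key n' hn' i).1
      have hle : ch M t g ω n i ≤ ch M t g ω n' i := by omega
      have h1 := TT_mono h hle (l1.trans l2.symm) (hω (m + i))
      have e1 : ch M t g ω n (i + 1) = TT M t g (ch M t g ω n i) (ω (m + i)) := by
        rw [ch_succ]
        unfold T
        rw [l1]
      have e2 : ch M t g ω n' (i + 1) = TT M t g (ch M t g ω n' i) (ω (m + i)) := by
        rw [ch_succ]
        unfold T
        rw [l2]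
      rw [e1, e2]
      have h3 : 2 ^ (i + 1) * (n' - n) = 2 * (2 ^ i * (n' - n)) := by ring
      rw [h3]
      omega

end RAF
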