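import Pool.Agent.RAF.Defs

/-!
# RAF.KS1: smooth sums with the principal character

PROOF. `(1 : DirichletCharacter ℂ M) n = 1` for `(n, M) = 1`, `0` otherwise, and for `n ≥ 1`: `1[(n,M)=1] = ∑_{d ∣ gcd(n,M)} μ(d)`, so
(absolutely convergent, `ASI.KS_triv`) `ASC.KS 1 j w τ = ∑_{d ∣ M} μ(d) ∑'_e f(d e)`, `f n = (log n)^j exp(-(log n-w)²/8) np n τ`. With `log (d e) = log d + log e`,
`np (d e) τ = np d τ np e τ` and `j ≤ 1`: `∑'_e f(d e) = np d τ (KS j (w - log d) τ + j log d KS 0 (w - log d) τ)` (`ASI.KS`; the terms `e = 0`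
vanish). `ASI.KS_bound` with `w - log d` (valid for all real `w`): `|w - log d| ≤ |w| + log M`, `exp(-(w - log d)) = d exp(-w) ≤ M exp(-w)`. Sum over
the divisors of `M`: the constant depends on `M` only.
-/

namespace RAF

open ArithmeticFunction

private theorem KS1_chi (M : ℕ) [NeZero M] (n : ℕ) :
    (1 : DirichletCharacter ℂ M) (n : ZMod M) =
      ∑ d ∈ M.divisors, (if d ∣ n then ((moebius d : ℤ) : ℂ) else 0) := by
  have hM : M ≠ 0 := NeZero.ne M
  have hg : (Nat.gcd n M) ≠ 0 := Nat.gcd_ne_zero_right hM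
  have h1 : M.divisors.filter (fun d => d ∣ n) = (Nat.gcd n M).divisors := by
    ext d
    simp only [Finset.mem_filter, Nat.mem_divisors]
    constructor
    · rintro ⟨⟨h1, _⟩, h2⟩
      exact ⟨Nat.dvd_gcd h2 h1, hg⟩
    · rintro ⟨h1, _⟩
      exact ⟨⟨h1.trans (Nat.gcd_dvd_right _ _), hM⟩, h1.trans (Nat.gcd_dvd_left _ _)⟩
  rw [← Finset.sum_filter, h1]
  have h2 : ∑ d ∈ (Nat.gcd n M).divisors, ((moebius d : ℤ) : ℂ) =
      if Nat.gcd n M = 1 then 1 else 0 := by
    have h3 : ∑ d ∈ (Nat.gcd n M).divisors, (moebius d : ℤ) =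
        (1 : ArithmeticFunction ℤ) (Nat.gcd n M) := by
      rw [← moebius_mul_coe_zeta, coe_mul_zeta_apply]
    rw [← Int.cast_sum, h3, one_apply]
    split_ifs <;> simp
  rw [h2]
  by_cases h : Nat.gcd n M = 1
  · rw [if_pos h]
    exact MulChar.one_apply ((ZMod.isUnit_iff_coprime n M).mpr h)
  · rw [if_neg h]
    exact MulChar.map_nonunit _ (fun h' => h ((ZMod.isUnit_iff_coprime n M).mp h'))

/-- the general term -/
private noncomputable def KS1_f (j : ℕ) (w τ : ℝ) (n : ℕ) : ℂ :=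
  ((Real.log n ^ j * Real.exp (-(Real.log n - w) ^ 2 / 8) : ℝ) : ℂ) * ASI.np n τ

private theorem KS1_np0 (τ : ℝ) : ASI.np 0 τ = 0 := by
  unfold ASI.np
  have h0 : (-(1 + (τ : ℂ) * Complex.I)) ≠ 0 := by
    intro h0
    have := congrArg Complex.re h0
    simp at this
  simp only [Nat.cast_zero]
  rw [Complex.zero_cpow h0]

private theorem KS1_npmul (m n : ℕ) (τ : ℝ) : ASI.np (m * n) τ = ASI.np m τ * ASI.np n τ := by
  unfold ASI.np
  push_cast
  rw [Complex.natCast_mul_natCast_cpow]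

private theorem KS1_npn (n : ℕ) (τ : ℝ) : ‖ASI.np n τ‖ ≤ 1 := by
  rcases Nat.eq_zero_or_pos n with h | h
  · subst h
    rw [KS1_np0, norm_zero]
    exact zero_le_one
  · unfold ASI.np
    rw [Complex.norm_natCast_cpow_of_pos h]
    have h1 : (-(1 + (τ : ℂ) * Complex.I)).re = -1 := by simp
    rw [h1, Real.rpow_neg_one]
    exact inv_le_one_of_one_le₀ (by exact_mod_cast h)

private theorem KS1_fmul {j : ℕ} (hj : j ≤ 1) (w τ : ℝ) {d : ℕ} (hd : 1 ≤ d) (e : ℕ) :
    KS1_f j w τ (d * e) = ASI.np d τ * (KS1_f j (w - Real.log d) τ e +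
      ((j * Real.log d : ℝ) : ℂ) * KS1_f 0 (w - Real.log d) τ e) := by
  unfold KS1_f
  rcases Nat.eq_zero_or_pos e with h | h
  · subst h
    rw [mul_zero, KS1_np0]
    ring
  · have hlog : Real.log ((d * e : ℕ) : ℝ) = Real.log d + Real.log e := by
      push_cast
      exact Real.log_mul (by positivity) (by positivity)
    have h2 : Real.exp (-(Real.log ((d * e : ℕ) : ℝ) - w) ^ 2 / 8) =
        Real.exp (-(Real.log e - (w - Real.log d)) ^ 2 / 8) := by
      rw [hlog]
      congr 1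
      ring
    rw [h2, KS1_npmul, hlog]
    interval_cases j
    · push_cast
      ring
    · push_cast
      ring

private theorem KS1_sum {j : ℕ} (hj : j ≤ 1) (w τ : ℝ) : Summable (KS1_f j w τ) := by
  obtain ⟨C, -, h⟩ := ASI.KS_triv
  exact (h j w τ hj).1.of_norm

private theorem KS1_tsum {j : ℕ} (hj : j ≤ 1) (w τ : ℝ) {d : ℕ} (hd : 1 ≤ d) :
    ∑' n, (if d ∣ n then KS1_f j w τ n else 0) = ASI.np d τ * (ASI.KS j (w - Real.log d) τ +
      ((j * Real.log d : ℝ) : ℂ) * ASI.KS 0 (w - Real.log d) τ) := by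
  have hinj : Function.Injective (fun e : ℕ => d * e) := by
    intro a b h
    exact Nat.eq_of_mul_eq_mul_left hd h
  have hsupp : Function.support (fun n => if d ∣ n then KS1_f j w τ n else 0) ⊆
      Set.range (fun e : ℕ => d * e) := by
    intro n hn
    rw [Function.mem_support] at hn
    by_cases h : d ∣ n
    · obtain ⟨e, rfl⟩ := h
      exact ⟨e, rfl⟩
    · rw [if_neg h] at hn
      exact absurd rfl hn
  rw [← hinj.tsum_eq hsupp]
  have h1 : ∀ e : ℕ, (if d ∣ d * e then KS1_f j w τ (d * e) else 0) =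
      ASI.np d τ * (KS1_f j (w - Real.log d) τ e +
      ((j * Real.log d : ℝ) : ℂ) * KS1_f 0 (w - Real.log d) τ e) := by
    intro e
    rw [if_pos (Dvd.intro _ rfl), KS1_fmul hj w τ hd e]
  rw [tsum_congr h1, tsum_mul_left, (KS1_sum hj _ τ).tsum_add
    ((KS1_sum (Nat.zero_le 1) _ τ).mul_left _), tsum_mul_left]
  rfl

private theorem KS1_eq (M : ℕ) [NeZero M] {j : ℕ} (hj : j ≤ 1) (w τ : ℝ) :
    ASC.KS (1 : DirichletCharacter ℂ M) j w τ = ∑ d ∈ M.divisors, ((moebius d : ℤ) : ℂ) *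
      (ASI.np d τ * (ASI.KS j (w - Real.log d) τ +
      ((j * Real.log d : ℝ) : ℂ) * ASI.KS 0 (w - Real.log d) τ)) := by
  have h1 : ∀ n : ℕ, ((Real.log n ^ j * Real.exp (-(Real.log n - w) ^ 2 / 8) : ℝ) : ℂ) *
      ASC.nc (1 : DirichletCharacter ℂ M) n τ =
      ∑ d ∈ M.divisors, ((moebius d : ℤ) : ℂ) * (if d ∣ n then KS1_f j w τ n else 0) := by
    intro n
    have h2 : ASC.nc (1 : DirichletCharacter ℂ M) n τ =
        (1 : DirichletCharacter ℂ M) (n : ZMod M) * ASI.np n τ := rfl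
    have h3 : ∀ d ∈ M.divisors, ((moebius d : ℤ) : ℂ) * (if d ∣ n then KS1_f j w τ n else 0) =
        (if d ∣ n then ((moebius d : ℤ) : ℂ) else 0) * KS1_f j w τ n := by
      intro d _
      split_ifs <;> simp
    rw [h2, KS1_chi, Finset.sum_congr rfl h3, ← Finset.sum_mul]
    unfold KS1_f
    ring
  unfold ASC.KS
  rw [tsum_congr h1, Summable.tsum_finsetSum]
  · refine Finset.sum_congr rfl fun d hd => ?_
    rw [tsum_mul_left, KS1_tsum hj w τ (Nat.pos_of_mem_divisors hd)]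
  · intro d _
    refine Summable.mul_left _ ?_
    refine Summable.of_norm_bounded (g := fun n => ‖KS1_f j w τ n‖) (KS1_sum hj w τ).norm ?_
    intro n
    split_ifs
    · exact le_rfl
    · rw [norm_zero]
      exact norm_nonneg _

theorem KS_one (M : ℕ) [NeZero M] : ∃ C : ℝ, 1 ≤ C ∧ ∀ (j : ℕ) (w τ : ℝ), j ≤ 1 →
    ‖ASC.KS (1 : DirichletCharacter ℂ M) j w τ‖ ≤
      C * (1 + |w|) * (1 + |τ|) * (Real.exp (-τ ^ 2) + Real.exp (-w)) := by
  obtain ⟨C, hC, hb⟩ := ASI.KS_bound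
  have hMpos : 0 < M := NeZero.pos M
  have hM1 : (1 : ℝ) ≤ M := by exact_mod_cast hMpos
  have hlM : 0 ≤ Real.log M := Real.log_nonneg hM1
  set D : ℝ := (M.divisors.card : ℝ) with hD
  have hD0 : 0 ≤ D := Nat.cast_nonneg _
  set B : ℝ := (1 + Real.log M) * (C * (1 + Real.log M) * M) with hB
  have hB0 : 0 ≤ B := by positivity
  refine ⟨1 + D * B, by nlinarith [mul_nonneg hD0 hB0], fun j w τ hj => ?_⟩
  have hw := abs_nonneg w
  have hτ := abs_nonneg τ
  have he1 := Real.exp_pos (-τ ^ 2)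
  have he2 := Real.exp_pos (-w)
  set R : ℝ := (1 + |w|) * (1 + |τ|) * (Real.exp (-τ ^ 2) + Real.exp (-w)) with hR
  have hR0 : 0 ≤ R := by positivity
  -- one shifted sum
  have hs : ∀ (i : ℕ), i ≤ 1 → ∀ d ∈ M.divisors, ‖ASI.KS i (w - Real.log d) τ‖ ≤
      C * (1 + Real.log M) * M * R := by
    intro i hi d hd
    have hd1 : 1 ≤ d := Nat.pos_of_mem_divisors hd
    have hdM : d ≤ M := Nat.divisor_le hd
    have hd1' : (1 : ℝ) ≤ d := by exact_mod_cast hd1
    have hdM' : (d : ℝ) ≤ M := by exact_mod_cast hdM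
    have hl0 : 0 ≤ Real.log d := Real.log_nonneg hd1'
    have hl1 : Real.log d ≤ Real.log M := Real.log_le_log (by linarith) hdM'
    have h1 : |w - Real.log d| ≤ |w| + Real.log M := by
      have := abs_sub w (Real.log d)
      rw [abs_of_nonneg hl0] at this
      linarith
    have h2 : Real.exp (-(w - Real.log d)) ≤ M * Real.exp (-w) := by
      have h3 : -(w - Real.log d) = Real.log d + -w := by ring
      rw [h3, Real.exp_add, Real.exp_log (by linarith)]
      exact mul_le_mul_of_nonneg_right hdM' he2.le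
    have h4 : 1 + |w - Real.log d| ≤ (1 + Real.log M) * (1 + |w|) := by
      nlinarith [mul_nonneg hlM hw]
    have h5 : Real.exp (-τ ^ 2) + Real.exp (-(w - Real.log d)) ≤
        M * (Real.exp (-τ ^ 2) + Real.exp (-w)) := by
      nlinarith [mul_nonneg (sub_nonneg.2 hM1) he1.le]
    refine (hb i (w - Real.log d) τ hi).trans ?_
    calc C * (1 + |w - Real.log d|) * (1 + |τ|) *
          (Real.exp (-τ ^ 2) + Real.exp (-(w - Real.log d)))
        ≤ C * ((1 + Real.log M) * (1 + |w|)) * (1 + |τ|) *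
          (M * (Real.exp (-τ ^ 2) + Real.exp (-w))) := by
          gcongr
      _ = C * (1 + Real.log M) * M * R := by
          rw [hR]
          ring
  rw [KS1_eq M hj w τ]
  have ht : ∀ d ∈ M.divisors, ‖((moebius d : ℤ) : ℂ) *
      (ASI.np d τ * (ASI.KS j (w - Real.log d) τ +
      ((j * Real.log d : ℝ) : ℂ) * ASI.KS 0 (w - Real.log d) τ))‖ ≤ B * R := by
    intro d hd
    have hd1 : 1 ≤ d := Nat.pos_of_mem_divisors hd
    have hdM : d ≤ M := Nat.divisor_le hd
    have hd1' : (1 : ℝ) ≤ d := by exact_mod_cast hd1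
    have hdM' : (d : ℝ) ≤ M := by exact_mod_cast hdM
    have hl0 : 0 ≤ Real.log d := Real.log_nonneg hd1'
    have hl1 : Real.log d ≤ Real.log M := Real.log_le_log (by linarith) hdM'
    have h1 : ‖((moebius d : ℤ) : ℂ)‖ ≤ 1 := by
      rw [Complex.norm_intCast]
      have := @abs_moebius_le_one d
      exact_mod_cast this
    have hj' : (j : ℝ) ≤ 1 := by exact_mod_cast hj
    have h2 : ‖((j * Real.log d : ℝ) : ℂ)‖ ≤ Real.log M := by
      rw [Complex.norm_real, Real.norm_eq_abs, abs_of_nonneg (by positivity)]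
      calc (j : ℝ) * Real.log d ≤ 1 * Real.log M :=
            mul_le_mul hj' hl1 hl0 zero_le_one
        _ = Real.log M := one_mul _
    have h3 := hs j hj d hd
    have h4 := hs 0 (Nat.zero_le 1) d hd
    have hQ0 : 0 ≤ C * (1 + Real.log M) * M * R := by positivity
    have h5 : ‖ASI.KS j (w - Real.log d) τ +
        ((j * Real.log d : ℝ) : ℂ) * ASI.KS 0 (w - Real.log d) τ‖ ≤ B * R := by
      refine (norm_add_le _ _).trans ?_
      rw [norm_mul]
      have h6 : ‖((j * Real.log d : ℝ) : ℂ)‖ * ‖ASI.KS 0 (w - Real.log d) τ‖ ≤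
          Real.log M * (C * (1 + Real.log M) * M * R) :=
        mul_le_mul h2 h4 (norm_nonneg _) hlM
      calc _ ≤ C * (1 + Real.log M) * M * R + Real.log M * (C * (1 + Real.log M) * M * R) :=
            add_le_add h3 h6
        _ = B * R := by
            rw [hB]
            ring
    have hBR : 0 ≤ B * R := mul_nonneg hB0 hR0
    rw [norm_mul, norm_mul]
    calc ‖((moebius d : ℤ) : ℂ)‖ * (‖ASI.np d τ‖ * ‖ASI.KS j (w - Real.log d) τ +
          ((j * Real.log d : ℝ) : ℂ) * ASI.KS 0 (w - Real.log d) τ‖)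
        ≤ 1 * (1 * (B * R)) := by
          refine mul_le_mul h1 (mul_le_mul (KS1_npn d τ) h5 (norm_nonneg _) zero_le_one)
            (by positivity) zero_le_one
      _ = B * R := by ring
  refine (norm_sum_le _ _).trans ?_
  refine (Finset.sum_le_card_nsmul _ _ _ ht).trans ?_
  rw [nsmul_eq_mul, ← hD]
  calc D * (B * R) ≤ (1 + D * B) * R := by nlinarith
    _ = (1 + D * B) * (1 + |w|) * (1 + |τ|) * (Real.exp (-τ ^ 2) + Real.exp (-w)) := by
        rw [hR]
        ring

end RAF
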