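import Pool.Agent.RAF.Basic
import Pool.Agent.RLC.Resamp

/-!
# RAF.Res: resampling

PROOF. As `Pool/Agent/RLC/Resamp.lean` (its lemmas are private; copy, with `ℝ × ℝ` in place of `ℝ`). `first_gen`: `resample` at `b = log₂ n`:
`F (T (update ω b y) n) (update ω b y) = F (TT n y) ω` (`T M t g ω n = TT M t g n (ω (log₂ n))`, `TT_log`, `hF2`), then exchange the integrals (the function
`(y, ω) ↦ F (TT n y) ω` is measurable because `TT n` is a measurable function to `ℕ`: `measurable_from_prod_countable_left` or similar, composed with `TT_meas`).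
-/

namespace RAF

open MeasureTheory

private theorem Res_upd_meas (j : ℕ) :
    Measurable fun q : (ℕ → ℝ × ℝ) × (ℝ × ℝ) => Function.update q.1 j q.2 := by
  rw [measurable_pi_iff]
  intro i
  by_cases h : i = j
  · subst h
    simp only [Function.update_self]
    exact measurable_snd
  · simp only [Function.update_of_ne h]
    exact (measurable_pi_apply i).comp measurable_fst

private theorem Res_map (j : ℕ) :
    (Pm.prod uu).map (fun q : (ℕ → ℝ × ℝ) × (ℝ × ℝ) => Function.update q.1 j q.2) = Pm := by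
  unfold Pm
  refine Measure.eq_infinitePi (fun _ => uu) fun s t ht => ?_
  have hm : MeasurableSet (Set.pi (s : Set ℕ) t) :=
    MeasurableSet.pi s.countable_toSet fun i _ => ht i
  rw [Measure.map_apply (Res_upd_meas j) hm]
  have hpre : (fun q : (ℕ → ℝ × ℝ) × (ℝ × ℝ) => Function.update q.1 j q.2) ⁻¹' (Set.pi (s : Set ℕ) t) =
      (Set.pi ((s.erase j : Finset ℕ) : Set ℕ) t) ×ˢ (if j ∈ s then t j else Set.univ) := by
    ext ⟨a, y⟩
    simp only [Set.mem_preimage, Set.mem_pi, Finset.mem_coe, Set.mem_prod, Finset.mem_erase]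
    constructor
    · intro h
      refine ⟨fun i hi => ?_, ?_⟩
      · have h1 := h i hi.2
        rw [Function.update_of_ne hi.1] at h1
        exact h1
      · by_cases hj : j ∈ s
        · rw [if_pos hj]
          have h1 := h j hj
          rw [Function.update_self] at h1
          exact h1
        · rw [if_neg hj]
          exact Set.mem_univ _
    · rintro ⟨h1, h2⟩ i hi
      by_cases hij : i = j
      · subst hij
        rw [Function.update_self]
        rw [if_pos hi] at h2
        exact h2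
      · rw [Function.update_of_ne hij]
        exact h1 i ⟨hij, hi⟩
  rw [hpre, Measure.prod_prod, Measure.infinitePi_pi (fun _ => uu) fun i _ => ht i]
  by_cases hj : j ∈ s
  · rw [if_pos hj, mul_comm, Finset.mul_prod_erase s (fun i => uu (t i)) hj]
  · rw [if_neg hj, measure_univ, mul_one, Finset.erase_eq_of_notMem hj]

theorem uu_ae : ∀ᵐ y ∂uu, y ∈ Set.Icc (0 : ℝ) 1 ×ˢ Set.Icc (0 : ℝ) 1 := by
  unfold uu
  exact ae_restrict_mem (measurableSet_Icc.prod measurableSet_Icc)

theorem ae_mem : ∀ᵐ ω ∂Pm, ∀ i, ω i ∈ Set.Icc (0 : ℝ) 1 ×ˢ Set.Icc (0 : ℝ) 1 := by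
  rw [ae_all_iff]
  intro n
  have h5 := uu_ae
  have h6 := (measurePreserving_eval_infinitePi (fun _ : ℕ => uu) n).map_eq
  rw [← h6] at h5
  exact ae_of_ae_map (measurable_pi_apply n).aemeasurable h5

theorem resample (b : ℕ) (f : (ℕ → ℝ × ℝ) → ENNReal) (hf : Measurable f) :
    ∫⁻ ω, f ω ∂Pm = ∫⁻ ω, ∫⁻ y, f (Function.update ω b y) ∂uu ∂Pm := by
  have h1 := congrArg (fun ν => ∫⁻ a, f a ∂ν) (Res_map b)
  rw [lintegral_map hf (Res_upd_meas b)] at h1
  rw [← h1]
  exact lintegral_prod _ (hf.comp (Res_upd_meas b)).aemeasurable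

theorem first_gen (M : ℕ) (t : ℝ) (g : ℕ → ℝ) {n : ℕ} (hn : 0 < n) (F : ℕ → (ℕ → ℝ × ℝ) → ENNReal)
    (hF : ∀ q, Measurable (F q))
    (hF2 : ∀ (q m : ℕ) (y : ℝ × ℝ) (ω : ℕ → ℝ × ℝ), m < Nat.log 2 q → F q (Function.update ω m y) = F q ω) :
    ∫⁻ ω, F (T M t g ω n) ω ∂Pm = ∫⁻ y, ∫⁻ ω, F (TT M t g n y) ω ∂Pm ∂uu := by
  have hH : Measurable fun p : ℕ × (ℕ → ℝ × ℝ) => F p.1 p.2 :=
    measurable_from_prod_countable_right fun q => hF q
  have hT : Measurable fun ω : ℕ → ℝ × ℝ => T M t g ω n :=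
    (TT_meas M t g n).comp (measurable_pi_apply (Nat.log 2 n))
  have hG : Measurable fun ω : ℕ → ℝ × ℝ => F (T M t g ω n) ω :=
    hH.comp (hT.prodMk measurable_id)
  rw [resample (Nat.log 2 n) _ hG]
  have h1 : ∀ (ω : ℕ → ℝ × ℝ) (y : ℝ × ℝ),
      F (T M t g (Function.update ω (Nat.log 2 n) y) n) (Function.update ω (Nat.log 2 n) y) =
        F (TT M t g n y) ω := by
    intro ω y
    have h2 : T M t g (Function.update ω (Nat.log 2 n) y) n = TT M t g n y := by
      unfold T
      rw [Function.update_self]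
    rw [h2]
    exact hF2 _ _ _ _ (TT_log M t g hn y)
  simp only [h1]
  refine lintegral_lintegral_swap ?_
  have h3 : Measurable fun p : (ℕ → ℝ × ℝ) × (ℝ × ℝ) => F (TT M t g n p.2) p.1 :=
    hH.comp (((TT_meas M t g n).comp measurable_snd).prodMk measurable_fst)
  exact h3.aemeasurable

end RAF
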