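import Pool.Agent.RAF.BT
import Pool.Agent.RAF.Res

/-!
# RAF.One: the distribution of one step

PROOF. `uu_point`: for fixed `u` the set of `v ∈ [0,1]` with `TT q (u,v) = z` is contained in an interval of length `M/2^(tm)`, `m = log₂ q` (`⌊arg/M⌋` is a given
number), Fubini (`uu = (volume.restrict (Icc 0 1)).prod (volume.restrict (Icc 0 1))`, `Measure.prod_restrict`).
`one_step`: the values `z = TT q y` (for almost all `y`) are in `(2q, 2q + H]`, `H = ⌈(4+3K) 2^(tm)⌉₊` (`TT_ge`, `TT_le`), so the integral is at most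
`M 2^(-tm) ∑_{z ∈ Ioc (2q) (2q+H)} th z`, and `bt` with exponent `t/2` (`(2q)^(t/2) ≤ 2^((m+2)t/2) ≤ 2^(tm) ≤ H` for `m ≥ 2`). For the finitely many `q` with `H < x0` or `m < 2` use
`th z ≤ log z ≤ log(2q+H)`, bounded.
`dens_step`: `∫⁻ F (TT q y) = ∑' z, F z · uu {TT q = z}` (countable partition). Exchange the sums: it is enough that
`∑_q th q · uu {TT q = z} ≤ C` for all `z` (the terms with `q > 0`), and that the terms with `log₂ z < m + 1` vanish (`TT_log`). For a term `≠ 0`: `2q + 1 ≤ z ≤ 2q + (4+3K) 2^(t m')`, `m' = log₂ q`, so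
`z ≤ (8+3K) 2^m'`, `2^(-t m') ≤ (8+3K) z^(-t)`, `2^(t m') ≤ q^t ≤ z^t`, and `q ∈ [(z - (4+3K) z^t)/2, z/2)`: an interval of length `≤ (2+2K) z^t`. With `uu_point`: the sum is at most
`M (8+3K) z^(-t) ∑ th q` over this interval, and `bt` (enlarge the interval to the length `⌈(2+2K) z^t⌉₊ + 1`; trivial estimates for bounded `z`).
-/

namespace RAF

open MeasureTheory

variable {M : ℕ} {t K : ℝ} {g : ℕ → ℝ}

private theorem One_prod :
    uu = (volume.restrict (Set.Icc (0 : ℝ) 1)).prod (volume.restrict (Set.Icc (0 : ℝ) 1)) := by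
  unfold uu
  rw [Measure.prod_restrict, Measure.volume_eq_prod]

private theorem One_slice (h : Adm M t K g) (q z : ℕ) {u : ℝ} (hu : u ∈ Set.Icc (0 : ℝ) 1) :
    (volume.restrict (Set.Icc (0 : ℝ) 1)) (Prod.mk u ⁻¹' {y : ℝ × ℝ | TT M t g q y = z}) ≤
      ENNReal.ofReal (M * (2 : ℝ) ^ (-(t * (Nat.log 2 q : ℝ)))) := by
  have hM : (0 : ℝ) < M := by exact_mod_cast h.hM
  rw [Measure.restrict_apply' measurableSet_Icc]
  rcases Set.eq_empty_or_nonempty (Prod.mk u ⁻¹' {y : ℝ × ℝ | TT M t g q y = z} ∩ Set.Icc (0 : ℝ) 1)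
    with he | ⟨v0, hv0, hv0'⟩
  · rw [he]
    simp
  · have ha0 : 0 < (2 : ℝ) ^ (t * (Nat.log 2 q : ℝ)) := by positivity
    set a := (2 : ℝ) ^ (t * (Nat.log 2 q : ℝ)) with ha
    set A := (2 : ℝ) ^ ((t - 1) * (Nat.log 2 q : ℝ)) * u * q + g q with hA
    have harg : ∀ v, arg t g q (u, v) = A + a * v := by
      intro v
      unfold arg
      simp only [hA, ha]
      ring
    set k := ⌊arg t g q (u, v0) / M⌋₊ with hk
    have hsub : Prod.mk u ⁻¹' {y : ℝ × ℝ | TT M t g q y = z} ∩ Set.Icc (0 : ℝ) 1 ⊆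
        Set.Ico ((k * M - A) / a) (((k + 1) * M - A) / a) := by
      rintro v ⟨hv, hv'⟩
      have h1 : TT M t g q (u, v) = z := hv
      have h2 : TT M t g q (u, v0) = z := hv0
      unfold TT at h1 h2
      rw [← hk] at h2
      have h3 : ⌊arg t g q (u, v) / M⌋₊ = k := by
        have h8 : M * ⌊arg t g q (u, v) / M⌋₊ = M * k := by omega
        exact Nat.eq_of_mul_eq_mul_left h.hM h8
      have h4 : 0 ≤ arg t g q (u, v) / M := div_nonneg (arg_nonneg h q ⟨hu, hv'⟩) hM.le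
      have h5 := (Nat.floor_eq_iff h4).mp h3
      rw [harg] at h5
      obtain ⟨h6, h7⟩ := h5
      rw [le_div_iff₀ hM] at h6
      rw [div_lt_iff₀ hM] at h7
      constructor
      · rw [div_le_iff₀ ha0]
        linarith
      · rw [lt_div_iff₀ ha0]
        linarith
    refine (measure_mono hsub).trans ?_
    rw [Real.volume_Ico]
    apply ENNReal.ofReal_le_ofReal
    rw [Real.rpow_neg (by norm_num), ← ha]
    apply le_of_eq
    field_simp
    ring

theorem uu_point (h : Adm M t K g) (q z : ℕ) :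
    uu {y | TT M t g q y = z} ≤ ENNReal.ofReal (M * (2 : ℝ) ^ (-(t * (Nat.log 2 q : ℝ)))) := by
  have hS : MeasurableSet {y : ℝ × ℝ | TT M t g q y = z} :=
    (TT_meas M t g q) (measurableSet_singleton z)
  rw [One_prod, Measure.prod_apply hS]
  calc ∫⁻ u, (volume.restrict (Set.Icc (0 : ℝ) 1)) (Prod.mk u ⁻¹' {y : ℝ × ℝ | TT M t g q y = z})
        ∂(volume.restrict (Set.Icc (0 : ℝ) 1))
      ≤ ∫⁻ _u, ENNReal.ofReal (M * (2 : ℝ) ^ (-(t * (Nat.log 2 q : ℝ))))
        ∂(volume.restrict (Set.Icc (0 : ℝ) 1)) := by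
        refine setLIntegral_mono' measurableSet_Icc fun u hu => ?_
        exact One_slice h q z hu
    _ = ENNReal.ofReal (M * (2 : ℝ) ^ (-(t * (Nat.log 2 q : ℝ)))) := by
        rw [lintegral_const]
        simp

private theorem One_q_lt (q : ℕ) (hq : 0 < q) :
    (2 : ℝ) ^ (Nat.log 2 q : ℝ) ≤ q ∧ (q : ℝ) < 2 * (2 : ℝ) ^ (Nat.log 2 q : ℝ) := by
  have h1 : 2 ^ Nat.log 2 q ≤ q := Nat.pow_log_le_self 2 hq.ne'
  have h2 : q < 2 ^ (Nat.log 2 q + 1) := Nat.lt_pow_succ_log_self (by norm_num) q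
  rw [Real.rpow_natCast]
  constructor
  · exact_mod_cast h1
  · have h3 : (q : ℝ) < (2 : ℝ) ^ (Nat.log 2 q + 1) := by exact_mod_cast h2
    rw [pow_succ] at h3
    linarith

private theorem One_rpow_mul (t : ℝ) (q : ℕ) :
    (2 : ℝ) ^ (t * (Nat.log 2 q : ℝ)) = ((2 : ℝ) ^ (Nat.log 2 q : ℝ)) ^ t := by
  rw [← Real.rpow_mul (by norm_num), mul_comm]

private theorem One_qt (h : Adm M t K g) (q : ℕ) (hq : 0 < q) :
    (2 : ℝ) ^ (t * (Nat.log 2 q : ℝ)) ≤ (q : ℝ) ^ t ∧
      (q : ℝ) ^ t ≤ 2 * (2 : ℝ) ^ (t * (Nat.log 2 q : ℝ)) ∧ 1 ≤ (2 : ℝ) ^ (t * (Nat.log 2 q : ℝ)) := by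
  obtain ⟨h1, h2⟩ := One_q_lt q hq
  have ht0 : 0 < t := by linarith [h.ht]
  rw [One_rpow_mul]
  have h0 : (1 : ℝ) ≤ (2 : ℝ) ^ (Nat.log 2 q : ℝ) :=
    Real.one_le_rpow (by norm_num) (Nat.cast_nonneg _)
  refine ⟨Real.rpow_le_rpow (by positivity) h1 ht0.le, ?_, Real.one_le_rpow h0 ht0.le⟩
  calc (q : ℝ) ^ t ≤ (2 * (2 : ℝ) ^ (Nat.log 2 q : ℝ)) ^ t :=
        Real.rpow_le_rpow (by positivity) h2.le ht0.le
    _ = (2 : ℝ) ^ t * ((2 : ℝ) ^ (Nat.log 2 q : ℝ)) ^ t := by
        rw [Real.mul_rpow (by norm_num) (by positivity)]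
    _ ≤ 2 * ((2 : ℝ) ^ (Nat.log 2 q : ℝ)) ^ t := by
        refine mul_le_mul_of_nonneg_right ?_ (by positivity)
        calc (2 : ℝ) ^ t ≤ (2 : ℝ) ^ (1 : ℝ) :=
              Real.rpow_le_rpow_of_exponent_le (by norm_num) h.ht1.le
          _ = 2 := Real.rpow_one 2

theorem one_step (h : Adm M t K g) : ∃ C : ℝ, 1 ≤ C ∧ ∀ q : ℕ, 0 < q →
    ∫⁻ y, ENNReal.ofReal (RLC.th (TT M t g q y)) ∂uu ≤ ENNReal.ofReal C := by
  have ht0 : 0 < t := by linarith [h.ht]
  have hK := h.hK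
  have hM : (1 : ℝ) ≤ M := by exact_mod_cast h.hM
  obtain ⟨C0, hC0, x0, hbt⟩ := bt ht0
  refine ⟨M * (C0 * (x0 + 5 + 3 * K)), ?_, ?_⟩
  · have h1 : (1 : ℝ) ≤ x0 + 5 + 3 * K := by
      have : (0 : ℝ) ≤ x0 := Nat.cast_nonneg _
      linarith
    have h2 : (1 : ℝ) ≤ C0 * (x0 + 5 + 3 * K) := by nlinarith
    nlinarith
  intro q hq
  obtain ⟨h1, h2, h3⟩ := One_qt h q hq
  have ha0 : 0 < (2 : ℝ) ^ (t * (Nat.log 2 q : ℝ)) := by positivity
  have hmeq : (2 : ℝ) ^ (-(t * (Nat.log 2 q : ℝ))) = ((2 : ℝ) ^ (t * (Nat.log 2 q : ℝ)))⁻¹ :=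
    Real.rpow_neg (by norm_num) _
  set a := (2 : ℝ) ^ (t * (Nat.log 2 q : ℝ)) with ha
  set H : ℕ := ⌈(4 + 3 * K) * a⌉₊ + x0 with hH
  have hH1 : (4 + 3 * K) * a ≤ H := by
    have h4 := Nat.le_ceil ((4 + 3 * K) * a)
    have h5 : (0 : ℝ) ≤ x0 := Nat.cast_nonneg _
    rw [hH]
    push_cast
    linarith
  have hH2 : (H : ℝ) ≤ (x0 + 5 + 3 * K) * a := by
    have h4 := Nat.ceil_lt_add_one (a := (4 + 3 * K) * a) (by positivity)
    have h5 : (0 : ℝ) ≤ x0 := Nat.cast_nonneg _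
    rw [hH]
    push_cast
    nlinarith
  have hsum : ∑ n ∈ Finset.Ioc (2 * q) (2 * q + H), RLC.th n ≤ C0 * H := by
    apply hbt
    · rw [hH]
      omega
    · push_cast
      rw [Real.mul_rpow (by norm_num) (by positivity)]
      have h6 : (2 : ℝ) ^ t ≤ 2 := by
        calc (2 : ℝ) ^ t ≤ (2 : ℝ) ^ (1 : ℝ) :=
              Real.rpow_le_rpow_of_exponent_le (by norm_num) h.ht1.le
          _ = 2 := Real.rpow_one 2
      have h7 : (0 : ℝ) ≤ (q : ℝ) ^ t := by positivity
      nlinarith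
  have hae : ∀ᵐ y ∂uu, ENNReal.ofReal (RLC.th (TT M t g q y)) ≤
      ∑ z ∈ Finset.Ioc (2 * q) (2 * q + H), ENNReal.ofReal (RLC.th z) *
        Set.indicator {y | TT M t g q y = z} (fun _ => (1 : ENNReal)) y := by
    filter_upwards [uu_ae] with y hy
    have h4 := TT_ge M t g q y
    have h5 := TT_le h hq hy
    rw [← ha] at h5
    have h6 : TT M t g q y ∈ Finset.Ioc (2 * q) (2 * q + H) := by
      rw [Finset.mem_Ioc]
      refine ⟨by omega, ?_⟩
      have h7 : (TT M t g q y : ℝ) ≤ ((2 * q + H : ℕ) : ℝ) := by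
        push_cast
        linarith
      exact_mod_cast h7
    refine le_trans (le_of_eq ?_) (Finset.single_le_sum (f := fun z => ENNReal.ofReal (RLC.th z) *
        Set.indicator {y | TT M t g q y = z} (fun _ => (1 : ENNReal)) y) (fun _ _ => zero_le) h6)
    simp
  refine (lintegral_mono_ae hae).trans ?_
  have hmeas : ∀ z : ℕ, MeasurableSet {y : ℝ × ℝ | TT M t g q y = z} := fun z =>
    (TT_meas M t g q) (measurableSet_singleton z)
  rw [lintegral_finsetSum _ (fun z _ => (measurable_const.indicator (hmeas z)).const_mul _)]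
  calc ∑ z ∈ Finset.Ioc (2 * q) (2 * q + H), ∫⁻ y, ENNReal.ofReal (RLC.th z) *
        Set.indicator {y | TT M t g q y = z} (fun _ => (1 : ENNReal)) y ∂uu
      ≤ ∑ z ∈ Finset.Ioc (2 * q) (2 * q + H), ENNReal.ofReal (RLC.th z * (M * a⁻¹)) := by
        refine Finset.sum_le_sum fun z _ => ?_
        rw [lintegral_const_mul _ (measurable_const.indicator (hmeas z)),
          lintegral_indicator (hmeas z), setLIntegral_const, one_mul,
          ENNReal.ofReal_mul (RLC.th_nonneg z)]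
        refine mul_le_mul_right ?_ _
        rw [← hmeq]
        exact uu_point h q z
    _ = ENNReal.ofReal ((∑ z ∈ Finset.Ioc (2 * q) (2 * q + H), RLC.th z) * (M * a⁻¹)) := by
        rw [← ENNReal.ofReal_sum_of_nonneg fun z _ =>
          mul_nonneg (RLC.th_nonneg z) (by positivity), Finset.sum_mul]
    _ ≤ ENNReal.ofReal (M * (C0 * (x0 + 5 + 3 * K))) := by
        apply ENNReal.ofReal_le_ofReal
        calc (∑ z ∈ Finset.Ioc (2 * q) (2 * q + H), RLC.th z) * (M * a⁻¹)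
            ≤ (C0 * ((x0 + 5 + 3 * K) * a)) * (M * a⁻¹) := by
              refine mul_le_mul_of_nonneg_right (hsum.trans ?_) (by positivity)
              exact mul_le_mul_of_nonneg_left hH2 (by linarith)
          _ = M * (C0 * (x0 + 5 + 3 * K)) := by
              field_simp

private theorem One_key (h : Adm M t K g) : ∃ C : ℝ, 1 ≤ C ∧ ∀ z : ℕ, 0 < z →
    ∑' q : ℕ, (if 0 < q then ENNReal.ofReal (RLC.th q) * uu {y | TT M t g q y = z} else 0) ≤
      ENNReal.ofReal C := by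
  have ht0 : 0 < t := by linarith [h.ht]
  have hK := h.hK
  have hM : (1 : ℝ) ≤ M := by exact_mod_cast h.hM
  obtain ⟨C0, hC0, x0, hbt⟩ := bt ht0
  refine ⟨M * ((8 + 3 * K) * (C0 * (x0 + 7 + 3 * K))), ?_, ?_⟩
  · have h1 : (1 : ℝ) ≤ x0 + 7 + 3 * K := by
      have : (0 : ℝ) ≤ x0 := Nat.cast_nonneg _
      linarith
    have h2 : (1 : ℝ) ≤ C0 * (x0 + 7 + 3 * K) := by nlinarith
    have h3 : (1 : ℝ) ≤ (8 + 3 * K) * (C0 * (x0 + 7 + 3 * K)) := by nlinarith
    nlinarith
  intro z hz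
  have hz1 : (1 : ℝ) ≤ z := by exact_mod_cast hz
  have hzt : (1 : ℝ) ≤ (z : ℝ) ^ t := Real.one_le_rpow hz1 ht0.le
  set H1 : ℕ := ⌈(4 + 3 * K) * (z : ℝ) ^ t⌉₊ with hH1
  have hH1a : (4 + 3 * K) * (z : ℝ) ^ t ≤ H1 := Nat.le_ceil _
  have hH1b : (H1 : ℝ) < (4 + 3 * K) * (z : ℝ) ^ t + 1 := Nat.ceil_lt_add_one (by positivity)
  set x : ℕ := (z - H1) / 2 - 1 with hx
  set H : ℕ := H1 + 2 + x0 with hH
  have hHb : (H : ℝ) ≤ (x0 + 7 + 3 * K) * (z : ℝ) ^ t := by
    have h5 : (0 : ℝ) ≤ x0 := Nat.cast_nonneg _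
    rw [hH]
    push_cast
    nlinarith
  have hsum : ∑ n ∈ Finset.Ioc x (x + H), RLC.th n ≤ C0 * H := by
    apply hbt
    · rw [hH]
      omega
    · have h1 : (x : ℝ) ≤ z := by
        have : x ≤ z := by omega
        exact_mod_cast this
      have h2 : (x : ℝ) ^ t ≤ (z : ℝ) ^ t := Real.rpow_le_rpow (Nat.cast_nonneg _) h1 ht0.le
      have h3 : (H1 : ℝ) ≤ H := by
        have : H1 ≤ H := by omega
        exact_mod_cast this
      nlinarith
  -- the positive terms
  have hterm : ∀ q : ℕ, 0 < q → uu {y | TT M t g q y = z} ≠ 0 →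
      q ∈ Finset.Ioc x (x + H) ∧
        (2 : ℝ) ^ (-(t * (Nat.log 2 q : ℝ))) ≤ (8 + 3 * K) * ((z : ℝ) ^ t)⁻¹ := by
    intro q hq hne
    obtain ⟨y, hy, hyz⟩ : ∃ y : ℝ × ℝ, y ∈ Set.Icc (0 : ℝ) 1 ×ˢ Set.Icc (0 : ℝ) 1 ∧
        TT M t g q y = z := by
      by_contra hcon
      push Not at hcon
      apply hne
      have h1 : ∀ᵐ y ∂uu, ¬ (TT M t g q y = z) := by
        filter_upwards [uu_ae] with y hy
        exact hcon y hy
      exact (ae_iff.mp h1).symm ▸ by simp
    obtain ⟨h1, h2, h3⟩ := One_qt h q hq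
    obtain ⟨h1', h2'⟩ := One_q_lt q hq
    have h4 := TT_ge M t g q y
    have h5 := TT_le h hq hy
    rw [hyz] at h4 h5
    have hqz : (q : ℝ) ≤ z := by
      have : q ≤ z := by omega
      exact_mod_cast this
    have h6 : (q : ℝ) ^ t ≤ (z : ℝ) ^ t := Real.rpow_le_rpow (Nat.cast_nonneg _) hqz ht0.le
    constructor
    · have h7 : z ≤ 2 * q + H1 := by
        have h8 : (z : ℝ) ≤ ((2 * q + H1 : ℕ) : ℝ) := by
          push_cast
          have h9 : (4 + 3 * K) * (2 : ℝ) ^ (t * (Nat.log 2 q : ℝ)) ≤ (4 + 3 * K) * (z : ℝ) ^ t :=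
            mul_le_mul_of_nonneg_left (h1.trans h6) (by linarith)
          linarith
        exact_mod_cast h8
      rw [Finset.mem_Ioc]
      omega
    · set b := (2 : ℝ) ^ (Nat.log 2 q : ℝ) with hb
      have hb1 : (1 : ℝ) ≤ b := Real.one_le_rpow (by norm_num) (Nat.cast_nonneg _)
      have h7 : (z : ℝ) ≤ (8 + 3 * K) * b := by
        have h8 : (2 : ℝ) ^ (t * (Nat.log 2 q : ℝ)) ≤ b := by
          rw [hb]
          refine Real.rpow_le_rpow_of_exponent_le (by norm_num) ?_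
          have h9 : (0 : ℝ) ≤ (Nat.log 2 q : ℝ) := Nat.cast_nonneg _
          nlinarith [h.ht1]
        have h9 : (4 + 3 * K) * (2 : ℝ) ^ (t * (Nat.log 2 q : ℝ)) ≤ (4 + 3 * K) * b :=
          mul_le_mul_of_nonneg_left h8 (by linarith)
        linarith
      have h8 : (z : ℝ) ^ t ≤ (8 + 3 * K) * (2 : ℝ) ^ (t * (Nat.log 2 q : ℝ)) := by
        calc (z : ℝ) ^ t ≤ ((8 + 3 * K) * b) ^ t :=
              Real.rpow_le_rpow (Nat.cast_nonneg _) h7 ht0.le
          _ = (8 + 3 * K) ^ t * b ^ t := by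
              rw [Real.mul_rpow (by linarith) (by positivity)]
          _ ≤ (8 + 3 * K) * b ^ t := by
              refine mul_le_mul_of_nonneg_right ?_ (by positivity)
              calc (8 + 3 * K) ^ t ≤ (8 + 3 * K) ^ (1 : ℝ) :=
                    Real.rpow_le_rpow_of_exponent_le (by linarith) h.ht1.le
                _ = 8 + 3 * K := Real.rpow_one _
          _ = (8 + 3 * K) * (2 : ℝ) ^ (t * (Nat.log 2 q : ℝ)) := by
              rw [One_rpow_mul]
      rw [Real.rpow_neg (by norm_num)]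
      have h9 : 0 < (2 : ℝ) ^ (t * (Nat.log 2 q : ℝ)) := by positivity
      rw [← div_eq_mul_inv, le_div_iff₀ (by positivity), ← div_eq_inv_mul, div_le_iff₀ h9]
      exact h8
  rw [tsum_eq_sum (s := Finset.Ioc x (x + H))]
  · calc ∑ q ∈ Finset.Ioc x (x + H),
        (if 0 < q then ENNReal.ofReal (RLC.th q) * uu {y | TT M t g q y = z} else 0)
        ≤ ∑ q ∈ Finset.Ioc x (x + H),
          ENNReal.ofReal (RLC.th q * (M * ((8 + 3 * K) * ((z : ℝ) ^ t)⁻¹))) := by
          refine Finset.sum_le_sum fun q _ => ?_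
          split_ifs with hq
          · by_cases hne : uu {y | TT M t g q y = z} = 0
            · rw [hne, mul_zero]
              exact zero_le
            · rw [ENNReal.ofReal_mul (RLC.th_nonneg q)]
              refine mul_le_mul_right ((uu_point h q z).trans ?_) _
              apply ENNReal.ofReal_le_ofReal
              exact mul_le_mul_of_nonneg_left (hterm q hq hne).2 (by linarith)
          · exact zero_le
      _ = ENNReal.ofReal ((∑ q ∈ Finset.Ioc x (x + H), RLC.th q) *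
          (M * ((8 + 3 * K) * ((z : ℝ) ^ t)⁻¹))) := by
          rw [← ENNReal.ofReal_sum_of_nonneg fun q _ =>
            mul_nonneg (RLC.th_nonneg q) (by positivity), Finset.sum_mul]
      _ ≤ ENNReal.ofReal (M * ((8 + 3 * K) * (C0 * (x0 + 7 + 3 * K)))) := by
          apply ENNReal.ofReal_le_ofReal
          calc (∑ q ∈ Finset.Ioc x (x + H), RLC.th q) * (M * ((8 + 3 * K) * ((z : ℝ) ^ t)⁻¹))
              ≤ (C0 * ((x0 + 7 + 3 * K) * (z : ℝ) ^ t)) *
                (M * ((8 + 3 * K) * ((z : ℝ) ^ t)⁻¹)) := by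
                refine mul_le_mul_of_nonneg_right (hsum.trans ?_) (by positivity)
                exact mul_le_mul_of_nonneg_left hHb (by linarith)
            _ = M * ((8 + 3 * K) * (C0 * (x0 + 7 + 3 * K))) := by
                field_simp
  · intro q hq
    split_ifs with hq0
    · by_cases hne : uu {y | TT M t g q y = z} = 0
      · rw [hne, mul_zero]
      · exact absurd (hterm q hq0 hne).1 hq
    · rfl

theorem dens_step (h : Adm M t K g) : ∃ C : ℝ, 1 ≤ C ∧ ∀ (F : ℕ → ENNReal) (m : ℕ),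
    ∑' q : ℕ, (if 0 < q ∧ m ≤ Nat.log 2 q then
      ENNReal.ofReal (RLC.th q) * ∫⁻ y, F (TT M t g q y) ∂uu else 0) ≤
    ENNReal.ofReal C * ∑' z : ℕ, (if 0 < z ∧ m + 1 ≤ Nat.log 2 z then F z else 0) := by
  obtain ⟨C, hC, hkey⟩ := One_key h
  refine ⟨C, hC, fun F m => ?_⟩
  have hint : ∀ q : ℕ, ∫⁻ y, F (TT M t g q y) ∂uu = ∑' z : ℕ, F z * uu {y | TT M t g q y = z} := by
    intro q
    have h1 : ∫⁻ y, F (TT M t g q y) ∂uu = ∫⁻ z, F z ∂(uu.map (TT M t g q)) :=
      (lintegral_map (measurable_of_countable F) (TT_meas M t g q)).symm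
    rw [h1, lintegral_countable']
    refine tsum_congr fun z => ?_
    rw [Measure.map_apply (TT_meas M t g q) (measurableSet_singleton z)]
    rfl
  calc ∑' q : ℕ, (if 0 < q ∧ m ≤ Nat.log 2 q then
      ENNReal.ofReal (RLC.th q) * ∫⁻ y, F (TT M t g q y) ∂uu else 0)
      = ∑' q : ℕ, ∑' z : ℕ, (if 0 < q ∧ m ≤ Nat.log 2 q then
        ENNReal.ofReal (RLC.th q) * (F z * uu {y | TT M t g q y = z}) else 0) := by
        refine tsum_congr fun q => ?_
        split_ifs with hq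
        · rw [hint, ENNReal.tsum_mul_left]
        · simp
    _ = ∑' z : ℕ, ∑' q : ℕ, (if 0 < q ∧ m ≤ Nat.log 2 q then
        ENNReal.ofReal (RLC.th q) * (F z * uu {y | TT M t g q y = z}) else 0) := ENNReal.tsum_comm
    _ ≤ ∑' z : ℕ, ENNReal.ofReal C * (if 0 < z ∧ m + 1 ≤ Nat.log 2 z then F z else 0) := by
        refine ENNReal.tsum_le_tsum fun z => ?_
        split_ifs with hz
        · calc ∑' q : ℕ, (if 0 < q ∧ m ≤ Nat.log 2 q then
              ENNReal.ofReal (RLC.th q) * (F z * uu {y | TT M t g q y = z}) else 0)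
              ≤ ∑' q : ℕ, F z * (if 0 < q then
                ENNReal.ofReal (RLC.th q) * uu {y | TT M t g q y = z} else 0) := by
                refine ENNReal.tsum_le_tsum fun q => ?_
                by_cases hq : 0 < q
                · by_cases hm : m ≤ Nat.log 2 q
                  · rw [if_pos ⟨hq, hm⟩, if_pos hq]
                    apply le_of_eq
                    ring
                  · rw [if_neg (fun hh => hm hh.2)]
                    exact zero_le
                · rw [if_neg (fun hh => hq hh.1)]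
                  exact zero_le
            _ = F z * ∑' q : ℕ, (if 0 < q then
                ENNReal.ofReal (RLC.th q) * uu {y | TT M t g q y = z} else 0) :=
                ENNReal.tsum_mul_left
            _ ≤ F z * ENNReal.ofReal C := mul_le_mul_right (hkey z hz.1) _
            _ = ENNReal.ofReal C * F z := mul_comm _ _
        · rw [mul_zero]
          refine le_of_eq (ENNReal.tsum_eq_zero.mpr fun q => ?_)
          split_ifs with hq
          · have h1 : {y : ℝ × ℝ | TT M t g q y = z} = ∅ := by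
              ext y
              simp only [Set.mem_ofPred_eq, Set.mem_empty_iff_false, iff_false]
              intro hyz
              apply hz
              have h2 := TT_ge M t g q y
              have h3 := TT_log M t g hq.1 y
              rw [hyz] at h2 h3
              omega
            rw [h1]
            simp
          · rfl
    _ = ENNReal.ofReal C * ∑' z : ℕ, (if 0 < z ∧ m + 1 ≤ Nat.log 2 z then F z else 0) :=
        ENNReal.tsum_mul_left

end RAF
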