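import Pool.Agent.RAF.WinInt
import Pool.Agent.RAF.One

/-!
# RAF.KapA: two distant numbers in a block have almost independent images

PROOF. Let `Φ a = th (2c+1+M ⌊a/M⌋₊) - rho M c`, `Ψ x = th (2c'+1+M ⌊x/M⌋₊) - rho M c'`, `α = 2^((t-1)m) c`, `β = 2^(tm)`, `α' = 2^((t-1)m) (c'-c)`, `γ = g c' - g c ≥ 0`. The integral is
`∫_0^1 ∫_0^1 Φ(αu + βv + g c) Ψ(αu + βv + g c + α'u + γ) dv du`. Substitute `a = αu + βv + g c` for `v`, exchange the integrals: it is
`β⁻¹ ∫ Φ(a) (∫_{u0(a)}^{u1(a)} Ψ(a + α'u + γ) du) da`, `u0 = max 0 ((a - g c - β)/α)`, `u1 = min 1 ((a - g c)/α)`, `a` from `g c` to `g c + α + β ≤ (3+3K) 2^(tm)` (`arg_le` at `(1,1)`). Substitute `x = a + α'u + γ`: the inner integral is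
`(1/α') ∫_{x0}^{x1} Ψ(x) dx` with `0 ≤ x0 ≤ x1 ≤ (3+3K) 2^(tm)` (`x0`, `x1` are values of `arg c'`, `arg_nonneg`, `arg_le`) and `x1 - x0 ≤ α'`. By `win_int` it is at most
`C (m^(-A) + H (2 + #bad)/α')` in absolute value, and `α' ≥ 2^((t-κ0)m)`. Finally `β⁻¹ ∫ |Φ| ≤ C`: `∫_0^{(3+3K)2^(tm)} th (2c+1+M ⌊a/M⌋₊) da ≤ M ∑_{z ∈ Ioc (2c) (2c+⌈(4+3K)2^(tm)⌉₊+M)} th z`, `bt`.
(`uu = (volume.restrict (Icc 0 1)).prod (volume.restrict (Icc 0 1))`. All functions are bounded and measurable on bounded sets.)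
-/

namespace RAF

open MeasureTheory

variable {M : ℕ} {t K : ℝ} {g : ℕ → ℝ}

private theorem kapa_chg (f : ℝ → ℝ) {c d a b : ℝ} (hc : 0 < c) (hab : a ≤ b) :
    ∫ x in Set.Icc a b, f (c * x + d) = c⁻¹ * ∫ x in Set.Icc (c * a + d) (c * b + d), f x := by
  have h1 : c * a + d ≤ c * b + d := by nlinarith
  rw [integral_Icc_eq_integral_Ioc, integral_Icc_eq_integral_Ioc,
    ← intervalIntegral.integral_of_le hab, ← intervalIntegral.integral_of_le h1,
    intervalIntegral.integral_comp_mul_add f hc.ne' d]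
  rfl

private theorem kapa_dbl {P Q : ℝ → ℝ} (hP : Measurable P) (hQ : Measurable Q) {B : ℝ}
    (hPB : ∀ x, |P x| ≤ B) (hQB : ∀ x, |Q x| ≤ B) {α β α' g0 γ E L : ℝ} (hα : 0 < α) (hβ : 0 < β) (hα' : 0 < α')
    (hE : 0 ≤ E) (hL : ∀ a, a ∉ Set.Icc 0 L → P a = 0)
    (hw : ∀ a ∈ Set.Icc (0 : ℝ) L, ∀ u0 u1 : ℝ, 0 ≤ u0 → u0 ≤ u1 → u1 ≤ 1 → a - g0 - β ≤ α * u0 → α * u1 ≤ a - g0 →
      |∫ x in Set.Icc (α' * u0 + (a + γ)) (α' * u1 + (a + γ)), Q x| ≤ α' * E) :
    |∫ y, P (β * y.2 + (α * y.1 + g0)) * Q (β * y.2 + (α * y.1 + g0) + (α' * y.1 + γ)) ∂uu| ≤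
      E * (β⁻¹ * ∫ a in Set.Icc 0 L, |P a|) := by
  have hB : 0 ≤ B := le_trans (abs_nonneg _) (hPB 0)
  have huu : uu = (volume.restrict (Set.Icc (0 : ℝ) 1)).prod (volume.restrict (Set.Icc (0 : ℝ) 1)) := by
    unfold uu
    rw [Measure.volume_eq_prod, Measure.prod_restrict]
  have hPQ : Measurable fun y : ℝ × ℝ => P (β * y.2 + (α * y.1 + g0)) * Q (β * y.2 + (α * y.1 + g0) + (α' * y.1 + γ)) := by
    apply Measurable.mul
    · apply hP.comp
      fun_prop
    · apply hQ.comp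
      fun_prop
  have hint : Integrable (fun y : ℝ × ℝ => P (β * y.2 + (α * y.1 + g0)) * Q (β * y.2 + (α * y.1 + g0) + (α' * y.1 + γ)))
      ((volume.restrict (Set.Icc (0 : ℝ) 1)).prod (volume.restrict (Set.Icc (0 : ℝ) 1))) := by
    apply Integrable.of_bound hPQ.aestronglyMeasurable (B * B)
    refine Filter.Eventually.of_forall fun y => ?_
    rw [Real.norm_eq_abs, abs_mul]
    exact mul_le_mul (hPB _) (hQB _) (abs_nonneg _) hB
  rw [huu, integral_prod _ hint]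
  -- the inner integral
  set G : ℝ → ℝ → ℝ := fun u a => (Set.Icc (α * u + g0) (α * u + g0 + β)).indicator
    (fun a => P a * Q (a + (α' * u + γ))) a with hG
  have hin : ∀ u : ℝ, ∫ v in Set.Icc (0 : ℝ) 1, P (β * v + (α * u + g0)) * Q (β * v + (α * u + g0) + (α' * u + γ)) =
      β⁻¹ * ∫ a in Set.Icc 0 L, G u a := by
    intro u
    have h1 := kapa_chg (fun a => P a * Q (a + (α' * u + γ))) (d := α * u + g0) hβ (zero_le_one' ℝ)
    rw [h1, mul_zero, mul_one, zero_add, add_comm β]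
    congr 1
    rw [← integral_indicator measurableSet_Icc]
    symm
    apply setIntegral_eq_integral_of_forall_compl_eq_zero
    intro a ha
    simp only [hG, Set.indicator_apply, hL a ha, zero_mul, ite_self]
  simp only [hin]
  rw [integral_const_mul]
  -- the exchange
  have hGm : Measurable (Function.uncurry G) := by
    have h1 : Function.uncurry G = Set.indicator {p : ℝ × ℝ | α * p.1 + g0 ≤ p.2 ∧ p.2 ≤ α * p.1 + g0 + β}
        (fun p => P p.2 * Q (p.2 + (α' * p.1 + γ))) := by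
      funext p
      simp only [Function.uncurry, hG, Set.indicator_apply, Set.mem_Icc, Set.mem_ofPred_eq]
    rw [h1]
    apply Measurable.indicator
    · apply Measurable.mul
      · exact hP.comp measurable_snd
      · apply hQ.comp
        fun_prop
    · have h2 : MeasurableSet {p : ℝ × ℝ | α * p.1 + g0 ≤ p.2} := measurableSet_le (by fun_prop) (by fun_prop)
      have h3 : MeasurableSet {p : ℝ × ℝ | p.2 ≤ α * p.1 + g0 + β} := measurableSet_le (by fun_prop) (by fun_prop)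
      exact h2.inter h3
  have hGB : ∀ u a, |G u a| ≤ B * B := by
    intro u a
    simp only [hG, Set.indicator_apply]
    split_ifs
    · rw [abs_mul]
      exact mul_le_mul (hPB _) (hQB _) (abs_nonneg _) hB
    · rw [abs_zero]
      exact mul_nonneg hB hB
  have hGi : Integrable (Function.uncurry G) ((volume.restrict (Set.Icc (0 : ℝ) 1)).prod (volume.restrict (Set.Icc 0 L))) := by
    apply Integrable.of_bound hGm.aestronglyMeasurable (B * B)
    refine Filter.Eventually.of_forall fun y => ?_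
    rw [Real.norm_eq_abs]
    exact hGB _ _
  rw [integral_integral_swap hGi]
  -- the bound for fixed `a`
  have hfix : ∀ a ∈ Set.Icc (0 : ℝ) L, |∫ u in Set.Icc (0 : ℝ) 1, G u a| ≤ |P a| * E := by
    intro a ha
    have h1 : ∀ u, G u a = {u : ℝ | α * u + g0 ≤ a ∧ a ≤ α * u + g0 + β}.indicator
        (fun u => P a * Q (α' * u + (a + γ))) u := by
      intro u
      simp only [hG, Set.indicator_apply, Set.mem_Icc, Set.mem_ofPred_eq]
      have h2 : a + (α' * u + γ) = α' * u + (a + γ) := by ring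
      rw [h2]
    simp only [h1]
    have hms : MeasurableSet {u : ℝ | α * u + g0 ≤ a ∧ a ≤ α * u + g0 + β} := by
      have h2 : MeasurableSet {u : ℝ | α * u + g0 ≤ a} := measurableSet_le (by fun_prop) (by fun_prop)
      have h3 : MeasurableSet {u : ℝ | a ≤ α * u + g0 + β} := measurableSet_le (by fun_prop) (by fun_prop)
      exact h2.inter h3
    rw [setIntegral_indicator hms]
    have hset : Set.Icc (0 : ℝ) 1 ∩ {u : ℝ | α * u + g0 ≤ a ∧ a ≤ α * u + g0 + β} =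
        Set.Icc (max 0 ((a - g0 - β) / α)) (min 1 ((a - g0) / α)) := by
      ext u
      simp only [Set.mem_inter_iff, Set.mem_Icc, Set.mem_ofPred_eq, sup_le_iff, le_inf_iff, div_le_iff₀ hα, le_div_iff₀ hα]
      constructor
      · rintro ⟨⟨h2, h3⟩, h4, h5⟩
        exact ⟨⟨h2, by linarith⟩, h3, by linarith⟩
      · rintro ⟨⟨h2, h3⟩, h4, h5⟩
        exact ⟨⟨h2, h4⟩, by linarith, by linarith⟩
    rw [hset, integral_const_mul, abs_mul]
    apply mul_le_mul_of_nonneg_left _ (abs_nonneg _)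
    set u0 := max 0 ((a - g0 - β) / α) with hu0
    set u1 := min 1 ((a - g0) / α) with hu1
    rcases le_or_gt u0 u1 with h2 | h2
    · rw [kapa_chg Q hα' h2, abs_mul, abs_of_pos (inv_pos.mpr hα')]
      have h3 := hw a ha u0 u1 (le_max_left _ _) h2 (min_le_left _ _) (by
        have h4 : (a - g0 - β) / α ≤ u0 := le_max_right _ _
        rw [div_le_iff₀ hα] at h4
        linarith) (by
        have h4 : u1 ≤ (a - g0) / α := min_le_right _ _
        rw [le_div_iff₀ hα] at h4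
        linarith)
      calc α'⁻¹ * |∫ x in Set.Icc (α' * u0 + (a + γ)) (α' * u1 + (a + γ)), Q x| ≤ α'⁻¹ * (α' * E) :=
            mul_le_mul_of_nonneg_left h3 (inv_pos.mpr hα').le
        _ = E := by
            rw [← mul_assoc, inv_mul_cancel₀ hα'.ne', one_mul]
    · rw [Set.Icc_eq_empty (not_le.mpr h2), setIntegral_empty, abs_zero]
      exact hE
  have hPi : Integrable (fun a => |P a| * E) (volume.restrict (Set.Icc 0 L)) := by
    apply Integrable.of_bound (hP.abs.mul_const E).aestronglyMeasurable (B * E)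
    refine Filter.Eventually.of_forall fun y => ?_
    rw [Real.norm_eq_abs, abs_mul, abs_abs, abs_of_nonneg hE]
    exact mul_le_mul_of_nonneg_right (hPB _) hE
  have hfin := norm_integral_le_of_norm_le hPi (f := fun a => ∫ u in Set.Icc (0 : ℝ) 1, G u a)
    ((ae_restrict_iff' measurableSet_Icc).mpr (Filter.Eventually.of_forall fun a ha => by
      rw [Real.norm_eq_abs]
      exact hfix a ha))
  rw [Real.norm_eq_abs, integral_mul_const] at hfin
  rw [abs_mul, abs_of_pos (inv_pos.mpr hβ)]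
  calc β⁻¹ * |∫ a in Set.Icc 0 L, ∫ u in Set.Icc (0 : ℝ) 1, G u a| ≤ β⁻¹ * ((∫ a in Set.Icc 0 L, |P a|) * E) :=
        mul_le_mul_of_nonneg_left hfin (inv_pos.mpr hβ).le
    _ = E * (β⁻¹ * ∫ a in Set.Icc 0 L, |P a|) := by ring

private theorem kapa_Phi_meas (M c : ℕ) : Measurable fun a : ℝ => RLC.th (2 * c + 1 + M * ⌊a / M⌋₊) - rho M c := by
  have h1 : Measurable fun a : ℝ => ⌊a / M⌋₊ := Nat.measurable_floor.comp (measurable_id.div_const (M : ℝ))
  have h2 : Measurable fun k : ℕ => RLC.th (2 * c + 1 + M * k) - rho M c := measurable_from_nat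
  exact h2.comp h1

private theorem kapa_Phi_bd (M c : ℕ) (L : ℝ) : ∃ B : ℝ, ∀ a ≤ L, |RLC.th (2 * c + 1 + M * ⌊a / M⌋₊) - rho M c| ≤ B := by
  refine ⟨Real.log ((2 * c + 1 + M * ⌊L / M⌋₊ : ℕ) : ℝ) + rho M c, fun a ha => ?_⟩
  have h1 : 2 * c + 1 + M * ⌊a / M⌋₊ ≤ 2 * c + 1 + M * ⌊L / M⌋₊ := by
    have h2 : ⌊a / M⌋₊ ≤ ⌊L / M⌋₊ := Nat.floor_le_floor (div_le_div_of_nonneg_right ha (Nat.cast_nonneg M))
    have := Nat.mul_le_mul_left M h2
    omega
  have h2 : RLC.th (2 * c + 1 + M * ⌊a / M⌋₊) ≤ Real.log ((2 * c + 1 + M * ⌊L / M⌋₊ : ℕ) : ℝ) := by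
    refine le_trans (RLC.th_le_log _) (Real.log_le_log ?_ (Nat.cast_le.mpr h1))
    exact Nat.cast_pos.mpr (by omega)
  have h3 := RLC.th_nonneg (2 * c + 1 + M * ⌊a / M⌋₊)
  have h4 := rho_nonneg M c
  rw [abs_le]
  constructor
  · linarith
  · linarith

open Classical in
private theorem kapa_mass {C1 : ℝ} (hC1 : 1 ≤ C1) (hK : 1 ≤ K) {m H c : ℕ} (hH : 0 < H)
    (hHt : (H : ℝ) ≤ (2 : ℝ) ^ (t * (m : ℝ))) (hβ1 : 1 ≤ (2 : ℝ) ^ (t * (m : ℝ)))
    (hw : |∫ x in Set.Icc 0 ((3 + 3 * K) * (2 : ℝ) ^ (t * (m : ℝ))), (RLC.th (2 * c + 1 + M * ⌊x / M⌋₊) - rho M c)| ≤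
      C1 * (((3 + 3 * K) * (2 : ℝ) ^ (t * (m : ℝ)) - 0) * (m : ℝ) ^ (-(0 : ℝ)) +
        H * (2 + ((Wc t K m H c).filter fun r => BadC M 0 H m r).card))) :
    ∫ x in Set.Icc 0 ((3 + 3 * K) * (2 : ℝ) ^ (t * (m : ℝ))), |RLC.th (2 * c + 1 + M * ⌊x / M⌋₊) - rho M c| ≤
      (C1 * (13 + 7 * K) + 2 * ((M : ℝ) / (Nat.totient M : ℝ)) * (3 + 3 * K)) * (2 : ℝ) ^ (t * (m : ℝ)) := by
  set β : ℝ := (2 : ℝ) ^ (t * (m : ℝ)) with hβ
  set L : ℝ := (3 + 3 * K) * β with hL
  have hβ0 : 0 < β := lt_of_lt_of_le one_pos hβ1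
  have hL0 : 0 ≤ L := by positivity
  -- the number of cells
  have hcard : (H : ℝ) * (2 + ((Wc t K m H c).filter fun r => BadC M 0 H m r).card) ≤ (10 + 4 * K) * β := by
    set N : ℕ := ⌈(5 + 4 * K) * β⌉₊ with hN
    have h1 : ((Wc t K m H c).filter fun r => BadC M 0 H m r).card ≤ (2 * c + N) / H + 1 - 2 * c / H := by
      refine le_trans (Finset.card_filter_le _ _) ?_
      unfold Wc
      rw [Nat.card_Icc]
    have h2 : H * (((Wc t K m H c).filter fun r => BadC M 0 H m r).card) ≤ N + 2 * H := by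
      have h3 := Nat.mul_le_mul_left H h1
      have h4 : H * ((2 * c + N) / H) ≤ 2 * c + N := Nat.mul_div_le _ _
      have h5 : 2 * c < H * (2 * c / H) + H := by
        have h6 := Nat.lt_mul_div_succ (2 * c) hH
        rw [mul_add, mul_one] at h6
        exact h6
      have h7 : H * ((2 * c + N) / H + 1 - 2 * c / H) = H * ((2 * c + N) / H) + H - H * (2 * c / H) := by
        rw [Nat.mul_sub, mul_add, mul_one]
      omega
    have h3 : ((H * (((Wc t K m H c).filter fun r => BadC M 0 H m r).card) : ℕ) : ℝ) ≤ ((N + 2 * H : ℕ) : ℝ) :=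
      Nat.cast_le.mpr h2
    push_cast at h3
    have h4 : (N : ℝ) ≤ (5 + 4 * K) * β + 1 := (Nat.ceil_lt_add_one (by positivity)).le
    nlinarith
  have hmeas := kapa_Phi_meas M c
  obtain ⟨B, hB⟩ := kapa_Phi_bd M c L
  have hint : Integrable (fun x : ℝ => RLC.th (2 * c + 1 + M * ⌊x / M⌋₊) - rho M c) (volume.restrict (Set.Icc 0 L)) := by
    apply Integrable.of_bound hmeas.aestronglyMeasurable B
    rw [ae_restrict_iff' measurableSet_Icc]
    refine Filter.Eventually.of_forall fun x hx => ?_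
    rw [Real.norm_eq_abs]
    exact hB x hx.2
  have h1 : ∫ x in Set.Icc 0 L, |RLC.th (2 * c + 1 + M * ⌊x / M⌋₊) - rho M c| ≤
      ∫ x in Set.Icc 0 L, ((RLC.th (2 * c + 1 + M * ⌊x / M⌋₊) - rho M c) + 2 * rho M c) := by
    apply integral_mono hint.abs (hint.add (integrable_const _))
    intro x
    have h3 := RLC.th_nonneg (2 * c + 1 + M * ⌊x / M⌋₊)
    have h4 := rho_nonneg M c
    show |RLC.th (2 * c + 1 + M * ⌊x / M⌋₊) - rho M c| ≤ (RLC.th (2 * c + 1 + M * ⌊x / M⌋₊) - rho M c) + 2 * rho M c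
    rw [abs_le]
    constructor
    · linarith
    · linarith
  rw [integral_add hint (integrable_const _), setIntegral_const, Real.volume_real_Icc_of_le hL0, smul_eq_mul] at h1
  have h2 := le_trans (le_abs_self _) hw
  have h3 : ((m : ℝ)) ^ (-(0 : ℝ)) = 1 := by
    rw [neg_zero, Real.rpow_zero]
  rw [h3, mul_one, sub_zero] at h2
  have h4 := rho_le M c
  have h5 : C1 * (L + H * (2 + ((Wc t K m H c).filter fun r => BadC M 0 H m r).card)) ≤ C1 * (L + (10 + 4 * K) * β) :=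
    mul_le_mul_of_nonneg_left (by linarith) (by linarith)
  have h6 : (L - 0) * (2 * rho M c) ≤ L * (2 * ((M : ℝ) / (Nat.totient M : ℝ))) := by
    rw [sub_zero]
    exact mul_le_mul_of_nonneg_left (by linarith) hL0
  calc ∫ x in Set.Icc 0 L, |RLC.th (2 * c + 1 + M * ⌊x / M⌋₊) - rho M c| ≤
        C1 * (L + (10 + 4 * K) * β) + L * (2 * ((M : ℝ) / (Nat.totient M : ℝ))) := by linarith
    _ = (C1 * (13 + 7 * K) + 2 * ((M : ℝ) / (Nat.totient M : ℝ)) * (3 + 3 * K)) * β := by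
        rw [hL]
        ring

open Classical in
theorem kap_far (h : Adm M t K g) {t1 : ℝ} (ht1 : 0 < t1) (κ0 : ℝ) : ∃ C : ℝ, 1 ≤ C ∧ ∃ m0 : ℕ, ∀ m : ℕ, m0 ≤ m →
    ∀ H : ℕ, (2 : ℝ) ^ (t1 * (m : ℝ)) ≤ H → (H : ℝ) ≤ (2 : ℝ) ^ (t * (m : ℝ)) → ∀ (A : ℝ) (c c' : ℕ),
    Nat.log 2 c = m → Nat.log 2 c' = m → c < c' → (2 : ℝ) ^ ((1 - κ0) * (m : ℝ)) ≤ (c' : ℝ) - c →
    |∫ y, (RLC.th (TT M t g c y) - rho M c) * (RLC.th (TT M t g c' y) - rho M c') ∂uu| ≤
      C * ((m : ℝ) ^ (-A) + H * (2 + ((Wc t K m H c').filter fun r => BadC M A H m r).card) /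
        (2 : ℝ) ^ ((t - κ0) * (m : ℝ))) := by
  obtain ⟨C1, hC1, m1, hw⟩ := win_int h ht1
  have hM := h.hM
  have hK := h.hK
  have htot : 0 < (M : ℝ) / (Nat.totient M : ℝ) :=
    div_pos (Nat.cast_pos.mpr hM) (Nat.cast_pos.mpr (Nat.totient_pos.mpr hM))
  set C2 : ℝ := C1 * (13 + 7 * K) + 2 * ((M : ℝ) / (Nat.totient M : ℝ)) * (3 + 3 * K) with hC2
  have hC2' : 1 ≤ C2 := by
    have h1 : 0 ≤ 2 * ((M : ℝ) / (Nat.totient M : ℝ)) * (3 + 3 * K) := by positivity
    nlinarith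
  refine ⟨C1 * C2, one_le_mul_of_one_le_of_one_le hC1 hC2', max m1 1, ?_⟩
  intro m hm H hH1 hH2 A c c' hlc hlc' hcc hdist
  have hm1 : m1 ≤ m := le_trans (le_max_left _ _) hm
  have hm2 : 1 ≤ m := le_trans (le_max_right _ _) hm
  have hmR : (0 : ℝ) ≤ m := Nat.cast_nonneg m
  have ht0 : 0 < t := by
    have := h.ht
    linarith
  have hHpos : 0 < H := by
    have h1 : (0 : ℝ) < (2 : ℝ) ^ (t1 * (m : ℝ)) := Real.rpow_pos_of_pos two_pos _
    exact Nat.cast_pos.mp (lt_of_lt_of_le h1 hH1)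
  have hc0 : 0 < c := by
    rcases Nat.eq_zero_or_pos c with h1 | h1
    · rw [h1, Nat.log_zero_right] at hlc
      omega
    · exact h1
  have hc0' : 0 < c' := lt_trans hc0 hcc
  have hβ1 : 1 ≤ (2 : ℝ) ^ (t * (m : ℝ)) := Real.one_le_rpow one_le_two (by positivity)
  set β : ℝ := (2 : ℝ) ^ (t * (m : ℝ)) with hβ
  have hβ0 : 0 < β := lt_of_lt_of_le one_pos hβ1
  set s : ℝ := (2 : ℝ) ^ ((t - 1) * (m : ℝ)) with hs
  have hs0 : 0 < s := Real.rpow_pos_of_pos two_pos _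
  set α : ℝ := s * c with hα
  have hα0 : 0 < α := mul_pos hs0 (Nat.cast_pos.mpr hc0)
  set α' : ℝ := s * ((c' : ℝ) - c) with hα'
  have hcc' : (0 : ℝ) < (c' : ℝ) - c := sub_pos.mpr (Nat.cast_lt.mpr hcc)
  have hα0' : 0 < α' := mul_pos hs0 hcc'
  have hγ : 0 ≤ g c' - g c := sub_nonneg.mpr (h.mono hcc.le)
  set δ : ℝ := (2 : ℝ) ^ ((t - κ0) * (m : ℝ)) with hδ
  have hδ0 : 0 < δ := Real.rpow_pos_of_pos two_pos _
  have hδα : δ ≤ α' := by
    have h1 : δ = s * (2 : ℝ) ^ ((1 - κ0) * (m : ℝ)) := by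
      rw [hδ, hs, ← Real.rpow_add two_pos]
      congr 1
      ring
    rw [h1, hα']
    exact mul_le_mul_of_nonneg_left hdist hs0.le
  set nb : ℝ := H * (2 + ((Wc t K m H c').filter fun r => BadC M A H m r).card) with hnb
  have hnb0 : 0 ≤ nb := by positivity
  have hmA : 0 ≤ (m : ℝ) ^ (-A) := Real.rpow_nonneg hmR _
  set L : ℝ := (3 + 3 * K) * β with hL
  set P : ℝ → ℝ := (Set.Icc 0 L).indicator fun a => RLC.th (2 * c + 1 + M * ⌊a / M⌋₊) - rho M c with hP
  set Q : ℝ → ℝ := (Set.Icc 0 L).indicator fun a => RLC.th (2 * c' + 1 + M * ⌊a / M⌋₊) - rho M c' with hQ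
  obtain ⟨B1, hB1⟩ := kapa_Phi_bd M c L
  obtain ⟨B2, hB2⟩ := kapa_Phi_bd M c' L
  have hPm : Measurable P := (kapa_Phi_meas M c).indicator measurableSet_Icc
  have hQm : Measurable Q := (kapa_Phi_meas M c').indicator measurableSet_Icc
  have hPB : ∀ x, |P x| ≤ max (max B1 B2) 0 := by
    intro x
    rw [hP, Set.indicator_apply]
    split_ifs with h1
    · exact le_trans (hB1 x h1.2) (le_trans (le_max_left _ _) (le_max_left _ _))
    · rw [abs_zero]
      exact le_max_right _ _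
  have hQB : ∀ x, |Q x| ≤ max (max B1 B2) 0 := by
    intro x
    rw [hQ, Set.indicator_apply]
    split_ifs with h1
    · exact le_trans (hB2 x h1.2) (le_trans (le_max_right _ _) (le_max_left _ _))
    · rw [abs_zero]
      exact le_max_right _ _
  -- the arguments
  have harg : ∀ y : ℝ × ℝ, arg t g c y = β * y.2 + (α * y.1 + g c) := by
    intro y
    unfold arg
    rw [hlc, ← hβ, ← hs, hα]
    ring
  have harg' : ∀ y : ℝ × ℝ, arg t g c' y = β * y.2 + (α * y.1 + g c) + (α' * y.1 + (g c' - g c)) := by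
    intro y
    unfold arg
    rw [hlc', ← hβ, ← hs, hα, hα']
    ring
  have hle : ∀ y ∈ Set.Icc (0 : ℝ) 1 ×ˢ Set.Icc (0 : ℝ) 1, arg t g c y ∈ Set.Icc 0 L := by
    intro y hy
    have h1 := arg_le h hc0 hy
    rw [hlc] at h1
    exact ⟨arg_nonneg h c hy, h1⟩
  have hle' : ∀ y ∈ Set.Icc (0 : ℝ) 1 ×ˢ Set.Icc (0 : ℝ) 1, arg t g c' y ∈ Set.Icc 0 L := by
    intro y hy
    have h1 := arg_le h hc0' hy
    rw [hlc'] at h1
    exact ⟨arg_nonneg h c' hy, h1⟩
  have heq : ∫ y, (RLC.th (TT M t g c y) - rho M c) * (RLC.th (TT M t g c' y) - rho M c') ∂uu =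
      ∫ y, P (β * y.2 + (α * y.1 + g c)) * Q (β * y.2 + (α * y.1 + g c) + (α' * y.1 + (g c' - g c))) ∂uu := by
    unfold uu
    apply setIntegral_congr_fun (measurableSet_Icc.prod measurableSet_Icc)
    intro y hy
    have h1 := hle y hy
    have h2 := hle' y hy
    show (RLC.th (TT M t g c y) - rho M c) * (RLC.th (TT M t g c' y) - rho M c') =
      P (β * y.2 + (α * y.1 + g c)) * Q (β * y.2 + (α * y.1 + g c) + (α' * y.1 + (g c' - g c)))
    rw [← harg', ← harg, hP, hQ, Set.indicator_of_mem h1, Set.indicator_of_mem h2]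
    rfl
  rw [heq]
  have hkey := kapa_dbl hPm hQm hPB hQB (g0 := g c) (γ := g c' - g c) (E := C1 * ((m : ℝ) ^ (-A) + nb / δ)) (L := L)
    hα0 hβ0 hα0' (by positivity) (fun a ha => by rw [hP, Set.indicator_of_notMem ha]) (by
      intro a ha u0 u1 hu0 hu01 hu1 h1 h2
      have hu0' : u0 ≤ 1 := le_trans hu01 hu1
      have hu1' : 0 ≤ u1 := le_trans hu0 hu01
      have hx0 : 0 ≤ α' * u0 + (a + (g c' - g c)) := by
        have h3 := mul_nonneg hα0'.le hu0
        linarith [ha.1]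
      have hx01 : α' * u0 + (a + (g c' - g c)) ≤ α' * u1 + (a + (g c' - g c)) := by
        have h3 := mul_le_mul_of_nonneg_left hu01 hα0'.le
        linarith
      have hx1 : α' * u1 + (a + (g c' - g c)) ≤ L := by
        have h3 : ((u1, (a - g c - α * u1) / β) : ℝ × ℝ) ∈ Set.Icc (0 : ℝ) 1 ×ˢ Set.Icc (0 : ℝ) 1 := by
          refine ⟨⟨hu1', hu1⟩, ?_, ?_⟩
          · apply div_nonneg _ hβ0.le
            linarith
          · rw [div_le_one hβ0]
            have h4 := mul_le_mul_of_nonneg_left hu01 hα0.le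
            linarith
        have h4 := (hle' _ h3).2
        rw [harg'] at h4
        simp only at h4
        rw [mul_div_cancel₀ _ hβ0.ne'] at h4
        linarith
      have h5 := hw m hm1 H hH1 hH2 A c' hlc' _ _ hx0 hx01 hx1
      have h6 : ∫ x in Set.Icc (α' * u0 + (a + (g c' - g c))) (α' * u1 + (a + (g c' - g c))), Q x =
          ∫ x in Set.Icc (α' * u0 + (a + (g c' - g c))) (α' * u1 + (a + (g c' - g c))),
            (RLC.th (2 * c' + 1 + M * ⌊x / M⌋₊) - rho M c') := by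
        apply setIntegral_congr_fun measurableSet_Icc
        intro x hx
        have h7 : x ∈ Set.Icc 0 L := ⟨le_trans hx0 hx.1, le_trans hx.2 hx1⟩
        show Q x = _
        rw [hQ, Set.indicator_of_mem h7]
      rw [h6]
      refine le_trans h5 ?_
      have h7 : (α' * u1 + (a + (g c' - g c)) - (α' * u0 + (a + (g c' - g c)))) * (m : ℝ) ^ (-A) ≤ α' * (m : ℝ) ^ (-A) := by
        apply mul_le_mul_of_nonneg_right _ hmA
        have h8 : α' * (u1 - u0) ≤ α' * 1 := mul_le_mul_of_nonneg_left (by linarith) hα0'.le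
        linarith
      have h8 : nb ≤ α' * (nb / δ) := by
        rw [← mul_div_assoc, le_div_iff₀ hδ0, mul_comm]
        exact mul_le_mul_of_nonneg_right hδα hnb0
      calc C1 * ((α' * u1 + (a + (g c' - g c)) - (α' * u0 + (a + (g c' - g c)))) * (m : ℝ) ^ (-A) + nb) ≤
            C1 * (α' * (m : ℝ) ^ (-A) + α' * (nb / δ)) := mul_le_mul_of_nonneg_left (add_le_add h7 h8) (by linarith)
        _ = α' * (C1 * ((m : ℝ) ^ (-A) + nb / δ)) := by ring)
  refine le_trans hkey ?_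
  have hmass : ∫ a in Set.Icc 0 L, |P a| ≤ C2 * β := by
    have h1 : ∫ a in Set.Icc 0 L, |P a| = ∫ x in Set.Icc 0 L, |RLC.th (2 * c + 1 + M * ⌊x / M⌋₊) - rho M c| := by
      apply setIntegral_congr_fun measurableSet_Icc
      intro x hx
      show |P x| = _
      rw [hP, Set.indicator_of_mem hx]
    rw [h1]
    exact kapa_mass hC1 hK hHpos hH2 hβ1 (hw m hm1 H hH1 hH2 0 c hlc 0 L le_rfl (by positivity) le_rfl)
  have hE0 : 0 ≤ C1 * ((m : ℝ) ^ (-A) + nb / δ) := by positivity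
  calc C1 * ((m : ℝ) ^ (-A) + nb / δ) * (β⁻¹ * ∫ a in Set.Icc 0 L, |P a|) ≤
        C1 * ((m : ℝ) ^ (-A) + nb / δ) * (β⁻¹ * (C2 * β)) :=
        mul_le_mul_of_nonneg_left (mul_le_mul_of_nonneg_left hmass (inv_pos.mpr hβ0).le) hE0
    _ = C1 * C2 * ((m : ℝ) ^ (-A) + nb / δ) := by
        field_simp

end RAF
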