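import Pool.Agent.RAF.WDefs
import Pool.Agent.RLC.LowS

/-!
# RAF.LowS: the lower bound

PROOF. Copy `Pool/Agent/RLC/LowS.lean` (private lemmas there) with `cnt M t g ω` in place of `cnt a β`, `WinAs` in place of `win_cnt`, and the factor `cM M k > 0` (`cM_pos`) in front of `Y' - Y` and `X` everywhere. `FX k x = RLC.PP (fun _ => 2) k x` (`RLC.pa (fun _ => 2) i = 2^i`),
so that the lemmas of `Pool/Agent/RLC/PFun.lean` (`v = 2`) apply.
-/

namespace RAF

open Filter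

variable {M : ℕ} {t K : ℝ} {g : ℕ → ℝ}

private theorem LowS_FX (k : ℕ) (x : ℝ) : FX k x = RLC.PP (fun _ => 2) k x := by
  unfold FX RLC.PP RLC.pa
  simp

private theorem LowS_two (i : ℕ) : (fun _ : ℕ => (2 : ℝ)) i ∈ Set.Icc (1 : ℝ) 2 := by
  constructor <;> norm_num

private theorem LowS_cnt_add (M : ℕ) (t : ℝ) (g : ℕ → ℝ) (ω : ℕ → ℝ × ℝ) (k : ℕ) {A B C : ℕ} (h1 : A ≤ B) (h2 : B ≤ C) :
    cnt M t g ω k (Finset.Ioc A C) = cnt M t g ω k (Finset.Ioc A B) + cnt M t g ω k (Finset.Ioc B C) := by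
  classical
  unfold cnt
  rw [← Finset.card_union_of_disjoint, ← Finset.filter_union, Finset.Ioc_union_Ioc_eq_Ioc h1 h2]
  apply Finset.disjoint_filter_filter
  rw [Finset.disjoint_left]
  intro x hx hx'
  rw [Finset.mem_Ioc] at hx hx'
  omega

private theorem LowS_cnt_mono (M : ℕ) (t : ℝ) (g : ℕ → ℝ) (ω : ℕ → ℝ × ℝ) (k : ℕ) {S T : Finset ℕ} (h : S ⊆ T) :
    cnt M t g ω k S ≤ cnt M t g ω k T := by
  classical
  unfold cnt
  exact Finset.card_le_card (Finset.filter_subset_filter _ h)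

private theorem LowS_sum (M : ℕ) (t : ℝ) (g : ℕ → ℝ) (ω : ℕ → ℝ × ℝ) (k : ℕ) {W : ℕ → ℕ} (hW : Monotone W) {c P : ℝ} {m0 : ℕ} :
    ∀ m1 : ℕ, m0 ≤ m1 →
    (∀ m, m0 ≤ m → m < m1 → c * ((W (m + 1) : ℝ) - W m) ≤ (cnt M t g ω k (Finset.Ioc (W m) (W (m + 1))) : ℝ) * P) →
    c * ((W m1 : ℝ) - W m0) ≤ (cnt M t g ω k (Finset.Ioc (W m0) (W m1)) : ℝ) * P := by
  intro m1 hm
  induction m1, hm using Nat.le_induction with
  | base =>
    intro _
    simp [cnt]
  | succ n hn ih =>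
    intro h
    have h1 := ih (fun m hm hm' => h m hm (by omega))
    have h2 := h n hn (by omega)
    rw [LowS_cnt_add M t g ω k (hW hn) (hW (Nat.le_succ n))]
    push_cast
    have h3 : c * ((W (n + 1) : ℝ) - W m0) = c * ((W (n + 1) : ℝ) - W n) + c * ((W n : ℝ) - W m0) := by ring
    rw [h3]
    linarith

/-- the admissible `k` are admissible for `Y` with `X/T ≤ Y ≤ X` -/
private theorem LowS_k {ε T : ℝ} (hε : 0 < ε) (hε1 : ε < 1) (hT : 0 < T) : ∀ᶠ X : ℕ in atTop, ∀ Y : ℕ,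
    (X : ℝ) / T ≤ Y → Y ≤ X →
    (1 - ε) * (Real.log X / Real.log (Real.log X)) ≤ (1 - ε / 2) * (Real.log Y / Real.log (Real.log Y)) := by
  have hlog : Tendsto (fun X : ℕ => Real.log (X : ℝ)) atTop atTop :=
    Real.tendsto_log_atTop.comp tendsto_natCast_atTop_atTop
  have e1 : ∀ᶠ X : ℕ in atTop, Real.log T / (ε / 2) ≤ Real.log (X : ℝ) := hlog.eventually_ge_atTop _
  have e2 : ∀ᶠ X : ℕ in atTop, 3 * T ≤ (X : ℝ) := tendsto_natCast_atTop_atTop.eventually_ge_atTop _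
  have e3 : ∀ᶠ X : ℕ in atTop, 3 ≤ (X : ℝ) := tendsto_natCast_atTop_atTop.eventually_ge_atTop _
  filter_upwards [e1, e2, e3] with X h1 h2 h3 Y hY hYX
  have hX0 : (0 : ℝ) < X := by linarith
  have hY3 : (3 : ℝ) ≤ Y := le_trans (by rw [le_div_iff₀ hT]; exact h2) hY
  have hYX' : (Y : ℝ) ≤ X := by exact_mod_cast hYX
  have hY0 : (0 : ℝ) < Y := by linarith
  have hl3 : 1 < Real.log 3 := by
    rw [Real.lt_log_iff_exp_lt (by norm_num)]
    have := Real.exp_one_lt_d9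
    linarith
  have hlY : 1 < Real.log Y := lt_of_lt_of_le hl3 (Real.log_le_log (by norm_num) hY3)
  have hlX : Real.log Y ≤ Real.log X := Real.log_le_log hY0 hYX'
  have hllY : 0 < Real.log (Real.log Y) := Real.log_pos hlY
  have hll : Real.log (Real.log Y) ≤ Real.log (Real.log X) := Real.log_le_log (by linarith) hlX
  have hllX : 0 < Real.log (Real.log X) := lt_of_lt_of_le hllY hll
  have hlYX : Real.log X - Real.log T ≤ Real.log Y := by
    rw [← Real.log_div hX0.ne' hT.ne']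
    exact Real.log_le_log (by positivity) hY
  have hkey : (1 - ε) * Real.log X ≤ (1 - ε / 2) * Real.log Y := by
    have h4 : Real.log T ≤ ε / 2 * Real.log X := by
      rw [div_le_iff₀ (by linarith)] at h1
      linarith
    have h5 : (1 - ε / 2) * (Real.log X - Real.log T) ≤ (1 - ε / 2) * Real.log Y :=
      mul_le_mul_of_nonneg_left hlYX (by linarith)
    have h6 : 0 ≤ Real.log X := by linarith
    by_cases h7 : 0 ≤ Real.log T
    · nlinarith [mul_nonneg hε.le h7]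
    · push Not at h7
      nlinarith [mul_nonneg hε.le h6, mul_nonneg (by linarith : (0 : ℝ) ≤ 1 - ε / 2) (by linarith : (0:ℝ) ≤ - Real.log T)]
  calc (1 - ε) * (Real.log X / Real.log (Real.log X)) = (1 - ε) * Real.log X / Real.log (Real.log X) := by ring
    _ ≤ (1 - ε / 2) * Real.log Y / Real.log (Real.log X) := by gcongr
    _ ≤ (1 - ε / 2) * Real.log Y / Real.log (Real.log Y) := by
        apply div_le_div_of_nonneg_left _ hllY hll
        have : 0 ≤ 1 - ε / 2 := by linarith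
        nlinarith
    _ = (1 - ε / 2) * (Real.log Y / Real.log (Real.log Y)) := by ring

private theorem LowS_main (hMp : 0 < M) {ω : ℕ → ℝ × ℝ} (hW : WinAs M t g ω) {ε : ℝ} (hε : 0 < ε) (hε1 : ε < 1)
    {e : ℝ} (he : 0 < e) (he1 : e < 1) : ∀ᶠ X : ℕ in atTop, ∀ k : ℕ, 1 ≤ k →
    (k : ℝ) ≤ (1 - ε) * (Real.log X / Real.log (Real.log X)) →
    (1 - e) * cM M k * X ≤ (cnt M t g ω k (Finset.Ioc 0 X) : ℝ) * FX k X := by
  obtain ⟨Q, hM⟩ := exists_nat_ge (16 / e)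
  have hM0 : (0 : ℝ) < Q := lt_of_lt_of_le (by positivity) hM
  have hM1 : 1 ≤ Q := by
    have : 0 < Q := by exact_mod_cast hM0
    omega
  have hMe : 2 / (Q : ℝ) ≤ e / 8 := by
    rw [div_le_div_iff₀ hM0 (by norm_num)]
    rw [div_le_iff₀ he] at hM
    linarith
  obtain ⟨hwt, hwm, hw2, -, hw1⟩ := RLC.win_facts hM1
  have hwc := hW (ε / 2) (by linarith) (by linarith) Q hM1 (e / 8) (by linarith)
  obtain ⟨N1, HN1⟩ := eventually_atTop.1 hw2
  obtain ⟨N2, HN2⟩ := eventually_atTop.1 hw1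
  obtain ⟨N3, HN3⟩ := eventually_atTop.1 hwc
  set N := N1 + N2 + N3 with hN
  have hT : (0 : ℝ) < 8 / e := by positivity
  have ek := LowS_k hε hε1 hT
  have ew : ∀ᶠ X : ℕ in atTop, ((RLC.win Q (N + 1) : ℝ) + 2) * (8 / e) ≤ (X : ℝ) :=
    tendsto_natCast_atTop_atTop.eventually_ge_atTop _
  filter_upwards [ek, ew] with X hXk hXw k hk1 hk
  have hwN : (RLC.win Q (N + 1) : ℝ) + 2 ≤ (X : ℝ) / (8 / e) := by rw [le_div_iff₀ hT]; exact hXw
  have h8e : 1 ≤ 8 / e := by rw [le_div_iff₀ he]; linarith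
  have hX0 : (0 : ℝ) < X := by
    have : (0 : ℝ) ≤ (RLC.win Q (N + 1) : ℝ) := Nat.cast_nonneg _
    have h3 : (0 : ℝ) < (X : ℝ) / (8 / e) := by linarith
    exact (div_pos_iff_of_pos_right hT).1 h3
  have hXT : (X : ℝ) / (8 / e) ≤ X := div_le_self hX0.le h8e
  -- m0
  have hex0 : ∃ m, (X : ℝ) / (8 / e) ≤ (RLC.win Q m : ℝ) := by
    have := (tendsto_natCast_atTop_atTop (R := ℝ)).comp hwt
    exact (this.eventually_ge_atTop ((X : ℝ) / (8 / e))).exists
  have hex1 : ∃ m, X < RLC.win Q m := (hwt.eventually_gt_atTop X).exists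
  classical
  set m0 := Nat.find hex0 with hm0
  have hm0s : (X : ℝ) / (8 / e) ≤ (RLC.win Q m0 : ℝ) := Nat.find_spec hex0
  set m2 := Nat.find hex1 with hm2
  have hm2s : X < RLC.win Q m2 := Nat.find_spec hex1
  have hm0N : N + 1 < m0 := by
    by_contra hcon
    push Not at hcon
    have h4 : RLC.win Q m0 ≤ RLC.win Q (N + 1) := hwm hcon
    have h5 : (RLC.win Q m0 : ℝ) ≤ (RLC.win Q (N + 1) : ℝ) := by exact_mod_cast h4
    linarith
  have hm2m : m0 ≤ m2 := by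
    apply Nat.find_min' hex0
    have : (X : ℝ) < (RLC.win Q m2 : ℝ) := by exact_mod_cast hm2s
    linarith
  have hm0p : (RLC.win Q (m0 - 1) : ℝ) < (X : ℝ) / (8 / e) := by
    have := Nat.find_min hex0 (show m0 - 1 < m0 by omega)
    push Not at this
    exact this
  have hm0le : (RLC.win Q m0 : ℝ) ≤ 2 * ((X : ℝ) / (8 / e)) := by
    have h4 := HN1 (m0 - 1) (by omega)
    rw [show m0 - 1 + 1 = m0 by omega] at h4
    have h5 : (RLC.win Q m0 : ℝ) ≤ 2 * (RLC.win Q (m0 - 1) : ℝ) := by exact_mod_cast h4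
    linarith
  obtain ⟨m1, hm1⟩ : ∃ m1, m2 = m1 + 1 := ⟨m2 - 1, by omega⟩
  have hm1X : RLC.win Q m1 ≤ X := by
    have := Nat.find_min hex1 (show m1 < m2 by omega)
    push Not at this
    exact this
  have hm1l : (X : ℝ) ≤ (1 + 2 / (Q : ℝ)) * RLC.win Q m1 := by
    have h4 := HN2 m1 (by omega)
    have h5 : (X : ℝ) < (RLC.win Q m2 : ℝ) := by exact_mod_cast hm2s
    rw [hm1] at h5
    linarith
  have h1M : (X : ℝ) * (1 - e / 8) ≤ (RLC.win Q m1 : ℝ) := by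
    have h4 : (X : ℝ) ≤ (1 + e / 8) * RLC.win Q m1 := by
      have : (0 : ℝ) ≤ (RLC.win Q m1 : ℝ) := Nat.cast_nonneg _
      nlinarith
    have h5 : (X : ℝ) * (1 - e / 8) ≤ (1 + e / 8) * RLC.win Q m1 * (1 - e / 8) :=
      mul_le_mul_of_nonneg_right h4 (by linarith)
    have h6 : (0 : ℝ) ≤ (RLC.win Q m1 : ℝ) := Nat.cast_nonneg _
    nlinarith [mul_nonneg (mul_nonneg he.le he.le) h6]
  have hXe : (X : ℝ) / (8 / e) = e / 8 * X := by field_simp
  have hm01 : m0 ≤ m1 := by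
    by_contra hcon
    push Not at hcon
    have h4 : m1 ≤ m0 - 1 := by omega
    have h5 : (RLC.win Q m1 : ℝ) ≤ (RLC.win Q (m0 - 1) : ℝ) := by exact_mod_cast hwm h4
    rw [hXe] at hm0p
    nlinarith
  -- the windows
  have hPX : 0 < FX k X := by
    rw [LowS_FX]
    apply RLC.PP_pos LowS_two
    have : (0 : ℝ) ≤ (RLC.win Q (N + 1) : ℝ) := Nat.cast_nonneg _
    linarith
  have hsum := LowS_sum M t g ω k hwm (c := (1 - e / 8) * cM M k) (P := FX k X) m1 hm01 (by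
    intro m hm hm'
    have hmX : RLC.win Q m ≤ X := le_trans (hwm (by omega : m ≤ m1)) hm1X
    have hmT : (X : ℝ) / (8 / e) ≤ (RLC.win Q m : ℝ) := le_trans hm0s (by exact_mod_cast hwm hm)
    have h4 := HN3 m (by omega) k hk1 (le_trans hk (hXk _ hmT hmX))
    rw [abs_le] at h4
    have h5 : FX k (RLC.win Q m) ≤ FX k X := by
      rw [LowS_FX, LowS_FX]
      apply RLC.PP_mono LowS_two
      · have : (0 : ℝ) ≤ (RLC.win Q (N + 1) : ℝ) := Nat.cast_nonneg _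
        linarith
      · exact_mod_cast hmX
    have h6 : (cnt M t g ω k (Finset.Ioc (RLC.win Q m) (RLC.win Q (m + 1))) : ℝ) * FX k (RLC.win Q m) ≤
        (cnt M t g ω k (Finset.Ioc (RLC.win Q m) (RLC.win Q (m + 1))) : ℝ) * FX k X :=
      mul_le_mul_of_nonneg_left h5 (Nat.cast_nonneg _)
    linarith [h4.1])
  have hmono : (cnt M t g ω k (Finset.Ioc (RLC.win Q m0) (RLC.win Q m1)) : ℝ) ≤ (cnt M t g ω k (Finset.Ioc 0 X) : ℝ) := by
    have := LowS_cnt_mono M t g ω k (Finset.Ioc_subset_Ioc (Nat.zero_le (RLC.win Q m0)) hm1X)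
    exact_mod_cast this
  have hfin : (cnt M t g ω k (Finset.Ioc (RLC.win Q m0) (RLC.win Q m1)) : ℝ) * FX k X ≤
      (cnt M t g ω k (Finset.Ioc 0 X) : ℝ) * FX k X := mul_le_mul_of_nonneg_right hmono hPX.le
  have hc0 : 0 < cM M k := cM_pos hMp k
  have h7 : (1 - e / 8) * ((X : ℝ) * (1 - e / 8) - 2 * (e / 8 * X)) ≤ (1 - e / 8) * ((RLC.win Q m1 : ℝ) - RLC.win Q m0) := by
    rw [hXe] at hm0le
    apply mul_le_mul_of_nonneg_left _ (by linarith)
    linarith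
  have h8 : (1 - e) * (X : ℝ) ≤ (1 - e / 8) * ((X : ℝ) * (1 - e / 8) - 2 * (e / 8 * X)) := by
    nlinarith [mul_nonneg (mul_nonneg he.le he.le) hX0.le, mul_nonneg he.le hX0.le]
  have h9 := mul_le_mul_of_nonneg_left (le_trans h8 h7) hc0.le
  calc (1 - e) * cM M k * X = cM M k * ((1 - e) * X) := by ring
    _ ≤ cM M k * ((1 - e / 8) * ((RLC.win Q m1 : ℝ) - RLC.win Q m0)) := h9
    _ = (1 - e / 8) * cM M k * ((RLC.win Q m1 : ℝ) - RLC.win Q m0) := by ring
    _ ≤ _ := le_trans hsum hfin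

theorem cnt_lower (hM : 0 < M) {ω : ℕ → ℝ × ℝ} (hW : WinAs M t g ω) {ε : ℝ} (hε : 0 < ε) (hε1 : ε < 1)
    {e : ℝ} (he : 0 < e) : ∀ᶠ X : ℕ in atTop, ∀ k : ℕ, 1 ≤ k →
    (k : ℝ) ≤ (1 - ε) * (Real.log X / Real.log (Real.log X)) →
    (1 - e) * cM M k * X ≤ (cnt M t g ω k (Finset.Ioc 0 X) : ℝ) * FX k X := by
  have he' : 0 < min e (1 / 2) := lt_min he (by norm_num)
  have he1 : min e (1 / 2) < 1 := lt_of_le_of_lt (min_le_right _ _) (by norm_num)
  filter_upwards [LowS_main hM hW hε hε1 he' he1] with X hX k hk1 hk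
  refine le_trans ?_ (hX k hk1 hk)
  apply mul_le_mul_of_nonneg_right _ (Nat.cast_nonneg _)
  apply mul_le_mul_of_nonneg_right _ (cM_pos hM k).le
  linarith [min_le_left e (1 / 2)]

end RAF
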