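import Pool.Agent.RAF.Mom1

/-!
# RAF.UpF: every chain contains a number which is not prime

PROOF. On the event that the first `j + 1` members are primes, `wt n j = ∏_{i≤j} log (ch n i) ≥ ∏_{i≤j} log (2^i n)` (`ch_ge`), so by `mom_one` and Markov its probability is at most
`th n C^j/∏_{i≤j} log (2^i n) → 0`.
-/

namespace RAF

open MeasureTheory Filter

variable {M : ℕ} {t K : ℝ} {g : ℕ → ℝ}

private theorem UpF_lim (C : ℝ) (hC : 1 ≤ C) (a : ℝ) {n : ℕ} (hn : 2 ≤ n) :
    Tendsto (fun j : ℕ => a * C ^ j / ∏ i ∈ Finset.range (j + 1), Real.log (2 ^ i * n)) atTop (nhds 0) := by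
  have hn' : (2 : ℝ) ≤ n := by exact_mod_cast hn
  have hpos : ∀ i : ℕ, 0 < Real.log (2 ^ i * n) := by
    intro i
    apply Real.log_pos
    have : (1 : ℝ) ≤ 2 ^ i := one_le_pow₀ (by norm_num)
    nlinarith
  have hP : ∀ j : ℕ, 0 < ∏ i ∈ Finset.range (j + 1), Real.log (2 ^ i * n) := fun j =>
    Finset.prod_pos fun i _ => hpos i
  have hl : Tendsto (fun j : ℕ => C / Real.log (2 ^ (j + 1) * n)) atTop (nhds 0) := by
    apply Tendsto.div_atTop tendsto_const_nhds
    apply Real.tendsto_log_atTop.comp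
    have h1 : Tendsto (fun j : ℕ => (2 : ℝ) ^ (j + 1)) atTop atTop :=
      (tendsto_pow_atTop_atTop_of_one_lt (by norm_num)).comp (tendsto_add_atTop_nat 1)
    exact h1.atTop_mul_const (by linarith)
  have hs : Summable (fun j : ℕ => C ^ j / ∏ i ∈ Finset.range (j + 1), Real.log (2 ^ i * n)) := by
    apply summable_of_ratio_test_tendsto_lt_one (l := 0) (by norm_num)
    · filter_upwards with j
      have := hP j
      positivity
    · refine hl.congr fun j => ?_
      have h1 := hP j
      have h2 := hP (j + 1)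
      rw [Real.norm_of_nonneg (by positivity), Real.norm_of_nonneg (by positivity)]
      rw [Finset.prod_range_succ _ (j + 1)]
      have h3 := hpos (j + 1)
      have hC0 : 0 < C := by linarith
      obtain ⟨Q, hQ⟩ : ∃ Q, Q = ∏ i ∈ Finset.range (j + 1), Real.log (2 ^ i * n) := ⟨_, rfl⟩
      obtain ⟨R, hR⟩ : ∃ R, R = Real.log (2 ^ (j + 1) * n) := ⟨_, rfl⟩
      rw [← hQ] at h1 ⊢
      rw [← hR] at h3 ⊢
      rw [pow_succ]
      field_simp
  have := hs.tendsto_atTop_zero.const_mul a
  rw [mul_zero] at this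
  refine this.congr fun j => ?_
  rw [mul_div_assoc]

private theorem UpF_one (h : Adm M t K g) (n : ℕ) : ∀ᵐ ω ∂Pm, ∃ i, ¬ (ch M t g ω n i).Prime := by
  classical
  by_cases hp : n.Prime
  · obtain ⟨C, hC, hmom⟩ := mom_one h
    have hn := hp.two_le
    have hn0 : 0 < n := hp.pos
    have hn' : (2 : ℝ) ≤ n := by exact_mod_cast hn
    rw [ae_iff]
    have hpos : ∀ i : ℕ, 0 < Real.log (2 ^ i * n) := by
      intro i
      apply Real.log_pos
      have : (1 : ℝ) ≤ 2 ^ i := one_le_pow₀ (by norm_num)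
      nlinarith
    have hP : ∀ j : ℕ, 0 < ∏ i ∈ Finset.range (j + 1), Real.log (2 ^ i * n) := fun j =>
      Finset.prod_pos fun i _ => hpos i
    have hbd : ∀ j : ℕ, Pm {ω | ¬ ∃ i, ¬ (ch M t g ω n i).Prime} ≤
        ENNReal.ofReal (RLC.th n * C ^ j / ∏ i ∈ Finset.range (j + 1), Real.log (2 ^ i * n)) := by
      intro j
      have hsub : {ω | ¬ ∃ i, ¬ (ch M t g ω n i).Prime} ⊆
          {ω | ENNReal.ofReal (∏ i ∈ Finset.range (j + 1), Real.log (2 ^ i * n)) ≤
            ENNReal.ofReal (wt M t g n j ω)} := by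
        intro ω hω
        rw [Set.mem_setOf_eq] at hω
        push Not at hω
        rw [Set.mem_setOf_eq]
        apply ENNReal.ofReal_le_ofReal
        unfold wt
        apply Finset.prod_le_prod
        · intro i _
          exact (hpos i).le
        · intro i _
          rw [RLC.th, if_pos (hω i)]
          apply Real.log_le_log
          · have : (0 : ℝ) < 2 ^ i := by positivity
            nlinarith
          · exact_mod_cast ch_ge M t g ω n i
      refine (measure_mono hsub).trans ?_
      have hm := mul_meas_ge_le_lintegral₀ (μ := Pm) (f := fun ω => ENNReal.ofReal (wt M t g n j ω))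
        ((wt_meas M t g n j).ennreal_ofReal.aemeasurable)
        (ENNReal.ofReal (∏ i ∈ Finset.range (j + 1), Real.log (2 ^ i * n)))
      have h2 := hm.trans (hmom n hn0 j)
      have hne : ENNReal.ofReal (∏ i ∈ Finset.range (j + 1), Real.log (2 ^ i * n)) ≠ 0 := by
        rw [Ne, ENNReal.ofReal_eq_zero, not_le]
        exact hP j
      rw [ENNReal.ofReal_div_of_pos (hP j)]
      rw [ENNReal.le_div_iff_mul_le (Or.inl hne) (Or.inl ENNReal.ofReal_ne_top), mul_comm]
      exact h2
    have hlim := UpF_lim C hC (RLC.th n) hn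
    have hlim2 : Tendsto (fun j : ℕ => ENNReal.ofReal
        (RLC.th n * C ^ j / ∏ i ∈ Finset.range (j + 1), Real.log (2 ^ i * n))) atTop (nhds 0) := by
      have := (ENNReal.continuous_ofReal.tendsto 0).comp hlim
      rwa [ENNReal.ofReal_zero] at this
    exact le_antisymm (ge_of_tendsto' hlim2 hbd) zero_le
  · refine Eventually.of_forall fun ω => ⟨0, ?_⟩
    rw [ch_zero]
    exact hp

theorem ae_fin (h : Adm M t K g) : ∀ᵐ ω ∂Pm, ∀ n : ℕ, ∃ i, ¬ (ch M t g ω n i).Prime := by
  rw [ae_all_iff]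
  exact fun n => UpF_one h n

end RAF
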