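import Pool.Agent.RAF.Mom1

/-!
# RAF.UpL: there are no longer chains

PROOF. Copy `Pool/Agent/RLC/UpL.lean` (private lemmas there; here it is simpler, without the `D i`). `Y = 2^m`, `k = ⌈(1+ε/2) log Y/log log Y⌉₊`, `j = k - 1`. If the first `k` members of the chain of
`n ∈ [2^m, 2^(m+1))` are primes, then `wt n (k-1) ω = ∏_{i<k} log (ch n i) ≥ (log Y)^k` (`ch_ge`). By `mom_one` and Markov the probability that there is such an `n` is at most
`2^m (m+1) C^k/(log Y)^k`, and `(log Y)^k ≥ Y^(1+ε/2)`, `C^k = Y^(o(1))`: summable over `m`. The rest as there.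
-/

set_option linter.all false

namespace RAF

open MeasureTheory Filter

variable {M : ℕ} {t K : ℝ} {g : ℕ → ℝ}

private theorem UpL_mono {x y : ℝ} (hx : Real.exp 1 ≤ x) (hxy : x ≤ y) :
    x / Real.log x ≤ y / Real.log y := by
  have hx0 : 0 < x := lt_of_lt_of_le (Real.exp_pos 1) hx
  have hy0 : 0 < y := lt_of_lt_of_le hx0 hxy
  have h1 : ∀ z : ℝ, Real.exp 1 ≤ z → 0 < Real.log z := by
    intro z hz
    have := Real.log_le_log (Real.exp_pos 1) hz
    rw [Real.log_exp] at this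
    linarith
  have hlx := h1 x hx
  have hly := h1 y (hx.trans hxy)
  have h2 : Real.log y / y ≤ Real.log x / x :=
    Real.log_div_self_antitoneOn hx (hx.trans hxy) hxy
  rw [div_le_div_iff₀ hy0 hx0] at h2
  rw [div_le_div_iff₀ hlx hly]
  linarith

private theorem UpL_real {ε C : ℝ} (hε : 0 < ε) (hε1 : ε ≤ 1) (hC : 1 ≤ C) :
    ∃ L0 : ℝ, 3 ≤ L0 ∧ ∀ Y : ℝ, L0 ≤ Real.log Y → 0 < Y →
    Y * (Real.log (2 * Y) * C ^ (⌈(1 + ε / 2) * (Real.log Y / Real.log (Real.log Y))⌉₊ - 1)) /
      (Real.log Y) ^ ⌈(1 + ε / 2) * (Real.log Y / Real.log (Real.log Y))⌉₊ ≤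
      Real.exp (-(ε / 8) * Real.log Y) := by
  have e1 : ∀ᶠ L : ℝ in atTop, 4 + Real.log C ≤ (ε / 16) * Real.log L :=
    (Real.tendsto_log_atTop.const_mul_atTop (by positivity)).eventually_ge_atTop _
  have e2 : ∀ᶠ L : ℝ in atTop, 2 * L ≤ Real.exp ((ε / 8) * L) := by
    have h1 : Tendsto (fun L : ℝ => Real.exp ((ε / 8) * L) / ((ε / 8) * L)) atTop atTop := by
      have h2 := Real.tendsto_exp_div_pow_atTop 1
      have h3 : Tendsto (fun L : ℝ => (ε / 8) * L) atTop atTop :=
        tendsto_id.const_mul_atTop (by positivity)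
      have h4 := h2.comp h3
      refine h4.congr fun L => ?_
      simp only [Function.comp, pow_one]
    filter_upwards [h1.eventually_ge_atTop (16 / ε), eventually_gt_atTop 0] with L hL hL0
    rw [le_div_iff₀ (by positivity)] at hL
    have h5 : 16 / ε * (ε / 8 * L) = 2 * L := by
      field_simp
      ring
    linarith
  obtain ⟨L0, hL0⟩ := eventually_atTop.1 (e1.and e2)
  refine ⟨max L0 3, le_max_right _ _, ?_⟩
  intro Y hY hY0
  obtain ⟨h1, h2⟩ := hL0 (Real.log Y) ((le_max_left _ _).trans hY)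
  have h3 : 3 ≤ Real.log Y := (le_max_right _ _).trans hY
  set L := Real.log Y with hL
  set k := ⌈(1 + ε / 2) * (L / Real.log L)⌉₊ with hk
  have hlC : 0 ≤ Real.log C := Real.log_nonneg hC
  have hLL3 : 4 ≤ Real.log L := by nlinarith
  have hLpos : 0 < L := by linarith
  have hkx : (1 + ε / 2) * (L / Real.log L) ≤ k := Nat.le_ceil _
  have hYL : Y = Real.exp L := by rw [hL, Real.exp_log hY0]
  have hlog2 : Real.log (2 * Y) ≤ 2 * L := by
    rw [Real.log_mul (by norm_num) hY0.ne']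
    have := Real.log_two_lt_d9
    linarith
  have hC0 : 0 < C := by linarith
  have hCk : C ^ (k - 1) ≤ Real.exp (k * Real.log C) := by
    calc C ^ (k - 1) ≤ C ^ k := pow_le_pow_right₀ hC (Nat.sub_le _ _)
      _ = Real.exp (k * Real.log C) := by
        rw [← Real.exp_log hC0, ← Real.exp_nat_mul, Real.log_exp]
  have hkpos : 0 < k := Nat.ceil_pos.2 (by positivity)
  have hLk : Real.exp (k * Real.log L) = L ^ k := by
    rw [Real.exp_nat_mul, Real.exp_log hLpos]
  rw [div_le_iff₀ (pow_pos hLpos _)]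
  have hkk : (1 + ε / 2) * (1 - ε / 8) * L ≤ k * (Real.log L - Real.log C) := by
    have h5 : (1 - ε / 8) * Real.log L ≤ Real.log L - Real.log C := by nlinarith
    have h6 : (1 + ε / 2) * L ≤ k * Real.log L := by
      have h7 : (1 + ε / 2) * (L / Real.log L) * Real.log L ≤ k * Real.log L :=
        mul_le_mul_of_nonneg_right hkx (by linarith)
      have h8 : (1 + ε / 2) * (L / Real.log L) * Real.log L = (1 + ε / 2) * L := by
        field_simp
      linarith
    calc (1 + ε / 2) * (1 - ε / 8) * L = ((1 + ε / 2) * L) * (1 - ε / 8) := by ring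
      _ ≤ (k * Real.log L) * (1 - ε / 8) := mul_le_mul_of_nonneg_right h6 (by linarith)
      _ = k * ((1 - ε / 8) * Real.log L) := by ring
      _ ≤ k * (Real.log L - Real.log C) := mul_le_mul_of_nonneg_left h5 (by positivity)
  have hexp : ε / 8 * L ≤ k * (Real.log L - Real.log C) - (1 + ε / 8) * L := by
    have h9 : (1 + ε / 8 + ε / 8) * L ≤ (1 + ε / 2) * (1 - ε / 8) * L := by
      apply mul_le_mul_of_nonneg_right _ hLpos.le
      nlinarith
    linarith
  calc Y * (Real.log (2 * Y) * C ^ (k - 1))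
      ≤ Real.exp L * (Real.exp ((ε / 8) * L) * Real.exp (k * Real.log C)) := by
        rw [hYL] at hlog2 ⊢
        apply mul_le_mul_of_nonneg_left _ (Real.exp_pos _).le
        exact mul_le_mul (hlog2.trans h2) hCk (by positivity) (Real.exp_pos _).le
    _ ≤ Real.exp (-(ε / 8) * L) * Real.exp (k * Real.log L) := by
        rw [← Real.exp_add, ← Real.exp_add, ← Real.exp_add]
        apply Real.exp_le_exp.2
        linarith
    _ = Real.exp (-(ε / 8) * L) * L ^ k := by rw [hLk]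

private theorem UpL_one (h : Adm M t K g) {ε : ℝ} (hε : 0 < ε) (hε1 : ε ≤ 1) :
    ∀ᵐ ω ∂Pm, ∀ᶠ n : ℕ in atTop,
      ¬ ∀ i : ℕ, (i : ℝ) < (1 + ε) * (Real.log n / Real.log (Real.log n)) → (ch M t g ω n i).Prime := by
  obtain ⟨C, hC, hmom⟩ := mom_one h
  obtain ⟨L0, hL0, hreal⟩ := UpL_real hε hε1 hC
  -- the scale
  set k : ℕ → ℕ := fun m => ⌈(1 + ε / 2) * (Real.log (2 ^ m : ℕ) / Real.log (Real.log (2 ^ m : ℕ)))⌉₊ with hk
  have hlogm : ∀ m : ℕ, Real.log ((2 ^ m : ℕ) : ℝ) = m * Real.log 2 := by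
    intro m
    push_cast
    rw [Real.log_pow]
  have hlt : Tendsto (fun m : ℕ => Real.log ((2 ^ m : ℕ) : ℝ)) atTop atTop := by
    simp_rw [hlogm]
    exact tendsto_natCast_atTop_atTop.atTop_mul_const (Real.log_pos (by norm_num))
  obtain ⟨m0, hm0⟩ := eventually_atTop.1 (hlt.eventually_ge_atTop L0)
  -- the events
  set s : ℕ → Set (ℕ → ℝ × ℝ) := fun m => {ω | ENNReal.ofReal (Real.log ((2 ^ m : ℕ) : ℝ) ^ k m) ≤
    ∑ n ∈ Finset.Ico (2 ^ m) (2 ^ (m + 1)), ENNReal.ofReal (wt M t g n (k m - 1) ω)} with hs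
  have hkpos : ∀ m, m0 ≤ m → 0 < k m := by
    intro m hm
    apply Nat.ceil_pos.2
    have hL := hm0 m hm
    have h3 : 0 < Real.log ((2 ^ m : ℕ) : ℝ) / Real.log (Real.log ((2 ^ m : ℕ) : ℝ)) :=
      div_pos (by linarith) (Real.log_pos (by linarith))
    positivity
  have hbound : ∀ m, m0 ≤ m → Pm (s m) ≤
      ENNReal.ofReal (Real.exp (-(ε / 8) * Real.log 2) ^ m) := by
    intro m hm
    have hL := hm0 m hm
    have hpos : 0 < Real.log ((2 ^ m : ℕ) : ℝ) ^ k m := pow_pos (by linarith) _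
    have hmeas : ∀ n ∈ Finset.Ico (2 ^ m) (2 ^ (m + 1)),
        Measurable fun ω => ENNReal.ofReal (wt M t g n (k m - 1) ω) := fun n _ =>
      (wt_meas M t g n _).ennreal_ofReal
    have h1 := meas_ge_le_lintegral_div (μ := Pm)
      (f := fun ω => ∑ n ∈ Finset.Ico (2 ^ m) (2 ^ (m + 1)), ENNReal.ofReal (wt M t g n (k m - 1) ω))
      (Finset.measurable_sum _ hmeas).aemeasurable
      (ε := ENNReal.ofReal (Real.log ((2 ^ m : ℕ) : ℝ) ^ k m))
      (by rw [Ne, ENNReal.ofReal_eq_zero, not_le]; exact hpos) ENNReal.ofReal_ne_top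
    refine h1.trans ?_
    rw [lintegral_finsetSum _ hmeas]
    have h2 : ∑ n ∈ Finset.Ico (2 ^ m) (2 ^ (m + 1)),
        ∫⁻ ω, ENNReal.ofReal (wt M t g n (k m - 1) ω) ∂Pm ≤
        ENNReal.ofReal (((2 ^ m : ℕ) : ℝ) * (Real.log (2 * ((2 ^ m : ℕ) : ℝ)) *
          C ^ (k m - 1))) := by
      calc ∑ n ∈ Finset.Ico (2 ^ m) (2 ^ (m + 1)),
          ∫⁻ ω, ENNReal.ofReal (wt M t g n (k m - 1) ω) ∂Pm
          ≤ ∑ n ∈ Finset.Ico (2 ^ m) (2 ^ (m + 1)),
            ENNReal.ofReal (Real.log (2 * ((2 ^ m : ℕ) : ℝ)) * C ^ (k m - 1)) := by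
            refine Finset.sum_le_sum fun n hn => ?_
            obtain ⟨hn1, hn2⟩ := Finset.mem_Ico.1 hn
            have hn0 : 0 < n := lt_of_lt_of_le (by positivity) hn1
            refine (hmom n hn0 (k m - 1)).trans ?_
            apply ENNReal.ofReal_le_ofReal
            apply mul_le_mul_of_nonneg_right _ (by positivity)
            have hn0' : (0 : ℝ) < n := by exact_mod_cast hn0
            have h5 : (n : ℝ) ≤ 2 * ((2 ^ m : ℕ) : ℝ) := by
              have : n ≤ 2 * 2 ^ m := by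
                rw [pow_succ] at hn2
                omega
              exact_mod_cast this
            refine le_trans ?_ (Real.log_le_log hn0' h5)
            unfold RLC.th
            split_ifs
            · exact le_rfl
            · exact Real.log_nonneg (by exact_mod_cast hn0)
        _ = _ := by
            rw [Finset.sum_const, Nat.card_Ico, nsmul_eq_mul,
              ENNReal.ofReal_mul (p := ((2 ^ m : ℕ) : ℝ)) (Nat.cast_nonneg _), ENNReal.ofReal_natCast]
            congr 2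
            rw [pow_succ]
            omega
    refine (ENNReal.div_le_div_right h2 _).trans ?_
    rw [← ENNReal.ofReal_div_of_pos hpos]
    apply ENNReal.ofReal_le_ofReal
    refine (hreal ((2 ^ m : ℕ) : ℝ) hL (by positivity)).trans (le_of_eq ?_)
    rw [hlogm, ← Real.exp_nat_mul]
    congr 1
    ring
  have hr : Real.exp (-(ε / 8) * Real.log 2) < 1 := by
    rw [Real.exp_lt_one_iff] 
    have := Real.log_pos (show (1 : ℝ) < 2 by norm_num)
    nlinarith
  have hBC : ∀ᵐ ω ∂Pm, ∀ᶠ m : ℕ in atTop, ω ∉ s (m + m0) := by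
    apply ae_eventually_notMem
    have h1 : Summable (fun m : ℕ => Real.exp (-(ε / 8) * Real.log 2) ^ (m + m0)) :=
      (summable_nat_add_iff m0).2 (summable_geometric_of_lt_one (Real.exp_pos _).le hr)
    refine ne_top_of_le_ne_top h1.tsum_ofReal_ne_top ?_
    exact ENNReal.tsum_le_tsum fun m => hbound _ (Nat.le_add_left _ _)
  filter_upwards [hBC] with ω hω1
  obtain ⟨N, hN⟩ := eventually_atTop.1 hω1
  filter_upwards [eventually_ge_atTop (2 ^ (N + m0))] with n hn
  intro hcon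
  -- the block of `n`
  have hnpos : 0 < n := lt_of_lt_of_le (by positivity) hn
  obtain ⟨m, hm1, hm2, hm3⟩ : ∃ m, N + m0 ≤ m ∧ 2 ^ m ≤ n ∧ n < 2 ^ (m + 1) := by
    refine ⟨Nat.log 2 n, ?_, ?_, ?_⟩
    · exact Nat.le_log_of_pow_le (by norm_num) hn
    · exact Nat.pow_log_le_self 2 hnpos.ne'
    · exact Nat.lt_pow_succ_log_self (by norm_num) _
  have hmm0 : m0 ≤ m := by omega
  have hL := hm0 m hmm0
  have hnot : ω ∉ s m := by
    have h1 := hN (m - m0) (by omega)
    rwa [Nat.sub_add_cancel hmm0] at h1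
  have hnI : n ∈ Finset.Ico (2 ^ m) (2 ^ (m + 1)) := Finset.mem_Ico.2 ⟨hm2, hm3⟩
  have hprime : ∀ i < k m, (ch M t g ω n i).Prime := by
    intro i hi
    apply hcon
    have h1 : (i : ℝ) < (1 + ε / 2) * (Real.log (2 ^ m : ℕ) / Real.log (Real.log (2 ^ m : ℕ))) :=
      Nat.lt_ceil.1 hi
    have h2 : Real.log ((2 ^ m : ℕ) : ℝ) / Real.log (Real.log ((2 ^ m : ℕ) : ℝ)) ≤
        Real.log n / Real.log (Real.log n) := by
      apply UpL_mono
      · have := Real.exp_one_lt_d9
        linarith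
      · apply Real.log_le_log (by positivity)
        exact_mod_cast hm2
    have h3 : 0 ≤ Real.log ((2 ^ m : ℕ) : ℝ) / Real.log (Real.log ((2 ^ m : ℕ) : ℝ)) :=
      div_nonneg (by linarith) (Real.log_nonneg (by linarith))
    nlinarith
  apply hnot
  have hth : ∀ i < k m, Real.log ((2 ^ m : ℕ) : ℝ) ≤ RLC.th (ch M t g ω n i) := by
    intro i hi
    rw [RLC.th, if_pos (hprime i hi)]
    apply Real.log_le_log (by positivity)
    have h1 : 2 ^ i * n ≤ ch M t g ω n i := ch_ge M t g ω n i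
    have h2 : 2 ^ m ≤ ch M t g ω n i := by
      calc 2 ^ m ≤ n := hm2
        _ ≤ 2 ^ i * n := Nat.le_mul_of_pos_left n (by positivity)
        _ ≤ _ := h1
    exact_mod_cast h2
  have hw : Real.log ((2 ^ m : ℕ) : ℝ) ^ k m ≤ wt M t g n (k m - 1) ω := by
    unfold wt
    rw [Nat.sub_add_cancel (hkpos m hmm0)]
    calc Real.log ((2 ^ m : ℕ) : ℝ) ^ k m =
        ∏ i ∈ Finset.range (k m), Real.log ((2 ^ m : ℕ) : ℝ) := by
          rw [Finset.prod_const, Finset.card_range]
      _ ≤ ∏ i ∈ Finset.range (k m), RLC.th (ch M t g ω n i) := by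
          apply Finset.prod_le_prod
          · intro i _
            linarith
          · intro i hi
            exact hth i (Finset.mem_range.1 hi)
  change ENNReal.ofReal (Real.log ((2 ^ m : ℕ) : ℝ) ^ k m) ≤
    ∑ n ∈ Finset.Ico (2 ^ m) (2 ^ (m + 1)), ENNReal.ofReal (wt M t g n (k m - 1) ω)
  exact (ENNReal.ofReal_le_ofReal hw).trans
    (Finset.single_le_sum (f := fun n => ENNReal.ofReal (wt M t g n (k m - 1) ω))
      (fun _ _ => zero_le) hnI)

theorem ae_upper (h : Adm M t K g) : ∀ᵐ ω ∂Pm, ∀ ε : ℝ, 0 < ε → ∀ᶠ n : ℕ in atTop,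
    ¬ ∀ i : ℕ, (i : ℝ) < (1 + ε) * (Real.log n / Real.log (Real.log n)) → (ch M t g ω n i).Prime := by
  have h1 : ∀ q : ℕ, ∀ᵐ ω ∂Pm, ∀ᶠ n : ℕ in atTop,
      ¬ ∀ i : ℕ, (i : ℝ) < (1 + 1 / ((q : ℝ) + 1)) * (Real.log n / Real.log (Real.log n)) →
        (ch M t g ω n i).Prime := by
    intro q
    refine UpL_one h (by positivity) ?_
    rw [div_le_one (by positivity)]
    linarith [Nat.cast_nonneg (α := ℝ) q]
  filter_upwards [ae_all_iff.2 h1] with ω hω ε hε
  obtain ⟨q, hq⟩ := exists_nat_one_div_lt hε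
  filter_upwards [hω q, eventually_ge_atTop 3] with n hn hn3 hcon
  apply hn
  intro i hi
  apply hcon
  refine hi.trans_le ?_
  have hlog : 1 ≤ Real.log n := by
    have h3 : Real.exp 1 ≤ n := by
      have := Real.exp_one_lt_d9
      have h4 : (3 : ℝ) ≤ n := by exact_mod_cast hn3
      linarith
    have := Real.log_le_log (Real.exp_pos 1) h3
    rwa [Real.log_exp] at this
  have h2 : 0 ≤ Real.log n / Real.log (Real.log n) :=
    div_nonneg (by linarith) (Real.log_nonneg hlog)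
  exact mul_le_mul_of_nonneg_right (by linarith) h2

end RAF
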