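import Pool.Agent.RAF.WDefs
import Pool.Agent.RLC.UppS

/-!
# RAF.UppS: the upper bound

PROOF. Copy `Pool/Agent/RLC/UppS.lean` (private lemmas there) with `cnt M t g ω` in place of `cnt a β`, `WinAs` in place of `win_cnt`. `FX k x = RLC.PP (fun _ => 2) k x` (`RLC.pa (fun _ => 2) i = 2^i`), so that the lemmas of `Pool/Agent/RLC/PFun.lean` (`v = 2`) apply. The factor
`cM M k`: in (1), `cnt k' ≤ 2 cM M k' Y_m/(log Y_m)^k'` and `cM M k' ≤ r^k'`, `r = M/φ(M)` (`cM_le`), `r^k' ≤ exp(log r · log X/log log X · 2) ≤ X^(ε/8)`; the total of (0) and (1) times `FX k X` is at most `X^(1-ε/8) ≤ (e/8) cM M k X`, as `cM M k ≥ 1/M` (`cM_ge`,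
`ratio_one_le`). In (2) there is the factor `cM M k` everywhere.
-/

namespace RAF

open Filter

variable {M : ℕ} {t K : ℝ} {g : ℕ → ℝ}

private theorem UppS_FX (k : ℕ) (x : ℝ) : FX k x = RLC.PP (fun _ => 2) k x := by
  unfold FX RLC.PP RLC.pa
  refine Finset.prod_congr rfl fun i _ => ?_
  rw [Finset.prod_const, Finset.card_range]

private theorem UppS_two : ∀ i : ℕ, (fun _ : ℕ => (2 : ℝ)) i ∈ Set.Icc (1 : ℝ) 2 := fun _ => by
  constructor <;> norm_num

private theorem UppS_FX_ge {k : ℕ} {x : ℝ} (hx : 1 < x) : Real.log x ^ k ≤ FX k x := by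
  rw [UppS_FX]
  exact RLC.PP_ge UppS_two hx

private theorem UppS_FX_pos {k : ℕ} {x : ℝ} (hx : 1 < x) : 0 < FX k x := by
  rw [UppS_FX]
  exact RLC.PP_pos UppS_two hx

private theorem UppS_FX_ratio {k : ℕ} {x y : ℝ} (hx : 1 < x) (hxy : x ≤ y) :
    FX k y ≤ FX k x * (Real.log y / Real.log x) ^ k := by
  rw [UppS_FX, UppS_FX]
  exact RLC.PP_ratio UppS_two hx hxy

private theorem UppS_r (hM : 0 < M) : 1 ≤ (M : ℝ) / (Nat.totient M : ℝ) := by
  have h1 : 0 < Nat.totient M := Nat.totient_pos.2 hM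
  have h2 : (0 : ℝ) < Nat.totient M := by exact_mod_cast h1
  rw [one_le_div h2]
  exact_mod_cast Nat.totient_le M

/-- `r^k ≤ M cM M k`. -/
private theorem UppS_rk (hM : 0 < M) (k : ℕ) :
    ((M : ℝ) / (Nat.totient M : ℝ)) ^ k ≤ M * cM M k := by
  have h1 := cM_ge hM k
  have hM0 : (0 : ℝ) < M := by exact_mod_cast hM
  have h2 := mul_le_mul_of_nonneg_left h1 hM0.le
  have e1 : (M : ℝ) * (1 / (M : ℝ) * ((M : ℝ) / (Nat.totient M : ℝ)) ^ k) =
      ((M : ℝ) / (Nat.totient M : ℝ)) ^ k := by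
    rw [← mul_assoc, mul_one_div_cancel hM0.ne', one_mul]
  rwa [e1] at h2

private theorem UppS_one_le (hM : 0 < M) (k : ℕ) : 1 ≤ M * cM M k :=
  (one_le_pow₀ (UppS_r hM)).trans (UppS_rk hM k)

private theorem UppS_split (M : ℕ) (t : ℝ) (g : ℕ → ℝ) (ω : ℕ → ℝ × ℝ) (k : ℕ) {y z : ℕ} (h : y ≤ z) :
    cnt M t g ω k (Finset.Ioc 0 z) ≤ cnt M t g ω k (Finset.Ioc 0 y) + cnt M t g ω k (Finset.Ioc y z) := by
  classical
  unfold cnt
  rw [← Finset.Ioc_union_Ioc_eq_Ioc (Nat.zero_le y) h, Finset.filter_union]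
  exact Finset.card_union_le _ _

private theorem UppS_mono (M : ℕ) (t : ℝ) (g : ℕ → ℝ) (ω : ℕ → ℝ × ℝ) (k : ℕ) {S T : Finset ℕ} (h : S ⊆ T) :
    cnt M t g ω k S ≤ cnt M t g ω k T := by
  unfold cnt
  exact Finset.card_le_card (Finset.filter_subset_filter _ h)

private theorem UppS_anti (M : ℕ) (t : ℝ) (g : ℕ → ℝ) (ω : ℕ → ℝ × ℝ) {k k' : ℕ} (h : k' ≤ k) (S : Finset ℕ) :
    cnt M t g ω k S ≤ cnt M t g ω k' S := by
  unfold cnt
  refine Finset.card_le_card fun n hn => ?_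
  rw [Finset.mem_filter] at hn ⊢
  exact ⟨hn.1, fun i hi => hn.2 i (hi.trans_le h)⟩

private theorem UppS_le (M : ℕ) (t : ℝ) (g : ℕ → ℝ) (ω : ℕ → ℝ × ℝ) (k y : ℕ) : cnt M t g ω k (Finset.Ioc 0 y) ≤ y := by
  unfold cnt
  refine (Finset.card_filter_le _ _).trans ?_
  rw [Nat.card_Ioc, Nat.sub_zero]

private theorem UppS_loghalf {x : ℝ} (hx : 0 < x) : Real.log x ≤ x / 2 := by
  have h1 := Real.log_le_sub_one_of_pos (half_pos hx)
  have h2 : Real.log x = Real.log (x / 2) + Real.log 2 := by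
    rw [← Real.log_mul (by positivity) (by norm_num)]
    congr 1
    ring
  have h3 : Real.log 2 < 0.6931471808 := Real.log_two_lt_d9
  linarith

/-- windows of the first kind -/
private theorem UppS_one {ε c Y PP' : ℝ} {k' : ℕ} (hε : 0 < ε) (hε1 : ε < 1) (hc : 0 ≤ c) (hY : 3 ≤ Real.log Y)
    (hY0 : 0 < Y)
    (hk : (1 - ε / 4) * (Real.log Y / Real.log (Real.log Y)) - 1 ≤ (k' : ℝ))
    (hP : Real.log Y ^ k' ≤ PP') (h : c * PP' ≤ 2 * Y) :
    c ≤ 2 * Real.log Y * Real.exp (ε / 4 * Real.log Y) := by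
  set l := Real.log Y with hl
  have hl0 : 0 < l := by linarith
  have hll : 0 < Real.log l := Real.log_pos (by linarith)
  have h1 : Real.exp ((1 - ε / 4) * l) / l ≤ l ^ k' := by
    have e1 : l ^ k' = Real.exp ((k' : ℝ) * Real.log l) := by
      rw [mul_comm, Real.exp_mul, Real.exp_log hl0, Real.rpow_natCast]
    have e2 : Real.exp ((1 - ε / 4) * l) / l = Real.exp ((1 - ε / 4) * l - Real.log l) := by
      rw [Real.exp_sub, Real.exp_log hl0]
    rw [e1, e2]
    apply Real.exp_le_exp.2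
    have h2 := mul_le_mul_of_nonneg_right hk hll.le
    have h3 : ((1 - ε / 4) * (l / Real.log l) - 1) * Real.log l = (1 - ε / 4) * l - Real.log l := by
      field_simp
    linarith
  have h2 : c * (Real.exp ((1 - ε / 4) * l) / l) ≤ 2 * Y :=
    (mul_le_mul_of_nonneg_left (h1.trans hP) hc).trans h
  have h3 : Y = Real.exp l := (Real.exp_log hY0).symm
  have h4 : Real.exp ((1 - ε / 4) * l) * Real.exp (ε / 4 * l) = Y := by
    rw [← Real.exp_add, h3]
    congr 1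
    ring
  have h5 : 0 < Real.exp ((1 - ε / 4) * l) := Real.exp_pos _
  have h6 : c * Real.exp ((1 - ε / 4) * l) ≤ 2 * Y * l := by
    have := mul_le_mul_of_nonneg_right h2 hl0.le
    have e1 : c * (Real.exp ((1 - ε / 4) * l) / l) * l = c * Real.exp ((1 - ε / 4) * l) := by
      field_simp
    linarith
  rw [← h4] at h6
  have h7 : c * Real.exp ((1 - ε / 4) * l) ≤ (2 * l * Real.exp (ε / 4 * l)) * Real.exp ((1 - ε / 4) * l) := by
    linarith
  exact le_of_mul_le_mul_right h7 h5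

/-- the quotient of the logarithms -/
private theorem UppS_quot {x y δ : ℝ} {k : ℕ} (hy : 0 < y) (hxy : y ≤ x) (hk : (k : ℝ) ≤ δ * y) :
    (x / y) ^ k ≤ Real.exp (δ * (x - y)) := by
  have h1 : x / y ≤ Real.exp ((x - y) / y) := by
    have := Real.add_one_le_exp ((x - y) / y)
    have e1 : (x - y) / y + 1 = x / y := by field_simp; ring
    linarith
  have h0 : 0 ≤ x / y := div_nonneg (by linarith) hy.le
  calc (x / y) ^ k ≤ Real.exp ((x - y) / y) ^ k := pow_le_pow_left₀ h0 h1 k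
    _ = Real.exp ((k : ℝ) * ((x - y) / y)) := by rw [← Real.exp_nat_mul]
    _ ≤ Real.exp (δ * (x - y)) := by
        apply Real.exp_le_exp.2
        have h2 : (k : ℝ) * ((x - y) / y) ≤ δ * y * ((x - y) / y) :=
          mul_le_mul_of_nonneg_right hk (div_nonneg (by linarith) hy.le)
        have e1 : δ * y * ((x - y) / y) = δ * (x - y) := by field_simp
        linarith

private theorem UppS_sqrt {X Y Y' : ℝ} (hX : 0 < X) (hY : 0 < Y) (h1 : Y ≤ Y') (h2 : Y' ≤ 2 * Y) :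
    (Y' - Y) * Real.exp (1 / 2 * (Real.log X - Real.log Y)) ≤
      3 * Real.sqrt X * (Real.sqrt Y' - Real.sqrt Y) := by
  have e1 : Real.exp (1 / 2 * (Real.log X - Real.log Y)) = Real.sqrt X / Real.sqrt Y := by
    have h3 : ∀ z : ℝ, 0 < z → Real.exp (1 / 2 * Real.log z) = Real.sqrt z := by
      intro z hz
      rw [Real.sqrt_eq_rpow, Real.rpow_def_of_pos hz]
      congr 1
      ring
    rw [mul_sub, Real.exp_sub, h3 X hX, h3 Y hY]
  rw [e1]
  have hs : 0 < Real.sqrt Y := Real.sqrt_pos.2 hY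
  have hs' : Real.sqrt Y ≤ Real.sqrt Y' := Real.sqrt_le_sqrt h1
  have h4 : Real.sqrt Y' ≤ 2 * Real.sqrt Y := by
    rw [show (2 : ℝ) * Real.sqrt Y = Real.sqrt (4 * Y) by
      rw [Real.sqrt_mul (by norm_num), show (4 : ℝ) = 2 ^ 2 by norm_num, Real.sqrt_sq (by norm_num)]]
    exact Real.sqrt_le_sqrt (by linarith)
  have e2 : Y' - Y = (Real.sqrt Y' - Real.sqrt Y) * (Real.sqrt Y' + Real.sqrt Y) := by
    have a1 := Real.mul_self_sqrt hY.le
    have a2 := Real.mul_self_sqrt (hY.le.trans h1)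
    nlinarith
  rw [e2]
  have h5 : (Real.sqrt Y' + Real.sqrt Y) * (Real.sqrt X / Real.sqrt Y) ≤ 3 * Real.sqrt X := by
    rw [mul_div_assoc', div_le_iff₀ hs]
    nlinarith [Real.sqrt_nonneg X]
  calc (Real.sqrt Y' - Real.sqrt Y) * (Real.sqrt Y' + Real.sqrt Y) * (Real.sqrt X / Real.sqrt Y)
      = (Real.sqrt Y' - Real.sqrt Y) * ((Real.sqrt Y' + Real.sqrt Y) * (Real.sqrt X / Real.sqrt Y)) := by
        ring
    _ ≤ (Real.sqrt Y' - Real.sqrt Y) * (3 * Real.sqrt X) :=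
        mul_le_mul_of_nonneg_left h5 (by linarith)
    _ = _ := by ring

/-- the number of the windows -/
private theorem UppS_num {M : ℕ} (hM : 1 ≤ M) : ∃ c : ℝ, 0 ≤ c ∧ ∀ X : ℝ, Real.exp 1 ≤ X → ∀ p : ℕ,
    (RLC.win M p : ℝ) ≤ X → (p : ℝ) + 1 ≤ c * Real.log X := by
  have hM0 : (0 : ℝ) < M := by exact_mod_cast hM
  have h1 : (1 : ℝ) < 1 + 1 / (M : ℝ) := by
    have : (0 : ℝ) < 1 / (M : ℝ) := by positivity
    linarith
  have hl : 0 < Real.log (1 + 1 / (M : ℝ)) := Real.log_pos h1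
  refine ⟨2 / Real.log (1 + 1 / (M : ℝ)) + 1, by positivity, ?_⟩
  intro X hX p hp
  have hX1 : 1 ≤ Real.log X := by
    rw [Real.le_log_iff_exp_le (lt_of_lt_of_le (Real.exp_pos 1) hX)]
    exact hX
  have he : (2 : ℝ) ≤ Real.exp 1 := by
    have := Real.add_one_le_exp (1 : ℝ)
    linarith
  have hX2 : 2 ≤ X := he.trans hX
  have h2 : (1 + 1 / (M : ℝ)) ^ p < X + 1 := by
    have := Nat.lt_floor_add_one ((1 + 1 / (M : ℝ)) ^ p)
    unfold RLC.win at hp
    linarith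
  have h3 : (p : ℝ) * Real.log (1 + 1 / (M : ℝ)) ≤ 2 * Real.log X := by
    rw [← Real.log_pow]
    have h4 : Real.log ((1 + 1 / (M : ℝ)) ^ p) ≤ Real.log (X ^ 2) := by
      apply Real.log_le_log (by positivity)
      nlinarith
    have h5 : Real.log (X ^ 2) = 2 * Real.log X := by
      rw [Real.log_pow]
      norm_num
    linarith
  have h5 : (p : ℝ) ≤ 2 / Real.log (1 + 1 / (M : ℝ)) * Real.log X := by
    rw [div_mul_eq_mul_div, le_div_iff₀ hl]
    exact h3
  nlinarith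

private theorem UppS_cube {t : ℝ} (ht : 0 < t) (ht1 : t ≤ 1 / 32) : (1 + t) ^ 3 ≤ 1 + 4 * t := by
  have h1 : t * t ≤ t * (1 / 32) := mul_le_mul_of_nonneg_left ht1 ht.le
  have h2 : t * (t * t) ≤ t * (1 / 32) := by
    apply mul_le_mul_of_nonneg_left _ ht.le
    linarith
  have e1 : (1 + t) ^ 3 = 1 + 3 * t + 3 * (t * t) + t * (t * t) := by ring
  linarith

/-- the concave weight -/
private noncomputable def UppS_g (c y : ℝ) : ℝ := min (Real.sqrt y) (Real.sqrt c)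

private theorem UppS_g_mono (c : ℝ) {y z : ℝ} (h : y ≤ z) : UppS_g c y ≤ UppS_g c z :=
  min_le_min_right _ (Real.sqrt_le_sqrt h)

private theorem UppS_win {ω : ℕ → ℝ × ℝ} (hM : 0 < M) {ε s δ T : ℝ}
    (hε : 0 < ε) (hε1 : ε < 1) (hs : 0 < s) (hs1 : s ≤ 1 / 32) (hδ : δ ≤ 1 / 2) (hT : 1 ≤ T)
    (hδT : Real.exp (δ * Real.log T) ≤ 1 + s) {X : ℝ} {Y Y' k : ℕ} (hY3 : 3 ≤ Real.log Y) (hY1 : Y ≤ Y')
    (hY2 : (Y' : ℝ) ≤ 2 * Y) (hYX : (Y : ℝ) ≤ X) (hk1 : 1 ≤ k) (hk : (k : ℝ) ≤ δ * Real.log Y)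
    (hw : ∀ k : ℕ, 1 ≤ k → (k : ℝ) ≤ (1 - ε / 4) * (Real.log Y / Real.log (Real.log Y)) →
      |(cnt M t g ω k (Finset.Ioc Y Y') : ℝ) * FX k Y - cM M k * ((Y' : ℝ) - Y)| ≤
        s * cM M k * ((Y' : ℝ) - Y)) :
    (cnt M t g ω k (Finset.Ioc Y Y') : ℝ) * FX k X ≤
      cM M k * (2 * M * Real.log X * Real.exp (ε / 4 * Real.log X) * FX k X) +
      cM M k * (3 * (1 + s) * Real.sqrt X) * (UppS_g (2 * X / T) Y' - UppS_g (2 * X / T) Y) +
      cM M k * (1 + s) ^ 2 * ((Y' : ℝ) - Y) := by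
  have hY0 : (0 : ℝ) < Y := by
    rcases Nat.eq_zero_or_pos Y with h | h
    · rw [h] at hY3
      norm_num at hY3
    · exact_mod_cast h
  have hYe : 1 < (Y : ℝ) := by
    by_contra h
    have := Real.log_nonpos hY0.le (not_lt.1 h)
    linarith
  have hX0 : 0 < X := hY0.trans_le hYX
  have hX1 : 1 < X := hYe.trans_le hYX
  have hYY' : (Y : ℝ) ≤ Y' := by exact_mod_cast hY1
  have hL : Real.log Y ≤ Real.log X := Real.log_le_log hY0 hYX
  have hP : 0 < FX k X := UppS_FX_pos hX1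
  have hg : 0 ≤ UppS_g (2 * X / T) Y' - UppS_g (2 * X / T) Y := by
    have := UppS_g_mono (2 * X / T) hYY'
    linarith
  have hcM : 0 < cM M k := cM_pos hM k
  have hM1 : (0 : ℝ) < M := by exact_mod_cast hM
  obtain ⟨c, hcdef⟩ : ∃ c : ℝ, c = (cnt M t g ω k (Finset.Ioc Y Y') : ℝ) / cM M k := ⟨_, rfl⟩
  have hcc : (cnt M t g ω k (Finset.Ioc Y Y') : ℝ) = cM M k * c := by
    rw [hcdef]
    field_simp
  have hc0 : 0 ≤ c := by
    rw [hcdef]
    exact div_nonneg (Nat.cast_nonneg _) hcM.le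
  have hA0 : 0 ≤ 2 * M * Real.log X * Real.exp (ε / 4 * Real.log X) * FX k X := by
    have : 0 ≤ Real.log X := by linarith
    positivity
  have hB0 : 0 ≤ 3 * (1 + s) * Real.sqrt X * (UppS_g (2 * X / T) Y' - UppS_g (2 * X / T) Y) := by
    positivity
  have hD0 : 0 ≤ (1 + s) ^ 2 * ((Y' : ℝ) - Y) := by
    have : 0 ≤ (Y' : ℝ) - Y := by linarith
    positivity
  have hd0 : 0 ≤ (Y' : ℝ) - Y := by linarith
  suffices hmain : c * FX k X ≤
      2 * M * Real.log X * Real.exp (ε / 4 * Real.log X) * FX k X +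
      3 * (1 + s) * Real.sqrt X * (UppS_g (2 * X / T) Y' - UppS_g (2 * X / T) Y) +
      (1 + s) ^ 2 * ((Y' : ℝ) - Y) by
    have h1 := mul_le_mul_of_nonneg_left hmain hcM.le
    rw [hcc]
    linarith
  by_cases hz : (k : ℝ) ≤ (1 - ε / 4) * (Real.log Y / Real.log (Real.log Y))
  · have h1 := (abs_le.1 (hw k hk1 hz)).2
    have h2 : c * FX k Y ≤ (1 + s) * ((Y' : ℝ) - Y) := by
      rw [hcc] at h1
      have h9 : cM M k * (c * FX k Y) ≤ cM M k * ((1 + s) * ((Y' : ℝ) - Y)) := by linarith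
      exact le_of_mul_le_mul_left h9 hcM
    have h3 := UppS_FX_ratio (k := k) hYe hYX
    have hY30 : 0 < Real.log Y := by linarith
    have h4 := UppS_quot hY30 hL hk
    have hPY : 0 < FX k (Y : ℝ) := UppS_FX_pos hYe
    have h5 : c * FX k X ≤
        (1 + s) * ((Y' : ℝ) - Y) * Real.exp (δ * (Real.log X - Real.log Y)) := by
      calc c * FX k X
          ≤ c * (FX k Y * (Real.log X / Real.log Y) ^ k) :=
            mul_le_mul_of_nonneg_left h3 hc0
        _ = (c * FX k Y) * (Real.log X / Real.log Y) ^ k := by ring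
        _ ≤ ((1 + s) * ((Y' : ℝ) - Y)) * Real.exp (δ * (Real.log X - Real.log Y)) := by
            apply mul_le_mul h2 h4
            · have : 0 ≤ Real.log X / Real.log Y := div_nonneg (by linarith) (by linarith)
              positivity
            · positivity
    rcases lt_or_ge (T * (Y : ℝ)) X with hc | hc
    · have h6 : Real.exp (δ * (Real.log X - Real.log Y)) ≤
          Real.exp (1 / 2 * (Real.log X - Real.log Y)) := by
        apply Real.exp_le_exp.2
        exact mul_le_mul_of_nonneg_right hδ (by linarith)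
      have h7 := UppS_sqrt hX0 hY0 hYY' hY2
      have hYT : (Y : ℝ) ≤ X / T := by
        rw [le_div_iff₀ (by linarith)]
        linarith
      have e1 : UppS_g (2 * X / T) Y' = Real.sqrt Y' := by
        apply min_eq_left
        apply Real.sqrt_le_sqrt
        rw [mul_div_assoc]
        linarith
      have e2 : UppS_g (2 * X / T) Y = Real.sqrt Y := by
        apply min_eq_left
        apply Real.sqrt_le_sqrt
        rw [mul_div_assoc]
        linarith
      have h8 : (1 + s) * ((Y' : ℝ) - Y) * Real.exp (δ * (Real.log X - Real.log Y)) ≤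
          3 * (1 + s) * Real.sqrt X * (Real.sqrt Y' - Real.sqrt Y) := by
        calc (1 + s) * ((Y' : ℝ) - Y) * Real.exp (δ * (Real.log X - Real.log Y))
            ≤ (1 + s) * ((Y' : ℝ) - Y) * Real.exp (1 / 2 * (Real.log X - Real.log Y)) :=
              mul_le_mul_of_nonneg_left h6 (by positivity)
          _ = (1 + s) * (((Y' : ℝ) - Y) * Real.exp (1 / 2 * (Real.log X - Real.log Y))) := by ring
          _ ≤ (1 + s) * (3 * Real.sqrt X * (Real.sqrt Y' - Real.sqrt Y)) :=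
              mul_le_mul_of_nonneg_left h7 (by positivity)
          _ = _ := by ring
      rw [← e1, ← e2] at h8
      linarith
    · have h6 : Real.exp (δ * (Real.log X - Real.log Y)) ≤ 1 + s := by
        rcases le_or_gt 0 δ with hδ0 | hδ0
        · refine le_trans (Real.exp_le_exp.2 (mul_le_mul_of_nonneg_left ?_ hδ0)) hδT
          have h9 : Real.log X ≤ Real.log T + Real.log Y := by
            rw [← Real.log_mul (by linarith) hY0.ne']
            exact Real.log_le_log hX0 hc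
          linarith
        · have : δ * (Real.log X - Real.log Y) ≤ 0 :=
            mul_nonpos_of_nonpos_of_nonneg hδ0.le (by linarith)
          have h9 : Real.exp (δ * (Real.log X - Real.log Y)) ≤ 1 := Real.exp_le_one_iff.2 this
          linarith
      have h8 : (1 + s) * ((Y' : ℝ) - Y) * Real.exp (δ * (Real.log X - Real.log Y)) ≤
          (1 + s) * ((Y' : ℝ) - Y) * (1 + s) := mul_le_mul_of_nonneg_left h6 (by positivity)
      have h9 : (1 + s) * ((Y' : ℝ) - Y) * (1 + s) = (1 + s) ^ 2 * ((Y' : ℝ) - Y) := by ring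
      linarith
  · replace hz := not_le.1 hz
    set z := (1 - ε / 4) * (Real.log Y / Real.log (Real.log Y)) with hzdef
    have hl0 : 0 < Real.log Y := by linarith
    have hll : 0 < Real.log (Real.log Y) := Real.log_pos (by linarith)
    have h1 : 2 ≤ Real.log Y / Real.log (Real.log Y) := by
      rw [le_div_iff₀ hll]
      have := UppS_loghalf hl0
      linarith
    have hz1 : 1 ≤ z := by
      rw [hzdef]
      have h8 : (3 / 4 : ℝ) * 2 ≤ (1 - ε / 4) * (Real.log Y / Real.log (Real.log Y)) :=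
        mul_le_mul (by linarith) h1 (by norm_num) (by linarith)
      linarith
    have hk'1 : 1 ≤ ⌊z⌋₊ := by
      rw [Nat.one_le_floor_iff]
      exact hz1
    have hk'2 : (⌊z⌋₊ : ℝ) ≤ z := Nat.floor_le (by linarith)
    have hk'3 : z - 1 ≤ (⌊z⌋₊ : ℝ) := by
      have := Nat.lt_floor_add_one z
      linarith
    have hk'4 : ⌊z⌋₊ ≤ k := by
      have : (⌊z⌋₊ : ℝ) ≤ k := hk'2.trans hz.le
      exact_mod_cast this
    have h2 := (abs_le.1 (hw ⌊z⌋₊ hk'1 hk'2)).2
    have hcM' : 0 < cM M ⌊z⌋₊ := cM_pos hM _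
    have h3 : (cnt M t g ω ⌊z⌋₊ (Finset.Ioc Y Y') : ℝ) * FX ⌊z⌋₊ Y ≤ cM M ⌊z⌋₊ * (2 * Y) := by
      have h8 : s * ((Y' : ℝ) - Y) ≤ (1 / 32) * Y :=
        mul_le_mul hs1 (by linarith) hd0 (by norm_num)
      have h9 : cM M ⌊z⌋₊ * ((Y' : ℝ) - Y) + cM M ⌊z⌋₊ * (s * ((Y' : ℝ) - Y)) ≤
          cM M ⌊z⌋₊ * (2 * Y) := by
        rw [← mul_add]
        apply mul_le_mul_of_nonneg_left _ hcM'.le
        linarith
      linarith
    have h9 : cM M ⌊z⌋₊ ≤ M * cM M k := by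
      calc cM M ⌊z⌋₊ ≤ ((M : ℝ) / (Nat.totient M : ℝ)) ^ ⌊z⌋₊ := cM_le hM _
        _ ≤ ((M : ℝ) / (Nat.totient M : ℝ)) ^ k := pow_le_pow_right₀ (UppS_r hM) hk'4
        _ ≤ M * cM M k := UppS_rk hM k
    have h5 : (cnt M t g ω k (Finset.Ioc Y Y') : ℝ) ≤ (cnt M t g ω ⌊z⌋₊ (Finset.Ioc Y Y') : ℝ) := by
      exact_mod_cast UppS_anti M t g ω hk'4 _
    have hFz : 0 < FX ⌊z⌋₊ (Y : ℝ) := UppS_FX_pos hYe
    have h10 : c / M * FX ⌊z⌋₊ Y ≤ 2 * Y := by
      have h11 : (cM M k * c) * FX ⌊z⌋₊ Y ≤ (M * cM M k) * (2 * Y) := by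
        rw [← hcc]
        calc (cnt M t g ω k (Finset.Ioc Y Y') : ℝ) * FX ⌊z⌋₊ Y
            ≤ (cnt M t g ω ⌊z⌋₊ (Finset.Ioc Y Y') : ℝ) * FX ⌊z⌋₊ Y :=
              mul_le_mul_of_nonneg_right h5 hFz.le
          _ ≤ cM M ⌊z⌋₊ * (2 * Y) := h3
          _ ≤ (M * cM M k) * (2 * Y) := mul_le_mul_of_nonneg_right h9 (by positivity)
      have h12 : cM M k * M * (c / M * FX ⌊z⌋₊ Y) ≤ cM M k * M * (2 * Y) := by
        have e1 : cM M k * M * (c / M * FX ⌊z⌋₊ Y) = (cM M k * c) * FX ⌊z⌋₊ Y := by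
          field_simp
        rw [e1]
        linarith
      exact le_of_mul_le_mul_left h12 (by positivity)
    have h4 := UppS_one hε hε1 (div_nonneg hc0 hM1.le) hY3 hY0 hk'3 (UppS_FX_ge hYe) h10
    have h6 : 2 * Real.log Y * Real.exp (ε / 4 * Real.log Y) ≤
        2 * Real.log X * Real.exp (ε / 4 * Real.log X) := by
      apply mul_le_mul
      · linarith
      · apply Real.exp_le_exp.2
        exact mul_le_mul_of_nonneg_left hL (by positivity)
      · positivity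
      · linarith
    have h7 : c ≤ 2 * M * Real.log X * Real.exp (ε / 4 * Real.log X) := by
      have h8 := mul_le_mul_of_nonneg_left (h4.trans h6) hM1.le
      have e1 : (M : ℝ) * (c / M) = c := by field_simp
      rw [e1] at h8
      linarith
    have h8 : c * FX k X ≤
        2 * M * Real.log X * Real.exp (ε / 4 * Real.log X) * FX k X :=
      mul_le_mul_of_nonneg_right h7 hP.le
    linarith

private theorem UppS_sum (M : ℕ) (t : ℝ) (g : ℕ → ℝ) (ω : ℕ → ℝ × ℝ) (k N : ℕ) (hm : Monotone (RLC.win N)) {P A B D : ℝ} (hP : 0 ≤ P)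
    (f : ℝ → ℝ) (q : ℕ) (p : ℕ) (hqp : q ≤ p)
    (h : ∀ m, q ≤ m → m < p → (cnt M t g ω k (Finset.Ioc (RLC.win N m) (RLC.win N (m + 1))) : ℝ) * P ≤
      A + B * (f (RLC.win N (m + 1)) - f (RLC.win N m)) + D * ((RLC.win N (m + 1) : ℝ) - RLC.win N m)) :
    (cnt M t g ω k (Finset.Ioc 0 (RLC.win N p)) : ℝ) * P ≤ (RLC.win N q : ℝ) * P + ((p : ℝ) - q) * A +
      B * (f (RLC.win N p) - f (RLC.win N q)) + D * ((RLC.win N p : ℝ) - RLC.win N q) := by
  induction p, hqp using Nat.le_induction with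
  | base =>
    have h1 : (cnt M t g ω k (Finset.Ioc 0 (RLC.win N q)) : ℝ) ≤ (RLC.win N q : ℝ) := by
      exact_mod_cast UppS_le M t g ω k (RLC.win N q)
    have h2 := mul_le_mul_of_nonneg_right h1 hP
    simp only [sub_self, zero_mul, mul_zero, add_zero]
    exact h2
  | succ n hn ih =>
    have h1 := ih fun m h1 h2 => h m h1 (h2.trans (Nat.lt_succ_self n))
    have h2 := h n hn (Nat.lt_succ_self n)
    have h3 : (cnt M t g ω k (Finset.Ioc 0 (RLC.win N (n + 1))) : ℝ) ≤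
        (cnt M t g ω k (Finset.Ioc 0 (RLC.win N n)) : ℝ) +
          (cnt M t g ω k (Finset.Ioc (RLC.win N n) (RLC.win N (n + 1))) : ℝ) := by
      exact_mod_cast UppS_split M t g ω k (hm (Nat.le_succ n))
    have h4 := mul_le_mul_of_nonneg_right h3 hP
    push_cast
    rw [add_mul] at h4
    linarith

private theorem UppS_rpow {ε : ℝ} (hε : 0 < ε) {X : ℝ} (hX : 1 < X) :
    Real.log X ^ 2 ≤ 64 / ε ^ 2 * X ^ (ε / 4) := by
  have hX0 : 0 < X := by linarith
  have h1 := Real.log_le_rpow_div hX0.le (ε := ε / 8) (by positivity)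
  have h0 : 0 ≤ Real.log X := Real.log_nonneg hX.le
  have h2 := pow_le_pow_left₀ h0 h1 2
  refine h2.trans (le_of_eq ?_)
  rw [div_pow, ← Real.rpow_natCast (X ^ (ε / 8)) 2, ← Real.rpow_mul hX0.le]
  have e1 : ε / 8 * ((2 : ℕ) : ℝ) = ε / 4 := by
    push_cast
    ring
  rw [e1]
  field_simp
  norm_num

theorem cnt_upper (hM : 0 < M) {ω : ℕ → ℝ × ℝ} (hW : WinAs M t g ω) {ε : ℝ} (hε : 0 < ε) (hε1 : ε < 1)
    {e : ℝ} (he : 0 < e) : ∀ᶠ X : ℕ in atTop, ∀ k : ℕ, 1 ≤ k →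
    (k : ℝ) ≤ (1 - ε) * (Real.log X / Real.log (Real.log X)) →
    (cnt M t g ω k (Finset.Ioc 0 X) : ℝ) * FX k X ≤ (1 + e) * cM M k * X := by
  have hMm : (0 : ℝ) < M := by exact_mod_cast hM
  wlog he1 : e ≤ 1 / 2 generalizing e
  · filter_upwards [this (e := 1 / 2) (by norm_num) le_rfl] with X hX k hk1 hk
    refine (hX k hk1 hk).trans ?_
    have h0 : (0 : ℝ) ≤ X := Nat.cast_nonneg X
    have h1 : 1 / 2 < e := not_le.1 he1
    exact mul_le_mul_of_nonneg_right (mul_le_mul_of_nonneg_right (by linarith) (cM_pos hM k).le) h0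
  obtain ⟨s, hsdef⟩ : ∃ s : ℝ, s = e / 16 := ⟨_, rfl⟩
  have hs : 0 < s := by rw [hsdef]; positivity
  have hs1 : s ≤ 1 / 32 := by rw [hsdef]; linarith
  obtain ⟨N, hN2⟩ : ∃ N : ℕ, 2 / s ≤ N := exists_nat_ge _
  have hN0 : (0 : ℝ) < N := lt_of_lt_of_le (by positivity) hN2
  have hN : 1 ≤ N := by exact_mod_cast hN0
  have hNs : 2 / (N : ℝ) ≤ s := by
    rw [div_le_iff₀ hN0]
    rw [div_le_iff₀ hs] at hN2
    linarith
  obtain ⟨T, hTdef⟩ : ∃ T : ℝ, T = (40 / e) ^ 2 := ⟨_, rfl⟩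
  have h40 : 80 ≤ 40 / e := by
    rw [le_div_iff₀ he]
    linarith
  have hT : 1 < T := by
    rw [hTdef]
    exact one_lt_pow₀ (by linarith) two_ne_zero
  have hlT : 0 < Real.log T := Real.log_pos hT
  have hlt : 0 < Real.log (1 + s) := Real.log_pos (by linarith)
  obtain ⟨δ, hδdef⟩ : ∃ δ : ℝ, δ = min (1 / 2) (Real.log (1 + s) / Real.log T) := ⟨_, rfl⟩
  have hδ0 : 0 < δ := by
    rw [hδdef]
    exact lt_min (by norm_num) (div_pos hlt hlT)
  have hδ1 : δ ≤ 1 / 2 := by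
    rw [hδdef]
    exact min_le_left _ _
  have hδT : Real.exp (δ * Real.log T) ≤ 1 + s := by
    have h1 : δ * Real.log T ≤ Real.log (1 + s) := by
      have h2 : δ ≤ Real.log (1 + s) / Real.log T := by
        rw [hδdef]
        exact min_le_right _ _
      rwa [le_div_iff₀ hlT] at h2
    calc Real.exp (δ * Real.log T) ≤ Real.exp (Real.log (1 + s)) := Real.exp_le_exp.2 h1
      _ = 1 + s := Real.exp_log (by linarith)
  obtain ⟨c, hc0, hc⟩ := UppS_num hN
  obtain ⟨hw1, hw2, hw3, -, hw5⟩ := RLC.win_facts hN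
  have hcnt := hW (ε / 4) (by positivity) (by linarith) N hN s hs
  have hw1' : Tendsto (fun m => (RLC.win N m : ℝ)) atTop atTop :=
    tendsto_natCast_atTop_atTop.comp hw1
  have hlog3 : ∀ᶠ m : ℕ in atTop, 3 ≤ Real.log (RLC.win N m) :=
    (Real.tendsto_log_atTop.comp hw1').eventually_ge_atTop 3
  obtain ⟨m0, hm0⟩ := eventually_atTop.1 (hw3.and (hw5.and (hcnt.and hlog3)))
  have hcast : Tendsto (fun X : ℕ => (X : ℝ)) atTop atTop := tendsto_natCast_atTop_atTop
  have hX1 : ∀ᶠ X : ℕ in atTop, 2 / (δ * ε) ≤ Real.log (Real.log X) :=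
    ((Real.tendsto_log_atTop.comp Real.tendsto_log_atTop).comp hcast).eventually_ge_atTop _
  have hX2 : ∀ᶠ X : ℕ in atTop, (RLC.win N m0 : ℝ) ≤ (X : ℝ) ^ (ε / 2) :=
    ((tendsto_rpow_atTop (by positivity : (0 : ℝ) < ε / 2)).comp hcast).eventually_ge_atTop _
  have hX3 : ∀ᶠ X : ℕ in atTop, M * (2 + 128 * c / ε ^ 2) * (8 / e) ≤ (X : ℝ) ^ (ε / 4) :=
    ((tendsto_rpow_atTop (by positivity : (0 : ℝ) < ε / 4)).comp hcast).eventually_ge_atTop _
  have hX4 : ∀ᶠ X : ℕ in atTop, Real.exp 1 ≤ (X : ℝ) := hcast.eventually_ge_atTop _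
  filter_upwards [hX1, hX2, hX3, hX4, RLC.PP_le (v := 2) one_le_two hε hε1] with X hX1 hX2 hX3 hX4 hPP k hk1 hk
  have hexp : (2 : ℝ) ≤ Real.exp 1 := by
    have := Real.add_one_le_exp (1 : ℝ)
    linarith
  have hXR : (1 : ℝ) < X := by linarith
  have hX0 : (0 : ℝ) < X := by linarith
  obtain ⟨L, hLdef⟩ : ∃ L : ℝ, L = Real.log X := ⟨_, rfl⟩
  have hL0 : 0 < L := by
    rw [hLdef]
    exact Real.log_pos hXR
  have hε2 : (X : ℝ) ^ (ε / 2) ≤ X := by
    calc (X : ℝ) ^ (ε / 2) ≤ (X : ℝ) ^ (1 : ℝ) :=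
          Real.rpow_le_rpow_of_exponent_le hXR.le (by linarith)
      _ = X := Real.rpow_one _
  have hP : 0 < FX k X := UppS_FX_pos hXR
  have hPle : FX k X ≤ (X : ℝ) ^ (1 - 3 / 4 * ε) := by
    rw [UppS_FX]
    exact hPP _ UppS_two k hk
  have hC : 0 < cM M k := cM_pos hM k
  have hC1 : 1 ≤ M * cM M k := UppS_one_le hM k
  -- the indices
  classical
  have hq : ∃ m, (X : ℝ) ^ (ε / 2) < RLC.win N m := (hw1'.eventually_gt_atTop _).exists
  have hp : ∃ m, (X : ℝ) < RLC.win N m := (hw1'.eventually_gt_atTop _).exists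
  obtain ⟨q, hqdef⟩ : ∃ q, q = Nat.find hq := ⟨_, rfl⟩
  obtain ⟨p, hpdef⟩ : ∃ p, p = Nat.find hp := ⟨_, rfl⟩
  have hq1 : (X : ℝ) ^ (ε / 2) < RLC.win N q := by
    rw [hqdef]
    exact Nat.find_spec hq
  have hp1 : (X : ℝ) < RLC.win N p := by
    rw [hpdef]
    exact Nat.find_spec hp
  have hq2 : ∀ m, m < q → (RLC.win N m : ℝ) ≤ (X : ℝ) ^ (ε / 2) := by
    intro m hm
    rw [hqdef] at hm
    exact not_lt.1 (Nat.find_min hq hm)
  have hp2 : ∀ m, m < p → (RLC.win N m : ℝ) ≤ X := by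
    intro m hm
    rw [hpdef] at hm
    exact not_lt.1 (Nat.find_min hp hm)
  have hqp : q ≤ p := by
    rw [hqdef]
    exact Nat.find_min' hq (hε2.trans_lt hp1)
  have hmq : m0 < q := by
    by_contra hcon
    have h1 : (RLC.win N q : ℝ) ≤ RLC.win N m0 := by exact_mod_cast hw2 (not_lt.1 hcon)
    linarith
  have hlq : ∀ m, q ≤ m → ε / 2 * L ≤ Real.log (RLC.win N m) := by
    intro m hm
    have h1 : (RLC.win N q : ℝ) ≤ RLC.win N m := by exact_mod_cast hw2 hm
    have h2 : Real.log ((X : ℝ) ^ (ε / 2)) ≤ Real.log (RLC.win N m) :=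
      Real.log_le_log (by positivity) (by linarith)
    rw [Real.log_rpow hX0] at h2
    rw [hLdef]
    exact h2
  have hkδ : (k : ℝ) ≤ δ * (ε / 2 * L) := by
    have h1 : 0 < Real.log (Real.log X) := lt_of_lt_of_le (by positivity) hX1
    have h2 : Real.log X / Real.log (Real.log X) ≤ δ * (ε / 2 * L) := by
      rw [div_le_iff₀ h1]
      rw [div_le_iff₀ (by positivity)] at hX1
      have h5 := mul_le_mul_of_nonneg_right hX1 (by positivity : 0 ≤ L / 2)
      linarith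
    have h3 : 0 ≤ Real.log X / Real.log (Real.log X) := by
      rw [← hLdef] at h1 ⊢
      positivity
    have h4 : (1 - ε) * (Real.log X / Real.log (Real.log X)) ≤
        1 * (Real.log X / Real.log (Real.log X)) :=
      mul_le_mul_of_nonneg_right (by linarith) h3
    linarith
  -- the sum
  have hsum := UppS_sum M t g ω k N hw2 (P := FX k X)
    (A := cM M k * (2 * M * Real.log X * Real.exp (ε / 4 * Real.log X) * FX k X))
    (B := cM M k * (3 * (1 + s) * Real.sqrt X)) (D := cM M k * (1 + s) ^ 2) hP.le (UppS_g (2 * X / T)) q p hqp (by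
      intro m hm1 hm2
      obtain ⟨g1, g2, g3, g4⟩ := hm0 m (hmq.le.trans hm1)
      have g5 := hlq m hm1
      have g1' : ((RLC.win N (m + 1) : ℕ) : ℝ) ≤ 2 * (RLC.win N m : ℕ) := by exact_mod_cast g1
      have g6 : (k : ℝ) ≤ δ * Real.log (RLC.win N m) :=
        hkδ.trans (mul_le_mul_of_nonneg_left g5 hδ0.le)
      exact UppS_win hM hε hε1 hs hs1 hδ1 hT.le hδT g4 (hw2 (Nat.le_succ m)) g1' (hp2 m hm2)
        hk1 g6 g3)
  have hcntX : (cnt M t g ω k (Finset.Ioc 0 X) : ℝ) ≤ cnt M t g ω k (Finset.Ioc 0 (RLC.win N p)) := by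
    have h1 : X ≤ RLC.win N p := by
      have : (X : ℝ) ≤ RLC.win N p := hp1.le
      exact_mod_cast this
    exact_mod_cast UppS_mono M t g ω k (Finset.Ioc_subset_Ioc_right h1)
  have hfin := mul_le_mul_of_nonneg_right hcntX hP.le
  -- the estimates
  have hX4' : (X : ℝ) ^ (1 - ε / 4) * (X : ℝ) ^ (ε / 4) = X := by
    rw [← Real.rpow_add hX0]
    conv_rhs => rw [← Real.rpow_one (X : ℝ)]
    congr 1
    ring
  have hXp : 0 < (X : ℝ) ^ (1 - ε / 4) := by positivity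
  have hYq : (RLC.win N q : ℝ) * FX k X ≤ 2 * (X : ℝ) ^ (1 - ε / 4) := by
    have h1 : (RLC.win N (q - 1) : ℝ) ≤ (X : ℝ) ^ (ε / 2) := hq2 (q - 1) (by omega)
    have h2 : RLC.win N (q - 1 + 1) ≤ 2 * RLC.win N (q - 1) := (hm0 (q - 1) (by omega)).1
    have h3 : q - 1 + 1 = q := by omega
    rw [h3] at h2
    have h4 : (RLC.win N q : ℝ) ≤ 2 * RLC.win N (q - 1) := by exact_mod_cast h2
    calc (RLC.win N q : ℝ) * FX k X ≤ (2 * (X : ℝ) ^ (ε / 2)) * (X : ℝ) ^ (1 - 3 / 4 * ε) := by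
          apply mul_le_mul (by linarith) hPle hP.le (by positivity)
      _ = 2 * ((X : ℝ) ^ (ε / 2) * (X : ℝ) ^ (1 - 3 / 4 * ε)) := by ring
      _ = 2 * (X : ℝ) ^ (1 - ε / 4) := by
          rw [← Real.rpow_add hX0]
          congr 2
          ring
  have hA : ((p : ℝ) - q) * (2 * Real.log X * Real.exp (ε / 4 * Real.log X) * FX k X) ≤
      128 * c / ε ^ 2 * (X : ℝ) ^ (1 - ε / 4) := by
    have h1 : (p : ℝ) ≤ c * L := by
      have h2 := hc X hX4 (p - 1) (hp2 (p - 1) (by omega))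
      have h3 : ((p - 1 : ℕ) : ℝ) = (p : ℝ) - 1 := by
        rw [Nat.cast_sub (by omega)]
        norm_num
      rw [h3, ← hLdef] at h2
      linarith
    have h2 : Real.exp (ε / 4 * Real.log X) = (X : ℝ) ^ (ε / 4) := by
      rw [Real.rpow_def_of_pos hX0, mul_comm]
    rw [h2, ← hLdef]
    have h3 : (p : ℝ) - q ≤ c * L := by
      have : (0 : ℝ) ≤ q := Nat.cast_nonneg q
      linarith
    have h4 := UppS_rpow hε hXR
    rw [← hLdef] at h4
    have h5 : (X : ℝ) ^ (ε / 4) * (X : ℝ) ^ (1 - 3 / 4 * ε) * (X : ℝ) ^ (ε / 4) =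
        (X : ℝ) ^ (1 - ε / 4) := by
      rw [← Real.rpow_add hX0, ← Real.rpow_add hX0]
      congr 1
      ring
    have h6 : 0 < (X : ℝ) ^ (ε / 4) := by positivity
    have h7 : 0 < (X : ℝ) ^ (1 - 3 / 4 * ε) := by positivity
    calc ((p : ℝ) - q) * (2 * L * (X : ℝ) ^ (ε / 4) * FX k X)
        ≤ (c * L) * (2 * L * (X : ℝ) ^ (ε / 4) * FX k X) :=
          mul_le_mul_of_nonneg_right h3 (by positivity)
      _ ≤ (c * L) * (2 * L * (X : ℝ) ^ (ε / 4) * (X : ℝ) ^ (1 - 3 / 4 * ε)) := by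
          apply mul_le_mul_of_nonneg_left _ (by positivity)
          exact mul_le_mul_of_nonneg_left hPle (by positivity)
      _ = 2 * c * ((X : ℝ) ^ (ε / 4) * (X : ℝ) ^ (1 - 3 / 4 * ε)) * L ^ 2 := by ring
      _ ≤ 2 * c * ((X : ℝ) ^ (ε / 4) * (X : ℝ) ^ (1 - 3 / 4 * ε)) *
            (64 / ε ^ 2 * (X : ℝ) ^ (ε / 4)) :=
          mul_le_mul_of_nonneg_left h4 (by positivity)
      _ = 128 * c / ε ^ 2 * ((X : ℝ) ^ (ε / 4) * (X : ℝ) ^ (1 - 3 / 4 * ε) * (X : ℝ) ^ (ε / 4)) := by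
          ring
      _ = _ := by rw [h5]
  have hK : M * (2 + 128 * c / ε ^ 2) * (X : ℝ) ^ (1 - ε / 4) ≤ e / 8 * X := by
    have h1 := mul_le_mul_of_nonneg_left hX3 hXp.le
    rw [hX4'] at h1
    have h2 : (X : ℝ) ^ (1 - ε / 4) * (M * (2 + 128 * c / ε ^ 2) * (8 / e)) * (e / 8) =
        M * (2 + 128 * c / ε ^ 2) * (X : ℝ) ^ (1 - ε / 4) := by
      field_simp
    have h3 := mul_le_mul_of_nonneg_right h1 (by positivity : (0 : ℝ) ≤ e / 8)
    linarith
  have hB : 3 * (1 + s) * Real.sqrt X *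
      (UppS_g (2 * X / T) (RLC.win N p) - UppS_g (2 * X / T) (RLC.win N q)) ≤ e / 8 * X := by
    have h1 : UppS_g (2 * X / T) (RLC.win N p) - UppS_g (2 * X / T) (RLC.win N q) ≤ Real.sqrt (2 * X / T) := by
      have h2 : UppS_g (2 * X / T) (RLC.win N p) ≤ Real.sqrt (2 * X / T) := min_le_right _ _
      have h3 : 0 ≤ UppS_g (2 * X / T) (RLC.win N q) := le_min (Real.sqrt_nonneg _) (Real.sqrt_nonneg _)
      linarith
    have h2 : Real.sqrt (2 * X / T) = Real.sqrt 2 * Real.sqrt X * (e / 40) := by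
      rw [Real.sqrt_div (by positivity), Real.sqrt_mul (by norm_num), hTdef,
        Real.sqrt_sq (by positivity)]
      field_simp
    have h3 : Real.sqrt X * Real.sqrt X = X := Real.mul_self_sqrt hX0.le
    have h4 : Real.sqrt 2 ≤ 1.5 := by
      rw [Real.sqrt_le_left (by norm_num)]
      norm_num
    calc 3 * (1 + s) * Real.sqrt X *
        (UppS_g (2 * X / T) (RLC.win N p) - UppS_g (2 * X / T) (RLC.win N q))
        ≤ 3 * (1 + s) * Real.sqrt X * Real.sqrt (2 * X / T) :=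
          mul_le_mul_of_nonneg_left h1 (by positivity)
      _ = (3 * (1 + s) * Real.sqrt 2) * (e / 40) * X := by
          rw [h2]
          linear_combination (3 * (1 + s) * Real.sqrt 2 * (e / 40)) * h3
      _ ≤ 5 * (e / 40) * X := by
          apply mul_le_mul_of_nonneg_right _ hX0.le
          apply mul_le_mul_of_nonneg_right _ (by positivity)
          have h6 : (1 + s) * Real.sqrt 2 ≤ (33 / 32) * 1.5 :=
            mul_le_mul (by linarith) h4 (Real.sqrt_nonneg _) (by norm_num)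
          linarith
      _ = e / 8 * X := by ring
  have hD : (1 + s) ^ 2 * ((RLC.win N p : ℝ) - RLC.win N q) ≤ (1 + e / 4) * X := by
    have h1 : (RLC.win N (p - 1) : ℝ) ≤ X := hp2 (p - 1) (by omega)
    have h2 := (hm0 (p - 1) (by omega)).2.1
    have h3 : p - 1 + 1 = p := by omega
    rw [h3] at h2
    have h4 : (RLC.win N p : ℝ) ≤ (1 + s) * X := by
      calc (RLC.win N p : ℝ) ≤ (1 + 2 / (N : ℝ)) * RLC.win N (p - 1) := h2
        _ ≤ (1 + s) * X := by
            apply mul_le_mul (by linarith) h1 (by positivity) (by positivity)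
    have h5 : (0 : ℝ) ≤ RLC.win N q := Nat.cast_nonneg _
    calc (1 + s) ^ 2 * ((RLC.win N p : ℝ) - RLC.win N q) ≤ (1 + s) ^ 2 * ((1 + s) * X) :=
          mul_le_mul_of_nonneg_left (by linarith) (by positivity)
      _ = (1 + s) ^ 3 * X := by ring
      _ ≤ (1 + e / 4) * X := by
          apply mul_le_mul_of_nonneg_right _ hX0.le
          have h6 : e = 16 * s := by rw [hsdef]; ring
          have h7 := UppS_cube hs hs1
          linarith
  have hYq' : (RLC.win N q : ℝ) * FX k X ≤ cM M k * (M * (2 * (X : ℝ) ^ (1 - ε / 4))) := by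
    have h1 : 1 * (2 * (X : ℝ) ^ (1 - ε / 4)) ≤ (M * cM M k) * (2 * (X : ℝ) ^ (1 - ε / 4)) :=
      mul_le_mul_of_nonneg_right hC1 (by positivity)
    linarith
  have hA' := mul_le_mul_of_nonneg_left (mul_le_mul_of_nonneg_left hA hMm.le) hC.le
  have hK' := mul_le_mul_of_nonneg_left hK hC.le
  have hB' := mul_le_mul_of_nonneg_left hB hC.le
  have hD' := mul_le_mul_of_nonneg_left hD hC.le
  have heX : 0 ≤ cM M k * (e * X) := by positivity
  linarith

end RAF
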