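import Pool.Agent.RAF.ResM
import Pool.Agent.RAF.Geo

/-!
# RAF.WinC: the number of chains in a window

PROOF. Compare `Pool/Agent/RLC/WinC.lean`. `Y = win N m`, `Y' = win N (m+1)` (`Y' ≤ 2Y`, `Y'-Y ≥ Y/(2N)`, `RLC.win_facts`), `I = Ioc Y Y'`, `b0 = log₂ Y`, `J = k - 1`, `r = M/φ(M)`. `I` is contained in the union of the blocks `b0`, `b0 + 1`, so it is the disjoint union of `I ∩ Inn t b`,
`b ∈ {b0, b0+1}`, and of a part `I'` of the two boundary sets of `GoodR.bdry` (the point `Y'= 2^(b0+2)` is impossible for large `m` as `Y' < 2^(b0+2)`; if `Y' = 2Y` is possible use three blocks). `cM M k ≥ r^k/M` (`cM_ge`).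
(1) `∑_{n∈I} wt n J = cM M k (Y'-Y)(1 + o(1))`: on `I ∩ Inn t b`: `GoodR.var` (error `r^J Y/log Y ≤ cM M k M Y/log Y`, relative error `≤ 2 N M/log Y`); on `I'`: `GoodR.bdry` (`≤ 2^((1-(1-t)/8)(b0+2))`, and `J ≤ 2L/log L`, `L = log(2^b)`), and
`∑_{n∈I'} th n RR M J n ≤ r^J |I'| (b0+3) ≤ r^J · (8 · 2^((1-(1-t)/2)b0) + 3)(b0+3)`; then `res_main`.
(2) If the first `k` members of the chain of `n` are primes, then `wt n J = ∏_{i<k} log (ch n i)`, otherwise it is `0`. `∏ log (ch n i) ≥ FX k Y` for `n ∈ I` (`ch_ge`, `log(2^i Y) > 0`). For `n ∈ I ∩ Inn t b`: `ch n i ≤ 2^i n · 2 ≤ 4 · 2^i Y` (`geo`), so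
`∏ log (ch n i) ≤ FX k Y (1 + 2/log Y)^k`, and `(1 + 2/log Y)^k ≤ exp(2/log log Y) = 1 + o(1)`, since `k ≤ log Y/log log Y`. So `cnt k I · FX k Y ≤ ∑_{n∈I} wt n J` and
`∑_{n∈I} wt n J ≤ cnt k I · FX k Y (1 + o(1)) + ∑_{n∈I'} wt n J`; the last sum is `o(cM M k (Y'-Y))`.
-/

namespace RAF

open Filter

variable {M : ℕ} {t K : ℝ} {g : ℕ → ℝ}

/-- the boundary part of a block -/
private noncomputable def WinC_E (t : ℝ) (b : ℕ) : Finset ℕ :=
  (Finset.Ico (2 ^ b) (2 ^ (b + 1))).filter fun n => n ∉ Inn t b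

private theorem WinC_card (t : ℝ) (b : ℕ) :
    ((WinC_E t b).card : ℝ) ≤ 2 * (2 : ℝ) ^ ((1 - (1 - t) / 2) * (b : ℝ)) + 1 := by
  set x : ℝ := (2 : ℝ) ^ (b + 1) * (1 - (2 : ℝ) ^ (-((1 - t) / 2) * (b : ℝ))) with hx
  have hpow : (2 : ℝ) ^ (b + 1) - x = 2 * (2 : ℝ) ^ ((1 - (1 - t) / 2) * (b : ℝ)) := by
    have h1 : (2 : ℝ) ^ ((1 - (1 - t) / 2) * (b : ℝ)) = (2 : ℝ) ^ b * (2 : ℝ) ^ (-((1 - t) / 2) * (b : ℝ)) := by
      rw [← Real.rpow_natCast, ← Real.rpow_add (by norm_num)]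
      congr 1
      ring
    rw [h1, hx, pow_succ]
    ring
  by_cases hx0 : 0 ≤ x
  · have hsub : WinC_E t b ⊆ Finset.Ioc ⌊x⌋₊ (2 ^ (b + 1) - 1) := by
      intro n hn
      unfold WinC_E Inn at hn
      simp only [Finset.mem_filter, Finset.mem_Ico, not_and, not_le] at hn
      obtain ⟨⟨h1, h2⟩, h3⟩ := hn
      have h4 := h3 ⟨h1, h2⟩
      rw [Finset.mem_Ioc]
      constructor
      · exact (Nat.floor_lt hx0).2 (by push_cast at h4 ⊢; exact h4)
      · omega
    have h5 := Finset.card_le_card hsub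
    rw [Nat.card_Ioc] at h5
    have h6 : x < (⌊x⌋₊ : ℝ) + 1 := Nat.lt_floor_add_one x
    have h7 : ((2 ^ (b + 1) - 1 - ⌊x⌋₊ : ℕ) : ℝ) ≤ (2 : ℝ) ^ (b + 1) - x + 1 := by
      rcases Nat.le_total (⌊x⌋₊) (2 ^ (b + 1) - 1) with h | h
      · rw [Nat.cast_sub h, Nat.cast_sub (Nat.one_le_two_pow)]
        push_cast
        linarith
      · rw [Nat.sub_eq_zero_of_le h]
        have h8 : 0 ≤ (2 : ℝ) ^ (b + 1) - x := by
          rw [hpow]
          positivity
        push_cast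
        linarith
    calc ((WinC_E t b).card : ℝ) ≤ ((2 ^ (b + 1) - 1 - ⌊x⌋₊ : ℕ) : ℝ) := by exact_mod_cast h5
      _ ≤ (2 : ℝ) ^ (b + 1) - x + 1 := h7
      _ = _ := by rw [hpow]
  · push Not at hx0
    have h5 : (WinC_E t b).card ≤ 2 ^ (b + 1) := by
      calc (WinC_E t b).card ≤ (Finset.Ico (2 ^ b) (2 ^ (b + 1))).card := Finset.card_filter_le _ _
        _ ≤ 2 ^ (b + 1) := by
          rw [Nat.card_Ico]
          exact Nat.sub_le _ _
    have h6 : ((WinC_E t b).card : ℝ) ≤ (2 : ℝ) ^ (b + 1) := by exact_mod_cast h5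
    rw [← hpow]
    linarith

private theorem WinC_small {δ c : ℝ} (hδ : 0 < δ) (hc : 0 < c) : ∀ᶠ b : ℕ in atTop,
    (2 : ℝ) ^ ((1 - c / 8) * (b : ℝ)) + (2 : ℝ) ^ ((1 - c / 8) * ((b + 1 : ℕ) : ℝ)) ≤ δ * 2 ^ b ∧
    ((2 * (2 : ℝ) ^ ((1 - c / 2) * (b : ℝ)) + 1) + (2 * (2 : ℝ) ^ ((1 - c / 2) * ((b + 1 : ℕ) : ℝ)) + 1)) *
      ((b : ℝ) + 2) ≤ δ * 2 ^ b := by
  -- `(b + 2) 2^(-c' b) → 0`
  have hlim : ∀ c' : ℝ, 0 < c' → Tendsto (fun b : ℕ => ((b : ℝ) + 2) * (2 : ℝ) ^ (-c' * (b : ℝ))) atTop (nhds 0) := by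
    intro c' hc'
    have hl : 0 < Real.log 2 := Real.log_pos (by norm_num)
    have h1 : Tendsto (fun b : ℕ => (((b : ℝ) + 2) * (c' * Real.log 2)) ^ 1 *
        Real.exp (-(((b : ℝ) + 2) * (c' * Real.log 2)))) atTop (nhds 0) := by
      have h2 : Tendsto (fun b : ℕ => ((b : ℝ) + 2) * (c' * Real.log 2)) atTop atTop :=
        (tendsto_atTop_add_const_right _ _ tendsto_natCast_atTop_atTop).atTop_mul_const (by positivity)
      exact (Real.tendsto_pow_mul_exp_neg_atTop_nhds_zero 1).comp h2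
    have h3 := h1.const_mul (Real.exp (2 * (c' * Real.log 2)) / (c' * Real.log 2))
    rw [mul_zero] at h3
    refine h3.congr fun b => ?_
    have h4 : (2 : ℝ) ^ (-c' * (b : ℝ)) = Real.exp (2 * (c' * Real.log 2)) *
        Real.exp (-(((b : ℝ) + 2) * (c' * Real.log 2))) := by
      rw [← Real.exp_add, Real.rpow_def_of_pos (by norm_num)]
      congr 1
      ring
    rw [h4]
    have h5 : c' * Real.log 2 ≠ 0 := by positivity
    field_simp
  have e1 := (hlim (c / 8) (by positivity)).eventually (gt_mem_nhds (show (0 : ℝ) < δ / 6 by positivity))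
  have e2 := (hlim (c / 2) (by positivity)).eventually (gt_mem_nhds (show (0 : ℝ) < δ / 12 by positivity))
  have e3 := (hlim 1 (by positivity)).eventually (gt_mem_nhds (show (0 : ℝ) < δ / 12 by positivity))
  filter_upwards [e1, e2, e3] with b h1 h2 h3
  have hb0 : (0 : ℝ) ≤ b := Nat.cast_nonneg b
  have hP : (0 : ℝ) < 2 ^ b := by positivity
  have k1 : ∀ c' : ℝ, (2 : ℝ) ^ ((1 - c') * (b : ℝ)) = 2 ^ b * (2 : ℝ) ^ (-c' * (b : ℝ)) := by
    intro c'
    rw [← Real.rpow_natCast, ← Real.rpow_add (by norm_num)]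
    congr 1
    ring
  have k2 : ∀ c' : ℝ, 0 < c' → (2 : ℝ) ^ ((1 - c') * ((b + 1 : ℕ) : ℝ)) ≤ 2 * (2 ^ b * (2 : ℝ) ^ (-c' * (b : ℝ))) := by
    intro c' hc'
    calc (2 : ℝ) ^ ((1 - c') * ((b + 1 : ℕ) : ℝ)) ≤ (2 : ℝ) ^ (1 + (1 - c') * (b : ℝ)) := by
          apply Real.rpow_le_rpow_of_exponent_le (by norm_num)
          push_cast
          nlinarith
      _ = 2 * (2 : ℝ) ^ ((1 - c') * (b : ℝ)) := by
          rw [Real.rpow_add (by norm_num), Real.rpow_one]
      _ = _ := by rw [k1]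
  constructor
  · have h4 : (2 : ℝ) ^ (-(c / 8) * (b : ℝ)) ≤ δ / 6 := by
      have hp : (0 : ℝ) < (2 : ℝ) ^ (-(c / 8) * (b : ℝ)) := by positivity
      nlinarith
    rw [k1]
    have h5 := k2 (c / 8) (by positivity)
    have h6 : 2 ^ b * (2 : ℝ) ^ (-(c / 8) * (b : ℝ)) ≤ 2 ^ b * (δ / 6) := mul_le_mul_of_nonneg_left h4 hP.le
    nlinarith
  · rw [k1]
    have h5 := k2 (c / 2) (by positivity)
    have h6 : ((b : ℝ) + 2) * (2 ^ b * (2 : ℝ) ^ (-(c / 2) * (b : ℝ))) ≤ 2 ^ b * (δ / 12) := by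
      calc _ = 2 ^ b * (((b : ℝ) + 2) * (2 : ℝ) ^ (-(c / 2) * (b : ℝ))) := by ring
        _ ≤ 2 ^ b * (δ / 12) := mul_le_mul_of_nonneg_left h2.le hP.le
    have h7 : ((b : ℝ) + 2) ≤ 2 ^ b * (δ / 12) := by
      have h8 : (2 : ℝ) ^ (-(1 : ℝ) * (b : ℝ)) = (2 ^ b)⁻¹ := by
        rw [neg_mul, one_mul, Real.rpow_neg (by norm_num), Real.rpow_natCast]
      rw [h8] at h3
      have h9 : ((b : ℝ) + 2) = 2 ^ b * (((b : ℝ) + 2) * (2 ^ b)⁻¹) := by
        field_simp
      rw [h9]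
      exact mul_le_mul_of_nonneg_left h3.le hP.le
    have h10 : ((b : ℝ) + 2) * (2 : ℝ) ^ ((1 - c / 2) * ((b + 1 : ℕ) : ℝ)) ≤
        ((b : ℝ) + 2) * (2 * (2 ^ b * (2 : ℝ) ^ (-(c / 2) * (b : ℝ)))) :=
      mul_le_mul_of_nonneg_left h5 (by positivity)
    nlinarith

/-- the length condition in the blocks -/
private theorem WinC_len {Y : ℕ} (hL : 2 ≤ Real.log Y) (hLL : Real.log 2 ≤ Real.log (Real.log Y))
    (hb : 0 < Real.log (Real.log (2 ^ Nat.log 2 Y))) {x : ℝ}
    (hx : x ≤ Real.log Y / Real.log (Real.log Y)) :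
    x ≤ 2 * (Real.log (2 ^ Nat.log 2 Y) / Real.log (Real.log (2 ^ Nat.log 2 Y))) ∧
    x ≤ 2 * (Real.log (2 ^ (Nat.log 2 Y + 1)) / Real.log (Real.log (2 ^ (Nat.log 2 Y + 1)))) := by
  set L : ℝ := Real.log Y with hLdef
  set b : ℕ := Nat.log 2 Y with hbdef
  have hY0 : Y ≠ 0 := by
    rintro rfl
    simp at hLdef
    linarith
  have hYp : (0 : ℝ) < Y := by exact_mod_cast Nat.pos_of_ne_zero hY0
  have h1 : (2 : ℝ) ^ b ≤ Y := by exact_mod_cast Nat.pow_log_le_self 2 hY0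
  have h2 : (Y : ℝ) ≤ 2 ^ (b + 1) := by exact_mod_cast (Nat.lt_pow_succ_log_self (by norm_num) Y).le
  have hp1 : (0 : ℝ) < (2 : ℝ) ^ b := by positivity
  have hp2 : (0 : ℝ) < (2 : ℝ) ^ (b + 1) := by positivity
  have hl2 : 0 < Real.log 2 := Real.log_pos (by norm_num)
  have hl2' : Real.log 2 < 0.6931471808 := Real.log_two_lt_d9
  have e1 : Real.log ((2 : ℝ) ^ b) ≤ L := Real.log_le_log hp1 h1
  have e2 : L ≤ Real.log ((2 : ℝ) ^ (b + 1)) := Real.log_le_log hYp h2
  have e3 : Real.log ((2 : ℝ) ^ (b + 1)) = Real.log ((2 : ℝ) ^ b) + Real.log 2 := by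
    rw [pow_succ, Real.log_mul hp1.ne' (by norm_num)]
  have e4 : L / 2 ≤ Real.log ((2 : ℝ) ^ b) := by linarith
  have hLLp : 0 < Real.log L := lt_of_lt_of_le hl2 hLL
  have hLp : 0 < L := by linarith
  constructor
  · refine hx.trans ?_
    have e5 : Real.log (Real.log ((2 : ℝ) ^ b)) ≤ Real.log L := Real.log_le_log (by linarith) e1
    calc L / Real.log L ≤ L / Real.log (Real.log ((2 : ℝ) ^ b)) := div_le_div_of_nonneg_left hLp.le hb e5
      _ ≤ (2 * Real.log ((2 : ℝ) ^ b)) / Real.log (Real.log ((2 : ℝ) ^ b)) :=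
          div_le_div_of_nonneg_right (by linarith) hb.le
      _ = _ := by ring
  · refine hx.trans ?_
    have e5 : Real.log (Real.log ((2 : ℝ) ^ (b + 1))) ≤ 2 * Real.log L := by
      calc Real.log (Real.log ((2 : ℝ) ^ (b + 1))) ≤ Real.log (2 * L) := Real.log_le_log (by linarith) (by linarith)
        _ = Real.log 2 + Real.log L := Real.log_mul (by norm_num) hLp.ne'
        _ ≤ 2 * Real.log L := by linarith
    have e6 : 0 < Real.log (Real.log ((2 : ℝ) ^ (b + 1))) :=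
      lt_of_lt_of_le hLLp (Real.log_le_log hLp e2)
    calc L / Real.log L = (2 * L) / (2 * Real.log L) := by
          rw [mul_div_mul_left _ _ (by norm_num)]
      _ ≤ (2 * L) / Real.log (Real.log ((2 : ℝ) ^ (b + 1))) :=
          div_le_div_of_nonneg_left (by linarith) e6 e5
      _ ≤ (2 * Real.log ((2 : ℝ) ^ (b + 1))) / Real.log (Real.log ((2 : ℝ) ^ (b + 1))) :=
          div_le_div_of_nonneg_right (by linarith) e6.le
      _ = _ := by ring

/-- the weight of a chain of primes -/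
private theorem WinC_wt_prime {ω : ℕ → ℝ × ℝ} {n J : ℕ} (hp : ∀ i < J + 1, (ch M t g ω n i).Prime) :
    wt M t g n J ω = ∏ i ∈ Finset.range (J + 1), Real.log (ch M t g ω n i) := by
  unfold wt RLC.th
  refine Finset.prod_congr rfl fun i hi => ?_
  rw [if_pos (hp i (Finset.mem_range.1 hi))]

private theorem WinC_wt_zero {ω : ℕ → ℝ × ℝ} {n J : ℕ} (hp : ¬ ∀ i < J + 1, (ch M t g ω n i).Prime) :
    wt M t g n J ω = 0 := by
  push Not at hp
  obtain ⟨i, hi, hi'⟩ := hp
  unfold wt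
  apply Finset.prod_eq_zero (Finset.mem_range.2 hi)
  unfold RLC.th
  rw [if_neg hi']

private theorem WinC_FX_pos {Y : ℕ} (hY : 1 < (Y : ℝ)) (k : ℕ) : 0 < FX k Y := by
  unfold FX
  apply Finset.prod_pos
  intro i _
  apply Real.log_pos
  have : (1 : ℝ) ≤ 2 ^ i := one_le_pow₀ (by norm_num)
  nlinarith

private theorem WinC_wt_ge {ω : ℕ → ℝ × ℝ} {n J Y : ℕ} (hY : 1 < (Y : ℝ)) (hn : Y ≤ n)
    (hp : ∀ i < J + 1, (ch M t g ω n i).Prime) : FX (J + 1) Y ≤ wt M t g n J ω := by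
  rw [WinC_wt_prime hp]
  unfold FX
  apply Finset.prod_le_prod
  · intro i _
    apply Real.log_nonneg
    have : (1 : ℝ) ≤ 2 ^ i := one_le_pow₀ (by norm_num)
    nlinarith
  · intro i _
    have h1 : 2 ^ i * n ≤ ch M t g ω n i := ch_ge M t g ω n i
    have h2 : 2 ^ i * Y ≤ ch M t g ω n i := (Nat.mul_le_mul_left _ hn).trans h1
    apply Real.log_le_log
    · have : (0 : ℝ) < 2 ^ i := by positivity
      have : (0 : ℝ) < Y := by linarith
      positivity
    · exact_mod_cast h2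

private theorem WinC_wt_le {ω : ℕ → ℝ × ℝ} {n J Y : ℕ} (hL : 1 ≤ Real.log Y) (hY : 1 < (Y : ℝ)) (hn0 : 0 < n)
    (hc : ∀ i, (ch M t g ω n i : ℝ) ≤ 4 * (2 ^ i * Y))
    (hp : ∀ i < J + 1, (ch M t g ω n i).Prime) :
    wt M t g n J ω ≤ Real.exp (2 / Real.log Y) ^ (J + 1) * FX (J + 1) Y := by
  rw [WinC_wt_prime hp]
  unfold FX
  have e1 : Real.exp (2 / Real.log Y) ^ (J + 1) * ∏ i ∈ Finset.range (J + 1), Real.log (2 ^ i * Y) =
      ∏ i ∈ Finset.range (J + 1), (Real.exp (2 / Real.log Y) * Real.log (2 ^ i * Y)) := by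
    rw [Finset.prod_mul_distrib, Finset.prod_const, Finset.card_range]
  rw [e1]
  apply Finset.prod_le_prod
  · intro i _
    exact Real.log_natCast_nonneg _
  · intro i hi
    have hp0 : 0 < ch M t g ω n i := ch_pos M t g ω hn0 i
    have h2i : (1 : ℝ) ≤ 2 ^ i := one_le_pow₀ (by norm_num)
    have hYp : (0 : ℝ) < Y := by linarith
    have h3 : Real.log (ch M t g ω n i) ≤ Real.log 4 + Real.log (2 ^ i * Y) := by
      rw [← Real.log_mul (by norm_num) (by positivity)]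
      exact Real.log_le_log (by exact_mod_cast hp0) (hc i)
    have h4 : Real.log Y ≤ Real.log (2 ^ i * Y) := by
      apply Real.log_le_log hYp
      nlinarith
    have h5 : Real.log 4 ≤ 2 := by
      have : Real.log 4 = 2 * Real.log 2 := by
        rw [show (4 : ℝ) = 2 ^ 2 by norm_num, Real.log_pow]
        norm_num
      rw [this]
      have := Real.log_two_lt_d9
      linarith
    have h6 : 1 + 2 / Real.log Y ≤ Real.exp (2 / Real.log Y) := by
      have := Real.add_one_le_exp (2 / Real.log Y)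
      linarith
    have hLp : 0 < Real.log (Y : ℝ) := by linarith
    have h7 : 2 ≤ 2 / Real.log Y * Real.log (2 ^ i * Y) := by
      rw [div_mul_eq_mul_div, le_div_iff₀ hLp]
      linarith
    have h8 : (1 + 2 / Real.log Y) * Real.log (2 ^ i * Y) ≤ Real.exp (2 / Real.log Y) * Real.log (2 ^ i * Y) :=
      mul_le_mul_of_nonneg_right h6 (by linarith)
    linarith

/-- the estimates for large `Y` -/
private theorem WinC_ev {δ : ℝ} (hδ : 0 < δ) : ∀ᶠ Y : ℕ in atTop, 1 < (Y : ℝ) ∧ 2 ≤ Real.log Y ∧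
    Real.log 2 ≤ Real.log (Real.log Y) ∧ 0 < Real.log (Real.log (2 ^ Nat.log 2 Y)) ∧
    Real.exp (2 / Real.log (Real.log Y)) ≤ 1 + δ ∧ 2 / Real.log Y ≤ δ := by
  have hN : Tendsto (fun Y : ℕ => (Y : ℝ)) atTop atTop := tendsto_natCast_atTop_atTop
  have hL : Tendsto (fun Y : ℕ => Real.log (Y : ℝ)) atTop atTop := Real.tendsto_log_atTop.comp hN
  have hLL : Tendsto (fun Y : ℕ => Real.log (Real.log (Y : ℝ))) atTop atTop :=
    Real.tendsto_log_atTop.comp hL
  have hinv : Tendsto (fun Y : ℕ => 2 / Real.log (Real.log (Y : ℝ))) atTop (nhds 0) :=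
    tendsto_const_nhds.div_atTop hLL
  have hexp : Tendsto (fun Y : ℕ => Real.exp (2 / Real.log (Real.log (Y : ℝ)))) atTop (nhds 1) := by
    have h := (Real.continuous_exp.tendsto 0).comp hinv
    rw [Real.exp_zero] at h
    exact h
  have hinv2 : Tendsto (fun Y : ℕ => 2 / Real.log (Y : ℝ)) atTop (nhds 0) :=
    tendsto_const_nhds.div_atTop hL
  filter_upwards [hN.eventually_gt_atTop 1, hL.eventually_ge_atTop 4, hLL.eventually_ge_atTop (Real.log 2),
    hexp.eventually_le_const (by linarith : (1 : ℝ) < 1 + δ), hinv2.eventually_le_const hδ]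
    with Y d1 d2 d3 d4 d5
  refine ⟨d1, by linarith, d3, ?_, d4, d5⟩
  apply Real.log_pos
  have h2 : (Y : ℝ) ≤ 2 ^ (Nat.log 2 Y + 1) := by exact_mod_cast (Nat.lt_pow_succ_log_self (by norm_num) Y).le
  have h3 : Real.log Y ≤ Real.log ((2 : ℝ) ^ (Nat.log 2 Y + 1)) := Real.log_le_log (by linarith) h2
  rw [pow_succ, Real.log_mul (by positivity) (by norm_num)] at h3
  have := Real.log_two_lt_d9
  linarith

theorem win_as (h : Adm M t K g) {ω : ℕ → ℝ × ℝ} (G : GoodR M t g ω) : WinAs M t g ω := by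
  classical
  intro ε hε hε1 N hN e he
  have hM := h.hM
  have hM0 : (0 : ℝ) < M := by exact_mod_cast hM
  have hN0 : (0 : ℝ) < N := by exact_mod_cast hN
  set c : ℝ := 1 - t with hc
  have hc0 : 0 < c := by
    have := h.ht1
    linarith
  set r : ℝ := (M : ℝ) / (Nat.totient M : ℝ) with hr
  have hr1 : 1 ≤ r := ratio_one_le hM
  set e2 : ℝ := min (1 / 20) (e / 20) with he2
  have he20 : 0 < e2 := by positivity
  have he21 : e2 ≤ 1 / 20 := min_le_left _ _
  have he22 : e2 ≤ e / 20 := min_le_right _ _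
  set δ : ℝ := e2 / (2 * N * M) with hδ
  have hδ0 : 0 < δ := by positivity
  obtain ⟨hT, hmono, h2, h3, -⟩ := RLC.win_facts hN
  have hlog2 : Tendsto (fun Y : ℕ => Nat.log 2 Y) atTop atTop := by
    refine tendsto_atTop.2 fun q => ?_
    filter_upwards [eventually_ge_atTop (2 ^ q)] with Y hY
    exact (Nat.le_log_iff_pow_le (by norm_num) (by
      have : 0 < 2 ^ q := by positivity
      omega)).2 hY
  have hlogT : Tendsto (fun m => Nat.log 2 (RLC.win N m)) atTop atTop := hlog2.comp hT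
  obtain ⟨m0, hgeo⟩ := geo h
  filter_upwards [G.var ε hε hε1 N hN, res_main hM hN he20, h2, h3,
    hT.eventually (WinC_ev (δ := min e2 δ) (by positivity)), hlogT.eventually (WinC_small hδ0 hc0),
    hlogT.eventually G.bdry, hlogT.eventually ((tendsto_add_atTop_nat 1).eventually G.bdry),
    hlogT.eventually_ge_atTop m0]
    with m b1 b2 b3 b4 b5 b6 b7 b8 b9
  intro k hk1 hk
  set Y : ℕ := RLC.win N m with hY
  set Y' : ℕ := RLC.win N (m + 1) with hY'
  obtain ⟨c1, c2, c3, c4, c5, c6⟩ := b5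
  obtain ⟨s1, s2⟩ := b6
  set b : ℕ := Nat.log 2 Y with hb
  set L : ℝ := Real.log Y with hL
  set LL : ℝ := Real.log L with hLL
  have hYp : (0 : ℝ) < Y := by linarith
  have hY0 : Y ≠ 0 := by
    rintro h0
    rw [h0] at hYp
    simp at hYp
  have hL0 : 0 < L := by linarith
  have hl2 : 0 < Real.log 2 := Real.log_pos (by norm_num)
  have hLL0 : 0 < LL := lt_of_lt_of_le hl2 c3
  have hYb : 2 ^ b ≤ Y := Nat.pow_log_le_self 2 hY0
  have hYb' : Y < 2 ^ (b + 1) := Nat.lt_pow_succ_log_self (by norm_num) Y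
  have hYbr : (2 : ℝ) ^ b ≤ Y := by exact_mod_cast hYb
  obtain ⟨J, rfl⟩ : ∃ J, k = J + 1 := ⟨k - 1, by omega⟩
  have hkcast : ((J + 1 : ℕ) : ℝ) = (J : ℝ) + 1 := by push_cast; ring
  have hkL : ((J + 1 : ℕ) : ℝ) ≤ L / LL := by
    refine hk.trans ?_
    have : 0 ≤ L / LL := by positivity
    nlinarith
  set D : ℝ := (Y' : ℝ) - Y with hD
  have hD0 : 0 < D := lt_of_lt_of_le (by positivity) b4
  set A : ℝ := cM M (J + 1) * D with hA
  have hcM := cM_ge hM (J + 1)
  have hcM0 := cM_pos hM (J + 1)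
  have hA0 : 0 < A := mul_pos hcM0 hD0
  have hrJ : 1 ≤ r ^ J := one_le_pow₀ hr1
  -- `r^J Y ≤ 2 N M A`
  have hrA : r ^ J * Y ≤ 2 * N * M * A := by
    have g1 : r ^ J ≤ r ^ (J + 1) := pow_le_pow_right₀ hr1 (Nat.le_succ J)
    have g2 : r ^ (J + 1) ≤ M * cM M (J + 1) := by
      have := mul_le_mul_of_nonneg_left hcM hM0.le
      calc r ^ (J + 1) = M * (1 / (M : ℝ) * r ^ (J + 1)) := by field_simp
        _ ≤ M * cM M (J + 1) := this
    have g3 : (Y : ℝ) ≤ 2 * N * D := by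
      rw [div_le_iff₀ (by positivity)] at b4
      linarith
    calc r ^ J * Y ≤ (M * cM M (J + 1)) * (2 * N * D) :=
          mul_le_mul (g1.trans g2) g3 hYp.le (by positivity)
      _ = 2 * N * M * A := by rw [hA]; ring
  have hδA : δ * (r ^ J * Y) ≤ e2 * A := by
    calc δ * (r ^ J * Y) ≤ δ * (2 * N * M * A) := mul_le_mul_of_nonneg_left hrA hδ0.le
      _ = e2 * A := by
        rw [hδ]
        field_simp
  -- the parts of the window
  set I : Finset ℕ := Finset.Ioc Y Y' with hI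
  set I1 : Finset ℕ := I.filter (fun n => n ∈ Inn t b) with hI1
  set I2 : Finset ℕ := I.filter (fun n => n ∈ Inn t (b + 1)) with hI2
  set I3 : Finset ℕ := I.filter (fun n => ¬ (n ∈ Inn t b ∨ n ∈ Inn t (b + 1))) with hI3
  have hmemI : ∀ n ∈ I, Y < n ∧ n ≤ 2 * Y := fun n hn => by
    rw [hI, Finset.mem_Ioc] at hn
    exact ⟨hn.1, hn.2.trans b3⟩
  have hsplit : ∀ f : ℕ → ℝ, ∑ n ∈ I, f n = ∑ n ∈ I1, f n + ∑ n ∈ I2, f n + ∑ n ∈ I3, f n := by
    intro f
    have g1 : ∑ n ∈ I, f n = ∑ n ∈ I.filter (fun n => n ∈ Inn t b ∨ n ∈ Inn t (b + 1)), f n + ∑ n ∈ I3, f n :=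
      (Finset.sum_filter_add_sum_filter_not I _ f).symm
    have g2 : I.filter (fun n => n ∈ Inn t b ∨ n ∈ Inn t (b + 1)) = I1 ∪ I2 := by
      rw [hI1, hI2, Finset.filter_or]
    have g3 : Disjoint I1 I2 := by
      rw [Finset.disjoint_left]
      intro n hn hn'
      rw [hI1, Finset.mem_filter] at hn
      rw [hI2, Finset.mem_filter] at hn'
      have g4 := (Inn_pos hn.2).2
      have g5 := (Inn_pos hn'.2).2
      omega
    rw [g1, g2, Finset.sum_union g3]
  have hI3sub : I3 ⊆ WinC_E t b ∪ WinC_E t (b + 1) := by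
    intro n hn
    rw [hI3, Finset.mem_filter] at hn
    push Not at hn
    obtain ⟨g1, g2, g3⟩ := hn
    have g4 := hmemI n g1
    rw [Finset.mem_union]
    unfold WinC_E
    rw [Finset.mem_filter, Finset.mem_filter, Finset.mem_Ico, Finset.mem_Ico]
    rcases Nat.lt_or_ge n (2 ^ (b + 1)) with g5 | g5
    · left
      exact ⟨⟨by omega, g5⟩, g2⟩
    · right
      refine ⟨⟨g5, ?_⟩, g3⟩
      have : 2 ^ (b + 1 + 1) = 2 * 2 ^ (b + 1) := by rw [pow_succ]; ring
      omega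
  have hEdis : Disjoint (WinC_E t b) (WinC_E t (b + 1)) := by
    rw [Finset.disjoint_left]
    intro n hn hn'
    unfold WinC_E at hn hn'
    rw [Finset.mem_filter, Finset.mem_Ico] at hn hn'
    omega
  have hI3le : ∀ f : ℕ → ℝ, (∀ n, 0 ≤ f n) →
      ∑ n ∈ I3, f n ≤ ∑ n ∈ WinC_E t b, f n + ∑ n ∈ WinC_E t (b + 1), f n := by
    intro f hf
    rw [← Finset.sum_union hEdis]
    exact Finset.sum_le_sum_of_subset_of_nonneg hI3sub fun n _ _ => hf n
  -- the weights of the boundary part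
  have hlen := WinC_len (x := (J : ℝ)) c2 c3 c4 (by
    have : (J : ℝ) ≤ ((J + 1 : ℕ) : ℝ) := by push_cast; linarith
    exact this.trans hkL)
  have hW' : ∑ n ∈ I3, wt M t g n J ω ≤ e2 * A := by
    have g1 := hI3le (fun n => wt M t g n J ω) (fun n => wt_nonneg M t g n J ω)
    have g2 := b7 J hlen.1
    have g3 := b8 J hlen.2
    have g4 : ∑ n ∈ I3, wt M t g n J ω ≤ δ * 2 ^ b := by
      refine g1.trans (le_trans (add_le_add ?_ ?_) s1)
      · exact g2
      · exact g3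
    refine g4.trans (le_trans ?_ hδA)
    apply mul_le_mul_of_nonneg_left _ hδ0.le
    calc (2 : ℝ) ^ b ≤ Y := hYbr
      _ = 1 * Y := (one_mul _).symm
      _ ≤ r ^ J * Y := mul_le_mul_of_nonneg_right hrJ hYp.le
  have hW'0 : 0 ≤ ∑ n ∈ I3, wt M t g n J ω := Finset.sum_nonneg fun n _ => wt_nonneg M t g n J ω
  have hth0 : ∀ n, 0 ≤ RLC.th n := fun n => by
    unfold RLC.th
    split_ifs
    · exact Real.log_natCast_nonneg n
    · exact le_rfl
  have hth : ∀ b' n : ℕ, n ∈ WinC_E t b' → RLC.th n * RR M J n ≤ r ^ J * ((b' : ℝ) + 1) := by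
    intro b' n hn
    unfold WinC_E at hn
    rw [Finset.mem_filter, Finset.mem_Ico] at hn
    have hn0 : 0 < n := lt_of_lt_of_le (by positivity) hn.1.1
    have g1 : RLC.th n ≤ (b' : ℝ) + 1 := by
      have g2 : RLC.th n ≤ Real.log n := by
        unfold RLC.th
        split_ifs
        · exact le_rfl
        · exact Real.log_natCast_nonneg n
      have g3 : Real.log n ≤ Real.log ((2 : ℝ) ^ (b' + 1)) := by
        apply Real.log_le_log (by exact_mod_cast hn0)
        exact_mod_cast hn.1.2.le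
      rw [Real.log_pow] at g3
      have g4 := Real.log_two_lt_d9
      have g5 : (((b' + 1 : ℕ) : ℝ)) * Real.log 2 ≤ ((b' + 1 : ℕ) : ℝ) * 1 :=
        mul_le_mul_of_nonneg_left (by linarith) (Nat.cast_nonneg _)
      push_cast at g3 g5
      linarith
    calc RLC.th n * RR M J n ≤ ((b' : ℝ) + 1) * r ^ J :=
          mul_le_mul g1 (RR_le hM J n) (RR_nonneg M J n) (by positivity)
      _ = _ := mul_comm _ _
  have hV' : ∑ n ∈ I3, RLC.th n * RR M J n ≤ e2 * A := by
    have g1 := hI3le (fun n => RLC.th n * RR M J n) (fun n => mul_nonneg (hth0 n) (RR_nonneg M J n))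
    have g2 : ∑ n ∈ WinC_E t b, RLC.th n * RR M J n ≤ ((WinC_E t b).card : ℝ) * (r ^ J * ((b : ℝ) + 2)) := by
      rw [← nsmul_eq_mul]
      refine Finset.sum_le_card_nsmul _ _ _ fun n hn => (hth b n hn).trans ?_
      apply mul_le_mul_of_nonneg_left (by linarith) (by positivity)
    have g3 : ∑ n ∈ WinC_E t (b + 1), RLC.th n * RR M J n ≤
        ((WinC_E t (b + 1)).card : ℝ) * (r ^ J * ((b : ℝ) + 2)) := by
      rw [← nsmul_eq_mul]
      refine Finset.sum_le_card_nsmul _ _ _ fun n hn => (hth (b + 1) n hn).trans ?_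
      apply mul_le_mul_of_nonneg_left _ (by positivity)
      push_cast
      linarith
    have g4 := WinC_card t b
    have g5 := WinC_card t (b + 1)
    have hQ : 0 ≤ r ^ J * ((b : ℝ) + 2) := by positivity
    have g6 : ∑ n ∈ I3, RLC.th n * RR M J n ≤ r ^ J * (δ * 2 ^ b) := by
      calc _ ≤ ((WinC_E t b).card : ℝ) * (r ^ J * ((b : ℝ) + 2)) +
            ((WinC_E t (b + 1)).card : ℝ) * (r ^ J * ((b : ℝ) + 2)) := g1.trans (add_le_add g2 g3)
        _ ≤ (2 * (2 : ℝ) ^ ((1 - (1 - t) / 2) * (b : ℝ)) + 1) * (r ^ J * ((b : ℝ) + 2)) +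
            (2 * (2 : ℝ) ^ ((1 - (1 - t) / 2) * ((b + 1 : ℕ) : ℝ)) + 1) * (r ^ J * ((b : ℝ) + 2)) :=
            add_le_add (mul_le_mul_of_nonneg_right g4 hQ) (mul_le_mul_of_nonneg_right g5 hQ)
        _ = r ^ J * (((2 * (2 : ℝ) ^ ((1 - c / 2) * (b : ℝ)) + 1) +
            (2 * (2 : ℝ) ^ ((1 - c / 2) * ((b + 1 : ℕ) : ℝ)) + 1)) * ((b : ℝ) + 2)) := by
            rw [hc]
            ring
        _ ≤ r ^ J * (δ * 2 ^ b) := mul_le_mul_of_nonneg_left s2 (by positivity)
    refine g6.trans (le_trans ?_ hδA)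
    calc r ^ J * (δ * 2 ^ b) ≤ r ^ J * (δ * Y) := by gcongr
      _ = δ * (r ^ J * Y) := by ring
  have hV'0 : 0 ≤ ∑ n ∈ I3, RLC.th n * RR M J n :=
    Finset.sum_nonneg fun n _ => mul_nonneg (hth0 n) (RR_nonneg M J n)
  -- the first moment
  set W : ℝ := ∑ n ∈ I, wt M t g n J ω with hW
  have hkJ : (J : ℝ) + 1 ≤ (1 - ε) * (Real.log (RLC.win N m) / Real.log (Real.log (RLC.win N m))) := by
    rw [← hkcast]
    exact hk
  have v1 := b1 b J hkJ
  have v2 := b1 (b + 1) J hkJ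
  have hvb : r ^ J * ((Y : ℝ) / L) ≤ e2 * A / 2 := by
    have g1 : 2 / L ≤ δ := c6.trans (min_le_right _ _)
    calc r ^ J * ((Y : ℝ) / L) = (2 / L) * (r ^ J * Y) / 2 := by
          field_simp
      _ ≤ δ * (r ^ J * Y) / 2 := by
          apply div_le_div_of_nonneg_right _ (by norm_num)
          apply mul_le_mul_of_nonneg_right g1 (by positivity)
      _ ≤ e2 * A / 2 := by linarith
  have hres := b2 J
  have hWA : |W - A| ≤ 4 * e2 * A := by
    have g1 : W - A = (∑ n ∈ I1, (wt M t g n J ω - RLC.th n * RR M J n)) +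
        (∑ n ∈ I2, (wt M t g n J ω - RLC.th n * RR M J n)) + ∑ n ∈ I3, wt M t g n J ω -
        ∑ n ∈ I3, RLC.th n * RR M J n + (∑ n ∈ I, RLC.th n * RR M J n - A) := by
      rw [hW, hsplit, hsplit (fun n => RLC.th n * RR M J n), Finset.sum_sub_distrib, Finset.sum_sub_distrib]
      ring
    have g2 : |∑ n ∈ I1, (wt M t g n J ω - RLC.th n * RR M J n)| ≤ e2 * A / 2 := v1.trans hvb
    have g3 : |∑ n ∈ I2, (wt M t g n J ω - RLC.th n * RR M J n)| ≤ e2 * A / 2 := v2.trans hvb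
    have g4 : |∑ n ∈ I, RLC.th n * RR M J n - A| ≤ e2 * A := by
      refine hres.trans (le_of_eq ?_)
      rw [hA]
      ring
    rw [abs_le] at g2 g3 g4
    rw [g1, abs_le]
    constructor <;> nlinarith [g2.1, g2.2, g3.1, g3.2, g4.1, g4.2]
  -- the counting function
  set P : ℝ := FX (J + 1) Y with hP
  have hP0 : 0 < P := WinC_FX_pos c1 (J + 1)
  set S : Finset ℕ := I.filter fun n => ∀ i < J + 1, (ch M t g ω n i).Prime with hS
  have hcnt : (cnt M t g ω (J + 1) I : ℝ) = (S.card : ℝ) := by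
    unfold cnt
    rw [hS]
  have hmemS : ∀ n ∈ S, n ∈ I ∧ ∀ i < J + 1, (ch M t g ω n i).Prime := fun n hn => by
    rw [hS, Finset.mem_filter] at hn
    exact hn
  have hWS : W = ∑ n ∈ S, wt M t g n J ω := by
    rw [hW, hS, Finset.sum_filter]
    refine Finset.sum_congr rfl fun n _ => ?_
    split_ifs with hp
    · rfl
    · exact WinC_wt_zero hp
  have hlow : (S.card : ℝ) * P ≤ W := by
    rw [hWS, ← nsmul_eq_mul]
    exact Finset.card_nsmul_le_sum _ _ _ fun n hn =>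
      WinC_wt_ge c1 (hmemI n (hmemS n hn).1).1.le (hmemS n hn).2
  have hexp : Real.exp (2 / L) ^ (J + 1) ≤ 1 + e2 := by
    have g1 : ((J + 1 : ℕ) : ℝ) * (2 / L) ≤ 2 / LL := by
      calc ((J + 1 : ℕ) : ℝ) * (2 / L) ≤ L / LL * (2 / L) :=
            mul_le_mul_of_nonneg_right hkL (by positivity)
        _ = 2 / LL := by field_simp
    calc Real.exp (2 / L) ^ (J + 1) = Real.exp (((J + 1 : ℕ) : ℝ) * (2 / L)) := by
          rw [← Real.exp_nat_mul]
      _ ≤ Real.exp (2 / LL) := Real.exp_le_exp.2 g1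
      _ ≤ 1 + min e2 δ := c5
      _ ≤ 1 + e2 := by
        have := min_le_left e2 δ
        linarith
  have hupp : W ≤ (S.card : ℝ) * ((1 + e2) * P) + ∑ n ∈ I3, wt M t g n J ω := by
    have g1 : ∀ n ∈ I, wt M t g n J ω ≤ (if n ∈ S then (1 + e2) * P else 0) +
        (if n ∈ I3 then wt M t g n J ω else 0) := by
      intro n hn
      have hw0 := wt_nonneg M t g n J ω
      by_cases hn3 : n ∈ I3
      · rw [if_pos hn3]
        have : 0 ≤ (if n ∈ S then (1 + e2) * P else 0) := by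
          split_ifs
          · positivity
          · exact le_rfl
        linarith
      · rw [if_neg hn3, add_zero]
        by_cases hnS : n ∈ S
        · rw [if_pos hnS]
          have g2 : n ∈ Inn t b ∨ n ∈ Inn t (b + 1) := by
            by_contra hcon
            exact hn3 (by
              rw [hI3, Finset.mem_filter]
              exact ⟨hn, hcon⟩)
          have g3 := hmemI n hn
          have hnr : (n : ℝ) ≤ 2 * Y := by exact_mod_cast g3.2
          have hch : ∀ i, (ch M t g ω n i : ℝ) ≤ 4 * (2 ^ i * Y) := by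
            intro i
            have g4 : ∃ b' : ℕ, m0 ≤ b' ∧ n ∈ Inn t b' := by
              rcases g2 with g2 | g2
              · exact ⟨b, b9, g2⟩
              · exact ⟨b + 1, by omega, g2⟩
            obtain ⟨b', g5, g6⟩ := g4
            have g7 := ((hgeo b' g5 ω G.mem n g6).1 i).2
            have g8 : (2 : ℝ) ^ (-((1 - t) / 2) * (b' : ℝ)) ≤ 1 := by
              apply Real.rpow_le_one_of_one_le_of_nonpos (by norm_num)
              have : (0 : ℝ) ≤ b' := Nat.cast_nonneg _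
              nlinarith
            have h2i : (0 : ℝ) < 2 ^ i := by positivity
            calc (ch M t g ω n i : ℝ) ≤ 2 ^ i * n * (1 + (2 : ℝ) ^ (-((1 - t) / 2) * (b' : ℝ))) := g7
              _ ≤ 2 ^ i * (2 * Y) * (1 + 1) := by gcongr
              _ = 4 * (2 ^ i * Y) := by ring
          refine (WinC_wt_le (by linarith) c1 (by omega) hch (hmemS n hnS).2).trans ?_
          exact mul_le_mul_of_nonneg_right hexp hP0.le
        · rw [if_neg hnS]
          rw [WinC_wt_zero]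
          intro hp
          exact hnS (by
            rw [hS, Finset.mem_filter]
            exact ⟨hn, hp⟩)
    calc W ≤ ∑ n ∈ I, ((if n ∈ S then (1 + e2) * P else 0) + (if n ∈ I3 then wt M t g n J ω else 0)) :=
          Finset.sum_le_sum g1
      _ = (S.card : ℝ) * ((1 + e2) * P) + ∑ n ∈ I3, wt M t g n J ω := by
          rw [Finset.sum_add_distrib, ← Finset.sum_filter, ← Finset.sum_filter]
          congr 1
          · have : I.filter (fun n => n ∈ S) = S := by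
              ext n
              rw [Finset.mem_filter]
              exact ⟨fun hh => hh.2, fun hh => ⟨(hmemS n hh).1, hh⟩⟩
            rw [this, Finset.sum_const, nsmul_eq_mul]
          · have : I.filter (fun n => n ∈ I3) = I3 := by
              ext n
              rw [Finset.mem_filter]
              refine ⟨fun hh => hh.2, fun hh => ⟨?_, hh⟩⟩
              rw [hI3, Finset.mem_filter] at hh
              exact hh.1
            rw [this]
  rw [hcnt]
  set X : ℝ := (S.card : ℝ) * P with hX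
  have hX0 : 0 ≤ X := by positivity
  have hupp' : W ≤ (1 + e2) * X + e2 * A := by
    have : (S.card : ℝ) * ((1 + e2) * P) = (1 + e2) * X := by rw [hX]; ring
    rw [this] at hupp
    linarith
  rw [abs_le] at hWA
  have hgoal : |X - A| ≤ 20 * e2 * A := by
    rw [abs_le]
    constructor
    · -- (1 + e2) X ≥ (1 - 5 e2) A
      have h5 : (1 - 5 * e2) * A ≤ (1 + e2) * X := by nlinarith [hWA.1]
      by_contra hcon
      push Not at hcon
      have h6 : X < (1 - 20 * e2) * A := by linarith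
      have h7 : (1 + e2) * X ≤ (1 + e2) * ((1 - 20 * e2) * A) :=
        mul_le_mul_of_nonneg_left h6.le (by positivity)
      nlinarith [mul_pos he20 hA0, mul_pos (mul_pos he20 he20) hA0]
    · nlinarith [hWA.2, mul_pos he20 hA0]
  calc |X - cM M (J + 1) * D| = |X - A| := by rw [hA]
    _ ≤ 20 * e2 * A := hgoal
    _ ≤ e * A := mul_le_mul_of_nonneg_right (by linarith) hA0.le
    _ = e * cM M (J + 1) * D := by rw [hA]; ring

end RAF
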