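import Pool.Agent.RAF.AeV
import Pool.Agent.RAF.Bdry
import Pool.Agent.RAF.UpL
import Pool.Agent.RAF.UpF
import Pool.Agent.RAF.WinC
import Pool.Agent.RAF.LowS
import Pool.Agent.RAF.UppS

/-!
# RAF.Main: the theorem

PROOF. As `Pool/Agent/RLC/Main.lean` (copy; simpler). Almost surely `GoodR M t g ω` (`ae_mem`, `ae_var`, `ae_bdry`), so `WinAs M t g ω` (`win_as`), and the conclusion of `ae_upper` holds; fix such an `ω`.
First part: the number in question is exactly `cnt k (Ioc 0 X) - cnt (k+1) (Ioc 0 X)` (`Icc 1 X = Ioc 0 X`). `cnt (k+1) · FX k X ≤ cnt (k+1) · FX (k+1) X/log X ≤ 2 cM M (k+1) X/log X ≤ 2 (M/φ(M)) cM M k X/log X` (`cM_succ`;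
`FX (k+1) X = FX k X · log(2^k X)`; `cnt_upper` with `ε/2` for `k+1`: `k + 1 ≤ (1-ε/2) log X/log log X` for large `X`). Conclude with `cnt_lower`, `cnt_upper` (`e = ε/4`), `cM_pos`.
Second part: as there. (`ch M t g ω p i = (T M t g ω)^[i] p` by definition.)
-/

namespace RAF

open MeasureTheory Filter

variable {M : ℕ} {t K : ℝ} {g : ℕ → ℝ}

private theorem Main_L_tendsto :
    Tendsto (fun X : ℕ => Real.log X / Real.log (Real.log X)) atTop atTop := by
  have h1 : Tendsto (fun t : ℝ => t / Real.log t) atTop atTop := by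
    rw [tendsto_atTop]
    intro K
    have hK : (0 : ℝ) < |K| + 1 := by positivity
    have h2 := Real.isLittleO_log_id_atTop.bound (c := 1 / (|K| + 1)) (by positivity)
    filter_upwards [h2, eventually_gt_atTop (1 : ℝ)] with t ht ht1
    have h3 : 0 < Real.log t := Real.log_pos ht1
    rw [id, Real.norm_of_nonneg h3.le, Real.norm_of_nonneg (by linarith)] at ht
    have h4 : (|K| + 1) * Real.log t ≤ t := by
      calc (|K| + 1) * Real.log t ≤ (|K| + 1) * (1 / (|K| + 1) * t) :=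
            mul_le_mul_of_nonneg_left ht hK.le
        _ = t := by field_simp
    rw [le_div_iff₀ h3]
    have h5 : K * Real.log t ≤ (|K| + 1) * Real.log t :=
      mul_le_mul_of_nonneg_right (by linarith [le_abs_self K]) h3.le
    linarith
  exact h1.comp (Real.tendsto_log_atTop.comp tendsto_natCast_atTop_atTop)

private theorem Main_log_tendsto : Tendsto (fun X : ℕ => Real.log (X : ℝ)) atTop atTop :=
  Real.tendsto_log_atTop.comp tendsto_natCast_atTop_atTop

/-- `log x/log log x` is increasing for `x ≥ 16`. -/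
private theorem Main_L_mono {x y : ℝ} (hx : 16 ≤ x) (hxy : x ≤ y) :
    Real.log x / Real.log (Real.log x) ≤ Real.log y / Real.log (Real.log y) := by
  have he : Real.exp 1 ≤ Real.log x := by
    have h1 : Real.log 16 = 4 * Real.log 2 := by
      rw [show (16 : ℝ) = 2 ^ (4 : ℕ) by norm_num, Real.log_pow]
      norm_num
    have h2 : Real.log 16 ≤ Real.log x := Real.log_le_log (by norm_num) hx
    have h3 := Real.log_two_gt_d9
    have h4 := Real.exp_one_lt_d9
    linarith
  have hxy' : Real.log x ≤ Real.log y := Real.log_le_log (by linarith) hxy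
  have he' : Real.exp 1 ≤ Real.log y := he.trans hxy'
  have hpos : 0 < Real.log x := lt_of_lt_of_le (Real.exp_pos 1) he
  have hpos' : 0 < Real.log y := lt_of_lt_of_le (Real.exp_pos 1) he'
  have h1 : 1 < Real.exp 1 := by
    have := Real.exp_one_gt_d9
    linarith
  have hl : 0 < Real.log (Real.log x) := Real.log_pos (by linarith)
  have hl' : 0 < Real.log (Real.log y) := Real.log_pos (by linarith)
  have h := Real.log_div_self_antitoneOn (show Real.log x ∈ {x : ℝ | Real.exp 1 ≤ x} from he)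
    (show Real.log y ∈ {x : ℝ | Real.exp 1 ≤ x} from he') hxy'
  simp only at h
  rw [div_le_div_iff₀ hpos' hpos] at h
  rw [div_le_div_iff₀ hl hl']
  linarith

/-- `p` starts a chain of exact length `k` for at most one `k`. -/
private theorem Main_unique {c : ℕ → ℕ} {k k' : ℕ} (h : ∀ i < k, (c i).Prime) (h1 : ¬ (c k).Prime)
    (h' : ∀ i < k', (c i).Prime) (h1' : ¬ (c k').Prime) : k = k' := by
  rcases lt_trichotomy k k' with hlt | heq | hgt
  · exact absurd (h' k hlt) h1
  · exact heq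
  · exact absurd (h k' hgt) h1'

private theorem Main_bounded (c : ℕ → ℕ → ℕ) (n1 : ℕ) :
    ∃ K : ℕ, ∀ p < n1, ∀ k : ℕ, (∀ i < k, (c p i).Prime) → ¬ (c p k).Prime → k ≤ K := by
  induction n1 with
  | zero => exact ⟨0, fun p hp => absurd hp (Nat.not_lt_zero p)⟩
  | succ n1 ih =>
    obtain ⟨K, hK⟩ := ih
    by_cases hex : ∃ k, (∀ i < k, (c n1 i).Prime) ∧ ¬ (c n1 k).Prime
    · obtain ⟨k0, hk0, hk0'⟩ := hex
      refine ⟨max K k0, fun p hp k hk hk' => ?_⟩
      rcases Nat.lt_succ_iff_lt_or_eq.1 hp with h | h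
      · exact (hK p h k hk hk').trans (le_max_left _ _)
      · subst h
        exact (Main_unique hk hk' hk0 hk0').le.trans (le_max_right _ _)
    · refine ⟨K, fun p hp k hk hk' => ?_⟩
      rcases Nat.lt_succ_iff_lt_or_eq.1 hp with h | h
      · exact hK p h k hk hk'
      · subst h
        exact absurd ⟨k, hk, hk'⟩ hex

open Classical in
private theorem Main_count (M : ℕ) (t : ℝ) (g : ℕ → ℝ) (ω : ℕ → ℝ × ℝ) (X k : ℕ) :
    (((Finset.Icc 1 X).filter fun p => (∀ i < k, (ch M t g ω p i).Prime) ∧ ¬ (ch M t g ω p k).Prime).card : ℝ) =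
      (cnt M t g ω k (Finset.Ioc 0 X) : ℝ) - (cnt M t g ω (k + 1) (Finset.Ioc 0 X) : ℝ) := by
  have hI : Finset.Icc 1 X = Finset.Ioc 0 X := by
    ext n
    simp only [Finset.mem_Icc, Finset.mem_Ioc]
    omega
  rw [hI]
  unfold cnt
  have hdisj : Disjoint
      ((Finset.Ioc 0 X).filter fun p => (∀ i < k, (ch M t g ω p i).Prime) ∧ ¬ (ch M t g ω p k).Prime)
      ((Finset.Ioc 0 X).filter fun n => ∀ i < k + 1, (ch M t g ω n i).Prime) := by
    rw [Finset.disjoint_filter]
    intro p _ h1 h2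
    exact h1.2 (h2 k (Nat.lt_succ_self k))
  have hun : ((Finset.Ioc 0 X).filter fun p => (∀ i < k, (ch M t g ω p i).Prime) ∧ ¬ (ch M t g ω p k).Prime) ∪
      ((Finset.Ioc 0 X).filter fun n => ∀ i < k + 1, (ch M t g ω n i).Prime) =
      (Finset.Ioc 0 X).filter fun n => ∀ i < k, (ch M t g ω n i).Prime := by
    ext p
    simp only [Finset.mem_union, Finset.mem_filter]
    constructor
    · rintro (⟨h1, h2, _⟩ | ⟨h1, h2⟩)
      · exact ⟨h1, h2⟩
      · exact ⟨h1, fun i hi => h2 i (Nat.lt_succ_of_lt hi)⟩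
    · rintro ⟨h1, h2⟩
      by_cases h3 : (ch M t g ω p k).Prime
      · right
        refine ⟨h1, fun i hi => ?_⟩
        rcases Nat.lt_succ_iff_lt_or_eq.1 hi with h | h
        · exact h2 i h
        · rw [h]
          exact h3
      · exact Or.inl ⟨h1, h2, h3⟩
  have h := Finset.card_union_of_disjoint hdisj
  rw [hun] at h
  rw [h]
  push_cast
  ring

private theorem Main_FX_succ (k X : ℕ) (hX : 1 ≤ X) :
    0 ≤ FX k X ∧ FX k X * Real.log X ≤ FX (k + 1) X := by
  have hX1 : (1 : ℝ) ≤ X := by exact_mod_cast hX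
  have h0 : 0 ≤ FX k X := by
    unfold FX
    refine Finset.prod_nonneg fun i _ => Real.log_nonneg ?_
    have : (1 : ℝ) ≤ 2 ^ i := one_le_pow₀ (by norm_num)
    nlinarith
  refine ⟨h0, ?_⟩
  have h1 : FX (k + 1) X = FX k X * Real.log (2 ^ k * X) := by
    unfold FX
    rw [Finset.prod_range_succ]
  rw [h1]
  refine mul_le_mul_of_nonneg_left (Real.log_le_log (by linarith) ?_) h0
  have : (1 : ℝ) ≤ 2 ^ k := one_le_pow₀ (by norm_num)
  nlinarith

open Classical in
private theorem Main_first (hM : 0 < M) {ω : ℕ → ℝ × ℝ} (hW : WinAs M t g ω)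
    {ε : ℝ} (hε : 0 < ε) (hε1 : ε < 1) : ∀ᶠ X : ℕ in atTop,
      ∀ k : ℕ, 1 ≤ k → (k : ℝ) ≤ (1 - ε) * (Real.log X / Real.log (Real.log X)) →
        |(((Finset.Icc 1 X).filter fun p => (∀ i < k, (ch M t g ω p i).Prime) ∧ ¬ (ch M t g ω p k).Prime).card : ℝ) *
          (∏ i ∈ Finset.range k, Real.log (2 ^ i * X)) / (cM M k * X) - 1| ≤ ε := by
  have hlow := cnt_lower hM hW hε hε1 (e := ε / 4) (by linarith)
  have hup := cnt_upper hM hW hε hε1 (e := ε / 4) (by linarith)
  have hup' := cnt_upper hM hW (half_pos hε) (by linarith : ε / 2 < 1) (e := ε / 4) (by linarith)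
  have hL := Main_L_tendsto.eventually_ge_atTop (2 / ε)
  set r : ℝ := (M : ℝ) / (Nat.totient M : ℝ) with hr
  have hr1 : 1 ≤ r := ratio_one_le hM
  have hlog := Main_log_tendsto.eventually_ge_atTop (max (8 * r / ε) (Real.exp 1))
  filter_upwards [hlow, hup, hup', hL, hlog, eventually_ge_atTop 2] with X h1 h2 h3
    h5 h6 h8 k hk hkL
  have hX2 : (2 : ℝ) ≤ X := by exact_mod_cast h8
  have hX0 : (0 : ℝ) < X := by linarith
  have hlog8 : 8 * r / ε ≤ Real.log X := (le_max_left _ _).trans h6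
  have hloge : Real.exp 1 ≤ Real.log X := (le_max_right _ _).trans h6
  have he1 : (1 : ℝ) ≤ Real.exp 1 := Real.one_le_exp (by norm_num)
  have hlog0 : 0 < Real.log X := by linarith
  have hll : 1 ≤ Real.log (Real.log X) := by
    rw [Real.le_log_iff_exp_le hlog0]
    exact hloge
  set L : ℝ := Real.log X / Real.log (Real.log X) with hLdef
  have hkL' : ((k + 1 : ℕ) : ℝ) ≤ (1 - ε / 2) * L := by
    push_cast
    have : 1 ≤ ε / 2 * L := by
      rw [div_le_iff₀ hε] at h5
      linarith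
    linarith
  have hc := Main_count M t g ω X k
  set N : ℝ := (((Finset.Icc 1 X).filter fun p => (∀ i < k, (ch M t g ω p i).Prime) ∧ ¬ (ch M t g ω p k).Prime).card : ℝ) with hN
  set c0 : ℝ := (cnt M t g ω k (Finset.Ioc 0 X) : ℝ) with hc0
  set c1 : ℝ := (cnt M t g ω (k + 1) (Finset.Ioc 0 X) : ℝ) with hc1
  have hc1nn : 0 ≤ c1 := Nat.cast_nonneg _
  obtain ⟨hF0, hFs⟩ := Main_FX_succ k X (by omega)
  set F : ℝ := FX k X with hF
  have hcM : 0 < cM M k := cM_pos hM k
  have hcM' : cM M (k + 1) ≤ r * cM M k := cM_succ hM k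
  have g1 : (1 - ε / 4) * cM M k * X ≤ c0 * F := h1 k hk hkL
  have g2 : c0 * F ≤ (1 + ε / 4) * cM M k * X := h2 k hk hkL
  have g3 : c1 * FX (k + 1) X ≤ (1 + ε / 4) * cM M (k + 1) * X := h3 (k + 1) (by omega) hkL'
  have hD : 0 < cM M k * X := mul_pos hcM hX0
  -- the chains of length `k + 1`
  have g6 : c1 * F * Real.log X ≤ 2 * r * (cM M k * X) := by
    calc c1 * F * Real.log X = c1 * (F * Real.log X) := by ring
      _ ≤ c1 * FX (k + 1) X := mul_le_mul_of_nonneg_left hFs hc1nn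
      _ ≤ (1 + ε / 4) * cM M (k + 1) * X := g3
      _ ≤ 2 * (r * cM M k) * X := by
          refine mul_le_mul_of_nonneg_right ?_ hX0.le
          exact mul_le_mul (by linarith) hcM' (cM_pos hM (k + 1)).le (by norm_num)
      _ = 2 * r * (cM M k * X) := by ring
  have g7 : c1 * F ≤ ε / 4 * (cM M k * X) := by
    have h9 : 0 ≤ c1 * F := by positivity
    have h10 : c1 * F * (8 * r / ε) ≤ 2 * r * (cM M k * X) :=
      (mul_le_mul_of_nonneg_left hlog8 h9).trans g6
    have h11 : c1 * F * (8 * r / ε) = 2 * r * (c1 * F * 4 / ε) := by ring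
    rw [h11] at h10
    have h12 : c1 * F * 4 / ε ≤ cM M k * X := le_of_mul_le_mul_left h10 (by linarith)
    rw [div_le_iff₀ hε] at h12
    linarith
  have hprod : (∏ i ∈ Finset.range k, Real.log (2 ^ i * (X : ℝ))) = F := rfl
  rw [hprod]
  have g8 : N * F = c0 * F - c1 * F := by rw [hc]; ring
  have g9 : N * F ≤ (1 + ε) * (cM M k * X) := by
    have : 0 ≤ c1 * F := by positivity
    nlinarith
  have g10 : (1 - ε) * (cM M k * X) ≤ N * F := by
    nlinarith
  rw [abs_le]
  constructor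
  · have : 1 - ε ≤ N * F / (cM M k * X) := by
      rw [le_div_iff₀ hD]
      exact g10
    linarith
  · have : N * F / (cM M k * X) ≤ 1 + ε := by
      rw [div_le_iff₀ hD]
      exact g9
    linarith

private theorem Main_second {c : ℕ → ℕ → ℕ}
    (U : ∀ ε : ℝ, 0 < ε → ∀ᶠ n : ℕ in atTop,
      ¬ ∀ i : ℕ, (i : ℝ) < (1 + ε) * (Real.log n / Real.log (Real.log n)) →
        (c n i).Prime)
    {ε : ℝ} (hε : 0 < ε) : ∀ᶠ X : ℕ in atTop,
      ∀ p ∈ Finset.Icc 1 X, ∀ k : ℕ, (∀ i < k, (c p i).Prime) → ¬ (c p k).Prime →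
        (k : ℝ) ≤ (1 + ε) * (Real.log X / Real.log (Real.log X)) := by
  obtain ⟨n0, hn0⟩ := eventually_atTop.1 (U ε hε)
  obtain ⟨K, hK⟩ := Main_bounded c (max n0 16)
  filter_upwards [Main_L_tendsto.eventually_ge_atTop (K : ℝ)] with X hX p hp k hk hk'
  have hL0 : 0 ≤ Real.log X / Real.log (Real.log X) := (Nat.cast_nonneg K).trans hX
  by_cases hp0 : p < max n0 16
  · have h1 : (k : ℝ) ≤ K := by exact_mod_cast hK p hp0 k hk hk'
    have h2 : 0 ≤ ε * (Real.log X / Real.log (Real.log X)) := by positivity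
    linarith
  · have hp1 := not_lt.1 hp0
    have hpn : n0 ≤ p := (le_max_left _ _).trans hp1
    have hp16 : (16 : ℝ) ≤ p := by exact_mod_cast (le_max_right n0 16).trans hp1
    have hpX : (p : ℝ) ≤ X := by exact_mod_cast (Finset.mem_Icc.1 hp).2
    have h1 := hn0 p hpn
    have h2 : (k : ℝ) < (1 + ε) * (Real.log p / Real.log (Real.log p)) := by
      by_contra hcon
      push Not at hcon
      apply h1
      intro i hi
      apply hk i
      have : (i : ℝ) < k := lt_of_lt_of_le hi hcon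
      exact_mod_cast this
    have h3 := Main_L_mono hp16 hpX
    have h4 := mul_le_mul_of_nonneg_left h3 (by linarith : 0 ≤ 1 + ε)
    linarith

open Classical in
private theorem Main_all (h : Adm M t K g) : ∀ᵐ ω ∂Pm, ∀ ε : ℝ, 0 < ε → ε < 1 → ∀ᶠ X : ℕ in atTop,
    (∀ k : ℕ, 1 ≤ k → (k : ℝ) ≤ (1 - ε) * (Real.log X / Real.log (Real.log X)) →
      |(((Finset.Icc 1 X).filter fun p => (∀ i < k, (ch M t g ω p i).Prime) ∧ ¬ (ch M t g ω p k).Prime).card : ℝ) *
        (∏ i ∈ Finset.range k, Real.log (2 ^ i * X)) / (cM M k * X) - 1| ≤ ε) ∧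
    (∀ p ∈ Finset.Icc 1 X, ∀ k : ℕ, (∀ i < k, (ch M t g ω p i).Prime) → ¬ (ch M t g ω p k).Prime →
      (k : ℝ) ≤ (1 + ε) * (Real.log X / Real.log (Real.log X))) := by
  filter_upwards [ae_mem, ae_var h, ae_bdry h, ae_upper h] with ω h1 h2 h3 h4 ε hε hε1
  have G : GoodR M t g ω := ⟨h1, h2, h3⟩
  have hW := win_as h G
  have h5 := Main_first h.hM hW hε hε1
  have h6 := Main_second (c := ch M t g ω) h4 hε
  filter_upwards [h5, h6] with X h7 h8
  exact ⟨fun k hk hkL => h7 k hk hkL, h8⟩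

theorem main (h : Adm M t K g) : ∀ᵐ ω ∂Pm, ∀ ε : ℝ, 0 < ε → ε < 1 → ∀ᶠ X : ℕ in atTop,
    (∀ k : ℕ, 1 ≤ k → (k : ℝ) ≤ (1 - ε) * (Real.log X / Real.log (Real.log X)) →
      |(((Finset.Icc 1 X).filter fun p => (∀ i < k, (ch M t g ω p i).Prime) ∧ ¬ (ch M t g ω p k).Prime).card : ℝ) *
        (∏ i ∈ Finset.range k, Real.log (2 ^ i * X)) / (cM M k * X) - 1| ≤ ε) ∧
    (∀ p ∈ Finset.Icc 1 X, ∀ k : ℕ, (∀ i < k, (ch M t g ω p i).Prime) →
      (k : ℝ) ≤ (1 + ε) * (Real.log X / Real.log (Real.log X))) := by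
  classical
  filter_upwards [Main_all h, ae_fin h] with ω h1 h2 ε hε hε1
  filter_upwards [h1 ε hε hε1] with X h3
  refine ⟨h3.1, fun p hp k hk => ?_⟩
  have h4 := h2 p
  have h5 : ¬ (ch M t g ω p (Nat.find h4)).Prime := Nat.find_spec h4
  have h6 : ∀ i < Nat.find h4, (ch M t g ω p i).Prime := fun i hi => not_not.1 (Nat.find_min h4 hi)
  have h7 : k ≤ Nat.find h4 := by
    by_contra hc
    exact h5 (hk _ (not_le.1 hc))
  have h8 := h3.2 p hp (Nat.find h4) h6 h5
  have h9 : (k : ℝ) ≤ (Nat.find h4 : ℕ) := by exact_mod_cast h7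
  exact h9.trans h8

end RAF
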