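import Pool.Agent.RAF.Geo
import Pool.Agent.RAF.Mom1
import Pool.Agent.RAF.StepV

/-!
# RAF.Mom2: second moments

PROOF. `m` is at least the `m0` of `geo`. For almost all `ω` (`ae_mem`), `n ∈ Inn t m`: `log₂ (ch n i) = m + i`.
`mom_two`: induction on `j`. `j = 0`: `wt_zero`. Step: `wt_succ`, `resample` at `b = m + j`; for almost all `ω`: `wt_update`, `ch_update_last` (`log₂ (ch n j) = b = log₂ (ch n' j)`), so
`E wt n (j+1) wt n' (j+1) = E wt n j wt n' j ∫⁻ th (TT (ch n j) y) th (TT (ch n' j) y) dy ≤ (m+j)^κ' E wt n j wt n' j` by `SV.two`, since `ch n j ≠ ch n' j` (`geo`, difference `≥ 2^j`). `(m+i)^κ' ≤ (m+j)^κ'` for `i ≤ j`.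
(`resample` is for functions `f ω`; the update only changes the coordinate `b`, so `update ω b y` is again in the square for a.e. `(ω, y)`; the equality `log₂ (ch n j) = b` is used for `ω`.)
`mom_diag`: for almost all `ω`: `wt n j ≤ ∏_{i≤j} log (ch n i) ≤ ∏_{i≤j} (m+i+1) log 2` (`th_le_log`, `ch n i < 2^(m+i+1)`), and `mom_one`.
-/

namespace RAF

open MeasureTheory

variable {M : ℕ} {t K : ℝ} {g : ℕ → ℝ}

private theorem Mom2_ne {m : ℕ} {ω : ℕ → ℝ × ℝ}
    (hgeo : ∀ n ∈ Inn t m,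
      (∀ i : ℕ, Nat.log 2 (ch M t g ω n i) = m + i ∧
        (ch M t g ω n i : ℝ) ≤ 2 ^ i * n * (1 + (2 : ℝ) ^ (-((1 - t) / 2) * (m : ℝ)))) ∧
      (∀ n' ∈ Inn t m, n ≤ n' → ∀ i : ℕ, ch M t g ω n i + 2 ^ i * (n' - n) ≤ ch M t g ω n' i))
    {n n' : ℕ} (hn : n ∈ Inn t m) (hn' : n' ∈ Inn t m) (hne : n ≠ n') (i : ℕ) :
    ch M t g ω n i ≠ ch M t g ω n' i := by
  have key : ∀ {p q : ℕ}, p ∈ Inn t m → q ∈ Inn t m → p < q → ch M t g ω p i < ch M t g ω q i := by
    intro p q hp hq hpq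
    have h1 := (hgeo p hp).2 q hq hpq.le i
    have h2 : 0 < 2 ^ i * (q - p) := Nat.mul_pos (by positivity) (by omega)
    omega
  rcases Nat.lt_or_gt_of_ne hne with hlt | hlt
  · exact (key hn hn' hlt).ne
  · exact (key hn' hn hlt).ne'

theorem mom_two (h : Adm M t K g) : ∃ m1 : ℕ, ∀ (κ κ' A : ℝ) (B : Set ℕ) (m0 : ℕ), 0 ≤ κ' → SV M t g κ κ' A B m0 →
    ∀ m : ℕ, m0 ≤ m → m1 ≤ m → ∀ n ∈ Inn t m, ∀ n' ∈ Inn t m, n ≠ n' → ∀ j : ℕ,
    ∫⁻ ω, ENNReal.ofReal (wt M t g n j ω * wt M t g n' j ω) ∂Pm ≤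
      ENNReal.ofReal (RLC.th n * RLC.th n' * (((m : ℝ) + j) ^ κ') ^ j) := by
  obtain ⟨m1, hm1⟩ := geo h
  refine ⟨m1, ?_⟩
  intro κ κ' A B m0 hκ' hSV m hm0 hm n hn n' hn' hne j
  have hp := Inn_pos hn
  have hp' := Inn_pos hn'
  induction j with
  | zero =>
    simp only [wt_zero, pow_zero, mul_one]
    rw [lintegral_const, measure_univ, mul_one]
  | succ j ih =>
    rw [resample (m + j) (fun ω => ENNReal.ofReal (wt M t g n (j + 1) ω * wt M t g n' (j + 1) ω))
      ((wt_meas M t g n (j + 1)).mul (wt_meas M t g n' (j + 1))).ennreal_ofReal]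
    have hk0 : (0 : ℝ) ≤ ((m : ℝ) + j) ^ κ' := by positivity
    have h1 : ∀ᵐ ω ∂Pm,
        ∫⁻ y, ENNReal.ofReal (wt M t g n (j + 1) (Function.update ω (m + j) y) *
          wt M t g n' (j + 1) (Function.update ω (m + j) y)) ∂uu ≤
          ENNReal.ofReal (((m : ℝ) + j) ^ κ') * ENNReal.ofReal (wt M t g n j ω * wt M t g n' j ω) := by
      filter_upwards [ae_mem] with ω hω
      have hg := hm1 m hm ω hω
      have hl := ((hg n hn).1 j).1
      have hl' := ((hg n' hn').1 j).1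
      have hcc := Mom2_ne hg hn hn' hne j
      have h2 := hSV.two (m + j) (by omega) _ _ hl hl' hcc
      have hw : ∀ y : ℝ × ℝ, wt M t g n (j + 1) (Function.update ω (m + j) y) =
          wt M t g n j ω * RLC.th (TT M t g (ch M t g ω n j) y) := fun y => by
        rw [wt_succ, wt_update M t g ω hp.1 hl y, ch_update_last M t g ω hp.1 hl y]
      have hw' : ∀ y : ℝ × ℝ, wt M t g n' (j + 1) (Function.update ω (m + j) y) =
          wt M t g n' j ω * RLC.th (TT M t g (ch M t g ω n' j) y) := fun y => by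
        rw [wt_succ, wt_update M t g ω hp'.1 hl' y, ch_update_last M t g ω hp'.1 hl' y]
      calc ∫⁻ y, ENNReal.ofReal (wt M t g n (j + 1) (Function.update ω (m + j) y) *
            wt M t g n' (j + 1) (Function.update ω (m + j) y)) ∂uu
          = ∫⁻ y, ENNReal.ofReal (wt M t g n j ω * wt M t g n' j ω) *
              ENNReal.ofReal (RLC.th (TT M t g (ch M t g ω n j) y) *
                RLC.th (TT M t g (ch M t g ω n' j) y)) ∂uu := by
            refine lintegral_congr fun y => ?_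
            rw [hw, hw', ← ENNReal.ofReal_mul (mul_nonneg (wt_nonneg M t g n j ω) (wt_nonneg M t g n' j ω))]
            congr 1
            ring
        _ = ENNReal.ofReal (wt M t g n j ω * wt M t g n' j ω) *
              ∫⁻ y, ENNReal.ofReal (RLC.th (TT M t g (ch M t g ω n j) y) *
                RLC.th (TT M t g (ch M t g ω n' j) y)) ∂uu :=
            lintegral_const_mul' _ _ ENNReal.ofReal_ne_top
        _ ≤ ENNReal.ofReal (wt M t g n j ω * wt M t g n' j ω) *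
              ENNReal.ofReal (((m + j : ℕ) : ℝ) ^ κ') := mul_le_mul' le_rfl h2
        _ = _ := by
            rw [mul_comm]
            push_cast
            rfl
    calc ∫⁻ ω, ∫⁻ y, ENNReal.ofReal (wt M t g n (j + 1) (Function.update ω (m + j) y) *
            wt M t g n' (j + 1) (Function.update ω (m + j) y)) ∂uu ∂Pm
        ≤ ∫⁻ ω, ENNReal.ofReal (((m : ℝ) + j) ^ κ') *
            ENNReal.ofReal (wt M t g n j ω * wt M t g n' j ω) ∂Pm := lintegral_mono_ae h1
      _ = ENNReal.ofReal (((m : ℝ) + j) ^ κ') *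
            ∫⁻ ω, ENNReal.ofReal (wt M t g n j ω * wt M t g n' j ω) ∂Pm :=
          lintegral_const_mul' _ _ ENNReal.ofReal_ne_top
      _ ≤ ENNReal.ofReal (((m : ℝ) + j) ^ κ') *
            ENNReal.ofReal (RLC.th n * RLC.th n' * (((m : ℝ) + j) ^ κ') ^ j) :=
          mul_le_mul' le_rfl ih
      _ ≤ _ := by
          rw [← ENNReal.ofReal_mul hk0]
          apply ENNReal.ofReal_le_ofReal
          have e1 : ((m : ℝ) + j) ^ κ' * (RLC.th n * RLC.th n' * (((m : ℝ) + j) ^ κ') ^ j) =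
              RLC.th n * RLC.th n' * (((m : ℝ) + j) ^ κ') ^ (j + 1) := by
            rw [pow_succ]
            ring
          rw [e1]
          refine mul_le_mul_of_nonneg_left ?_ (mul_nonneg (RLC.th_nonneg n) (RLC.th_nonneg n'))
          refine pow_le_pow_left₀ hk0 ?_ (j + 1)
          refine Real.rpow_le_rpow (by positivity) ?_ hκ'
          push_cast
          linarith

theorem mom_diag (h : Adm M t K g) : ∃ C : ℝ, 1 ≤ C ∧ ∃ m1 : ℕ, ∀ m : ℕ, m1 ≤ m → ∀ n ∈ Inn t m, ∀ j : ℕ,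
    ∫⁻ ω, ENNReal.ofReal (wt M t g n j ω ^ 2) ∂Pm ≤
      ENNReal.ofReal ((∏ i ∈ Finset.range (j + 1), (((m : ℝ) + i + 1) * Real.log 2)) * (RLC.th n * C ^ j)) := by
  obtain ⟨C, hC, hone⟩ := mom_one h
  obtain ⟨m1, hm1⟩ := geo h
  refine ⟨C, hC, m1, ?_⟩
  intro m hm n hn j
  have hp := Inn_pos hn
  have hl2 : 0 ≤ Real.log 2 := Real.log_nonneg (by norm_num)
  have hP0 : 0 ≤ ∏ i ∈ Finset.range (j + 1), (((m : ℝ) + i + 1) * Real.log 2) :=
    Finset.prod_nonneg fun i _ => by positivity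
  have h1 : ∀ᵐ ω ∂Pm, ENNReal.ofReal (wt M t g n j ω ^ 2) ≤
      ENNReal.ofReal (∏ i ∈ Finset.range (j + 1), (((m : ℝ) + i + 1) * Real.log 2)) *
        ENNReal.ofReal (wt M t g n j ω) := by
    filter_upwards [ae_mem] with ω hω
    rw [← ENNReal.ofReal_mul hP0, sq]
    refine ENNReal.ofReal_le_ofReal (mul_le_mul_of_nonneg_right ?_ (wt_nonneg M t g n j ω))
    refine Finset.prod_le_prod (fun i _ => RLC.th_nonneg _) fun i _ => ?_
    have hl := ((hm1 m hm ω hω n hn).1 i).1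
    have hc0 := ch_pos M t g ω hp.1 i
    have h2 : ch M t g ω n i < 2 ^ (m + i + 1) := by
      have h3 := Nat.lt_pow_succ_log_self (b := 2) (by norm_num) (ch M t g ω n i)
      rw [hl] at h3
      exact h3
    have h4 : (ch M t g ω n i : ℝ) ≤ (2 : ℝ) ^ (m + i + 1) := by exact_mod_cast h2.le
    have h5 := Real.log_le_log (by exact_mod_cast hc0 : (0 : ℝ) < (ch M t g ω n i : ℝ)) h4
    rw [Real.log_pow] at h5
    refine (RLC.th_le_log _).trans (h5.trans (le_of_eq ?_))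
    push_cast
    ring
  calc ∫⁻ ω, ENNReal.ofReal (wt M t g n j ω ^ 2) ∂Pm
      ≤ ∫⁻ ω, ENNReal.ofReal (∏ i ∈ Finset.range (j + 1), (((m : ℝ) + i + 1) * Real.log 2)) *
        ENNReal.ofReal (wt M t g n j ω) ∂Pm := lintegral_mono_ae h1
    _ = ENNReal.ofReal (∏ i ∈ Finset.range (j + 1), (((m : ℝ) + i + 1) * Real.log 2)) *
        ∫⁻ ω, ENNReal.ofReal (wt M t g n j ω) ∂Pm :=
        lintegral_const_mul' _ _ ENNReal.ofReal_ne_top
    _ ≤ ENNReal.ofReal (∏ i ∈ Finset.range (j + 1), (((m : ℝ) + i + 1) * Real.log 2)) *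
        ENNReal.ofReal (RLC.th n * C ^ j) := mul_le_mul' le_rfl (hone n hp.1 j)
    _ = _ := (ENNReal.ofReal_mul hP0).symm

end RAF
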