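import Pool.Agent.RAF.Defs

/-!
# RAF.PPX: the pointwise bound

PROOF. We may assume `K ≥ 1`. For `χ ≠ 1`: as the proof of the pointwise bound in `Pool/Agent/ASC/PMSC.lean` (private there; it treats `|τ| ≤ exp(L/2)`, compare
`Pool/Agent/RLC/PPt.lean`, `P_point2`): `P χ L τ = √(2/(3π)) ∫ exp(-(w-L)²/6) gc χ Λ w τ dw`, and for `w ≥ L/2` use `VKC.prime_gauss hχ (2K) A'`
(`|τ| ≤ exp(KL) ≤ exp(2Kw)`), for `w < L/2` the weight is tiny. For `χ = 1`: `ASC.P 1 L τ = ASI.P L τ - R` with `‖R‖ ≤ C(M) exp(-L)`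
(see `Pool/Agent/ASC/Class.lean`; the lemmas there are private, copy), and `‖ASI.P L τ - ASI.mainT L τ‖ ≤ L^(-A)/2` for `|τ| ≤ exp(KL)`: copy
`Pool/Agent/RLC/PPt.lean` with `2K` in place of `4`. There are finitely many `χ` (`Fintype`/`Finite (DirichletCharacter ℂ M)`), take the maximum
of the `L0`.
-/

namespace RAF

open MeasureTheory ArithmeticFunction ASI ASC

private noncomputable def PPX_a (n : ℕ) : ℝ :=
  (n.divisors.card : ℝ) ^ 2 * (1 + Real.log n) ^ 2 / n

private theorem PPX_a_nonneg (n : ℕ) : 0 ≤ PPX_a n := by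
  unfold PPX_a
  positivity

private theorem PPX_term {M : ℕ} (χ : DirichletCharacter ℂ M) (n : ℕ) (τ : ℝ) :
    ‖(ArithmeticFunction.vonMangoldt n : ℂ) * nc χ n τ‖ ≤ PPX_a n := by
  rw [norm_mul, Complex.norm_real, Real.norm_of_nonneg
    ArithmeticFunction.vonMangoldt_nonneg]
  refine (mul_le_mul_of_nonneg_left (nc_norm χ n τ)
    ArithmeticFunction.vonMangoldt_nonneg).trans ?_
  unfold PPX_a
  rcases Nat.eq_zero_or_pos n with h | h
  · subst h
    simp
  · have h1 : (1 : ℝ) ≤ n := by exact_mod_cast h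
    have h2 : 0 ≤ Real.log n := Real.log_nonneg h1
    have h3 : ArithmeticFunction.vonMangoldt n ≤ Real.log n :=
      ArithmeticFunction.vonMangoldt_le_log
    have h4 : (1 : ℝ) ≤ n.divisors.card := by
      have : 0 < n.divisors.card := Finset.card_pos.mpr ⟨1, Nat.one_mem_divisors.mpr h.ne'⟩
      exact_mod_cast this
    have h5 : Real.log n ≤ (n.divisors.card : ℝ) ^ 2 * (1 + Real.log n) ^ 2 := by
      have h6 : (1 : ℝ) ≤ (n.divisors.card : ℝ) ^ 2 := one_le_pow₀ h4
      nlinarith [sq_nonneg (Real.log n)]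
    rw [← div_eq_mul_inv]
    exact div_le_div_of_nonneg_right (h3.trans h5) (by positivity)

private theorem PPX_zero_cpow_ne (τ : ℝ) : -(1 + (τ : ℂ) * Complex.I) ≠ 0 := by
  intro h0
  have := congrArg Complex.re h0
  simp at this

private theorem PPX_nc_cont {M : ℕ} (χ : DirichletCharacter ℂ M) (n : ℕ) :
    Continuous (fun τ : ℝ => nc χ n τ) := by
  unfold nc
  refine continuous_const.mul ?_
  rw [continuous_iff_continuousAt]
  intro τ
  refine ContinuousAt.const_cpow ?_ (Or.inr (PPX_zero_cpow_ne τ))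
  fun_prop

/-- the weighted majorant -/
private theorem PPX_sum : ∃ C : ℝ, 1 ≤ C ∧ ∀ y : ℝ,
    Summable (fun n : ℕ => PPX_a n * Real.exp (-(Real.log n - y) ^ 2 / 16)) ∧
    ∑' n : ℕ, PPX_a n * Real.exp (-(Real.log n - y) ^ 2 / 16) ≤ C * (1 + |y|) ^ 6 := by
  obtain ⟨C, hC, h⟩ := div_gauss
  exact ⟨C, hC, fun y => ⟨(h y).1, (h y).2.1⟩⟩

private theorem PPX_exp_mono {x c c' : ℝ} (hc : 0 < c) (hcc : c ≤ c') :
    Real.exp (-x ^ 2 / c) ≤ Real.exp (-x ^ 2 / c') := by
  apply Real.exp_le_exp.mpr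
  rw [neg_div, neg_div, neg_le_neg_iff]
  exact div_le_div_of_nonneg_left (sq_nonneg x) hc hcc

private theorem PPX_summand {M : ℕ} (χ : DirichletCharacter ℂ M) (L : ℝ) (n : ℕ) (τ : ℝ) :
    ‖(ArithmeticFunction.vonMangoldt n : ℂ) * nc χ n τ * (ps L (Real.log n) : ℝ)‖ ≤
      PPX_a n * Real.exp (-(Real.log n - L) ^ 2 / 16) := by
  rw [norm_mul, Complex.norm_real, Real.norm_of_nonneg
    (show 0 ≤ ps L (Real.log n) from (Real.exp_pos _).le)]
  exact mul_le_mul (PPX_term χ n τ) (PPX_exp_mono (by norm_num) (by norm_num))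
    (Real.exp_pos _).le (PPX_a_nonneg n)

private theorem PPX_square (x w L : ℝ) :
    -(x - w) ^ 2 / 2 + -(w - L) ^ 2 / 6 =
      -(x - L) ^ 2 / 8 + -(2 / 3) * (w - (3 * x + L) / 4) ^ 2 := by
  ring

private theorem PPX_prod (x w L : ℝ) :
    Real.exp (-(x - w) ^ 2 / 2) * Real.exp (-(w - L) ^ 2 / 6) =
      Real.exp (-(x - L) ^ 2 / 8) * Real.exp (-(2 / 3) * (w - (3 * x + L) / 4) ^ 2) := by
  rw [← Real.exp_add, ← Real.exp_add, PPX_square]

private theorem PPX_conv_int (x L : ℝ) :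
    Integrable (fun w : ℝ => Real.exp (-(x - w) ^ 2 / 2) * Real.exp (-(w - L) ^ 2 / 6)) := by
  simp only [PPX_prod]
  exact ((integrable_exp_neg_mul_sq (b := 2 / 3) (by norm_num)).comp_sub_right _).const_mul _

private theorem PPX_conv (x L : ℝ) :
    ∫ w : ℝ, Real.exp (-(x - w) ^ 2 / 2) * Real.exp (-(w - L) ^ 2 / 6) =
      Real.sqrt (3 * Real.pi / 2) * Real.exp (-(x - L) ^ 2 / 8) := by
  simp only [PPX_prod]
  rw [integral_const_mul]
  have h := integral_sub_right_eq_self (μ := (volume : Measure ℝ))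
    (fun w : ℝ => Real.exp (-(2 / 3) * w ^ 2)) ((3 * x + L) / 4)
  rw [h, integral_gaussian]
  have : Real.pi / (2 / 3) = 3 * Real.pi / 2 := by ring
  rw [this, mul_comm]

private noncomputable def PPX_F {M : ℕ} (χ : DirichletCharacter ℂ M) (L τ : ℝ) (n : ℕ) (w : ℝ) : ℂ :=
  (ArithmeticFunction.vonMangoldt n : ℂ) * nc χ n τ *
    ((Real.exp (-(Real.log n - w) ^ 2 / 2) * Real.exp (-(w - L) ^ 2 / 6) : ℝ) : ℂ)

private theorem PPX_F_int {M : ℕ} (χ : DirichletCharacter ℂ M) (L τ : ℝ) (n : ℕ) : Integrable (PPX_F χ L τ n) := by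
  unfold PPX_F
  exact ((PPX_conv_int _ _).ofReal).const_mul _

private theorem PPX_F_integral {M : ℕ} (χ : DirichletCharacter ℂ M) (L τ : ℝ) (n : ℕ) : ∫ w : ℝ, PPX_F χ L τ n w =
    (Real.sqrt (3 * Real.pi / 2) : ℂ) *
      ((ArithmeticFunction.vonMangoldt n : ℂ) * nc χ n τ * (ps L (Real.log n) : ℝ)) := by
  unfold PPX_F
  rw [integral_const_mul, integral_complex_ofReal, PPX_conv]
  unfold ps
  push_cast
  ring

private theorem PPX_F_norm {M : ℕ} (χ : DirichletCharacter ℂ M) (L τ : ℝ) (n : ℕ) : ∫ w : ℝ, ‖PPX_F χ L τ n w‖ =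
    Real.sqrt (3 * Real.pi / 2) *
      ‖(ArithmeticFunction.vonMangoldt n : ℂ) * nc χ n τ * (ps L (Real.log n) : ℝ)‖ := by
  have h1 : ∀ w, ‖PPX_F χ L τ n w‖ = ‖(ArithmeticFunction.vonMangoldt n : ℂ) * nc χ n τ‖ *
      (Real.exp (-(Real.log n - w) ^ 2 / 2) * Real.exp (-(w - L) ^ 2 / 6)) := fun w => by
    unfold PPX_F
    rw [norm_mul, Complex.norm_real, Real.norm_of_nonneg (by positivity)]
  simp only [h1]
  rw [integral_const_mul, PPX_conv, norm_mul (_ * _), Complex.norm_real,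
    Real.norm_of_nonneg (show 0 ≤ ps L (Real.log n) from (Real.exp_pos _).le)]
  unfold ps
  ring

private theorem PPX_F_tsum {M : ℕ} (χ : DirichletCharacter ℂ M) (L τ w : ℝ) : ∑' n : ℕ, PPX_F χ L τ n w =
    VKC.gc χ (fun n => ArithmeticFunction.vonMangoldt n) w τ *
      (Real.exp (-(w - L) ^ 2 / 6) : ℝ) := by
  unfold VKC.gc
  rw [← tsum_mul_right]
  refine tsum_congr fun n => ?_
  unfold PPX_F nc
  push_cast
  ring

private theorem PPX_F_cont {M : ℕ} (χ : DirichletCharacter ℂ M) (L τ : ℝ) : Continuous (fun w : ℝ => ∑' n : ℕ, PPX_F χ L τ n w) := by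
  obtain ⟨C, hC, h⟩ := PPX_sum
  refine continuous_tsum (fun n => ?_) (h L).1 fun n w => ?_
  · unfold PPX_F
    fun_prop
  · unfold PPX_F
    rw [norm_mul, Complex.norm_real, Real.norm_of_nonneg (by positivity)]
    refine mul_le_mul (PPX_term χ n τ) ?_ (by positivity) (PPX_a_nonneg n)
    rw [← Real.exp_add]
    apply Real.exp_le_exp.mpr
    rw [PPX_square]
    nlinarith [sq_nonneg (w - (3 * Real.log n + L) / 4), sq_nonneg (Real.log n - L)]

private theorem PPX_P_eq {M : ℕ} (χ : DirichletCharacter ℂ M) (L τ : ℝ) : (Real.sqrt (3 * Real.pi / 2) : ℂ) * ASC.P χ L τ =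
    ∫ w : ℝ, VKC.gc χ (fun n => ArithmeticFunction.vonMangoldt n) w τ *
      (Real.exp (-(w - L) ^ 2 / 6) : ℝ) := by
  obtain ⟨C, hC, h⟩ := PPX_sum
  have hsum := integral_tsum_of_summable_integral_norm (μ := volume) (F := PPX_F χ L τ)
    (PPX_F_int χ L τ) (by
      simp only [PPX_F_norm]
      refine Summable.mul_left _ ?_
      exact Summable.of_nonneg_of_le (fun n => norm_nonneg _) (fun n => PPX_summand χ L n τ) (h L).1)
  simp only [PPX_F_tsum, PPX_F_integral] at hsum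
  rw [← hsum, tsum_mul_left]
  rfl

private theorem PPX_gs_bound {M : ℕ} (χ : DirichletCharacter ℂ M) : ∃ C : ℝ, 1 ≤ C ∧ ∀ w τ : ℝ,
    ‖VKC.gc χ (fun n => ArithmeticFunction.vonMangoldt n) w τ‖ ≤ C * (1 + |w|) ^ 6 := by
  obtain ⟨C, hC, h⟩ := PPX_sum
  refine ⟨C, hC, fun w τ => ?_⟩
  obtain ⟨h1, h2⟩ := h w
  refine le_trans ?_ h2
  unfold VKC.gc
  refine tsum_of_norm_bounded h1.hasSum fun n => ?_
  rw [norm_mul, Complex.norm_real, Real.norm_of_nonneg (Real.exp_pos _).le]
  have h3 := PPX_term χ n τ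
  unfold nc at h3
  rw [← mul_assoc] at h3
  exact mul_le_mul h3 (PPX_exp_mono (by norm_num) (by norm_num))
    (Real.exp_pos _).le (PPX_a_nonneg n)

/-- the integrable majorant -/
private noncomputable def PPX_G (u : ℝ) : ℝ := (1 + |u|) ^ 6 * Real.exp (-u ^ 2 / 12)

private theorem PPX_G_nonneg (u : ℝ) : 0 ≤ PPX_G u := by
  unfold PPX_G
  positivity

private theorem PPX_G_int : Integrable PPX_G := by
  have h1 := integrable_exp_neg_mul_sq (b := 1 / 24) (by norm_num)
  have hb : ∃ K : ℝ, ∀ u : ℝ, (1 + |u|) ^ 6 * Real.exp (-u ^ 2 / 24) ≤ K := by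
    refine ⟨Real.exp 216, fun u => ?_⟩
    have h2 : (1 + |u|) ≤ Real.exp |u| := by
      have := Real.add_one_le_exp |u|
      linarith
    have h3 : (1 + |u|) ^ 6 ≤ Real.exp (6 * |u|) := by
      calc (1 + |u|) ^ 6 ≤ (Real.exp |u|) ^ 6 := pow_le_pow_left₀ (by positivity) h2 6
        _ = Real.exp (6 * |u|) := by
          rw [← Real.exp_nat_mul]
          norm_num
    calc (1 + |u|) ^ 6 * Real.exp (-u ^ 2 / 24)
        ≤ Real.exp (6 * |u|) * Real.exp (-u ^ 2 / 24) :=
          mul_le_mul_of_nonneg_right h3 (Real.exp_pos _).le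
      _ = Real.exp (6 * |u| + -u ^ 2 / 24) := (Real.exp_add _ _).symm
      _ ≤ Real.exp 216 := by
          apply Real.exp_le_exp.mpr
          rw [← sq_abs u]
          nlinarith [sq_nonneg (|u| - 72)]
  obtain ⟨K, hK⟩ := hb
  refine Integrable.mono' (h1.const_mul K) ?_ (Filter.Eventually.of_forall fun u => ?_)
  · refine Continuous.aestronglyMeasurable ?_
    unfold PPX_G
    fun_prop
  · rw [Real.norm_of_nonneg (PPX_G_nonneg u)]
    have e : PPX_G u = ((1 + |u|) ^ 6 * Real.exp (-u ^ 2 / 24)) * Real.exp (-(1 / 24) * u ^ 2) := by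
      unfold PPX_G
      rw [mul_assoc, ← Real.exp_add]
      congr 2
      ring
    rw [e]
    exact mul_le_mul_of_nonneg_right (hK u) (Real.exp_pos _).le

private theorem PPX_shift (L w : ℝ) : (1 + |w|) ^ 6 ≤ (1 + |L|) ^ 6 * (1 + |w - L|) ^ 6 := by
  rw [← mul_pow]
  refine pow_le_pow_left₀ (by positivity) ?_ 6
  have h1 : |w| ≤ |L| + |w - L| := by
    calc |w| = |L + (w - L)| := by congr 1; ring
      _ ≤ _ := abs_add_le _ _
  nlinarith [mul_nonneg (abs_nonneg L) (abs_nonneg (w - L))]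

private theorem PPX_point_aux {M : ℕ} [NeZero M] {χ : DirichletCharacter ℂ M} (hχ : χ ≠ 1)
    {K A : ℝ} (hK : 0 ≤ K) (hA : 0 ≤ A) : ∃ L0 : ℝ, 1 ≤ L0 ∧ ∀ L τ : ℝ, L0 ≤ L →
    |τ| ≤ Real.exp (K * L) → ‖ASC.P χ L τ‖ ≤ L ^ (-A) := by
  obtain ⟨C, hC, hgs⟩ := PPX_gs_bound χ
  obtain ⟨w0, hw0, hpg⟩ := VKC.prime_gauss hχ (2 * K) (A + 1)
  set s0 := Real.sqrt (3 * Real.pi / 2) with hs0
  have hs0p : 0 < s0 := Real.sqrt_pos.mpr (by positivity)
  set s1 := Real.sqrt (2 * Real.pi) with hs1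
  have hs1p : 0 ≤ s1 := Real.sqrt_nonneg _
  set I1 := ∫ u : ℝ, PPX_G u with hI1
  have hI1p : 0 ≤ I1 := integral_nonneg PPX_G_nonneg
  -- the limits
  have hlim1 : Filter.Tendsto (fun L : ℝ => I1 * 2 ^ (A + 1) * L⁻¹) Filter.atTop (nhds 0) := by
    have := (tendsto_inv_atTop_zero (𝕜 := ℝ)).const_mul (I1 * 2 ^ (A + 1))
    rwa [mul_zero] at this
  have hlim2 : Filter.Tendsto (fun L : ℝ => (I1 * (C + s1) * 2 ^ (6 : ℕ)) *
      (L ^ (6 + A) * Real.exp (-(1 / 48) * L))) Filter.atTop (nhds 0) := by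
    have := (tendsto_rpow_mul_exp_neg_mul_atTop_nhds_zero (6 + A) (1 / 48)
      (by norm_num)).const_mul (I1 * (C + s1) * 2 ^ (6 : ℕ))
    rwa [mul_zero] at this
  obtain ⟨L1, hL1⟩ := Filter.eventually_atTop.1
    (hlim1.eventually_le_const (show (0 : ℝ) < s0 / 2 by positivity))
  obtain ⟨L2, hL2⟩ := Filter.eventually_atTop.1
    (hlim2.eventually_le_const (show (0 : ℝ) < s0 / 2 by positivity))
  refine ⟨max (max (2 * w0) 2) (max L1 L2), le_trans (by norm_num : (1 : ℝ) ≤ 2)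
    ((le_max_right _ _).trans (le_max_left _ _)), fun L τ hL hτ => ?_⟩
  have hLw : 2 * w0 ≤ L := ((le_max_left _ _).trans (le_max_left _ _)).trans hL
  have hL2' : 2 ≤ L := ((le_max_right _ _).trans (le_max_left _ _)).trans hL
  have hLL1 := hL1 L (((le_max_left _ _).trans (le_max_right _ _)).trans hL)
  have hLL2 := hL2 L (((le_max_right _ _).trans (le_max_right _ _)).trans hL)
  have hLp : 0 < L := by linarith
  -- pointwise bound
  set D : ℝ := (L / 2) ^ (-(A + 1)) + Real.exp (-L ^ 2 / 48) * ((C + s1) * (1 + L) ^ 6) with hD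
  have hDp : 0 ≤ D := by positivity
  have hpt : ∀ w : ℝ, ‖VKC.gc χ (fun n => ArithmeticFunction.vonMangoldt n) w τ *
      (Real.exp (-(w - L) ^ 2 / 6) : ℝ)‖ ≤ D * PPX_G (w - L) := by
    intro w
    rw [norm_mul, Complex.norm_real, Real.norm_of_nonneg (Real.exp_pos _).le]
    have hG1 : Real.exp (-(w - L) ^ 2 / 12) ≤ PPX_G (w - L) := by
      unfold PPX_G
      refine le_mul_of_one_le_left (Real.exp_pos _).le (one_le_pow₀ ?_)
      have := abs_nonneg (w - L)
      linarith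
    rcases le_total (L / 2) w with hw | hw
    · have hww : w0 ≤ w := by linarith
      have hτw : |τ| ≤ Real.exp (2 * K * w) := hτ.trans (Real.exp_le_exp.mpr (by nlinarith))
      have h1 := hpg w τ hww hτw
      have h2 : w ^ (-(A + 1)) ≤ (L / 2) ^ (-(A + 1)) :=
        Real.rpow_le_rpow_of_nonpos (by positivity) hw (by linarith)
      have h3 : ‖VKC.gc χ (fun n => ArithmeticFunction.vonMangoldt n) w τ‖ ≤ D := by
        refine (h1.trans h2).trans ?_
        rw [hD]
        have : 0 ≤ Real.exp (-L ^ 2 / 48) * ((C + s1) * (1 + L) ^ 6) := by positivity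
        linarith
      refine mul_le_mul h3 (le_trans (PPX_exp_mono (by norm_num) (by norm_num)) hG1)
        (Real.exp_pos _).le hDp
    · have h1 : ‖VKC.gc χ (fun n => ArithmeticFunction.vonMangoldt n) w τ‖ ≤
          (C + s1) * ((1 + L) ^ 6 * (1 + |w - L|) ^ 6) := by
        have h2 := hgs w τ
        have h4 := PPX_shift L w
        rw [abs_of_pos hLp] at h4
        have h8 : C * (1 + |w|) ^ 6 ≤ C * ((1 + L) ^ 6 * (1 + |w - L|) ^ 6) :=
          mul_le_mul_of_nonneg_left h4 (by linarith)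
        rw [add_mul]
        have h10 : 0 ≤ s1 * ((1 + L) ^ 6 * (1 + |w - L|) ^ 6) := by positivity
        exact (h2.trans h8).trans (by linarith)
      have h2 : Real.exp (-(w - L) ^ 2 / 6) ≤
          Real.exp (-L ^ 2 / 48) * Real.exp (-(w - L) ^ 2 / 12) := by
        rw [← Real.exp_add]
        apply Real.exp_le_exp.mpr
        nlinarith
      calc ‖VKC.gc χ (fun n => ArithmeticFunction.vonMangoldt n) w τ‖ *
            Real.exp (-(w - L) ^ 2 / 6)
          ≤ ((C + s1) * ((1 + L) ^ 6 * (1 + |w - L|) ^ 6)) *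
            (Real.exp (-L ^ 2 / 48) * Real.exp (-(w - L) ^ 2 / 12)) :=
            mul_le_mul h1 h2 (Real.exp_pos _).le (by positivity)
        _ = (Real.exp (-L ^ 2 / 48) * ((C + s1) * (1 + L) ^ 6)) * PPX_G (w - L) := by
            unfold PPX_G
            ring
        _ ≤ D * PPX_G (w - L) := by
            refine mul_le_mul_of_nonneg_right ?_ (PPX_G_nonneg _)
            rw [hD]
            have : 0 ≤ (L / 2) ^ (-(A + 1)) := by positivity
            linarith
  have hGint : Integrable (fun w : ℝ => D * PPX_G (w - L)) :=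
    (PPX_G_int.comp_sub_right L).const_mul D
  have hgsint : Integrable (fun w : ℝ =>
      VKC.gc χ (fun n => ArithmeticFunction.vonMangoldt n) w τ *
        (Real.exp (-(w - L) ^ 2 / 6) : ℝ)) := by
    refine Integrable.mono' ((PPX_G_int.comp_sub_right L).const_mul (C * (1 + |L|) ^ 6)) ?_
      (Filter.Eventually.of_forall fun w => ?_)
    · have := PPX_F_cont χ L τ
      simp only [PPX_F_tsum] at this
      exact this.aestronglyMeasurable
    · rw [norm_mul, Complex.norm_real, Real.norm_of_nonneg (Real.exp_pos _).le]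
      have h4 := PPX_shift L w
      calc ‖VKC.gc χ (fun n => ArithmeticFunction.vonMangoldt n) w τ‖ *
            Real.exp (-(w - L) ^ 2 / 6)
          ≤ (C * ((1 + |L|) ^ 6 * (1 + |w - L|) ^ 6)) * Real.exp (-(w - L) ^ 2 / 12) := by
            refine mul_le_mul ((hgs w τ).trans (mul_le_mul_of_nonneg_left h4 (by linarith)))
              (PPX_exp_mono (by norm_num) (by norm_num)) (Real.exp_pos _).le (by positivity)
        _ = C * (1 + |L|) ^ 6 * PPX_G (w - L) := by
            unfold PPX_G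
            ring
  have hdiff : (s0 : ℂ) * ASC.P χ L τ = ∫ w : ℝ,
      VKC.gc χ (fun n => ArithmeticFunction.vonMangoldt n) w τ *
        (Real.exp (-(w - L) ^ 2 / 6) : ℝ) := by
    rw [PPX_P_eq]
  have hbound : s0 * ‖ASC.P χ L τ‖ ≤ D * I1 := by
    have h1 := norm_integral_le_of_norm_le hGint (Filter.Eventually.of_forall hpt)
    rw [← hdiff, norm_mul, Complex.norm_real, Real.norm_of_nonneg hs0p.le, integral_const_mul,
      integral_sub_right_eq_self (μ := (volume : Measure ℝ)) PPX_G L] at h1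
    exact h1
  -- conclusion
  have hLA : 0 < L ^ (-A) := Real.rpow_pos_of_pos hLp _
  have e1 : (L / 2) ^ (-(A + 1)) = 2 ^ (A + 1) * L⁻¹ * L ^ (-A) := by
    rw [Real.div_rpow hLp.le (by norm_num), Real.rpow_neg (by norm_num : (0 : ℝ) ≤ 2),
      neg_add, Real.rpow_add hLp, Real.rpow_neg_one]
    field_simp
  have e2 : Real.exp (-L ^ 2 / 48) * ((C + s1) * (1 + L) ^ 6) ≤
      (C + s1) * 2 ^ (6 : ℕ) * (L ^ (6 + A) * Real.exp (-(1 / 48) * L)) * L ^ (-A) := by
    have h1 : Real.exp (-L ^ 2 / 48) ≤ Real.exp (-(1 / 48) * L) := by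
      apply Real.exp_le_exp.mpr
      nlinarith
    have h2 : (1 + L) ^ 6 ≤ 2 ^ (6 : ℕ) * L ^ 6 := by
      rw [← mul_pow]
      exact pow_le_pow_left₀ (by positivity) (by linarith) 6
    have h3 : L ^ (6 + A) * L ^ (-A) = L ^ 6 := by
      rw [← Real.rpow_add hLp]
      have : (6 : ℝ) + A + -A = (6 : ℕ) := by
        push_cast
        ring
      rw [this, Real.rpow_natCast]
    calc Real.exp (-L ^ 2 / 48) * ((C + s1) * (1 + L) ^ 6)
        ≤ Real.exp (-(1 / 48) * L) * ((C + s1) * (2 ^ (6 : ℕ) * L ^ 6)) :=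
          mul_le_mul h1 (mul_le_mul_of_nonneg_left h2 (by positivity)) (by positivity)
            (Real.exp_pos _).le
      _ = (C + s1) * 2 ^ (6 : ℕ) * (L ^ (6 + A) * Real.exp (-(1 / 48) * L)) * L ^ (-A) := by
          rw [← h3]
          ring
  have h7 : D * I1 ≤ s0 * L ^ (-A) := by
    calc D * I1 ≤ (2 ^ (A + 1) * L⁻¹ * L ^ (-A) +
          (C + s1) * 2 ^ (6 : ℕ) * (L ^ (6 + A) * Real.exp (-(1 / 48) * L)) * L ^ (-A)) * I1 := by
          refine mul_le_mul_of_nonneg_right ?_ hI1p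
          rw [hD, e1]
          linarith
      _ = (I1 * 2 ^ (A + 1) * L⁻¹ + (I1 * (C + s1) * 2 ^ (6 : ℕ)) *
          (L ^ (6 + A) * Real.exp (-(1 / 48) * L))) * L ^ (-A) := by ring
      _ ≤ (s0 / 2 + s0 / 2) * L ^ (-A) :=
          mul_le_mul_of_nonneg_right (add_le_add hLL1 hLL2) hLA.le
      _ = s0 * L ^ (-A) := by ring
  exact le_of_mul_le_mul_left (hbound.trans h7) hs0p

private theorem PPX1_np_norm (n : ℕ) (τ : ℝ) : ‖np n τ‖ = 1 / n := by
  unfold np
  rcases Nat.eq_zero_or_pos n with h | h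
  · subst h
    rw [Nat.cast_zero, Complex.zero_cpow]
    · simp
    · intro h0
      have := congrArg Complex.re h0
      simp at this
  · rw [Complex.norm_natCast_cpow_of_pos h]
    have : (-(1 + (τ : ℂ) * Complex.I)).re = -1 := by simp
    rw [this, Real.rpow_neg_one, one_div]

private theorem PPX1_term (n : ℕ) (τ : ℝ) :
    ‖(ArithmeticFunction.vonMangoldt n : ℂ) * np n τ‖ ≤ PPX_a n := by
  rw [norm_mul, PPX1_np_norm, Complex.norm_real, Real.norm_of_nonneg
    ArithmeticFunction.vonMangoldt_nonneg]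
  unfold PPX_a
  rcases Nat.eq_zero_or_pos n with h | h
  · subst h
    simp
  · have h1 : (1 : ℝ) ≤ n := by exact_mod_cast h
    have h2 : 0 ≤ Real.log n := Real.log_nonneg h1
    have h3 : ArithmeticFunction.vonMangoldt n ≤ Real.log n :=
      ArithmeticFunction.vonMangoldt_le_log
    have h4 : (1 : ℝ) ≤ n.divisors.card := by
      have : 0 < n.divisors.card := Finset.card_pos.mpr ⟨1, Nat.one_mem_divisors.mpr h.ne'⟩
      exact_mod_cast this
    have h5 : Real.log n ≤ (n.divisors.card : ℝ) ^ 2 * (1 + Real.log n) ^ 2 := by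
      have h6 : (1 : ℝ) ≤ (n.divisors.card : ℝ) ^ 2 := one_le_pow₀ h4
      nlinarith [sq_nonneg (Real.log n)]
    rw [mul_one_div]
    exact div_le_div_of_nonneg_right (h3.trans h5) (by positivity)

private theorem PPX1_np_cont (n : ℕ) : Continuous (fun τ : ℝ => np n τ) := by
  unfold np
  rw [continuous_iff_continuousAt]
  intro τ
  refine ContinuousAt.const_cpow ?_ (Or.inr (PPX_zero_cpow_ne τ))
  fun_prop

private theorem PPX1_summand (L : ℝ) (n : ℕ) (τ : ℝ) :
    ‖(ArithmeticFunction.vonMangoldt n : ℂ) * np n τ * (ps L (Real.log n) : ℝ)‖ ≤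
      PPX_a n * Real.exp (-(Real.log n - L) ^ 2 / 16) := by
  rw [norm_mul, Complex.norm_real, Real.norm_of_nonneg
    (show 0 ≤ ps L (Real.log n) from (Real.exp_pos _).le)]
  exact mul_le_mul (PPX1_term n τ) (PPX_exp_mono (by norm_num) (by norm_num))
    (Real.exp_pos _).le (PPX_a_nonneg n)

private noncomputable def PPX1_F (L τ : ℝ) (n : ℕ) (w : ℝ) : ℂ :=
  (ArithmeticFunction.vonMangoldt n : ℂ) * np n τ *
    ((Real.exp (-(Real.log n - w) ^ 2 / 2) * Real.exp (-(w - L) ^ 2 / 6) : ℝ) : ℂ)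

private theorem PPX1_F_int (L τ : ℝ) (n : ℕ) : Integrable (PPX1_F L τ n) := by
  unfold PPX1_F
  exact ((PPX_conv_int _ _).ofReal).const_mul _

private theorem PPX1_F_integral (L τ : ℝ) (n : ℕ) : ∫ w : ℝ, PPX1_F L τ n w =
    (Real.sqrt (3 * Real.pi / 2) : ℂ) *
      ((ArithmeticFunction.vonMangoldt n : ℂ) * np n τ * (ps L (Real.log n) : ℝ)) := by
  unfold PPX1_F
  rw [integral_const_mul, integral_complex_ofReal, PPX_conv]
  unfold ps
  push_cast
  ring

private theorem PPX1_F_norm (L τ : ℝ) (n : ℕ) : ∫ w : ℝ, ‖PPX1_F L τ n w‖ =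
    Real.sqrt (3 * Real.pi / 2) *
      ‖(ArithmeticFunction.vonMangoldt n : ℂ) * np n τ * (ps L (Real.log n) : ℝ)‖ := by
  have h1 : ∀ w, ‖PPX1_F L τ n w‖ = ‖(ArithmeticFunction.vonMangoldt n : ℂ) * np n τ‖ *
      (Real.exp (-(Real.log n - w) ^ 2 / 2) * Real.exp (-(w - L) ^ 2 / 6)) := fun w => by
    unfold PPX1_F
    rw [norm_mul, Complex.norm_real, Real.norm_of_nonneg (by positivity)]
  simp only [h1]
  rw [integral_const_mul, PPX_conv, norm_mul (_ * _), Complex.norm_real,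
    Real.norm_of_nonneg (show 0 ≤ ps L (Real.log n) from (Real.exp_pos _).le)]
  unfold ps
  ring

private theorem PPX1_F_tsum (L τ w : ℝ) : ∑' n : ℕ, PPX1_F L τ n w =
    VKZ.gs (fun n => ArithmeticFunction.vonMangoldt n) w τ *
      (Real.exp (-(w - L) ^ 2 / 6) : ℝ) := by
  unfold VKZ.gs
  rw [← tsum_mul_right]
  refine tsum_congr fun n => ?_
  unfold PPX1_F np
  push_cast
  ring

private theorem PPX1_F_cont (L τ : ℝ) : Continuous (fun w : ℝ => ∑' n : ℕ, PPX1_F L τ n w) := by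
  obtain ⟨C, hC, h⟩ := PPX_sum
  refine continuous_tsum (fun n => ?_) (h L).1 fun n w => ?_
  · unfold PPX1_F
    fun_prop
  · unfold PPX1_F
    rw [norm_mul, Complex.norm_real, Real.norm_of_nonneg (by positivity)]
    refine mul_le_mul (PPX1_term n τ) ?_ (by positivity) (PPX_a_nonneg n)
    rw [← Real.exp_add]
    apply Real.exp_le_exp.mpr
    rw [PPX_square]
    nlinarith [sq_nonneg (w - (3 * Real.log n + L) / 4), sq_nonneg (Real.log n - L)]

private theorem PPX1_P_eq (L τ : ℝ) : (Real.sqrt (3 * Real.pi / 2) : ℂ) * ASI.P L τ =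
    ∫ w : ℝ, VKZ.gs (fun n => ArithmeticFunction.vonMangoldt n) w τ *
      (Real.exp (-(w - L) ^ 2 / 6) : ℝ) := by
  obtain ⟨C, hC, h⟩ := PPX_sum
  have hsum := integral_tsum_of_summable_integral_norm (μ := volume) (F := PPX1_F L τ)
    (PPX1_F_int L τ) (by
      simp only [PPX1_F_norm]
      refine Summable.mul_left _ ?_
      exact Summable.of_nonneg_of_le (fun n => norm_nonneg _) (fun n => PPX1_summand L n τ) (h L).1)
  simp only [PPX1_F_tsum, PPX1_F_integral] at hsum
  rw [← hsum, tsum_mul_left]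
  rfl

/-- the main term of the Gaussian sum -/
private noncomputable def PPX1_M (τ w : ℝ) : ℂ :=
  Real.sqrt (2 * Real.pi) * Real.exp (-τ ^ 2 / 2) * Complex.exp (-(τ * w * Complex.I))

private theorem PPX1_gauss_int (L : ℝ) : Integrable (fun w : ℝ => Real.exp (-(w - L) ^ 2 / 6)) := by
  have h := (integrable_exp_neg_mul_sq (b := 1 / 6) (by norm_num)).comp_sub_right L
  refine h.congr (Filter.Eventually.of_forall fun v => ?_)
  simp only []
  congr 1
  ring

private theorem PPX1_M_norm (τ w : ℝ) : ‖PPX1_M τ w‖ ≤ Real.sqrt (2 * Real.pi) := by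
  unfold PPX1_M
  have h1 : ‖Complex.exp (-(τ * w * Complex.I))‖ = 1 := by
    rw [Complex.norm_exp]
    simp
  rw [norm_mul, h1, mul_one, norm_mul, Complex.norm_real, Complex.norm_real,
    Real.norm_of_nonneg (Real.sqrt_nonneg _), Real.norm_of_nonneg (Real.exp_pos _).le]
  have h2 : Real.exp (-τ ^ 2 / 2) ≤ 1 := by
    apply Real.exp_le_one_iff.mpr
    nlinarith [sq_nonneg τ]
  exact mul_le_of_le_one_right (Real.sqrt_nonneg _) h2

private theorem PPX1_M_cont (τ : ℝ) : Continuous (PPX1_M τ) := by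
  unfold PPX1_M
  fun_prop

private theorem PPX1_M_int (L τ : ℝ) :
    Integrable (fun w : ℝ => PPX1_M τ w * (Real.exp (-(w - L) ^ 2 / 6) : ℝ)) := by
  refine Integrable.mono' ((PPX1_gauss_int L).const_mul (Real.sqrt (2 * Real.pi))) ?_
    (Filter.Eventually.of_forall fun w => ?_)
  · refine Continuous.aestronglyMeasurable ?_
    exact (PPX1_M_cont τ).mul (by fun_prop)
  · rw [norm_mul, Complex.norm_real, Real.norm_of_nonneg (Real.exp_pos _).le]
    exact mul_le_mul_of_nonneg_right (PPX1_M_norm τ w) (Real.exp_pos _).le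

private theorem PPX1_main_eq (L τ : ℝ) : (Real.sqrt (3 * Real.pi / 2) : ℂ) * mainT L τ =
    ∫ w : ℝ, PPX1_M τ w * (Real.exp (-(w - L) ^ 2 / 6) : ℝ) := by
  have h0 : ∀ w : ℝ, PPX1_M τ w * (Real.exp (-(w - L) ^ 2 / 6) : ℝ) =
      (Real.sqrt (2 * Real.pi) * Real.exp (-τ ^ 2 / 2) * Complex.exp (-(τ * L * Complex.I))) *
        (fun u : ℝ => Complex.exp (Complex.I * ((-τ : ℝ) : ℂ) * u) *
          Complex.exp (-((1 / 6 : ℝ) : ℂ) * u ^ 2)) (w - L) := by
    intro w
    unfold PPX1_M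
    simp only []
    have e1 : Complex.exp (-(τ * w * Complex.I)) = Complex.exp (-(τ * L * Complex.I)) *
        Complex.exp (Complex.I * ((-τ : ℝ) : ℂ) * ((w - L : ℝ) : ℂ)) := by
      rw [← Complex.exp_add]
      congr 1
      push_cast
      ring
    have e2 : ((Real.exp (-(w - L) ^ 2 / 6) : ℝ) : ℂ) =
        Complex.exp (-((1 / 6 : ℝ) : ℂ) * ((w - L : ℝ) : ℂ) ^ 2) := by
      rw [Complex.ofReal_exp]
      congr 1
      push_cast
      ring
    rw [e1, e2]
    ring
  simp only [h0]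
  rw [integral_const_mul, integral_sub_right_eq_self (μ := (volume : Measure ℝ))
    (fun u : ℝ => Complex.exp (Complex.I * ((-τ : ℝ) : ℂ) * u) *
          Complex.exp (-((1 / 6 : ℝ) : ℂ) * u ^ 2)) L,
    fourierIntegral_gaussian (by norm_num : 0 < (((1 / 6 : ℝ) : ℂ)).re)]
  have e3 : ((Real.pi : ℂ) / ((1 / 6 : ℝ) : ℂ)) ^ (1 / 2 : ℂ) = (Real.sqrt (6 * Real.pi) : ℂ) := by
    have : ((Real.pi : ℂ) / ((1 / 6 : ℝ) : ℂ)) = ((6 * Real.pi : ℝ) : ℂ) := by
      push_cast
      ring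
    rw [this, Real.sqrt_eq_rpow, Complex.ofReal_cpow (by positivity)]
    norm_num
  have e4 : Complex.exp (-((-τ : ℝ) : ℂ) ^ 2 / (4 * ((1 / 6 : ℝ) : ℂ))) =
      ((Real.exp (-(3 / 2) * τ ^ 2) : ℝ) : ℂ) := by
    rw [Complex.ofReal_exp]
    congr 1
    push_cast
    ring
  rw [e3, e4]
  unfold mainT
  have e5 : Real.sqrt (3 * Real.pi / 2) * Real.sqrt (8 * Real.pi) =
      Real.sqrt (2 * Real.pi) * Real.sqrt (6 * Real.pi) := by
    rw [← Real.sqrt_mul (by positivity), ← Real.sqrt_mul (by positivity)]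
    congr 1
    ring
  have e6 : Real.exp (-2 * τ ^ 2) = Real.exp (-τ ^ 2 / 2) * Real.exp (-(3 / 2) * τ ^ 2) := by
    rw [← Real.exp_add]
    congr 1
    ring
  have e5' : (Real.sqrt (3 * Real.pi / 2) : ℂ) * (Real.sqrt (8 * Real.pi) : ℂ) =
      (Real.sqrt (2 * Real.pi) : ℂ) * (Real.sqrt (6 * Real.pi) : ℂ) := by
    exact_mod_cast e5
  rw [e6]
  push_cast
  linear_combination (Complex.exp (-(τ : ℂ) ^ 2 / 2) * Complex.exp (-(3 / 2) * (τ : ℂ) ^ 2) *
    Complex.exp (-((τ : ℂ) * L * Complex.I))) * e5'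

private theorem PPX1_gs_bound : ∃ C : ℝ, 1 ≤ C ∧ ∀ w τ : ℝ,
    ‖VKZ.gs (fun n => ArithmeticFunction.vonMangoldt n) w τ‖ ≤ C * (1 + |w|) ^ 6 := by
  obtain ⟨C, hC, h⟩ := PPX_sum
  refine ⟨C, hC, fun w τ => ?_⟩
  obtain ⟨h1, h2⟩ := h w
  refine le_trans ?_ h2
  unfold VKZ.gs
  refine tsum_of_norm_bounded h1.hasSum fun n => ?_
  rw [norm_mul, Complex.norm_real, Real.norm_of_nonneg (Real.exp_pos _).le]
  exact mul_le_mul (PPX1_term n τ) (PPX_exp_mono (by norm_num) (by norm_num))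
    (Real.exp_pos _).le (PPX_a_nonneg n)

private theorem PPX1_point_aux {K A : ℝ} (hK : 0 ≤ K) (hA : 0 ≤ A) : ∃ L0 : ℝ, 1 ≤ L0 ∧
    ∀ L τ : ℝ, L0 ≤ L → |τ| ≤ Real.exp (K * L) → ‖ASI.P L τ - mainT L τ‖ ≤ L ^ (-A) := by
  obtain ⟨C, hC, hgs⟩ := PPX1_gs_bound
  obtain ⟨w0, hw0, hpg⟩ := VKZ.prime_gauss (2 * K) (A + 1)
  set s0 := Real.sqrt (3 * Real.pi / 2) with hs0
  have hs0p : 0 < s0 := Real.sqrt_pos.mpr (by positivity)
  set s1 := Real.sqrt (2 * Real.pi) with hs1
  have hs1p : 0 ≤ s1 := Real.sqrt_nonneg _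
  set I1 := ∫ u : ℝ, PPX_G u with hI1
  have hI1p : 0 ≤ I1 := integral_nonneg PPX_G_nonneg
  -- the limits
  have hlim1 : Filter.Tendsto (fun L : ℝ => I1 * 2 ^ (A + 1) * L⁻¹) Filter.atTop (nhds 0) := by
    have := (tendsto_inv_atTop_zero (𝕜 := ℝ)).const_mul (I1 * 2 ^ (A + 1))
    rwa [mul_zero] at this
  have hlim2 : Filter.Tendsto (fun L : ℝ => (I1 * (C + s1) * 2 ^ (6 : ℕ)) *
      (L ^ (6 + A) * Real.exp (-(1 / 48) * L))) Filter.atTop (nhds 0) := by
    have := (tendsto_rpow_mul_exp_neg_mul_atTop_nhds_zero (6 + A) (1 / 48)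
      (by norm_num)).const_mul (I1 * (C + s1) * 2 ^ (6 : ℕ))
    rwa [mul_zero] at this
  obtain ⟨L1, hL1⟩ := Filter.eventually_atTop.1
    (hlim1.eventually_le_const (show (0 : ℝ) < s0 / 2 by positivity))
  obtain ⟨L2, hL2⟩ := Filter.eventually_atTop.1
    (hlim2.eventually_le_const (show (0 : ℝ) < s0 / 2 by positivity))
  refine ⟨max (max (2 * w0) 2) (max L1 L2), le_trans (by norm_num : (1 : ℝ) ≤ 2)
    ((le_max_right _ _).trans (le_max_left _ _)), fun L τ hL hτ => ?_⟩
  have hLw : 2 * w0 ≤ L := ((le_max_left _ _).trans (le_max_left _ _)).trans hL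
  have hL2' : 2 ≤ L := ((le_max_right _ _).trans (le_max_left _ _)).trans hL
  have hLL1 := hL1 L (((le_max_left _ _).trans (le_max_right _ _)).trans hL)
  have hLL2 := hL2 L (((le_max_right _ _).trans (le_max_right _ _)).trans hL)
  have hLp : 0 < L := by linarith
  -- pointwise bound
  set D : ℝ := (L / 2) ^ (-(A + 1)) + Real.exp (-L ^ 2 / 48) * ((C + s1) * (1 + L) ^ 6) with hD
  have hDp : 0 ≤ D := by positivity
  have hpt : ∀ w : ℝ, ‖(VKZ.gs (fun n => ArithmeticFunction.vonMangoldt n) w τ - PPX1_M τ w) *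
      (Real.exp (-(w - L) ^ 2 / 6) : ℝ)‖ ≤ D * PPX_G (w - L) := by
    intro w
    rw [norm_mul, Complex.norm_real, Real.norm_of_nonneg (Real.exp_pos _).le]
    have hG1 : Real.exp (-(w - L) ^ 2 / 12) ≤ PPX_G (w - L) := by
      unfold PPX_G
      refine le_mul_of_one_le_left (Real.exp_pos _).le (one_le_pow₀ ?_)
      have := abs_nonneg (w - L)
      linarith
    rcases le_total (L / 2) w with hw | hw
    · have hww : w0 ≤ w := by linarith
      have hτw : |τ| ≤ Real.exp (2 * K * w) := hτ.trans (Real.exp_le_exp.mpr (by nlinarith))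
      have h1 := hpg w τ hww hτw
      have h2 : w ^ (-(A + 1)) ≤ (L / 2) ^ (-(A + 1)) :=
        Real.rpow_le_rpow_of_nonpos (by positivity) hw (by linarith)
      have h3 : ‖VKZ.gs (fun n => ArithmeticFunction.vonMangoldt n) w τ - PPX1_M τ w‖ ≤ D := by
        refine (h1.trans h2).trans ?_
        rw [hD]
        have : 0 ≤ Real.exp (-L ^ 2 / 48) * ((C + s1) * (1 + L) ^ 6) := by positivity
        linarith
      refine mul_le_mul h3 (le_trans (PPX_exp_mono (by norm_num) (by norm_num)) hG1)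
        (Real.exp_pos _).le hDp
    · have h1 : ‖VKZ.gs (fun n => ArithmeticFunction.vonMangoldt n) w τ - PPX1_M τ w‖ ≤
          (C + s1) * ((1 + L) ^ 6 * (1 + |w - L|) ^ 6) := by
        refine (norm_sub_le _ _).trans ?_
        have h2 := hgs w τ
        have h3 := PPX1_M_norm τ w
        have h4 := PPX_shift L w
        rw [abs_of_pos hLp] at h4
        have h5 : (1 : ℝ) ≤ (1 + L) ^ 6 * (1 + |w - L|) ^ 6 := by
          have h6 : (1 : ℝ) ≤ (1 + L) ^ 6 := one_le_pow₀ (by linarith)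
          have h7 : (1 : ℝ) ≤ (1 + |w - L|) ^ 6 :=
            one_le_pow₀ (by have := abs_nonneg (w - L); linarith)
          nlinarith
        have h8 : C * (1 + |w|) ^ 6 ≤ C * ((1 + L) ^ 6 * (1 + |w - L|) ^ 6) :=
          mul_le_mul_of_nonneg_left h4 (by linarith)
        have h9 : s1 ≤ s1 * ((1 + L) ^ 6 * (1 + |w - L|) ^ 6) :=
          le_mul_of_one_le_right hs1p h5
        rw [add_mul]
        exact add_le_add (h2.trans h8) (h3.trans h9)
      have h2 : Real.exp (-(w - L) ^ 2 / 6) ≤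
          Real.exp (-L ^ 2 / 48) * Real.exp (-(w - L) ^ 2 / 12) := by
        rw [← Real.exp_add]
        apply Real.exp_le_exp.mpr
        nlinarith
      calc ‖VKZ.gs (fun n => ArithmeticFunction.vonMangoldt n) w τ - PPX1_M τ w‖ *
            Real.exp (-(w - L) ^ 2 / 6)
          ≤ ((C + s1) * ((1 + L) ^ 6 * (1 + |w - L|) ^ 6)) *
            (Real.exp (-L ^ 2 / 48) * Real.exp (-(w - L) ^ 2 / 12)) :=
            mul_le_mul h1 h2 (Real.exp_pos _).le (by positivity)
        _ = (Real.exp (-L ^ 2 / 48) * ((C + s1) * (1 + L) ^ 6)) * PPX_G (w - L) := by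
            unfold PPX_G
            ring
        _ ≤ D * PPX_G (w - L) := by
            refine mul_le_mul_of_nonneg_right ?_ (PPX_G_nonneg _)
            rw [hD]
            have : 0 ≤ (L / 2) ^ (-(A + 1)) := by positivity
            linarith
  have hGint : Integrable (fun w : ℝ => D * PPX_G (w - L)) :=
    (PPX_G_int.comp_sub_right L).const_mul D
  have hgsint : Integrable (fun w : ℝ =>
      VKZ.gs (fun n => ArithmeticFunction.vonMangoldt n) w τ *
        (Real.exp (-(w - L) ^ 2 / 6) : ℝ)) := by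
    refine Integrable.mono' ((PPX_G_int.comp_sub_right L).const_mul (C * (1 + |L|) ^ 6)) ?_
      (Filter.Eventually.of_forall fun w => ?_)
    · have := PPX1_F_cont L τ
      simp only [PPX1_F_tsum] at this
      exact this.aestronglyMeasurable
    · rw [norm_mul, Complex.norm_real, Real.norm_of_nonneg (Real.exp_pos _).le]
      have h4 := PPX_shift L w
      calc ‖VKZ.gs (fun n => ArithmeticFunction.vonMangoldt n) w τ‖ *
            Real.exp (-(w - L) ^ 2 / 6)
          ≤ (C * ((1 + |L|) ^ 6 * (1 + |w - L|) ^ 6)) * Real.exp (-(w - L) ^ 2 / 12) := by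
            refine mul_le_mul ((hgs w τ).trans (mul_le_mul_of_nonneg_left h4 (by linarith)))
              (PPX_exp_mono (by norm_num) (by norm_num)) (Real.exp_pos _).le (by positivity)
        _ = C * (1 + |L|) ^ 6 * PPX_G (w - L) := by
            unfold PPX_G
            ring
  have hdiff : (s0 : ℂ) * (ASI.P L τ - mainT L τ) = ∫ w : ℝ,
      (VKZ.gs (fun n => ArithmeticFunction.vonMangoldt n) w τ - PPX1_M τ w) *
        (Real.exp (-(w - L) ^ 2 / 6) : ℝ) := by
    rw [mul_sub, PPX1_P_eq, PPX1_main_eq, ← integral_sub hgsint (PPX1_M_int L τ)]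
    refine integral_congr_ae (Filter.Eventually.of_forall fun w => ?_)
    simp only []
    ring
  have hbound : s0 * ‖ASI.P L τ - mainT L τ‖ ≤ D * I1 := by
    have h1 := norm_integral_le_of_norm_le hGint (Filter.Eventually.of_forall hpt)
    rw [← hdiff, norm_mul, Complex.norm_real, Real.norm_of_nonneg hs0p.le, integral_const_mul,
      integral_sub_right_eq_self (μ := (volume : Measure ℝ)) PPX_G L] at h1
    exact h1
  -- conclusion
  have hLA : 0 < L ^ (-A) := Real.rpow_pos_of_pos hLp _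
  have e1 : (L / 2) ^ (-(A + 1)) = 2 ^ (A + 1) * L⁻¹ * L ^ (-A) := by
    rw [Real.div_rpow hLp.le (by norm_num), Real.rpow_neg (by norm_num : (0 : ℝ) ≤ 2),
      neg_add, Real.rpow_add hLp, Real.rpow_neg_one]
    field_simp
  have e2 : Real.exp (-L ^ 2 / 48) * ((C + s1) * (1 + L) ^ 6) ≤
      (C + s1) * 2 ^ (6 : ℕ) * (L ^ (6 + A) * Real.exp (-(1 / 48) * L)) * L ^ (-A) := by
    have h1 : Real.exp (-L ^ 2 / 48) ≤ Real.exp (-(1 / 48) * L) := by
      apply Real.exp_le_exp.mpr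
      nlinarith
    have h2 : (1 + L) ^ 6 ≤ 2 ^ (6 : ℕ) * L ^ 6 := by
      rw [← mul_pow]
      exact pow_le_pow_left₀ (by positivity) (by linarith) 6
    have h3 : L ^ (6 + A) * L ^ (-A) = L ^ 6 := by
      rw [← Real.rpow_add hLp]
      have : (6 : ℝ) + A + -A = (6 : ℕ) := by
        push_cast
        ring
      rw [this, Real.rpow_natCast]
    calc Real.exp (-L ^ 2 / 48) * ((C + s1) * (1 + L) ^ 6)
        ≤ Real.exp (-(1 / 48) * L) * ((C + s1) * (2 ^ (6 : ℕ) * L ^ 6)) :=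
          mul_le_mul h1 (mul_le_mul_of_nonneg_left h2 (by positivity)) (by positivity)
            (Real.exp_pos _).le
      _ = (C + s1) * 2 ^ (6 : ℕ) * (L ^ (6 + A) * Real.exp (-(1 / 48) * L)) * L ^ (-A) := by
          rw [← h3]
          ring
  have h7 : D * I1 ≤ s0 * L ^ (-A) := by
    calc D * I1 ≤ (2 ^ (A + 1) * L⁻¹ * L ^ (-A) +
          (C + s1) * 2 ^ (6 : ℕ) * (L ^ (6 + A) * Real.exp (-(1 / 48) * L)) * L ^ (-A)) * I1 := by
          refine mul_le_mul_of_nonneg_right ?_ hI1p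
          rw [hD, e1]
          linarith
      _ = (I1 * 2 ^ (A + 1) * L⁻¹ + (I1 * (C + s1) * 2 ^ (6 : ℕ)) *
          (L ^ (6 + A) * Real.exp (-(1 / 48) * L))) * L ^ (-A) := by ring
      _ ≤ (s0 / 2 + s0 / 2) * L ^ (-A) :=
          mul_le_mul_of_nonneg_right (add_le_add hLL1 hLL2) hLA.le
      _ = s0 * L ^ (-A) := by ring
  exact le_of_mul_le_mul_left (hbound.trans h7) hs0p

/-- the terms of `ASC.P χ` -/
private theorem PPX2_chi_term {M : ℕ} (χ : DirichletCharacter ℂ M) (L : ℝ) (n : ℕ) (τ : ℝ) :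
    (vonMangoldt n : ℂ) * nc χ n τ * (ps L (Real.log n) : ℝ) =
      χ n * ((vonMangoldt n : ℂ) * np n τ * (ps L (Real.log n) : ℝ)) := by
  unfold nc np
  ring

private theorem PPX2_chi_norm {M : ℕ} (χ : DirichletCharacter ℂ M) (L : ℝ) (n : ℕ) (τ : ℝ) :
    ‖(vonMangoldt n : ℂ) * nc χ n τ * (ps L (Real.log n) : ℝ)‖ ≤
      PPX_a n * Real.exp (-(Real.log n - L) ^ 2 / 16) := by
  rw [PPX2_chi_term, norm_mul]
  exact (mul_le_of_le_one_left (norm_nonneg _) (DirichletCharacter.norm_le_one χ _)).trans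
    (PPX1_summand L n τ)

private theorem PPX2_chi_summable {M : ℕ} (χ : DirichletCharacter ℂ M) (L τ : ℝ) :
    Summable (fun n : ℕ => (vonMangoldt n : ℂ) * nc χ n τ * (ps L (Real.log n) : ℝ)) := by
  obtain ⟨C, hC, h⟩ := PPX_sum
  exact Summable.of_norm_bounded (h L).1 fun n => PPX2_chi_norm χ L n τ

private theorem PPX2_P_summable (L τ : ℝ) :
    Summable (fun n : ℕ => (vonMangoldt n : ℂ) * np n τ * (ps L (Real.log n) : ℝ)) := by
  obtain ⟨C, hC, h⟩ := PPX_sum
  exact Summable.of_norm_bounded (h L).1 fun n => PPX1_summand L n τ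

/-- the powers of one prime -/
private theorem PPX2_pow_summable {p : ℕ} (hp : p.Prime) (c : ℝ) :
    Summable (Set.indicator (Set.range (fun j : ℕ => p ^ j))
      (fun n : ℕ => c * Real.exp (-(Real.log n) / 4))) := by
  have hinj : Function.Injective (fun j : ℕ => p ^ j) := Nat.pow_right_injective hp.two_le
  rw [← hinj.summable_iff]
  · have h1 : ((Set.indicator (Set.range (fun j : ℕ => p ^ j))
      (fun n : ℕ => c * Real.exp (-(Real.log n) / 4))) ∘ fun j : ℕ => p ^ j) =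
        fun j : ℕ => c * (Real.exp (-(Real.log p) / 4)) ^ j := by
      funext j
      simp only [Function.comp]
      rw [Set.indicator_of_mem (Set.mem_range_self j), ← Real.exp_nat_mul, Nat.cast_pow, Real.log_pow]
      congr 2
      ring
    rw [h1]
    refine Summable.mul_left _ (summable_geometric_of_lt_one (Real.exp_pos _).le ?_)
    rw [Real.exp_lt_one_iff]
    have : 0 < Real.log p := Real.log_pos (by exact_mod_cast hp.one_lt)
    linarith
  · intro n hn
    exact Set.indicator_of_notMem hn _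

private noncomputable def PPX2_f (M n : ℕ) : ℝ :=
  if n.Coprime M then 0 else vonMangoldt n * Real.exp (-(Real.log n) / 4)

private theorem PPX2_f_nonneg (M n : ℕ) : 0 ≤ PPX2_f M n := by
  unfold PPX2_f
  split_ifs
  · exact le_rfl
  · exact mul_nonneg vonMangoldt_nonneg (Real.exp_pos _).le

private theorem PPX2_f_summable {M : ℕ} (hM : 0 < M) : Summable (PPX2_f M) := by
  have hs := summable_sum (s := M.primeFactors) (f := fun p : ℕ =>
    Set.indicator (Set.range (fun j : ℕ => p ^ j))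
      (fun n : ℕ => Real.log p * Real.exp (-(Real.log n) / 4)))
    (fun p hp => PPX2_pow_summable (Nat.prime_of_mem_primeFactors hp) _)
  have h0 : ∀ p : ℕ, ∀ n : ℕ, 0 ≤ Set.indicator (Set.range (fun j : ℕ => p ^ j))
      (fun n : ℕ => Real.log p * Real.exp (-(Real.log n) / 4)) n := fun p n =>
    Set.indicator_nonneg (fun n _ => mul_nonneg (Real.log_natCast_nonneg p) (Real.exp_pos _).le) n
  refine Summable.of_nonneg_of_le (PPX2_f_nonneg M) (fun n => ?_) hs
  unfold PPX2_f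
  split_ifs with hc
  · exact Finset.sum_nonneg fun p _ => h0 p n
  · by_cases hΛ : vonMangoldt n = 0
    · rw [hΛ, zero_mul]
      exact Finset.sum_nonneg fun p _ => h0 p n
    · rw [← ne_eq, vonMangoldt_ne_zero_iff, isPrimePow_nat_iff] at hΛ
      obtain ⟨p, k, hp, hk, rfl⟩ := hΛ
      have hpM : p ∣ M := by
        by_contra h
        exact hc (Nat.Coprime.pow_left k ((Nat.Prime.coprime_iff_not_dvd hp).2 h))
      have hmem : p ∈ M.primeFactors := Nat.mem_primeFactors.2 ⟨hp, hpM, hM.ne'⟩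
      refine le_trans (le_of_eq ?_) (Finset.single_le_sum (f := fun q : ℕ =>
        Set.indicator (Set.range (fun j : ℕ => q ^ j))
        (fun n : ℕ => Real.log q * Real.exp (-(Real.log n) / 4)) (p ^ k))
        (fun q _ => h0 q (p ^ k)) hmem)
      rw [Set.indicator_of_mem (Set.mem_range_self k), vonMangoldt_apply_pow hk.ne', vonMangoldt_apply_prime hp]

/-- the terms which are not coprime to the modulus -/
private theorem PPX2_R {M : ℕ} (hM : 0 < M) : ∃ C : ℝ, 0 ≤ C ∧ ∀ L τ : ℝ, 0 ≤ L →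
    ‖ASI.P L τ - ASC.P (1 : DirichletCharacter ℂ M) L τ‖ ≤ C * Real.exp (-(L / 2)) := by
  have hs := PPX2_f_summable hM
  refine ⟨Real.exp (9 / 8) * ∑' n, PPX2_f M n,
    mul_nonneg (Real.exp_pos _).le (tsum_nonneg (PPX2_f_nonneg M)), fun L τ hL => ?_⟩
  unfold ASI.P ASC.P
  rw [← Summable.tsum_sub (PPX2_P_summable L τ) (PPX2_chi_summable _ L τ)]
  have hS : HasSum (fun n => (Real.exp (9 / 8) * Real.exp (-(L / 2))) * PPX2_f M n)
      ((Real.exp (9 / 8) * Real.exp (-(L / 2))) * ∑' n, PPX2_f M n) := hs.hasSum.mul_left _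
  have h1 := tsum_of_norm_bounded (f := fun n : ℕ =>
    (vonMangoldt n : ℂ) * np n τ * (ps L (Real.log n) : ℝ) -
      (vonMangoldt n : ℂ) * nc (1 : DirichletCharacter ℂ M) n τ * (ps L (Real.log n) : ℝ)) hS
    (fun n => ?_)
  · refine h1.trans (le_of_eq ?_)
    ring
  · rw [PPX2_chi_term]
    unfold PPX2_f
    split_ifs with hc
    · rw [MulChar.one_apply ((ZMod.isUnit_iff_coprime n M).2 hc)]
      simp
    · rw [MulChar.map_nonunit _ (fun h => hc ((ZMod.isUnit_iff_coprime n M).1 h)), zero_mul,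
        sub_zero]
      rcases Nat.eq_zero_or_pos n with h | h
      · subst h
        simp
      · have hx : (0 : ℝ) < n := by exact_mod_cast h
        rw [norm_mul, norm_mul, PPX1_np_norm, Complex.norm_real, Complex.norm_real,
          Real.norm_of_nonneg vonMangoldt_nonneg,
          Real.norm_of_nonneg (show 0 ≤ ps L (Real.log n) from (Real.exp_pos _).le)]
        have e1 : (1 : ℝ) / n = Real.exp (-Real.log n) := by
          rw [Real.exp_neg, Real.exp_log hx, one_div]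
        rw [e1]
        unfold ps
        have e2 : vonMangoldt n * Real.exp (-Real.log n) * Real.exp (-(Real.log n - L) ^ 2 / 8) =
            vonMangoldt n * Real.exp (-Real.log n + -(Real.log n - L) ^ 2 / 8) := by
          rw [Real.exp_add]
          ring
        have e3 : Real.exp (9 / 8) * Real.exp (-(L / 2)) *
            (vonMangoldt n * Real.exp (-Real.log n / 4)) =
            vonMangoldt n * Real.exp (9 / 8 + -(L / 2) + -Real.log n / 4) := by
          rw [Real.exp_add, Real.exp_add]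
          ring
        rw [e2, e3]
        refine mul_le_mul_of_nonneg_left (Real.exp_le_exp.2 ?_) vonMangoldt_nonneg
        nlinarith [sq_nonneg (Real.log n - L + 3)]

theorem PX_point (M : ℕ) [NeZero M] (K A : ℝ) : ∃ L0 : ℝ, 1 ≤ L0 ∧
    ∀ (χ : DirichletCharacter ℂ M) (L τ : ℝ), L0 ≤ L → |τ| ≤ Real.exp (K * L) →
    ‖DX χ L τ‖ ≤ L ^ (-A) := by
  classical
  have hM : 0 < M := Nat.pos_of_ne_zero (NeZero.ne M)
  have hK0 : 0 ≤ max K 0 := le_max_right _ _
  have hA0 : 0 ≤ max A 0 := le_max_right _ _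
  have key : ∀ χ : DirichletCharacter ℂ M, ∀ᶠ L : ℝ in Filter.atTop, ∀ τ : ℝ,
      |τ| ≤ Real.exp (K * L) → ‖DX χ L τ‖ ≤ L ^ (-A) := by
    intro χ
    by_cases hχ : χ = 1
    · subst hχ
      obtain ⟨C, hC, hR⟩ := PPX2_R hM
      obtain ⟨L1, hL1, H1⟩ := PPX1_point_aux (K := max K 0) (A := max A 0 + 1) hK0 (by linarith)
      have hlim : Filter.Tendsto (fun L : ℝ => C * (L ^ (max A 0) * Real.exp (-(1 / 2) * L)))
          Filter.atTop (nhds 0) := by
        have := (tendsto_rpow_mul_exp_neg_mul_atTop_nhds_zero (max A 0) (1 / 2)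
          (by norm_num)).const_mul C
        rwa [mul_zero] at this
      filter_upwards [Filter.eventually_ge_atTop L1, Filter.eventually_ge_atTop 2,
        hlim.eventually_le_const (show (0 : ℝ) < 1 / 2 by norm_num)] with L h1 h2 h3 τ hτ
      have hLp : 0 < L := by linarith
      have hτ' : |τ| ≤ Real.exp (max K 0 * L) :=
        hτ.trans (Real.exp_le_exp.mpr (mul_le_mul_of_nonneg_right (le_max_left _ _) hLp.le))
      have g1 := H1 L τ h1 hτ'
      have g2 := hR L τ hLp.le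
      unfold DX
      rw [if_pos rfl]
      have e0 : ASC.P (1 : DirichletCharacter ℂ M) L τ - mainT L τ =
          (ASI.P L τ - mainT L τ) - (ASI.P L τ - ASC.P (1 : DirichletCharacter ℂ M) L τ) := by
        ring
      have hLA : 0 < L ^ (-(max A 0)) := Real.rpow_pos_of_pos hLp _
      have e1 : L ^ (-(max A 0 + 1)) = L ^ (-(max A 0)) * L⁻¹ := by
        rw [neg_add, Real.rpow_add hLp, Real.rpow_neg_one]
      have e2 : L⁻¹ ≤ 1 / 2 := by
        rw [inv_eq_one_div]
        exact one_div_le_one_div_of_le (by norm_num) h2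
      have e3 : L ^ (-(max A 0)) * L⁻¹ ≤ L ^ (-(max A 0)) * (1 / 2) :=
        mul_le_mul_of_nonneg_left e2 hLA.le
      have e4 : C * Real.exp (-(L / 2)) ≤ L ^ (-(max A 0)) * (1 / 2) := by
        have c1 : L ^ (-(max A 0)) * (C * (L ^ (max A 0) * Real.exp (-(1 / 2) * L))) ≤
            L ^ (-(max A 0)) * (1 / 2) := mul_le_mul_of_nonneg_left h3 hLA.le
        have c2 : L ^ (-(max A 0)) * L ^ (max A 0) = 1 := by
          rw [← Real.rpow_add hLp]
          simp
        have c3 : L ^ (-(max A 0)) * (C * (L ^ (max A 0) * Real.exp (-(1 / 2) * L))) =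
            C * Real.exp (-(1 / 2) * L) * (L ^ (-(max A 0)) * L ^ (max A 0)) := by ring
        rw [c3, c2, mul_one] at c1
        have c4 : -(1 / 2) * L = -(L / 2) := by ring
        rw [c4] at c1
        exact c1
      have e5 : L ^ (-(max A 0)) ≤ L ^ (-A) := by
        refine Real.rpow_le_rpow_of_exponent_le (by linarith) ?_
        have := le_max_left A 0
        linarith
      rw [e0]
      refine (norm_sub_le _ _).trans ?_
      rw [e1] at g1
      linarith
    · obtain ⟨L1, hL1, H1⟩ := PPX_point_aux hχ hK0 hA0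
      filter_upwards [Filter.eventually_ge_atTop L1] with L h1 τ hτ
      have hL : 1 ≤ L := hL1.trans h1
      have hτ' : |τ| ≤ Real.exp (max K 0 * L) :=
        hτ.trans (Real.exp_le_exp.mpr (mul_le_mul_of_nonneg_right (le_max_left _ _)
          (by linarith)))
      unfold DX
      rw [if_neg hχ, sub_zero]
      refine (H1 L τ h1 hτ').trans ?_
      refine Real.rpow_le_rpow_of_exponent_le hL ?_
      have := le_max_left A 0
      linarith
  have hfin : Finite (DirichletCharacter ℂ M) := inferInstance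
  have hall := Filter.eventually_all.mpr key
  obtain ⟨L0, hL0⟩ := Filter.eventually_atTop.1 hall
  exact ⟨max L0 1, le_max_right _ _, fun χ L τ hL hτ => hL0 L ((le_max_left _ _).trans hL) χ τ hτ⟩

end RAF
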