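import Pool.Agent.RAF.FDiv

/-!
# RAF.PairS: prime pairs in short intervals

PROOF. `Pool.Agent.Lib.PrimePairs.card_prime_pairs_le x h d y` with `y = ⌊h^(1/13)⌋₊` (`y² ≤ h ≤ x`, `2 ≤ y` for large `h`): the number of `n ∈ (x, x+h]` with `n`, `n+d` prime is at most
`8 F(2d)² h/log² y + y^12 ≤ C F(2d)² h/log² h`, and `F(2d)² ≤ C² (1 + log(2d))^(2κ')` (`F_small`, `κ' = κ/4`) `≤ C' (log h)^(2κ')`, as `2d ≤ 8x ≤ 8 h^(1/t)`. Each term is
`≤ log(2x) log(6x) ≤ C (log h)²`. So the sum is `≤ C h (log h)^(κ/2) ≤ h (log h)^κ` for large `h`.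
-/

namespace RAF

open Finset in
private theorem pairS_sum_le (x h d : ℕ) (hhx : h ≤ x) (hd : d ≤ 4 * x) (hx : 1 ≤ x) (B : ℝ)
    (hB : Real.log (6 * x) ≤ B) :
    ∑ n ∈ Finset.Ioc x (x + h), RLC.th n * RLC.th (n + d) ≤
      (((Ioc x (x + h)).filter (fun n => n.Prime ∧ (n + d).Prime)).card : ℝ) * B ^ 2 := by
  have hx1 : (1 : ℝ) ≤ x := by exact_mod_cast hx
  have hB0 : 0 ≤ B := (Real.log_nonneg (by linarith)).trans hB
  have h1 : ∀ n ∈ Finset.Ioc x (x + h), RLC.th n * RLC.th (n + d) ≤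
      (if n.Prime ∧ (n + d).Prime then (1 : ℝ) else 0) * B ^ 2 := by
    intro n hn
    rw [Finset.mem_Ioc] at hn
    unfold RLC.th
    by_cases hp : n.Prime
    · by_cases hq : (n + d).Prime
      · rw [if_pos hp, if_pos hq, if_pos ⟨hp, hq⟩, one_mul, pow_two]
        have e1 : Real.log n ≤ B := by
          refine le_trans (Real.log_le_log (by exact_mod_cast hp.pos) ?_) hB
          have : n ≤ 6 * x := by omega
          exact_mod_cast this
        have e2 : Real.log ((n + d : ℕ) : ℝ) ≤ B := by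
          refine le_trans (Real.log_le_log (by exact_mod_cast hq.pos) ?_) hB
          have : n + d ≤ 6 * x := by omega
          exact_mod_cast this
        exact mul_le_mul e1 e2 (Real.log_nonneg (by exact_mod_cast hq.one_lt.le)) hB0
      · rw [if_neg hq, mul_zero, if_neg (fun hc : n.Prime ∧ (n + d).Prime => hq hc.2), zero_mul]
    · rw [if_neg hp, zero_mul, if_neg (fun hc : n.Prime ∧ (n + d).Prime => hp hc.1), zero_mul]
  refine (Finset.sum_le_sum h1).trans (le_of_eq ?_)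
  rw [← Finset.sum_mul, Finset.sum_boole]

theorem pair_sieve {t κ : ℝ} (ht : 0 < t) (hκ : 0 < κ) : ∃ x0 : ℕ, ∀ x h d : ℕ, x0 ≤ h → (x : ℝ) ^ t ≤ h →
    h ≤ x → 1 ≤ d → d ≤ 4 * x →
    ∑ n ∈ Finset.Ioc x (x + h), RLC.th n * RLC.th (n + d) ≤ h * Real.log h ^ κ := by
  obtain ⟨C, hC1, hC⟩ := F_small (show (0 : ℝ) < κ / 4 by linarith)
  set C1 : ℝ := 1 / t + 4 with hC1def
  have hC1pos : 4 ≤ C1 := by
    have : 0 < 1 / t := by positivity
    linarith
  set C2 : ℝ := 8 * C ^ 2 * C1 ^ (κ / 2) * 676 * C1 ^ 2 with hC2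
  have hC2pos : 0 < C2 := by
    have : 0 < C1 ^ (κ / 2) := Real.rpow_pos_of_pos (by linarith) _
    positivity
  set L0 : ℝ := max 26 (max (26364 * C1 ^ 2) ((2 * C2) ^ (2 / κ))) with hL0
  refine ⟨⌈Real.exp L0⌉₊, fun x h d hh hxt hhx hd1 hd4 => ?_⟩
  have hh1 : Real.exp L0 ≤ h := (Nat.le_ceil _).trans (by exact_mod_cast hh)
  have hh0 : (0 : ℝ) < h := (Real.exp_pos _).trans_le hh1
  have hhn : 0 < h := by exact_mod_cast hh0
  have hxn : 1 ≤ x := by omega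
  have hx1 : (1 : ℝ) ≤ x := by exact_mod_cast hxn
  set ℓ : ℝ := Real.log h with hℓ
  have hLℓ : L0 ≤ ℓ := by
    rw [hℓ, ← Real.log_exp L0]
    exact Real.log_le_log (Real.exp_pos _) hh1
  have hℓ26 : 26 ≤ ℓ := (le_max_left _ _).trans hLℓ
  have hℓ2 : 26364 * C1 ^ 2 ≤ ℓ := ((le_max_left _ _).trans (le_max_right _ _)).trans hLℓ
  have hℓ3 : (2 * C2) ^ (2 / κ) ≤ ℓ := ((le_max_right _ _).trans (le_max_right _ _)).trans hLℓ
  have hexpℓ : Real.exp ℓ = h := Real.exp_log hh0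
  -- log x
  have hlogx : Real.log x ≤ ℓ / t := by
    have h1 := Real.log_le_log (Real.rpow_pos_of_pos (by linarith) t) hxt
    rw [Real.log_rpow (by linarith)] at h1
    rw [le_div_iff₀ ht, mul_comm]
    exact h1
  have hlog8 : Real.log 8 ≤ 3 := by
    have h1 : Real.log 8 = 3 * Real.log 2 := by
      rw [show (8 : ℝ) = 2 ^ (3 : ℕ) by norm_num, Real.log_pow]
      norm_num
    have h2 := Real.log_two_lt_d9
    linarith
  have hB : 1 + Real.log (8 * x) ≤ C1 * ℓ := by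
    rw [Real.log_mul (by norm_num) (by linarith)]
    have e1 : C1 * ℓ = ℓ / t + 4 * ℓ := by
      rw [hC1def]
      ring
    rw [e1]
    linarith
  have hB6 : Real.log (6 * x) ≤ C1 * ℓ := by
    have h1 : Real.log (6 * x) ≤ Real.log (8 * x) := Real.log_le_log (by linarith) (by linarith)
    linarith
  -- y
  set y : ℕ := ⌊(h : ℝ) ^ ((1 : ℝ) / 13)⌋₊ with hy
  have hz : (h : ℝ) ^ ((1 : ℝ) / 13) = Real.exp (ℓ / 13) := by
    rw [Real.rpow_def_of_pos hh0]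
    congr 1
    ring
  have hy_le : (y : ℝ) ≤ Real.exp (ℓ / 13) := by
    rw [← hz]
    exact Nat.floor_le (Real.rpow_nonneg hh0.le _)
  have hy_gt : Real.exp (ℓ / 13) < y + 1 := by
    rw [← hz]
    exact Nat.lt_floor_add_one _
  have he26 : (2 : ℝ) ≤ Real.exp (ℓ / 26) := by
    have h1 := Real.add_one_le_exp (ℓ / 26)
    linarith
  have hsq : Real.exp (ℓ / 13) = Real.exp (ℓ / 26) * Real.exp (ℓ / 26) := by
    rw [← Real.exp_add]
    congr 1
    ring
  have hy_ge : Real.exp (ℓ / 26) ≤ y := by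
    nlinarith
  have hy2 : 2 ≤ y := by
    have : (2 : ℝ) ≤ y := he26.trans hy_ge
    exact_mod_cast this
  have hy0 : (0 : ℝ) < y := by
    have : (2 : ℝ) ≤ y := by exact_mod_cast hy2
    linarith
  have hpow : ∀ k : ℕ, k ≤ 13 → (y : ℝ) ^ k ≤ Real.exp (k * (ℓ / 13)) := by
    intro k _
    rw [Real.exp_nat_mul]
    exact pow_le_pow_left₀ hy0.le hy_le k
  have hyM : y ^ 2 ≤ x := by
    have h1 := hpow 2 (by norm_num)
    have h2 : Real.exp ((2 : ℕ) * (ℓ / 13)) ≤ Real.exp ℓ := by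
      refine Real.exp_le_exp.2 ?_
      push_cast
      linarith
    have h3 : (y : ℝ) ^ 2 ≤ h := by
      rw [← hexpℓ]
      exact h1.trans h2
    have h4 : y ^ 2 ≤ h := by exact_mod_cast h3
    omega
  have hcard := Pool.Agent.Lib.PrimePairs.card_prime_pairs_le x h d y (by omega) hy2 hyM
  have hsum := pairS_sum_le x h d hhx hd4 hxn (C1 * ℓ) hB6
  refine hsum.trans ?_
  have hB2 : 0 ≤ (C1 * ℓ) ^ 2 := sq_nonneg _
  refine (mul_le_mul_of_nonneg_right hcard hB2).trans ?_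
  -- log y
  have hlogy : ℓ / 26 ≤ Real.log y := by
    rw [← Real.log_exp (ℓ / 26)]
    exact Real.log_le_log (Real.exp_pos _) hy_ge
  have hℓ0 : 0 < ℓ := by linarith
  -- F
  have hF0 : 0 ≤ Pool.Agent.Lib.PrimePairs.F (2 * d) := by
    unfold Pool.Agent.Lib.PrimePairs.F
    exact Finset.sum_nonneg fun e _ => by positivity
  have hF : Pool.Agent.Lib.PrimePairs.F (2 * d) ≤ C * (C1 * ℓ) ^ (κ / 4) := by
    refine (hC (2 * d) (by omega)).trans ?_
    refine mul_le_mul_of_nonneg_left (Real.rpow_le_rpow ?_ ?_ (by linarith)) (by linarith)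
    · have : 0 ≤ Real.log ((2 * d : ℕ) : ℝ) := Real.log_natCast_nonneg _
      linarith
    · refine le_trans ?_ hB
      have h1 : Real.log ((2 * d : ℕ) : ℝ) ≤ Real.log (8 * x) := by
        refine Real.log_le_log (by exact_mod_cast (by omega : 0 < 2 * d)) ?_
        have : 2 * d ≤ 8 * x := by omega
        exact_mod_cast this
      linarith
  have hF2 : Pool.Agent.Lib.PrimePairs.F (2 * d) ^ 2 ≤ C ^ 2 * (C1 ^ (κ / 2) * ℓ ^ (κ / 2)) := by
    refine (pow_le_pow_left₀ hF0 hF 2).trans (le_of_eq ?_)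
    rw [mul_pow, ← Real.rpow_natCast ((C1 * ℓ) ^ (κ / 4)) 2, ← Real.rpow_mul (by positivity),
      Real.mul_rpow (by linarith) hℓ0.le]
    have : κ / 4 * ((2 : ℕ) : ℝ) = κ / 2 := by
      push_cast
      ring
    rw [this]
  have hpk : 0 < ℓ ^ (κ / 2) := Real.rpow_pos_of_pos hℓ0 _
  have hpC : 0 < C1 ^ (κ / 2) := Real.rpow_pos_of_pos (by linarith) _
  have hkk : ℓ ^ κ = ℓ ^ (κ / 2) * ℓ ^ (κ / 2) := by
    rw [← Real.rpow_add hℓ0]
    congr 1
    ring
  have hE1 : 2 * C2 ≤ ℓ ^ (κ / 2) := by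
    have h1 := Real.rpow_le_rpow (Real.rpow_nonneg (by linarith) _) hℓ3 (show 0 ≤ κ / 2 by linarith)
    rw [← Real.rpow_mul (by linarith)] at h1
    have : 2 / κ * (κ / 2) = 1 := by
      field_simp
    rw [this, Real.rpow_one] at h1
    exact h1
  -- first term
  have hT1 : 8 * Pool.Agent.Lib.PrimePairs.F (2 * d) ^ 2 * h / Real.log y ^ 2 * (C1 * ℓ) ^ 2 ≤
      h * ℓ ^ κ / 2 := by
    have h1 : 8 * Pool.Agent.Lib.PrimePairs.F (2 * d) ^ 2 * h / Real.log y ^ 2 ≤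
        8 * (C ^ 2 * (C1 ^ (κ / 2) * ℓ ^ (κ / 2))) * h / (ℓ / 26) ^ 2 := by
      have h2 : (ℓ / 26) ^ 2 ≤ Real.log y ^ 2 := pow_le_pow_left₀ (by positivity) hlogy 2
      refine div_le_div₀ (by positivity) ?_ (by positivity) h2
      refine mul_le_mul_of_nonneg_right ?_ hh0.le
      linarith
    refine (mul_le_mul_of_nonneg_right h1 hB2).trans ?_
    have h3 : 8 * (C ^ 2 * (C1 ^ (κ / 2) * ℓ ^ (κ / 2))) * h / (ℓ / 26) ^ 2 * (C1 * ℓ) ^ 2 =
        C2 * (h * ℓ ^ (κ / 2)) := by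
      rw [hC2]
      field_simp
      ring
    rw [h3, hkk]
    have h4 : 0 < (h : ℝ) * ℓ ^ (κ / 2) := mul_pos hh0 hpk
    nlinarith
  -- second term
  have hT2 : (y : ℝ) ^ 12 * (C1 * ℓ) ^ 2 ≤ h * ℓ ^ κ / 2 := by
    have h1 := hpow 12 (by norm_num)
    have h2 : (ℓ / 13) ^ 3 / (Nat.factorial 3 : ℝ) ≤ Real.exp (ℓ / 13) :=
      Real.pow_div_factorial_le_exp (ℓ / 13) (by positivity) 3
    have h3 : 2 * (C1 * ℓ) ^ 2 ≤ Real.exp (ℓ / 13) := by
      refine le_trans ?_ h2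
      have h4 : (Nat.factorial 3 : ℝ) = 6 := by norm_num [Nat.factorial]
      rw [h4]
      have h5 : 26364 * C1 ^ 2 * ℓ ^ 2 ≤ ℓ * ℓ ^ 2 := mul_le_mul_of_nonneg_right hℓ2 (by positivity)
      have h6 : (ℓ / 13) ^ 3 / 6 = ℓ * ℓ ^ 2 / 13182 := by ring
      rw [h6, mul_pow, le_div_iff₀ (by norm_num)]
      nlinarith
    have h7 : (1 : ℝ) ≤ ℓ ^ κ := Real.one_le_rpow (by linarith) hκ.le
    have h8 : Real.exp ((12 : ℕ) * (ℓ / 13)) * Real.exp (ℓ / 13) = h := by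
      rw [← Real.exp_add, ← hexpℓ]
      congr 1
      push_cast
      ring
    have h9 : (y : ℝ) ^ 12 * (2 * (C1 * ℓ) ^ 2) ≤ h := by
      rw [← h8]
      exact mul_le_mul h1 h3 (by positivity) (Real.exp_pos _).le
    have h10 : (h : ℝ) * 1 ≤ h * ℓ ^ κ := mul_le_mul_of_nonneg_left h7 hh0.le
    linarith
  rw [add_mul]
  linarith

end RAF
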