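import Pool.Agent.RAF.Cells
import Pool.Agent.RAF.BT
import Pool.Agent.RLC.WinC

/-!
# RAF.PntW: primes in residue classes in the windows

PROOF. `Y = RLC.win N m'`, `Y' = RLC.win N (m'+1)`, `m = log₂ Y`, `h = ⌈2^(3m/4)⌉₊`, `κ` from `cells hM` with `t1 = 3/4`, `t2 = 4/5`, `A = 1`. The cells `[rh, (r+1)h)` contained in `(Y, Y']` are in `Icc (2^m/h) (2^(m+4)/h)` (`Y' ≤ 2Y < 2^(m+2)` for large `m'`, `RLC.win_facts`). They
cover `(Y, Y']` up to at most `2h` numbers which lie in at most two cells. Not bad: `|csum M b h r - h/φ(M)| ≤ h/m`; bad: `0 ≤ csum ≤ C h` (`bt` with exponent `3/8`), and `#bad · h ≤ 2^((1-κ)m)`. So the sum of `th n` is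
`(Y'-Y)/φ(M) + O((Y'-Y)/m + 2^((1-κ)m) + h)`, and `Y' - Y ≥ Y/(2N)` (`RLC.win_facts`).
-/

namespace RAF

open Filter

private noncomputable def PntW_s (M b n : ℕ) : ℝ := if n ≡ b [MOD M] then RLC.th n else 0

private theorem PntW_s_nonneg (M b n : ℕ) : 0 ≤ PntW_s M b n := by
  unfold PntW_s
  split_ifs
  · exact RLC.th_nonneg n
  · exact le_rfl

private theorem PntW_s_le (M b n : ℕ) : PntW_s M b n ≤ RLC.th n := by
  unfold PntW_s
  split_ifs
  · exact le_rfl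
  · exact RLC.th_nonneg n

private theorem PntW_csum (M b h r : ℕ) :
    csum M b h r = ∑ n ∈ Finset.Ico (r * h) ((r + 1) * h), PntW_s M b n := by
  unfold csum PntW_s
  rw [Finset.sum_filter]

/-- a sum over at most `h` consecutive positive numbers -/
private theorem PntW_piece {M b h u v : ℕ} {B : ℝ} (hu : 0 < u) (huv : v ≤ u + h)
    (hB : ∑ n ∈ Finset.Ioc (u - 1) (u - 1 + h), RLC.th n ≤ B) :
    ∑ n ∈ Finset.Ico u v, PntW_s M b n ≤ B := by
  refine le_trans ?_ hB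
  calc ∑ n ∈ Finset.Ico u v, PntW_s M b n ≤ ∑ n ∈ Finset.Ico u v, RLC.th n :=
        Finset.sum_le_sum fun n _ => PntW_s_le M b n
    _ ≤ _ := by
        apply Finset.sum_le_sum_of_subset_of_nonneg
        · intro n hn
          rw [Finset.mem_Ico] at hn
          rw [Finset.mem_Ioc]
          omega
        · intro n _ _
          exact RLC.th_nonneg n

private theorem PntW_cells (M b h r0 : ℕ) {r1 : ℕ} (hr : r0 ≤ r1) :
    ∑ n ∈ Finset.Ico (r0 * h) (r1 * h), PntW_s M b n = ∑ r ∈ Finset.Ico r0 r1, csum M b h r := by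
  induction r1, hr using Nat.le_induction with
  | base => simp
  | succ r1 hr ih =>
    rw [Finset.sum_Ico_succ_top hr, ← ih, PntW_csum,
      Finset.sum_Ico_consecutive _ (Nat.mul_le_mul_right h hr)
        (Nat.mul_le_mul_right h (Nat.le_succ r1))]

open Classical in
private theorem PntW_core {M b m h Y Y' : ℕ} {C κ : ℝ} (hM : 0 < M) (hb : b.Coprime M) (hh : 0 < h)
    (hC : 1 ≤ C) (hY : Y + 2 * h ≤ Y') (hm : 0 < m)
    (hbt : ∀ x : ℕ, x ≤ Y' → ∑ n ∈ Finset.Ioc x (x + h), RLC.th n ≤ C * h)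
    (hlow : 2 ^ m ≤ Y) (hup : Y' + 1 ≤ 2 ^ (m + 4))
    (hbad : (((Finset.Icc (2 ^ m / h) (2 ^ (m + 4) / h)).filter fun r => BadC M 1 h m r).card : ℝ) * h
      ≤ (2 : ℝ) ^ ((1 - κ) * (m : ℝ))) :
    |∑ n ∈ (Finset.Ioc Y Y').filter (fun n => n ≡ b [MOD M]), RLC.th n -
      ((Y' : ℝ) - Y) / (Nat.totient M : ℝ)| ≤
      ((Y' : ℝ) - Y) / m + (C + 1) * (2 : ℝ) ^ ((1 - κ) * (m : ℝ)) + (2 * C + 2) * h := by
  set r0 := Y / h + 1 with hr0
  set r1 := (Y' + 1) / h with hr1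
  have e1 := Nat.div_add_mod Y h
  have e2 := Nat.mod_lt Y hh
  have e3 : r0 * h = h * (Y / h) + h := by rw [hr0]; ring
  have e4 := Nat.div_add_mod (Y' + 1) h
  have e5 := Nat.mod_lt (Y' + 1) hh
  have e6 : r1 * h = h * ((Y' + 1) / h) := by rw [hr1]; ring
  have hd0 : Y < r0 * h := by omega
  have hd0' : r0 * h ≤ Y + h := by omega
  have hd1 : r1 * h ≤ Y' + 1 := by omega
  have hd1' : Y' + 1 < r1 * h + h := by omega
  have hrr : r0 ≤ r1 := by
    by_contra hcon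
    push Not at hcon
    have : (r1 + 1) * h ≤ r0 * h := Nat.mul_le_mul_right h hcon
    rw [Nat.add_mul, one_mul] at this
    omega
  have hsum : ∑ n ∈ (Finset.Ioc Y Y').filter (fun n => n ≡ b [MOD M]), RLC.th n =
      ∑ n ∈ Finset.Ico (Y + 1) (r0 * h), PntW_s M b n + ∑ r ∈ Finset.Ico r0 r1, csum M b h r +
        ∑ n ∈ Finset.Ico (r1 * h) (Y' + 1), PntW_s M b n := by
    rw [← PntW_cells M b h r0 hrr, Finset.sum_Ico_consecutive _ (by omega)
      (Nat.mul_le_mul_right h hrr), Finset.sum_Ico_consecutive _ (by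
        have := Nat.mul_le_mul_right h hrr
        omega) hd1, Finset.sum_filter]
    apply Finset.sum_congr
    · ext n
      rw [Finset.mem_Ioc, Finset.mem_Ico]
      omega
    · intro n _
      rfl
  have hA : ∑ n ∈ Finset.Ico (Y + 1) (r0 * h), PntW_s M b n ≤ C * h := by
    apply PntW_piece (Nat.succ_pos Y) (by omega) (hbt (Y + 1 - 1) (by omega))
  have hB : ∑ n ∈ Finset.Ico (r1 * h) (Y' + 1), PntW_s M b n ≤ C * h := by
    have h1 : r0 * h ≤ r1 * h := Nat.mul_le_mul_right h hrr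
    apply PntW_piece (by omega) (by omega) (hbt (r1 * h - 1) (by omega))
  have hA0 : 0 ≤ ∑ n ∈ Finset.Ico (Y + 1) (r0 * h), PntW_s M b n :=
    Finset.sum_nonneg fun n _ => PntW_s_nonneg M b n
  have hB0 : 0 ≤ ∑ n ∈ Finset.Ico (r1 * h) (Y' + 1), PntW_s M b n :=
    Finset.sum_nonneg fun n _ => PntW_s_nonneg M b n
  have hφ : (1 : ℝ) ≤ (Nat.totient M : ℝ) := by
    exact_mod_cast Nat.totient_pos.mpr hM
  have hhR : (0 : ℝ) < h := by exact_mod_cast hh
  have hmR : (0 : ℝ) < m := by exact_mod_cast hm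
  have hhφ0 : 0 ≤ (h : ℝ) / (Nat.totient M : ℝ) := by positivity
  have hhφ : (h : ℝ) / (Nat.totient M : ℝ) ≤ h := div_le_self hhR.le hφ
  set bad := (Finset.Icc (2 ^ m / h) (2 ^ (m + 4) / h)).filter fun r => BadC M 1 h m r with hbaddef
  -- each cell
  have hcell : ∀ r ∈ Finset.Ico r0 r1, |csum M b h r - (h : ℝ) / (Nat.totient M : ℝ)| ≤
      (h : ℝ) / m + (if r ∈ bad then (C + 1) * h else 0) := by
    intro r hr
    rw [Finset.mem_Ico] at hr
    by_cases hrb : r ∈ bad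
    · rw [if_pos hrb]
      have h0 : 0 ≤ csum M b h r := by
        rw [PntW_csum]
        exact Finset.sum_nonneg fun n _ => PntW_s_nonneg M b n
      have h2 : 0 < r * h := Nat.mul_pos (lt_of_lt_of_le (by rw [hr0]; exact Nat.succ_pos _) hr.1) hh
      have h3 : (r + 1) * h ≤ r1 * h := Nat.mul_le_mul_right h hr.2
      have h4 : (r + 1) * h = r * h + h := by ring
      have h1 : csum M b h r ≤ C * h := by
        rw [PntW_csum]
        apply PntW_piece h2 (by omega) (hbt (r * h - 1) (by omega))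
      have h5 : 0 ≤ (h : ℝ) / m := by positivity
      rw [abs_le]
      constructor
      · nlinarith
      · nlinarith
    · rw [if_neg hrb, add_zero]
      have hmem : r ∈ Finset.Icc (2 ^ m / h) (2 ^ (m + 4) / h) := by
        rw [Finset.mem_Icc]
        constructor
        · have : 2 ^ m / h ≤ Y / h := Nat.div_le_div_right hlow
          omega
        · have : (Y' + 1) / h ≤ 2 ^ (m + 4) / h := Nat.div_le_div_right hup
          omega
      have hnb : ¬ BadC M 1 h m r := by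
        intro hcon
        exact hrb (Finset.mem_filter.mpr ⟨hmem, hcon⟩)
      unfold BadC at hnb
      push Not at hnb
      have := hnb b hb
      rw [Real.rpow_neg hmR.le, Real.rpow_one, ← div_eq_mul_inv] at this
      exact this
  have hcard : ((Finset.Ico r0 r1).card : ℝ) = (r1 : ℝ) - r0 := by
    rw [Nat.card_Ico, Nat.cast_sub hrr]
  have hmain : |∑ r ∈ Finset.Ico r0 r1, csum M b h r -
      ((r1 : ℝ) - r0) * ((h : ℝ) / (Nat.totient M : ℝ))| ≤
      ((r1 : ℝ) - r0) * ((h : ℝ) / m) + (C + 1) * (2 : ℝ) ^ ((1 - κ) * (m : ℝ)) := by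
    have h1 : ∑ r ∈ Finset.Ico r0 r1, csum M b h r -
        ((r1 : ℝ) - r0) * ((h : ℝ) / (Nat.totient M : ℝ)) =
        ∑ r ∈ Finset.Ico r0 r1, (csum M b h r - (h : ℝ) / (Nat.totient M : ℝ)) := by
      rw [Finset.sum_sub_distrib, Finset.sum_const, nsmul_eq_mul, hcard]
    rw [h1]
    refine (Finset.abs_sum_le_sum_abs _ _).trans ((Finset.sum_le_sum hcell).trans ?_)
    rw [Finset.sum_add_distrib, Finset.sum_const, nsmul_eq_mul, hcard]
    have h2 : ∑ r ∈ Finset.Ico r0 r1, (if r ∈ bad then (C + 1) * (h : ℝ) else 0) ≤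
        (C + 1) * (2 : ℝ) ^ ((1 - κ) * (m : ℝ)) := by
      rw [← Finset.sum_filter, Finset.sum_const, nsmul_eq_mul]
      have h3 : (((Finset.Ico r0 r1).filter fun r => r ∈ bad).card : ℝ) ≤ (bad.card : ℝ) := by
        exact_mod_cast Finset.card_le_card (fun r hr => (Finset.mem_filter.mp hr).2)
      calc (((Finset.Ico r0 r1).filter fun r => r ∈ bad).card : ℝ) * ((C + 1) * h)
          ≤ (bad.card : ℝ) * ((C + 1) * h) := by
            apply mul_le_mul_of_nonneg_right h3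
            positivity
        _ = (C + 1) * ((bad.card : ℝ) * h) := by ring
        _ ≤ _ := by
            apply mul_le_mul_of_nonneg_left hbad
            linarith
    linarith
  -- assemble
  have hrh0 : (Y : ℝ) ≤ r0 * h := by exact_mod_cast hd0.le
  have hrh0' : (r0 : ℝ) * h ≤ Y + h := by exact_mod_cast hd0'
  have hrh1 : (r1 : ℝ) * h ≤ Y' + 1 := by exact_mod_cast hd1
  have hrh1' : (Y' : ℝ) + 1 ≤ r1 * h + h := by exact_mod_cast hd1'.le
  have hrh0'' : (Y : ℝ) + 1 ≤ r0 * h := by exact_mod_cast hd0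
  have hL1 : ((r1 : ℝ) - r0) * h ≤ (Y' : ℝ) - Y := by
    rw [sub_mul]
    linarith
  have hL2 : (Y' : ℝ) - Y - 2 * h ≤ ((r1 : ℝ) - r0) * h := by
    rw [sub_mul]
    linarith
  have hh1 : (1 : ℝ) ≤ h := by exact_mod_cast hh
  have hinv : 0 < (1 : ℝ) / (Nat.totient M : ℝ) := by positivity
  have hinv1 : (1 : ℝ) / (Nat.totient M : ℝ) ≤ 1 := by
    rw [div_le_one (by linarith)]
    exact hφ
  rw [hsum]
  have hm1 : ((r1 : ℝ) - r0) * ((h : ℝ) / m) ≤ ((Y' : ℝ) - Y) / m := by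
    rw [← mul_div_assoc]
    exact div_le_div_of_nonneg_right hL1 hmR.le
  have hm2 : |((r1 : ℝ) - r0) * ((h : ℝ) / (Nat.totient M : ℝ)) -
      ((Y' : ℝ) - Y) / (Nat.totient M : ℝ)| ≤ 2 * h := by
    have e7 : ((r1 : ℝ) - r0) * ((h : ℝ) / (Nat.totient M : ℝ)) -
      ((Y' : ℝ) - Y) / (Nat.totient M : ℝ) =
      -((((Y' : ℝ) - Y) - ((r1 : ℝ) - r0) * h) * (1 / (Nat.totient M : ℝ))) := by ring
    rw [e7, abs_neg, abs_mul, abs_of_pos hinv, abs_of_nonneg (by linarith)]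
    calc _ ≤ (2 * (h : ℝ)) * 1 := by
          apply mul_le_mul (by linarith) hinv1 hinv.le (by positivity)
      _ = _ := by ring
  rw [abs_le] at hmain hm2 ⊢
  constructor
  · linarith [hmain.1, hm2.1]
  · have : (2 * C + 2) * (h : ℝ) = C * h + C * h + 2 * h := by ring
    linarith [hmain.2, hm2.2]


private theorem PntW_log : Tendsto (Nat.log 2) atTop atTop := by
  refine tendsto_atTop.mpr fun b => ?_
  filter_upwards [eventually_ge_atTop (2 ^ b)] with n hn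
  exact Nat.le_log_of_pow_le (by norm_num) hn

private theorem PntW_exp {c : ℝ} (hc : 0 < c) :
    Tendsto (fun m : ℕ => (2 : ℝ) ^ (c * (m : ℝ))) atTop atTop := by
  have h1 : Tendsto (fun m : ℕ => ((2 : ℝ) ^ c) ^ m) atTop atTop :=
    tendsto_pow_atTop_atTop_of_one_lt (Real.one_lt_rpow (by norm_num) hc)
  refine h1.congr fun m => ?_
  rw [← Real.rpow_natCast, ← Real.rpow_mul (by norm_num)]

private theorem PntW_cmp {u v K a N : ℝ} {m : ℕ} (hN : 0 < N) (ha : 0 < a) (huv : u + v = 1)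
    (h : K * (2 * N) / a ≤ (2 : ℝ) ^ (u * (m : ℝ))) :
    K * (2 : ℝ) ^ (v * (m : ℝ)) ≤ a * ((2 : ℝ) ^ (m : ℝ) / (2 * N)) := by
  have e1 : (2 : ℝ) ^ (m : ℝ) = (2 : ℝ) ^ (u * (m : ℝ)) * (2 : ℝ) ^ (v * (m : ℝ)) := by
    rw [← Real.rpow_add (by norm_num), ← add_mul, huv, one_mul]
  have e2 : (0 : ℝ) < (2 : ℝ) ^ (v * (m : ℝ)) := by positivity
  rw [div_le_iff₀ ha] at h
  rw [e1, ← mul_div_assoc, le_div_iff₀ (by positivity)]
  calc K * (2 : ℝ) ^ (v * (m : ℝ)) * (2 * N) = (K * (2 * N)) * (2 : ℝ) ^ (v * (m : ℝ)) := by ring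
    _ ≤ ((2 : ℝ) ^ (u * (m : ℝ)) * a) * (2 : ℝ) ^ (v * (m : ℝ)) :=
        mul_le_mul_of_nonneg_right h e2.le
    _ = _ := by ring

open Classical in
theorem pnt_win {M : ℕ} (hM : 0 < M) {N : ℕ} (hN : 1 ≤ N) {e : ℝ} (he : 0 < e) : ∀ᶠ m : ℕ in atTop, ∀ b : ℕ,
    b.Coprime M →
    |∑ n ∈ (Finset.Ioc (RLC.win N m) (RLC.win N (m + 1))).filter (fun n => n ≡ b [MOD M]), RLC.th n -
      ((RLC.win N (m + 1) : ℝ) - RLC.win N m) / (Nat.totient M : ℝ)| ≤
      e * ((RLC.win N (m + 1) : ℝ) - RLC.win N m) := by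
  obtain ⟨κ, hκ, hcells⟩ := cells hM (t1 := 3 / 4) (t2 := 4 / 5) (by norm_num) (by norm_num)
  obtain ⟨m0, hm0⟩ := hcells 1
  obtain ⟨C, hC, x0, hbt⟩ := bt (t := 3 / 8) (by norm_num)
  obtain ⟨hT, hmono, hw1, hw2, -⟩ := RLC.win_facts hN
  have hN0 : (0 : ℝ) < N := by exact_mod_cast hN
  -- the conditions on the logarithm of the window
  have hlogT : Tendsto (fun m' => Nat.log 2 (RLC.win N m')) atTop atTop :=
    PntW_log.comp hT
  have hcond : ∀ᶠ m : ℕ in atTop, m0 ≤ m ∧ 4 ≤ m ∧ (x0 : ℝ) ≤ (2 : ℝ) ^ (3 / 4 * (m : ℝ)) ∧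
      (2 : ℝ) ^ (3 / 4 * (m : ℝ)) + 1 ≤ (2 : ℝ) ^ (4 / 5 * (m : ℝ)) ∧
      (1 : ℝ) / m ≤ e / 3 ∧
      (C + 1) * (2 : ℝ) ^ ((1 - κ) * (m : ℝ)) ≤ e / 3 * ((2 : ℝ) ^ (m : ℝ) / (2 * N)) ∧
      (2 * C + 2) * (2 : ℝ) ^ (4 / 5 * (m : ℝ)) ≤ e / 3 * ((2 : ℝ) ^ (m : ℝ) / (2 * N)) ∧
      2 * (2 : ℝ) ^ (4 / 5 * (m : ℝ)) ≤ (2 : ℝ) ^ (m : ℝ) / (2 * N) := by
    have he3 : 0 < e / 3 := by positivity
    filter_upwards [eventually_ge_atTop m0, eventually_ge_atTop 4,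
      (PntW_exp (c := 3 / 4) (by norm_num)).eventually_ge_atTop (x0 : ℝ),
      (PntW_exp (c := 1 / 20) (by norm_num)).eventually_ge_atTop 2,
      (tendsto_natCast_atTop_atTop (R := ℝ)).eventually_ge_atTop (1 / (e / 3)),
      (PntW_exp hκ).eventually_ge_atTop ((C + 1) * (2 * N) / (e / 3)),
      (PntW_exp (c := 1 / 5) (by norm_num)).eventually_ge_atTop ((2 * C + 2) * (2 * N) / (e / 3)),
      (PntW_exp (c := 1 / 5) (by norm_num)).eventually_ge_atTop (2 * (2 * N))]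
      with m d1 d2 d3 d4 d5 d6 d7 d8
    refine ⟨d1, d2, d3, ?_, ?_, ?_, ?_, ?_⟩
    · have e1 : (2 : ℝ) ^ (4 / 5 * (m : ℝ)) =
          (2 : ℝ) ^ (3 / 4 * (m : ℝ)) * (2 : ℝ) ^ (1 / 20 * (m : ℝ)) := by
        rw [← Real.rpow_add (by norm_num)]
        congr 1
        ring
      have e2 : (1 : ℝ) ≤ (2 : ℝ) ^ (3 / 4 * (m : ℝ)) :=
        Real.one_le_rpow (by norm_num) (by positivity)
      rw [e1]
      nlinarith
    · have hm : (0 : ℝ) < m := by
        have : (4 : ℝ) ≤ m := by exact_mod_cast d2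
        linarith
      rw [div_le_iff₀ hm]
      rw [div_le_iff₀ he3] at d5
      linarith
    · exact PntW_cmp hN0 he3 (by ring) d6
    · exact PntW_cmp hN0 he3 (by ring) d7
    · have := PntW_cmp (u := 1 / 5) (v := 4 / 5) (m := m) (K := 2) hN0 one_pos (by norm_num)
        (by rw [div_one]; exact d8)
      rw [one_mul] at this
      exact this
  filter_upwards [hlogT.eventually hcond, hw1, hw2, hT.eventually_gt_atTop 0] with m' hc h1 h2 h0
  intro b hb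
  set Y := RLC.win N m' with hYdef
  set Y' := RLC.win N (m' + 1) with hYdef'
  set m := Nat.log 2 Y with hmdef
  obtain ⟨c1, c2, c3, c4, c5, c6, c7, c8⟩ := hc
  have hlow : 2 ^ m ≤ Y := Nat.pow_log_le_self 2 h0.ne'
  have hupp : Y < 2 ^ (m + 1) := Nat.lt_pow_succ_log_self (by norm_num) Y
  have hlowR : (2 : ℝ) ^ (m : ℝ) ≤ Y := by
    rw [Real.rpow_natCast]
    exact_mod_cast hlow
  set h := ⌈(2 : ℝ) ^ (3 / 4 * (m : ℝ))⌉₊ with hhdef
  have hh1 : (2 : ℝ) ^ (3 / 4 * (m : ℝ)) ≤ h := Nat.le_ceil _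
  have hh2 : (h : ℝ) ≤ (2 : ℝ) ^ (4 / 5 * (m : ℝ)) := by
    have : (h : ℝ) < (2 : ℝ) ^ (3 / 4 * (m : ℝ)) + 1 := Nat.ceil_lt_add_one (by positivity)
    linarith
  have hh : 0 < h := by
    rw [hhdef, Nat.ceil_pos]
    positivity
  have hgap : (2 : ℝ) ^ (m : ℝ) / (2 * N) ≤ (Y' : ℝ) - Y := by
    refine le_trans ?_ h2
    apply div_le_div_of_nonneg_right hlowR (by positivity)
  have hYY : Y + 2 * h ≤ Y' := by
    have : (Y : ℝ) + 2 * h ≤ Y' := by linarith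
    exact_mod_cast this
  have hup : Y' + 1 ≤ 2 ^ (m + 4) := by
    have e1 : (2 : ℕ) ^ (m + 4) = 8 * 2 ^ (m + 1) := by ring
    omega
  have hbt' : ∀ x : ℕ, x ≤ Y' → ∑ n ∈ Finset.Ioc x (x + h), RLC.th n ≤ C * h := by
    intro x hx
    apply hbt
    · have : (x0 : ℝ) ≤ h := by linarith
      exact_mod_cast this
    · refine le_trans ?_ hh1
      have e1 : (x : ℝ) ≤ (2 : ℝ) ^ ((m : ℝ) + 4) := by
        have : x ≤ 2 ^ (m + 4) := by omega
        have h3 : (x : ℝ) ≤ (2 : ℝ) ^ (m + 4) := by exact_mod_cast this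
        rw [← Real.rpow_natCast] at h3
        push_cast at h3
        exact h3
      calc (x : ℝ) ^ (3 / 8 : ℝ) ≤ ((2 : ℝ) ^ ((m : ℝ) + 4)) ^ (3 / 8 : ℝ) :=
            Real.rpow_le_rpow (by positivity) e1 (by norm_num)
        _ = (2 : ℝ) ^ (((m : ℝ) + 4) * (3 / 8)) := by rw [← Real.rpow_mul (by norm_num)]
        _ ≤ _ := by
            apply Real.rpow_le_rpow_of_exponent_le (by norm_num)
            have : (4 : ℝ) ≤ m := by exact_mod_cast c2
            linarith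
  have hbad := hm0 m c1 h hh1 hh2
  have key := PntW_core (κ := κ) hM hb hh hC hYY (by omega) hbt' hlow hup hbad
  refine key.trans ?_
  have hD : 0 ≤ (Y' : ℝ) - Y := le_trans (by positivity) hgap
  have k1 : ((Y' : ℝ) - Y) / m ≤ e / 3 * ((Y' : ℝ) - Y) := by
    rw [div_eq_mul_one_div, mul_comm]
    exact mul_le_mul_of_nonneg_right c5 hD
  have k2 : e / 3 * ((2 : ℝ) ^ (m : ℝ) / (2 * N)) ≤ e / 3 * ((Y' : ℝ) - Y) :=
    mul_le_mul_of_nonneg_left hgap (by positivity)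
  have k3 : (2 * C + 2) * (h : ℝ) ≤ (2 * C + 2) * (2 : ℝ) ^ (4 / 5 * (m : ℝ)) :=
    mul_le_mul_of_nonneg_left hh2 (by linarith)
  linarith

end RAF
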