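import Pool.Agent.RAF.PntW
import Pool.Agent.RAF.WDefs

/-!
# RAF.ResM: the main term

PROOF. Let `r = M/φ(M)`. `RR M J b = r^J · 1[∀ i < J, (2^(i+1)(b+1) - 1, M) = 1]` (`rho M (2^i(b+1)-1) ≠ 0` iff `2 (2^i(b+1) - 1) + 1 = 2^(i+1)(b+1) - 1` is coprime to `M`). For `n > M`: `th n ≠ 0` implies that `n` is coprime to `M`, and `RR M J n = RR M J (n % M)` (`RR_mod`). So for a window above `M`
`∑ th n RR M J n = ∑_{b<M, (b,M)=1} RR M J b ∑_{n≡b} th n`, and by `pnt_win` with `e' = e/φ(M)` this is `∑_{b<M, (b,M)=1} RR M J b ((Y'-Y)/φ(M) + O(e' (Y'-Y)))`. As `∑_{b<M, (b,M)=1} RR M J b = r^J #{a < M : ∀ i < J+1, (2^i(a+1)-1, M) = 1}` (the condition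
for `i = 0` is `(a, M) = 1`) it is equal to `φ(M) cM M (J+1)`. So the sum is `cM M (J+1) (Y'-Y)` with an error of at most `e' φ(M) cM M (J+1) (Y'-Y)`.
-/

namespace RAF

open Filter

private theorem ResM_RR (M J b : ℕ) : RR M J b =
    if ∀ i < J, Nat.Coprime (2 ^ (i + 1) * (b + 1) - 1) M then ((M : ℝ) / (Nat.totient M : ℝ)) ^ J else 0 := by
  have h1 : ∀ i : ℕ, 2 * (2 ^ i * (b + 1) - 1) + 1 = 2 ^ (i + 1) * (b + 1) - 1 := by
    intro i
    have h2 : 1 ≤ 2 ^ i * (b + 1) := Nat.one_le_iff_ne_zero.mpr (by positivity)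
    have h3 : 2 ^ (i + 1) * (b + 1) = 2 * (2 ^ i * (b + 1)) := by ring
    rw [h3]
    omega
  unfold RR
  by_cases hA : ∀ i < J, Nat.Coprime (2 ^ (i + 1) * (b + 1) - 1) M
  · rw [if_pos hA]
    rw [Finset.prod_congr rfl (g := fun _ => (M : ℝ) / (Nat.totient M : ℝ))]
    · rw [Finset.prod_const, Finset.card_range]
    · intro i hi
      unfold rho
      rw [h1, if_pos (hA i (Finset.mem_range.mp hi))]
  · rw [if_neg hA]
    push Not at hA
    obtain ⟨i, hi, hc⟩ := hA
    apply Finset.prod_eq_zero (Finset.mem_range.mpr hi)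
    unfold rho
    rw [h1, if_neg hc]

private theorem ResM_sum {M : ℕ} (hM : 0 < M) (J : ℕ) :
    ∑ b ∈ (Finset.range M).filter (fun b => b.Coprime M), RR M J b = (Nat.totient M : ℝ) * cM M (J + 1) := by
  have hM' : (0 : ℝ) < M := by exact_mod_cast hM
  have ht : (0 : ℝ) < (Nat.totient M : ℝ) := by exact_mod_cast Nat.totient_pos.mpr hM
  have h1 : ∑ b ∈ (Finset.range M).filter (fun b => b.Coprime M), RR M J b =
      ∑ b ∈ (Finset.range M).filter (fun a => ∀ i < J + 1, Nat.Coprime (2 ^ i * (a + 1) - 1) M),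
        ((M : ℝ) / (Nat.totient M : ℝ)) ^ J := by
    rw [Finset.sum_filter, Finset.sum_filter]
    refine Finset.sum_congr rfl fun b _ => ?_
    rw [ResM_RR]
    by_cases hb : b.Coprime M
    · rw [if_pos hb]
      have h2 : (∀ i < J, Nat.Coprime (2 ^ (i + 1) * (b + 1) - 1) M) ↔
          ∀ i < J + 1, Nat.Coprime (2 ^ i * (b + 1) - 1) M := by
        constructor
        · intro h i hi
          rcases i with _ | i
          · have h3 : 2 ^ 0 * (b + 1) - 1 = b := by simp
            rw [h3]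
            exact hb
          · exact h i (by omega)
        · intro h i hi
          exact h (i + 1) (by omega)
      simp only [h2]
    · rw [if_neg hb, if_neg]
      intro h
      have h3 := h 0 (by omega)
      have h4 : 2 ^ 0 * (b + 1) - 1 = b := by simp
      rw [h4] at h3
      exact hb h3
  rw [h1, Finset.sum_const, nsmul_eq_mul]
  unfold cM
  rw [pow_succ]
  field_simp

private theorem ResM_mod {M n b : ℕ} (hb : b < M) : n % M = b ↔ n ≡ b [MOD M] := by
  unfold Nat.ModEq
  rw [Nat.mod_eq_of_lt hb]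

theorem res_main {M : ℕ} (hM : 0 < M) {N : ℕ} (hN : 1 ≤ N) {e : ℝ} (he : 0 < e) : ∀ᶠ m : ℕ in atTop, ∀ J : ℕ,
    |∑ n ∈ Finset.Ioc (RLC.win N m) (RLC.win N (m + 1)), RLC.th n * RR M J n -
      cM M (J + 1) * ((RLC.win N (m + 1) : ℝ) - RLC.win N m)| ≤
      e * cM M (J + 1) * ((RLC.win N (m + 1) : ℝ) - RLC.win N m) := by
  classical
  have hM' : (0 : ℝ) < M := by exact_mod_cast hM
  have ht : (0 : ℝ) < (Nat.totient M : ℝ) := by exact_mod_cast Nat.totient_pos.mpr hM
  obtain ⟨hT, hmono, -, -, -⟩ := RLC.win_facts hN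
  filter_upwards [pnt_win hM hN (div_pos he ht), hT.eventually_ge_atTop M] with m h1 h2 J
  set Y := RLC.win N m with hY
  set Y' := RLC.win N (m + 1) with hY'
  set D : ℝ := (Y' : ℝ) - Y with hD
  have hD0 : 0 ≤ D := by
    have : Y ≤ Y' := hmono (Nat.le_succ m)
    have h3 : (Y : ℝ) ≤ Y' := by exact_mod_cast this
    rw [hD]
    linarith
  set S : ℕ → ℝ := fun b => ∑ n ∈ (Finset.Ioc Y Y').filter (fun n => n ≡ b [MOD M]), RLC.th n with hS
  -- decomposition in residue classes
  have h3 : ∑ n ∈ Finset.Ioc Y Y', RLC.th n * RR M J n =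
      ∑ b ∈ Finset.range M, RR M J b * S b := by
    rw [← Finset.sum_fiberwise_of_maps_to (s := Finset.Ioc Y Y') (t := Finset.range M) (g := fun n => n % M)
      (fun n _ => Finset.mem_range.mpr (Nat.mod_lt n hM))]
    refine Finset.sum_congr rfl fun b hb => ?_
    rw [hS]
    dsimp only
    rw [Finset.mul_sum]
    refine Finset.sum_congr ?_ fun n hn => ?_
    · ext n
      rw [Finset.mem_filter, Finset.mem_filter, ResM_mod (Finset.mem_range.mp hb)]
    · rw [Finset.mem_filter] at hn
      rw [RR_mod hn.2 J, mul_comm]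
  -- classes which are not coprime to M
  have h4 : ∑ b ∈ Finset.range M, RR M J b * S b =
      ∑ b ∈ (Finset.range M).filter (fun b => b.Coprime M), RR M J b * S b := by
    rw [Finset.sum_filter]
    refine Finset.sum_congr rfl fun b hb => ?_
    by_cases hc : b.Coprime M
    · rw [if_pos hc]
    · rw [if_neg hc]
      have h5 : S b = 0 := by
        rw [hS]
        dsimp only
        refine Finset.sum_eq_zero fun n hn => ?_
        rw [Finset.mem_filter, Finset.mem_Ioc] at hn
        unfold RLC.th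
        rw [if_neg]
        intro hp
        apply hc
        have h6 : n.Coprime M := (Nat.Prime.coprime_iff_not_dvd hp).mpr fun hd => by
          have := Nat.le_of_dvd hM hd
          omega
        have h7 : Nat.gcd n M = Nat.gcd b M := Nat.ModEq.gcd_eq hn.2
        unfold Nat.Coprime at h6 ⊢
        rw [← h7]
        exact h6
      rw [h5, mul_zero]
  rw [h3, h4]
  have h5 : cM M (J + 1) * D = ∑ b ∈ (Finset.range M).filter (fun b => b.Coprime M),
      RR M J b * (D / (Nat.totient M : ℝ)) := by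
    rw [← Finset.sum_mul, ResM_sum hM]
    field_simp
  rw [h5, ← Finset.sum_sub_distrib]
  calc |∑ b ∈ (Finset.range M).filter (fun b => b.Coprime M),
        (RR M J b * S b - RR M J b * (D / (Nat.totient M : ℝ)))|
      ≤ ∑ b ∈ (Finset.range M).filter (fun b => b.Coprime M),
        |RR M J b * S b - RR M J b * (D / (Nat.totient M : ℝ))| := Finset.abs_sum_le_sum_abs _ _
    _ ≤ ∑ b ∈ (Finset.range M).filter (fun b => b.Coprime M),
        RR M J b * (e / (Nat.totient M : ℝ) * D) := by
        refine Finset.sum_le_sum fun b hb => ?_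
        rw [Finset.mem_filter] at hb
        rw [← mul_sub, abs_mul, abs_of_nonneg (RR_nonneg M J b)]
        exact mul_le_mul_of_nonneg_left (h1 b hb.2) (RR_nonneg M J b)
    _ = e * cM M (J + 1) * D := by
        rw [← Finset.sum_mul, ResM_sum hM]
        field_simp

end RAF
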