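import Pool.Agent.RAF.SplitB
import Pool.Agent.AMC.TailH

/-!
# RAF.ShortS: primes in short Gaussian windows, the error is the sum of a small part and a part with a power saving in `L²`

PROOF. `κ1` from `DB_split`, `κ = κ1/2`. Let `T = exp(L/2)`, `μ̂1 - μ̂2 = DB M b L` is the difference of the transforms of the measures in `Pool/Agent/ASC/ShortC.lean` (`ASC.short_ms`). Fourier inversion for Gaussians:
`exp(-(x-u)²/(2δ²)) = (δ/√(2π)) ∫ exp(-δ²τ²/2) exp(-iτ(x-u)) dτ`, so (Fubini, `ASC.PB_triv`)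
`FB M b δ L u - MM δ L u/φ(M) = (δ/√(2π)) ∫ exp(-δ²τ²/2) DB M b L τ exp(iτu) dτ`. With `Db` from `DB_split (A)` (set to `0` outside of `[-T, T]`) this is
`S1 u + S2 u`, `S1 u = (δ/√(2π)) ∫_{|τ|≤T} exp(-δ²τ²/2) Db τ exp(iτu) dτ`, `|S1 u| ≤ δ L^(-A)`. `S2` is the transform of `q(τ) = exp(-δ²τ²/2) (DB M b L τ - 1[|τ| ≤ T] Db τ)`, which is in
`L¹ ∩ L²`: Plancherel (`AMC.four_sq`; replace `τ` by `-τ`): `∫ |S2|² = δ² ∫ |q|² ≤ δ² (exp(-κ1 L) + ∫_{|τ|>T} exp(-δ²τ²) C (1+L)^12 dτ) ≤ 2 δ² exp(-κ1 L) ≤ δ² exp(-κL)`, the tail is tiny since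
`δ T ≥ exp(εL)`. `S = Re S2` (the left side is real). It is measurable (a Fourier integral of an integrable function is continuous).
(The constants for the finitely many classes `b % M`: `PB`, `FB`, `DB` depend only on `b` modulo `M`; the `L0` of `DB_split` is uniform anyway, but the constant of `ASC.PB_triv` is for one `b`.)
-/

namespace RAF

open MeasureTheory ArithmeticFunction ASI

private noncomputable def ShortS_w (M b : ℕ) (L : ℝ) (n : ℕ) : ℝ :=
  if n ≡ b [MOD M] then vonMangoldt n / n * ps L (Real.log n) else 0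

private theorem ShortS_w_le (M b : ℕ) (L : ℝ) (n : ℕ) :
    ShortS_w M b L n ≤ vonMangoldt n / n * ps L (Real.log n) := by
  unfold ShortS_w
  split_ifs
  · exact le_rfl
  · unfold ps
    have := @vonMangoldt_nonneg n
    positivity

private theorem ShortS_w_nonneg (M b : ℕ) (L : ℝ) (n : ℕ) : 0 ≤ ShortS_w M b L n := by
  unfold ShortS_w ps
  have := @vonMangoldt_nonneg n
  split_ifs
  · positivity
  · exact le_rfl

private theorem ShortS_w_summable (M b : ℕ) (L : ℝ) : Summable (ShortS_w M b L) := by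
  obtain ⟨C, _, hC⟩ := div_gauss
  refine Summable.of_nonneg_of_le (ShortS_w_nonneg M b L) ?_ (hC L).1
  intro n
  refine (ShortS_w_le M b L n).trans ?_
  rcases Nat.eq_zero_or_pos n with rfl | hn
  · simp
  have hn1 : (1 : ℝ) ≤ n := by exact_mod_cast hn
  have hlog : 0 ≤ Real.log n := Real.log_nonneg hn1
  have h1 : vonMangoldt n ≤ Real.log n := vonMangoldt_le_log
  have h2 : (1 : ℝ) ≤ (n.divisors.card : ℝ) := by
    have : 0 < n.divisors.card := Finset.card_pos.2 ⟨1, by simp [hn.ne']⟩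
    exact_mod_cast this
  have h3 : vonMangoldt n ≤ (n.divisors.card : ℝ) ^ 2 * (1 + Real.log n) ^ 2 := by
    have h4 : Real.log n ≤ (1 + Real.log n) ^ 2 := by nlinarith
    have h5 : (1 + Real.log n) ^ 2 ≤ (n.divisors.card : ℝ) ^ 2 * (1 + Real.log n) ^ 2 := by
      have : (1 : ℝ) ≤ (n.divisors.card : ℝ) ^ 2 := by nlinarith
      nlinarith [sq_nonneg (1 + Real.log n)]
    linarith
  have h6 : ps L (Real.log n) ≤ Real.exp (-(Real.log n - L) ^ 2 / 16) := by
    unfold ps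
    apply Real.exp_le_exp.2
    nlinarith [sq_nonneg (Real.log n - L)]
  apply mul_le_mul _ h6 (by unfold ps; positivity) (by positivity)
  gcongr

private noncomputable def ShortS_mu1 (M b : ℕ) (L : ℝ) : Measure ℝ :=
  Measure.sum fun n : ℕ => ENNReal.ofReal (ShortS_w M b L n) • Measure.dirac (Real.log n)

private noncomputable def ShortS_mu2 (M : ℕ) (L : ℝ) : Measure ℝ :=
  volume.withDensity fun x => ENNReal.ofReal (ps L x / (Nat.totient M : ℝ))

private theorem ShortS_ps_int (L : ℝ) : Integrable (ps L) := by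
  have h := (integrable_exp_neg_mul_sq (b := 1 / 8) (by norm_num)).comp_sub_right L
  refine h.congr (ae_of_all _ fun x => ?_)
  simp only [ps]
  congr 1
  ring

private instance ShortS_fin1 (M b : ℕ) (L : ℝ) : IsFiniteMeasure (ShortS_mu1 M b L) := by
  constructor
  unfold ShortS_mu1
  rw [Measure.sum_apply _ MeasurableSet.univ]
  simp only [Measure.smul_apply, measure_univ, smul_eq_mul, mul_one]
  rw [← ENNReal.ofReal_tsum_of_nonneg (ShortS_w_nonneg M b L) (ShortS_w_summable M b L)]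
  exact ENNReal.ofReal_lt_top

private instance ShortS_fin2 (M : ℕ) (L : ℝ) : IsFiniteMeasure (ShortS_mu2 M L) := by
  unfold ShortS_mu2
  exact isFiniteMeasure_withDensity_ofReal ((ShortS_ps_int L).div_const _).2

private theorem ShortS_integral1 {E : Type*} [NormedAddCommGroup E] [NormedSpace ℝ E]
    [CompleteSpace E] (M b : ℕ) (L : ℝ) {f : ℝ → E} (hf : Integrable f (ShortS_mu1 M b L)) :
    ∫ x, f x ∂(ShortS_mu1 M b L) = ∑' n : ℕ, ShortS_w M b L n • f (Real.log n) := by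
  unfold ShortS_mu1 at hf ⊢
  rw [integral_sum_measure hf]
  refine tsum_congr fun n => ?_
  rw [integral_smul_measure, integral_dirac, ENNReal.toReal_ofReal (ShortS_w_nonneg M b L n)]

private theorem ShortS_integral2 {E : Type*} [NormedAddCommGroup E] [NormedSpace ℝ E]
    (M : ℕ) (L : ℝ) (f : ℝ → E) :
    ∫ x, f x ∂(ShortS_mu2 M L) = ∫ x, (ps L x / (Nat.totient M : ℝ)) • f x := by
  unfold ShortS_mu2
  have hm : Measurable (fun x => ps L x / (Nat.totient M : ℝ)) := by unfold ps; fun_prop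
  rw [integral_withDensity_eq_integral_toReal_smul hm.ennreal_ofReal
    (ae_of_all _ fun x => ENNReal.ofReal_lt_top)]
  refine integral_congr_ae (ae_of_all _ fun x => ?_)
  simp only
  rw [ENNReal.toReal_ofReal (show 0 ≤ ps L x / (Nat.totient M : ℝ) from
    div_nonneg (Real.exp_pos _).le (Nat.cast_nonneg _))]

private theorem ShortS_int_real (μ : Measure ℝ) [IsFiniteMeasure μ] (δ u : ℝ) :
    Integrable (fun x => Real.exp (-(x - u) ^ 2 / (2 * δ ^ 2))) μ := by
  refine Integrable.mono' (integrable_const (1 : ℝ)) (by fun_prop) (ae_of_all _ fun x => ?_)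
  rw [Real.norm_eq_abs, abs_of_pos (Real.exp_pos _)]
  apply Real.exp_le_one_iff.2
  have : 0 ≤ (x - u) ^ 2 / (2 * δ ^ 2) := by positivity
  rw [neg_div]
  linarith

private theorem ShortS_int_cplx (μ : Measure ℝ) [IsFiniteMeasure μ] (τ : ℝ) :
    Integrable (fun x : ℝ => Complex.exp (-(τ * x * Complex.I))) μ := by
  refine Integrable.mono' (integrable_const (1 : ℝ)) (by fun_prop) (ae_of_all _ fun x => ?_)
  rw [Complex.norm_exp]
  simp

private theorem ShortS_FF_eq (M b : ℕ) (δ L u : ℝ) :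
    ASC.FB M b δ L u = ∫ x, Real.exp (-(x - u) ^ 2 / (2 * δ ^ 2)) ∂(ShortS_mu1 M b L) := by
  rw [ShortS_integral1 M b L (ShortS_int_real _ δ u)]
  unfold ASC.FB
  refine tsum_congr fun n => ?_
  unfold ShortS_w
  split_ifs
  · rfl
  · rw [zero_smul]

private theorem ShortS_MM_eq (M : ℕ) (δ L u : ℝ) :
    MM δ L u / (Nat.totient M : ℝ) =
      ∫ x, Real.exp (-(x - u) ^ 2 / (2 * δ ^ 2)) ∂(ShortS_mu2 M L) := by
  rw [ShortS_integral2 M L]
  unfold MM
  rw [← integral_div]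
  refine integral_congr_ae (ae_of_all _ fun x => ?_)
  simp only [smul_eq_mul]
  ring

private theorem ShortS_P_eq (M b : ℕ) (L τ : ℝ) :
    ASC.PB M b L τ = ∫ x : ℝ, Complex.exp (-(τ * x * Complex.I)) ∂(ShortS_mu1 M b L) := by
  rw [ShortS_integral1 M b L (ShortS_int_cplx _ τ)]
  unfold ASC.PB
  refine tsum_congr fun n => ?_
  unfold ShortS_w
  by_cases hnb : n ≡ b [MOD M]
  swap
  · rw [if_neg hnb, if_neg hnb, zero_smul]
  rw [if_pos hnb, if_pos hnb]
  rcases Nat.eq_zero_or_pos n with rfl | hn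
  · simp
  have hn0 : (n : ℂ) ≠ 0 := by exact_mod_cast hn.ne'
  have h1 : np n τ = (1 / (n : ℂ)) * Complex.exp (-(τ * (Real.log n : ℝ) * Complex.I)) := by
    unfold np
    rw [Complex.cpow_def_of_ne_zero hn0]
    have h2 : Complex.log (n : ℂ) * -(1 + τ * Complex.I) =
        -Complex.log (n : ℂ) + -(τ * (Real.log n : ℝ) * Complex.I) := by
      rw [Complex.ofReal_log (by positivity), Complex.ofReal_natCast]
      ring
    rw [h2, Complex.exp_add, Complex.exp_neg, Complex.exp_log hn0, one_div]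
  rw [h1, Complex.real_smul]
  push_cast
  ring

private theorem ShortS_mainT_eq0 (L τ : ℝ) :
    mainT L τ = ∫ x : ℝ, ps L x • Complex.exp (-(τ * x * Complex.I)) := by
  have h1 : ∀ x : ℝ, ps L x • Complex.exp (-(τ * x * Complex.I)) =
      Complex.exp ((-(1 / 8) : ℂ) * (x : ℂ) ^ 2 + ((L : ℂ) / 4 - τ * Complex.I) * x +
        (-(L : ℂ) ^ 2 / 8)) := by
    intro x
    rw [Complex.real_smul]
    unfold ps
    rw [Complex.ofReal_exp, ← Complex.exp_add]
    congr 1
    push_cast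
    ring
  simp only [h1]
  rw [integral_cexp_quadratic (by norm_num)]
  unfold mainT
  have h2 : ((Real.pi : ℂ) / -(-(1 / 8))) ^ (1 / 2 : ℂ) = (Real.sqrt (8 * Real.pi) : ℝ) := by
    rw [Real.sqrt_eq_rpow, Complex.ofReal_cpow (by positivity)]
    congr 1
    · push_cast
      ring
    · push_cast
      ring
  rw [h2, mul_assoc, Complex.ofReal_exp, ← Complex.exp_add]
  congr 2
  push_cast
  ring_nf
  rw [Complex.I_sq]
  ring

private theorem ShortS_mainT_eq (M : ℕ) (L τ : ℝ) :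
    mainT L τ / (Nat.totient M : ℂ) =
      ∫ x : ℝ, Complex.exp (-(τ * x * Complex.I)) ∂(ShortS_mu2 M L) := by
  rw [ShortS_integral2 M L, ShortS_mainT_eq0, ← integral_div]
  refine integral_congr_ae (ae_of_all _ fun x => ?_)
  simp only [Complex.real_smul]
  push_cast
  ring

private theorem ShortS_cont (μ : Measure ℝ) [IsFiniteMeasure μ] (δ : ℝ) :
    Continuous fun u : ℝ => ∫ x, Real.exp (-(x - u) ^ 2 / (2 * δ ^ 2)) ∂μ := by
  refine continuous_of_dominated (bound := fun _ => (1 : ℝ)) ?_ ?_ (integrable_const _) ?_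
  · intro u
    exact (ShortS_int_real μ δ u).aestronglyMeasurable
  · intro u
    refine ae_of_all _ fun x => ?_
    rw [Real.norm_eq_abs, abs_of_pos (Real.exp_pos _)]
    apply Real.exp_le_one_iff.2
    have : 0 ≤ (x - u) ^ 2 / (2 * δ ^ 2) := by positivity
    rw [neg_div]
    linarith
  · exact ae_of_all _ fun x => by fun_prop

private theorem ShortS_mainT_norm0 (L τ : ℝ) : ‖mainT L τ‖ ≤ 6 := by
  unfold mainT
  rw [norm_mul, norm_mul, Complex.norm_exp, Complex.norm_real, Complex.norm_real,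
    Real.norm_eq_abs, Real.norm_eq_abs, abs_of_nonneg (Real.sqrt_nonneg _),
    abs_of_pos (Real.exp_pos _)]
  have h1 : Real.sqrt (8 * Real.pi) ≤ 6 := by
    rw [Real.sqrt_le_left (by norm_num)]
    nlinarith [Real.pi_le_four]
  have h2 : Real.exp (-2 * τ ^ 2) ≤ 1 := by
    apply Real.exp_le_one_iff.2
    nlinarith [sq_nonneg τ]
  have h3 : Real.exp ((-(τ * L * Complex.I) : ℂ)).re = 1 := by simp
  rw [h3, mul_one]
  calc Real.sqrt (8 * Real.pi) * Real.exp (-2 * τ ^ 2) ≤ 6 * 1 := by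
        apply mul_le_mul h1 h2 (Real.exp_pos _).le (by norm_num)
    _ = 6 := by norm_num

private theorem ShortS_mainT_norm {M : ℕ} (hM : 0 < M) (L τ : ℝ) :
    ‖mainT L τ / (Nat.totient M : ℂ)‖ ≤ 6 := by
  have hφ : (1 : ℝ) ≤ Nat.totient M := by
    exact_mod_cast Nat.totient_pos.2 hM
  rw [norm_div, Complex.norm_natCast]
  exact (div_le_self (norm_nonneg _) hφ).trans (ShortS_mainT_norm0 L τ)

private theorem ShortS_mainT_cont (L : ℝ) : Continuous (mainT L) := by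
  unfold mainT
  fun_prop


private noncomputable def ShortS_gH (μ : Measure ℝ) (τ : ℝ) : ℂ :=
  ∫ x, Complex.exp (-(τ * x * Complex.I)) ∂μ

private theorem ShortS_B1 {δ : ℝ} (hδ : 0 < δ) (x u : ℝ) :
    ∫ τ : ℝ, (Real.exp (-(δ ^ 2 / 2 * τ ^ 2)) : ℂ) * (Complex.exp (-(τ * x * Complex.I)) *
      Complex.exp (τ * u * Complex.I)) =
    ((Real.sqrt (2 * Real.pi) / δ * Real.exp (-(x - u) ^ 2 / (2 * δ ^ 2)) : ℝ) : ℂ) := by
  have hb : 0 < ((δ ^ 2 / 2 : ℝ) : ℂ).re := by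
    rw [Complex.ofReal_re]; positivity
  have h1 := fourierIntegral_gaussian hb ((u - x : ℝ) : ℂ)
  have e1 : (fun τ : ℝ => (Real.exp (-(δ ^ 2 / 2 * τ ^ 2)) : ℂ) *
      (Complex.exp (-(τ * x * Complex.I)) * Complex.exp (τ * u * Complex.I))) =
      fun τ : ℝ => Complex.exp (Complex.I * ((u - x : ℝ) : ℂ) * τ) *
        Complex.exp (-((δ ^ 2 / 2 : ℝ) : ℂ) * (τ : ℂ) ^ 2) := by
    funext τ
    rw [← Complex.exp_add, ← Complex.exp_add, Complex.ofReal_exp, ← Complex.exp_add]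
    congr 1
    push_cast
    ring
  rw [e1, h1]
  have e2 : ((Real.pi : ℂ) / ((δ ^ 2 / 2 : ℝ) : ℂ)) ^ (1 / 2 : ℂ) =
      ((Real.sqrt (2 * Real.pi) / δ : ℝ) : ℂ) := by
    rw [← Complex.ofReal_div, show (1 / 2 : ℂ) = ((1 / 2 : ℝ) : ℂ) by push_cast; ring,
      ← Complex.ofReal_cpow (by positivity), ← Real.sqrt_eq_rpow,
      show Real.pi / (δ ^ 2 / 2) = 2 * Real.pi / δ ^ 2 by field_simp,
      Real.sqrt_div (by positivity), Real.sqrt_sq hδ.le]
  rw [e2]
  have e3 : -((u - x : ℝ) : ℂ) ^ 2 / (4 * ((δ ^ 2 / 2 : ℝ) : ℂ)) =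
      ((-(x - u) ^ 2 / (2 * δ ^ 2) : ℝ) : ℂ) := by
    push_cast
    rw [show (4 : ℂ) * ((δ : ℂ) ^ 2 / 2) = 2 * (δ : ℂ) ^ 2 by ring]
    ring
  rw [e3, ← Complex.ofReal_exp, ← Complex.ofReal_mul]

private theorem ShortS_norm (a b : ℝ) : ‖Complex.exp (-(a * b * Complex.I))‖ = 1 := by
  rw [show -((a : ℂ) * b * Complex.I) = ((-(a * b) : ℝ) : ℂ) * Complex.I by push_cast; ring]
  exact Complex.norm_exp_ofReal_mul_I _

private theorem ShortS_norm2 (a b : ℝ) : ‖Complex.exp (a * b * Complex.I)‖ = 1 := by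
  rw [show ((a : ℂ) * b * Complex.I) = ((a * b : ℝ) : ℂ) * Complex.I by push_cast; ring]
  exact Complex.norm_exp_ofReal_mul_I _

private theorem ShortS_gauss {δ : ℝ} (hδ : 0 < δ) :
    Integrable (fun τ : ℝ => Real.exp (-(δ ^ 2 / 2 * τ ^ 2))) := by
  have := integrable_exp_neg_mul_sq (by positivity : (0 : ℝ) < δ ^ 2 / 2)
  simpa only [neg_mul] using this

private theorem ShortS_B2 (μ : Measure ℝ) [IsFiniteMeasure μ] {δ : ℝ} (hδ : 0 < δ) (u : ℝ) :
    Integrable (fun p : ℝ × ℝ => (Real.exp (-(δ ^ 2 / 2 * p.1 ^ 2)) : ℂ) *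
      (Complex.exp (-(p.1 * p.2 * Complex.I)) * Complex.exp (p.1 * u * Complex.I)))
      (volume.prod μ) := by
  have h1 : Integrable (fun p : ℝ × ℝ => Real.exp (-(δ ^ 2 / 2 * p.1 ^ 2)) * (1 : ℝ))
      (volume.prod μ) := (ShortS_gauss hδ).mul_prod (integrable_const (1 : ℝ))
  refine h1.mono' ?_ ?_
  · apply Continuous.aestronglyMeasurable
    refine Continuous.mul ?_ (Continuous.mul ?_ ?_)
    · exact Complex.continuous_ofReal.comp (by fun_prop)
    · fun_prop
    · fun_prop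
  · refine Filter.Eventually.of_forall (fun p => ?_)
    rw [norm_mul, norm_mul, ShortS_norm, ShortS_norm2, Complex.norm_real,
      Real.norm_of_nonneg (Real.exp_pos _).le]
    simp

private theorem ShortS_inv (μ : Measure ℝ) [IsFiniteMeasure μ] {δ : ℝ} (hδ : 0 < δ) (u : ℝ) :
    Integrable (fun τ : ℝ => (Real.exp (-(δ ^ 2 / 2 * τ ^ 2)) : ℂ) *
      (ShortS_gH μ τ * Complex.exp (τ * u * Complex.I))) ∧
    ∫ τ : ℝ, (Real.exp (-(δ ^ 2 / 2 * τ ^ 2)) : ℂ) *
      (ShortS_gH μ τ * Complex.exp (τ * u * Complex.I)) =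
    ((Real.sqrt (2 * Real.pi) / δ * ∫ x, Real.exp (-(x - u) ^ 2 / (2 * δ ^ 2)) ∂μ : ℝ) : ℂ) := by
  have e1 : (fun τ : ℝ => (Real.exp (-(δ ^ 2 / 2 * τ ^ 2)) : ℂ) *
      (ShortS_gH μ τ * Complex.exp (τ * u * Complex.I))) =
      fun τ : ℝ => ∫ x : ℝ, (Real.exp (-(δ ^ 2 / 2 * τ ^ 2)) : ℂ) *
        (Complex.exp (-(τ * x * Complex.I)) * Complex.exp (τ * u * Complex.I)) ∂μ := by
    funext τ
    rw [integral_const_mul, integral_mul_const]
    rfl
  have h2 := ShortS_B2 μ hδ u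
  rw [e1]
  refine ⟨h2.integral_prod_left, ?_⟩
  have h3 := integral_integral_swap (f := fun (τ : ℝ) (x : ℝ) =>
    (Real.exp (-(δ ^ 2 / 2 * τ ^ 2)) : ℂ) *
      (Complex.exp (-(τ * x * Complex.I)) * Complex.exp (τ * u * Complex.I)))
    (μ := volume) (ν := μ) h2
  rw [h3, ← integral_const_mul, ← integral_complex_ofReal]
  refine integral_congr_ae (Filter.Eventually.of_forall (fun x => ?_))
  exact ShortS_B1 hδ x u

/-- Fourier inversion for the difference. -/
private theorem ShortS_FM (M b : ℕ) {δ : ℝ} (hδ : 0 < δ) (L u : ℝ) :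
    ((ASC.FB M b δ L u - MM δ L u / (Nat.totient M : ℝ) : ℝ) : ℂ) =
      ((δ / Real.sqrt (2 * Real.pi) : ℝ) : ℂ) * ∫ τ : ℝ, (Real.exp (-(δ ^ 2 / 2 * τ ^ 2)) : ℂ) *
      (DB M b L τ * Complex.exp (τ * u * Complex.I)) := by
  obtain ⟨i1, v1⟩ := ShortS_inv (ShortS_mu1 M b L) hδ u
  obtain ⟨i2, v2⟩ := ShortS_inv (ShortS_mu2 M L) hδ u
  have e1 : (fun τ : ℝ => (Real.exp (-(δ ^ 2 / 2 * τ ^ 2)) : ℂ) *
      (DB M b L τ * Complex.exp (τ * u * Complex.I))) = fun τ : ℝ =>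
      (Real.exp (-(δ ^ 2 / 2 * τ ^ 2)) : ℂ) *
        (ShortS_gH (ShortS_mu1 M b L) τ * Complex.exp (τ * u * Complex.I)) -
      (Real.exp (-(δ ^ 2 / 2 * τ ^ 2)) : ℂ) *
        (ShortS_gH (ShortS_mu2 M L) τ * Complex.exp (τ * u * Complex.I)) := by
    funext τ
    unfold DB
    rw [ShortS_P_eq, ShortS_mainT_eq]
    unfold ShortS_gH
    ring
  rw [e1, integral_sub i1 i2, v1, v2, ShortS_FF_eq, ShortS_MM_eq, ← Complex.ofReal_sub,
    ← Complex.ofReal_mul]
  congr 1
  have h2 : Real.sqrt (2 * Real.pi) ≠ 0 := by positivity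
  field_simp

private theorem ShortS_PB_mod (M b : ℕ) (L τ : ℝ) : ASC.PB M b L τ = ASC.PB M (b % M) L τ := by
  unfold ASC.PB
  refine tsum_congr fun n => ?_
  have h : (n ≡ b [MOD M]) ↔ (n ≡ b % M [MOD M]) := by
    unfold Nat.ModEq
    rw [Nat.mod_mod]
  simp only [h]

/-- A bound for `DB`, uniform in the class. -/
private theorem ShortS_DB_le {M : ℕ} (hM : 0 < M) : ∃ C : ℝ, 1 ≤ C ∧ ∀ (b : ℕ) (L τ : ℝ), 0 ≤ L →
    ‖DB M b L τ‖ ≤ C * (1 + L) ^ 6 := by
  choose C hC1 hC using fun b => ASC.PB_triv M b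
  have hS : ∀ b ∈ Finset.range M, C b ≤ ∑ b ∈ Finset.range M, C b := fun b hb =>
    Finset.single_le_sum (f := C) (fun i _ => by linarith [hC1 i]) hb
  refine ⟨∑ b ∈ Finset.range M, C b + 6, ?_, ?_⟩
  · have : 0 ≤ ∑ b ∈ Finset.range M, C b := Finset.sum_nonneg fun i _ => by linarith [hC1 i]
    linarith
  intro b L τ hL
  have h1 : ‖ASC.PB M b L τ‖ ≤ C (b % M) * (1 + L) ^ 6 := by
    rw [ShortS_PB_mod]
    have := hC (b % M) L τ
    rwa [abs_of_nonneg hL] at this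
  have h2 := hS (b % M) (Finset.mem_range.2 (Nat.mod_lt _ hM))
  have h3 : (1 : ℝ) ≤ (1 + L) ^ 6 := one_le_pow₀ (by linarith)
  unfold DB
  calc ‖ASC.PB M b L τ - mainT L τ / (Nat.totient M : ℂ)‖
      ≤ ‖ASC.PB M b L τ‖ + ‖mainT L τ / (Nat.totient M : ℂ)‖ := norm_sub_le _ _
    _ ≤ C (b % M) * (1 + L) ^ 6 + 6 := add_le_add h1 (ShortS_mainT_norm hM L τ)
    _ ≤ (∑ b ∈ Finset.range M, C b + 6) * (1 + L) ^ 6 := by nlinarith

private theorem ShortS_DB_cont (M b : ℕ) (L : ℝ) : Continuous (DB M b L) := by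
  unfold DB
  exact (ASC.PB_cont M b L).sub ((ShortS_mainT_cont L).div_const _)

/-- The elementary part: the tail in `τ`. -/
private theorem ShortS_small {ε κ : ℝ} (hε : 0 < ε) (K : ℝ) : ∃ L0 : ℝ, 1 ≤ L0 ∧
    ∀ L : ℝ, L0 ≤ L →
    K * (1 + L) ^ 12 * (Real.exp (-(Real.exp (2 * ε * L) / 2)) * Real.exp (L / 2)) ≤
      Real.exp (-κ * L) := by
  have h1 : Filter.Tendsto (fun L : ℝ => L ^ (12 : ℝ) * Real.exp (-1 * L)) Filter.atTop
      (nhds 0) := tendsto_rpow_mul_exp_neg_mul_atTop_nhds_zero _ _ (by norm_num)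
  have h2 : Filter.Tendsto (fun L : ℝ => |K| * 4096 * (L ^ (12 : ℝ) * Real.exp (-1 * L)))
      Filter.atTop (nhds 0) := by simpa using h1.const_mul (|K| * 4096)
  have h3 : ∀ᶠ L : ℝ in Filter.atTop,
      |K| * 4096 * (L ^ (12 : ℝ) * Real.exp (-1 * L)) < 1 :=
    h2.eventually_lt_const (by norm_num)
  have h4 : Filter.Tendsto (fun L : ℝ => L ^ (1 : ℕ) * Real.exp (-(2 * ε * L)))
      Filter.atTop (nhds 0) := by
    have := tendsto_rpow_mul_exp_neg_mul_atTop_nhds_zero 1 (2 * ε) (by positivity)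
    refine this.congr fun L => ?_
    rw [Real.rpow_one, pow_one, neg_mul]
  have h5 : ∀ᶠ L : ℝ in Filter.atTop, L ^ (1 : ℕ) * Real.exp (-(2 * ε * L)) <
      1 / (4 + 2 * |κ|) := h4.eventually_lt_const (by positivity)
  obtain ⟨L0, hL0⟩ := Filter.eventually_atTop.1 (h3.and h5)
  refine ⟨max L0 1, le_max_right _ _, fun L hL => ?_⟩
  have hL1 : 1 ≤ L := (le_max_right _ _).trans hL
  have hLp : 0 < L := by linarith
  obtain ⟨h6, h7⟩ := hL0 L ((le_max_left _ _).trans hL)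
  have h8 : (4 + 2 * |κ|) * L ≤ Real.exp (2 * ε * L) := by
    rw [pow_one, Real.exp_neg, ← div_eq_mul_inv, div_lt_div_iff₀ (Real.exp_pos _)
      (by positivity)] at h7
    linarith
  have h9 : Real.exp (-(Real.exp (2 * ε * L) / 2)) * Real.exp (L / 2) ≤
      Real.exp (-1 * L) * Real.exp (-κ * L) := by
    rw [← Real.exp_add, ← Real.exp_add]
    apply Real.exp_le_exp.2
    have h10 : κ * L ≤ |κ| * L := mul_le_mul_of_nonneg_right (le_abs_self κ) hLp.le
    nlinarith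
  have h10 : (1 + L) ^ 12 ≤ 4096 * L ^ 12 := by
    calc (1 + L) ^ 12 ≤ (2 * L) ^ 12 := by
          apply pow_le_pow_left₀ (by linarith)
          linarith
      _ = 4096 * L ^ 12 := by ring
  have h11 : L ^ (12 : ℝ) = L ^ 12 := by
    norm_cast
  have h12 : K * (1 + L) ^ 12 * (Real.exp (-(Real.exp (2 * ε * L) / 2)) * Real.exp (L / 2)) ≤
      |K| * (4096 * L ^ 12) * (Real.exp (-1 * L) * Real.exp (-κ * L)) := by
    have hKK : K ≤ |K| := le_abs_self K
    have hK0 : 0 ≤ |K| := abs_nonneg K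
    calc K * (1 + L) ^ 12 * (Real.exp (-(Real.exp (2 * ε * L) / 2)) * Real.exp (L / 2))
        ≤ |K| * (1 + L) ^ 12 * (Real.exp (-(Real.exp (2 * ε * L) / 2)) * Real.exp (L / 2)) := by
          gcongr
      _ ≤ |K| * (4096 * L ^ 12) * (Real.exp (-1 * L) * Real.exp (-κ * L)) := by
          gcongr
  refine h12.trans ?_
  rw [h11] at h6
  have h13 : |K| * (4096 * L ^ 12) * (Real.exp (-1 * L) * Real.exp (-κ * L)) =
      (|K| * 4096 * (L ^ 12 * Real.exp (-1 * L))) * Real.exp (-κ * L) := by ring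
  rw [h13]
  calc (|K| * 4096 * (L ^ 12 * Real.exp (-1 * L))) * Real.exp (-κ * L)
      ≤ 1 * Real.exp (-κ * L) := mul_le_mul_of_nonneg_right h6.le (Real.exp_pos _).le
    _ = Real.exp (-κ * L) := one_mul _

/-- A Fourier integral of an integrable function. -/
private noncomputable def ShortS_I (q : ℝ → ℂ) (u : ℝ) : ℂ :=
  ∫ τ : ℝ, q τ * Complex.exp (τ * u * Complex.I)

private theorem ShortS_I_cont (q : ℝ → ℂ) (hq : Integrable q) : Continuous (ShortS_I q) := by
  unfold ShortS_I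
  refine continuous_of_dominated (bound := fun τ => ‖q τ‖) ?_ ?_ hq.norm ?_
  · intro u
    exact hq.aestronglyMeasurable.mul (by
      apply Continuous.aestronglyMeasurable
      fun_prop)
  · intro u
    refine ae_of_all _ fun τ => ?_
    rw [norm_mul, ShortS_norm2, mul_one]
  · refine ae_of_all _ fun τ => ?_
    fun_prop

private theorem ShortS_I_int (q : ℝ → ℂ) (hq : Integrable q) (u : ℝ) :
    Integrable (fun τ : ℝ => q τ * Complex.exp (τ * u * Complex.I)) := by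
  refine hq.norm.mono' (hq.aestronglyMeasurable.mul (by
      apply Continuous.aestronglyMeasurable
      fun_prop)) (ae_of_all _ fun τ => ?_)
  rw [norm_mul, ShortS_norm2, mul_one]

private theorem ShortS_I_le (q : ℝ → ℂ) (u : ℝ) : ‖ShortS_I q u‖ ≤ ∫ τ, ‖q τ‖ := by
  unfold ShortS_I
  refine (norm_integral_le_integral_norm _).trans (le_of_eq ?_)
  refine integral_congr_ae (ae_of_all _ fun τ => ?_)
  simp only
  rw [norm_mul, ShortS_norm2, mul_one]

private theorem ShortS_I_sq (q : ℝ → ℂ) (hq : Integrable q) (hq2 : Integrable fun τ => ‖q τ‖ ^ 2) :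
    Integrable (fun u : ℝ => ‖ShortS_I q u‖ ^ 2) ∧
      ∫ u, ‖ShortS_I q u‖ ^ 2 = 2 * Real.pi * ∫ τ, ‖q τ‖ ^ 2 := by
  have h := AMC.four_sq (fun s => q (-s)) hq.comp_neg hq2.comp_neg
  have e1 : ∀ u : ℝ, ∫ s : ℝ, q (-s) * Complex.exp (-(u * s * Complex.I)) = ShortS_I q u := by
    intro u
    unfold ShortS_I
    rw [← integral_neg_eq_self (fun τ : ℝ => q τ * Complex.exp (τ * u * Complex.I))]
    refine integral_congr_ae (ae_of_all _ fun s => ?_)
    simp only
    congr 2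
    push_cast
    ring
  simp only [e1] at h
  rwa [integral_neg_eq_self (fun τ : ℝ => ‖q τ‖ ^ 2)] at h

theorem short_split {M : ℕ} (hM : 0 < M) {ε : ℝ} (hε : 0 < ε) : ∃ κ : ℝ, 0 < κ ∧ ∀ A : ℝ, ∃ L0 : ℝ, 1 ≤ L0 ∧
    ∀ b : ℕ, b.Coprime M → ∀ L δ : ℝ, L0 ≤ L → Real.exp (-(1 / 2 - ε) * L) ≤ δ → δ ≤ 1 →
    ∃ S : ℝ → ℝ, Measurable S ∧ Integrable (fun u => S u ^ 2) ∧
      (∀ u, |ASC.FB M b δ L u - ASI.MM δ L u / (Nat.totient M : ℝ) - S u| ≤ δ * L ^ (-A)) ∧
      ∫ u, S u ^ 2 ≤ δ ^ 2 * Real.exp (-κ * L) := by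
  obtain ⟨κ1, hκ1, hD⟩ := DB_split hM
  obtain ⟨C, hC1, hC⟩ := ShortS_DB_le hM
  refine ⟨κ1 / 2, by positivity, fun A => ?_⟩
  obtain ⟨L1, hL11, hL1⟩ := hD A
  obtain ⟨L2, hL21, hL2⟩ := ShortS_small (κ := κ1) hε (C ^ 2 * Real.sqrt (2 * Real.pi))
  refine ⟨max (max L1 L2) (2 / κ1), hL11.trans ((le_max_left _ _).trans (le_max_left _ _)), ?_⟩
  intro b hb L δ hL hδ hδ1
  have hLL1 : L1 ≤ L := ((le_max_left _ _).trans (le_max_left _ _)).trans hL
  have hLL2 : L2 ≤ L := ((le_max_right _ _).trans (le_max_left _ _)).trans hL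
  have hLL3 : 2 / κ1 ≤ L := (le_max_right _ _).trans hL
  have hL1' : 1 ≤ L := hL11.trans hLL1
  have hLp : 0 < L := by linarith
  have hδ0 : 0 < δ := lt_of_lt_of_le (Real.exp_pos _) hδ
  obtain ⟨Db, hDm, hDb, hD1, hD2⟩ := hL1 b hb L hLL1
  have hC' := fun τ => hC b L τ hLp.le
  set T : ℝ := Real.exp (L / 2) with hT
  have hTp : 0 < T := Real.exp_pos _
  set s : Set ℝ := Set.Icc (-T) T with hs
  have hsm : MeasurableSet s := measurableSet_Icc
  have hsc : IsCompact s := isCompact_Icc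
  set B : ℝ := C * (1 + L) ^ 6 with hB
  have hB0 : 0 ≤ B := by positivity
  have hind : ∀ τ, ‖s.indicator Db τ‖ ≤ Real.exp L := by
    intro τ
    by_cases h : τ ∈ s
    · rw [Set.indicator_of_mem h]
      exact hDb τ
    · rw [Set.indicator_of_notMem h, norm_zero]
      exact (Real.exp_pos _).le
  have hindm : Measurable (s.indicator Db) := hDm.indicator hsm
  have hG := ShortS_gauss hδ0
  have hGc : Measurable fun τ : ℝ => (Real.exp (-(δ ^ 2 / 2 * τ ^ 2)) : ℂ) := by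
    apply Continuous.measurable
    exact Complex.continuous_ofReal.comp (by fun_prop)
  have hGn : ∀ τ : ℝ, ‖(Real.exp (-(δ ^ 2 / 2 * τ ^ 2)) : ℂ)‖ = Real.exp (-(δ ^ 2 / 2 * τ ^ 2)) := by
    intro τ
    rw [Complex.norm_real, Real.norm_of_nonneg (Real.exp_pos _).le]
  have hG1 : ∀ τ : ℝ, Real.exp (-(δ ^ 2 / 2 * τ ^ 2)) ≤ 1 := by
    intro τ
    apply Real.exp_le_one_iff.2
    have : 0 ≤ δ ^ 2 / 2 * τ ^ 2 := by positivity
    linarith
  set r : ℝ → ℂ := fun τ => (Real.exp (-(δ ^ 2 / 2 * τ ^ 2)) : ℂ) * s.indicator Db τ with hr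
  set q : ℝ → ℂ := fun τ => (Real.exp (-(δ ^ 2 / 2 * τ ^ 2)) : ℂ) *
    (DB M b L τ - s.indicator Db τ) with hq
  have hrm : Measurable r := hGc.mul hindm
  have hDBm : Measurable (DB M b L) := (ShortS_DB_cont M b L).measurable
  have hqm : Measurable q := hGc.mul (hDBm.sub hindm)
  have hrb : ∀ τ, ‖r τ‖ ≤ Real.exp L * Real.exp (-(δ ^ 2 / 2 * τ ^ 2)) := by
    intro τ
    rw [hr]
    simp only
    rw [norm_mul, hGn, mul_comm]
    exact mul_le_mul_of_nonneg_right (hind τ) (Real.exp_pos _).le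
  have hqb0 : ∀ τ, ‖DB M b L τ - s.indicator Db τ‖ ≤ B + Real.exp L := fun τ =>
    (norm_sub_le _ _).trans (add_le_add (hC' τ) (hind τ))
  have hqb : ∀ τ, ‖q τ‖ ≤ (B + Real.exp L) * Real.exp (-(δ ^ 2 / 2 * τ ^ 2)) := by
    intro τ
    rw [hq]
    simp only
    rw [norm_mul, hGn, mul_comm]
    exact mul_le_mul_of_nonneg_right (hqb0 τ) (Real.exp_pos _).le
  have hri : Integrable r := (hG.const_mul (Real.exp L)).mono' hrm.aestronglyMeasurable
    (ae_of_all _ hrb)
  have hqi : Integrable q := (hG.const_mul (B + Real.exp L)).mono' hqm.aestronglyMeasurable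
    (ae_of_all _ hqb)
  have hKp : 0 ≤ B + Real.exp L := add_nonneg hB0 (Real.exp_pos _).le
  have hq2 : Integrable fun τ => ‖q τ‖ ^ 2 := by
    refine (hG.const_mul ((B + Real.exp L) ^ 2)).mono' (hqm.norm.pow_const 2).aestronglyMeasurable
      (ae_of_all _ fun τ => ?_)
    rw [Real.norm_of_nonneg (by positivity)]
    have h1 := pow_le_pow_left₀ (norm_nonneg _) (hqb τ) 2
    refine h1.trans ?_
    rw [mul_pow]
    refine mul_le_mul_of_nonneg_left ?_ (by positivity)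
    have h2 := hG1 τ
    have h3 := (Real.exp_pos (-(δ ^ 2 / 2 * τ ^ 2))).le
    nlinarith
  set c : ℝ := δ / Real.sqrt (2 * Real.pi) with hc
  have hsq : (1 : ℝ) ≤ Real.sqrt (2 * Real.pi) := by
    rw [Real.one_le_sqrt]
    linarith [Real.pi_gt_three]
  have hc0 : 0 ≤ c := by positivity
  have hcδ : c ≤ δ := div_le_self hδ0.le hsq
  have hF : ∀ u, ((ASC.FB M b δ L u - MM δ L u / (Nat.totient M : ℝ) : ℝ) : ℂ) =
      (c : ℂ) * (ShortS_I r u + ShortS_I q u) := by
    intro u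
    rw [ShortS_FM M b hδ0 L u]
    congr 1
    unfold ShortS_I
    rw [← integral_add (ShortS_I_int r hri u) (ShortS_I_int q hqi u)]
    refine integral_congr_ae (ae_of_all _ fun τ => ?_)
    simp only [hr, hq]
    ring
  refine ⟨fun u => ((c : ℂ) * ShortS_I q u).re, ?_, ?_, ?_, ?_⟩
  · apply Continuous.measurable
    exact Complex.continuous_re.comp (continuous_const.mul (ShortS_I_cont q hqi))
  · obtain ⟨j1, -⟩ := ShortS_I_sq q hqi hq2
    refine (j1.const_mul (c ^ 2)).mono' ?_ (ae_of_all _ fun u => ?_)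
    · apply Continuous.aestronglyMeasurable
      exact (Complex.continuous_re.comp (continuous_const.mul (ShortS_I_cont q hqi))).pow 2
    · rw [Real.norm_of_nonneg (sq_nonneg _)]
      have h1 := Complex.abs_re_le_norm ((c : ℂ) * ShortS_I q u)
      rw [norm_mul, Complex.norm_real, Real.norm_of_nonneg hc0] at h1
      calc ((c : ℂ) * ShortS_I q u).re ^ 2 = |((c : ℂ) * ShortS_I q u).re| ^ 2 := (sq_abs _).symm
        _ ≤ (c * ‖ShortS_I q u‖) ^ 2 := pow_le_pow_left₀ (abs_nonneg _) h1 2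
        _ = c ^ 2 * ‖ShortS_I q u‖ ^ 2 := by ring
  · intro u
    have h1 : ASC.FB M b δ L u - MM δ L u / (Nat.totient M : ℝ) - ((c : ℂ) * ShortS_I q u).re =
        ((c : ℂ) * ShortS_I r u).re := by
      have h2 := congrArg Complex.re (hF u)
      rw [Complex.ofReal_re, mul_add, Complex.add_re] at h2
      linarith
    rw [h1]
    refine (Complex.abs_re_le_norm _).trans ?_
    rw [norm_mul, Complex.norm_real, Real.norm_of_nonneg hc0]
    have hA : 0 ≤ L ^ (-A) := (Real.rpow_pos_of_pos hLp _).le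
    have h3 : ∫ τ, ‖r τ‖ ≤ L ^ (-A) := by
      have h4 : ∀ τ, ‖r τ‖ ≤ s.indicator (fun τ => ‖Db τ‖) τ := by
        intro τ
        rw [hr]
        simp only
        rw [norm_mul, hGn]
        by_cases h : τ ∈ s
        · rw [Set.indicator_of_mem h, Set.indicator_of_mem h]
          exact mul_le_of_le_one_left (norm_nonneg _) (hG1 τ)
        · rw [Set.indicator_of_notMem h, Set.indicator_of_notMem h, norm_zero, mul_zero]
      have h5 : IntegrableOn (fun τ => ‖Db τ‖) s := by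
        refine Measure.integrableOn_of_bounded (M := Real.exp L) hsc.measure_lt_top.ne
          hDm.norm.aestronglyMeasurable (ae_of_all _ fun τ => ?_)
        rw [Real.norm_of_nonneg (norm_nonneg _)]
        exact hDb τ
      calc ∫ τ, ‖r τ‖ ≤ ∫ τ, s.indicator (fun τ => ‖Db τ‖) τ :=
            integral_mono hri.norm ((integrable_indicator_iff hsm).2 h5) h4
        _ = ∫ τ in s, ‖Db τ‖ := integral_indicator hsm
        _ ≤ L ^ (-A) := hD1
    exact mul_le_mul hcδ ((ShortS_I_le r u).trans h3) (norm_nonneg _) hδ0.le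
  · obtain ⟨j1, j2⟩ := ShortS_I_sq q hqi hq2
    have h1 : ∫ u, ((c : ℂ) * ShortS_I q u).re ^ 2 ≤ ∫ u, c ^ 2 * ‖ShortS_I q u‖ ^ 2 := by
      refine integral_mono_of_nonneg (ae_of_all _ fun u => sq_nonneg _) (j1.const_mul _)
        (ae_of_all _ fun u => ?_)
      have h1 := Complex.abs_re_le_norm ((c : ℂ) * ShortS_I q u)
      rw [norm_mul, Complex.norm_real, Real.norm_of_nonneg hc0] at h1
      calc ((c : ℂ) * ShortS_I q u).re ^ 2 = |((c : ℂ) * ShortS_I q u).re| ^ 2 := (sq_abs _).symm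
        _ ≤ (c * ‖ShortS_I q u‖) ^ 2 := pow_le_pow_left₀ (abs_nonneg _) h1 2
        _ = c ^ 2 * ‖ShortS_I q u‖ ^ 2 := by ring
    refine h1.trans ?_
    rw [integral_const_mul, j2]
    have h2 : c ^ 2 * (2 * Real.pi * ∫ τ, ‖q τ‖ ^ 2) = δ ^ 2 * ∫ τ, ‖q τ‖ ^ 2 := by
      rw [hc, div_pow, Real.sq_sqrt (by positivity)]
      field_simp
    rw [h2]
    refine mul_le_mul_of_nonneg_left ?_ (sq_nonneg _)
    rw [← integral_add_compl hsm hq2]
    have hp1 : ∫ τ in s, ‖q τ‖ ^ 2 ≤ Real.exp (-κ1 * L) := by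
      refine le_trans ?_ hD2
      refine setIntegral_mono_on hq2.integrableOn ?_ hsm fun τ hτ => ?_
      · refine Measure.integrableOn_of_bounded (M := (B + Real.exp L) ^ 2)
          hsc.measure_lt_top.ne ((hDBm.sub hDm).norm.pow_const 2).aestronglyMeasurable
          (ae_of_all _ fun τ => ?_)
        rw [Real.norm_of_nonneg (by positivity)]
        exact pow_le_pow_left₀ (norm_nonneg _)
          ((norm_sub_le _ _).trans (add_le_add (hC' τ) (hDb τ))) 2
      · rw [hq]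
        simp only
        rw [norm_mul, hGn, Set.indicator_of_mem hτ]
        refine pow_le_pow_left₀ (by positivity) ?_ 2
        exact mul_le_of_le_one_left (norm_nonneg _) (hG1 τ)
    have hδT : Real.exp (ε * L) ≤ δ * T := by
      calc Real.exp (ε * L) = Real.exp (-(1 / 2 - ε) * L) * Real.exp (L / 2) := by
            rw [← Real.exp_add]
            congr 1
            ring
        _ ≤ δ * T := mul_le_mul_of_nonneg_right hδ hTp.le
    have hδT2 : Real.exp (2 * ε * L) ≤ δ ^ 2 * T ^ 2 := by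
      calc Real.exp (2 * ε * L) = Real.exp (ε * L) ^ 2 := by
            rw [← Real.exp_nat_mul]
            congr 1
            push_cast
            ring
        _ ≤ (δ * T) ^ 2 := pow_le_pow_left₀ (Real.exp_pos _).le hδT 2
        _ = δ ^ 2 * T ^ 2 := by ring
    have hp2 : ∫ τ in sᶜ, ‖q τ‖ ^ 2 ≤ Real.exp (-κ1 * L) := by
      set w : ℝ := Real.exp (-(Real.exp (2 * ε * L) / 2)) with hw
      have hpt : ∀ τ ∈ sᶜ, ‖q τ‖ ^ 2 ≤
          (C ^ 2 * (1 + L) ^ 12 * w) * Real.exp (-(δ ^ 2 / 2 * τ ^ 2)) := by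
        intro τ hτ
        have hτ2 : T ^ 2 ≤ τ ^ 2 := by
          have h1 : T ≤ |τ| := by
            by_contra hcon
            push Not at hcon
            exact hτ ⟨by linarith [neg_abs_le τ], by linarith [le_abs_self τ]⟩
          calc T ^ 2 ≤ |τ| ^ 2 := pow_le_pow_left₀ hTp.le h1 2
            _ = τ ^ 2 := sq_abs _
        have h2 : Real.exp (-(δ ^ 2 / 2 * τ ^ 2)) ^ 2 ≤
            w * Real.exp (-(δ ^ 2 / 2 * τ ^ 2)) := by
          rw [hw, sq]
          refine mul_le_mul_of_nonneg_right ?_ (Real.exp_pos _).le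
          apply Real.exp_le_exp.2
          have h3 : δ ^ 2 * T ^ 2 ≤ δ ^ 2 * τ ^ 2 := mul_le_mul_of_nonneg_left hτ2 (sq_nonneg _)
          linarith
        rw [hq]
        simp only
        rw [norm_mul, hGn, Set.indicator_of_notMem hτ, sub_zero, mul_pow]
        have h4 : ‖DB M b L τ‖ ^ 2 ≤ C ^ 2 * (1 + L) ^ 12 := by
          calc ‖DB M b L τ‖ ^ 2 ≤ (C * (1 + L) ^ 6) ^ 2 :=
                pow_le_pow_left₀ (norm_nonneg _) (hC' τ) 2
            _ = C ^ 2 * (1 + L) ^ 12 := by ring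
        calc Real.exp (-(δ ^ 2 / 2 * τ ^ 2)) ^ 2 * ‖DB M b L τ‖ ^ 2
            ≤ (w * Real.exp (-(δ ^ 2 / 2 * τ ^ 2))) * (C ^ 2 * (1 + L) ^ 12) :=
              mul_le_mul h2 h4 (by positivity) (by positivity)
          _ = _ := by ring
      have hint : ∫ τ : ℝ, Real.exp (-(δ ^ 2 / 2 * τ ^ 2)) = Real.sqrt (2 * Real.pi) / δ := by
        have h1 := integral_gaussian (δ ^ 2 / 2)
        simp only [neg_mul] at h1
        rw [h1]
        have h2 : Real.pi / (δ ^ 2 / 2) = (2 * Real.pi) / δ ^ 2 := by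
          field_simp
        rw [h2, Real.sqrt_div (by positivity), Real.sqrt_sq hδ0.le]
      have hdinv : 1 / δ ≤ Real.exp (L / 2) := by
        rw [div_le_iff₀ hδ0]
        calc (1 : ℝ) ≤ Real.exp (ε * L) := Real.one_le_exp (by positivity)
          _ ≤ δ * T := hδT
          _ = Real.exp (L / 2) * δ := by rw [hT]; ring
      calc ∫ τ in sᶜ, ‖q τ‖ ^ 2
          ≤ ∫ τ in sᶜ, (C ^ 2 * (1 + L) ^ 12 * w) * Real.exp (-(δ ^ 2 / 2 * τ ^ 2)) :=
            setIntegral_mono_on hq2.integrableOn (hG.const_mul _).integrableOn hsm.compl hpt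
        _ ≤ ∫ τ : ℝ, (C ^ 2 * (1 + L) ^ 12 * w) * Real.exp (-(δ ^ 2 / 2 * τ ^ 2)) :=
            setIntegral_le_integral (hG.const_mul _) (ae_of_all _ fun τ => by positivity)
        _ = (C ^ 2 * (1 + L) ^ 12 * w) * (Real.sqrt (2 * Real.pi) / δ) := by
            rw [integral_const_mul, hint]
        _ = C ^ 2 * Real.sqrt (2 * Real.pi) * (1 + L) ^ 12 * (w * (1 / δ)) := by ring
        _ ≤ C ^ 2 * Real.sqrt (2 * Real.pi) * (1 + L) ^ 12 * (w * Real.exp (L / 2)) := by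
            gcongr
        _ ≤ Real.exp (-κ1 * L) := hL2 L hLL2
    have h5 : 2 * Real.exp (-κ1 * L) ≤ Real.exp (-(κ1 / 2) * L) := by
      have h6 : Real.exp (-(κ1 / 2) * L) = Real.exp (κ1 * L / 2) * Real.exp (-κ1 * L) := by
        rw [← Real.exp_add]
        congr 1
        ring
      rw [h6]
      refine mul_le_mul_of_nonneg_right ?_ (Real.exp_pos _).le
      have h7 : 2 ≤ κ1 * L := by
        rw [div_le_iff₀ hκ1] at hLL3
        linarith
      have h8 := Real.add_one_le_exp (κ1 * L / 2)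
      linarith
    linarith

end RAF
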