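import Pool.Agent.RAF.SplitX

/-!
# RAF.SplitB: the same for a residue class

PROOF. For `b` coprime to `M`: `DB M b L τ = (1/φ(M)) ∑_χ χ(b)⁻¹ DX χ L τ` (orthogonality; see `ASC.PB_mean_sq` in `Pool/Agent/ASC/Class.lean` for
`φ(M) PB M b L τ = ∑_χ χ(b⁻¹) P χ L τ`; the main terms agree as `1(b⁻¹) = 1`). Put `Db = (1/φ(M)) ∑_χ χ(b)⁻¹ Db_χ` with `DX_split` (exponent `A` for each of the
`φ(M)` characters gives `≤ L^(-A)` for the average; the `L²` part: `‖(1/φ) ∑ ..‖² ≤ (1/φ) ∑ ‖..‖²`).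
-/

namespace RAF

open MeasureTheory

private theorem SplitB_np_norm (n : ℕ) (τ : ℝ) : ‖ASI.np n τ‖ = 1 / n := by
  unfold ASI.np
  rcases Nat.eq_zero_or_pos n with h | h
  · subst h
    rw [Nat.cast_zero, Complex.zero_cpow]
    · simp
    · intro h0
      have := congrArg Complex.re h0
      simp at this
  · rw [Complex.norm_natCast_cpow_of_pos h]
    have : (-(1 + (τ : ℂ) * Complex.I)).re = -1 := by simp
    rw [this, Real.rpow_neg_one, one_div]

private noncomputable def SplitB_a (n : ℕ) : ℝ :=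
  (n.divisors.card : ℝ) ^ 2 * (1 + Real.log n) ^ 2 / n

private theorem SplitB_a_nonneg (n : ℕ) : 0 ≤ SplitB_a n := by
  unfold SplitB_a
  positivity

private theorem SplitB_term (n : ℕ) (τ : ℝ) :
    ‖(ArithmeticFunction.vonMangoldt n : ℂ) * ASI.np n τ‖ ≤ SplitB_a n := by
  rw [norm_mul, SplitB_np_norm, Complex.norm_real, Real.norm_of_nonneg
    ArithmeticFunction.vonMangoldt_nonneg]
  unfold SplitB_a
  rcases Nat.eq_zero_or_pos n with h | h
  · subst h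
    simp
  · have h1 : (1 : ℝ) ≤ n := by exact_mod_cast h
    have h2 : 0 ≤ Real.log n := Real.log_nonneg h1
    have h3 : ArithmeticFunction.vonMangoldt n ≤ Real.log n :=
      ArithmeticFunction.vonMangoldt_le_log
    have h4 : (1 : ℝ) ≤ n.divisors.card := by
      have : 0 < n.divisors.card := Finset.card_pos.mpr ⟨1, Nat.one_mem_divisors.mpr h.ne'⟩
      exact_mod_cast this
    have h5 : Real.log n ≤ (n.divisors.card : ℝ) ^ 2 * (1 + Real.log n) ^ 2 := by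
      have h6 : (1 : ℝ) ≤ (n.divisors.card : ℝ) ^ 2 := one_le_pow₀ h4
      nlinarith [sq_nonneg (Real.log n)]
    rw [mul_one_div]
    exact div_le_div_of_nonneg_right (h3.trans h5) (by positivity)

private theorem SplitB_sum : ∃ C : ℝ, 1 ≤ C ∧ ∀ y : ℝ,
    Summable (fun n : ℕ => SplitB_a n * Real.exp (-(Real.log n - y) ^ 2 / 16)) ∧
    ∑' n : ℕ, SplitB_a n * Real.exp (-(Real.log n - y) ^ 2 / 16) ≤ C * (1 + |y|) ^ 6 := by
  obtain ⟨C, hC, h⟩ := ASI.div_gauss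
  exact ⟨C, hC, fun y => ⟨(h y).1, (h y).2.1⟩⟩

private theorem SplitB_summand (L : ℝ) (n : ℕ) (τ : ℝ) :
    ‖(ArithmeticFunction.vonMangoldt n : ℂ) * ASI.np n τ * (ASI.ps L (Real.log n) : ℝ)‖ ≤
      SplitB_a n * Real.exp (-(Real.log n - L) ^ 2 / 16) := by
  rw [norm_mul, Complex.norm_real, Real.norm_of_nonneg
    (show 0 ≤ ASI.ps L (Real.log n) from (Real.exp_pos _).le)]
  refine mul_le_mul (SplitB_term n τ) ?_ (Real.exp_pos _).le (SplitB_a_nonneg n)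
  unfold ASI.ps
  apply Real.exp_le_exp.mpr
  nlinarith [sq_nonneg (Real.log n - L)]

private theorem SplitB_main_cont (L : ℝ) : Continuous (ASI.mainT L) := by
  unfold ASI.mainT
  fun_prop

private theorem SplitB_chi_term {M : ℕ} (χ : DirichletCharacter ℂ M) (L : ℝ) (n : ℕ) (τ : ℝ) :
    (ArithmeticFunction.vonMangoldt n : ℂ) * ASC.nc χ n τ * (ASI.ps L (Real.log n) : ℝ) =
      χ n * ((ArithmeticFunction.vonMangoldt n : ℂ) * ASI.np n τ * (ASI.ps L (Real.log n) : ℝ)) := by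
  unfold ASC.nc ASI.np
  ring

private theorem SplitB_chi_norm {M : ℕ} (χ : DirichletCharacter ℂ M) (L : ℝ) (n : ℕ) (τ : ℝ) :
    ‖(ArithmeticFunction.vonMangoldt n : ℂ) * ASC.nc χ n τ * (ASI.ps L (Real.log n) : ℝ)‖ ≤
      SplitB_a n * Real.exp (-(Real.log n - L) ^ 2 / 16) := by
  rw [SplitB_chi_term, norm_mul]
  exact (mul_le_of_le_one_left (norm_nonneg _) (DirichletCharacter.norm_le_one χ _)).trans
    (SplitB_summand L n τ)

private theorem SplitB_chi_summable {M : ℕ} (χ : DirichletCharacter ℂ M) (L τ : ℝ) :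
    Summable (fun n : ℕ => (ArithmeticFunction.vonMangoldt n : ℂ) * ASC.nc χ n τ *
      (ASI.ps L (Real.log n) : ℝ)) := by
  obtain ⟨C, hC, h⟩ := SplitB_sum
  exact Summable.of_norm_bounded (h L).1 fun n => SplitB_chi_norm χ L n τ

/-- orthogonality -/
private theorem SplitB_orth {M : ℕ} [NeZero M] {b : ℕ} (hb : b.Coprime M) (L τ : ℝ) :
    (Nat.totient M : ℂ) * ASC.PB M b L τ =
      ∑ χ : DirichletCharacter ℂ M, χ ((b : ZMod M)⁻¹) * ASC.P χ L τ := by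
  unfold ASC.PB ASC.P
  have hu : IsUnit (b : ZMod M) := (ZMod.isUnit_iff_coprime b M).2 hb
  have h1 : ∀ χ : DirichletCharacter ℂ M, χ ((b : ZMod M)⁻¹) *
      ∑' n : ℕ, (ArithmeticFunction.vonMangoldt n : ℂ) * ASC.nc χ n τ *
        (ASI.ps L (Real.log n) : ℝ) =
      ∑' n : ℕ, χ ((b : ZMod M)⁻¹) *
        ((ArithmeticFunction.vonMangoldt n : ℂ) * ASC.nc χ n τ *
          (ASI.ps L (Real.log n) : ℝ)) := fun χ => by
    rw [tsum_mul_left]
  simp only [h1]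
  rw [← tsum_mul_left, ← Summable.tsum_finsetSum fun χ _ => (SplitB_chi_summable χ L τ).mul_left _]
  refine tsum_congr fun n => ?_
  have h2 := DirichletCharacter.sum_char_inv_mul_char_eq ℂ hu (n : ZMod M)
  have h3 : ((b : ZMod M) = (n : ZMod M)) ↔ n ≡ b [MOD M] := by
    rw [ZMod.natCast_eq_natCast_iff]
    exact ⟨fun h => h.symm, fun h => h.symm⟩
  have h4 : ∑ χ : DirichletCharacter ℂ M, χ ((b : ZMod M)⁻¹) *
      ((ArithmeticFunction.vonMangoldt n : ℂ) * ASC.nc χ n τ * (ASI.ps L (Real.log n) : ℝ)) =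
      (∑ χ : DirichletCharacter ℂ M, χ ((b : ZMod M)⁻¹) * χ (n : ZMod M)) *
        ((ArithmeticFunction.vonMangoldt n : ℂ) * ASI.np n τ * (ASI.ps L (Real.log n) : ℝ)) := by
    rw [Finset.sum_mul]
    refine Finset.sum_congr rfl fun χ _ => ?_
    rw [SplitB_chi_term]
    ring
  rw [h4, h2]
  by_cases h : n ≡ b [MOD M]
  · rw [if_pos h, if_pos (h3.2 h)]
  · rw [if_neg h, if_neg (fun h' => h (h3.1 h'))]
    simp

private theorem SplitB_DX_cont {M : ℕ} (χ : DirichletCharacter ℂ M) (L : ℝ) :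
    Continuous (DX χ L) := by
  unfold DX
  by_cases h : χ = 1
  · simp only [if_pos h]
    exact (ASC.P_cont χ L).sub (SplitB_main_cont L)
  · simp only [if_neg h, sub_zero]
    exact ASC.P_cont χ L

private theorem SplitB_DB {M : ℕ} [NeZero M] {b : ℕ} (hb : b.Coprime M) (L τ : ℝ) :
    DB M b L τ = (Nat.totient M : ℂ)⁻¹ *
      ∑ χ : DirichletCharacter ℂ M, χ ((b : ZMod M)⁻¹) * DX χ L τ := by
  classical
  have hφ : 0 < Nat.totient M := Nat.totient_pos.2 (Nat.pos_of_ne_zero (NeZero.ne M))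
  have hφ0 : (Nat.totient M : ℂ) ≠ 0 := by exact_mod_cast hφ.ne'
  have hu : IsUnit ((b : ZMod M)⁻¹) := by
    have := ZMod.coe_mul_inv_eq_one b hb
    exact IsUnit.of_mul_eq_one _ (by rw [mul_comm]; exact this)
  have h1 : ∑ χ : DirichletCharacter ℂ M, χ ((b : ZMod M)⁻¹) * DX χ L τ =
      (Nat.totient M : ℂ) * ASC.PB M b L τ - ASI.mainT L τ := by
    unfold DX
    simp only [mul_sub]
    rw [Finset.sum_sub_distrib, ← SplitB_orth hb]
    congr 1
    rw [Finset.sum_eq_single (1 : DirichletCharacter ℂ M)]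
    · rw [if_pos rfl, MulChar.one_apply hu, one_mul]
    · intro χ _ hχ
      rw [if_neg hχ, mul_zero]
    · intro h
      exact absurd (Finset.mem_univ _) h
  rw [h1]
  unfold DB
  field_simp

private theorem SplitB_card (M : ℕ) [NeZero M] :
    (Fintype.card (DirichletCharacter ℂ M) : ℝ) = Nat.totient M := by
  rw [← Nat.card_eq_fintype_card, DirichletCharacter.card_eq_totient_of_hasEnoughRootsOfUnity]

private theorem SplitB_avg {M : ℕ} [NeZero M] (c : ℂ) (f : DirichletCharacter ℂ M → ℂ)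
    (g : DirichletCharacter ℂ M → ℂ) (hg : ∀ χ, ‖g χ‖ ≤ 1) (hc : c = (Nat.totient M : ℂ)⁻¹) :
    ‖c * ∑ χ : DirichletCharacter ℂ M, g χ * f χ‖ ≤
      (Nat.totient M : ℝ)⁻¹ * ∑ χ : DirichletCharacter ℂ M, ‖f χ‖ := by
  rw [norm_mul, hc, norm_inv, Complex.norm_natCast]
  refine mul_le_mul_of_nonneg_left ((norm_sum_le _ _).trans (Finset.sum_le_sum fun χ _ => ?_))
    (by positivity)
  rw [norm_mul]
  exact mul_le_of_le_one_left (norm_nonneg _) (hg χ)

private theorem SplitB_avg2 {M : ℕ} [NeZero M] (c : ℂ) (f : DirichletCharacter ℂ M → ℂ)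
    (g : DirichletCharacter ℂ M → ℂ) (hg : ∀ χ, ‖g χ‖ ≤ 1) (hc : c = (Nat.totient M : ℂ)⁻¹) :
    ‖c * ∑ χ : DirichletCharacter ℂ M, g χ * f χ‖ ^ 2 ≤
      (Nat.totient M : ℝ)⁻¹ * ∑ χ : DirichletCharacter ℂ M, ‖f χ‖ ^ 2 := by
  have hφ : 0 < Nat.totient M := Nat.totient_pos.2 (Nat.pos_of_ne_zero (NeZero.ne M))
  have hφ0 : (0 : ℝ) < Nat.totient M := by exact_mod_cast hφ
  refine (pow_le_pow_left₀ (norm_nonneg _) (SplitB_avg c f g hg hc) 2).trans ?_
  have h1 : (∑ χ : DirichletCharacter ℂ M, ‖f χ‖) ^ 2 ≤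
      (Nat.totient M : ℝ) * ∑ χ : DirichletCharacter ℂ M, ‖f χ‖ ^ 2 := by
    have := sq_sum_le_card_mul_sum_sq (s := (Finset.univ : Finset (DirichletCharacter ℂ M)))
      (f := fun χ => ‖f χ‖)
    rwa [Finset.card_univ, SplitB_card] at this
  rw [mul_pow]
  calc ((Nat.totient M : ℝ)⁻¹) ^ 2 * (∑ χ : DirichletCharacter ℂ M, ‖f χ‖) ^ 2
      ≤ ((Nat.totient M : ℝ)⁻¹) ^ 2 *
        ((Nat.totient M : ℝ) * ∑ χ : DirichletCharacter ℂ M, ‖f χ‖ ^ 2) :=
        mul_le_mul_of_nonneg_left h1 (by positivity)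
    _ = (Nat.totient M : ℝ)⁻¹ * ∑ χ : DirichletCharacter ℂ M, ‖f χ‖ ^ 2 := by
        field_simp

theorem DB_split {M : ℕ} (hM : 0 < M) : ∃ κ : ℝ, 0 < κ ∧ ∀ A : ℝ, ∃ L0 : ℝ, 1 ≤ L0 ∧
    ∀ b : ℕ, b.Coprime M → ∀ L : ℝ, L0 ≤ L → ∃ Db : ℝ → ℂ, Measurable Db ∧
    (∀ τ, ‖Db τ‖ ≤ Real.exp L) ∧
    ∫ τ in Set.Icc (-Real.exp (L / 2)) (Real.exp (L / 2)), ‖Db τ‖ ≤ L ^ (-A) ∧
    ∫ τ in Set.Icc (-Real.exp (L / 2)) (Real.exp (L / 2)), ‖DB M b L τ - Db τ‖ ^ 2 ≤
      Real.exp (-κ * L) := by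
  have : NeZero M := ⟨hM.ne'⟩
  obtain ⟨κ, hκ, h⟩ := DX_split M
  refine ⟨κ, hκ, fun A => ?_⟩
  obtain ⟨L0, hL0, h0⟩ := h A
  refine ⟨L0, hL0, fun b hb L hL => ?_⟩
  choose D hDm hDb hD1 hD2 using fun χ : DirichletCharacter ℂ M => h0 χ L hL
  have hφ : 0 < Nat.totient M := Nat.totient_pos.2 hM
  have hφ0 : (0 : ℝ) < Nat.totient M := by exact_mod_cast hφ
  have hg : ∀ χ : DirichletCharacter ℂ M, ‖χ ((b : ZMod M)⁻¹)‖ ≤ 1 := fun χ =>
    DirichletCharacter.norm_le_one χ _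
  set I : Set ℝ := Set.Icc (-Real.exp (L / 2)) (Real.exp (L / 2)) with hI
  have hIf : volume I ≠ ⊤ := by
    rw [hI]
    exact isCompact_Icc.measure_lt_top.ne
  have bdi : ∀ (f : ℝ → ℝ) (C : ℝ), Measurable f → (∀ τ ∈ I, ‖f τ‖ ≤ C) → IntegrableOn f I := by
    intro f C hf hC
    refine Measure.integrableOn_of_bounded hIf hf.aestronglyMeasurable (M := C) ?_
    exact (ae_restrict_mem measurableSet_Icc).mono hC
  have i1 : ∀ χ, IntegrableOn (fun τ => ‖D χ τ‖) I := fun χ =>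
    bdi _ (Real.exp L) (hDm χ).norm fun τ _ => by
      rw [norm_norm]
      exact hDb χ τ
  have i2 : ∀ χ, IntegrableOn (fun τ => ‖DX χ L τ - D χ τ‖ ^ 2) I := fun χ => by
    obtain ⟨C, hC⟩ := isCompact_Icc.exists_bound_of_continuousOn (s := I)
      (SplitB_DX_cont χ L).continuousOn
    refine bdi _ ((C + Real.exp L) ^ 2)
      ((((SplitB_DX_cont χ L).measurable.sub (hDm χ)).norm).pow_const 2) fun τ hτ => ?_
    rw [norm_pow, norm_norm]
    exact pow_le_pow_left₀ (norm_nonneg _) ((norm_sub_le _ _).trans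
      (add_le_add (hC τ hτ) (hDb χ τ))) 2
  have hDm' : Measurable fun τ => (Nat.totient M : ℂ)⁻¹ *
      ∑ χ : DirichletCharacter ℂ M, χ ((b : ZMod M)⁻¹) * D χ τ := by
    refine Measurable.const_mul (Finset.measurable_sum _ fun χ _ => ?_) _
    exact (hDm χ).const_mul _
  have hbd : ∀ τ, ‖(Nat.totient M : ℂ)⁻¹ *
      ∑ χ : DirichletCharacter ℂ M, χ ((b : ZMod M)⁻¹) * D χ τ‖ ≤ Real.exp L := by
    intro τ
    refine (SplitB_avg _ (fun χ => D χ τ) _ hg rfl).trans ?_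
    have h1 : ∑ χ : DirichletCharacter ℂ M, ‖D χ τ‖ ≤ (Nat.totient M : ℝ) * Real.exp L := by
      refine (Finset.sum_le_sum fun χ _ => hDb χ τ).trans ?_
      rw [Finset.sum_const, Finset.card_univ, nsmul_eq_mul, SplitB_card]
    calc (Nat.totient M : ℝ)⁻¹ * ∑ χ : DirichletCharacter ℂ M, ‖D χ τ‖
        ≤ (Nat.totient M : ℝ)⁻¹ * ((Nat.totient M : ℝ) * Real.exp L) :=
          mul_le_mul_of_nonneg_left h1 (by positivity)
      _ = Real.exp L := by field_simp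
  refine ⟨fun τ => (Nat.totient M : ℂ)⁻¹ *
      ∑ χ : DirichletCharacter ℂ M, χ ((b : ZMod M)⁻¹) * D χ τ, hDm', hbd, ?_, ?_⟩
  · have h1 : ∫ τ in I, ‖(Nat.totient M : ℂ)⁻¹ *
        ∑ χ : DirichletCharacter ℂ M, χ ((b : ZMod M)⁻¹) * D χ τ‖ ≤
        ∫ τ in I, (Nat.totient M : ℝ)⁻¹ * ∑ χ : DirichletCharacter ℂ M, ‖D χ τ‖ := by
      refine setIntegral_mono ?_ ?_ fun τ => SplitB_avg _ (fun χ => D χ τ) _ hg rfl
      · exact bdi _ (Real.exp L) hDm'.norm fun τ _ => by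
          rw [norm_norm]
          exact hbd τ
      · exact (integrable_finsetSum _ fun χ _ => i1 χ).const_mul _
    rw [integral_const_mul, integral_finsetSum _ fun χ _ => i1 χ] at h1
    refine h1.trans ?_
    have h2 : ∑ χ : DirichletCharacter ℂ M, ∫ τ in I, ‖D χ τ‖ ≤
        (Nat.totient M : ℝ) * L ^ (-A) := by
      refine (Finset.sum_le_sum fun χ _ => hD1 χ).trans ?_
      rw [Finset.sum_const, Finset.card_univ, nsmul_eq_mul, SplitB_card]
    calc (Nat.totient M : ℝ)⁻¹ * ∑ χ : DirichletCharacter ℂ M, ∫ τ in I, ‖D χ τ‖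
        ≤ (Nat.totient M : ℝ)⁻¹ * ((Nat.totient M : ℝ) * L ^ (-A)) :=
          mul_le_mul_of_nonneg_left h2 (by positivity)
      _ = L ^ (-A) := by field_simp
  · have e1 : ∀ τ, DB M b L τ - (Nat.totient M : ℂ)⁻¹ *
        ∑ χ : DirichletCharacter ℂ M, χ ((b : ZMod M)⁻¹) * D χ τ =
        (Nat.totient M : ℂ)⁻¹ *
          ∑ χ : DirichletCharacter ℂ M, χ ((b : ZMod M)⁻¹) * (DX χ L τ - D χ τ) := by
      intro τ
      rw [SplitB_DB hb, ← mul_sub, ← Finset.sum_sub_distrib]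
      simp only [mul_sub]
    have h1 : ∫ τ in I, ‖DB M b L τ - (Nat.totient M : ℂ)⁻¹ *
        ∑ χ : DirichletCharacter ℂ M, χ ((b : ZMod M)⁻¹) * D χ τ‖ ^ 2 ≤
        ∫ τ in I, (Nat.totient M : ℝ)⁻¹ *
          ∑ χ : DirichletCharacter ℂ M, ‖DX χ L τ - D χ τ‖ ^ 2 := by
      have iS : IntegrableOn (fun τ => (Nat.totient M : ℝ)⁻¹ *
          ∑ χ : DirichletCharacter ℂ M, ‖DX χ L τ - D χ τ‖ ^ 2) I :=
        (integrable_finsetSum _ fun χ _ => i2 χ).const_mul _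
      refine integral_mono_of_nonneg (Filter.Eventually.of_forall fun τ => by positivity) iS
        (Filter.Eventually.of_forall fun τ => ?_)
      simp only [e1]
      exact SplitB_avg2 _ (fun χ => DX χ L τ - D χ τ) _ hg rfl
    rw [integral_const_mul, integral_finsetSum _ fun χ _ => i2 χ] at h1
    refine h1.trans ?_
    have h2 : ∑ χ : DirichletCharacter ℂ M, ∫ τ in I, ‖DX χ L τ - D χ τ‖ ^ 2 ≤
        (Nat.totient M : ℝ) * Real.exp (-κ * L) := by
      refine (Finset.sum_le_sum fun χ _ => hD2 χ).trans ?_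
      rw [Finset.sum_const, Finset.card_univ, nsmul_eq_mul, SplitB_card]
    calc (Nat.totient M : ℝ)⁻¹ * ∑ χ : DirichletCharacter ℂ M, ∫ τ in I, ‖DX χ L τ - D χ τ‖ ^ 2
        ≤ (Nat.totient M : ℝ)⁻¹ * ((Nat.totient M : ℝ) * Real.exp (-κ * L)) :=
          mul_le_mul_of_nonneg_left h2 (by positivity)
      _ = Real.exp (-κ * L) := by field_simp

end RAF
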