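import Pool.Agent.RAF.Defs

/-!
# RAF.SplitD: the part of the prime polynomial with a large short factor

`Dbd δ χ L τ` is `DX χ L τ` for `|τ| ≤ L`; for `L < |τ| ≤ exp(L/2)` it is
`(1/√(2π)) ∫_{L/40}^{39L/40} As χ U c τ · Bs χ U (L-c) τ · 1[‖sc χ L c τ‖ > exp(-δL)] dc`, `U = L/20`, and `0` for `|τ| > exp(L/2)`.

PROOF of `Dbd_meas`: `As`, `Bs` are jointly continuous (`ASC.AsBs_cont`), so the integrand is jointly measurable in `(c, τ)` (piecewise
continuous on measurable sets; `Measurable.ite`), and a parametric integral is measurable (`StronglyMeasurable.integral_prod_left` or `_right`). `DX χ L` is continuous: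
`ASC.P_cont`, `ASI.mainT` is continuous (unfold). `Dbd_le`: `ASC.P_triv`, `‖ASI.mainT L τ‖ ≤ √(8π) ≤ 6`, `ASC.As_tail`, `ASC.Bs_tail`: everything is at most
`C (1+L)^13 ≤ exp L` for large `L` (finitely many `χ`).
-/

namespace RAF

open MeasureTheory

open Classical in
/-- The short factor. -/
noncomputable def sc {M : ℕ} (χ : DirichletCharacter ℂ M) (L c τ : ℝ) : ℂ :=
  if c ≤ L / 2 then ASC.As χ (L / 20) c τ else ASC.Bs χ (L / 20) (L - c) τ

open Classical in
/-- The product, if the short factor is large. -/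
noncomputable def prb {M : ℕ} (δ : ℝ) (χ : DirichletCharacter ℂ M) (L c τ : ℝ) : ℂ :=
  if Real.exp (-δ * L) < ‖sc χ L c τ‖ then ASC.As χ (L / 20) c τ * ASC.Bs χ (L / 20) (L - c) τ else 0

open Classical in
/-- The part of `DX` with a large short factor. -/
noncomputable def Dbd {M : ℕ} (δ : ℝ) (χ : DirichletCharacter ℂ M) (L τ : ℝ) : ℂ :=
  if |τ| ≤ L then DX χ L τ else if |τ| ≤ Real.exp (L / 2) then
    (1 / Real.sqrt (2 * Real.pi) : ℝ) * ∫ c in Set.Icc (L / 40) (39 * L / 40), prb δ χ L c τ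
  else 0

theorem prb_meas {M : ℕ} (δ : ℝ) (χ : DirichletCharacter ℂ M) (L : ℝ) :
    Measurable (fun q : ℝ × ℝ => prb δ χ L q.1 q.2) := by
  obtain ⟨hA, hB⟩ := ASC.AsBs_cont χ (L / 20)
  have hB' : Continuous (fun q : ℝ × ℝ => ASC.Bs χ (L / 20) (L - q.1) q.2) :=
    hB.comp ((continuous_const.sub continuous_fst).prodMk continuous_snd)
  have hs : Measurable (fun q : ℝ × ℝ => sc χ L q.1 q.2) := by
    unfold sc
    exact Measurable.ite (measurableSet_le measurable_fst measurable_const) hA.measurable hB'.measurable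
  unfold prb
  exact Measurable.ite (measurableSet_lt measurable_const hs.norm)
    (hA.measurable.mul hB'.measurable) measurable_const

theorem DX_cont {M : ℕ} (χ : DirichletCharacter ℂ M) (L : ℝ) : Continuous (DX χ L) := by
  have hM : Continuous (fun τ : ℝ => ASI.mainT L τ) := by
    unfold ASI.mainT
    fun_prop
  unfold DX
  by_cases h : χ = 1
  · simp only [h, if_true]
    exact (ASC.P_cont _ L).sub hM
  · simp only [h, if_false]
    exact (ASC.P_cont _ L).sub continuous_const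

theorem Dbd_meas {M : ℕ} (δ : ℝ) (χ : DirichletCharacter ℂ M) (L : ℝ) : Measurable (Dbd δ χ L) := by
  unfold Dbd
  refine Measurable.ite (measurableSet_le measurable_norm measurable_const) (DX_cont χ L).measurable
    (Measurable.ite (measurableSet_le measurable_norm measurable_const) ?_ measurable_const)
  have h : StronglyMeasurable (Function.uncurry fun c τ : ℝ => prb δ χ L c τ) :=
    (prb_meas δ χ L).stronglyMeasurable
  exact measurable_const.mul (h.integral_prod_left (μ := volume.restrict (Set.Icc (L / 40) (39 * L / 40)))).measurable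

private theorem SplitD_main (L τ : ℝ) : ‖ASI.mainT L τ‖ ≤ 6 := by
  unfold ASI.mainT
  have h1 : ‖Complex.exp (-(τ * L * Complex.I))‖ = 1 := by
    have : (-((τ : ℂ) * L * Complex.I)) = ((-(τ * L) : ℝ) : ℂ) * Complex.I := by
      push_cast
      ring
    rw [this, Complex.norm_exp_ofReal_mul_I]
  rw [norm_mul, norm_mul, h1, mul_one, Complex.norm_real, Complex.norm_real,
    Real.norm_of_nonneg (Real.sqrt_nonneg _), Real.norm_of_nonneg (Real.exp_pos _).le]
  have h2 : Real.sqrt (8 * Real.pi) ≤ 6 := by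
    rw [Real.sqrt_le_left (by norm_num)]
    nlinarith [Real.pi_lt_four]
  have h3 : Real.exp (-2 * τ ^ 2) ≤ 1 := Real.exp_le_one_iff.mpr (by nlinarith [sq_nonneg τ])
  calc Real.sqrt (8 * Real.pi) * Real.exp (-2 * τ ^ 2) ≤ 6 * 1 :=
        mul_le_mul h2 h3 (Real.exp_pos _).le (by norm_num)
    _ = 6 := by norm_num

private theorem SplitD_pow {C : ℝ} (hC : 0 < C) :
    ∀ᶠ L : ℝ in Filter.atTop, C * (1 + L) ^ 13 ≤ Real.exp L := by
  have h := Real.tendsto_pow_mul_exp_neg_atTop_nhds_zero 13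
  have hpos : 0 < 1 / (C * 2 ^ 13) := by positivity
  filter_upwards [h.eventually (gt_mem_nhds hpos), Filter.eventually_ge_atTop (1 : ℝ)] with L h1 h2
  have h3 : L ^ 13 ≤ 1 / (C * 2 ^ 13) * Real.exp L := by
    have := mul_le_mul_of_nonneg_right h1.le (Real.exp_pos L).le
    rwa [mul_assoc, ← Real.exp_add, neg_add_cancel, Real.exp_zero, mul_one] at this
  have h4 : (1 + L) ^ 13 ≤ 2 ^ 13 * L ^ 13 := by
    rw [← mul_pow]
    exact pow_le_pow_left₀ (by linarith) (by linarith) 13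
  calc C * (1 + L) ^ 13 ≤ C * (2 ^ 13 * L ^ 13) := mul_le_mul_of_nonneg_left h4 hC.le
    _ ≤ C * (2 ^ 13 * (1 / (C * 2 ^ 13) * Real.exp L)) := by
        apply mul_le_mul_of_nonneg_left _ hC.le
        exact mul_le_mul_of_nonneg_left h3 (by positivity)
    _ = Real.exp L := by
        field_simp

private theorem SplitD_one {M : ℕ} (χ : DirichletCharacter ℂ M) : ∃ C : ℝ, 1 ≤ C ∧ ∀ δ L τ : ℝ, 1 ≤ L →
    ‖Dbd δ χ L τ‖ ≤ C * (1 + L) ^ 13 := by
  obtain ⟨C1, hC1, hP⟩ := ASC.P_triv χ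
  obtain ⟨C2, hC2, hA⟩ := ASC.As_tail χ
  obtain ⟨C3, hC3, hB⟩ := ASC.Bs_tail χ
  have h23 : 1 ≤ C2 * C3 := one_le_mul_of_one_le_of_one_le hC2 hC3
  refine ⟨C1 + 6 + C2 * C3, by linarith, ?_⟩
  intro δ L τ hL
  have hL0 : 0 ≤ L := by linarith
  have hbase : (1 : ℝ) ≤ 1 + L := by linarith
  have hp13 : (1 : ℝ) ≤ (1 + L) ^ 13 := one_le_pow₀ hbase
  have hp6 : (1 + L) ^ 6 ≤ (1 + L) ^ 13 := pow_le_pow_right₀ hbase (by norm_num)
  unfold Dbd
  split_ifs with h1 h2
  · have hD : ‖DX χ L τ‖ ≤ C1 * (1 + L) ^ 6 + 6 := by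
      unfold DX
      refine (norm_sub_le _ _).trans (add_le_add ?_ ?_)
      · have := hP L τ
        rwa [abs_of_nonneg hL0] at this
      · split_ifs
        · exact SplitD_main L τ
        · rw [norm_zero]; norm_num
    calc ‖DX χ L τ‖ ≤ C1 * (1 + L) ^ 6 + 6 := hD
      _ ≤ C1 * (1 + L) ^ 13 + 6 * (1 + L) ^ 13 :=
          add_le_add (mul_le_mul_of_nonneg_left hp6 (by linarith)) (by linarith)
      _ ≤ (C1 + 6 + C2 * C3) * (1 + L) ^ 13 := by nlinarith
  · have hb : ∀ c ∈ Set.Icc (L / 40) (39 * L / 40), ‖prb δ χ L c τ‖ ≤ C2 * C3 * (1 + L) ^ 12 := by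
      intro c hc
      have hc0 : 0 ≤ c := by have := hc.1; linarith
      have hc1 : c ≤ L := by have := hc.2; linarith
      unfold prb
      split_ifs
      · rw [norm_mul]
        have e1 : ‖ASC.As χ (L / 20) c τ‖ ≤ C2 * (1 + L) ^ 6 := by
          refine ((hA (L / 20) c τ).1).trans (mul_le_mul_of_nonneg_left ?_ (by linarith))
          apply pow_le_pow_left₀ (by positivity)
          rw [abs_of_nonneg hc0]; linarith
        have e2 : ‖ASC.Bs χ (L / 20) (L - c) τ‖ ≤ C3 * (1 + L) ^ 6 := by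
          refine ((hB (L / 20) (L - c) τ).1).trans (mul_le_mul_of_nonneg_left ?_ (by linarith))
          apply pow_le_pow_left₀ (by positivity)
          rw [abs_of_nonneg (by linarith)]; linarith
        calc _ ≤ (C2 * (1 + L) ^ 6) * (C3 * (1 + L) ^ 6) :=
              mul_le_mul e1 e2 (norm_nonneg _) (by positivity)
          _ = C2 * C3 * (1 + L) ^ 12 := by ring
      · rw [norm_zero]; positivity
    have hint : ‖∫ c in Set.Icc (L / 40) (39 * L / 40), prb δ χ L c τ‖ ≤
        C2 * C3 * (1 + L) ^ 12 * (1 + L) := by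
      refine (norm_setIntegral_le_of_norm_le_const (μ := volume) ?_ hb).trans ?_
      · rw [Real.volume_Icc]; exact ENNReal.ofReal_lt_top
      · apply mul_le_mul_of_nonneg_left _ (by positivity)
        rw [Measure.real, Real.volume_Icc, ENNReal.toReal_ofReal (by linarith)]
        linarith
    have hs : (1 : ℝ) / Real.sqrt (2 * Real.pi) ≤ 1 := by
      rw [div_le_one (Real.sqrt_pos.mpr (by positivity))]
      rw [Real.one_le_sqrt]
      nlinarith [Real.pi_gt_three]
    rw [norm_mul, Complex.norm_real, Real.norm_of_nonneg (by positivity)]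
    calc 1 / Real.sqrt (2 * Real.pi) * ‖∫ c in Set.Icc (L / 40) (39 * L / 40), prb δ χ L c τ‖
        ≤ 1 * (C2 * C3 * (1 + L) ^ 12 * (1 + L)) :=
          mul_le_mul hs hint (norm_nonneg _) (by norm_num)
      _ = C2 * C3 * (1 + L) ^ 13 := by ring
      _ ≤ (C1 + 6 + C2 * C3) * (1 + L) ^ 13 := by
          apply mul_le_mul_of_nonneg_right _ (by positivity)
          linarith
  · rw [norm_zero]; positivity

theorem Dbd_le (M : ℕ) [NeZero M] : ∃ L0 : ℝ, 1 ≤ L0 ∧ ∀ (χ : DirichletCharacter ℂ M) (δ L τ : ℝ), L0 ≤ L →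
    ‖Dbd δ χ L τ‖ ≤ Real.exp L := by
  have hone : ∀ χ : DirichletCharacter ℂ M, ∀ᶠ L : ℝ in Filter.atTop, ∀ δ τ : ℝ,
      ‖Dbd δ χ L τ‖ ≤ Real.exp L := by
    intro χ
    obtain ⟨C, hC, hCle⟩ := SplitD_one χ
    filter_upwards [SplitD_pow (C := C) (by linarith), Filter.eventually_ge_atTop (1 : ℝ)] with L h1 h2 δ τ
    exact (hCle δ L τ h2).trans h1
  have hall := Filter.eventually_all.mpr hone
  obtain ⟨L0, hL0⟩ := Filter.eventually_atTop.mp hall
  exact ⟨max L0 1, le_max_right _ _, fun χ δ L τ hL => hL0 L ((le_max_left _ _).trans hL) χ δ τ⟩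

end RAF
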