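import Pool.Agent.RAF.AsX
import Pool.Agent.RAF.SplitD

/-!
# RAF.SplitL1: the part with a large short factor is small in `L¹`

PROOF. `κ1` from `As_sqX M`, `κ2`, `C2` from `hmX 82`, `δ0 = min (κ1/4) (κ2/400)`, `V = exp(-δL)`, `T = exp(L/2)`, `U = L/20`. `∫_{|τ|≤L} ‖DX‖ ≤ 2L L^(-A')` by `PX_point M 1 A'`. For
`L < |τ| ≤ T`: `‖Dbd δ χ L τ‖ ≤ ∫_{L/40}^{39L/40} ‖prb δ χ L c τ‖ dc`, and by Tonelli (`prb_meas`; work with `lintegral`s) it is enough to bound, for each fixed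
`c ∈ [L/40, 39L/40]`, `∫_{E_c} ‖As χ U c τ‖ ‖Bs χ U (L-c) τ‖ dτ`, `E_c = {L < |τ| ≤ T, ‖sc χ L c τ‖ > V}`, by `L^(-A'')`.
Size of `E_c`: let `s` be the short factor, of length `y = c` or `y = L - c`, `L/40 ≤ y`. By `hmX` (`ASC.As χ U c = gsx (Λ hL χ) c`,
`ASC.Bs χ U y = gsx (bt U · χ) y` with `ASI.bt_le`; unfold `gsx`, `ASC.nc`, `ASI.np`; `2T ≤ exp(82 y)` for large `L` as `y ≥ L/40`):
`V² |E_c| ≤ ∫_{E_c} ‖s‖² ≤ C2 (1+L)^8 (1 + exp(-κ2 L/40) |E_c|)`, and `C2 (1+L)^8 exp(-κ2 L/40) ≤ V²/2` for large `L` (`2δ ≤ κ2/200`), so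
`|E_c| ≤ 2 C2 (1+L)^8 exp(2δL) ≤ exp(κ1 L)` for large `L`. So `∫_{E_c} ‖As χ U c‖² ≤ L^(-A'')` (`As_sqX`, `c ≤ L`, `T ≤ exp L`) and
`∫_{E_c} ‖Bs χ U (L-c)‖² ≤ C2 (1+L)^8 (1 + exp(-κ2 L/40) |E_c|) ≤ 2 C2 (1+L)^8` (`2δ < κ2/40`), hence by Cauchy-Schwarz
`∫_{E_c} ‖As‖‖Bs‖ ≤ (2 C2 (1+L)^8 L^(-A''))^(1/2)`. Integrate over `c` (length `≤ L`), `A'' = 2|A| + 20`.
-/

namespace RAF

open MeasureTheory

private theorem SplitL1_one_le_card {n : ℕ} (h : 0 < n) : (1 : ℝ) ≤ (n.divisors.card : ℝ) := by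
  exact_mod_cast Finset.card_pos.2 ⟨1, Nat.one_mem_divisors.2 h.ne'⟩

private noncomputable def SplitL1_eA {M : ℕ} (χ : DirichletCharacter ℂ M) (U : ℝ) (n : ℕ) : ℂ :=
  ((ArithmeticFunction.vonMangoldt n * ASI.hL U (Real.log n) : ℝ) : ℂ) * χ n

private noncomputable def SplitL1_eB {M : ℕ} (χ : DirichletCharacter ℂ M) (U : ℝ) (n : ℕ) : ℂ :=
  (ASI.bt U n : ℂ) * χ n

private theorem SplitL1_eA_le {M : ℕ} (χ : DirichletCharacter ℂ M) (U : ℝ) (n : ℕ) :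
    ‖SplitL1_eA χ U n‖ ≤ (n.divisors.card : ℝ) * (1 + Real.log n) := by
  unfold SplitL1_eA
  rw [norm_mul, Complex.norm_real, Real.norm_eq_abs]
  have hχ : ‖χ (n : ZMod M)‖ ≤ 1 := DirichletCharacter.norm_le_one χ _
  have h4 : 0 ≤ ArithmeticFunction.vonMangoldt n := ArithmeticFunction.vonMangoldt_nonneg
  have h5 := ASI.hL_nonneg U (Real.log n)
  have h6 := ASI.hL_le U (Real.log n)
  rw [abs_of_nonneg (mul_nonneg h4 h5)]
  rcases Nat.eq_zero_or_pos n with h | h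
  · subst h; simp
  · have h1 := SplitL1_one_le_card h
    have h2 : 0 ≤ Real.log (n : ℝ) := Real.log_natCast_nonneg n
    have h3 : ArithmeticFunction.vonMangoldt n ≤ Real.log n := ArithmeticFunction.vonMangoldt_le_log
    have h7 : ArithmeticFunction.vonMangoldt n * ASI.hL U (Real.log n) ≤ Real.log n :=
      (mul_le_of_le_one_right h4 h6).trans h3
    have h8 : ArithmeticFunction.vonMangoldt n * ASI.hL U (Real.log n) * ‖χ (n : ZMod M)‖ ≤
        Real.log n := (mul_le_of_le_one_right (mul_nonneg h4 h5) hχ).trans h7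
    nlinarith

private theorem SplitL1_eB_le {M : ℕ} (χ : DirichletCharacter ℂ M) (U : ℝ) (n : ℕ) :
    ‖SplitL1_eB χ U n‖ ≤ (n.divisors.card : ℝ) * (1 + Real.log n) := by
  unfold SplitL1_eB
  rw [norm_mul, Complex.norm_real, Real.norm_eq_abs]
  have hχ : ‖χ (n : ZMod M)‖ ≤ 1 := DirichletCharacter.norm_le_one χ _
  have h2 : 0 ≤ Real.log (n : ℝ) := Real.log_natCast_nonneg n
  have h3 := ASI.bt_le U n
  have h4 : |ASI.bt U n| * ‖χ (n : ZMod M)‖ ≤ (n.divisors.card : ℝ) :=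
    (mul_le_of_le_one_right (abs_nonneg _) hχ).trans h3
  have h5 : (0 : ℝ) ≤ (n.divisors.card : ℝ) := Nat.cast_nonneg _
  nlinarith

private theorem SplitL1_As {M : ℕ} (χ : DirichletCharacter ℂ M) (U c τ : ℝ) :
    ASC.As χ U c τ = gsx (SplitL1_eA χ U) c τ := by
  unfold ASC.As gsx SplitL1_eA ASC.nc ASI.np
  refine tsum_congr fun n => ?_
  ring

private theorem SplitL1_Bs {M : ℕ} (χ : DirichletCharacter ℂ M) (U c τ : ℝ) :
    ASC.Bs χ U c τ = gsx (SplitL1_eB χ U) c τ := by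
  unfold ASC.Bs gsx SplitL1_eB ASC.nc ASI.np
  refine tsum_congr fun n => ?_
  ring

private theorem SplitL1_contA {M : ℕ} (χ : DirichletCharacter ℂ M) (U c : ℝ) :
    Continuous (fun τ => ASC.As χ U c τ) := by
  have h := (ASC.AsBs_cont χ U).1
  have h2 : Continuous (fun τ : ℝ => ((c, τ) : ℝ × ℝ)) := continuous_const.prodMk continuous_id
  have h3 := Continuous.comp (f := fun τ : ℝ => ((c, τ) : ℝ × ℝ))
    (g := fun q : ℝ × ℝ => ASC.As χ U q.1 q.2) h h2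
  exact h3

private theorem SplitL1_contB {M : ℕ} (χ : DirichletCharacter ℂ M) (U c : ℝ) :
    Continuous (fun τ => ASC.Bs χ U c τ) := by
  have h := (ASC.AsBs_cont χ U).2
  have h2 : Continuous (fun τ : ℝ => ((c, τ) : ℝ × ℝ)) := continuous_const.prodMk continuous_id
  have h3 := Continuous.comp (f := fun τ : ℝ => ((c, τ) : ℝ × ℝ))
    (g := fun q : ℝ × ℝ => ASC.Bs χ U q.1 q.2) h h2
  exact h3

private theorem SplitL1_contS {M : ℕ} (χ : DirichletCharacter ℂ M) (L c : ℝ) :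
    Continuous (fun τ => sc χ L c τ) := by
  unfold sc
  by_cases h : c ≤ L / 2
  · simp only [h, if_true]
    exact SplitL1_contA χ _ _
  · simp only [h, if_false]
    exact SplitL1_contB χ _ _

/-- The inequality of Halász and Montgomery, uniform in the length. -/
private theorem SplitL1_hm {κ C L : ℝ} (hκ : 0 < κ) (hC : 1 ≤ C) (hL : 1 ≤ L)
    (hhm : ∀ e : ℕ → ℂ,
      (∀ n : ℕ, ‖e n‖ ≤ (n.divisors.card : ℝ) * (1 + Real.log n)) → ∀ c T : ℝ, 0 ≤ c → 0 ≤ T →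
      2 * T ≤ Real.exp (82 * c) → ∀ E : Set ℝ, MeasurableSet E → E ⊆ Set.Icc (-T) T →
      ∫ τ in E, ‖gsx e c τ‖ ^ 2 ≤ C * (1 + c) ^ 8 * (1 + Real.exp (-κ * c) * (volume E).toReal))
    (e : ℕ → ℂ) (he : ∀ n : ℕ, ‖e n‖ ≤ (n.divisors.card : ℝ) * (1 + Real.log n)) (y : ℝ)
    (hy : L / 40 ≤ y) (hy2 : y ≤ L) (E : Set ℝ) (hE : MeasurableSet E)
    (hE2 : E ⊆ Set.Icc (-Real.exp (L / 2)) (Real.exp (L / 2))) :
    ∫ τ in E, ‖gsx e y τ‖ ^ 2 ≤
      C * (1 + L) ^ 8 * (1 + Real.exp (-κ * (L / 40)) * (volume E).toReal) := by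
  have h0 : 0 ≤ y := by linarith
  have h1 : 2 * Real.exp (L / 2) ≤ Real.exp (82 * y) := by
    have h2 : (2 : ℝ) ≤ Real.exp (82 * y - L / 2) := by
      have := Real.add_one_le_exp (82 * y - L / 2)
      linarith
    calc 2 * Real.exp (L / 2) ≤ Real.exp (82 * y - L / 2) * Real.exp (L / 2) :=
          mul_le_mul_of_nonneg_right h2 (Real.exp_pos _).le
      _ = Real.exp (82 * y) := by rw [← Real.exp_add]; congr 1; ring
  refine (hhm e he y (Real.exp (L / 2)) h0 (Real.exp_pos _).le h1 E hE hE2).trans ?_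
  have h3 : (0 : ℝ) ≤ (volume E).toReal := ENNReal.toReal_nonneg
  have h4 : Real.exp (-κ * y) ≤ Real.exp (-κ * (L / 40)) := by
    apply Real.exp_le_exp.2
    nlinarith
  have h5 : (1 + y) ^ 8 ≤ (1 + L) ^ 8 := pow_le_pow_left₀ (by linarith) (by linarith) 8
  have h6 : 0 < Real.exp (-κ * y) := Real.exp_pos _
  apply mul_le_mul
  · exact mul_le_mul_of_nonneg_left h5 (by linarith)
  · have := mul_le_mul_of_nonneg_right h4 h3
    linarith
  · positivity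
  · positivity

/-- The bound for fixed `c`. -/
private theorem SplitL1_c {M : ℕ} (χ : DirichletCharacter ℂ M) {κ1 κ C L δ A c : ℝ}
    (hκ : 0 < κ) (hC : 1 ≤ C) (hL : 1 ≤ L)
    (hhm : ∀ e : ℕ → ℂ,
      (∀ n : ℕ, ‖e n‖ ≤ (n.divisors.card : ℝ) * (1 + Real.log n)) → ∀ c T : ℝ, 0 ≤ c → 0 ≤ T →
      2 * T ≤ Real.exp (82 * c) → ∀ E : Set ℝ, MeasurableSet E → E ⊆ Set.Icc (-T) T →
      ∫ τ in E, ‖gsx e c τ‖ ^ 2 ≤ C * (1 + c) ^ 8 * (1 + Real.exp (-κ * c) * (volume E).toReal))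
    (hc : L / 40 ≤ c) (hc2 : c ≤ 39 * L / 40)
    (hA : ∀ E : Set ℝ, MeasurableSet E →
      E ⊆ {τ : ℝ | L ≤ |τ| ∧ |τ| ≤ Real.exp L} → volume E ≤ ENNReal.ofReal (Real.exp (κ1 * L)) →
      ∫ τ in E, ‖ASC.As χ (L / 20) c τ‖ ^ 2 ≤ L ^ (-(2 * A)))
    (h2 : 2 * (C * (1 + L) ^ 8) * Real.exp (-κ * (L / 40)) ≤ Real.exp (-δ * L) ^ 2)
    (h3 : 2 * (C * (1 + L) ^ 8) ≤ Real.exp (κ1 * L) * Real.exp (-δ * L) ^ 2) :
    ∫⁻ τ in {τ : ℝ | L < |τ| ∧ |τ| ≤ Real.exp (L / 2)}, ‖prb δ χ L c τ‖ₑ ≤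
      ENNReal.ofReal (2 * (C * (1 + L) ^ 8) * L ^ (-A)) := by
  set T : ℝ := Real.exp (L / 2) with hT
  set W : ℝ := C * (1 + L) ^ 8 with hW
  set V : ℝ := Real.exp (-δ * L) with hV
  have hVp : 0 < V := Real.exp_pos _
  have hW1 : 1 ≤ W := by
    have : (1 : ℝ) ≤ (1 + L) ^ 8 := one_le_pow₀ (by linarith)
    nlinarith
  set q : ℝ := Real.exp (-κ * (L / 40)) with hq
  have hqp : 0 < q := Real.exp_pos _
  set S : Set ℝ := {τ : ℝ | L < |τ| ∧ |τ| ≤ T} with hS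
  set E : Set ℝ := {τ : ℝ | (L < |τ| ∧ |τ| ≤ T) ∧ V < ‖sc χ L c τ‖} with hE
  have hSm : MeasurableSet S := by
    have h1 : MeasurableSet {τ : ℝ | L < |τ|} :=
      measurableSet_lt measurable_const continuous_abs.measurable
    have h2 : MeasurableSet {τ : ℝ | |τ| ≤ T} :=
      measurableSet_le continuous_abs.measurable measurable_const
    exact h1.inter h2
  have hEm : MeasurableSet E :=
    hSm.inter (measurableSet_lt measurable_const (SplitL1_contS χ L c).norm.measurable)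
  have hEI : E ⊆ Set.Icc (-T) T := fun τ hτ => abs_le.1 hτ.1.2
  have hEv : volume E ≠ ⊤ := by
    refine ne_top_of_le_ne_top ?_ (measure_mono hEI)
    rw [Real.volume_Icc]
    exact ENNReal.ofReal_ne_top
  set v : ℝ := (volume E).toReal with hv
  have hv0 : 0 ≤ v := ENNReal.toReal_nonneg
  -- integrability
  have hint : ∀ f : ℝ → ℝ, Continuous f → IntegrableOn f E := fun f hf =>
    (hf.continuousOn.integrableOn_Icc).mono_set hEI
  -- the short factor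
  have hs : ∫ τ in E, ‖sc χ L c τ‖ ^ 2 ≤ W * (1 + q * v) := by
    unfold sc
    by_cases h : c ≤ L / 2
    · simp only [h, if_true]
      simp_rw [SplitL1_As]
      exact SplitL1_hm hκ hC hL hhm _ (SplitL1_eA_le χ _) c hc (by linarith) E hEm hEI
    · simp only [h, if_false]
      simp_rw [SplitL1_Bs]
      exact SplitL1_hm hκ hC hL hhm _ (SplitL1_eB_le χ _) (L - c) (by linarith) (by linarith) E
        hEm hEI
  have hlow : V ^ 2 * v ≤ ∫ τ in E, ‖sc χ L c τ‖ ^ 2 := by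
    have h1 : ∫ τ in E, V ^ 2 = V ^ 2 * v := by
      rw [setIntegral_const]
      simp only [Measure.real, smul_eq_mul]
      rw [mul_comm]
    rw [← h1]
    refine setIntegral_mono_on (integrableOn_const hEv) (hint _ ((SplitL1_contS χ L c).norm.pow 2))
      hEm fun τ hτ => ?_
    exact pow_le_pow_left₀ hVp.le hτ.2.le 2
  have hV2 : 0 < V ^ 2 := by positivity
  have hsize : V ^ 2 * v ≤ 2 * W := by
    have h5 : 2 * W * q * v ≤ V ^ 2 * v := mul_le_mul_of_nonneg_right h2 hv0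
    nlinarith
  have hqv : q * v ≤ 1 := by
    have h5 : 2 * W * q * v ≤ V ^ 2 * v := mul_le_mul_of_nonneg_right h2 hv0
    have h6 : 2 * W * (q * v) ≤ 2 * W * 1 := by nlinarith
    exact le_of_mul_le_mul_left h6 (by linarith)
  have hvle : v ≤ Real.exp (κ1 * L) := by
    have h6 : V ^ 2 * v ≤ V ^ 2 * Real.exp (κ1 * L) := by
      calc V ^ 2 * v ≤ 2 * W := hsize
        _ ≤ Real.exp (κ1 * L) * V ^ 2 := h3
        _ = _ := by ring
    exact le_of_mul_le_mul_left h6 hV2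
  have hvol : volume E ≤ ENNReal.ofReal (Real.exp (κ1 * L)) := by
    rw [← ENNReal.ofReal_toReal hEv]
    exact ENNReal.ofReal_le_ofReal hvle
  have hTL : T ≤ Real.exp L := Real.exp_le_exp.2 (by linarith)
  have hAE : ∫ τ in E, ‖ASC.As χ (L / 20) c τ‖ ^ 2 ≤ L ^ (-(2 * A)) :=
    hA E hEm (fun τ hτ => ⟨hτ.1.1.le, hτ.1.2.trans hTL⟩) hvol
  have hBE : ∫ τ in E, ‖ASC.Bs χ (L / 20) (L - c) τ‖ ^ 2 ≤ 2 * W := by
    have h7 : ∫ τ in E, ‖ASC.Bs χ (L / 20) (L - c) τ‖ ^ 2 ≤ W * (1 + q * v) := by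
      simp_rw [SplitL1_Bs]
      exact SplitL1_hm hκ hC hL hhm _ (SplitL1_eB_le χ _) (L - c) (by linarith) (by linarith) E
        hEm hEI
    nlinarith
  -- the reduction to `E`
  have hred : ∫⁻ τ in S, ‖prb δ χ L c τ‖ₑ =
      ∫⁻ τ in E, ‖ASC.As χ (L / 20) c τ * ASC.Bs χ (L / 20) (L - c) τ‖ₑ := by
    rw [← lintegral_indicator hSm, ← lintegral_indicator hEm]
    refine lintegral_congr fun τ => ?_
    by_cases hτ : τ ∈ S
    · rw [Set.indicator_of_mem hτ]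
      by_cases hτ2 : V < ‖sc χ L c τ‖
      · have : τ ∈ E := ⟨hτ, hτ2⟩
        rw [Set.indicator_of_mem this]
        unfold prb
        rw [if_pos hτ2]
      · have : τ ∉ E := fun h => hτ2 h.2
        rw [Set.indicator_of_notMem this]
        unfold prb
        rw [if_neg hτ2]
        simp
    · have : τ ∉ E := fun h => hτ h.1
      rw [Set.indicator_of_notMem hτ, Set.indicator_of_notMem this]
  rw [hred]
  have hcont : Continuous (fun τ => ASC.As χ (L / 20) c τ * ASC.Bs χ (L / 20) (L - c) τ) :=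
    (SplitL1_contA χ _ _).mul (SplitL1_contB χ _ _)
  have hi : IntegrableOn (fun τ => ASC.As χ (L / 20) c τ * ASC.Bs χ (L / 20) (L - c) τ) E :=
    (hcont.continuousOn.integrableOn_Icc).mono_set hEI
  rw [← ofReal_integral_norm_eq_lintegral_enorm hi]
  apply ENNReal.ofReal_le_ofReal
  have hLp : 0 < L := by linarith
  set l : ℝ := L ^ A with hl
  have hlp : 0 < l := Real.rpow_pos_of_pos hLp _
  have hl1 : L ^ (-A) = l⁻¹ := by rw [hl, Real.rpow_neg hLp.le]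
  have hl2 : L ^ (-(2 * A)) = l⁻¹ * l⁻¹ := by
    rw [← hl1, ← Real.rpow_add hLp]
    congr 1
    ring
  have hcA : Continuous (fun τ => ‖ASC.As χ (L / 20) c τ‖ ^ 2) :=
    (SplitL1_contA χ (L / 20) c).norm.pow 2
  have hcB : Continuous (fun τ => ‖ASC.Bs χ (L / 20) (L - c) τ‖ ^ 2) :=
    (SplitL1_contB χ (L / 20) (L - c)).norm.pow 2
  have hmono : ∫ τ in E, ‖ASC.As χ (L / 20) c τ * ASC.Bs χ (L / 20) (L - c) τ‖ ≤
      ∫ τ in E, (l / 2 * ‖ASC.As χ (L / 20) c τ‖ ^ 2 + l⁻¹ / 2 * ‖ASC.Bs χ (L / 20) (L - c) τ‖ ^ 2) := by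
    refine setIntegral_mono_on (hint _ hcont.norm)
      (hint _ ((hcA.const_mul _).add (hcB.const_mul _))) hEm fun τ _ => ?_
    rw [norm_mul]
    generalize ‖ASC.As χ (L / 20) c τ‖ = a
    generalize ‖ASC.Bs χ (L / 20) (L - c) τ‖ = b
    have h8 : l * l⁻¹ = 1 := mul_inv_cancel₀ hlp.ne'
    have h9 : 0 ≤ l⁻¹ * (l * a - b) ^ 2 := by positivity
    have h10 : l⁻¹ * (l * a - b) ^ 2 = l * a ^ 2 - 2 * (a * b) + l⁻¹ * b ^ 2 := by
      have : l⁻¹ * (l * a - b) ^ 2 =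
        (l * l⁻¹) * l * a ^ 2 - 2 * (l * l⁻¹) * (a * b) + l⁻¹ * b ^ 2 := by ring
      rw [this, h8]; ring
    rw [h10] at h9
    linarith
  refine hmono.trans ?_
  rw [integral_add ((hint _ hcA).const_mul _) ((hint _ hcB).const_mul _), integral_const_mul,
    integral_const_mul, hl1]
  rw [hl2] at hAE
  have h11 : l / 2 * ∫ τ in E, ‖ASC.As χ (L / 20) c τ‖ ^ 2 ≤ l / 2 * (l⁻¹ * l⁻¹) :=
    mul_le_mul_of_nonneg_left hAE (by positivity)
  have h12 : l⁻¹ / 2 * ∫ τ in E, ‖ASC.Bs χ (L / 20) (L - c) τ‖ ^ 2 ≤ l⁻¹ / 2 * (2 * W) :=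
    mul_le_mul_of_nonneg_left hBE (by positivity)
  have h13 : l / 2 * (l⁻¹ * l⁻¹) = l⁻¹ / 2 := by
    have : l / 2 * (l⁻¹ * l⁻¹) = (l * l⁻¹) * l⁻¹ / 2 := by ring
    rw [this, mul_inv_cancel₀ hlp.ne']; ring
  have h14 : 0 < l⁻¹ := by positivity
  nlinarith

private theorem SplitL1_large {C μ : ℝ} (hC : 1 ≤ C) (hμ : 0 < μ) : ∃ L1 : ℝ, 1 ≤ L1 ∧ ∀ L : ℝ,
    L1 ≤ L → 2 * (C * (1 + L) ^ 8) ≤ Real.exp (μ * L) := by
  have h1 : Filter.Tendsto (fun L : ℝ => L ^ (8 : ℝ) * Real.exp (-μ * L)) Filter.atTop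
      (nhds 0) := tendsto_rpow_mul_exp_neg_mul_atTop_nhds_zero _ _ hμ
  have h2 : ∀ᶠ L : ℝ in Filter.atTop, L ^ (8 : ℝ) * Real.exp (-μ * L) < 1 / (512 * C) :=
    (tendsto_order.1 h1).2 _ (by positivity)
  obtain ⟨L1, hL1⟩ := Filter.eventually_atTop.1 h2
  refine ⟨max 1 L1, le_max_left _ _, fun L hL => ?_⟩
  have h3 : 1 ≤ L := (le_max_left _ _).trans hL
  have h4 := hL1 L ((le_max_right _ _).trans hL)
  have h5 : L ^ (8 : ℝ) = L ^ 8 := by
    rw [← Real.rpow_natCast]; norm_num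
  rw [h5] at h4
  have h6 : (1 + L) ^ 8 ≤ (2 * L) ^ 8 := pow_le_pow_left₀ (by linarith) (by linarith) 8
  have h7 : (2 * L) ^ 8 = 256 * L ^ 8 := by ring
  rw [h7] at h6
  have h8 : Real.exp (-μ * L) * Real.exp (μ * L) = 1 := by
    rw [← Real.exp_add]; simp
  have h9 : 0 < Real.exp (μ * L) := Real.exp_pos _
  have h10 : L ^ 8 ≤ 1 / (512 * C) * Real.exp (μ * L) := by
    calc L ^ 8 = L ^ 8 * Real.exp (-μ * L) * Real.exp (μ * L) := by rw [mul_assoc, h8, mul_one]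
      _ ≤ 1 / (512 * C) * Real.exp (μ * L) := mul_le_mul_of_nonneg_right h4.le h9.le
  calc 2 * (C * (1 + L) ^ 8) ≤ 2 * (C * (256 * L ^ 8)) := by gcongr
    _ = 512 * C * L ^ 8 := by ring
    _ ≤ 512 * C * (1 / (512 * C) * Real.exp (μ * L)) :=
        mul_le_mul_of_nonneg_left h10 (by positivity)
    _ = Real.exp (μ * L) := by field_simp

theorem Dbd_L1 (M : ℕ) [NeZero M] : ∃ δ0 : ℝ, 0 < δ0 ∧ ∀ δ : ℝ, 0 < δ → δ ≤ δ0 → ∀ A : ℝ, ∃ L0 : ℝ, 1 ≤ L0 ∧
    ∀ (χ : DirichletCharacter ℂ M) (L : ℝ), L0 ≤ L →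
    ∫ τ in Set.Icc (-Real.exp (L / 2)) (Real.exp (L / 2)), ‖Dbd δ χ L τ‖ ≤ L ^ (-A) := by
  obtain ⟨κ1, hκ1, _, hAs⟩ := As_sqX M
  obtain ⟨κ, C, hκ, _, hC, hhm⟩ := hmX 82
  refine ⟨min (κ1 / 4) (κ / 400), by positivity, fun δ hδ hδ0 A => ?_⟩
  have hδ1 : δ ≤ κ1 / 4 := hδ0.trans (min_le_left _ _)
  have hδ2 : δ ≤ κ / 400 := hδ0.trans (min_le_right _ _)
  obtain ⟨La, hLa1, hLa⟩ := hAs (2 * (A + 10))
  obtain ⟨Lb, hLb1, hLb⟩ := PX_point M 1 (A + 2)
  obtain ⟨Lc, hLc1, hLc⟩ := SplitL1_large hC (μ := min (κ / 50) (κ1 / 2)) (by positivity)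
  refine ⟨max (max La Lb) (max Lc (1028 * C)), (hLa1.trans (le_max_left _ _)).trans
    (le_max_left _ _), fun χ L hL => ?_⟩
  have hL1 : La ≤ L := ((le_max_left _ _).trans (le_max_left _ _)).trans hL
  have hL2 : Lb ≤ L := ((le_max_right _ _).trans (le_max_left _ _)).trans hL
  have hL3 : Lc ≤ L := ((le_max_left _ _).trans (le_max_right _ _)).trans hL
  have hL4 : 1028 * C ≤ L := ((le_max_right _ _).trans (le_max_right _ _)).trans hL
  have h1L : 1 ≤ L := hLa1.trans hL1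
  have hLp : 0 < L := by linarith
  have hlarge := hLc L hL3
  have hVe : Real.exp (-δ * L) ^ 2 = Real.exp (-(2 * δ * L)) := by
    rw [← Real.exp_nat_mul]; congr 1; push_cast; ring
  have h2 : 2 * (C * (1 + L) ^ 8) * Real.exp (-κ * (L / 40)) ≤ Real.exp (-δ * L) ^ 2 := by
    rw [hVe]
    calc 2 * (C * (1 + L) ^ 8) * Real.exp (-κ * (L / 40))
        ≤ Real.exp (min (κ / 50) (κ1 / 2) * L) * Real.exp (-κ * (L / 40)) :=
          mul_le_mul_of_nonneg_right hlarge (Real.exp_pos _).le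
      _ = Real.exp (min (κ / 50) (κ1 / 2) * L + -κ * (L / 40)) := by rw [Real.exp_add]
      _ ≤ Real.exp (-(2 * δ * L)) := by
          apply Real.exp_le_exp.2
          have h5 : min (κ / 50) (κ1 / 2) * L ≤ κ / 50 * L :=
            mul_le_mul_of_nonneg_right (min_le_left _ _) hLp.le
          have h6 : δ * L ≤ κ / 400 * L := mul_le_mul_of_nonneg_right hδ2 hLp.le
          have h7 : κ * (L / 40) = κ / 50 * L + κ / 200 * L := by ring
          linarith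
  have h3 : 2 * (C * (1 + L) ^ 8) ≤ Real.exp (κ1 * L) * Real.exp (-δ * L) ^ 2 := by
    rw [hVe, ← Real.exp_add]
    refine hlarge.trans (Real.exp_le_exp.2 ?_)
    have h5 : min (κ / 50) (κ1 / 2) * L ≤ κ1 / 2 * L :=
      mul_le_mul_of_nonneg_right (min_le_right _ _) hLp.le
    have h6 : δ * L ≤ κ1 / 4 * L := mul_le_mul_of_nonneg_right hδ1 hLp.le
    linarith
  set T : ℝ := Real.exp (L / 2) with hT
  set S : Set ℝ := {τ : ℝ | L < |τ| ∧ |τ| ≤ T} with hS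
  have hSm : MeasurableSet S := by
    have h1 : MeasurableSet {τ : ℝ | L < |τ|} :=
      measurableSet_lt measurable_const continuous_abs.measurable
    have h2 : MeasurableSet {τ : ℝ | |τ| ≤ T} :=
      measurableSet_le continuous_abs.measurable measurable_const
    exact h1.inter h2
  have hcover : Set.Icc (-T) T ⊆ Set.Icc (-L) L ∪ S := by
    intro τ hτ
    by_cases h : |τ| ≤ L
    · exact Or.inl (abs_le.1 h)
    · exact Or.inr ⟨not_le.1 h, abs_le.2 hτ⟩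
  rw [integral_norm_eq_lintegral_enorm (Dbd_meas δ χ L).aestronglyMeasurable]
  have hpos : (0 : ℝ) ≤ L ^ (-A) := Real.rpow_nonneg hLp.le _
  apply ENNReal.toReal_le_of_le_ofReal hpos
  have hE1 : ∫⁻ τ in Set.Icc (-L) L, ‖Dbd δ χ L τ‖ₑ ≤ ENNReal.ofReal (L ^ (-A) / 2) := by
    have h5 : ∀ τ ∈ Set.Icc (-L) L, ‖Dbd δ χ L τ‖ₑ ≤ ENNReal.ofReal (L ^ (-(A + 2))) := by
      intro τ hτ
      have h6 : |τ| ≤ L := abs_le.2 hτ
      have h7 : |τ| ≤ Real.exp (1 * L) := by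
        rw [one_mul]
        have := Real.add_one_le_exp L
        linarith
      have h8 := hLb χ L τ hL2 h7
      unfold Dbd
      rw [if_pos h6, ← ofReal_norm_eq_enorm]
      exact ENNReal.ofReal_le_ofReal h8
    calc ∫⁻ τ in Set.Icc (-L) L, ‖Dbd δ χ L τ‖ₑ
        ≤ ∫⁻ τ in Set.Icc (-L) L, ENNReal.ofReal (L ^ (-(A + 2))) :=
          setLIntegral_mono measurable_const h5
      _ = ENNReal.ofReal (L ^ (-(A + 2))) * ENNReal.ofReal (L - -L) := by
          rw [setLIntegral_const, Real.volume_Icc]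
      _ = ENNReal.ofReal (L ^ (-(A + 2)) * (L - -L)) := by
          rw [ENNReal.ofReal_mul (Real.rpow_nonneg hLp.le _)]
      _ ≤ ENNReal.ofReal (L ^ (-A) / 2) := by
          apply ENNReal.ofReal_le_ofReal
          have h9 : L ^ (-(A + 2)) = L ^ (-A) * (L⁻¹ * L⁻¹) := by
            rw [show -(A + 2) = -A + (-1) + (-1) by ring, Real.rpow_add hLp, Real.rpow_add hLp,
              Real.rpow_neg_one]
            ring
          have h10 : L⁻¹ * L = 1 := inv_mul_cancel₀ hLp.ne'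
          have h11 : L⁻¹ ≤ 1 / 4 := by
            rw [inv_eq_one_div]
            exact one_div_le_one_div_of_le (by norm_num) (by linarith)
          have h12 : L ^ (-A) * (L⁻¹ * L⁻¹) * (L - -L) = L ^ (-A) * (2 * L⁻¹) * (L⁻¹ * L) := by
            ring
          rw [h9, h12, h10]
          nlinarith
  have hE2 : ∫⁻ τ in S, ‖Dbd δ χ L τ‖ₑ ≤ ENNReal.ofReal (L ^ (-A) / 2) := by
    have h5 : ∀ τ ∈ S, ‖Dbd δ χ L τ‖ₑ ≤
        ∫⁻ c in Set.Icc (L / 40) (39 * L / 40), ‖prb δ χ L c τ‖ₑ := by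
      intro τ hτ
      unfold Dbd
      rw [if_neg (not_le.2 hτ.1), if_pos hτ.2]
      refine le_trans ?_ (enorm_integral_le_lintegral_enorm _)
      rw [enorm_mul]
      refine mul_le_of_le_one_left zero_le ?_
      rw [← ofReal_norm_eq_enorm, Complex.norm_real, Real.norm_eq_abs]
      rw [← ENNReal.ofReal_one]
      apply ENNReal.ofReal_le_ofReal
      have h6 : (1 : ℝ) ≤ Real.sqrt (2 * Real.pi) := by
        rw [show (1 : ℝ) = Real.sqrt 1 by simp]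
        apply Real.sqrt_le_sqrt
        have := Real.pi_gt_three
        linarith
      rw [abs_of_nonneg (by positivity)]
      exact (div_le_one (by linarith)).2 h6
    have hm : Measurable (fun q : ℝ × ℝ => ‖prb δ χ L q.1 q.2‖ₑ) := (prb_meas δ χ L).enorm
    have hm2 : Measurable (fun τ : ℝ => ∫⁻ c in Set.Icc (L / 40) (39 * L / 40), ‖prb δ χ L c τ‖ₑ) :=
      Measurable.lintegral_prod_right' (f := fun q : ℝ × ℝ => ‖prb δ χ L q.2 q.1‖ₑ)
        (hm.comp measurable_swap)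
    calc ∫⁻ τ in S, ‖Dbd δ χ L τ‖ₑ
        ≤ ∫⁻ τ in S, ∫⁻ c in Set.Icc (L / 40) (39 * L / 40), ‖prb δ χ L c τ‖ₑ :=
          setLIntegral_mono hm2 h5
      _ = ∫⁻ c in Set.Icc (L / 40) (39 * L / 40), ∫⁻ τ in S, ‖prb δ χ L c τ‖ₑ :=
          lintegral_lintegral_swap (f := fun τ c => ‖prb δ χ L c τ‖ₑ)
            (hm.comp measurable_swap).aemeasurable
      _ ≤ ∫⁻ c in Set.Icc (L / 40) (39 * L / 40),
            ENNReal.ofReal (2 * (C * (1 + L) ^ 8) * L ^ (-(A + 10))) := by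
          refine setLIntegral_mono measurable_const fun c hc => ?_
          refine SplitL1_c χ hκ hC h1L hhm hc.1 hc.2 ?_ h2 h3
          intro E hE hE2 hE3
          exact hLa χ L c hL1 hc.1 (by linarith [hc.2]) E hE hE2 hE3
      _ = ENNReal.ofReal (2 * (C * (1 + L) ^ 8) * L ^ (-(A + 10))) *
            ENNReal.ofReal (39 * L / 40 - L / 40) := by
          rw [setLIntegral_const, Real.volume_Icc]
      _ = ENNReal.ofReal (2 * (C * (1 + L) ^ 8) * L ^ (-(A + 10)) * (39 * L / 40 - L / 40)) :=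
          (ENNReal.ofReal_mul (by positivity)).symm
      _ ≤ ENNReal.ofReal (L ^ (-A) / 2) := by
          apply ENNReal.ofReal_le_ofReal
          have h9 : L ^ (-(A + 10)) = L ^ (-A) * (L⁻¹) ^ 10 := by
            have h16 : L ^ (10 : ℝ) = L ^ 10 := by rw [← Real.rpow_natCast]; norm_num
            rw [show -(A + 10) = -A + (-(10 : ℝ)) by ring, Real.rpow_add hLp,
              Real.rpow_neg hLp.le (10 : ℝ), h16, inv_pow]
          have h6 : (1 + L) ^ 8 ≤ (2 * L) ^ 8 := pow_le_pow_left₀ (by linarith) (by linarith) 8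
          have h7 : (2 * L) ^ 8 = 256 * L ^ 8 := by ring
          rw [h7] at h6
          have h13 : 39 * L / 40 - L / 40 ≤ L := by linarith
          have h14 : 0 ≤ L ^ (-A) * (L⁻¹) ^ 10 := by positivity
          rw [h9]
          calc 2 * (C * (1 + L) ^ 8) * (L ^ (-A) * (L⁻¹) ^ 10) * (39 * L / 40 - L / 40)
              ≤ 2 * (C * (256 * L ^ 8)) * (L ^ (-A) * (L⁻¹) ^ 10) * L := by
                apply mul_le_mul _ h13 (by linarith) (by positivity)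
                apply mul_le_mul_of_nonneg_right _ h14
                gcongr
            _ = L ^ (-A) * (512 * C * L⁻¹) * (L⁻¹ * L) ^ 9 := by ring
            _ = L ^ (-A) * (512 * C * L⁻¹) := by
                rw [inv_mul_cancel₀ hLp.ne', one_pow, mul_one]
            _ ≤ L ^ (-A) * (1 / 2) := by
                apply mul_le_mul_of_nonneg_left _ hpos
                rw [← div_eq_mul_inv, div_le_iff₀ hLp]
                linarith
            _ = L ^ (-A) / 2 := by ring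
  calc ∫⁻ τ in Set.Icc (-T) T, ‖Dbd δ χ L τ‖ₑ
      ≤ ∫⁻ τ in Set.Icc (-L) L ∪ S, ‖Dbd δ χ L τ‖ₑ := lintegral_mono_set hcover
    _ ≤ (∫⁻ τ in Set.Icc (-L) L, ‖Dbd δ χ L τ‖ₑ) + ∫⁻ τ in S, ‖Dbd δ χ L τ‖ₑ :=
        lintegral_union_le _ _ _
    _ ≤ ENNReal.ofReal (L ^ (-A) / 2) + ENNReal.ofReal (L ^ (-A) / 2) := add_le_add hE1 hE2
    _ = ENNReal.ofReal (L ^ (-A)) := by
        rw [← ENNReal.ofReal_add (by positivity) (by positivity)]
        congr 1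
        ring

end RAF
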