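import Pool.Agent.RAF.KS1
import Pool.Agent.ASC.TypeIC

/-!
# RAF.TypeI1: the type I sums are tiny, all characters

PROOF. For `χ ≠ 1` this is `ASC.typeI` (there are finitely many `χ`; take the maximum of the `L0`). For `χ = 1`: copy the proof of `ASC.typeI` in
`Pool/Agent/ASC/TypeIC.lean` or of `ASI.typeI` in `Pool/Agent/ASI/TypeI.lean` (its lemmas are private; there the bound `ASI.KS_bound` has the same shape as `KS_one`), with
`ASC.vaughan` and `KS_one`.
-/

namespace RAF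

open ArithmeticFunction ASI ASC

private theorem TypeI1_np_exp {M : ℕ} (χ : DirichletCharacter ℂ M) (n : ℕ) (τ : ℝ) :
    ‖nc χ n τ‖ * Real.exp (Real.log n) ≤ 1 := by
  have h1 := nc_norm χ n τ
  rcases Nat.eq_zero_or_pos n with h | h
  · subst h
    have h2 : ‖nc χ 0 τ‖ ≤ 0 := by simpa using h1
    simp only [Nat.cast_zero, Real.log_zero, Real.exp_zero, mul_one]
    linarith
  · have hn : (0 : ℝ) < n := by exact_mod_cast h
    rw [Real.exp_log hn]
    calc ‖nc χ n τ‖ * n ≤ (n : ℝ)⁻¹ * n := mul_le_mul_of_nonneg_right h1 hn.le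
      _ = 1 := inv_mul_cancel₀ hn.ne'

private theorem TypeI1_log_nonneg (n : ℕ) : 0 ≤ Real.log n := Real.log_natCast_nonneg n

private theorem TypeI1_np_le {M : ℕ} (χ : DirichletCharacter ℂ M) (n : ℕ) (τ : ℝ) : ‖nc χ n τ‖ ≤ 1 := by
  have h1 := TypeI1_np_exp χ n τ
  have h2 : (1 : ℝ) ≤ Real.exp (Real.log n) := Real.one_le_exp (TypeI1_log_nonneg n)
  have h3 := norm_nonneg (nc χ n τ)
  nlinarith

private theorem TypeI1_cut : ∃ C : ℝ, 1 ≤ C ∧ ∀ (U : ℝ) (h : ℝ → ℝ), 0 ≤ U → (∀ x, 0 ≤ 1 - h x) →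
    (∀ x, 1 - h x ≤ 1) → (∀ x, U ≤ x → 1 - h x ≤ Real.exp (-(x - U) ^ 2 / 8)) →
    Summable (fun n : ℕ => (1 + Real.log n) ^ 2 * (1 - h (Real.log n))) ∧
    ∑' n : ℕ, (1 + Real.log n) ^ 2 * (1 - h (Real.log n)) ≤ C * (1 + U) ^ 6 * Real.exp U := by
  obtain ⟨C, hC, hdiv⟩ := div_gauss
  refine ⟨2 + Real.exp 4 * C, by nlinarith [Real.exp_pos 4], ?_⟩
  intro U h hU h0 h1 h2
  obtain ⟨hs, hle, -⟩ := hdiv U
  set g : ℕ → ℝ := fun n => (n.divisors.card : ℝ) ^ 2 * (1 + Real.log n) ^ 2 / n *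
      Real.exp (-(Real.log n - U) ^ 2 / 16) with hg
  set N : ℕ := ⌊Real.exp U⌋₊ with hN
  set k : ℕ → ℝ := fun n => if n ∈ Finset.range (N + 1) then (1 + U) ^ 2 else 0 with hk
  have hgn : ∀ n, 0 ≤ g n := fun n => by positivity
  have hkn : ∀ n, 0 ≤ k n := fun n => by
    simp only [hk]
    split_ifs <;> positivity
  have hmaj : ∀ n : ℕ, (1 + Real.log n) ^ 2 * (1 - h (Real.log n)) ≤ k n + Real.exp (U + 4) * g n := by
    intro n
    have hl := TypeI1_log_nonneg n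
    by_cases hn : n ∈ Finset.range (N + 1)
    · have hnN : n ≤ N := by
        have := Finset.mem_range.1 hn
        omega
      have hnexp : (n : ℝ) ≤ Real.exp U := by
        calc (n : ℝ) ≤ N := by exact_mod_cast hnN
          _ ≤ Real.exp U := Nat.floor_le (Real.exp_pos U).le
      have hlog : Real.log n ≤ U := by
        rcases Nat.eq_zero_or_pos n with h' | h'
        · subst h'; simpa using hU
        · have := Real.log_le_log (by exact_mod_cast h' : (0 : ℝ) < n) hnexp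
          rwa [Real.log_exp] at this
      have e1 : k n = (1 + U) ^ 2 := by simp only [hk, hn, if_true]
      have e2 : (1 + Real.log n) ^ 2 * (1 - h (Real.log n)) ≤ (1 + U) ^ 2 * 1 := by
        apply mul_le_mul _ (h1 _) (h0 _) (by positivity)
        exact pow_le_pow_left₀ (by positivity) (by linarith) 2
      have e3 : 0 ≤ Real.exp (U + 4) * g n := mul_nonneg (Real.exp_pos _).le (hgn n)
      linarith
    · have hnN : N < n := by
        by_contra hcon
        exact hn (Finset.mem_range.2 (by omega))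
      have hexp : Real.exp U < n := (Nat.floor_lt' (by omega)).1 hnN
      have hnpos : (0 : ℝ) < n := lt_trans (Real.exp_pos U) hexp
      have hlog : U ≤ Real.log n := by
        have := Real.log_le_log (Real.exp_pos U) hexp.le
        rwa [Real.log_exp] at this
      have hnat : n ≠ 0 := by
        rintro rfl
        simp at hnpos
      have hd : (1 : ℝ) ≤ (n.divisors.card : ℝ) ^ 2 := by
        have : 1 ≤ n.divisors.card := Finset.card_pos.2 ⟨1, by simp [hnat]⟩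
        have : (1 : ℝ) ≤ (n.divisors.card : ℝ) := by exact_mod_cast this
        nlinarith
      have e1 : (1 + Real.log n) ^ 2 * (1 - h (Real.log n)) ≤
          (1 + Real.log n) ^ 2 * Real.exp (-(Real.log n - U) ^ 2 / 8) :=
        mul_le_mul_of_nonneg_left (h2 _ hlog) (by positivity)
      have e2 : Real.exp (-(Real.log n - U) ^ 2 / 8) ≤
          Real.exp (U + 4) * (1 / n * Real.exp (-(Real.log n - U) ^ 2 / 16)) := by
        have e3 : (1 / (n : ℝ)) = Real.exp (-Real.log n) := by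
          rw [Real.exp_neg, Real.exp_log hnpos, one_div]
        rw [e3, ← Real.exp_add, ← Real.exp_add]
        apply Real.exp_le_exp.2
        nlinarith [sq_nonneg (Real.log n - U - 8)]
      have e4 : (1 + Real.log n) ^ 2 * Real.exp (-(Real.log n - U) ^ 2 / 8) ≤
          Real.exp (U + 4) * ((1 + Real.log n) ^ 2 / n * Real.exp (-(Real.log n - U) ^ 2 / 16)) := by
        calc (1 + Real.log n) ^ 2 * Real.exp (-(Real.log n - U) ^ 2 / 8)
            ≤ (1 + Real.log n) ^ 2 * (Real.exp (U + 4) * (1 / n * Real.exp (-(Real.log n - U) ^ 2 / 16))) :=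
              mul_le_mul_of_nonneg_left e2 (by positivity)
          _ = _ := by ring
      have e5 : (1 + Real.log n) ^ 2 / n * Real.exp (-(Real.log n - U) ^ 2 / 16) ≤ g n := by
        simp only [hg]
        apply mul_le_mul_of_nonneg_right _ (Real.exp_pos _).le
        apply div_le_div_of_nonneg_right _ hnpos.le
        nlinarith [sq_nonneg (1 + Real.log n)]
      have e6 := mul_le_mul_of_nonneg_left e5 (Real.exp_pos (U + 4)).le
      have e7 := hkn n
      linarith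
  have hksum : Summable k := by
    apply summable_of_ne_finset_zero (s := Finset.range (N + 1))
    intro b hb
    simp only [hk, hb, if_false]
  have hktsum : ∑' n, k n = (N + 1) * (1 + U) ^ 2 := by
    rw [tsum_eq_sum (s := Finset.range (N + 1))]
    · have : ∀ b ∈ Finset.range (N + 1), k b = (1 + U) ^ 2 := fun b hb => by simp only [hk, hb, if_true]
      rw [Finset.sum_congr rfl this]
      simp
    · intro b hb
      simp only [hk, hb, if_false]
  have hmajs : Summable (fun n => k n + Real.exp (U + 4) * g n) := hksum.add (hs.mul_left _)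
  have hsum : Summable (fun n : ℕ => (1 + Real.log n) ^ 2 * (1 - h (Real.log n))) :=
    Summable.of_nonneg_of_le (fun n => mul_nonneg (by positivity) (h0 _)) hmaj hmajs
  refine ⟨hsum, ?_⟩
  have hNle : (N : ℝ) ≤ Real.exp U := Nat.floor_le (Real.exp_pos U).le
  have hE1 : (1 : ℝ) ≤ Real.exp U := Real.one_le_exp hU
  calc ∑' n : ℕ, (1 + Real.log n) ^ 2 * (1 - h (Real.log n))
      ≤ ∑' n, (k n + Real.exp (U + 4) * g n) := hsum.tsum_le_tsum hmaj hmajs
    _ = (N + 1) * (1 + U) ^ 2 + Real.exp (U + 4) * ∑' n, g n := by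
        rw [hksum.tsum_add (hs.mul_left _), hktsum, tsum_mul_left]
    _ ≤ (2 * Real.exp U) * (1 + U) ^ 6 + Real.exp (U + 4) * (C * (1 + |U|) ^ 6) := by
        apply add_le_add
        · apply mul_le_mul (by linarith) _ (by positivity) (by positivity)
          exact pow_le_pow_right₀ (by linarith) (by norm_num)
        · exact mul_le_mul_of_nonneg_left hle (Real.exp_pos _).le
    _ = (2 + Real.exp 4 * C) * (1 + U) ^ 6 * Real.exp U := by
        rw [abs_of_nonneg hU, Real.exp_add]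
        ring

private theorem TypeI1_step {M : ℕ} (χ : DirichletCharacter ℂ M) {ι : Type} (τ T C D : ℝ) (hT : 0 ≤ T) (hC : 0 ≤ C) (hD : 0 ≤ D)
    (G : ℝ → ι → ℂ)
    (hG : ∀ w, Summable (fun i => ‖G w i‖) ∧ ∑' i, ‖G w i‖ ≤ C * (1 + |w|))
    (hGv : ∀ w, ‖∑' i, G w i‖ ≤ D * (1 + |w|) * (T + Real.exp (-w)))
    (c : ℕ → ℂ) (f : ℕ → ℝ) (hf : Summable f) (hcf : ∀ n : ℕ, ‖c n‖ * (1 + Real.log n) ≤ f n)
    (B : ℝ) (hB : ∑' n, f n ≤ B) (w : ℝ) :
    (Summable (fun q : ℕ × ι => ‖c q.1 * nc χ q.1 τ * G (w - Real.log q.1) q.2‖) ∧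
      ∑' q : ℕ × ι, ‖c q.1 * nc χ q.1 τ * G (w - Real.log q.1) q.2‖ ≤ (C * B) * (1 + |w|)) ∧
    ‖∑' q : ℕ × ι, c q.1 * nc χ q.1 τ * G (w - Real.log q.1) q.2‖ ≤
      (D * B) * (1 + |w|) * (T + Real.exp (-w)) := by
  have hw : ∀ n : ℕ, 1 + |w - Real.log n| ≤ (1 + |w|) * (1 + Real.log n) := by
    intro n
    have h1 := TypeI1_log_nonneg n
    have h2 : |w - Real.log n| ≤ |w| + Real.log n := by
      have := abs_sub w (Real.log n)
      rwa [abs_of_nonneg h1] at this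
    nlinarith [abs_nonneg w]
  have hfn : ∀ n, 0 ≤ f n := fun n =>
    le_trans (mul_nonneg (norm_nonneg _) (by linarith [TypeI1_log_nonneg n])) (hcf n)
  -- inner sums
  have hin : ∀ n : ℕ, Summable (fun i => ‖c n * nc χ n τ * G (w - Real.log n) i‖) := by
    intro n
    simp_rw [norm_mul]
    exact (hG _).1.mul_left _
  have hinv : ∀ n : ℕ, ∑' i, ‖c n * nc χ n τ * G (w - Real.log n) i‖ ≤ C * (1 + |w|) * f n := by
    intro n
    simp_rw [norm_mul]
    rw [tsum_mul_left]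
    have h1 := TypeI1_log_nonneg n
    calc ‖c n‖ * ‖nc χ n τ‖ * ∑' i, ‖G (w - Real.log n) i‖
        ≤ ‖c n‖ * 1 * (C * (1 + |w - Real.log n|)) := by
          apply mul_le_mul _ (hG _).2 (tsum_nonneg fun i => norm_nonneg _) (by positivity)
          exact mul_le_mul_of_nonneg_left (TypeI1_np_le χ n τ) (norm_nonneg _)
      _ ≤ ‖c n‖ * 1 * (C * ((1 + |w|) * (1 + Real.log n))) := by
          apply mul_le_mul_of_nonneg_left _ (by positivity)
          exact mul_le_mul_of_nonneg_left (hw n) hC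
      _ = C * (1 + |w|) * (‖c n‖ * (1 + Real.log n)) := by ring
      _ ≤ C * (1 + |w|) * f n := mul_le_mul_of_nonneg_left (hcf n) (by positivity)
  have hsumN : Summable (fun q : ℕ × ι => ‖c q.1 * nc χ q.1 τ * G (w - Real.log q.1) q.2‖) := by
    rw [summable_prod_of_nonneg (fun q => norm_nonneg _)]
    refine ⟨hin, ?_⟩
    exact Summable.of_nonneg_of_le (fun n => tsum_nonneg fun i => norm_nonneg _) hinv (hf.mul_left _)
  have hsum : Summable (fun q : ℕ × ι => c q.1 * nc χ q.1 τ * G (w - Real.log q.1) q.2) := hsumN.of_norm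
  refine ⟨⟨hsumN, ?_⟩, ?_⟩
  · rw [hsumN.tsum_prod]
    calc ∑' n : ℕ, ∑' i, ‖c n * nc χ n τ * G (w - Real.log n) i‖ ≤ ∑' n : ℕ, C * (1 + |w|) * f n :=
          hsumN.prod.tsum_le_tsum hinv (hf.mul_left _)
      _ = C * (1 + |w|) * ∑' n, f n := tsum_mul_left
      _ ≤ C * (1 + |w|) * B := mul_le_mul_of_nonneg_left hB (by positivity)
      _ = (C * B) * (1 + |w|) := by ring
  · rw [hsum.tsum_prod]
    have hE : ∀ n : ℕ, ‖∑' i, c n * nc χ n τ * G (w - Real.log n) i‖ ≤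
        D * (1 + |w|) * (T + Real.exp (-w)) * f n := by
      intro n
      have h1 := TypeI1_log_nonneg n
      rw [tsum_mul_left, norm_mul, norm_mul]
      have hexp : T + Real.exp (-(w - Real.log n)) ≤ Real.exp (Real.log n) * (T + Real.exp (-w)) := by
        have h2 : Real.exp (-(w - Real.log n)) = Real.exp (Real.log n) * Real.exp (-w) := by
          rw [← Real.exp_add]
          congr 1
          ring
        have h3 : (1 : ℝ) ≤ Real.exp (Real.log n) := Real.one_le_exp h1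
        rw [h2]
        nlinarith
      calc ‖c n‖ * ‖nc χ n τ‖ * ‖∑' i, G (w - Real.log n) i‖
          ≤ ‖c n‖ * ‖nc χ n τ‖ * (D * (1 + |w - Real.log n|) * (T + Real.exp (-(w - Real.log n)))) :=
            mul_le_mul_of_nonneg_left (hGv _) (by positivity)
        _ ≤ ‖c n‖ * ‖nc χ n τ‖ * (D * ((1 + |w|) * (1 + Real.log n)) *
              (Real.exp (Real.log n) * (T + Real.exp (-w)))) := by
            apply mul_le_mul_of_nonneg_left _ (by positivity)
            apply mul_le_mul _ hexp (by positivity) (by positivity)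
            exact mul_le_mul_of_nonneg_left (hw n) hD
        _ = (‖nc χ n τ‖ * Real.exp (Real.log n)) *
              (D * (1 + |w|) * (T + Real.exp (-w)) * (‖c n‖ * (1 + Real.log n))) := by ring
        _ ≤ 1 * (D * (1 + |w|) * (T + Real.exp (-w)) * (‖c n‖ * (1 + Real.log n))) :=
            mul_le_mul_of_nonneg_right (TypeI1_np_exp χ n τ) (by positivity)
        _ = D * (1 + |w|) * (T + Real.exp (-w)) * (‖c n‖ * (1 + Real.log n)) := one_mul _
        _ ≤ D * (1 + |w|) * (T + Real.exp (-w)) * f n :=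
            mul_le_mul_of_nonneg_left (hcf n) (by positivity)
    have hsE : Summable (fun n : ℕ => ‖∑' i, c n * nc χ n τ * G (w - Real.log n) i‖) :=
      Summable.of_nonneg_of_le (fun n => norm_nonneg _) hE (hf.mul_left _)
    calc ‖∑' n : ℕ, ∑' i, c n * nc χ n τ * G (w - Real.log n) i‖
        ≤ ∑' n : ℕ, ‖∑' i, c n * nc χ n τ * G (w - Real.log n) i‖ := norm_tsum_le_tsum_norm hsE
      _ ≤ ∑' n : ℕ, D * (1 + |w|) * (T + Real.exp (-w)) * f n := hsE.tsum_le_tsum hE (hf.mul_left _)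
      _ = D * (1 + |w|) * (T + Real.exp (-w)) * ∑' n, f n := tsum_mul_left
      _ ≤ D * (1 + |w|) * (T + Real.exp (-w)) * B := mul_le_mul_of_nonneg_left hB (by positivity)
      _ = (D * B) * (1 + |w|) * (T + Real.exp (-w)) := by ring

private theorem TypeI1_cM (U : ℝ) (n : ℕ) :
    ‖(((moebius n : ℝ) * (1 - hM U (Real.log n)) : ℝ) : ℂ)‖ * (1 + Real.log n) ≤
      (1 + Real.log n) ^ 2 * (1 - hM U (Real.log n)) := by
  have h1 := TypeI1_log_nonneg n
  have h2 : 0 ≤ 1 - hM U (Real.log n) := by linarith [hM_le U (Real.log n)]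
  have h3 : |(moebius n : ℝ)| ≤ 1 := by
    have := abs_moebius_le_one (n := n)
    exact_mod_cast this
  rw [Complex.norm_real, Real.norm_eq_abs, abs_mul, abs_of_nonneg h2]
  have h4 : |(moebius n : ℝ)| * (1 - hM U (Real.log n)) ≤ 1 - hM U (Real.log n) := by nlinarith
  have h5 : (1 - hM U (Real.log n)) * (1 + Real.log n) ≤
      (1 + Real.log n) ^ 2 * (1 - hM U (Real.log n)) := by
    have : (1 + Real.log n) ≤ (1 + Real.log n) ^ 2 := by nlinarith
    nlinarith
  have h6 := mul_le_mul_of_nonneg_right h4 (by linarith : (0 : ℝ) ≤ 1 + Real.log n)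
  linarith

private theorem TypeI1_cL (U : ℝ) (n : ℕ) :
    ‖((vonMangoldt n * (1 - hL U (Real.log n)) : ℝ) : ℂ)‖ * (1 + Real.log n) ≤
      (1 + Real.log n) ^ 2 * (1 - hL U (Real.log n)) := by
  have h1 := TypeI1_log_nonneg n
  have h2 : 0 ≤ 1 - hL U (Real.log n) := by linarith [hL_le U (Real.log n)]
  have h3 : vonMangoldt n ≤ Real.log n := vonMangoldt_le_log
  have h3' : 0 ≤ vonMangoldt n := vonMangoldt_nonneg
  rw [Complex.norm_real, Real.norm_eq_abs, abs_mul, abs_of_nonneg h2, abs_of_nonneg h3']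
  have h4 : vonMangoldt n * (1 - hL U (Real.log n)) ≤ (1 + Real.log n) * (1 - hL U (Real.log n)) :=
    mul_le_mul_of_nonneg_right (by linarith) h2
  have h6 := mul_le_mul_of_nonneg_right h4 (by linarith : (0 : ℝ) ≤ 1 + Real.log n)
  calc vonMangoldt n * (1 - hL U (Real.log n)) * (1 + Real.log n)
      ≤ (1 + Real.log n) * (1 - hL U (Real.log n)) * (1 + Real.log n) := h6
    _ = _ := by ring

private theorem TypeI1_X1 {M : ℕ} (χ : DirichletCharacter ℂ M) : ∃ C : ℝ, 1 ≤ C ∧ ∀ L U τ : ℝ, 0 ≤ U →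
    ‖X1 χ L U τ‖ ≤ C * (1 + U) ^ 6 * Real.exp U * Real.exp (-L) := by
  obtain ⟨C, hC, hcut⟩ := TypeI1_cut
  refine ⟨Real.exp 2 * C, by nlinarith [Real.one_le_exp (show (0 : ℝ) ≤ 2 by norm_num)], ?_⟩
  intro L U τ hU
  obtain ⟨hs, hle⟩ := hcut U (hL U) hU (fun x => by linarith [hL_le U x])
    (fun x => by linarith [hL_nonneg U x]) (fun x hx => (hL_tail hx).trans (Real.exp_le_exp.2 (by
      nlinarith [sq_nonneg (x - U)])))
  have hterm : ∀ n : ℕ, ‖((vonMangoldt n * (1 - hL U (Real.log n)) : ℝ) : ℂ) * nc χ n τ *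
      (ps L (Real.log n) : ℝ)‖ ≤ Real.exp (2 - L) * ((1 + Real.log n) ^ 2 * (1 - hL U (Real.log n))) := by
    intro n
    have h1 := TypeI1_log_nonneg n
    have hps : 0 < ps L (Real.log n) := Real.exp_pos _
    rw [norm_mul, norm_mul, Complex.norm_real (ps L (Real.log n)), Real.norm_eq_abs, abs_of_pos hps]
    have h2 : ps L (Real.log n) ≤ Real.exp (2 - L) * Real.exp (Real.log n) := by
      unfold ps
      rw [← Real.exp_add]
      apply Real.exp_le_exp.2
      nlinarith [sq_nonneg (Real.log n - L + 4)]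
    have h3 := TypeI1_cL U n
    have h4 : 0 ≤ ‖((vonMangoldt n * (1 - hL U (Real.log n)) : ℝ) : ℂ)‖ := norm_nonneg _
    have h5 : ‖((vonMangoldt n * (1 - hL U (Real.log n)) : ℝ) : ℂ)‖ ≤
        (1 + Real.log n) ^ 2 * (1 - hL U (Real.log n)) := by nlinarith
    calc ‖((vonMangoldt n * (1 - hL U (Real.log n)) : ℝ) : ℂ)‖ * ‖nc χ n τ‖ * ps L (Real.log n)
        ≤ ‖((vonMangoldt n * (1 - hL U (Real.log n)) : ℝ) : ℂ)‖ * ‖nc χ n τ‖ *
            (Real.exp (2 - L) * Real.exp (Real.log n)) := mul_le_mul_of_nonneg_left h2 (by positivity)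
      _ = Real.exp (2 - L) * ‖((vonMangoldt n * (1 - hL U (Real.log n)) : ℝ) : ℂ)‖ *
            (‖nc χ n τ‖ * Real.exp (Real.log n)) := by ring
      _ ≤ Real.exp (2 - L) * ‖((vonMangoldt n * (1 - hL U (Real.log n)) : ℝ) : ℂ)‖ * 1 :=
          mul_le_mul_of_nonneg_left (TypeI1_np_exp χ n τ) (by positivity)
      _ ≤ Real.exp (2 - L) * ((1 + Real.log n) ^ 2 * (1 - hL U (Real.log n))) := by
          rw [mul_one]
          exact mul_le_mul_of_nonneg_left h5 (Real.exp_pos _).le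
  have hsn : Summable (fun n : ℕ => ‖((vonMangoldt n * (1 - hL U (Real.log n)) : ℝ) : ℂ) * nc χ n τ *
      (ps L (Real.log n) : ℝ)‖) :=
    Summable.of_nonneg_of_le (fun n => norm_nonneg _) hterm (hs.mul_left _)
  unfold ASC.X1
  calc _ ≤ ∑' n : ℕ, ‖((vonMangoldt n * (1 - hL U (Real.log n)) : ℝ) : ℂ) * nc χ n τ *
        (ps L (Real.log n) : ℝ)‖ := norm_tsum_le_tsum_norm hsn
    _ ≤ ∑' n : ℕ, Real.exp (2 - L) * ((1 + Real.log n) ^ 2 * (1 - hL U (Real.log n))) :=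
        hsn.tsum_le_tsum hterm (hs.mul_left _)
    _ = Real.exp (2 - L) * ∑' n : ℕ, (1 + Real.log n) ^ 2 * (1 - hL U (Real.log n)) := tsum_mul_left
    _ ≤ Real.exp (2 - L) * (C * (1 + U) ^ 6 * Real.exp U) :=
        mul_le_mul_of_nonneg_left hle (Real.exp_pos _).le
    _ = Real.exp 2 * C * (1 + U) ^ 6 * Real.exp U * Real.exp (-L) := by
        rw [sub_eq_add_neg, Real.exp_add]
        ring

/-- The family of the smooth sums. -/
private noncomputable def TypeI1G {M : ℕ} (χ : DirichletCharacter ℂ M) (j : ℕ) (τ w : ℝ) (n : ℕ) : ℂ :=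
  ((Real.log n ^ j * Real.exp (-(Real.log n - w) ^ 2 / 8) : ℝ) : ℂ) * nc χ n τ

private theorem TypeI1_pair {M : ℕ} [NeZero M] {χ : DirichletCharacter ℂ M} (hχ : χ = 1) : ∃ C : ℝ, 1 ≤ C ∧ ∀ (j : ℕ) (U τ w : ℝ), j ≤ 1 → 0 ≤ U →
    (Summable (fun q : ℕ × ℕ => ‖(((moebius q.1 : ℝ) * (1 - hM U (Real.log q.1)) : ℝ) : ℂ) * nc χ q.1 τ *
        TypeI1G χ j τ (w - Real.log q.1) q.2‖) ∧
      ∑' q : ℕ × ℕ, ‖(((moebius q.1 : ℝ) * (1 - hM U (Real.log q.1)) : ℝ) : ℂ) * nc χ q.1 τ *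
        TypeI1G χ j τ (w - Real.log q.1) q.2‖ ≤ C * (1 + U) ^ 6 * Real.exp U * (1 + |w|)) ∧
    ‖∑' q : ℕ × ℕ, (((moebius q.1 : ℝ) * (1 - hM U (Real.log q.1)) : ℝ) : ℂ) * nc χ q.1 τ *
        TypeI1G χ j τ (w - Real.log q.1) q.2‖ ≤
      C * (1 + U) ^ 6 * Real.exp U * (1 + |τ|) * (1 + |w|) * (Real.exp (-τ ^ 2) + Real.exp (-w)) := by
  obtain ⟨C, hC, hcut⟩ := TypeI1_cut
  obtain ⟨C1, hC1, htriv⟩ := KS_triv χ
  obtain ⟨C2, hC2, hbd⟩ := KS_one M
  rw [← hχ] at hbd
  refine ⟨(C1 + C2) * C, by nlinarith, ?_⟩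
  intro j U τ w hj hU
  obtain ⟨hs, hle⟩ := hcut U (hM U) hU (fun x => by linarith [hM_le U x])
    (fun x => by linarith [hM_nonneg U x]) (fun x hx => hM_tail hx)
  have hst := TypeI1_step χ (ι := ℕ) τ (Real.exp (-τ ^ 2)) C1 (C2 * (1 + |τ|)) (Real.exp_pos _).le
    (by linarith) (by positivity) (TypeI1G χ j τ) (fun w => htriv j w τ hj)
    (fun w => by
      have := hbd j w τ hj
      unfold ASC.KS at this
      unfold TypeI1G
      calc _ ≤ C2 * (1 + |w|) * (1 + |τ|) * (Real.exp (-τ ^ 2) + Real.exp (-w)) := this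
        _ = _ := by ring)
    (fun n => (((moebius n : ℝ) * (1 - hM U (Real.log n)) : ℝ) : ℂ)) _ hs (TypeI1_cM U) _ hle w
  have hP : 0 ≤ C * (1 + U) ^ 6 * Real.exp U := by positivity
  refine ⟨⟨hst.1.1, hst.1.2.trans ?_⟩, hst.2.trans ?_⟩
  · have : 0 ≤ C2 * (C * (1 + U) ^ 6 * Real.exp U) * (1 + |w|) := by positivity
    nlinarith
  · have : 0 ≤ C1 * (C * (1 + U) ^ 6 * Real.exp U) * (1 + |τ|) * (1 + |w|) *
        (Real.exp (-τ ^ 2) + Real.exp (-w)) := by positivity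
    nlinarith

private theorem TypeI1_X2 {M : ℕ} [NeZero M] {χ : DirichletCharacter ℂ M} (hχ : χ = 1) : ∃ C : ℝ, 1 ≤ C ∧ ∀ L U τ : ℝ, 0 ≤ U →
    ‖X2 χ L U τ‖ ≤
      C * (1 + U) ^ 6 * Real.exp U * (1 + |τ|) * (1 + |L|) * (Real.exp (-τ ^ 2) + Real.exp (-L)) := by
  obtain ⟨C, hC, hp⟩ := TypeI1_pair hχ
  refine ⟨C, hC, ?_⟩
  intro L U τ hU
  have h := (hp 1 U τ L le_rfl hU).2
  have he : X2 χ L U τ = ∑' q : ℕ × ℕ, (((moebius q.1 : ℝ) * (1 - hM U (Real.log q.1)) : ℝ) : ℂ) *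
      nc χ q.1 τ * TypeI1G χ 1 τ (L - Real.log q.1) q.2 := by
    unfold ASC.X2 TypeI1G ps
    apply tsum_congr
    intro q
    have : -(Real.log q.1 + Real.log q.2 - L) ^ 2 / 8 = -(Real.log q.2 - (L - Real.log q.1)) ^ 2 / 8 := by
      ring
    rw [this]
    push_cast
    ring
  rw [he]
  exact h

private theorem TypeI1_X3 {M : ℕ} [NeZero M] {χ : DirichletCharacter ℂ M} (hχ : χ = 1) : ∃ C : ℝ, 1 ≤ C ∧ ∀ L U τ : ℝ, 0 ≤ U →
    ‖X3 χ L U τ‖ ≤ C * (1 + U) ^ 12 * Real.exp (2 * U) * (1 + |τ|) * (1 + |L|) *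
      (Real.exp (-τ ^ 2) + Real.exp (-L)) := by
  obtain ⟨C, hC, hp⟩ := TypeI1_pair hχ
  obtain ⟨C', hC', hcut⟩ := TypeI1_cut
  refine ⟨C * C', by nlinarith, ?_⟩
  intro L U τ hU
  obtain ⟨hs, hle⟩ := hcut U (hL U) hU (fun x => by linarith [hL_le U x])
    (fun x => by linarith [hL_nonneg U x]) (fun x hx => (hL_tail hx).trans (Real.exp_le_exp.2 (by
      nlinarith [sq_nonneg (x - U)])))
  have hst := TypeI1_step χ (ι := ℕ × ℕ) τ (Real.exp (-τ ^ 2)) (C * (1 + U) ^ 6 * Real.exp U)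
    (C * (1 + U) ^ 6 * Real.exp U * (1 + |τ|)) (Real.exp_pos _).le (by positivity) (by positivity)
    (fun w q => (((moebius q.1 : ℝ) * (1 - hM U (Real.log q.1)) : ℝ) : ℂ) * nc χ q.1 τ *
        TypeI1G χ 0 τ (w - Real.log q.1) q.2)
    (fun w => (hp 0 U τ w (by norm_num) hU).1) (fun w => (hp 0 U τ w (by norm_num) hU).2)
    (fun n => ((vonMangoldt n * (1 - hL U (Real.log n)) : ℝ) : ℂ)) _ hs (TypeI1_cL U) _ hle L
  have he : X3 χ L U τ = ∑' q : ℕ × (ℕ × ℕ), ((vonMangoldt q.1 * (1 - hL U (Real.log q.1)) : ℝ) : ℂ) *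
      nc χ q.1 τ * ((((moebius q.2.1 : ℝ) * (1 - hM U (Real.log q.2.1)) : ℝ) : ℂ) * nc χ q.2.1 τ *
        TypeI1G χ 0 τ ((L - Real.log q.1) - Real.log q.2.1) q.2.2) := by
    unfold ASC.X3 TypeI1G ps
    apply tsum_congr
    intro q
    have : -(Real.log q.1 + Real.log q.2.1 + Real.log q.2.2 - L) ^ 2 / 8 =
        -(Real.log q.2.2 - (L - Real.log q.1 - Real.log q.2.1)) ^ 2 / 8 := by
      ring
    rw [this]
    push_cast
    ring
  rw [he]
  refine hst.2.trans (le_of_eq ?_)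
  have : Real.exp (2 * U) = Real.exp U * Real.exp U := by
    rw [← Real.exp_add]
    congr 1
    ring
  rw [this]
  ring

private theorem TypeI1_one {M : ℕ} [NeZero M] {χ : DirichletCharacter ℂ M} (hχ : χ = 1) :
    ∃ L0 : ℝ, 1 ≤ L0 ∧ ∀ L τ : ℝ, L0 ≤ L → L ≤ |τ| → |τ| ≤ Real.exp (L / 2) →
    ‖P χ L τ - T4 χ L (L / 20) τ‖ ≤ |τ| * Real.exp (-(77 / 100) * L) := by
  obtain ⟨C1, hC1, h1⟩ := TypeI1_X1 χ
  obtain ⟨C2, hC2, h2⟩ := TypeI1_X2 hχ
  obtain ⟨C3, hC3, h3⟩ := TypeI1_X3 hχ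
  -- `12 (C1 + C2 + C3) (1+L)^13 exp(-(13/100) L) ≤ 1` for large `L`
  have hlim : Filter.Tendsto (fun L : ℝ => (8 * (C1 + C2 + C3)) * ((1 + L) ^ 13 *
      Real.exp (-(13 / 100) * (1 + L)) * Real.exp (13 / 100))) Filter.atTop (nhds 0) := by
    have h0 := (Real.tendsto_pow_mul_exp_neg_atTop_nhds_zero 13)
    have h1 : Filter.Tendsto (fun L : ℝ => (13 / 100) * (1 + L)) Filter.atTop Filter.atTop :=
      (Filter.tendsto_atTop_add_const_left _ 1 Filter.tendsto_id).const_mul_atTop (by norm_num)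
    have h2 := (h0.comp h1).const_mul (8 * (C1 + C2 + C3) * Real.exp (13 / 100) * (100 / 13) ^ 13)
    rw [mul_zero] at h2
    refine h2.congr (fun L => ?_)
    simp only [Function.comp]
    rw [show -(13 / 100 * (1 + L)) = -(13 / 100) * (1 + L) by ring]
    ring
  have hev := (hlim.eventually (gt_mem_nhds (show (0 : ℝ) < 1 by norm_num)))
  obtain ⟨L0, hL0⟩ := Filter.eventually_atTop.1 hev
  refine ⟨max L0 1, le_max_right _ _, ?_⟩
  intro L τ hLL hLt _
  have hL1 : 1 ≤ L := (le_max_right _ _).trans hLL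
  have hLL0 : L0 ≤ L := (le_max_left _ _).trans hLL
  have hU : 0 ≤ L / 20 := by positivity
  have hτ1 : 1 ≤ |τ| := hL1.trans hLt
  rw [vaughan χ hU]
  have e1 := h1 L (L / 20) τ hU
  have e2 := h2 L (L / 20) τ hU
  have e3 := h3 L (L / 20) τ hU
  have hexpτ : Real.exp (-τ ^ 2) ≤ Real.exp (-L) := by
    apply Real.exp_le_exp.2
    have : τ ^ 2 = |τ| ^ 2 := (sq_abs τ).symm
    rw [this]
    nlinarith
  have hLa : |L| = L := abs_of_pos (by linarith)
  rw [hLa] at e2 e3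
  set E := Real.exp (-(9 / 10) * L) with hE
  have hEpos : 0 < E := Real.exp_pos _
  have hUL : (1 + L / 20) ≤ 1 + L := by linarith
  have hp6 : (1 + L / 20) ^ 6 ≤ (1 + L) ^ 12 :=
    (pow_le_pow_left₀ (by positivity) hUL 6).trans (pow_le_pow_right₀ (by linarith) (by norm_num))
  have hp12 : (1 + L / 20) ^ 12 ≤ (1 + L) ^ 12 := pow_le_pow_left₀ (by positivity) hUL 12
  have hx1 : Real.exp (L / 20) * Real.exp (-L) ≤ E := by
    rw [← Real.exp_add]
    exact Real.exp_le_exp.2 (by linarith)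
  have hx2 : Real.exp (2 * (L / 20)) * Real.exp (-L) ≤ E := by
    rw [← Real.exp_add]
    exact Real.exp_le_exp.2 (by linarith)
  have b1 : ‖X1 χ L (L / 20) τ‖ ≤ C1 * (4 * |τ| * (1 + L) ^ 13 * E) := by
    calc _ ≤ C1 * (1 + L / 20) ^ 6 * Real.exp (L / 20) * Real.exp (-L) := e1
      _ = C1 * ((1 + L / 20) ^ 6 * (Real.exp (L / 20) * Real.exp (-L))) := by ring
      _ ≤ C1 * ((1 + L) ^ 12 * E) := by
          apply mul_le_mul_of_nonneg_left _ (by linarith)
          exact mul_le_mul hp6 hx1 (by positivity) (by positivity)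
      _ ≤ C1 * (4 * |τ| * (1 + L) ^ 13 * E) := by
          apply mul_le_mul_of_nonneg_left _ (by linarith)
          apply mul_le_mul_of_nonneg_right _ hEpos.le
          have : (1 + L) ^ 13 = (1 + L) * (1 + L) ^ 12 := by ring
          rw [this]
          have hpos : 0 < (1 + L) ^ 12 := by positivity
          have : 1 ≤ 4 * |τ| * (1 + L) := by nlinarith
          nlinarith
  have b2 : ‖X2 χ L (L / 20) τ‖ ≤ C2 * (4 * |τ| * (1 + L) ^ 13 * E) := by
    calc _ ≤ C2 * (1 + L / 20) ^ 6 * Real.exp (L / 20) * (1 + |τ|) * (1 + L) *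
          (Real.exp (-τ ^ 2) + Real.exp (-L)) := e2
      _ ≤ C2 * (1 + L / 20) ^ 6 * Real.exp (L / 20) * (2 * |τ|) * (1 + L) * (2 * Real.exp (-L)) := by
          gcongr
          · linarith
          · linarith
      _ = C2 * (4 * |τ| * (1 + L) * ((1 + L / 20) ^ 6 * (Real.exp (L / 20) * Real.exp (-L)))) := by ring
      _ ≤ C2 * (4 * |τ| * (1 + L) * ((1 + L) ^ 12 * E)) := by
          apply mul_le_mul_of_nonneg_left _ (by linarith)
          apply mul_le_mul_of_nonneg_left _ (by positivity)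
          exact mul_le_mul hp6 hx1 (by positivity) (by positivity)
      _ = C2 * (4 * |τ| * (1 + L) ^ 13 * E) := by ring
  have b3 : ‖X3 χ L (L / 20) τ‖ ≤ C3 * (4 * |τ| * (1 + L) ^ 13 * E) := by
    calc _ ≤ C3 * (1 + L / 20) ^ 12 * Real.exp (2 * (L / 20)) * (1 + |τ|) * (1 + L) *
          (Real.exp (-τ ^ 2) + Real.exp (-L)) := e3
      _ ≤ C3 * (1 + L / 20) ^ 12 * Real.exp (2 * (L / 20)) * (2 * |τ|) * (1 + L) *
          (2 * Real.exp (-L)) := by
          gcongr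
          · linarith
          · linarith
      _ = C3 * (4 * |τ| * (1 + L) * ((1 + L / 20) ^ 12 * (Real.exp (2 * (L / 20)) *
          Real.exp (-L)))) := by ring
      _ ≤ C3 * (4 * |τ| * (1 + L) * ((1 + L) ^ 12 * E)) := by
          apply mul_le_mul_of_nonneg_left _ (by linarith)
          apply mul_le_mul_of_nonneg_left _ (by positivity)
          exact mul_le_mul hp12 hx2 (by positivity) (by positivity)
      _ = C3 * (4 * |τ| * (1 + L) ^ 13 * E) := by ring
  have hfin := hL0 L hLL0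
  have hfin' : (8 * (C1 + C2 + C3)) * ((1 + L) ^ 13 * Real.exp (-(13 / 100) * L)) ≤ 1 := by
    have e : Real.exp (-(13 / 100) * (1 + L)) * Real.exp (13 / 100) = Real.exp (-(13 / 100) * L) := by
      rw [← Real.exp_add]
      congr 1
      ring
    have := hfin.le
    rw [mul_assoc ((1 + L) ^ 13), e] at this
    exact this
  have hEe : E = Real.exp (-(13 / 100) * L) * Real.exp (-(77 / 100) * L) := by
    rw [hE, ← Real.exp_add]
    congr 1
    ring
  calc ‖X1 χ L (L / 20) τ + X2 χ L (L / 20) τ - X3 χ L (L / 20) τ + T4 χ L (L / 20) τ - T4 χ L (L / 20) τ‖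
      = ‖X1 χ L (L / 20) τ + X2 χ L (L / 20) τ - X3 χ L (L / 20) τ‖ := by
        congr 1
        ring
    _ ≤ ‖X1 χ L (L / 20) τ‖ + ‖X2 χ L (L / 20) τ‖ + ‖X3 χ L (L / 20) τ‖ :=
        (norm_sub_le _ _).trans (add_le_add (norm_add_le _ _) le_rfl)
    _ ≤ C1 * (4 * |τ| * (1 + L) ^ 13 * E) + C2 * (4 * |τ| * (1 + L) ^ 13 * E) +
        C3 * (4 * |τ| * (1 + L) ^ 13 * E) := add_le_add (add_le_add b1 b2) b3
    _ = |τ| * (((8 * (C1 + C2 + C3)) * ((1 + L) ^ 13 * Real.exp (-(13 / 100) * L))) / 2 *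
        Real.exp (-(77 / 100) * L)) := by
        rw [hEe]
        ring
    _ ≤ |τ| * (1 * Real.exp (-(77 / 100) * L)) := by
        apply mul_le_mul_of_nonneg_left _ (by positivity)
        apply mul_le_mul_of_nonneg_right _ (Real.exp_pos _).le
        linarith
    _ = |τ| * Real.exp (-(77 / 100) * L) := by ring

theorem typeI_all (M : ℕ) [NeZero M] : ∃ L0 : ℝ, 1 ≤ L0 ∧ ∀ (χ : DirichletCharacter ℂ M) (L τ : ℝ),
    L0 ≤ L → L ≤ |τ| → |τ| ≤ Real.exp (L / 2) →
    ‖ASC.P χ L τ - ASC.T4 χ L (L / 20) τ‖ ≤ |τ| * Real.exp (-(77 / 100) * L) := by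
  have hall : ∀ χ : DirichletCharacter ℂ M, ∃ L0 : ℝ, 1 ≤ L0 ∧ ∀ L τ : ℝ, L0 ≤ L → L ≤ |τ| →
      |τ| ≤ Real.exp (L / 2) →
      ‖ASC.P χ L τ - ASC.T4 χ L (L / 20) τ‖ ≤ |τ| * Real.exp (-(77 / 100) * L) := by
    intro χ
    by_cases h : χ = 1
    · exact TypeI1_one h
    · exact ASC.typeI h
  choose f hf1 hf2 using hall
  obtain ⟨B, hB⟩ := (Set.finite_range f).bddAbove
  refine ⟨max B 1, le_max_right _ _, ?_⟩
  intro χ L τ hL
  exact hf2 χ L τ (((hB ⟨χ, rfl⟩).trans (le_max_left _ _)).trans hL)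

end RAF
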