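import Pool.Agent.RAF.SplitD
import Pool.Agent.RAF.LowX
import Pool.Agent.RAF.TypeI1
import Pool.Agent.ASC.MSC
import Pool.Agent.ASC.T4EqC

/-!
# RAF.SplitL2: the rest is small in `L²` with a power saving

PROOF. `T = exp(L/2)`, `U = L/20`, `V = exp(-δL)`. For `|τ| ≤ L` the difference is `0`. For `L < |τ| ≤ T`, by `ASC.T4_eq`:
`DX - Dbd = (P - T4) - [χ=1] mainT + (1/√(2π)) (∫_{c<L/40} + ∫_{c>39L/40}) As U c τ Bs U (L-c) τ dc + (1/√(2π)) ∫_{L/40}^{39L/40} (As Bs - prb) dc`.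
`‖P - T4‖ ≤ |τ| exp(-77L/100)` (`typeI_all`), its square integrated over `|τ| ≤ T` is at most `2 exp(3L/2 - 154L/100) = 2 exp(-4L/100)`. `‖mainT L τ‖ ≤ 6 exp(-2τ²) ≤ 6 exp(-2L²)`.
The parts `c < L/40` (`As_lowX` and `‖Bs‖ ≤ C (1+|L-c|)^6`, `ASC.Bs_tail`) and `c > 39L/40` (`Bs_lowX` with `y = L - c < L/40`, `ASC.As_tail`) are `≤ exp(-3L/4)` pointwise for large `L`, because
`∫ exp(-L-|c|) C (1+|L-c|)^6 dc ≤ C' (1+L)^6 exp(-L)`. The last part: `As Bs - prb` vanishes unless `‖sc‖ ≤ V`, so for `c ≤ L/2` it is at most `V ‖Bs χ U (L-c) τ‖` and for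
`c > L/2` at most `V ‖As χ U c τ‖`; by Cauchy-Schwarz in `c` the square of its integral is at most `L ∫_{L/40}^{39L/40} ‖As Bs - prb‖² dc`, and by Tonelli and
`ASC.Bs_ms`: `∫_{|τ|≤T} ‖Bs χ U (L-c)‖² ≤ C (1+L)^6 (T exp(-(L-c)) + 1) ≤ 2C (1+L)^6` for `c ≤ L/2`, and the same for `As`, `c > L/2` (`ASC.As_ms`). Total
`≤ 4 (2 exp(-4L/100) + tiny + 2C (1+L)^8 exp(-2δL)) ≤ exp(-δL)` for large `L`, since `δ ≤ 1/100`. (Finitely many `χ`.)
-/

namespace RAF

open MeasureTheory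

attribute [local irreducible] ASC.As ASC.Bs ASC.T4 ASC.P ASI.mainT

private theorem SplitL2_cs (g : ℝ → ℝ) {a b : ℝ} (hab : a < b) (hi1 : IntegrableOn g (Set.Icc a b))
    (hi2 : IntegrableOn (fun x => g x ^ 2) (Set.Icc a b)) :
    (∫ x in Set.Icc a b, g x) ^ 2 ≤ (b - a) * ∫ x in Set.Icc a b, g x ^ 2 := by
  have hm : 0 < b - a := by linarith
  set t := (∫ x in Set.Icc a b, g x) / (b - a) with ht
  have h0 : 0 ≤ ∫ x in Set.Icc a b, (g x - t) ^ 2 := integral_nonneg fun x => sq_nonneg _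
  have h1 : ∫ x in Set.Icc a b, (g x - t) ^ 2 = (∫ x in Set.Icc a b, g x ^ 2) -
      2 * t * (∫ x in Set.Icc a b, g x) + t ^ 2 * (b - a) := by
    have e1 : ∀ x, (g x - t) ^ 2 = g x ^ 2 - 2 * t * g x + t ^ 2 := fun x => by ring
    simp only [e1]
    have e2 : ∫ x in Set.Icc a b, (g x ^ 2 - 2 * t * g x + t ^ 2) =
        (∫ x in Set.Icc a b, (g x ^ 2 - 2 * t * g x)) + ∫ _x in Set.Icc a b, t ^ 2 :=
      integral_add (hi2.sub (hi1.const_mul (2 * t))) (integrable_const _)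
    have e3 : ∫ x in Set.Icc a b, (g x ^ 2 - 2 * t * g x) =
        (∫ x in Set.Icc a b, g x ^ 2) - ∫ x in Set.Icc a b, 2 * t * g x :=
      integral_sub hi2 (hi1.const_mul (2 * t))
    rw [e2, e3, integral_const_mul, setIntegral_const,
      smul_eq_mul, Real.volume_real_Icc_of_le hab.le]
    ring
  rw [h1] at h0
  have h2 : (∫ x in Set.Icc a b, g x) = t * (b - a) := by
    rw [ht]
    field_simp
  rw [h2] at h0 ⊢
  have h3 : 0 ≤ (∫ x in Set.Icc a b, g x ^ 2) - t ^ 2 * (b - a) := by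
    have : (∫ x in Set.Icc a b, g x ^ 2) - 2 * t * (t * (b - a)) + t ^ 2 * (b - a) =
      (∫ x in Set.Icc a b, g x ^ 2) - t ^ 2 * (b - a) := by ring
    linarith
  have h4 := mul_nonneg hm.le h3
  nlinarith

private theorem SplitL2_ev (K γ : ℝ) (k : ℕ) (hK : 0 ≤ K) (hγ : 0 < γ) :
    ∀ᶠ L : ℝ in Filter.atTop, K * ((1 + L) ^ k * Real.exp (-γ * L)) ≤ 1 / 4 := by
  have h2 := Real.tendsto_exp_div_pow_atTop k
  have h3 : Filter.Tendsto (fun L : ℝ => γ * L) Filter.atTop Filter.atTop :=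
    Filter.tendsto_id.const_mul_atTop hγ
  have h4 := h2.comp h3
  filter_upwards [h4.eventually_ge_atTop (4 * K * 2 ^ k / γ ^ k), Filter.eventually_ge_atTop 1] with L hL hL1
  simp only [Function.comp] at hL
  have hL0 : 0 < L := by linarith
  rw [le_div_iff₀ (by positivity)] at hL
  have h5 : 4 * K * 2 ^ k / γ ^ k * (γ * L) ^ k = 4 * K * (2 * L) ^ k := by
    rw [mul_pow, mul_pow]
    field_simp
  rw [h5] at hL
  have h6 : (1 + L) ^ k ≤ (2 * L) ^ k := pow_le_pow_left₀ (by linarith) (by linarith) k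
  have h7 : K * (1 + L) ^ k ≤ 1 / 4 * Real.exp (γ * L) := by
    have := mul_le_mul_of_nonneg_left h6 hK
    linarith
  have h8 : Real.exp (γ * L) * Real.exp (-γ * L) = 1 := by
    rw [← Real.exp_add]
    simp
  calc K * ((1 + L) ^ k * Real.exp (-γ * L)) = K * (1 + L) ^ k * Real.exp (-γ * L) := by ring
    _ ≤ 1 / 4 * Real.exp (γ * L) * Real.exp (-γ * L) :=
        mul_le_mul_of_nonneg_right h7 (Real.exp_pos _).le
    _ = 1 / 4 := by rw [mul_assoc, h8, mul_one]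

private theorem SplitL2_poly (x : ℝ) : (1 + |x|) ^ 6 * Real.exp (-|x|) ≤ 120960 * (1 + x ^ 2)⁻¹ := by
  have h1 : (1 + |x|) ^ 8 / (Nat.factorial 8 : ℝ) ≤ Real.exp (1 + |x|) :=
    Real.pow_div_factorial_le_exp (1 + |x|) (by positivity) 8
  have h2 : (Nat.factorial 8 : ℝ) = 40320 := by norm_num [Nat.factorial]
  rw [h2, Real.exp_add, div_le_iff₀ (by norm_num)] at h1
  have h3 : Real.exp 1 ≤ 3 := by
    have := Real.exp_one_lt_d9
    linarith
  have h4 : 0 < Real.exp |x| := Real.exp_pos _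
  have h5 : (1 + |x|) ^ 8 ≤ 120960 * Real.exp |x| := by nlinarith
  have h6 : 1 + x ^ 2 ≤ (1 + |x|) ^ 2 := by
    have := sq_abs x
    nlinarith [abs_nonneg x]
  have h7 : 0 < 1 + x ^ 2 := by positivity
  rw [le_mul_inv_iff₀ h7]
  have h8 : Real.exp |x| * Real.exp (-|x|) = 1 := by
    rw [← Real.exp_add]
    simp
  calc (1 + |x|) ^ 6 * Real.exp (-|x|) * (1 + x ^ 2)
      ≤ (1 + |x|) ^ 6 * Real.exp (-|x|) * (1 + |x|) ^ 2 := mul_le_mul_of_nonneg_left h6 (by positivity)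
    _ = (1 + |x|) ^ 8 * Real.exp (-|x|) := by ring
    _ ≤ 120960 * Real.exp |x| * Real.exp (-|x|) := mul_le_mul_of_nonneg_right h5 (Real.exp_pos _).le
    _ = 120960 := by rw [mul_assoc, h8, mul_one]

private theorem SplitL2_six {L x : ℝ} (hL : 0 ≤ L) : (1 + |L - x|) ^ 6 ≤ (1 + L) ^ 6 * (1 + |x|) ^ 6 := by
  rw [← mul_pow]
  apply pow_le_pow_left₀ (by positivity)
  have h1 : |L - x| ≤ |L| + |x| := abs_sub _ _
  rw [abs_of_nonneg hL] at h1
  nlinarith [abs_nonneg x, mul_nonneg hL (abs_nonneg x)]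

/-- the parts with `c < L/40` or `c > 39L/40` -/
private theorem SplitL2_off {M : ℕ} (χ : DirichletCharacter ℂ M) : ∃ C L0 : ℝ, 0 ≤ C ∧ 1 ≤ L0 ∧ ∀ L τ : ℝ,
    L0 ≤ L → Integrable (fun c : ℝ => ASC.As χ (L / 20) c τ * ASC.Bs χ (L / 20) (L - c) τ) ∧
    ‖∫ c in (Set.Icc (L / 40) (39 * L / 40))ᶜ, ASC.As χ (L / 20) c τ * ASC.Bs χ (L / 20) (L - c) τ‖ ≤
      C * ((1 + L) ^ 6 * Real.exp (-L)) := by
  obtain ⟨C2, hC2, hA⟩ := ASC.As_tail χ
  obtain ⟨C3, hC3, hB⟩ := ASC.Bs_tail χ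
  obtain ⟨L1, hL1, hlA⟩ := As_lowX
  obtain ⟨L2, hL2, hlB⟩ := Bs_lowX
  refine ⟨(C2 + C3) * 120960 * (2 * Real.pi), max L1 L2, by positivity, hL1.trans (le_max_left _ _), ?_⟩
  intro L τ hL
  have e1 : L1 ≤ L := (le_max_left _ _).trans hL
  have e2 : L2 ≤ L := (le_max_right _ _).trans hL
  have hL0 : 0 ≤ L := by linarith
  obtain ⟨hcA, hcB⟩ := ASC.AsBs_cont χ (L / 20)
  have hcont : Continuous (fun c : ℝ => ASC.As χ (L / 20) c τ * ASC.Bs χ (L / 20) (L - c) τ) := by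
    have h1 : Continuous fun c : ℝ => ASC.As χ (L / 20) c τ := hcA.comp (continuous_id.prodMk continuous_const)
    have h2 : Continuous fun c : ℝ => ASC.Bs χ (L / 20) (L - c) τ :=
      hcB.comp ((continuous_const.sub continuous_id).prodMk continuous_const)
    exact h1.mul h2
  set E : ℝ := (C2 + C3) * 120960 * ((1 + L) ^ 6 * Real.exp (-L)) with hE
  have hE0 : 0 ≤ E := by positivity
  set G : ℝ → ℝ := fun c => E * ((1 + c ^ 2)⁻¹ + (1 + (L - c) ^ 2)⁻¹) with hG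
  have hG1 : Integrable (fun c : ℝ => (1 + c ^ 2)⁻¹) := integrable_inv_one_add_sq
  have hG2 : Integrable (fun c : ℝ => (1 + (L - c) ^ 2)⁻¹) := hG1.comp_sub_left L
  have hGi : Integrable G := (hG1.add hG2).const_mul E
  have hG0 : ∀ c, 0 ≤ G c := fun c => by positivity
  have hpt : ∀ c ∈ (Set.Icc (L / 40) (39 * L / 40))ᶜ,
      ‖ASC.As χ (L / 20) c τ * ASC.Bs χ (L / 20) (L - c) τ‖ ≤ G c := by
    intro c hc
    rw [Set.mem_compl_iff, Set.mem_Icc, not_and_or, not_le, not_le] at hc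
    have hi1 : 0 ≤ (1 + c ^ 2)⁻¹ := by positivity
    have hi2 : 0 ≤ (1 + (L - c) ^ 2)⁻¹ := by positivity
    have hq : 0 ≤ 120960 * ((1 + L) ^ 6 * Real.exp (-L)) := by positivity
    rw [norm_mul]
    rcases hc with hc | hc
    · have h1 := hlA χ L c τ e1 hc.le
      have h2 : ‖ASC.Bs χ (L / 20) (L - c) τ‖ ≤ C3 * ((1 + L) ^ 6 * (1 + |c|) ^ 6) :=
        (hB _ _ _).1.trans (mul_le_mul_of_nonneg_left (SplitL2_six hL0) (by linarith))
      calc ‖ASC.As χ (L / 20) c τ‖ * ‖ASC.Bs χ (L / 20) (L - c) τ‖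
          ≤ Real.exp (-L - |c|) * (C3 * ((1 + L) ^ 6 * (1 + |c|) ^ 6)) :=
            mul_le_mul h1 h2 (norm_nonneg _) (Real.exp_pos _).le
        _ = C3 * ((1 + L) ^ 6 * Real.exp (-L)) * ((1 + |c|) ^ 6 * Real.exp (-|c|)) := by
            rw [sub_eq_add_neg, Real.exp_add]
            ring
        _ ≤ C3 * ((1 + L) ^ 6 * Real.exp (-L)) * (120960 * (1 + c ^ 2)⁻¹) :=
            mul_le_mul_of_nonneg_left (SplitL2_poly c) (by positivity)
        _ = C3 * (120960 * ((1 + L) ^ 6 * Real.exp (-L)) * (1 + c ^ 2)⁻¹) := by ring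
        _ ≤ (C2 + C3) * (120960 * ((1 + L) ^ 6 * Real.exp (-L)) * ((1 + c ^ 2)⁻¹ + (1 + (L - c) ^ 2)⁻¹)) := by
            apply mul_le_mul (by linarith) _ (mul_nonneg hq hi1) (by linarith)
            exact mul_le_mul_of_nonneg_left (by linarith) hq
        _ = G c := by rw [hG, hE]; ring
    · have h1 := hlB χ L (L - c) τ e2 (by linarith)
      have h2 : ‖ASC.As χ (L / 20) c τ‖ ≤ C2 * ((1 + L) ^ 6 * (1 + |L - c|) ^ 6) := by
        refine (hA _ _ _).1.trans (mul_le_mul_of_nonneg_left ?_ (by linarith))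
        have := SplitL2_six (L := L) (x := L - c) hL0
        rwa [sub_sub_cancel] at this
      calc ‖ASC.As χ (L / 20) c τ‖ * ‖ASC.Bs χ (L / 20) (L - c) τ‖
          ≤ (C2 * ((1 + L) ^ 6 * (1 + |L - c|) ^ 6)) * Real.exp (-L - |L - c|) :=
            mul_le_mul h2 h1 (norm_nonneg _) (by positivity)
        _ = C2 * ((1 + L) ^ 6 * Real.exp (-L)) * ((1 + |L - c|) ^ 6 * Real.exp (-|L - c|)) := by
            rw [sub_eq_add_neg (-L), Real.exp_add]
            ring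
        _ ≤ C2 * ((1 + L) ^ 6 * Real.exp (-L)) * (120960 * (1 + (L - c) ^ 2)⁻¹) :=
            mul_le_mul_of_nonneg_left (SplitL2_poly (L - c)) (by positivity)
        _ = C2 * (120960 * ((1 + L) ^ 6 * Real.exp (-L)) * (1 + (L - c) ^ 2)⁻¹) := by ring
        _ ≤ (C2 + C3) * (120960 * ((1 + L) ^ 6 * Real.exp (-L)) * ((1 + c ^ 2)⁻¹ + (1 + (L - c) ^ 2)⁻¹)) := by
            apply mul_le_mul (by linarith) _ (mul_nonneg hq hi2) (by linarith)
            exact mul_le_mul_of_nonneg_left (by linarith) hq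
        _ = G c := by rw [hG, hE]; ring
  refine ⟨?_, ?_⟩
  · rw [← integrableOn_univ, ← Set.union_compl_self (Set.Icc (L / 40) (39 * L / 40))]
    refine IntegrableOn.union (hcont.continuousOn.integrableOn_compact isCompact_Icc) ?_
    refine Integrable.mono' hGi.integrableOn hcont.aestronglyMeasurable ?_
    exact (ae_restrict_iff' measurableSet_Icc.compl).2 (Filter.Eventually.of_forall hpt)
  · have h1 := norm_integral_le_of_norm_le (μ := volume.restrict (Set.Icc (L / 40) (39 * L / 40))ᶜ)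
      hGi.integrableOn ((ae_restrict_iff' measurableSet_Icc.compl).2 (Filter.Eventually.of_forall hpt))
    refine h1.trans ((setIntegral_le_integral hGi (Filter.Eventually.of_forall hG0)).trans (le_of_eq ?_))
    rw [hG, integral_const_mul, integral_add hG1 hG2,
      integral_sub_left_eq_self (fun c : ℝ => (1 + c ^ 2)⁻¹) volume L, integral_univ_inv_one_add_sq, hE]
    ring

/-- the factor which is small where `prb` vanishes -/
private theorem SplitL2_small {M : ℕ} (χ : DirichletCharacter ℂ M) (δ L c τ : ℝ) :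
    (c ≤ L / 2 → ‖ASC.As χ (L / 20) c τ * ASC.Bs χ (L / 20) (L - c) τ - prb δ χ L c τ‖ ^ 2 ≤
      Real.exp (-(2 * δ) * L) * ‖ASC.Bs χ (L / 20) (L - c) τ‖ ^ 2) ∧
    (L / 2 < c → ‖ASC.As χ (L / 20) c τ * ASC.Bs χ (L / 20) (L - c) τ - prb δ χ L c τ‖ ^ 2 ≤
      Real.exp (-(2 * δ) * L) * ‖ASC.As χ (L / 20) c τ‖ ^ 2) ∧
    ‖ASC.As χ (L / 20) c τ * ASC.Bs χ (L / 20) (L - c) τ - prb δ χ L c τ‖ ≤
      ‖ASC.As χ (L / 20) c τ‖ * ‖ASC.Bs χ (L / 20) (L - c) τ‖ := by
  have he : Real.exp (-(2 * δ) * L) = Real.exp (-δ * L) ^ 2 := by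
    rw [← Real.exp_nat_mul]
    congr 1
    push_cast
    ring
  have he0 : 0 < Real.exp (-δ * L) := Real.exp_pos _
  rw [he]
  unfold prb
  split_ifs with h
  · rw [sub_self, norm_zero]
    refine ⟨fun _ => ?_, fun _ => ?_, ?_⟩
    · rw [zero_pow two_ne_zero]
      positivity
    · rw [zero_pow two_ne_zero]
      positivity
    · positivity
  · rw [sub_zero, norm_mul]
    push Not at h
    unfold sc at h
    refine ⟨fun hc => ?_, fun hc => ?_, le_rfl⟩
    · rw [if_pos hc] at h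
      rw [mul_pow]
      exact mul_le_mul_of_nonneg_right (pow_le_pow_left₀ (norm_nonneg _) h 2) (sq_nonneg _)
    · rw [if_neg (not_le.2 hc)] at h
      rw [mul_pow, mul_comm]
      exact mul_le_mul_of_nonneg_right (pow_le_pow_left₀ (norm_nonneg _) h 2) (sq_nonneg _)

private theorem SplitL2_type2 {M : ℕ} (χ : DirichletCharacter ℂ M) (δ : ℝ) : ∃ C L0 : ℝ, 0 ≤ C ∧ 1 ≤ L0 ∧
    ∀ L : ℝ, L0 ≤ L →
    (∀ τ, IntegrableOn (fun c => ASC.As χ (L / 20) c τ * ASC.Bs χ (L / 20) (L - c) τ - prb δ χ L c τ)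
      (Set.Icc (L / 40) (39 * L / 40))) ∧
    (∀ τ, IntegrableOn (fun c => ‖ASC.As χ (L / 20) c τ * ASC.Bs χ (L / 20) (L - c) τ - prb δ χ L c τ‖ ^ 2)
      (Set.Icc (L / 40) (39 * L / 40))) ∧
    IntegrableOn (fun τ => ∫ c in Set.Icc (L / 40) (39 * L / 40),
      ‖ASC.As χ (L / 20) c τ * ASC.Bs χ (L / 20) (L - c) τ - prb δ χ L c τ‖ ^ 2)
      (Set.Icc (-Real.exp (L / 2)) (Real.exp (L / 2))) ∧
    ∫ τ in Set.Icc (-Real.exp (L / 2)) (Real.exp (L / 2)), ∫ c in Set.Icc (L / 40) (39 * L / 40),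
      ‖ASC.As χ (L / 20) c τ * ASC.Bs χ (L / 20) (L - c) τ - prb δ χ L c τ‖ ^ 2 ≤
      C * ((1 + L) ^ 7 * Real.exp (-(2 * δ) * L)) := by
  obtain ⟨C2, hC2, hA⟩ := ASC.As_tail χ
  obtain ⟨C3, hC3, hB⟩ := ASC.Bs_tail χ
  obtain ⟨Ma, hMa1, hMa⟩ := ASC.As_ms χ
  obtain ⟨Mb, hMb1, hMb⟩ := ASC.Bs_ms χ
  set MM := max Ma Mb with hM
  have hM1 : 1 ≤ MM := le_trans hMa1 (le_max_left _ _)
  refine ⟨2 * MM, 4, by positivity, by norm_num, ?_⟩
  intro L hL
  have hL0 : 0 < L := by linarith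
  set I : Set ℝ := Set.Icc (L / 40) (39 * L / 40) with hI
  set T : ℝ := Real.exp (L / 2) with hT
  have hT3 : 3 ≤ T := by
    have h1 := Real.add_one_le_exp (L / 2)
    linarith
  obtain ⟨hcA, hcB⟩ := ASC.AsBs_cont χ (L / 20)
  have hcB' : Continuous (fun q : ℝ × ℝ => ASC.Bs χ (L / 20) (L - q.1) q.2) :=
    hcB.comp ((continuous_const.sub continuous_fst).prodMk continuous_snd)
  have hA1 : ∀ c, Continuous fun τ => ‖ASC.As χ (L / 20) c τ‖ ^ 2 := fun c =>
    (hcA.comp (continuous_const.prodMk continuous_id)).norm.pow 2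
  have hB1 : ∀ c, Continuous fun τ => ‖ASC.Bs χ (L / 20) c τ‖ ^ 2 := fun c =>
    (hcB.comp (continuous_const.prodMk continuous_id)).norm.pow 2
  set D : ℝ → ℝ → ℂ := fun c τ => ASC.As χ (L / 20) c τ * ASC.Bs χ (L / 20) (L - c) τ - prb δ χ L c τ with hD
  have hDm : Measurable (fun q : ℝ × ℝ => D q.1 q.2) :=
    (hcA.measurable.mul hcB'.measurable).sub (prb_meas δ χ L)
  set B : ℝ := C2 * C3 * (1 + L) ^ 12 with hBdef
  have hB0 : 0 ≤ B := by positivity
  have hDb : ∀ c ∈ I, ∀ τ, ‖D c τ‖ ≤ B := by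
    intro c hc τ
    have hc0 : 0 ≤ c := by have := hc.1; linarith
    have hc1 : c ≤ L := by have := hc.2; linarith
    refine (SplitL2_small χ δ L c τ).2.2.trans ?_
    have e1 : ‖ASC.As χ (L / 20) c τ‖ ≤ C2 * (1 + L) ^ 6 := by
      refine ((hA (L / 20) c τ).1).trans (mul_le_mul_of_nonneg_left ?_ (by linarith))
      apply pow_le_pow_left₀ (by positivity)
      rw [abs_of_nonneg hc0]; linarith
    have e2 : ‖ASC.Bs χ (L / 20) (L - c) τ‖ ≤ C3 * (1 + L) ^ 6 := by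
      refine ((hB (L / 20) (L - c) τ).1).trans (mul_le_mul_of_nonneg_left ?_ (by linarith))
      apply pow_le_pow_left₀ (by positivity)
      rw [abs_of_nonneg (by linarith)]; linarith
    calc _ ≤ (C2 * (1 + L) ^ 6) * (C3 * (1 + L) ^ 6) :=
          mul_le_mul e1 e2 (norm_nonneg _) (by positivity)
      _ = B := by rw [hBdef]; ring
  have hD2b : ∀ c ∈ I, ∀ τ, ‖‖D c τ‖ ^ 2‖ ≤ B ^ 2 := by
    intro c hc τ
    rw [Real.norm_of_nonneg (sq_nonneg _)]
    exact pow_le_pow_left₀ (norm_nonneg _) (hDb c hc τ) 2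
  have hIm : MeasurableSet I := measurableSet_Icc
  have h1 : ∀ τ, IntegrableOn (fun c => D c τ) I := by
    intro τ
    refine Integrable.of_bound (hDm.comp (measurable_id.prodMk measurable_const)).aestronglyMeasurable B ?_
    exact (ae_restrict_iff' hIm).2 (Filter.Eventually.of_forall fun c hc => hDb c hc τ)
  have h2 : ∀ τ, IntegrableOn (fun c => ‖D c τ‖ ^ 2) I := by
    intro τ
    refine Integrable.of_bound
      ((hDm.comp (measurable_id.prodMk measurable_const)).norm.pow_const 2).aestronglyMeasurable (B ^ 2) ?_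
    exact (ae_restrict_iff' hIm).2 (Filter.Eventually.of_forall fun c hc => hD2b c hc τ)
  have hfm : Measurable (Function.uncurry fun τ c => ‖D c τ‖ ^ 2) :=
    (hDm.comp measurable_swap).norm.pow_const 2
  have hfi : Integrable (Function.uncurry fun τ c => ‖D c τ‖ ^ 2)
      ((volume.restrict (Set.Icc (-T) T)).prod (volume.restrict I)) := by
    refine Integrable.of_bound hfm.aestronglyMeasurable (B ^ 2) ?_
    rw [Measure.prod_restrict]
    refine (ae_restrict_iff' (measurableSet_Icc.prod hIm)).2 (Filter.Eventually.of_forall ?_)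
    rintro ⟨τ, c⟩ hq
    exact hD2b c hq.2 τ
  have hswap : ∫ τ in Set.Icc (-T) T, ∫ c in I, ‖D c τ‖ ^ 2 =
      ∫ c in I, ∫ τ in Set.Icc (-T) T, ‖D c τ‖ ^ 2 := integral_integral_swap hfi
  refine ⟨h1, h2, hfi.integral_prod_left, ?_⟩
  have hpow : ∀ y : ℝ, |y| ≤ L → (1 + |y|) ^ 6 ≤ (1 + L) ^ 6 := fun y hy =>
    pow_le_pow_left₀ (by positivity) (by linarith) 6
  have hinner : ∀ c ∈ I, ∫ τ in Set.Icc (-T) T, ‖D c τ‖ ^ 2 ≤
      Real.exp (-(2 * δ) * L) * (2 * MM * (1 + L) ^ 6) := by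
    intro c hc
    have hc0 : 0 ≤ c := by have := hc.1; linarith
    have hc1 : c ≤ L := by have := hc.2; linarith
    rcases le_or_gt c (L / 2) with h | h
    · have h3 : ∫ τ in Set.Icc (-T) T, ‖D c τ‖ ^ 2 ≤
          ∫ τ in Set.Icc (-T) T, Real.exp (-(2 * δ) * L) * ‖ASC.Bs χ (L / 20) (L - c) τ‖ ^ 2 := by
        apply integral_mono_of_nonneg
        · exact Filter.Eventually.of_forall fun τ => sq_nonneg _
        · exact (continuous_const.mul (hB1 (L - c))).continuousOn.integrableOn_compact isCompact_Icc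
        · exact Filter.Eventually.of_forall fun τ => (SplitL2_small χ δ L c τ).1 h
      rw [integral_const_mul] at h3
      refine h3.trans (mul_le_mul_of_nonneg_left ?_ (Real.exp_pos _).le)
      refine (hMb (L / 20) (L - c) T hT3).trans ?_
      have h6 : T * Real.exp (-(L - c)) ≤ 1 := by
        rw [hT, ← Real.exp_add]
        apply Real.exp_le_one_iff.mpr
        linarith
      have h7 : |L - c| ≤ L := by
        rw [abs_le]
        constructor <;> linarith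
      calc Mb * (1 + |L - c|) ^ 6 * (T * Real.exp (-(L - c)) + 1) ≤ MM * (1 + L) ^ 6 * 2 := by
            apply mul_le_mul _ (by linarith) (by positivity) (by positivity)
            exact mul_le_mul (le_max_right _ _) (hpow _ h7) (by positivity) (by linarith)
        _ = 2 * MM * (1 + L) ^ 6 := by ring
    · have h3 : ∫ τ in Set.Icc (-T) T, ‖D c τ‖ ^ 2 ≤
          ∫ τ in Set.Icc (-T) T, Real.exp (-(2 * δ) * L) * ‖ASC.As χ (L / 20) c τ‖ ^ 2 := by
        apply integral_mono_of_nonneg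
        · exact Filter.Eventually.of_forall fun τ => sq_nonneg _
        · exact (continuous_const.mul (hA1 c)).continuousOn.integrableOn_compact isCompact_Icc
        · exact Filter.Eventually.of_forall fun τ => (SplitL2_small χ δ L c τ).2.1 h
      rw [integral_const_mul] at h3
      refine h3.trans (mul_le_mul_of_nonneg_left ?_ (Real.exp_pos _).le)
      refine (hMa (L / 20) c T hT3).trans ?_
      have h6 : T * Real.exp (-c) ≤ 1 := by
        rw [hT, ← Real.exp_add]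
        apply Real.exp_le_one_iff.mpr
        linarith
      have h7 : |c| ≤ L := by
        rw [abs_le]
        constructor <;> linarith
      calc Ma * (1 + |c|) ^ 6 * (T * Real.exp (-c) + 1) ≤ MM * (1 + L) ^ 6 * 2 := by
            apply mul_le_mul _ (by linarith) (by positivity) (by positivity)
            exact mul_le_mul (le_max_left _ _) (hpow _ h7) (by positivity) (by linarith)
        _ = 2 * MM * (1 + L) ^ 6 := by ring
  change ∫ τ in Set.Icc (-T) T, ∫ c in I, ‖D c τ‖ ^ 2 ≤ _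
  rw [hswap]
  have h3 : ∫ c in I, ∫ τ in Set.Icc (-T) T, ‖D c τ‖ ^ 2 ≤
      ∫ _c in I, Real.exp (-(2 * δ) * L) * (2 * MM * (1 + L) ^ 6) := by
    apply setIntegral_mono_on
    · exact hfi.integral_prod_right
    · exact integrable_const _
    · exact measurableSet_Icc
    · exact hinner
  refine h3.trans ?_
  rw [setIntegral_const, smul_eq_mul, hI, Real.volume_real_Icc_of_le (by linarith)]
  calc (39 * L / 40 - L / 40) * (Real.exp (-(2 * δ) * L) * (2 * MM * (1 + L) ^ 6))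
      ≤ (1 + L) * (Real.exp (-(2 * δ) * L) * (2 * MM * (1 + L) ^ 6)) := by
        apply mul_le_mul_of_nonneg_right _ (by positivity)
        linarith
    _ = 2 * MM * ((1 + L) ^ 7 * Real.exp (-(2 * δ) * L)) := by ring

private theorem SplitL2_main (L τ : ℝ) : ‖ASI.mainT L τ‖ ≤ 6 * Real.exp (-2 * τ ^ 2) := by
  unfold ASI.mainT
  have h1 : ‖Complex.exp (-(τ * L * Complex.I))‖ = 1 := by
    have : (-((τ : ℂ) * L * Complex.I)) = ((-(τ * L) : ℝ) : ℂ) * Complex.I := by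
      push_cast
      ring
    rw [this, Complex.norm_exp_ofReal_mul_I]
  rw [norm_mul, norm_mul, h1, mul_one, Complex.norm_real, Complex.norm_real,
    Real.norm_of_nonneg (Real.sqrt_nonneg _), Real.norm_of_nonneg (Real.exp_pos _).le]
  have h2 : Real.sqrt (8 * Real.pi) ≤ 6 := by
    rw [Real.sqrt_le_left (by norm_num)]
    nlinarith [Real.pi_lt_four]
  exact mul_le_mul_of_nonneg_right h2 (Real.exp_pos _).le

private theorem SplitL2_four (x y z w : ℝ) : (x + y + z + w) ^ 2 ≤ 4 * (x ^ 2 + y ^ 2 + z ^ 2 + w ^ 2) := by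
  nlinarith [sq_nonneg (x - y), sq_nonneg (x - z), sq_nonneg (x - w), sq_nonneg (y - z), sq_nonneg (y - w),
    sq_nonneg (z - w)]

private theorem SplitL2_chi {M : ℕ} [NeZero M] (χ : DirichletCharacter ℂ M) {δ : ℝ} (hδ : 0 < δ) (hδ1 : δ ≤ 1 / 100) :
    ∀ᶠ L : ℝ in Filter.atTop,
    ∫ τ in Set.Icc (-Real.exp (L / 2)) (Real.exp (L / 2)), ‖DX χ L τ - Dbd δ χ L τ‖ ^ 2 ≤
      Real.exp (-δ * L) := by
  obtain ⟨C1, L1, hC1, hL1, hoff⟩ := SplitL2_off χ
  obtain ⟨C2, L2, hC2, hL2, hin⟩ := SplitL2_type2 χ δ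
  obtain ⟨L3, hL3, hty⟩ := typeI_all M
  filter_upwards [SplitL2_ev 8 (1 / 25 - δ) 0 (by norm_num) (by linarith),
    SplitL2_ev 288 (7 / 2 - δ) 0 (by norm_num) (by linarith),
    SplitL2_ev (8 * C1 ^ 2) (3 / 2 - δ) 12 (by positivity) (by linarith),
    SplitL2_ev (4 * C2) δ 8 (by positivity) hδ,
    Filter.eventually_ge_atTop L1, Filter.eventually_ge_atTop L2, Filter.eventually_ge_atTop L3,
    Filter.eventually_ge_atTop (1 : ℝ)] with L v1 v2 v3 v4 l1 l2 l3 l4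
  obtain ⟨hD1, hD2, hFi, hFle⟩ := hin L l2
  set I : Set ℝ := Set.Icc (L / 40) (39 * L / 40) with hI
  set T : ℝ := Real.exp (L / 2) with hT
  have hT0 : 0 < T := Real.exp_pos _
  set κ : ℝ := 1 / Real.sqrt (2 * Real.pi) with hκ
  have hκ0 : 0 ≤ κ := by positivity
  have hκ1 : κ ≤ 1 := by
    rw [hκ, div_le_one (Real.sqrt_pos.mpr (by positivity)), Real.one_le_sqrt]
    nlinarith [Real.pi_gt_three]
  set Kc : ℝ := 4 * ((T * Real.exp (-(77 / 100) * L)) ^ 2 + (6 * Real.exp (-2 * L)) ^ 2 +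
    (C1 * ((1 + L) ^ 6 * Real.exp (-L))) ^ 2) with hKc
  have hKc0 : 0 ≤ Kc := by positivity
  set F : ℝ → ℝ := fun τ => ∫ c in I, ‖ASC.As χ (L / 20) c τ * ASC.Bs χ (L / 20) (L - c) τ - prb δ χ L c τ‖ ^ 2
    with hF
  have hF0 : ∀ τ, 0 ≤ F τ := fun τ => integral_nonneg fun c => sq_nonneg _
  have hpt : ∀ τ ∈ Set.Icc (-T) T, ‖DX χ L τ - Dbd δ χ L τ‖ ^ 2 ≤ Kc + 4 * (1 + L) * F τ := by
    intro τ hτ
    have hτT : |τ| ≤ T := abs_le.2 hτ
    have hr0 : 0 ≤ Kc + 4 * (1 + L) * F τ := add_nonneg hKc0 (mul_nonneg (by positivity) (hF0 τ))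
    rcases le_or_gt |τ| L with h | h
    · unfold Dbd
      rw [if_pos h, sub_self, norm_zero, zero_pow two_ne_zero]
      exact hr0
    · obtain ⟨hGi, hGo⟩ := hoff L τ l1
      set G : ℝ → ℂ := fun c => ASC.As χ (L / 20) c τ * ASC.Bs χ (L / 20) (L - c) τ with hG
      set D : ℝ → ℂ := fun c => G c - prb δ χ L c τ with hD
      have hDi : IntegrableOn D I := hD1 τ
      have hprb : ∫ c in I, prb δ χ L c τ = (∫ c in I, G c) - ∫ c in I, D c := by
        rw [← integral_sub hGi.integrableOn hDi]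
        apply integral_congr_ae
        refine Filter.Eventually.of_forall fun c => ?_
        simp only [hD]
        rw [sub_sub_cancel]
      have hsplit : (∫ c, G c) = (∫ c in I, G c) + ∫ c in Iᶜ, G c :=
        (integral_add_compl measurableSet_Icc hGi).symm
      set a : ℂ := ASC.P χ L τ - ASC.T4 χ L (L / 20) τ with ha
      set b : ℂ := ASC.P χ L τ - DX χ L τ with hb
      have hDbd : Dbd δ χ L τ = (κ : ℂ) * ∫ c in I, prb δ χ L c τ := by
        unfold Dbd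
        rw [if_neg (not_le.2 h), if_pos hτT]
      have hT4 : ASC.T4 χ L (L / 20) τ = (κ : ℂ) * ∫ c : ℝ, G c := ASC.T4_eq χ L (L / 20) τ
      have heq : DX χ L τ - Dbd δ χ L τ = a - b + (κ : ℂ) * (∫ c in Iᶜ, G c) + (κ : ℂ) * ∫ c in I, D c := by
        rw [hDbd, hprb, ha, hb, hT4, hsplit]
        ring
      have na : ‖a‖ ≤ T * Real.exp (-(77 / 100) * L) :=
        (hty χ L τ l3 h.le hτT).trans (mul_le_mul_of_nonneg_right hτT (Real.exp_pos _).le)
      have nb : ‖b‖ ≤ 6 * Real.exp (-2 * L) := by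
        rw [hb]
        unfold DX
        rw [sub_sub_cancel]
        split_ifs
        · refine (SplitL2_main L τ).trans ?_
          apply mul_le_mul_of_nonneg_left _ (by norm_num)
          apply Real.exp_le_exp.2
          have h5 : L ^ 2 ≤ τ ^ 2 := by
            rw [← sq_abs τ]
            exact pow_le_pow_left₀ (by linarith) h.le 2
          nlinarith
        · rw [norm_zero]
          positivity
      have nκ : ∀ z : ℂ, ‖(κ : ℂ) * z‖ ≤ ‖z‖ := by
        intro z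
        rw [norm_mul, Complex.norm_real, Real.norm_of_nonneg hκ0]
        exact mul_le_of_le_one_left (norm_nonneg _) hκ1
      have nc : ‖(κ : ℂ) * (∫ c in Iᶜ, G c)‖ ≤ C1 * ((1 + L) ^ 6 * Real.exp (-L)) := (nκ _).trans hGo
      have nd : ‖(κ : ℂ) * (∫ c in I, D c)‖ ^ 2 ≤ (1 + L) * F τ := by
        have h6 : ‖(κ : ℂ) * (∫ c in I, D c)‖ ≤ ∫ c in I, ‖D c‖ := (nκ _).trans (norm_integral_le_integral_norm _)
        have h7 := SplitL2_cs (fun c => ‖D c‖) (a := L / 40) (b := 39 * L / 40) (by linarith) hDi.norm (hD2 τ)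
        calc ‖(κ : ℂ) * (∫ c in I, D c)‖ ^ 2 ≤ (∫ c in I, ‖D c‖) ^ 2 := pow_le_pow_left₀ (norm_nonneg _) h6 2
          _ ≤ (39 * L / 40 - L / 40) * F τ := h7
          _ ≤ (1 + L) * F τ := mul_le_mul_of_nonneg_right (by linarith) (hF0 τ)
      have htri : ‖DX χ L τ - Dbd δ χ L τ‖ ≤ ‖a‖ + ‖b‖ + ‖(κ : ℂ) * (∫ c in Iᶜ, G c)‖ + ‖(κ : ℂ) * (∫ c in I, D c)‖ := by
        rw [heq]
        refine (norm_add_le _ _).trans (add_le_add ?_ le_rfl)
        refine (norm_add_le _ _).trans (add_le_add ?_ le_rfl)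
        exact norm_sub_le _ _
      have h8 := pow_le_pow_left₀ (norm_nonneg _) htri 2
      have h9 := SplitL2_four ‖a‖ ‖b‖ ‖(κ : ℂ) * (∫ c in Iᶜ, G c)‖ ‖(κ : ℂ) * (∫ c in I, D c)‖
      have p1 := pow_le_pow_left₀ (norm_nonneg _) na 2
      have p2 := pow_le_pow_left₀ (norm_nonneg _) nb 2
      have p3 := pow_le_pow_left₀ (norm_nonneg _) nc 2
      rw [hKc]
      linarith
  have hint : ∫ τ in Set.Icc (-T) T, ‖DX χ L τ - Dbd δ χ L τ‖ ^ 2 ≤
      ∫ τ in Set.Icc (-T) T, (Kc + 4 * (1 + L) * F τ) := by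
    apply integral_mono_of_nonneg
    · exact Filter.Eventually.of_forall fun τ => sq_nonneg _
    · exact (integrable_const _).add (hFi.const_mul _)
    · exact (ae_restrict_iff' measurableSet_Icc).2 (Filter.Eventually.of_forall hpt)
  have hval : ∫ τ in Set.Icc (-T) T, (Kc + 4 * (1 + L) * F τ) =
      2 * T * Kc + 4 * (1 + L) * ∫ τ in Set.Icc (-T) T, F τ := by
    have q1 : ∫ τ in Set.Icc (-T) T, 4 * (1 + L) * F τ = 4 * (1 + L) * ∫ τ in Set.Icc (-T) T, F τ :=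
      integral_const_mul _ _
    have q2 : ∫ _τ in Set.Icc (-T) T, Kc = 2 * T * Kc := by
      rw [setIntegral_const, smul_eq_mul, Real.volume_real_Icc_of_le (by linarith)]
      ring
    rw [integral_add (integrable_const _) (hFi.const_mul _), q1, q2]
  rw [hval] at hint
  have hF2 : 4 * (1 + L) * ∫ τ in Set.Icc (-T) T, F τ ≤
      4 * (1 + L) * (C2 * ((1 + L) ^ 7 * Real.exp (-(2 * δ) * L))) :=
    mul_le_mul_of_nonneg_left hFle (by positivity)
  have hE : 0 < Real.exp (-δ * L) := Real.exp_pos _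
  have w1 := mul_le_mul_of_nonneg_left v1 hE.le
  have w2 := mul_le_mul_of_nonneg_left v2 hE.le
  have w3 := mul_le_mul_of_nonneg_left v3 hE.le
  have w4 := mul_le_mul_of_nonneg_left v4 hE.le
  have x1 : 2 * T * (4 * (T * Real.exp (-(77 / 100) * L)) ^ 2) =
      Real.exp (-δ * L) * (8 * ((1 + L) ^ 0 * Real.exp (-(1 / 25 - δ) * L))) := by
    have : Real.exp (-δ * L) * Real.exp (-(1 / 25 - δ) * L) =
        T * (T * Real.exp (-(77 / 100) * L)) ^ 2 := by
      rw [hT, ← Real.exp_add, ← Real.exp_add, ← Real.exp_nat_mul, ← Real.exp_add]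
      congr 1
      push_cast
      ring
    rw [pow_zero, one_mul]
    linear_combination (-8) * this
  have x2 : 2 * T * (4 * (6 * Real.exp (-2 * L)) ^ 2) =
      Real.exp (-δ * L) * (288 * ((1 + L) ^ 0 * Real.exp (-(7 / 2 - δ) * L))) := by
    have : Real.exp (-δ * L) * Real.exp (-(7 / 2 - δ) * L) = T * Real.exp (-2 * L) ^ 2 := by
      rw [hT, ← Real.exp_add, ← Real.exp_nat_mul, ← Real.exp_add]
      congr 1
      push_cast
      ring
    rw [pow_zero, one_mul]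
    linear_combination (-288) * this
  have x3 : 2 * T * (4 * (C1 * ((1 + L) ^ 6 * Real.exp (-L))) ^ 2) =
      Real.exp (-δ * L) * (8 * C1 ^ 2 * ((1 + L) ^ 12 * Real.exp (-(3 / 2 - δ) * L))) := by
    have : Real.exp (-δ * L) * Real.exp (-(3 / 2 - δ) * L) = T * Real.exp (-L) ^ 2 := by
      rw [hT, ← Real.exp_add, ← Real.exp_nat_mul, ← Real.exp_add]
      congr 1
      push_cast
      ring
    linear_combination (-8 * C1 ^ 2 * (1 + L) ^ 12) * this
  have x4 : 4 * (1 + L) * (C2 * ((1 + L) ^ 7 * Real.exp (-(2 * δ) * L))) =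
      Real.exp (-δ * L) * (4 * C2 * ((1 + L) ^ 8 * Real.exp (-δ * L))) := by
    have : Real.exp (-δ * L) * Real.exp (-δ * L) = Real.exp (-(2 * δ) * L) := by
      rw [← Real.exp_add]
      congr 1
      ring
    linear_combination (-4 * C2 * (1 + L) ^ 8) * this
  have x5 : 2 * T * Kc = 2 * T * (4 * (T * Real.exp (-(77 / 100) * L)) ^ 2) +
      2 * T * (4 * (6 * Real.exp (-2 * L)) ^ 2) + 2 * T * (4 * (C1 * ((1 + L) ^ 6 * Real.exp (-L))) ^ 2) := by
    rw [hKc]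
    ring
  linarith

theorem Dbd_L2 (M : ℕ) [NeZero M] {δ : ℝ} (hδ : 0 < δ) (hδ1 : δ ≤ 1 / 100) : ∃ L0 : ℝ, 1 ≤ L0 ∧
    ∀ (χ : DirichletCharacter ℂ M) (L : ℝ), L0 ≤ L →
    ∫ τ in Set.Icc (-Real.exp (L / 2)) (Real.exp (L / 2)), ‖DX χ L τ - Dbd δ χ L τ‖ ^ 2 ≤
      Real.exp (-δ * L) := by
  have hall := Filter.eventually_all.mpr fun χ : DirichletCharacter ℂ M => SplitL2_chi χ hδ hδ1
  obtain ⟨L0, hL0⟩ := Filter.eventually_atTop.mp hall
  exact ⟨max L0 1, le_max_right _ _, fun χ L hL => hL0 L ((le_max_left _ _).trans hL) χ⟩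

end RAF
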