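import Pool.Agent.RAF.SplitL1
import Pool.Agent.RAF.SplitL2

/-!
# RAF.SplitX: the prime polynomial is the sum of a part small in `L¹` and a part with a power saving in `L²`

PROOF. `Db = Dbd δ χ L`, `δ = min δ0 (1/100)` (`Dbd_L1`, `Dbd_L2`, `Dbd_meas`, `Dbd_le`).
-/

namespace RAF

open MeasureTheory

theorem DX_split (M : ℕ) [NeZero M] : ∃ κ : ℝ, 0 < κ ∧ ∀ A : ℝ, ∃ L0 : ℝ, 1 ≤ L0 ∧
    ∀ (χ : DirichletCharacter ℂ M) (L : ℝ), L0 ≤ L → ∃ Db : ℝ → ℂ, Measurable Db ∧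
    (∀ τ, ‖Db τ‖ ≤ Real.exp L) ∧
    ∫ τ in Set.Icc (-Real.exp (L / 2)) (Real.exp (L / 2)), ‖Db τ‖ ≤ L ^ (-A) ∧
    ∫ τ in Set.Icc (-Real.exp (L / 2)) (Real.exp (L / 2)), ‖DX χ L τ - Db τ‖ ^ 2 ≤
      Real.exp (-κ * L) := by
  obtain ⟨δ0, hδ0, h1⟩ := Dbd_L1 M
  have hδ : 0 < min δ0 (1 / 100) := lt_min hδ0 (by norm_num)
  obtain ⟨L2, hL2, h2⟩ := Dbd_L2 M hδ (min_le_right _ _)
  obtain ⟨L3, hL3, h3⟩ := Dbd_le M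
  refine ⟨min δ0 (1 / 100), hδ, fun A => ?_⟩
  obtain ⟨L1, hL1, h4⟩ := h1 _ hδ (min_le_left _ _) A
  refine ⟨max L1 (max L2 L3), hL1.trans (le_max_left _ _), fun χ L hL => ?_⟩
  have e1 : L1 ≤ L := (le_max_left _ _).trans hL
  have e2 : L2 ≤ L := (le_max_left _ _).trans ((le_max_right _ _).trans hL)
  have e3 : L3 ≤ L := (le_max_right _ _).trans ((le_max_right _ _).trans hL)
  exact ⟨Dbd (min δ0 (1 / 100)) χ L, Dbd_meas _ χ L, fun τ => h3 χ _ L τ e3, h4 χ L e1, h2 χ L e2⟩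

end RAF
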