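import Pool.Agent.RAF.TypeIX
import Pool.Agent.RAF.PPX
import Pool.Agent.RAF.HMX
import Pool.Agent.RAF.LowX

/-!
# RAF.SqX: the prime polynomial on small sets of frequencies

PROOF. `K ≥ 1` w.l.o.g. `κ1` from `typeI_X M K`, `κ2`, `C` from `hmX (82 K)` (for `c ≥ L/40` and `T = exp(KL)`: `2T ≤ exp(82 K c)` for large `L`), `κ = min κ1 (κ2/40)`. On
`E ∩ {|τ| ≤ L}`: `‖DX‖² ≤ L^(-2A')` (`PX_point`), this part is at most `2L · L^(-2A')`. On `E' = E ∩ {|τ| > L}`:
`‖DX‖² ≤ L^(-A') ‖DX‖ ≤ L^(-A') (‖T4‖ + exp(-κ1 L) + 6 exp(-2τ²))`, and `∫_{E'} exp(-κ1 L) ≤ exp((κ-κ1)L) ≤ 1`. By `ASC.T4_eq`,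
`T4 = (1/√(2π)) ∫ As U c τ Bs U (L-c) τ dc`, `U = L/20`. The parts `c ≤ L/40` and `L - c ≤ L/40` are at most
`∫ exp(-L-|c|) C (1+|L-c|)^6 dc ≤ exp(-L/2)` (`As_lowX`, `Bs_lowX`, `ASC.As_tail`, `ASC.Bs_tail`), and `∫_{E'} exp(-L/2) ≤ 1`. For
`L/40 ≤ c ≤ 39L/40`: `∫_{E'} ‖As‖‖Bs‖ ≤ (∫_{E'} ‖As U c‖²)^(1/2) (∫_{E'} ‖Bs U (L-c)‖²)^(1/2)` and by `hmX` (`As χ U c = gsx (Λ hL χ) c`,
`Bs χ U y = gsx (bt U · χ) y`, `ASI.bt_le`) each of the two integrals is at most `C (1+L)^8 (1 + exp(-κ2 L/40) exp(κL)) ≤ 2C (1+L)^8`. Tonelli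
(`ASC.AsBs_cont`). So `∫_E ‖DX‖² ≤ 2L^(1-2A') + L^(-A') (L · 2C(1+L)^8 + 8) ≤ L^(-A)` for `A' = |A| + 11` and large `L`.
(Measurability and integrability: `DX χ L` is continuous, `ASC.P_cont`, `ASI.mainT` is continuous; the sets are bounded. See `Pool/Agent/RLC/LVP.lean`,
`Pool/Agent/RLC/LVT.lean` for very similar arguments.)
-/

namespace RAF

open MeasureTheory

private theorem SqX_ev (k : ℕ) {c η : ℝ} (hc : 0 < c) (hη : 0 < η) : ∃ L0 : ℝ, 1 ≤ L0 ∧
    ∀ L : ℝ, L0 ≤ L → (1 + L) ^ k * Real.exp (-(c * L)) ≤ η := by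
  have h1 : Filter.Tendsto (fun L : ℝ => c * L) Filter.atTop Filter.atTop :=
    Filter.tendsto_id.const_mul_atTop hc
  have h2 := (Real.tendsto_pow_mul_exp_neg_atTop_nhds_zero k).comp h1
  have h3 : ∀ᶠ L in Filter.atTop, (c * L) ^ k * Real.exp (-(c * L)) < η * (c / 2) ^ k :=
    h2.eventually (gt_mem_nhds (by positivity))
  obtain ⟨L1, h4⟩ := Filter.eventually_atTop.1 h3
  refine ⟨max L1 1, le_max_right _ _, fun L hL => ?_⟩
  have hL1 : 1 ≤ L := le_trans (le_max_right _ _) hL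
  have h5 := h4 L (le_trans (le_max_left _ _) hL)
  have h6 : (1 + L) ^ k ≤ (2 * L) ^ k := pow_le_pow_left₀ (by linarith) (by linarith) k
  have h7 : (2 * L) ^ k * (c / 2) ^ k = (c * L) ^ k := by
    rw [← mul_pow]
    congr 1
    ring
  have h8 : 0 < (c / 2) ^ k := by positivity
  have h9 : (1 + L) ^ k * Real.exp (-(c * L)) * (c / 2) ^ k ≤ η * (c / 2) ^ k := by
    calc (1 + L) ^ k * Real.exp (-(c * L)) * (c / 2) ^ k
        ≤ (2 * L) ^ k * Real.exp (-(c * L)) * (c / 2) ^ k := by gcongr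
      _ = (2 * L) ^ k * (c / 2) ^ k * Real.exp (-(c * L)) := by ring
      _ ≤ η * (c / 2) ^ k := by rw [h7]; exact h5.le
  exact le_of_mul_le_mul_right h9 h8

private theorem SqX_poly (x : ℝ) : (1 + |x|) ^ 6 ≤ 92160 * Real.exp (|x| / 2) := by
  have h1 := Real.pow_div_factorial_le_exp ((1 + |x|) / 2) (by positivity) 6
  have h2 : ((1 + |x|) / 2) ^ 6 / (Nat.factorial 6 : ℝ) = (1 + |x|) ^ 6 / 46080 := by
    rw [div_pow]
    norm_num [Nat.factorial]
    ring
  rw [h2] at h1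
  have h3 : Real.exp ((1 + |x|) / 2) ≤ 2 * Real.exp (|x| / 2) := by
    have h4 : (1 + |x|) / 2 = 1 / 2 + |x| / 2 := by ring
    rw [h4, Real.exp_add]
    have h5 : Real.exp (1 / 2) ≤ 2 := by
      have h6 : Real.exp (1 / 2) * Real.exp (1 / 2) = Real.exp 1 := by
        rw [← Real.exp_add]
        norm_num
      have h7 := Real.exp_one_lt_d9
      nlinarith [Real.exp_pos (1 / 2)]
    exact mul_le_mul_of_nonneg_right h5 (Real.exp_pos _).le
  have h4 : (1 + |x|) ^ 6 / 46080 ≤ 2 * Real.exp (|x| / 2) := h1.trans h3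
  rw [div_le_iff₀ (by norm_num)] at h4
  linarith

private theorem SqX_abs_int : ∃ G : ℝ, 0 ≤ G ∧ Integrable (fun x : ℝ => Real.exp (-(|x| / 2))) ∧
    ∫ x : ℝ, Real.exp (-(|x| / 2)) = G := by
  refine ⟨_, integral_nonneg fun x => (Real.exp_pos _).le, ?_, rfl⟩
  have h1 : Integrable (fun x : ℝ => Real.exp (-|x|)) := by
    rw [← integrableOn_univ, ← Set.Iic_union_Ioi (a := (0 : ℝ))]
    refine IntegrableOn.union ?_ ?_
    · refine (integrableOn_exp_Iic 0).congr_fun ?_ measurableSet_Iic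
      intro x hx
      have hx' : x ≤ 0 := hx
      simp only [abs_of_nonpos hx', neg_neg]
    · refine (integrableOn_exp_neg_Ioi 0).congr_fun ?_ measurableSet_Ioi
      intro x hx
      have hx' : 0 < x := hx
      simp only [abs_of_pos hx']
  have h2 := h1.comp_div (R := (2 : ℝ)) (by norm_num)
  refine h2.congr (Filter.Eventually.of_forall fun x => ?_)
  simp only [abs_div, abs_two]

private theorem SqX_six {L x y C : ℝ} (hL : 0 ≤ L) (hC : 0 ≤ C) (h : |y| ≤ L + |x|) :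
    C * (1 + |y|) ^ 6 ≤ C * (1 + L) ^ 6 * (92160 * Real.exp (|x| / 2)) := by
  have h1 : 1 + |y| ≤ (1 + L) * (1 + |x|) := by
    nlinarith [abs_nonneg x, mul_nonneg hL (abs_nonneg x)]
  have h2 : (1 + |y|) ^ 6 ≤ (1 + L) ^ 6 * (1 + |x|) ^ 6 := by
    rw [← mul_pow]
    exact pow_le_pow_left₀ (by positivity) h1 6
  calc C * (1 + |y|) ^ 6 ≤ C * ((1 + L) ^ 6 * (1 + |x|) ^ 6) :=
        mul_le_mul_of_nonneg_left h2 hC
    _ ≤ C * ((1 + L) ^ 6 * (92160 * Real.exp (|x| / 2))) := by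
        gcongr
        exact SqX_poly x
    _ = _ := by ring

private theorem SqX_out {a b L x y C : ℝ} (hL : 0 ≤ L) (hC : 0 ≤ C) (hb : 0 ≤ b)
    (h : |y| ≤ L + |x|) (h1 : a ≤ Real.exp (-L - |x|)) (h2 : b ≤ C * (1 + |y|) ^ 6) :
    a * b ≤ C * (1 + L) ^ 6 * 92160 * Real.exp (-L) * Real.exp (-(|x| / 2)) := by
  have h3 := h2.trans (SqX_six hL hC h)
  have h4 : a * b ≤ Real.exp (-L - |x|) * (C * (1 + L) ^ 6 * (92160 * Real.exp (|x| / 2))) :=
    mul_le_mul h1 h3 hb (Real.exp_pos _).le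
  refine h4.trans (le_of_eq ?_)
  have h5 : Real.exp (-L - |x|) * Real.exp (|x| / 2) = Real.exp (-L) * Real.exp (-(|x| / 2)) := by
    rw [← Real.exp_add, ← Real.exp_add]
    congr 1
    ring
  calc Real.exp (-L - |x|) * (C * (1 + L) ^ 6 * (92160 * Real.exp (|x| / 2)))
      = C * (1 + L) ^ 6 * 92160 * (Real.exp (-L - |x|) * Real.exp (|x| / 2)) := by ring
    _ = _ := by rw [h5]; ring

private theorem SqX_As {M : ℕ} (χ : DirichletCharacter ℂ M) (U c τ : ℝ) :
    ASC.As χ U c τ = gsx (fun n => ((ArithmeticFunction.vonMangoldt n *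
      ASI.hL U (Real.log n) : ℝ) : ℂ) * χ n) c τ := by
  unfold ASC.As gsx
  congr 1
  funext n
  unfold ASC.nc ASI.np
  ring

private theorem SqX_Bs {M : ℕ} (χ : DirichletCharacter ℂ M) (U y τ : ℝ) :
    ASC.Bs χ U y τ = gsx (fun n => (ASI.bt U n : ℂ) * χ n) y τ := by
  unfold ASC.Bs gsx
  congr 1
  funext n
  unfold ASC.nc ASI.np
  ring

private theorem SqX_eA {M : ℕ} (χ : DirichletCharacter ℂ M) (U : ℝ) (n : ℕ) :
    ‖((ArithmeticFunction.vonMangoldt n * ASI.hL U (Real.log n) : ℝ) : ℂ) * χ n‖ ≤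
      (n.divisors.card : ℝ) * (1 + Real.log n) := by
  rcases Nat.eq_zero_or_pos n with hn | hn
  · subst hn
    simp
  · have d1 : (1 : ℝ) ≤ (n.divisors.card : ℝ) := by
      have : 0 < n.divisors.card := Finset.card_pos.2 ⟨1, Nat.one_mem_divisors.2 hn.ne'⟩
      exact_mod_cast this
    have d2 : 0 ≤ Real.log n := Real.log_natCast_nonneg n
    have d3 : ArithmeticFunction.vonMangoldt n ≤ Real.log n :=
      ArithmeticFunction.vonMangoldt_le_log
    have d4 : 0 ≤ ArithmeticFunction.vonMangoldt n := ArithmeticFunction.vonMangoldt_nonneg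
    have d5 := ASI.hL_nonneg U (Real.log n)
    have d6 := ASI.hL_le U (Real.log n)
    have d7 : ‖χ (n : ZMod M)‖ ≤ 1 := DirichletCharacter.norm_le_one χ _
    rw [norm_mul, Complex.norm_real, Real.norm_eq_abs, abs_of_nonneg (mul_nonneg d4 d5)]
    calc ArithmeticFunction.vonMangoldt n * ASI.hL U (Real.log n) * ‖χ (n : ZMod M)‖
        ≤ ArithmeticFunction.vonMangoldt n * 1 * 1 :=
          mul_le_mul (mul_le_mul_of_nonneg_left d6 d4) d7 (norm_nonneg _) (by linarith)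
      _ ≤ Real.log n := by rw [mul_one, mul_one]; exact d3
      _ ≤ (n.divisors.card : ℝ) * (1 + Real.log n) := by nlinarith

private theorem SqX_eB {M : ℕ} (χ : DirichletCharacter ℂ M) (U : ℝ) (n : ℕ) :
    ‖(ASI.bt U n : ℂ) * χ n‖ ≤ (n.divisors.card : ℝ) * (1 + Real.log n) := by
  have d1 : (0 : ℝ) ≤ (n.divisors.card : ℝ) := Nat.cast_nonneg _
  have d2 : 0 ≤ Real.log n := Real.log_natCast_nonneg n
  have d7 : ‖χ (n : ZMod M)‖ ≤ 1 := DirichletCharacter.norm_le_one χ _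
  rw [norm_mul, Complex.norm_real, Real.norm_eq_abs]
  have h1 : |ASI.bt U n| * ‖χ (n : ZMod M)‖ ≤ |ASI.bt U n| * 1 :=
    mul_le_mul_of_nonneg_left d7 (abs_nonneg _)
  rw [mul_one] at h1
  refine h1.trans ((ASI.bt_le U n).trans ?_)
  nlinarith

private theorem SqX_tail (M : ℕ) [NeZero M] : ∃ C : ℝ, 1 ≤ C ∧
    ∀ (χ : DirichletCharacter ℂ M) (U c τ : ℝ), ‖ASC.As χ U c τ‖ ≤ C * (1 + |c|) ^ 6 ∧
      ‖ASC.Bs χ U c τ‖ ≤ C * (1 + |c|) ^ 6 := by
  choose C1 hC1 h1 using fun χ : DirichletCharacter ℂ M => ASC.As_tail χ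
  choose C2 hC2 h2 using fun χ : DirichletCharacter ℂ M => ASC.Bs_tail χ
  have hfin : Finite (DirichletCharacter ℂ M) := inferInstance
  obtain ⟨B, hB⟩ := (Set.finite_range (fun χ => C1 χ + C2 χ)).bddAbove
  refine ⟨max B 1, le_max_right _ _, fun χ U c τ => ?_⟩
  have h3 : C1 χ + C2 χ ≤ B := hB ⟨χ, rfl⟩
  have h4 : B ≤ max B 1 := le_max_left _ _
  have h5 := hC1 χ
  have h6 := hC2 χ
  refine ⟨((h1 χ U c τ).1).trans ?_, ((h2 χ U c τ).1).trans ?_⟩
  · exact mul_le_mul_of_nonneg_right (by linarith) (by positivity)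
  · exact mul_le_mul_of_nonneg_right (by linarith) (by positivity)

/-- The type II sum in mean on small sets. -/
private theorem SqX_T4 (M : ℕ) [NeZero M] (K : ℝ) : ∃ κ C L0 : ℝ, 0 < κ ∧ κ ≤ 1 / 10 ∧ 1 ≤ C ∧ 1 ≤ L0 ∧
    ∀ (χ : DirichletCharacter ℂ M) (L : ℝ), L0 ≤ L → ∀ E : Set ℝ, MeasurableSet E →
    E ⊆ Set.Icc (-Real.exp (K * L)) (Real.exp (K * L)) → volume E ≤ ENNReal.ofReal (Real.exp (κ * L)) →
    ∃ H : ℝ → ℝ, IntegrableOn H E ∧ (∀ τ, ‖ASC.T4 χ L (L / 20) τ‖ ≤ H τ) ∧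
      ∫ τ in E, H τ ≤ C * L ^ 9 := by
  obtain ⟨K1, hK1⟩ : ∃ K1 : ℝ, K1 = max K 1 := ⟨_, rfl⟩
  have hK11 : 1 ≤ K1 := by
    rw [hK1]
    exact le_max_right _ _
  have hKK : K ≤ K1 := by
    rw [hK1]
    exact le_max_left _ _
  obtain ⟨κ, Ch, hκ, hκ', hCh, hhm⟩ := hmX (82 * K1)
  obtain ⟨C0, hC01, htail⟩ := SqX_tail M
  obtain ⟨L1, hL1, hAl⟩ := As_lowX
  obtain ⟨L2, hL2, hBl⟩ := Bs_lowX
  obtain ⟨G, hG0, hGi, hGI⟩ := SqX_abs_int
  have hCp : 0 < C0 := by linarith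
  have hChp : 0 < Ch := by linarith
  obtain ⟨L3, hL3, h3⟩ := SqX_ev 6 (c := 1 / 2)
    (η := 1 / (2 * C0 * 92160 * (G + 1))) (by norm_num) (by positivity)
  refine ⟨κ / 40, 1024 * Ch, L1 + L2 + L3 + 20, by positivity, by linarith, by linarith,
    by linarith, ?_⟩
  intro χ L hL E hE hEK hEv
  have hL1' : L1 ≤ L := by linarith
  have hL2' : L2 ≤ L := by linarith
  have hL3' : L3 ≤ L := by linarith
  have hL20 : 20 ≤ L := by linarith
  have hLp : 0 < L := by linarith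
  have h3' := h3 L hL3'
  -- the parameters
  obtain ⟨T, hT⟩ : ∃ T : ℝ, T = Real.exp (K1 * L) := ⟨_, rfl⟩
  obtain ⟨Mx, hM⟩ : ∃ Mx : ℝ, Mx = C0 * (1 + L) ^ 6 := ⟨_, rfl⟩
  obtain ⟨Q, hQ⟩ : ∃ Q : ℝ, Q = Ch * (1 + L) ^ 8 := ⟨_, rfl⟩
  obtain ⟨q, hq⟩ : ∃ q : ℝ, q = Real.exp (-κ * (L / 40)) := ⟨_, rfl⟩
  have hTp : 0 ≤ T := by
    rw [hT]
    exact (Real.exp_pos _).le
  have hMp : 0 < Mx := by
    rw [hM]
    positivity
  have hQp : 0 ≤ Q := by
    rw [hQ]
    positivity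
  have hqp : 0 ≤ q := by
    rw [hq]
    exact (Real.exp_pos _).le
  have hKT : Real.exp (K * L) ≤ T := by
    rw [hT]
    exact Real.exp_le_exp.2 (mul_le_mul_of_nonneg_right hKK hLp.le)
  have hET : E ⊆ Set.Icc (-T) T := by
    intro τ hτ
    have := hEK hτ
    exact ⟨by linarith [this.1], by linarith [this.2]⟩
  have hEfin : volume E < ⊤ :=
    (measure_mono hET).trans_lt (by rw [Real.volume_Icc]; exact ENNReal.ofReal_lt_top)
  have hEr : (volume E).toReal ≤ Real.exp (κ / 40 * L) := by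
    have := ENNReal.toReal_mono ENNReal.ofReal_ne_top hEv
    rwa [ENNReal.toReal_ofReal (Real.exp_pos _).le] at this
  have hqE : q * (volume E).toReal ≤ 1 := by
    calc q * (volume E).toReal ≤ q * Real.exp (κ / 40 * L) :=
          mul_le_mul_of_nonneg_left hEr hqp
      _ = 1 := by
          rw [hq, ← Real.exp_add]
          have : -κ * (L / 40) + κ / 40 * L = 0 := by ring
          rw [this, Real.exp_zero]
  -- the integrand
  obtain ⟨f, hf⟩ : ∃ f : ℝ × ℝ → ℝ, f = fun p =>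
      ‖ASC.As χ (L / 20) p.1 p.2‖ * ‖ASC.Bs χ (L / 20) (L - p.1) p.2‖ := ⟨_, rfl⟩
  have hcA : Continuous (fun p : ℝ × ℝ => ASC.As χ (L / 20) p.1 p.2) := (ASC.AsBs_cont χ (L / 20)).1
  have hcB : Continuous (fun p : ℝ × ℝ => ASC.Bs χ (L / 20) (L - p.1) p.2) :=
    (ASC.AsBs_cont χ (L / 20)).2.comp
      ((continuous_const.sub continuous_fst).prodMk continuous_snd)
  have hfc : Continuous f := by
    rw [hf]
    exact hcA.norm.mul hcB.norm
  have hf0 : ∀ p, 0 ≤ f p := by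
    intro p
    rw [hf]
    positivity
  have hAM : ∀ c ∈ Set.Ioc (L / 40) (39 * L / 40), ∀ τ, ‖ASC.As χ (L / 20) c τ‖ ≤ Mx := by
    intro c hc τ
    refine ((htail χ (L / 20) c τ).1).trans ?_
    have e1 : |c| ≤ L := by
      rw [abs_le]
      constructor
      · linarith [hc.1]
      · linarith [hc.2]
    rw [hM]
    have e2 : (1 + |c|) ^ 6 ≤ (1 + L) ^ 6 := pow_le_pow_left₀ (by positivity) (by linarith) 6
    exact mul_le_mul_of_nonneg_left e2 hCp.le
  have hBM : ∀ c ∈ Set.Ioc (L / 40) (39 * L / 40), ∀ τ, ‖ASC.Bs χ (L / 20) (L - c) τ‖ ≤ Mx := by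
    intro c hc τ
    refine ((htail χ (L / 20) (L - c) τ).2).trans ?_
    have e1 : |L - c| ≤ L := by
      rw [abs_le]
      constructor
      · linarith [hc.2]
      · linarith [hc.1]
    rw [hM]
    have e2 : (1 + |L - c|) ^ 6 ≤ (1 + L) ^ 6 := pow_le_pow_left₀ (by positivity) (by linarith) 6
    exact mul_le_mul_of_nonneg_left e2 hCp.le
  have hfM : ∀ c ∈ Set.Ioc (L / 40) (39 * L / 40), ∀ τ, f (c, τ) ≤ Mx * Mx := by
    intro c hc τ
    rw [hf]
    exact mul_le_mul (hAM c hc τ) (hBM c hc τ) (norm_nonneg _) hMp.le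
  -- the bound outside the middle
  obtain ⟨R, hR⟩ : ∃ R : ℝ, R = C0 * (1 + L) ^ 6 * 92160 * Real.exp (-L) := ⟨_, rfl⟩
  have hRp : 0 ≤ R := by
    rw [hR]
    positivity
  have hout : ∀ c, c ∉ Set.Ioc (L / 40) (39 * L / 40) → ∀ τ,
      f (c, τ) ≤ R * Real.exp (-(|c| / 2)) + R * Real.exp (-(|L - c| / 2)) := by
    intro c hc τ
    have n1 : 0 ≤ R * Real.exp (-(|c| / 2)) := mul_nonneg hRp (Real.exp_pos _).le
    have n2 : 0 ≤ R * Real.exp (-(|L - c| / 2)) := mul_nonneg hRp (Real.exp_pos _).le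
    rcases le_or_gt c (L / 40) with h | h
    · have e1 : |L - c| ≤ L + |c| := by
        have := abs_sub L c
        rwa [abs_of_pos hLp] at this
      have e2 := SqX_out hLp.le hCp.le
        (norm_nonneg (ASC.Bs χ (L / 20) (L - c) τ)) e1 (hAl χ L c τ hL1' h)
        ((htail χ (L / 20) (L - c) τ).2)
      rw [← hR] at e2
      rw [hf]
      change ‖ASC.As χ (L / 20) c τ‖ * ‖ASC.Bs χ (L / 20) (L - c) τ‖ ≤ _
      linarith
    · have h' : 39 * L / 40 < c := by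
        by_contra h2
        exact hc ⟨h, not_lt.1 h2⟩
      have e1 : |c| ≤ L + |L - c| := by
        have e3 : c = L - (L - c) := by ring
        have := abs_sub L (L - c)
        rw [← e3, abs_of_pos hLp] at this
        exact this
      have e2 := SqX_out hLp.le hCp.le
        (norm_nonneg (ASC.As χ (L / 20) c τ)) e1 (hBl χ L (L - c) τ hL2' (by linarith))
        ((htail χ (L / 20) c τ).1)
      rw [← hR, mul_comm ‖ASC.Bs χ (L / 20) (L - c) τ‖] at e2
      rw [hf]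
      change ‖ASC.As χ (L / 20) c τ‖ * ‖ASC.Bs χ (L / 20) (L - c) τ‖ ≤ _
      linarith
  -- the pointwise bound
  have hIoc : MeasurableSet (Set.Ioc (L / 40) (39 * L / 40)) := measurableSet_Ioc
  have hIfin : volume (Set.Ioc (L / 40) (39 * L / 40)) < ⊤ := by
    rw [Real.volume_Ioc]
    exact ENNReal.ofReal_lt_top
  have hFint : ∀ τ, IntegrableOn (fun c => f (c, τ)) (Set.Ioc (L / 40) (39 * L / 40)) := by
    intro τ
    refine Integrable.mono' (integrableOn_const (C := Mx * Mx) hIfin.ne)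
      (hfc.measurable.comp (measurable_id.prodMk measurable_const)).aestronglyMeasurable ?_
    refine (ae_restrict_iff' hIoc).2 (Filter.Eventually.of_forall fun c hc => ?_)
    rw [Real.norm_eq_abs, abs_of_nonneg (hf0 _)]
    exact hfM c hc τ
  have hpt : ∀ τ, ‖ASC.T4 χ L (L / 20) τ‖ ≤
      2 * (R * G) + ∫ c in Set.Ioc (L / 40) (39 * L / 40), f (c, τ) := by
    intro τ
    have b1 : ‖ASC.T4 χ L (L / 20) τ‖ ≤ ∫ c, f (c, τ) := by
      rw [ASC.T4_eq, norm_mul]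
      have e1 : ‖((1 / Real.sqrt (2 * Real.pi) : ℝ) : ℂ)‖ ≤ 1 := by
        rw [Complex.norm_real, Real.norm_eq_abs, abs_of_nonneg (by positivity)]
        rw [div_le_one (by positivity)]
        rw [Real.one_le_sqrt]
        linarith [Real.pi_gt_three]
      have e2 : ‖∫ c : ℝ, ASC.As χ (L / 20) c τ * ASC.Bs χ (L / 20) (L - c) τ‖ ≤
          ∫ c, f (c, τ) := by
        refine (norm_integral_le_integral_norm _).trans (le_of_eq ?_)
        congr 1
        funext c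
        rw [norm_mul, hf]
      calc _ ≤ 1 * ∫ c, f (c, τ) := mul_le_mul e1 e2 (norm_nonneg _) zero_le_one
        _ = _ := one_mul _
    have gi1 : Integrable (fun c : ℝ => R * Real.exp (-(|c| / 2))) := hGi.const_mul R
    have gi2 : Integrable (fun c : ℝ => R * Real.exp (-(|L - c| / 2))) :=
      (hGi.comp_sub_left L).const_mul R
    have gi3 : Integrable ((Set.Ioc (L / 40) (39 * L / 40)).indicator
        (fun c => f (c, τ))) := by
      rw [integrable_indicator_iff hIoc]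
      exact hFint τ
    have b2 : ∫ c, f (c, τ) ≤ ∫ c, ((R * Real.exp (-(|c| / 2)) +
        R * Real.exp (-(|L - c| / 2))) + (Set.Ioc (L / 40) (39 * L / 40)).indicator
        (fun c => f (c, τ)) c) := by
      refine integral_mono_of_nonneg (Filter.Eventually.of_forall fun c => hf0 _)
        ((gi1.add gi2).add gi3) (Filter.Eventually.of_forall fun c => ?_)
      change f (c, τ) ≤ (R * Real.exp (-(|c| / 2)) +
        R * Real.exp (-(|L - c| / 2))) + (Set.Ioc (L / 40) (39 * L / 40)).indicator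
        (fun c => f (c, τ)) c
      by_cases hc : c ∈ Set.Ioc (L / 40) (39 * L / 40)
      · rw [Set.indicator_of_mem hc]
        have n1 : 0 ≤ R * Real.exp (-(|c| / 2)) := mul_nonneg hRp (Real.exp_pos _).le
        have n2 : 0 ≤ R * Real.exp (-(|L - c| / 2)) := mul_nonneg hRp (Real.exp_pos _).le
        linarith
      · rw [Set.indicator_of_notMem hc, add_zero]
        exact hout c hc τ
    have b3 : ∫ c, ((R * Real.exp (-(|c| / 2)) +
        R * Real.exp (-(|L - c| / 2))) + (Set.Ioc (L / 40) (39 * L / 40)).indicator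
        (fun c => f (c, τ)) c) = 2 * (R * G) +
        ∫ c in Set.Ioc (L / 40) (39 * L / 40), f (c, τ) := by
      have gi12 : Integrable (fun c : ℝ => R * Real.exp (-(|c| / 2)) +
          R * Real.exp (-(|L - c| / 2))) := gi1.add gi2
      rw [integral_add gi12 gi3, integral_add gi1 gi2, integral_const_mul,
        integral_const_mul, integral_sub_left_eq_self (fun c => Real.exp (-(|c| / 2))) volume L,
        hGI, integral_indicator hIoc]
      ring
    rw [b3] at b2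
    linarith
  have b4 : 2 * (R * G) * Real.exp (κ / 40 * L) ≤ 1 := by
    have e1 : Real.exp (-L) * Real.exp (κ / 40 * L) ≤ Real.exp (-(1 / 2 * L)) := by
      rw [← Real.exp_add]
      apply Real.exp_le_exp.2
      nlinarith
    rw [le_div_iff₀ (by positivity)] at h3'
    have e3 : 0 ≤ (1 + L) ^ 6 * Real.exp (-(1 / 2 * L)) * (2 * C0 * 92160) := by
      positivity
    have e4 : (1 + L) ^ 6 * Real.exp (-(1 / 2 * L)) * (2 * C0 * 92160) * G ≤ 1 := by
      nlinarith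
    calc 2 * (R * G) * Real.exp (κ / 40 * L)
        = (1 + L) ^ 6 * (2 * C0 * 92160) * G * (Real.exp (-L) * Real.exp (κ / 40 * L)) := by
          rw [hR]
          ring
      _ ≤ (1 + L) ^ 6 * (2 * C0 * 92160) * G * Real.exp (-(1 / 2 * L)) :=
          mul_le_mul_of_nonneg_left e1 (by positivity)
      _ = (1 + L) ^ 6 * Real.exp (-(1 / 2 * L)) * (2 * C0 * 92160) * G := by ring
      _ ≤ 1 := e4
  -- the double integral
  have hprod : Integrable (fun p : ℝ × ℝ => f (p.2, p.1))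
      ((volume.restrict E).prod (volume.restrict (Set.Ioc (L / 40) (39 * L / 40)))) := by
    have i1 : IsFiniteMeasure (volume.restrict E) :=
      ⟨by rw [Measure.restrict_apply_univ]; exact hEfin⟩
    have i2 : IsFiniteMeasure (volume.restrict (Set.Ioc (L / 40) (39 * L / 40))) :=
      ⟨by rw [Measure.restrict_apply_univ]; exact hIfin⟩
    refine Integrable.mono' (integrable_const (Mx * Mx))
      (hfc.measurable.comp (measurable_snd.prodMk measurable_fst)).aestronglyMeasurable ?_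
    rw [Measure.prod_restrict]
    refine (ae_restrict_iff' (hE.prod hIoc)).2 (Filter.Eventually.of_forall fun p hp => ?_)
    rw [Real.norm_eq_abs, abs_of_nonneg (hf0 _)]
    exact hfM p.2 hp.2 p.1
  have hcmean : ∀ c ∈ Set.Ioc (L / 40) (39 * L / 40), ∫ τ in E, f (c, τ) ≤ 2 * Q := by
    intro c hc
    have h82 : ∀ y : ℝ, L / 40 ≤ y → 2 * T ≤ Real.exp (82 * K1 * y) := by
      intro y hy
      rw [hT]
      have e1 : (2 : ℝ) ≤ Real.exp (L / 20) := by
        have e2 : Real.exp 1 ≤ Real.exp (L / 20) := Real.exp_le_exp.2 (by linarith)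
        linarith [Real.add_one_le_exp (1 : ℝ)]
      have e3 : L / 20 ≤ K1 * (L / 20) := by nlinarith
      have e4 : 82 * K1 * (L / 40) ≤ 82 * K1 * y :=
        mul_le_mul_of_nonneg_left hy (by linarith)
      calc 2 * Real.exp (K1 * L) ≤ Real.exp (L / 20) * Real.exp (K1 * L) :=
            mul_le_mul_of_nonneg_right e1 (Real.exp_pos _).le
        _ = Real.exp (L / 20 + K1 * L) := (Real.exp_add _ _).symm
        _ ≤ Real.exp (82 * K1 * y) := Real.exp_le_exp.2 (by nlinarith)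
    have hgen : ∀ (e : ℕ → ℂ), (∀ n : ℕ, ‖e n‖ ≤ (n.divisors.card : ℝ) * (1 + Real.log n)) →
        ∀ y, L / 40 ≤ y → y ≤ L → ∫ τ in E, ‖gsx e y τ‖ ^ 2 ≤ 2 * Q := by
      intro e he y hy hyL
      have hy0' : 0 ≤ y := by linarith
      refine (hhm e he y T hy0' hTp (h82 y hy) E hE hET).trans ?_
      have e1 : Ch * (1 + y) ^ 8 ≤ Q := by
        rw [hQ]
        exact mul_le_mul_of_nonneg_left (pow_le_pow_left₀ (by linarith) (by linarith) 8) hChp.le
      have e2 : Real.exp (-κ * y) ≤ q := by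
        rw [hq]
        apply Real.exp_le_exp.2
        nlinarith
      have e3 : 0 ≤ (volume E).toReal := ENNReal.toReal_nonneg
      calc Ch * (1 + y) ^ 8 * (1 + Real.exp (-κ * y) * (volume E).toReal) ≤ Q * 2 := by
            refine mul_le_mul e1 ?_ ?_ hQp
            · have := mul_le_mul_of_nonneg_right e2 e3
              linarith
            · have := mul_nonneg (Real.exp_pos (-κ * y)).le e3
              linarith
        _ = 2 * Q := mul_comm _ _
    have k0 : Continuous (fun τ : ℝ => (c, τ)) := continuous_const.prodMk continuous_id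
    have hk : ∀ H : ℝ × ℝ → ℂ, Continuous H → Continuous (fun τ : ℝ => ‖H (c, τ)‖) :=
      fun H hH => (hH.comp k0).norm
    have k1 : Continuous (fun τ : ℝ => ‖ASC.As χ (L / 20) c τ‖) :=
      hk (fun p => ASC.As χ (L / 20) p.1 p.2) hcA
    have k2 : Continuous (fun τ : ℝ => ‖ASC.Bs χ (L / 20) (L - c) τ‖) :=
      hk (fun p => ASC.Bs χ (L / 20) (L - p.1) p.2) hcB
    have s1 : ∫ τ in E, ‖ASC.As χ (L / 20) c τ‖ ^ 2 ≤ 2 * Q := by
      have := hgen (fun n => ((ArithmeticFunction.vonMangoldt n *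
        ASI.hL (L / 20) (Real.log n) : ℝ) : ℂ) * χ n) (SqX_eA χ (L / 20)) c hc.1.le
        (by linarith [hc.2])
      simp only [← SqX_As] at this
      exact this
    have s2 : ∫ τ in E, ‖ASC.Bs χ (L / 20) (L - c) τ‖ ^ 2 ≤ 2 * Q := by
      have := hgen (fun n => (ASI.bt (L / 20) n : ℂ) * χ n) (SqX_eB χ (L / 20)) (L - c)
        (by linarith [hc.2]) (by linarith [hc.1])
      simp only [← SqX_Bs] at this
      exact this
    have hint : ∀ h : ℝ → ℝ, Continuous h → IntegrableOn h E := fun h hh =>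
      (hh.continuousOn.integrableOn_Icc (a := -T) (b := T)).mono_set hET
    have i1 : IntegrableOn (fun τ : ℝ => ‖ASC.As χ (L / 20) c τ‖ ^ 2) E := hint _ (k1.pow 2)
    have i2 : IntegrableOn (fun τ : ℝ => ‖ASC.Bs χ (L / 20) (L - c) τ‖ ^ 2) E := hint _ (k2.pow 2)
    have e1 : ∫ τ in E, f (c, τ) ≤ ∫ τ in E, (1 / 2 * ‖ASC.As χ (L / 20) c τ‖ ^ 2 +
        1 / 2 * ‖ASC.Bs χ (L / 20) (L - c) τ‖ ^ 2) := by
      refine integral_mono_of_nonneg (Filter.Eventually.of_forall fun τ => hf0 _)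
        ((i1.const_mul _).add (i2.const_mul _)) (Filter.Eventually.of_forall fun τ => ?_)
      rw [hf]
      change ‖ASC.As χ (L / 20) c τ‖ * ‖ASC.Bs χ (L / 20) (L - c) τ‖ ≤
        1 / 2 * ‖ASC.As χ (L / 20) c τ‖ ^ 2 + 1 / 2 * ‖ASC.Bs χ (L / 20) (L - c) τ‖ ^ 2
      nlinarith [sq_nonneg (‖ASC.As χ (L / 20) c τ‖ - ‖ASC.Bs χ (L / 20) (L - c) τ‖)]
    have e2 : ∫ τ in E, (1 / 2 * ‖ASC.As χ (L / 20) c τ‖ ^ 2 +
        1 / 2 * ‖ASC.Bs χ (L / 20) (L - c) τ‖ ^ 2) =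
        1 / 2 * (∫ τ in E, ‖ASC.As χ (L / 20) c τ‖ ^ 2) +
        1 / 2 * (∫ τ in E, ‖ASC.Bs χ (L / 20) (L - c) τ‖ ^ 2) := by
      rw [integral_add (i1.const_mul _) (i2.const_mul _), integral_const_mul,
        integral_const_mul]
    rw [e2] at e1
    linarith
  have hswap : ∫ τ in E, (∫ c in Set.Ioc (L / 40) (39 * L / 40), f (c, τ)) =
      ∫ c in Set.Ioc (L / 40) (39 * L / 40), ∫ τ in E, f (c, τ) :=
    integral_integral_swap hprod
  have hlast : ∫ c in Set.Ioc (L / 40) (39 * L / 40), (∫ τ in E, f (c, τ)) ≤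
      38 * L / 40 * (2 * Q) := by
    have e1 : ∫ c in Set.Ioc (L / 40) (39 * L / 40), (∫ τ in E, f (c, τ)) ≤
        ∫ c in Set.Ioc (L / 40) (39 * L / 40), 2 * Q := by
      refine integral_mono_of_nonneg (Filter.Eventually.of_forall fun c => ?_)
        (integrableOn_const hIfin.ne) ?_
      · exact integral_nonneg fun τ => hf0 _
      · exact (ae_restrict_iff' hIoc).2 (Filter.Eventually.of_forall fun c hc => hcmean c hc)
    refine e1.trans (le_of_eq ?_)
    rw [setIntegral_const, smul_eq_mul, Measure.real, Real.volume_Ioc,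
      ENNReal.toReal_ofReal (by linarith)]
    ring
  have hHint : IntegrableOn (fun τ => ∫ c in Set.Ioc (L / 40) (39 * L / 40), f (c, τ)) E :=
    hprod.integral_prod_left
  have hcint : IntegrableOn (fun _ : ℝ => 2 * (R * G)) E := integrableOn_const hEfin.ne
  refine ⟨fun τ => 2 * (R * G) + ∫ c in Set.Ioc (L / 40) (39 * L / 40), f (c, τ),
    hcint.add hHint, hpt, ?_⟩
  rw [integral_add hcint hHint, hswap, setIntegral_const, smul_eq_mul, Measure.real]
  have hRG : 0 ≤ 2 * (R * G) := by positivity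
  have f1 : (volume E).toReal * (2 * (R * G)) ≤ 1 := by
    calc (volume E).toReal * (2 * (R * G)) ≤ Real.exp (κ / 40 * L) * (2 * (R * G)) :=
          mul_le_mul_of_nonneg_right hEr hRG
      _ = 2 * (R * G) * Real.exp (κ / 40 * L) := mul_comm _ _
      _ ≤ 1 := b4
  have f2 : 38 * L / 40 * (2 * Q) ≤ L * (2 * Q) :=
    mul_le_mul_of_nonneg_right (by linarith) (by positivity)
  have f3 : 1 ≤ Q := by
    rw [hQ]
    have : (1 : ℝ) ≤ (1 + L) ^ 8 := one_le_pow₀ (by linarith)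
    nlinarith
  have f4 : (volume E).toReal * (2 * (R * G)) +
      ∫ c in Set.Ioc (L / 40) (39 * L / 40), (∫ τ in E, f (c, τ)) ≤ 4 * L * Q := by
    nlinarith
  refine f4.trans ?_
  rw [hQ]
  have p1 : (1 + L) ^ 8 ≤ (2 * L) ^ 8 := pow_le_pow_left₀ (by linarith) (by linarith) 8
  calc 4 * L * (Ch * (1 + L) ^ 8) ≤ 4 * L * (Ch * (2 * L) ^ 8) := by gcongr
    _ = 1024 * Ch * L ^ 9 := by ring

private theorem SqX_main_cont (L : ℝ) : Continuous (ASI.mainT L) := by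
  unfold ASI.mainT
  fun_prop

private theorem SqX_main_norm (L τ : ℝ) : ‖ASI.mainT L τ‖ ≤ 6 * Real.exp (-2 * τ ^ 2) := by
  unfold ASI.mainT
  have h1 : ‖Complex.exp (-(τ * L * Complex.I))‖ = 1 := by
    rw [Complex.norm_exp]
    simp
  rw [norm_mul, h1, mul_one, norm_mul, Complex.norm_real, Complex.norm_real,
    Real.norm_of_nonneg (Real.sqrt_nonneg _), Real.norm_of_nonneg (Real.exp_pos _).le]
  refine mul_le_mul_of_nonneg_right ?_ (Real.exp_pos _).le
  rw [Real.sqrt_le_left (by norm_num)]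
  have := Real.pi_le_four
  linarith

private theorem SqX_DX_cont {M : ℕ} (χ : DirichletCharacter ℂ M) (L : ℝ) :
    Continuous (fun τ => DX χ L τ) := by
  unfold DX
  split_ifs with h
  · exact (ASC.P_cont χ L).sub (SqX_main_cont L)
  · exact (ASC.P_cont χ L).sub continuous_const

/-- The pointwise comparison of `DX` and `T4`. -/
private theorem SqX_comp {M : ℕ} (χ : DirichletCharacter ℂ M) {κ L τ : ℝ}
    (hL : 2 ≤ L) (hLκ : κ ≤ L) (hτ : L ≤ |τ|)
    (hP : ‖ASC.P χ L τ - ASC.T4 χ L (L / 20) τ‖ ≤ Real.exp (-κ * L)) :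
    ‖DX χ L τ‖ ≤ ‖ASC.T4 χ L (L / 20) τ‖ + 2 * Real.exp (-κ * L) := by
  have e2 : (6 : ℝ) ≤ Real.exp 2 := by
    have h := Real.exp_one_gt_d9
    have : Real.exp 2 = Real.exp 1 * Real.exp 1 := by
      rw [← Real.exp_add]
      norm_num
    rw [this]
    nlinarith
  have hτ2 : L ^ 2 ≤ τ ^ 2 := by
    rw [← sq_abs τ]
    exact pow_le_pow_left₀ (by linarith) hτ 2
  have hm : ‖ASI.mainT L τ‖ ≤ Real.exp (-κ * L) := by
    refine (SqX_main_norm L τ).trans ?_
    calc 6 * Real.exp (-2 * τ ^ 2) ≤ Real.exp 2 * Real.exp (-2 * τ ^ 2) :=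
          mul_le_mul_of_nonneg_right e2 (Real.exp_pos _).le
      _ = Real.exp (2 + -2 * τ ^ 2) := (Real.exp_add _ _).symm
      _ ≤ Real.exp (-κ * L) := by
          apply Real.exp_le_exp.mpr
          nlinarith
  have hm' : ∀ z : ℂ, ‖z‖ ≤ Real.exp (-κ * L) →
      ‖ASC.P χ L τ - z‖ ≤ ‖ASC.T4 χ L (L / 20) τ‖ + 2 * Real.exp (-κ * L) := by
    intro z hz
    have e : ASC.P χ L τ - z = (ASC.P χ L τ - ASC.T4 χ L (L / 20) τ) +
        ASC.T4 χ L (L / 20) τ - z := by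
      ring
    rw [e]
    have h6 : ‖(ASC.P χ L τ - ASC.T4 χ L (L / 20) τ) + ASC.T4 χ L (L / 20) τ - z‖ ≤
        ‖ASC.P χ L τ - ASC.T4 χ L (L / 20) τ‖ + ‖ASC.T4 χ L (L / 20) τ‖ + ‖z‖ :=
      (norm_sub_le _ _).trans (add_le_add (norm_add_le _ _) le_rfl)
    linarith
  unfold DX
  split_ifs with h
  · exact hm' _ hm
  · refine hm' 0 ?_
    rw [norm_zero]
    exact (Real.exp_pos _).le

theorem DX_sq (M : ℕ) [NeZero M] (K : ℝ) : ∃ κ : ℝ, 0 < κ ∧ κ ≤ 1 / 10 ∧ ∀ A : ℝ, ∃ L0 : ℝ, 1 ≤ L0 ∧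
    ∀ (χ : DirichletCharacter ℂ M) (L : ℝ), L0 ≤ L → ∀ E : Set ℝ, MeasurableSet E →
    E ⊆ Set.Icc (-Real.exp (K * L)) (Real.exp (K * L)) → volume E ≤ ENNReal.ofReal (Real.exp (κ * L)) →
    ∫ τ in E, ‖DX χ L τ‖ ^ 2 ≤ L ^ (-A) := by
  obtain ⟨κ1, L1, hκ1, hL1, H1⟩ := typeI_X M K
  obtain ⟨κ2, C, L2, hκ2, hκ2', hC, hL2, H2⟩ := SqX_T4 M K
  refine ⟨min κ1 κ2, lt_min hκ1 hκ2, (min_le_right _ _).trans hκ2', fun A => ?_⟩
  obtain ⟨κ, hκdef⟩ : ∃ κ, κ = min κ1 κ2 := ⟨_, rfl⟩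
  rw [← hκdef]
  have hκa : κ ≤ κ1 := by
    rw [hκdef]
    exact min_le_left _ _
  have hκb : κ ≤ κ2 := by
    rw [hκdef]
    exact min_le_right _ _
  obtain ⟨L3, hL3, H3⟩ := PX_point M K (|A| + 11)
  refine ⟨L1 + L2 + L3 + κ1 + 4 * C + 10, by linarith, fun χ L hL E hE hEK hEv => ?_⟩
  have hLL1 : L1 ≤ L := by linarith
  have hLL2 : L2 ≤ L := by linarith
  have hLL3 : L3 ≤ L := by linarith
  have hLκ : κ1 ≤ L := by linarith
  have hLC : 4 * C ≤ L := by linarith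
  have hL10 : 10 ≤ L := by linarith
  have hLp : 0 < L := by linarith
  have hLge1 : 1 ≤ L := by linarith
  obtain ⟨T, hT⟩ : ∃ T : ℝ, T = Real.exp (K * L) := ⟨_, rfl⟩
  rw [← hT] at hEK
  have hEfin : volume E < ⊤ := hEv.trans_lt ENNReal.ofReal_lt_top
  have hEr : (volume E).toReal ≤ Real.exp (κ * L) := by
    have := ENNReal.toReal_mono ENNReal.ofReal_ne_top hEv
    rwa [ENNReal.toReal_ofReal (Real.exp_pos _).le] at this
  obtain ⟨f, hf⟩ : ∃ f : ℝ → ℝ, f = fun τ => ‖DX χ L τ‖ ^ 2 := ⟨_, rfl⟩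
  have hfc : Continuous f := by
    rw [hf]
    exact (SqX_DX_cont χ L).norm.pow 2
  have hfI : IntegrableOn f (Set.Icc (-T) T) := hfc.continuousOn.integrableOn_Icc
  have hfE : IntegrableOn f E := hfI.mono_set hEK
  have hsplit := integral_inter_add_sdiff (μ := (volume : Measure ℝ)) (f := f)
    (measurableSet_Icc (a := -L) (b := L)) hfE
  have hgoal : ∫ τ in E, ‖DX χ L τ‖ ^ 2 = ∫ τ in E, f τ := by rw [hf]
  rw [hgoal, ← hsplit]
  obtain ⟨B, hB⟩ : ∃ B : ℝ, B = |A| + 11 := ⟨_, rfl⟩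
  rw [← hB] at H3
  have hLB : 0 < L ^ (-B) := Real.rpow_pos_of_pos hLp _
  have hLB1 : L ^ (-B) ≤ 1 := by
    refine Real.rpow_le_one_of_one_le_of_nonpos hLge1 ?_
    have := abs_nonneg A
    linarith
  have hpow : L ^ (-B) * L ^ 11 ≤ L ^ (-A) := by
    have e : L ^ (-B) * L ^ 11 = L ^ (-|A|) := by
      rw [← Real.rpow_natCast L 11, ← Real.rpow_add hLp]
      congr 1
      rw [hB]
      push_cast
      ring
    rw [e]
    refine Real.rpow_le_rpow_of_exponent_le hLge1 ?_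
    have := le_abs_self A
    linarith
  have hpt : ∀ τ ∈ E, ‖DX χ L τ‖ ≤ L ^ (-B) := fun τ hτ => by
    refine H3 χ L τ hLL3 ?_
    rw [← hT]
    exact abs_le.2 (hEK hτ)
  -- the small `τ`
  have hsmall : ∫ τ in E ∩ Set.Icc (-L) L, f τ ≤ 2 * L * L ^ (-B) := by
    have hm : MeasurableSet (E ∩ Set.Icc (-L) L) := hE.inter measurableSet_Icc
    have hfin : volume (E ∩ Set.Icc (-L) L) < ⊤ :=
      (measure_mono Set.inter_subset_left).trans_lt hEfin
    have h2 : ∫ τ in E ∩ Set.Icc (-L) L, f τ ≤ ∫ τ in E ∩ Set.Icc (-L) L, L ^ (-B) := by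
      refine setIntegral_mono_on (hfE.mono_set Set.inter_subset_left)
        (integrableOn_const hfin.ne) hm fun τ hτ => ?_
      have h4 := hpt τ hτ.1
      have h5 : ‖DX χ L τ‖ ^ 2 ≤ L ^ (-B) * 1 := by
        rw [pow_two]
        exact mul_le_mul h4 (h4.trans hLB1) (norm_nonneg _) hLB.le
      rw [mul_one] at h5
      rw [hf]
      exact h5
    refine h2.trans ?_
    rw [setIntegral_const, smul_eq_mul]
    refine mul_le_mul_of_nonneg_right ?_ hLB.le
    have h6 : volume.real (E ∩ Set.Icc (-L) L) ≤ volume.real (Set.Icc (-L) L) :=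
      measureReal_mono Set.inter_subset_right (by rw [Real.volume_Icc]; exact ENNReal.ofReal_ne_top)
    rw [Real.volume_real_Icc_of_le (by linarith)] at h6
    linarith
  -- the large `τ`
  have hlarge : ∫ τ in E \ Set.Icc (-L) L, f τ ≤ L ^ (-B) * (C * L ^ 9 + 2) := by
    obtain ⟨E', hE'⟩ : ∃ E' : Set ℝ, E' = E \ Set.Icc (-L) L := ⟨_, rfl⟩
    rw [← hE']
    have hEm : MeasurableSet E' := by
      rw [hE']
      exact hE.diff measurableSet_Icc
    have hEE : E' ⊆ E := by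
      rw [hE']
      exact Set.sdiff_subset
    have hEL : ∀ τ ∈ E', L ≤ |τ| := fun τ hτ => by
      rw [hE'] at hτ
      by_contra h
      push Not at h
      exact hτ.2 (abs_le.mp h.le)
    have hfin : volume E' < ⊤ := (measure_mono hEE).trans_lt hEfin
    have hEr' : (volume E').toReal ≤ Real.exp (κ * L) :=
      (ENNReal.toReal_mono hEfin.ne (measure_mono hEE)).trans hEr
    have hEv' : volume E' ≤ ENNReal.ofReal (Real.exp (κ2 * L)) := by
      refine (measure_mono hEE).trans (hEv.trans (ENNReal.ofReal_le_ofReal ?_))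
      exact Real.exp_le_exp.2 (mul_le_mul_of_nonneg_right hκb hLp.le)
    obtain ⟨H, hHi, hHT, hHI⟩ := H2 χ L hLL2 E' hEm (by rw [← hT]; exact hEE.trans hEK) hEv'
    have hci : IntegrableOn (fun _ : ℝ => 2 * Real.exp (-κ1 * L)) E' :=
      integrableOn_const hfin.ne
    have h3 : ∫ τ in E', f τ ≤ ∫ τ in E', L ^ (-B) * (H τ + 2 * Real.exp (-κ1 * L)) := by
      refine setIntegral_mono_on (hfE.mono_set hEE) ((hHi.add hci).const_mul _) hEm
        fun τ hτ => ?_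
      have h4 := hpt τ (hEE hτ)
      have h5 := SqX_comp χ (by linarith) hLκ (hEL τ hτ)
        (H1 χ L τ hLL1 (hEL τ hτ) (by rw [← hT]; exact abs_le.2 (hEK (hEE hτ))))
      have h6 : ‖DX χ L τ‖ ≤ H τ + 2 * Real.exp (-κ1 * L) := by linarith [hHT τ]
      rw [hf]
      change ‖DX χ L τ‖ ^ 2 ≤ _
      rw [pow_two]
      exact mul_le_mul h4 h6 (norm_nonneg _) hLB.le
    refine h3.trans ?_
    rw [integral_const_mul, integral_add hHi hci, setIntegral_const, smul_eq_mul, Measure.real]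
    refine mul_le_mul_of_nonneg_left (add_le_add hHI ?_) hLB.le
    have h7 : Real.exp (κ * L) * Real.exp (-κ1 * L) ≤ 1 := by
      rw [← Real.exp_add]
      refine Real.exp_le_one_iff.2 ?_
      nlinarith
    calc (volume E').toReal * (2 * Real.exp (-κ1 * L))
        ≤ Real.exp (κ * L) * (2 * Real.exp (-κ1 * L)) :=
          mul_le_mul_of_nonneg_right hEr' (by positivity)
      _ = 2 * (Real.exp (κ * L) * Real.exp (-κ1 * L)) := by ring
      _ ≤ 2 := by linarith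
  refine (add_le_add hsmall hlarge).trans ?_
  have hL9 : (1 : ℝ) ≤ L ^ 9 := one_le_pow₀ hLge1
  have hL9' : (0 : ℝ) < L ^ 9 := by positivity
  have a0 : L ≤ L ^ 9 := le_self_pow₀ hLge1 (by norm_num)
  have a1 : 2 * L + (C * L ^ 9 + 2) ≤ L ^ 11 := by
    have e : L ^ 11 = L ^ 2 * L ^ 9 := by ring
    rw [e]
    have e2 : 2 * L + (C * L ^ 9 + 2) ≤ (4 + C) * L ^ 9 := by nlinarith
    refine e2.trans (mul_le_mul_of_nonneg_right ?_ hL9'.le)
    nlinarith
  calc 2 * L * L ^ (-B) + L ^ (-B) * (C * L ^ 9 + 2)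
      = L ^ (-B) * (2 * L + (C * L ^ 9 + 2)) := by ring
    _ ≤ L ^ (-B) * L ^ 11 := mul_le_mul_of_nonneg_left a1 hLB.le
    _ ≤ L ^ (-A) := hpow

end RAF
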