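import Pool.Agent.RAF.StepE
import Pool.Agent.RAF.BadL

/-!
# RAF.Vari: the variance (in `L¹`)

PROOF. `κ` from `sv h`, `A' = 2A + 8`, `κ' = κ/8`: `B`, `m0`; `δ` from `step_e` (`A'`), let `m` be large, `r = M/φ(M)`, `‖·‖_p` the norms of `L^p(Pm)`. `x_j = ‖Ut j‖_2`. `0 ≤ Ut (j+1) ≤ Vt j` pointwise (`wb_succ`: `Ut (j+1)` is `Vt j` without the terms with `ch n (j+1) ∈ B`),
so (Minkowski) `x_(j+1) ≤ ‖Vt j‖_2 ≤ x_j + ‖Vt j - Ut j‖_2 ≤ (1 + m^(-A'/2)) x_j + 2^((1-δ/2)m)` for `j < J` and `x_0 ≤ r^J ∑_{n∈I} th n ≤ r^J 2^m (m+1)`. As `J ≤ m` and `m m^(-A'/2) ≤ 1`: `x_j ≤ 3 (r^J 2^m (m+1) + m 2^((1-δ/2)m)) ≤ 8 r^J 2^m m`.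
`‖Vt j - Ut j‖_1 ≤ ‖Vt j - Ut j‖_2 ≤ m^(-A'/2) x_j + 2^((1-δ/2)m)`. `‖Vt j - Ut (j+1)‖_1 ≤ r^J ∑_{n∈I} E (wt n (j+1) - wb n (j+1)) ≤ r^J 2^((1-κ/2)m)`: `Vt j - Ut (j+1) = ∑ (wb n j th (ch n (j+1)) - wb n (j+1)) RR` and `wb n j ≤ wt n j`, `wt_succ`, `RR_le`, `bad_loss`
(`J ≤ 2L/log L`). Summing over `j < J`: `‖Ut J - Ut 0‖_1 ≤ J (8 r^J 2^m m · m^(-A'/2) + 2^((1-δ/2)m) + r^J 2^((1-κ/2)m))`. Next `∑_{n∈I} wt n J - Ut J = ∑ (wt n J - wb n J)` (`RR_zero`), again `bad_loss`; and `∑_{n∈I} th n RR M J n - Ut 0 = ∑_{n∈I∩B} th n RR M J n ≤ (m+1) r^J |B ∩ [2^m, 2^(m+1))| ≤ (m+1) r^J 2^((1-κ)m)`.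
Altogether `≤ r^J 2^m m^(-A)` for large `m` (`r ≥ 1`).
-/

namespace RAF

open MeasureTheory

variable {M : ℕ} {t K : ℝ} {g : ℕ → ℝ}

private theorem vr_th_nonneg (n : ℕ) : 0 ≤ RLC.th n := by
  unfold RLC.th
  split_ifs
  · exact Real.log_natCast_nonneg n
  · exact le_rfl

private theorem vr_th_le {n m : ℕ} (hn : n < 2 ^ (m + 1)) : RLC.th n ≤ (m : ℝ) + 1 := by
  unfold RLC.th
  split_ifs with hp
  · have hn0 : (0 : ℝ) < n := by exact_mod_cast hp.pos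
    have h1 : Real.log n ≤ Real.log ((2 : ℝ) ^ (m + 1)) := by
      apply Real.log_le_log hn0
      exact_mod_cast hn.le
    rw [Real.log_pow] at h1
    have h2 : Real.log 2 ≤ 1 := by
      have := Real.log_two_lt_d9
      linarith
    have h3 : ((m + 1 : ℕ) : ℝ) * Real.log 2 ≤ ((m + 1 : ℕ) : ℝ) * 1 :=
      mul_le_mul_of_nonneg_left h2 (Nat.cast_nonneg _)
    push_cast at h1 h3
    linarith
  · positivity

private theorem vr_rrc_meas (M : ℕ) (t : ℝ) (g : ℕ → ℝ) (n j l : ℕ) :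
    Measurable fun ω => RR M l (ch M t g ω n j) :=
  (measurable_from_top (f := fun q : ℕ => RR M l q)).comp (ch_meas M t g n j)

private theorem vr_thc_meas (M : ℕ) (t : ℝ) (g : ℕ → ℝ) (n j : ℕ) :
    Measurable fun ω => RLC.th (ch M t g ω n j) :=
  (measurable_from_top (f := fun q : ℕ => RLC.th q)).comp (ch_meas M t g n j)

private theorem vr_ut_meas (M : ℕ) (t : ℝ) (g : ℕ → ℝ) (B : Set ℕ) (J : ℕ) (I : Finset ℕ) (j : ℕ) :
    Measurable (Ut M t g B J I j) := by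
  unfold Ut
  exact Finset.measurable_fun_sum _ fun n _ => (wb_meas M t g B n j).mul (vr_rrc_meas M t g n j _)

private theorem vr_vt_meas (M : ℕ) (t : ℝ) (g : ℕ → ℝ) (B : Set ℕ) (J : ℕ) (I : Finset ℕ) (j : ℕ) :
    Measurable (Vt M t g B J I j) := by
  unfold Vt
  exact Finset.measurable_fun_sum _ fun n _ => (wb_meas M t g B n j).mul
    ((vr_thc_meas M t g n (j + 1)).mul (vr_rrc_meas M t g n (j + 1) _))

open Classical in
private theorem vr_wb_step (M : ℕ) (t : ℝ) (g : ℕ → ℝ) (B : Set ℕ) (n j : ℕ) (ω : ℕ → ℝ × ℝ) :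
    wb M t g B n (j + 1) ω ≤ wb M t g B n j ω * RLC.th (ch M t g ω n (j + 1)) := by
  rw [wb_succ]
  apply mul_le_mul_of_nonneg_left _ (wb_nonneg M t g B n j ω)
  split_ifs
  · exact vr_th_nonneg _
  · exact le_rfl

private theorem vr_ut_nonneg (M : ℕ) (t : ℝ) (g : ℕ → ℝ) (B : Set ℕ) (J : ℕ) (I : Finset ℕ) (j : ℕ)
    (ω : ℕ → ℝ × ℝ) : 0 ≤ Ut M t g B J I j ω :=
  Finset.sum_nonneg fun n _ => mul_nonneg (wb_nonneg M t g B n j ω) (RR_nonneg M _ _)

private theorem vr_u_le_v (M : ℕ) (t : ℝ) (g : ℕ → ℝ) (B : Set ℕ) (J : ℕ) (I : Finset ℕ) (j : ℕ)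
    (ω : ℕ → ℝ × ℝ) : Ut M t g B J I (j + 1) ω ≤ Vt M t g B J I j ω := by
  unfold Ut Vt
  apply Finset.sum_le_sum
  intro n _
  rw [← mul_assoc]
  exact mul_le_mul_of_nonneg_right (vr_wb_step M t g B n j ω) (RR_nonneg M _ _)

private theorem vr_v_sub_u (hM : 0 < M) (t : ℝ) (g : ℕ → ℝ) (B : Set ℕ) (J : ℕ) (I : Finset ℕ) (j : ℕ)
    (ω : ℕ → ℝ × ℝ) : Vt M t g B J I j ω - Ut M t g B J I (j + 1) ω ≤
      ((M : ℝ) / (Nat.totient M : ℝ)) ^ J *
        ∑ n ∈ I, (wt M t g n (j + 1) ω - wb M t g B n (j + 1) ω) := by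
  unfold Ut Vt
  rw [← Finset.sum_sub_distrib, Finset.mul_sum]
  apply Finset.sum_le_sum
  intro n _
  have h1 := RR_nonneg M (J - (j + 1)) (ch M t g ω n (j + 1))
  have h2 := RR_le hM (J - (j + 1)) (ch M t g ω n (j + 1))
  have hr := ratio_one_le hM
  have h3 : ((M : ℝ) / (Nat.totient M : ℝ)) ^ (J - (j + 1)) ≤ ((M : ℝ) / (Nat.totient M : ℝ)) ^ J :=
    pow_le_pow_right₀ hr (Nat.sub_le _ _)
  have h4 : wb M t g B n j ω * RLC.th (ch M t g ω n (j + 1)) ≤ wt M t g n (j + 1) ω := by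
    rw [wt_succ]
    exact mul_le_mul_of_nonneg_right (wb_le_wt M t g B n j ω) (vr_th_nonneg _)
  have h5 := vr_wb_step M t g B n j ω
  calc wb M t g B n j ω * (RLC.th (ch M t g ω n (j + 1)) * RR M (J - (j + 1)) (ch M t g ω n (j + 1))) -
        wb M t g B n (j + 1) ω * RR M (J - (j + 1)) (ch M t g ω n (j + 1))
      = (wb M t g B n j ω * RLC.th (ch M t g ω n (j + 1)) - wb M t g B n (j + 1) ω) *
          RR M (J - (j + 1)) (ch M t g ω n (j + 1)) := by ring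
    _ ≤ (wb M t g B n j ω * RLC.th (ch M t g ω n (j + 1)) - wb M t g B n (j + 1) ω) *
          ((M : ℝ) / (Nat.totient M : ℝ)) ^ J :=
        mul_le_mul_of_nonneg_left (h2.trans h3) (by linarith)
    _ ≤ (wt M t g n (j + 1) ω - wb M t g B n (j + 1) ω) * ((M : ℝ) / (Nat.totient M : ℝ)) ^ J :=
        mul_le_mul_of_nonneg_right (by linarith) (by positivity)
    _ = _ := by ring

open Classical in
private theorem vr_start (hM : 0 < M) (t : ℝ) (g : ℕ → ℝ) (B : Set ℕ) (J : ℕ) (I : Finset ℕ) {m : ℕ}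
    (hI : ∀ n ∈ I, n ∈ Finset.Ico (2 ^ m) (2 ^ (m + 1))) (ω : ℕ → ℝ × ℝ) :
    |Ut M t g B J I 0 ω - ∑ n ∈ I, RLC.th n * RR M J n| ≤
      ((M : ℝ) / (Nat.totient M : ℝ)) ^ J * ((m : ℝ) + 1) *
        (((Finset.Ico (2 ^ m) (2 ^ (m + 1))).filter fun z => z ∈ B).card : ℝ) := by
  have hr := ratio_one_le hM
  have h1 : Ut M t g B J I 0 ω - ∑ n ∈ I, RLC.th n * RR M J n =
      -∑ n ∈ I.filter (fun n => n ∈ B), RLC.th n * RR M J n := by
    unfold Ut
    rw [Finset.sum_filter, ← Finset.sum_sub_distrib, ← Finset.sum_neg_distrib]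
    apply Finset.sum_congr rfl
    intro n _
    have h2 : (n ∈ B → wb M t g B n 0 ω = 0) ∧ (n ∉ B → wb M t g B n 0 ω = RLC.th n) := by
      constructor <;> intro hn <;> simp [wb, ch_zero, hn]
    rw [ch_zero, Nat.sub_zero]
    by_cases hn : n ∈ B
    · rw [h2.1 hn, if_pos hn]
      ring
    · rw [h2.2 hn, if_neg hn]
      ring
  rw [h1, abs_neg, abs_of_nonneg (Finset.sum_nonneg fun n _ => mul_nonneg (vr_th_nonneg n) (RR_nonneg M J n))]
  have h3 : I.filter (fun n => n ∈ B) ⊆ (Finset.Ico (2 ^ m) (2 ^ (m + 1))).filter fun z => z ∈ B := by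
    intro n hn
    rw [Finset.mem_filter] at hn ⊢
    exact ⟨hI n hn.1, hn.2⟩
  calc ∑ n ∈ I.filter (fun n => n ∈ B), RLC.th n * RR M J n
      ≤ ∑ n ∈ (Finset.Ico (2 ^ m) (2 ^ (m + 1))).filter (fun z => z ∈ B), RLC.th n * RR M J n :=
        Finset.sum_le_sum_of_subset_of_nonneg h3 fun n _ _ =>
          mul_nonneg (vr_th_nonneg n) (RR_nonneg M J n)
    _ ≤ ∑ n ∈ (Finset.Ico (2 ^ m) (2 ^ (m + 1))).filter (fun z => z ∈ B),
          ((m : ℝ) + 1) * ((M : ℝ) / (Nat.totient M : ℝ)) ^ J := by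
        apply Finset.sum_le_sum
        intro n hn
        rw [Finset.mem_filter, Finset.mem_Ico] at hn
        exact mul_le_mul (vr_th_le hn.1.2) (RR_le hM J n) (RR_nonneg M J n) (by positivity)
    _ = _ := by
        rw [Finset.sum_const, nsmul_eq_mul]
        ring

private theorem vr_u_zero_le (hM : 0 < M) (t : ℝ) (g : ℕ → ℝ) (B : Set ℕ) (J : ℕ) (I : Finset ℕ) {m : ℕ}
    (hI : ∀ n ∈ I, n ∈ Finset.Ico (2 ^ m) (2 ^ (m + 1))) (ω : ℕ → ℝ × ℝ) :
    Ut M t g B J I 0 ω ≤ ((M : ℝ) / (Nat.totient M : ℝ)) ^ J * 2 ^ m * ((m : ℝ) + 1) := by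
  have hr := ratio_one_le hM
  have hc : (I.card : ℝ) ≤ 2 ^ m := by
    have h1 : I.card ≤ (Finset.Ico (2 ^ m) (2 ^ (m + 1))).card := Finset.card_le_card hI
    rw [Nat.card_Ico, pow_succ] at h1
    have h2 : I.card ≤ 2 ^ m := by omega
    exact_mod_cast h2
  calc Ut M t g B J I 0 ω
      ≤ ∑ n ∈ I, ((m : ℝ) + 1) * ((M : ℝ) / (Nat.totient M : ℝ)) ^ J := by
        apply Finset.sum_le_sum
        intro n hn
        have h1 := Finset.mem_Ico.1 (hI n hn)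
        have h2 : wb M t g B n 0 ω ≤ (m : ℝ) + 1 := by
          refine (wb_le_wt M t g B n 0 ω).trans ?_
          rw [wt_zero]
          exact vr_th_le h1.2
        rw [Nat.sub_zero]
        exact mul_le_mul h2 (RR_le hM J _) (RR_nonneg M J _) (by positivity)
    _ = (I.card : ℝ) * (((m : ℝ) + 1) * ((M : ℝ) / (Nat.totient M : ℝ)) ^ J) := by
        rw [Finset.sum_const, nsmul_eq_mul]
    _ ≤ 2 ^ m * (((m : ℝ) + 1) * ((M : ℝ) / (Nat.totient M : ℝ)) ^ J) :=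
        mul_le_mul_of_nonneg_right hc (by positivity)
    _ = _ := by ring

private theorem vr_tele (M : ℕ) (t : ℝ) (g : ℕ → ℝ) (B : Set ℕ) (J : ℕ) (I : Finset ℕ)
    (ω : ℕ → ℝ × ℝ) (k : ℕ) :
    |Ut M t g B J I k ω - Ut M t g B J I 0 ω| ≤
      ∑ j ∈ Finset.range k, |Vt M t g B J I j ω - Ut M t g B J I j ω| +
        ∑ j ∈ Finset.range k, (Vt M t g B J I j ω - Ut M t g B J I (j + 1) ω) := by
  induction k with
  | zero => simp
  | succ k ih =>
    rw [Finset.sum_range_succ, Finset.sum_range_succ]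
    have h1 := vr_u_le_v M t g B J I k ω
    have h2 := abs_le.1 ih
    have h3 := abs_le.1 (le_refl |Vt M t g B J I k ω - Ut M t g B J I k ω|)
    rw [abs_le]
    constructor <;> linarith [h2.1, h2.2, h3.1, h3.2]

/-- The pointwise inequality. -/
private theorem vr_point (hM : 0 < M) (t : ℝ) (g : ℕ → ℝ) (B : Set ℕ) (J : ℕ) (I : Finset ℕ) (S0 : ℝ)
    (hS : ∀ ω, |Ut M t g B J I 0 ω - ∑ n ∈ I, RLC.th n * RR M J n| ≤ S0) (ω : ℕ → ℝ × ℝ) :
    |∑ n ∈ I, (wt M t g n J ω - RLC.th n * RR M J n)| ≤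
      ∑ n ∈ I, (wt M t g n J ω - wb M t g B n J ω) +
      ∑ j ∈ Finset.range J, |Vt M t g B J I j ω - Ut M t g B J I j ω| +
      ∑ j ∈ Finset.range J, (((M : ℝ) / (Nat.totient M : ℝ)) ^ J *
        ∑ n ∈ I, (wt M t g n (j + 1) ω - wb M t g B n (j + 1) ω)) + S0 := by
  have h1 := vr_tele M t g B J I ω J
  have h2 : ∑ j ∈ Finset.range J, (Vt M t g B J I j ω - Ut M t g B J I (j + 1) ω) ≤
      ∑ j ∈ Finset.range J, (((M : ℝ) / (Nat.totient M : ℝ)) ^ J *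
        ∑ n ∈ I, (wt M t g n (j + 1) ω - wb M t g B n (j + 1) ω)) :=
    Finset.sum_le_sum fun j _ => vr_v_sub_u hM t g B J I j ω
  have h3 : Ut M t g B J I J ω = ∑ n ∈ I, wb M t g B n J ω := by
    unfold Ut
    apply Finset.sum_congr rfl
    intro n _
    rw [Nat.sub_self, RR_zero, mul_one]
  have h4 : 0 ≤ ∑ n ∈ I, (wt M t g n J ω - wb M t g B n J ω) :=
    Finset.sum_nonneg fun n _ => sub_nonneg.2 (wb_le_wt M t g B n J ω)
  have h5 : ∑ n ∈ I, (wt M t g n J ω - RLC.th n * RR M J n) =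
      ∑ n ∈ I, (wt M t g n J ω - wb M t g B n J ω) + (Ut M t g B J I J ω - Ut M t g B J I 0 ω) +
        (Ut M t g B J I 0 ω - ∑ n ∈ I, RLC.th n * RR M J n) := by
    rw [h3, Finset.sum_sub_distrib, Finset.sum_sub_distrib]
    ring
  rw [h5]
  have h6 := abs_le.1 (hS ω)
  have h7 := abs_le.1 h1
  rw [abs_le]
  constructor <;> linarith [h6.1, h6.2, h7.1, h7.2]

private theorem vr_sq (f : (ℕ → ℝ × ℝ) → ℝ) :
    ∫⁻ ω, ENNReal.ofReal (f ω ^ 2) ∂Pm = eLpNorm f 2 Pm ^ 2 := by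
  have h1 : eLpNorm f 2 Pm = (∫⁻ ω, ENNReal.ofReal (f ω ^ 2) ∂Pm) ^ (1 / (2 : ℝ)) := by
    rw [eLpNorm_eq_lintegral_rpow_enorm_toReal two_ne_zero ENNReal.ofNat_ne_top]
    simp only [ENNReal.toReal_ofNat]
    congr 1
    apply lintegral_congr
    intro ω
    rw [← ofReal_norm, ENNReal.ofReal_rpow_of_nonneg (norm_nonneg _) (by norm_num),
      Real.norm_eq_abs]
    congr 1
    rw [show (2 : ℝ) = ((2 : ℕ) : ℝ) by norm_num, Real.rpow_natCast, sq_abs]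
  rw [h1, ← ENNReal.rpow_natCast, ← ENNReal.rpow_mul]
  norm_num

private theorem vr_l1 (f : (ℕ → ℝ × ℝ) → ℝ) (hf : Measurable f) :
    ∫⁻ ω, ENNReal.ofReal |f ω| ∂Pm ≤ eLpNorm f 2 Pm := by
  have h1 : ∫⁻ ω, ENNReal.ofReal |f ω| ∂Pm = eLpNorm f 1 Pm := by
    rw [eLpNorm_one_eq_lintegral_enorm]
    apply lintegral_congr
    intro ω
    rw [← ofReal_norm, Real.norm_eq_abs]
  rw [h1]
  exact eLpNorm_le_eLpNorm_of_exponent_le (by norm_num) hf.aestronglyMeasurable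

private theorem vr_mono (f k : (ℕ → ℝ × ℝ) → ℝ) (hf : ∀ ω, 0 ≤ f ω) (hfk : ∀ ω, f ω ≤ k ω) :
    eLpNorm f 2 Pm ≤ eLpNorm k 2 Pm := by
  apply eLpNorm_mono_real
  intro ω
  rw [Real.norm_eq_abs, abs_of_nonneg (hf ω)]
  exact hfk ω

private theorem vr_sqrt {a b : ℝ} {D X : ENNReal} (ha : 0 ≤ a) (hb : 0 ≤ b)
    (h : D ^ 2 ≤ ENNReal.ofReal (a ^ 2) * X ^ 2 + ENNReal.ofReal (b ^ 2)) :
    D ≤ ENNReal.ofReal a * X + ENNReal.ofReal b := by
  have h1 : D ^ 2 ≤ (ENNReal.ofReal a * X + ENNReal.ofReal b) ^ 2 := by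
    refine h.trans ?_
    rw [ENNReal.ofReal_pow ha, ENNReal.ofReal_pow hb, ← mul_pow]
    have h2 : (ENNReal.ofReal a * X + ENNReal.ofReal b) ^ 2 =
        (ENNReal.ofReal a * X) ^ 2 + ENNReal.ofReal b ^ 2 +
          2 * (ENNReal.ofReal a * X) * ENNReal.ofReal b := by ring
    rw [h2]
    exact le_self_add
  exact (ENNReal.pow_le_pow_left_iff two_ne_zero).1 h1

/-- The recursion. -/
private theorem vr_rec (x D : ℕ → ENNReal) (a b : ENNReal) (J : ℕ)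
    (h1 : ∀ j < J, x (j + 1) ≤ x j + D j) (h2 : ∀ j < J, D j ≤ a * x j + b) :
    ∀ j ≤ J, x j ≤ (1 + a) ^ j * (x 0 + j * b) := by
  intro j
  induction j with
  | zero => intro _; simp
  | succ j ih =>
    intro hj
    have h3 := ih (by omega)
    have h4 : (1 : ENNReal) ≤ (1 + a) ^ (j + 1) := one_le_pow₀ le_self_add
    calc x (j + 1) ≤ x j + (a * x j + b) := (h1 j (by omega)).trans (by gcongr; exact h2 j (by omega))
      _ = (1 + a) * x j + b := by ring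
      _ ≤ (1 + a) * ((1 + a) ^ j * (x 0 + j * b)) + (1 + a) ^ (j + 1) * b := by
          gcongr
          calc b = 1 * b := (one_mul b).symm
            _ ≤ _ := by gcongr
      _ = (1 + a) ^ (j + 1) * (x 0 + ((j + 1 : ℕ) : ENNReal) * b) := by
          push_cast
          ring

/-- Smallness of exponentials. -/
private theorem vr_small {c : ℝ} (hc : 0 < c) (A : ℝ) : ∃ m1 : ℕ, ∀ m : ℕ, m1 ≤ m →
    ((m : ℝ) + 1) * (2 : ℝ) ^ (-(c * (m : ℝ))) ≤ (m : ℝ) ^ (-A) / 4 := by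
  have hl : 0 < Real.log 2 := Real.log_pos (by norm_num)
  have h1 := (tendsto_rpow_mul_exp_neg_mul_atTop_nhds_zero (A + 1) (Real.log 2 * c) (by positivity)).comp
    (tendsto_natCast_atTop_atTop (R := ℝ))
  have h2 := h1.eventually_lt_const (show (0 : ℝ) < 1 / 8 by norm_num)
  obtain ⟨m1, hm1⟩ := Filter.eventually_atTop.1 h2
  refine ⟨m1 + 1, fun m hm => ?_⟩
  have h3 := hm1 m (by omega)
  have hm0 : (1 : ℝ) ≤ m := by exact_mod_cast (show 1 ≤ m by omega)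
  have hmp : (0 : ℝ) < m := by linarith
  simp only [Function.comp_apply] at h3
  have h4 : (2 : ℝ) ^ (-(c * (m : ℝ))) = Real.exp (-(Real.log 2 * c) * (m : ℝ)) := by
    rw [Real.rpow_def_of_pos (by norm_num)]
    congr 1
    ring
  have h5 : (m : ℝ) ^ (-A) = (m : ℝ) * (m : ℝ) ^ (-A - 1) := by
    rw [Real.rpow_sub hmp, Real.rpow_one]
    field_simp
  have h6 : (m : ℝ) ^ (A + 1) * (m : ℝ) ^ (-A - 1) = 1 := by
    rw [← Real.rpow_add hmp, show A + 1 + (-A - 1) = 0 by ring, Real.rpow_zero]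
  have h7 : 0 < (m : ℝ) ^ (-A - 1) := Real.rpow_pos_of_pos hmp _
  have h8 : Real.exp (-(Real.log 2 * c) * (m : ℝ)) ≤ (m : ℝ) ^ (-A - 1) / 8 := by
    have h9 := mul_le_mul_of_nonneg_right h3.le h7.le
    calc Real.exp (-(Real.log 2 * c) * (m : ℝ))
        = ((m : ℝ) ^ (A + 1) * (m : ℝ) ^ (-A - 1)) * Real.exp (-(Real.log 2 * c) * (m : ℝ)) := by
          rw [h6, one_mul]
      _ = (m : ℝ) ^ (A + 1) * Real.exp (-(Real.log 2 * c) * (m : ℝ)) * (m : ℝ) ^ (-A - 1) := by ring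
      _ ≤ 1 / 8 * (m : ℝ) ^ (-A - 1) := h9
      _ = _ := by ring
  rw [h4, h5]
  have h10 : 0 ≤ Real.exp (-(Real.log 2 * c) * (m : ℝ)) := (Real.exp_pos _).le
  calc ((m : ℝ) + 1) * Real.exp (-(Real.log 2 * c) * (m : ℝ))
      ≤ (2 * (m : ℝ)) * ((m : ℝ) ^ (-A - 1) / 8) :=
        mul_le_mul (by linarith) h8 h10 (by positivity)
    _ = _ := by ring

/-- The length is small. -/
private theorem vr_len {ε : ℝ} (hε : 0 < ε) (hε1 : ε < 1) {m J : ℕ} (hm : 5 ≤ m)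
    (hJ : (J : ℝ) + 1 ≤ (1 - ε) * (Real.log (2 ^ m) / Real.log (Real.log (2 ^ m)))) :
    (J : ℝ) + 1 ≤ m ∧ (J : ℝ) ≤ 2 * (Real.log (2 ^ m) / Real.log (Real.log (2 ^ m))) := by
  have hl : 0.6931471803 < Real.log 2 := Real.log_two_gt_d9
  have hl2 : Real.log 2 < 0.6931471808 := Real.log_two_lt_d9
  have hm5 : (5 : ℝ) ≤ m := by exact_mod_cast hm
  have hL : Real.log ((2 : ℝ) ^ m) = m * Real.log 2 := by rw [Real.log_pow]
  have hL1 : Real.exp 1 ≤ Real.log ((2 : ℝ) ^ m) := by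
    rw [hL]
    have he := Real.exp_one_lt_d9
    nlinarith
  have hL0 : 0 < Real.log ((2 : ℝ) ^ m) := lt_of_lt_of_le (Real.exp_pos 1) hL1
  have hL2 : 1 ≤ Real.log (Real.log ((2 : ℝ) ^ m)) := by
    rw [Real.le_log_iff_exp_le hL0]
    exact hL1
  have hq : Real.log ((2 : ℝ) ^ m) / Real.log (Real.log ((2 : ℝ) ^ m)) ≤ Real.log ((2 : ℝ) ^ m) :=
    div_le_self hL0.le hL2
  have hq0 : 0 ≤ Real.log ((2 : ℝ) ^ m) / Real.log (Real.log ((2 : ℝ) ^ m)) := by positivity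
  have hLm : Real.log ((2 : ℝ) ^ m) ≤ m := by
    rw [hL]
    nlinarith
  constructor
  · have h1 : (1 - ε) * (Real.log ((2 : ℝ) ^ m) / Real.log (Real.log ((2 : ℝ) ^ m))) ≤
        Real.log ((2 : ℝ) ^ m) / Real.log (Real.log ((2 : ℝ) ^ m)) := by nlinarith
    linarith
  · have h1 : (1 - ε) * (Real.log ((2 : ℝ) ^ m) / Real.log (Real.log ((2 : ℝ) ^ m))) ≤
        2 * (Real.log ((2 : ℝ) ^ m) / Real.log (Real.log ((2 : ℝ) ^ m))) := by nlinarith
    linarith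

/-- The loss at the exceptional set. -/
private theorem vr_loss (M : ℕ) (t : ℝ) (g : ℕ → ℝ) (B : Set ℕ) (I : Finset ℕ) (j : ℕ) {s : ℝ}
    (hb : ∑ n ∈ I, ∫⁻ ω, ENNReal.ofReal (wt M t g n j ω - wb M t g B n j ω) ∂Pm ≤ ENNReal.ofReal s) :
    ∫⁻ ω, ENNReal.ofReal (∑ n ∈ I, (wt M t g n j ω - wb M t g B n j ω)) ∂Pm ≤ ENNReal.ofReal s := by
  refine le_trans (le_of_eq ?_) hb
  rw [← lintegral_finsetSum]
  · apply lintegral_congr
    intro ω
    rw [ENNReal.ofReal_sum_of_nonneg]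
    intro n _
    exact sub_nonneg.2 (wb_le_wt M t g B n j ω)
  · intro n _
    exact ((wt_meas M t g n j).sub (wb_meas M t g B n j)).ennreal_ofReal

/-- The norms of the main terms. -/
private theorem vr_norm (hM : 0 < M) (t : ℝ) (g : ℕ → ℝ) (B : Set ℕ) (J : ℕ) (I : Finset ℕ) {m : ℕ} (hm : 1 ≤ m)
    (hI : ∀ n ∈ I, n ∈ Finset.Ico (2 ^ m) (2 ^ (m + 1))) (hJm : (J : ℝ) + 1 ≤ m) {α β : ℝ} (hα : 0 ≤ α)
    (hβ : 0 ≤ β) (hαm : (m : ℝ) * α ≤ 1) (hβm : β ≤ 2 ^ m)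
    (hD : ∀ j < J, ∫⁻ ω, ENNReal.ofReal ((Vt M t g B J I j ω - Ut M t g B J I j ω) ^ 2) ∂Pm ≤
      ENNReal.ofReal (α ^ 2) * ∫⁻ ω, ENNReal.ofReal (Ut M t g B J I j ω ^ 2) ∂Pm + ENNReal.ofReal (β ^ 2)) :
    ∀ j < J, ∫⁻ ω, ENNReal.ofReal |Vt M t g B J I j ω - Ut M t g B J I j ω| ∂Pm ≤
      ENNReal.ofReal (α * (9 * (((M : ℝ) / (Nat.totient M : ℝ)) ^ J * 2 ^ m * m)) + β) := by
  have hr := ratio_one_le hM
  set r : ℝ := (M : ℝ) / (Nat.totient M : ℝ) with hrdef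
  have hrJ : 1 ≤ r ^ J := one_le_pow₀ hr
  have hm1 : (1 : ℝ) ≤ m := by exact_mod_cast hm
  set x : ℕ → ENNReal := fun j => eLpNorm (Ut M t g B J I j) 2 Pm with hx
  set D : ℕ → ENNReal := fun j => eLpNorm (fun ω => Vt M t g B J I j ω - Ut M t g B J I j ω) 2 Pm with hDd
  have hD2 : ∀ j < J, D j ≤ ENNReal.ofReal α * x j + ENNReal.ofReal β := by
    intro j hj
    apply vr_sqrt hα hβ
    have h1 := hD j hj
    rw [vr_sq (fun ω => Vt M t g B J I j ω - Ut M t g B J I j ω), vr_sq (Ut M t g B J I j)] at h1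
    exact h1
  have hx1 : ∀ j < J, x (j + 1) ≤ x j + D j := by
    intro j _
    calc x (j + 1) ≤ eLpNorm (Vt M t g B J I j) 2 Pm :=
          vr_mono _ _ (vr_ut_nonneg M t g B J I (j + 1)) (vr_u_le_v M t g B J I j)
      _ = eLpNorm (Ut M t g B J I j + fun ω => Vt M t g B J I j ω - Ut M t g B J I j ω) 2 Pm := by
          congr 1
          funext ω
          simp
      _ ≤ x j + D j := eLpNorm_add_le (vr_ut_meas M t g B J I j).aestronglyMeasurable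
          ((vr_vt_meas M t g B J I j).sub (vr_ut_meas M t g B J I j)).aestronglyMeasurable (by norm_num)
  have hx0 : x 0 ≤ ENNReal.ofReal (r ^ J * 2 ^ m * ((m : ℝ) + 1)) := by
    have h1 := eLpNorm_le_of_ae_bound (p := 2) (μ := Pm) (f := Ut M t g B J I 0)
      (C := r ^ J * 2 ^ m * ((m : ℝ) + 1)) (Filter.Eventually.of_forall fun ω => by
        rw [Real.norm_eq_abs, abs_of_nonneg (vr_ut_nonneg M t g B J I 0 ω)]
        exact vr_u_zero_le hM t g B J I hI ω)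
    refine h1.trans (le_of_eq ?_)
    rw [measure_univ, ENNReal.one_rpow, one_mul]
  have hrec := vr_rec x D (ENNReal.ofReal α) (ENNReal.ofReal β) J hx1 hD2
  intro j hj
  have hxj : x j ≤ ENNReal.ofReal (9 * (r ^ J * 2 ^ m * m)) := by
    have hjm : (j : ℝ) ≤ m := by
      have : (j : ℝ) ≤ J := by exact_mod_cast hj.le
      linarith
    calc x j ≤ (1 + ENNReal.ofReal α) ^ j * (x 0 + j * ENNReal.ofReal β) := hrec j hj.le
      _ ≤ (1 + ENNReal.ofReal α) ^ j * (ENNReal.ofReal (r ^ J * 2 ^ m * ((m : ℝ) + 1)) + j * ENNReal.ofReal β) := by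
          gcongr
      _ = ENNReal.ofReal ((1 + α) ^ j * (r ^ J * 2 ^ m * ((m : ℝ) + 1) + j * β)) := by
          rw [ENNReal.ofReal_mul (p := (1 + α) ^ j) (by positivity),
            ENNReal.ofReal_add (p := r ^ J * 2 ^ m * ((m : ℝ) + 1)) (by positivity) (by positivity),
            ENNReal.ofReal_mul (Nat.cast_nonneg j), ENNReal.ofReal_natCast,
            ENNReal.ofReal_pow (by positivity), ENNReal.ofReal_add zero_le_one hα, ENNReal.ofReal_one]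
      _ ≤ ENNReal.ofReal (9 * (r ^ J * 2 ^ m * m)) := by
          apply ENNReal.ofReal_le_ofReal
          have h1 : (1 + α) ^ j ≤ 3 := by
            have h2 : 1 + α ≤ Real.exp α := by linarith [Real.add_one_le_exp α]
            calc (1 + α) ^ j ≤ Real.exp α ^ j := pow_le_pow_left₀ (by positivity) h2 j
              _ = Real.exp (j * α) := by rw [← Real.exp_nat_mul]
              _ ≤ Real.exp 1 := by
                  apply Real.exp_le_exp.2
                  nlinarith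
              _ ≤ 3 := by
                  have := Real.exp_one_lt_d9
                  linarith
          have h2 : (j : ℝ) * β ≤ m * 2 ^ m := mul_le_mul hjm hβm hβ (by positivity)
          have h3 : (m : ℝ) * 2 ^ m ≤ r ^ J * 2 ^ m * m := by
            have h4 : (0 : ℝ) ≤ m * 2 ^ m := by positivity
            nlinarith
          have h5 : r ^ J * 2 ^ m ≤ r ^ J * 2 ^ m * m := le_mul_of_one_le_right (by positivity) hm1
          calc (1 + α) ^ j * (r ^ J * 2 ^ m * ((m : ℝ) + 1) + j * β)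
              ≤ 3 * (r ^ J * 2 ^ m * ((m : ℝ) + 1) + j * β) :=
                mul_le_mul_of_nonneg_right h1 (by positivity)
            _ ≤ 9 * (r ^ J * 2 ^ m * m) := by nlinarith
  calc ∫⁻ ω, ENNReal.ofReal |Vt M t g B J I j ω - Ut M t g B J I j ω| ∂Pm
      ≤ D j := vr_l1 _ ((vr_vt_meas M t g B J I j).sub (vr_ut_meas M t g B J I j))
    _ ≤ ENNReal.ofReal α * x j + ENNReal.ofReal β := hD2 j hj
    _ ≤ ENNReal.ofReal α * ENNReal.ofReal (9 * (r ^ J * 2 ^ m * m)) + ENNReal.ofReal β := by gcongr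
    _ = _ := by
        rw [ENNReal.ofReal_add (by positivity) hβ, ENNReal.ofReal_mul hα]

theorem variance (h : Adm M t K g) {ε A : ℝ} (hε : 0 < ε) (hε1 : ε < 1) (hA : 0 ≤ A) :
    ∃ m1 : ℕ, ∀ m : ℕ, m1 ≤ m → ∀ I ⊆ Inn t m, ∀ J : ℕ,
    ((J : ℝ) + 1 ≤ (1 - ε) * (Real.log (2 ^ m) / Real.log (Real.log (2 ^ m)))) →
    ∫⁻ ω, ENNReal.ofReal |∑ n ∈ I, (wt M t g n J ω - RLC.th n * RR M J n)| ∂Pm ≤
      ENNReal.ofReal (((M : ℝ) / (Nat.totient M : ℝ)) ^ J * 2 ^ m * (m : ℝ) ^ (-A)) := by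
  classical
  have hM := h.hM
  have hr := ratio_one_le hM
  obtain ⟨κ, hκ, hκ8, hsv⟩ := sv h
  obtain ⟨B, m0, hB⟩ := hsv (κ / 8) (2 * A + 8) (by positivity)
  obtain ⟨δ, hδ, m1, hstep⟩ := step_e h hκ hκ8 hε hε1 (show 0 ≤ 2 * A + 8 by positivity)
  obtain ⟨m2, hbad⟩ := bad_loss h hκ (by linarith)
  obtain ⟨m3, hm3⟩ := vr_small (show 0 < κ / 2 by positivity) A
  obtain ⟨m4, hm4⟩ := vr_small hκ A
  obtain ⟨m5, hm5⟩ := vr_small (show 0 < δ / 2 by positivity) A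
  refine ⟨m0 + m1 + m2 + m3 + m4 + m5 + 6, fun m hm I hI J hJ => ?_⟩
  have hI' : ∀ n ∈ I, n ∈ Finset.Ico (2 ^ m) (2 ^ (m + 1)) := fun n hn =>
    (Finset.mem_filter.1 (hI hn)).1
  obtain ⟨hJm, hJ2⟩ := vr_len hε hε1 (show 5 ≤ m by omega) hJ
  have hm6 : (6 : ℝ) ≤ m := by exact_mod_cast (show 6 ≤ m by omega)
  have hmp : (0 : ℝ) < m := by linarith
  set r : ℝ := (M : ℝ) / (Nat.totient M : ℝ) with hrdef
  have hrJ : 1 ≤ r ^ J := one_le_pow₀ hr
  have hJ0 : (0 : ℝ) ≤ J := Nat.cast_nonneg J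
  -- the three small quantities
  set α : ℝ := (m : ℝ) ^ (-(A + 4)) with hα
  set β : ℝ := (2 : ℝ) ^ ((1 - δ / 2) * (m : ℝ)) with hβ
  have hα0 : 0 ≤ α := Real.rpow_nonneg hmp.le _
  have hβ0 : 0 ≤ β := Real.rpow_nonneg (by norm_num) _
  have hα2 : α ^ 2 = (m : ℝ) ^ (-(2 * A + 8)) := by
    rw [hα, ← Real.rpow_natCast, ← Real.rpow_mul hmp.le]
    congr 1
    push_cast
    ring
  have hβ2 : β ^ 2 = (2 : ℝ) ^ ((2 - δ) * (m : ℝ)) := by
    rw [hβ, ← Real.rpow_natCast, ← Real.rpow_mul (by norm_num)]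
    congr 1
    push_cast
    ring
  have hαA : α = (m : ℝ) ^ (-A) * ((m : ℝ) ^ 4)⁻¹ := by
    rw [hα, show -(A + 4) = -A + -(4 : ℝ) by ring, Real.rpow_add hmp, Real.rpow_neg hmp.le 4]
    congr 2
    rw [show (4 : ℝ) = ((4 : ℕ) : ℝ) by norm_num, Real.rpow_natCast]
  have hmA1 : (m : ℝ) ^ (-A) ≤ 1 := Real.rpow_le_one_of_one_le_of_nonpos (by linarith) (by linarith)
  have hmA0 : 0 < (m : ℝ) ^ (-A) := Real.rpow_pos_of_pos hmp _
  have hαm : (m : ℝ) * α ≤ 1 := by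
    rw [hαA]
    have h1 : ((m : ℝ) ^ 4)⁻¹ * m ≤ 1 := by
      rw [inv_mul_le_iff₀ (by positivity), mul_one]
      calc (m : ℝ) = m ^ 1 := (pow_one _).symm
        _ ≤ m ^ 4 := pow_le_pow_right₀ (by linarith) (by norm_num)
    calc (m : ℝ) * ((m : ℝ) ^ (-A) * ((m : ℝ) ^ 4)⁻¹) = (m : ℝ) ^ (-A) * (((m : ℝ) ^ 4)⁻¹ * m) := by ring
      _ ≤ 1 * 1 := mul_le_mul hmA1 h1 (by positivity) zero_le_one
      _ = 1 := one_mul 1
  have hsplit : ∀ c : ℝ, (2 : ℝ) ^ ((1 - c) * (m : ℝ)) = 2 ^ m * (2 : ℝ) ^ (-(c * (m : ℝ))) := by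
    intro c
    rw [show (1 - c) * (m : ℝ) = (m : ℝ) + -(c * (m : ℝ)) by ring, Real.rpow_add (by norm_num),
      Real.rpow_natCast]
  have hβm : β ≤ 2 ^ m := by
    rw [hβ, hsplit]
    have h1 : (2 : ℝ) ^ (-(δ / 2 * (m : ℝ))) ≤ 1 :=
      Real.rpow_le_one_of_one_le_of_nonpos (by norm_num) (by
        have : 0 ≤ δ / 2 * (m : ℝ) := by positivity
        linarith)
    calc (2 : ℝ) ^ m * (2 : ℝ) ^ (-(δ / 2 * (m : ℝ))) ≤ 2 ^ m * 1 :=
          mul_le_mul_of_nonneg_left h1 (by positivity)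
      _ = _ := mul_one _
  -- the norms
  have hD : ∀ j < J, ∫⁻ ω, ENNReal.ofReal ((Vt M t g B J I j ω - Ut M t g B J I j ω) ^ 2) ∂Pm ≤
      ENNReal.ofReal (α ^ 2) * ∫⁻ ω, ENNReal.ofReal (Ut M t g B J I j ω ^ 2) ∂Pm + ENNReal.ofReal (β ^ 2) := by
    intro j hj
    rw [hα2, hβ2]
    exact hstep B m0 hB m (by omega) (by omega) I hI J hJ j hj
  have hV := vr_norm hM t g B J I (show 1 ≤ m by omega) hI' hJm hα0 hβ0 hαm hβm hD
  -- the losses
  have hbl : ∀ j ≤ J, ∫⁻ ω, ENNReal.ofReal (∑ n ∈ I, (wt M t g n j ω - wb M t g B n j ω)) ∂Pm ≤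
      ENNReal.ofReal ((2 : ℝ) ^ ((1 - κ / 2) * (m : ℝ))) := by
    intro j hj
    apply vr_loss
    apply hbad B m0 hB.card m (by omega) (by omega) I hI j
    have : (j : ℝ) ≤ J := by exact_mod_cast hj
    linarith
  set S0 : ℝ := r ^ J * ((m : ℝ) + 1) *
    (((Finset.Ico (2 ^ m) (2 ^ (m + 1))).filter fun z => z ∈ B).card : ℝ) with hS0
  have hS : ∀ ω, |Ut M t g B J I 0 ω - ∑ n ∈ I, RLC.th n * RR M J n| ≤ S0 :=
    fun ω => vr_start hM t g B J I hI' ω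
  have hS00 : 0 ≤ S0 := by positivity
  have hS1 : S0 ≤ r ^ J * ((m : ℝ) + 1) * (2 : ℝ) ^ ((1 - κ) * (m : ℝ)) :=
    mul_le_mul_of_nonneg_left (hB.card m (by omega)) (by positivity)
  have hpt := vr_point hM t g B J I S0 hS
  set γ : ℝ := (2 : ℝ) ^ ((1 - κ / 2) * (m : ℝ)) with hγ
  have hγ0 : 0 ≤ γ := Real.rpow_nonneg (by norm_num) _
  have hmeas1 : Measurable fun ω => ENNReal.ofReal (∑ n ∈ I, (wt M t g n J ω - wb M t g B n J ω)) :=
    (Finset.measurable_fun_sum _ fun n _ => (wt_meas M t g n J).sub (wb_meas M t g B n J)).ennreal_ofReal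
  have hmeas2 : ∀ j, Measurable fun ω => ENNReal.ofReal |Vt M t g B J I j ω - Ut M t g B J I j ω| := fun j =>
    (continuous_abs.measurable.comp ((vr_vt_meas M t g B J I j).sub (vr_ut_meas M t g B J I j))).ennreal_ofReal
  have hmeas3 : ∀ j, Measurable fun ω => ENNReal.ofReal (r ^ J *
      ∑ n ∈ I, (wt M t g n (j + 1) ω - wb M t g B n (j + 1) ω)) := fun j =>
    ((Finset.measurable_fun_sum _ fun n _ =>
      (wt_meas M t g n (j + 1)).sub (wb_meas M t g B n (j + 1))).const_mul (r ^ J)).ennreal_ofReal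
  calc ∫⁻ ω, ENNReal.ofReal |∑ n ∈ I, (wt M t g n J ω - RLC.th n * RR M J n)| ∂Pm
      ≤ ∫⁻ ω, (ENNReal.ofReal (∑ n ∈ I, (wt M t g n J ω - wb M t g B n J ω)) +
          ∑ j ∈ Finset.range J, ENNReal.ofReal |Vt M t g B J I j ω - Ut M t g B J I j ω| +
          ∑ j ∈ Finset.range J, ENNReal.ofReal (r ^ J *
            ∑ n ∈ I, (wt M t g n (j + 1) ω - wb M t g B n (j + 1) ω)) + ENNReal.ofReal S0) ∂Pm := by
        apply lintegral_mono
        intro ω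
        have ha : 0 ≤ ∑ n ∈ I, (wt M t g n J ω - wb M t g B n J ω) :=
          Finset.sum_nonneg fun n _ => sub_nonneg.2 (wb_le_wt M t g B n J ω)
        have hc : ∀ j, 0 ≤ r ^ J * ∑ n ∈ I, (wt M t g n (j + 1) ω - wb M t g B n (j + 1) ω) := fun j =>
          mul_nonneg (by positivity)
            (Finset.sum_nonneg fun n _ => sub_nonneg.2 (wb_le_wt M t g B n (j + 1) ω))
        have hb' : 0 ≤ ∑ j ∈ Finset.range J, |Vt M t g B J I j ω - Ut M t g B J I j ω| :=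
          Finset.sum_nonneg fun j _ => abs_nonneg _
        have hc' : 0 ≤ ∑ j ∈ Finset.range J, (r ^ J *
            ∑ n ∈ I, (wt M t g n (j + 1) ω - wb M t g B n (j + 1) ω)) :=
          Finset.sum_nonneg fun j _ => hc j
        show ENNReal.ofReal _ ≤ _
        refine (ENNReal.ofReal_le_ofReal (hpt ω)).trans (le_of_eq ?_)
        rw [ENNReal.ofReal_add (by positivity) hS00, ENNReal.ofReal_add (by positivity) hc',
          ENNReal.ofReal_add ha hb', ENNReal.ofReal_sum_of_nonneg (fun j _ => abs_nonneg _),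
          ENNReal.ofReal_sum_of_nonneg (fun j _ => hc j)]
    _ = ∫⁻ ω, ENNReal.ofReal (∑ n ∈ I, (wt M t g n J ω - wb M t g B n J ω)) ∂Pm +
          ∑ j ∈ Finset.range J, ∫⁻ ω, ENNReal.ofReal |Vt M t g B J I j ω - Ut M t g B J I j ω| ∂Pm +
          ∑ j ∈ Finset.range J, ∫⁻ ω, ENNReal.ofReal (r ^ J *
            ∑ n ∈ I, (wt M t g n (j + 1) ω - wb M t g B n (j + 1) ω)) ∂Pm + ENNReal.ofReal S0 := by
        rw [lintegral_add_right _ measurable_const, lintegral_const, measure_univ, mul_one,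
          lintegral_add_right _ (Finset.measurable_fun_sum _ fun j _ => hmeas3 j),
          lintegral_finsetSum _ (fun j _ => hmeas3 j),
          lintegral_add_right _ (Finset.measurable_fun_sum _ fun j _ => hmeas2 j),
          lintegral_finsetSum _ (fun j _ => hmeas2 j)]
    _ ≤ ENNReal.ofReal γ + ∑ j ∈ Finset.range J, ENNReal.ofReal (α * (9 * (r ^ J * 2 ^ m * m)) + β) +
          ∑ j ∈ Finset.range J, ENNReal.ofReal (r ^ J * γ) + ENNReal.ofReal S0 := by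
        gcongr with j hj j hj
        · exact hbl J le_rfl
        · exact hV j (Finset.mem_range.1 hj)
        · have h1 : ∀ ω, ENNReal.ofReal (r ^ J * ∑ n ∈ I, (wt M t g n (j + 1) ω - wb M t g B n (j + 1) ω)) =
              ENNReal.ofReal (r ^ J) *
                ENNReal.ofReal (∑ n ∈ I, (wt M t g n (j + 1) ω - wb M t g B n (j + 1) ω)) := fun ω =>
            ENNReal.ofReal_mul (by positivity)
          simp_rw [h1]
          rw [lintegral_const_mul' _ _ ENNReal.ofReal_ne_top, ENNReal.ofReal_mul (by positivity)]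
          gcongr
          exact hbl (j + 1) (Finset.mem_range.1 hj)
    _ = ENNReal.ofReal (γ + J * (α * (9 * (r ^ J * 2 ^ m * m)) + β) + J * (r ^ J * γ) + S0) := by
        have hE1 : 0 ≤ α * (9 * (r ^ J * 2 ^ m * m)) + β := by positivity
        have hE2 : 0 ≤ r ^ J * γ := by positivity
        rw [Finset.sum_const, Finset.sum_const, Finset.card_range, nsmul_eq_mul, nsmul_eq_mul]
        generalize α * (9 * (r ^ J * 2 ^ m * m)) + β = E1 at hE1 ⊢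
        generalize r ^ J * γ = E2 at hE2 ⊢
        rw [ENNReal.ofReal_add (p := γ + J * E1 + J * E2) (by positivity) hS00,
          ENNReal.ofReal_add (p := γ + J * E1) (by positivity) (by positivity),
          ENNReal.ofReal_add (p := γ) hγ0 (by positivity), ENNReal.ofReal_mul hJ0, ENNReal.ofReal_mul hJ0,
          ENNReal.ofReal_natCast]
    _ ≤ ENNReal.ofReal (r ^ J * 2 ^ m * (m : ℝ) ^ (-A)) := by
        apply ENNReal.ofReal_le_ofReal
        have h3 := hm3 m (by omega)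
        have h4 := hm4 m (by omega)
        have h5 := hm5 m (by omega)
        have hγs : γ = 2 ^ m * (2 : ℝ) ^ (-(κ / 2 * (m : ℝ))) := hsplit (κ / 2)
        have hβs : β = 2 ^ m * (2 : ℝ) ^ (-(δ / 2 * (m : ℝ))) := hsplit (δ / 2)
        have hκs := hsplit κ
        have h2m : (0 : ℝ) < 2 ^ m := by positivity
        set P : ℝ := r ^ J * 2 ^ m with hP
        have hP0 : 0 < P := by positivity
        have hPm : (2 : ℝ) ^ m ≤ P := by
          rw [hP]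
          nlinarith
        -- the four parts
        have e1 : γ + J * (r ^ J * γ) ≤ P * ((m : ℝ) ^ (-A) / 4) := by
          have h6 : γ ≤ r ^ J * γ := le_mul_of_one_le_left hγ0 hrJ
          calc γ + J * (r ^ J * γ) ≤ r ^ J * γ + J * (r ^ J * γ) := by linarith
            _ = ((J : ℝ) + 1) * (r ^ J * γ) := by ring
            _ ≤ ((m : ℝ) + 1) * (r ^ J * γ) := mul_le_mul_of_nonneg_right (by linarith) (by positivity)
            _ = P * (((m : ℝ) + 1) * (2 : ℝ) ^ (-(κ / 2 * (m : ℝ)))) := by rw [hγs, hP]; ring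
            _ ≤ _ := mul_le_mul_of_nonneg_left h3 hP0.le
        have e2 : S0 ≤ P * ((m : ℝ) ^ (-A) / 4) := by
          calc S0 ≤ r ^ J * ((m : ℝ) + 1) * (2 : ℝ) ^ ((1 - κ) * (m : ℝ)) := hS1
            _ = P * (((m : ℝ) + 1) * (2 : ℝ) ^ (-(κ * (m : ℝ)))) := by rw [hκs, hP]; ring
            _ ≤ _ := mul_le_mul_of_nonneg_left h4 hP0.le
        have e3 : J * β ≤ P * ((m : ℝ) ^ (-A) / 4) := by
          calc J * β ≤ ((m : ℝ) + 1) * β := mul_le_mul_of_nonneg_right (by linarith) hβ0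
            _ = 2 ^ m * (((m : ℝ) + 1) * (2 : ℝ) ^ (-(δ / 2 * (m : ℝ)))) := by rw [hβs]; ring
            _ ≤ P * ((m : ℝ) ^ (-A) / 4) := mul_le_mul hPm h5 (by positivity) hP0.le
        have e4 : J * (α * (9 * (P * m))) ≤ P * ((m : ℝ) ^ (-A) / 4) := by
          have h6 : (J : ℝ) * (α * (9 * (P * m))) ≤ m * (α * (9 * (P * m))) :=
            mul_le_mul_of_nonneg_right (by linarith) (by positivity)
          have h7 : (m : ℝ) * (α * (9 * (P * m))) = P * ((m : ℝ) ^ (-A) * (9 * (m ^ 2 * ((m : ℝ) ^ 4)⁻¹))) := by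
            rw [hαA]; ring
          have h8 : (m : ℝ) ^ 2 * ((m : ℝ) ^ 4)⁻¹ = ((m : ℝ) ^ 2)⁻¹ := by
            field_simp
          have h9 : 9 * ((m : ℝ) ^ 2)⁻¹ ≤ 1 / 4 := by
            rw [← div_eq_mul_inv, div_le_div_iff₀ (by positivity) (by norm_num)]
            nlinarith
          refine h6.trans ?_
          rw [h7, h8]
          apply mul_le_mul_of_nonneg_left _ hP0.le
          calc (m : ℝ) ^ (-A) * (9 * ((m : ℝ) ^ 2)⁻¹) ≤ (m : ℝ) ^ (-A) * (1 / 4) :=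
                mul_le_mul_of_nonneg_left h9 hmA0.le
            _ = _ := by ring
        calc γ + J * (α * (9 * (P * m)) + β) + J * (r ^ J * γ) + S0
            = (γ + J * (r ^ J * γ)) + S0 + J * β + J * (α * (9 * (P * m))) := by ring
          _ ≤ P * ((m : ℝ) ^ (-A) / 4) + P * ((m : ℝ) ^ (-A) / 4) + P * ((m : ℝ) ^ (-A) / 4) +
              P * ((m : ℝ) ^ (-A) / 4) := by linarith
          _ = P * (m : ℝ) ^ (-A) := by ring

end RAF
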